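import Mathlib

/-! Job A1: Frobenius acts on tame inertia by raising to a power. -/

set_option autoImplicit false

namespace Pool.Agent.Lib.MP_f8d36e_nt

theorem tame_sq {O G : Type} [CommRing O] [Group G] [MulSemiringAction G O]
    (Q : Ideal O) {g : G} (hg : ∀ x ∈ Q, g • x ∈ Q) : ∀ x ∈ Q ^ 2, g • x ∈ Q ^ 2 := by
  intro x hx
  rw [pow_two] at hx ⊢
  refine Submodule.mul_induction_on hx ?_ ?_
  · intro a ha b hb
    rw [smul_mul']
    exact Ideal.mul_mem_mul (hg a ha) (hg b hb)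
  · intro a b ha hb
    rw [smul_add]
    exact Ideal.add_mem _ ha hb

theorem tame_all {O G : Type} [CommRing O] [Group G] [MulSemiringAction G O]
    (Q : Ideal O) {s : G} (h1 : ∀ x : O, s • x - x ∈ Q) (h2 : ∀ x ∈ Q, s • x - x ∈ Q ^ 2) :
    ∀ i : ℕ, ∀ x ∈ Q ^ i, s • x - x ∈ Q ^ (i + 1) := by
  intro i
  induction i with
  | zero =>
    intro x _
    rw [zero_add, pow_one]
    exact h1 x
  | succ i ih =>
    intro x hx
    rw [pow_succ] at hx
    refine Submodule.mul_induction_on hx ?_ ?_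
    · intro a ha b hb
      have hsb : s • b ∈ Q := by
        have := Ideal.add_mem _ (h1 b) hb
        rwa [sub_add_cancel] at this
      have e : s • (a * b) - a * b = (s • a - a) * s • b + a * (s • b - b) := by
        rw [smul_mul']
        ring
      rw [e]
      refine Ideal.add_mem _ ?_ ?_
      · rw [pow_succ]
        exact Ideal.mul_mem_mul (ih a ha) hsb
      · rw [show i + 1 + 1 = i + 2 from rfl, pow_add]
        exact Ideal.mul_mem_mul ha (h2 b hb)
    · intro a b ha hb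
      have e : s • (a + b) - (a + b) = (s • a - a) + (s • b - b) := by
        rw [smul_add]
        ring
      rw [e]
      exact Ideal.add_mem _ ha hb

theorem tame_pow {O G : Type} [CommRing O] [Group G] [MulSemiringAction G O]
    (Q : Ideal O) {s : G} (h : ∀ i : ℕ, ∀ x ∈ Q ^ i, s • x - x ∈ Q ^ (i + 1)) (n : ℕ) :
    ∀ i : ℕ, ∀ x ∈ Q ^ i, s ^ n • x - x ∈ Q ^ (i + 1) := by
  induction n with
  | zero =>
    intro i x _
    rw [pow_zero, one_smul, sub_self]
    exact Ideal.zero_mem _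
  | succ n ih =>
    intro i x hx
    have hsx : s • x ∈ Q ^ i := by
      have := Ideal.add_mem _ (Ideal.pow_le_pow_right (Nat.le_succ i) (h i x hx)) hx
      rwa [sub_add_cancel] at this
    have e : s ^ (n + 1) • x - x = (s ^ n • s • x - s • x) + (s • x - x) := by
      rw [pow_succ, mul_smul]
      ring
    rw [e]
    exact Ideal.add_mem _ (ih i _ hsx) (h i x hx)

theorem tame_two {O G : Type} [CommRing O] [IsDedekindDomain O] [Group G] [MulSemiringAction G O]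
    (hf : ∀ g : G, (∀ x : O, g • x = x) → g = 1)
    (Q : Ideal O) [hM : Q.IsMaximal] (h2 : (2 : O) ∉ Q) {s : G}
    (h : ∀ i : ℕ, ∀ x ∈ Q ^ i, s • x - x ∈ Q ^ (i + 1)) (hs : s ^ 2 = 1) : s = 1 := by
  obtain ⟨c, q, hq, hcq⟩ := hM.exists_inv h2
  refine hf s fun x => ?_
  have hy : s • (x - s • x) = -(x - s • x) := by
    rw [smul_sub, ← mul_smul, ← pow_two, hs, one_smul]
    ring
  have hall : ∀ i : ℕ, x - s • x ∈ Q ^ i := by
    intro i
    induction i with
    | zero =>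
      rw [pow_zero, Ideal.one_eq_top]
      exact Submodule.mem_top
    | succ i ih =>
      have h1 := h i _ ih
      rw [hy] at h1
      have e : x - s • x = (-c) * (-(x - s • x) - (x - s • x)) + (x - s • x) * q := by
        linear_combination (-(x - s • x)) * hcq
      rw [e]
      refine Ideal.add_mem _ (Ideal.mul_mem_left _ _ h1) ?_
      rw [pow_succ]
      exact Ideal.mul_mem_mul ih hq
  have h0 : x - s • x ∈ ⨅ i : ℕ, Q ^ i := Ideal.mem_iInf.mpr hall
  rw [Ideal.iInf_pow_eq_bot_of_isDomain Q hM.ne_top, Ideal.mem_bot] at h0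
  exact (sub_eq_zero.mp h0).symm

theorem tame_key {O G : Type} [CommRing O] [IsDedekindDomain O] [Group G] [MulSemiringAction G O]
    (hf : ∀ g : G, (∀ x : O, g • x = x) → g = 1)
    (Q : Ideal O) [Q.IsMaximal] (h2 : (2 : O) ∉ Q) (n : ℕ) : ∀ s : G,
    (∀ i : ℕ, ∀ x ∈ Q ^ i, s • x - x ∈ Q ^ (i + 1)) → s ^ 2 ^ n = 1 → s = 1 := by
  induction n with
  | zero =>
    intro s _ hs
    rwa [pow_zero, pow_one] at hs
  | succ n ih =>
    intro s h hs
    refine tame_two hf Q h2 h (ih (s ^ 2) (tame_pow Q h 2) ?_)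
    rw [← pow_mul, ← pow_succ', hs]

theorem tame_char {O G : Type} [CommRing O] [IsDedekindDomain O] [Group G] [MulSemiringAction G O]
    (Q : Ideal O) [hM : Q.IsMaximal] (hQ : Q ≠ ⊥) {t : G} (ht : ∀ x : O, t • x - x ∈ Q) :
    ∃ a : O, ∀ x ∈ Q, t • x - a * x ∈ Q ^ 2 := by
  have hp : ∀ x ∈ Q, t • x ∈ Q := by
    intro x hx
    have := Ideal.add_mem _ (ht x) hx
    rwa [sub_add_cancel] at this
  obtain ⟨p, hp1, hp2⟩ := Ideal.exists_mem_pow_notMem_pow_succ Q hQ hM.ne_top 1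
  have hpQ : p ∈ Q := by rwa [pow_one] at hp1
  obtain ⟨a, e, he, hae⟩ := Ideal.exists_mul_add_mem_pow_succ hQ p (t • p) hp1 hp2
    (by rw [pow_one]; exact hp p hpQ)
  refine ⟨a, fun x hx => ?_⟩
  obtain ⟨d, e', he', hde⟩ := Ideal.exists_mul_add_mem_pow_succ hQ p x hp1 hp2
    (by rw [pow_one]; exact hx)
  have he2 : e ∈ Q ^ 2 := he
  have he2' : e' ∈ Q ^ 2 := he'
  have eq : t • x - a * x
      = a * (p * (t • d - d)) + (t • d) * e + t • e' - a * e' := by
    rw [← hde, smul_add, smul_mul', ← hae]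
    ring
  rw [eq]
  refine Ideal.sub_mem _ (Ideal.add_mem _ (Ideal.add_mem _ ?_ ?_) ?_) ?_
  · refine Ideal.mul_mem_left _ _ ?_
    rw [pow_two]
    exact Ideal.mul_mem_mul hpQ (ht d)
  · exact Ideal.mul_mem_left _ _ he2
  · exact tame_sq Q hp e' he2'
  · exact Ideal.mul_mem_left _ _ he2'

theorem tame_char_pow {O G : Type} [CommRing O] [Group G] [MulSemiringAction G O]
    (Q : Ideal O) {t : G} (hp : ∀ x ∈ Q, t • x ∈ Q) {a : O}
    (ha : ∀ x ∈ Q, t • x - a * x ∈ Q ^ 2) (n : ℕ) :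
    ∀ x ∈ Q, t ^ n • x - a ^ n * x ∈ Q ^ 2 := by
  induction n with
  | zero =>
    intro x _
    rw [pow_zero, pow_zero, one_smul, one_mul, sub_self]
    exact Ideal.zero_mem _
  | succ n ih =>
    intro x hx
    have e : t ^ (n + 1) • x - a ^ (n + 1) * x
        = (t ^ n • t • x - a ^ n * t • x) + a ^ n * (t • x - a * x) := by
      rw [pow_succ t, mul_smul]
      ring
    rw [e]
    exact Ideal.add_mem _ (ih _ (hp x hx)) (Ideal.mul_mem_left _ _ (ha x hx))

theorem tame {O G : Type} [CommRing O] [IsDedekindDomain O] [Group G] [MulSemiringAction G O]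
    (hf : ∀ g : G, (∀ x : O, g • x = x) → g = 1) (hG : ∀ g : G, ∃ n : ℕ, g ^ 2 ^ n = 1)
    (Q : Ideal O) [Q.IsMaximal] (hQ : Q ≠ ⊥) (h2 : (2 : O) ∉ Q) (l : ℕ) (hl : 0 < l) {φ t : G}
    (hφ : ∀ x : O, φ • x - x ^ l ∈ Q) (ht : t ∈ Q.inertia G) : φ * t * φ⁻¹ = t ^ l := by
  have hP : Q.IsPrime := Ideal.IsMaximal.isPrime inferInstance
  have ht' : ∀ x : O, t • x - x ∈ Q := ht
  have hpres : ∀ g : G, g ∈ Q.inertia G → ∀ x ∈ Q, g • x ∈ Q := by
    intro g hg x hx
    have hg' : ∀ x : O, g • x - x ∈ Q := hg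
    have := Ideal.add_mem _ (hg' x) hx
    rwa [sub_add_cancel] at this
  have hφQ : ∀ x ∈ Q, φ • x ∈ Q := by
    intro x hx
    have := Ideal.add_mem _ (hφ x) (Ideal.pow_mem_of_mem Q hx l hl)
    rwa [sub_add_cancel] at this
  have hφQ' : ∀ x ∈ Q, φ⁻¹ • x ∈ Q := by
    intro x hx
    have h1 := hφ (φ⁻¹ • x)
    rw [smul_inv_smul] at h1
    have h3 := Ideal.sub_mem _ hx h1
    rw [sub_sub_cancel] at h3
    exact hP.mem_of_pow_mem l h3
  have hu : φ * t * φ⁻¹ ∈ Q.inertia G := by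
    intro x
    have h1 := hφQ _ (ht' (φ⁻¹ • x))
    rw [smul_sub, smul_inv_smul, ← mul_smul, ← mul_smul] at h1
    exact h1
  have hui : (φ * t * φ⁻¹)⁻¹ ∈ Q.inertia G := Subgroup.inv_mem _ hu
  have hs : (φ * t * φ⁻¹)⁻¹ * t ^ l ∈ Q.inertia G :=
    Subgroup.mul_mem _ hui (Subgroup.pow_mem _ ht l)
  obtain ⟨a, ha⟩ := tame_char Q hQ ht'
  have hs2 : ∀ x ∈ Q, ((φ * t * φ⁻¹)⁻¹ * t ^ l) • x - x ∈ Q ^ 2 := by
    intro x hx
    have h1 := tame_char_pow Q (hpres t ht) ha l x hx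
    have h3 := tame_sq Q hφQ _ (ha _ (hφQ' x hx))
    rw [smul_sub, smul_mul', smul_inv_smul, ← mul_smul, ← mul_smul] at h3
    have h4 : (φ • a - a ^ l) * x ∈ Q ^ 2 := by
      rw [pow_two]
      exact Ideal.mul_mem_mul (hφ a) hx
    have h5 : t ^ l • x - (φ * t * φ⁻¹) • x ∈ Q ^ 2 := by
      have e : t ^ l • x - (φ * t * φ⁻¹) • x = (t ^ l • x - a ^ l * x)
          - ((φ * t * φ⁻¹) • x - φ • a * x) - (φ • a - a ^ l) * x := by ring
      rw [e]
      exact Ideal.sub_mem _ (Ideal.sub_mem _ h1 h3) h4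
    have h6 := tame_sq Q (hpres _ hui) _ h5
    rw [smul_sub, inv_smul_smul, ← mul_smul] at h6
    exact h6
  obtain ⟨n, hn⟩ := hG ((φ * t * φ⁻¹)⁻¹ * t ^ l)
  have h1 := tame_key hf Q h2 n _ (tame_all Q hs hs2) hn
  exact inv_mul_eq_one.mp h1

end Pool.Agent.Lib.MP_f8d36e_nt
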