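import Pool.Agent.Lib.MP_f8d36e_nt.Defs
import Pool.Agent.Lib.MP_f8d36e_nt.Tame

/-! Job A2: primes of the ring of all algebraic integers. -/

set_option autoImplicit false

open scoped Pointwise

namespace Pool.Agent.Lib.MP_f8d36e_nt

section general

variable {B G : Type} [CommRing B] [Group G] [MulSemiringAction G B] [TopologicalSpace G]
  [CompactSpace G] [TotallyDisconnectedSpace G] [IsTopologicalGroup G]

/-- Primes with the same fixed elements are conjugate. -/
theorem primes_trans (ho : ∀ x : B, IsOpen (MulAction.stabilizer G x : Set G)) (P Q : Ideal B)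
    [P.IsPrime] [Q.IsPrime] (h : ∀ x : B, (∀ g : G, g • x = x) → (x ∈ P ↔ x ∈ Q)) :
    ∃ g : G, Q = g • P := by
  let : TopologicalSpace B := ⊥
  have : DiscreteTopology B := ⟨rfl⟩
  have : ContinuousSMul G B := continuousSMul_iff_stabilizer_isOpen.2 ho
  have : Algebra.IsInvariant (FixedPoints.subring B G) B G := ⟨fun b hb => ⟨⟨b, hb⟩, rfl⟩⟩
  exact Algebra.IsInvariant.exists_smul_of_under_eq_of_profinite (A := FixedPoints.subring B G) P Q
    (Ideal.ext fun x => h x.1 x.2)

/-- Automorphisms of the residue ring that fix the fixed elements lift. -/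
theorem primes_lift (ho : ∀ x : B, IsOpen (MulAction.stabilizer G x : Set G)) (P : Ideal B)
    [P.IsPrime] (σ : (B ⧸ P) ≃+* (B ⧸ P))
    (h : ∀ x : B, (∀ g : G, g • x = x) → σ (Ideal.Quotient.mk P x) = Ideal.Quotient.mk P x) :
    ∃ g ∈ MulAction.stabilizer G P, ∀ x : B,
      Ideal.Quotient.mk P (g • x) = σ (Ideal.Quotient.mk P x) := by
  let : TopologicalSpace B := ⊥
  have : DiscreteTopology B := ⟨rfl⟩
  have : ContinuousSMul G B := continuousSMul_iff_stabilizer_isOpen.2 ho
  have : Algebra.IsInvariant (FixedPoints.subring B G) B G := ⟨fun b hb => ⟨⟨b, hb⟩, rfl⟩⟩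
  obtain ⟨g, hg⟩ := Ideal.Quotient.stabilizerHom_surjective_of_profinite (G := G)
    (P.under (FixedPoints.subring B G)) P (AlgEquiv.ofRingEquiv (f := σ) fun a => by
      obtain ⟨a, rfl⟩ := Ideal.Quotient.mk_surjective a
      exact h a.1 a.2)
  exact ⟨g.1, g.2, fun x => DFunLike.congr_fun hg (Ideal.Quotient.mk P x)⟩

end general

instance primes_closure : IsAlgClosure ℚ Qbar := AlgebraicClosure.instIsAlgClosure ℚ

instance primes_algebraic : Algebra.IsAlgebraic ℚ Qbar := primes_closure.isAlgebraic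

instance primes_galois : IsGalois ℚ Qbar := inferInstance

theorem primes_open (x : Zbar) : IsOpen (MulAction.stabilizer Gam x : Set Gam) := by
  have : MulAction.stabilizer Gam x = MulAction.stabilizer Gam (x : Qbar) := by
    ext g
    simp only [MulAction.mem_stabilizer_iff, Subtype.ext_iff, integralClosure.coe_smul]
  rw [this]
  exact stabilizer_isOpen_of_isIntegral _

/-- An algebraic integer that is fixed by the whole group is an integer. -/
theorem primes_fixed (x : Zbar) (h : ∀ g : Gam, g • x = x) : ∃ n : ℤ, x = n := by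
  obtain ⟨q, hq⟩ := (InfiniteGalois.mem_range_algebraMap_iff_fixed (k := ℚ) (x : Qbar)).2
    fun g => congrArg Subtype.val (h g)
  have h1 : IsIntegral ℤ q :=
    (isIntegral_algebraMap_iff (algebraMap ℚ Qbar).injective).1 (hq ▸ x.2)
  obtain ⟨n, hn⟩ := IsIntegrallyClosed.isIntegral_iff.1 h1
  refine ⟨n, Subtype.ext ?_⟩
  rw [← hq, ← hn]
  simp

theorem exists_maximal {p : ℕ} (hp : p.Prime) :
    ∃ P : Ideal Zbar, P.IsMaximal ∧ (p : Zbar) ∈ P := by
  have : Fact p.Prime := ⟨hp⟩
  obtain ⟨Q, h1, h2⟩ := Ideal.exists_maximal_ideal_liesOver_of_isIntegral (S := Zbar)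
    (Ideal.span {(p : ℤ)})
  refine ⟨Q, h1, ?_⟩
  have : (p : ℤ) ∈ Q.under ℤ := h2.over ▸ Ideal.mem_span_singleton_self _
  simpa using Ideal.mem_comap.1 this

theorem exists_prime_mem (P : Ideal Zbar) (hP : P.IsMaximal) :
    ∃ p : ℕ, p.Prime ∧ (p : Zbar) ∈ P := by
  have h1 : (P.comap (algebraMap ℤ Zbar)).IsMaximal :=
    Ideal.isMaximal_comap_of_isIntegral_of_isMaximal P
  have h2 := Ring.ne_bot_of_isMaximal_of_not_isField h1 Int.not_isField
  obtain ⟨a, ha⟩ := (IsPrincipalIdealRing.principal (P.comap (algebraMap ℤ Zbar))).principal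
  have h3 : a ≠ 0 := by
    rintro rfl
    exact h2 (by simpa using ha)
  have h4 : Prime a := (Ideal.span_singleton_prime h3).1 (by
    have := h1.isPrime
    rwa [ha] at this)
  refine ⟨a.natAbs, Int.prime_iff_natAbs_prime.1 h4, ?_⟩
  have : (a.natAbs : ℤ) ∈ P.comap (algebraMap ℤ Zbar) := by
    rw [ha]
    exact Ideal.mem_span_singleton.2 (Int.dvd_natAbs.2 dvd_rfl)
  simpa only [eq_intCast, Int.cast_natCast] using Ideal.mem_comap.1 this

theorem exists_frob {p : ℕ} (hp : p.Prime) (P : Ideal Zbar) (hP : P.IsMaximal)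
    (h : (p : Zbar) ∈ P) : ∃ φ : Gam, φ ∈ MulAction.stabilizer Gam P ∧
      ∀ x : Zbar, φ • x - x ^ p ∈ P := by
  have : Fact p.Prime := ⟨hp⟩
  have : CharP (Zbar ⧸ P) p := (CharP.charP_iff_prime_eq_zero hp).2 (by
    rw [← map_natCast (Ideal.Quotient.mk P)]
    exact Ideal.Quotient.eq_zero_iff_mem.2 h)
  have hb : Function.Bijective (frobenius (Zbar ⧸ P) p) := by
    refine ⟨frobenius_inj _ _, fun a => ?_⟩
    obtain ⟨a, rfl⟩ := Ideal.Quotient.mk_surjective a
    obtain ⟨y, hy⟩ := IsAlgClosed.exists_pow_nat_eq (a : Qbar) hp.pos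
    refine ⟨Ideal.Quotient.mk P ⟨y, IsIntegral.of_pow hp.pos (hy ▸ a.2)⟩, ?_⟩
    rw [frobenius_def, ← map_pow]
    exact congrArg _ (Subtype.ext hy)
  obtain ⟨g, h1, h2⟩ := primes_lift primes_open P (RingEquiv.ofBijective _ hb) fun x hx => by
    obtain ⟨n, rfl⟩ := primes_fixed x hx
    rw [map_intCast, map_intCast]
  refine ⟨g, h1, fun x => Ideal.Quotient.eq.1 ?_⟩
  rw [h2, map_pow]
  exact frobenius_def _ _

theorem exists_inertia (H : Subgroup Gam) (hH : H.index = 2) (ho : IsOpen (H : Set Gam))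
    (P : Ideal Zbar) (hP : P.IsMaximal)
    (h : ∀ x : Zbar, (∀ g ∈ H, g • x = x) → ∀ g : Gam, g • x - x ∈ P) :
    ∃ t ∈ P.inertia Gam, t ∉ H := by
  have : CompactSpace H := isCompact_iff_compactSpace.1 (H.isClosed_of_isOpen ho).isCompact
  have hs (x : Zbar) : IsOpen (MulAction.stabilizer H x : Set H) :=
    (primes_open x).preimage continuous_subtype_val
  obtain ⟨g, hg⟩ : ∃ g, g ∉ H := by
    by_contra hc
    have : H = ⊤ := (Subgroup.eq_top_iff' H).2 fun g => by_contra fun hg => hc ⟨g, hg⟩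
    rw [this, Subgroup.index_top] at hH
    omega
  obtain ⟨a, ha⟩ := primes_trans hs (g • P) P fun x hx => by
    have h1 := h x (fun k hk => hx ⟨k, hk⟩) g⁻¹
    rw [Ideal.mem_pointwise_smul_iff_inv_smul_mem]
    exact ⟨fun h2 => by simpa using P.sub_mem h2 h1, fun h2 => by simpa using P.add_mem h1 h2⟩
  have hk : (a : Gam) * g ∈ MulAction.stabilizer Gam P := by
    rw [MulAction.mem_stabilizer_iff, mul_smul]
    exact ha.symm
  obtain ⟨b, -, hb⟩ := primes_lift hs P
    (Ideal.Quotient.stabilizerHom P (P.under ℤ) Gam ⟨_, hk⟩).toRingEquiv fun x hx =>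
      Ideal.Quotient.eq.2 (h x (fun k hk => hx ⟨k, hk⟩) _)
  refine ⟨a * g * (b : Gam)⁻¹, fun x => Ideal.Quotient.eq.1 ?_, fun hc => hg ?_⟩
  · have h1 : Ideal.Quotient.mk P ((b : Gam) • (b : Gam)⁻¹ • x) =
        Ideal.Quotient.mk P (((a : Gam) * g) • (b : Gam)⁻¹ • x) := hb ((b : Gam)⁻¹ • x)
    rw [mul_smul, ← h1, smul_inv_smul]
  · exact (H.mul_mem_cancel_left a.2).1 ((H.mul_mem_cancel_right (H.inv_mem b.2)).1 hc)

/-- The integers of a subfield inside all algebraic integers. -/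
noncomputable def primesInc (E : IntermediateField ℚ Qbar) : integralClosure ℤ E →+* Zbar :=
  RingHom.codRestrict ((algebraMap E Qbar).comp (algebraMap (integralClosure ℤ E) E))
    (integralClosure ℤ Qbar) fun x => x.2.map (algebraMap E Qbar).toIntAlgHom

theorem primes_inc (E : IntermediateField ℚ Qbar) [Normal ℚ E] (g : Gam)
    (x : integralClosure ℤ E) :
    primesInc E (AlgEquiv.restrictNormalHom E g • x) = g • primesInc E x :=
  Subtype.ext (AlgEquiv.restrictNormal_commutes g E x)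

theorem tame_gam (W : Subgroup Gam) [W.Normal] (ho : IsOpen (W : Set Gam))
    (hW : ∀ g : Gam, ∃ n : ℕ, g ^ 2 ^ n ∈ W) (P : Ideal Zbar) (hP : P.IsMaximal)
    (h2 : (2 : Zbar) ∉ P) {l : ℕ} (hl : 0 < l) {φ t : Gam} (hφ : ∀ x : Zbar, φ • x - x ^ l ∈ P)
    (ht : t ∈ P.inertia Gam) : φ * t * φ⁻¹ * (t ^ l)⁻¹ ∈ W := by
  obtain ⟨E, hE⟩ : ∃ E : IntermediateField ℚ Qbar, E.fixingSubgroup = W :=
    ⟨_, InfiniteGalois.fixingSubgroup_fixedField ⟨W, W.isClosed_of_isOpen ho⟩⟩
  subst hE
  have : FiniteDimensional ℚ E := (InfiniteGalois.isOpen_iff_finite E).1 ho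
  have : IsGalois ℚ E := (InfiniteGalois.normal_iff_isGalois E).1 inferInstance
  have : IsDedekindDomain (integralClosure ℤ E) := integralClosure.isDedekindDomain ℤ ℚ E
  have hker : (AlgEquiv.restrictNormalHom E : Gam →* (E ≃ₐ[ℚ] E)).ker = E.fixingSubgroup :=
    @IntermediateField.restrictNormalHom_ker ℚ Qbar _ _ _ E (IsGalois.to_normal (F := ℚ) (E := E))
  rw [← hker] at hW ⊢
  obtain ⟨p, hp, hpP⟩ := exists_prime_mem P hP
  have hQ : P.comap (primesInc E) ≠ ⊥ := fun hc => by
    have h1 : (p : integralClosure ℤ E) ∈ P.comap (primesInc E) := by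
      rw [Ideal.mem_comap, map_natCast]
      exact hpP
    rw [hc, Ideal.mem_bot, Nat.cast_eq_zero] at h1
    exact hp.ne_zero h1
  have : (P.comap (primesInc E)).IsMaximal := (Ideal.comap_isPrime _ P).isMaximal hQ
  have key := tame (O := integralClosure ℤ E) (G := E ≃ₐ[ℚ] E) (fun g hg => ?_) (fun g => ?_)
    (P.comap (primesInc E)) hQ (fun hc => h2 ?_) l hl (φ := AlgEquiv.restrictNormalHom E φ)
    (t := AlgEquiv.restrictNormalHom E t) (fun x => ?_) fun x => ?_
  · rw [MonoidHom.mem_ker, map_mul, map_mul, map_mul, map_inv, map_inv, map_pow, key,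
      mul_inv_cancel]
  · refine AlgEquiv.ext fun x => ?_
    obtain ⟨y, hy, h1⟩ := ((IsFractionRing.isAlgebraic_iff ℤ ℚ E).2
      (Algebra.IsAlgebraic.isAlgebraic x)).exists_integral_multiple
    have h3 : g (y • x) = y • x := congrArg Subtype.val (hg ⟨y • x, h1⟩)
    rw [map_zsmul] at h3
    exact smul_right_injective E hy h3
  · obtain ⟨g, rfl⟩ := AlgEquiv.restrictNormalHom_surjective (F := ℚ) (K₁ := E) Qbar g
    obtain ⟨n, hn⟩ := hW g
    exact ⟨n, by rw [← map_pow]; exact hn⟩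
  · rw [Ideal.mem_comap, map_ofNat] at hc
    exact hc
  · rw [Ideal.mem_comap, map_sub, map_pow, primes_inc]
    exact hφ _
  · change _ ∈ P.comap (primesInc E)
    rw [Ideal.mem_comap, map_sub, primes_inc]
    exact ht _

theorem exists_conj : ∃ c : Gam, c * c = 1 ∧
    ∀ (x : Qbar) (d : ℤ), d ≠ 0 → x ^ 2 = d → (c x = x ↔ 0 < d) := by
  let j : Qbar →ₐ[ℚ] ℂ := IsAlgClosed.lift
  let : Algebra Qbar ℂ := j.toRingHom.toAlgebra
  have : IsScalarTower ℚ Qbar ℂ := IsScalarTower.of_algebraMap_eq fun q => (j.commutes q).symm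
  let c : Gam := (Complex.conjAe.restrictScalars ℚ).restrictNormal Qbar
  have hc (x : Qbar) : j (c x) = (starRingEnd ℂ) (j x) :=
    AlgEquiv.restrictNormal_commutes (Complex.conjAe.restrictScalars ℚ) Qbar x
  refine ⟨c, AlgEquiv.ext fun x => j.injective ?_, fun x d hd hx => ?_⟩
  · rw [AlgEquiv.mul_apply, AlgEquiv.one_apply]
    change j (c (c x)) = j x
    rw [hc, hc, Complex.conj_conj]
  · have h1 : c x = x ↔ (j x).im = 0 := by
      rw [← Complex.conj_eq_iff_im, ← hc]
      exact ⟨fun h => by rw [h], fun h => j.injective h⟩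
    have h2 : j x * j x = d := by rw [← sq, ← map_pow, hx, map_intCast]
    have h3 := congrArg Complex.re h2
    have h4 := congrArg Complex.im h2
    simp only [Complex.mul_re, Complex.mul_im, Complex.intCast_re, Complex.intCast_im] at h3 h4
    have h5 : (d : ℝ) ≠ 0 := Int.cast_ne_zero.2 hd
    rw [h1, ← Int.cast_pos (R := ℝ)]
    constructor
    · intro h
      rw [h] at h3
      exact lt_of_le_of_ne (by nlinarith [mul_self_nonneg (j x).re]) h5.symm
    · intro h
      by_contra h6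
      have h7 : (j x).re = 0 := (mul_eq_zero.1 (by linarith : (j x).re * (j x).im = 0)).resolve_right h6
      rw [h7] at h3
      nlinarith [mul_self_nonneg (j x).im]

end Pool.Agent.Lib.MP_f8d36e_nt
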