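import Pool.Agent.Lib.MP_f8d36e_nt.CMDefs

/-! Job CM2: the action on torsion points. -/

set_option autoImplicit false

open Pool.Agent.Lib.MP_696deb_nt.Gal PeriodPair

namespace Pool.Agent.Lib.MP_f8d36e_nt

variable {m : ℕ} {δ c : ℂ} {L L' : PeriodPair} {σ σ' : ℂ ≃+* ℂ} {X Y X' Y' : ℤ_[2]}

theorem exists_ext (j : Qbar →+* ℂ) (g : Gam) : ∃ σ, Ext j g σ := by
  have : Countable Qbar := by
    have h := Algebraic.countable ℚ Qbar
    rw [Set.eq_univ_of_forall (s := {x : Qbar | IsAlgebraic ℚ x})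
      fun x => Algebra.IsAlgebraic.isAlgebraic x] at h
    exact Set.countable_univ_iff.1 h
  obtain ⟨σ, h⟩ := exists_aut j (j.comp (g : Qbar →+* Qbar)) j.injective
    (j.injective.comp g.injective)
  exact ⟨σ, h⟩

theorem exists_preimage (j : Qbar →+* ℂ) {z : ℂ} (h : IsAlgebraic ℚ z) : ∃ x, j x = z := by
  let := j.toAlgebra
  have : IsScalarTower ℚ Qbar ℂ := .of_algebraMap_eq' (Subsingleton.elim _ _)
  have h1 : IsIntegral Qbar z := (h.tower_top Qbar).isIntegral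
  exact minpoly.mem_range_of_degree_eq_one Qbar z
    (IsAlgClosed.degree_eq_one_of_irreducible Qbar (minpoly.irreducible h1))

lemma cmActs_trans {L'' : PeriodPair} {z z' z'' : ℂ} (h1 : Rel σ L L' z z')
    (h2 : Rel σ' L' L'' z' z'') : Rel (σ.trans σ') L L'' z z'' :=
  Rel.mk' (h2.mem_iff.trans h1.mem_iff) (by rw [h2.wp, h1.wp]; rfl) (by rw [h2.wp', h1.wp']; rfl)

lemma cmActs_cj {L'' : PeriodPair} (h1 : Cj σ L L') (h2 : Cj σ' L' L'') : Cj (σ.trans σ') L L'' :=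
  ⟨by rw [h2.h2, h1.h2]; rfl, by rw [h2.h3, h1.h3]; rfl⟩

lemma cmActs_ne (h : CMLat m δ c L) : δ ≠ 0 := fun h0 => by
  have := h.sq
  rw [h0, zero_pow two_ne_zero, eq_comm, neg_eq_zero, Nat.cast_eq_zero] at this
  exact h.pos.ne' this

lemma cmActs_indep (h : CMLat m δ c L) {a b : ℤ} (h0 : (a : ℂ) + b * δ = 0) : a = 0 ∧ b = 0 := by
  have h1 : (a : ℂ) ^ 2 + m * b ^ 2 = 0 := by
    linear_combination (a - b * δ) * h0 + (b : ℂ) ^ 2 * h.sq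
  have h2 : a ^ 2 + m * b ^ 2 = 0 := by exact_mod_cast h1
  have h3 : (1 : ℤ) ≤ m := by exact_mod_cast h.pos
  constructor <;> nlinarith [sq_nonneg a, sq_nonneg b]

lemma cmActs_div (h : CMLat m δ c L) {N : ℕ} {a b : ℤ}
    (h0 : (a + b * δ) * (c / 2 ^ N) ∈ L.lattice) : (2 : ℤ) ^ N ∣ a ∧ (2 : ℤ) ^ N ∣ b := by
  obtain ⟨a', b', e⟩ := (h.mem _).1 h0
  have := cmActs_indep h (a := a - 2 ^ N * a') (b := b - 2 ^ N * b') (mul_left_cancel₀ h.ne (by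
    have h2 : (2 : ℂ) ^ N ≠ 0 := pow_ne_zero _ two_ne_zero
    field_simp at e
    push_cast
    linear_combination e))
  exact ⟨⟨a', sub_eq_zero.1 this.1⟩, ⟨b', sub_eq_zero.1 this.2⟩⟩

lemma cmActs_delta (h : CMLat m δ c L) : ∀ z ∈ L.lattice, δ * z ∈ L.lattice := fun z hz => by
  obtain ⟨a, b, rfl⟩ := (h.mem _).1 hz
  exact (h.mem _).2 ⟨-m * b, a, by push_cast; linear_combination c * b * h.sq⟩

lemma cmActs_tors (h : CMLat m δ c L) {N : ℕ} {z : ℂ} (hz : (2 : ℂ) ^ N * z ∈ L.lattice) :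
    ∃ a b : ℤ, z = (a + b * δ) * (c / 2 ^ N) := by
  obtain ⟨a, b, e⟩ := (h.mem _).1 hz
  have h2 : (2 : ℂ) ^ N ≠ 0 := pow_ne_zero _ two_ne_zero
  exact ⟨a, b, by field_simp; linear_combination e⟩

lemma cmActs_gen (h : CMLat m δ c L) (N : ℕ) : (2 : ℂ) ^ N * (c / 2 ^ N) ∈ L.lattice :=
  (h.mem _).2 ⟨1, 0, by
    have h2 : (2 : ℂ) ^ N ≠ 0 := pow_ne_zero _ two_ne_zero
    field_simp; simp⟩

lemma cmActs_pow (hσ : Cj σ L L') {N : ℕ} {z w : ℂ} (hw : Rel σ L L' z w) :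
    (2 : ℂ) ^ N * z ∈ L.lattice → (2 : ℂ) ^ N * w ∈ L'.lattice := by
  simpa using (hσ.nat_mul hw (2 ^ N)).mem_iff.2

lemma cmActs_int {z : ℂ} (hz : z ∈ L.lattice) (a : ℤ) : a * z ∈ L.lattice := by
  simpa using L.lattice.smul_mem a hz

lemma cmActs_mem (hδ : ∀ z ∈ L.lattice, δ * z ∈ L.lattice) {z : ℂ} (hz : z ∈ L.lattice)
    (a b : ℤ) : (a + b * δ) * z ∈ L.lattice := by
  rw [add_mul, mul_assoc]
  exact add_mem (cmActs_int hz a) (cmActs_int (hδ z hz) b)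

lemma cmActs_lin (hσ : Cj σ L L') (h0 : δ ≠ 0) (hδ : ∀ z ∈ L.lattice, δ * z ∈ L.lattice) {z w : ℂ}
    (hw : Rel σ L L' z w) (a b : ℤ) : Rel σ L L' ((a + b * δ) * z) ((a + b * σ δ) * w) := by
  rw [add_mul, add_mul, mul_assoc, mul_assoc]
  exact hσ.add (hσ.int_mul hw a) (hσ.int_mul (hw.isog hσ hσ h0 hδ) b)

lemma cmActs_appr (X : ℤ_[2]) (N : ℕ) : ∃ x : ℤ, (2 : ℤ_[2]) ^ N ∣ X - x :=
  ⟨X.appr N, by simpa [Ideal.mem_span_singleton] using PadicInt.appr_spec N X⟩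

lemma cmActs_cast {N : ℕ} {a : ℤ} : (2 : ℤ_[2]) ^ N ∣ (a : ℤ_[2]) ↔ (2 : ℤ) ^ N ∣ a := by
  simpa using PadicInt.pow_p_dvd_int_iff (p := 2) N a

lemma cmActs_lim (x : ℕ → ℤ) (hx : ∀ N, (2 : ℤ) ^ N ∣ x (N + 1) - x N) :
    ∃ X : ℤ_[2], ∀ N, (2 : ℤ_[2]) ^ N ∣ X - x N := by
  refine ⟨PadicInt.ofIntSeq _ (PadicInt.isCauSeq_padicNorm_of_pow_dvd_sub x 2 hx), fun N => ?_⟩
  have h1 := PadicInt.toZModPow_ofIntSeq_of_pow_dvd_sub x 2 hx N
  have h2 := Ideal.mem_span_singleton (α := ℤ_[2]) (y := ((2 : ℕ) : ℤ_[2]) ^ N)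
    (x := PadicInt.ofIntSeq _ (PadicInt.isCauSeq_padicNorm_of_pow_dvd_sub x 2 hx) - x N)
  rw [← PadicInt.ker_toZModPow, RingHom.mem_ker, map_sub, h1, map_intCast, sub_self] at h2
  exact_mod_cast h2.1 rfl

/-- It is enough to check one approximation. -/
lemma cmActs_of (hδ : ∀ z ∈ L.lattice, δ * z ∈ L.lattice) (hσ : Cj σ L L)
    (H : ∀ (N : ℕ) (z : ℂ), (2 : ℂ) ^ N * z ∈ L.lattice → ∃ x y : ℤ, (2 : ℤ_[2]) ^ N ∣ X - x ∧
      (2 : ℤ_[2]) ^ N ∣ Y - y ∧ Rel σ L L z ((x + y * δ) * z)) : Acts δ σ L X Y := by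
  refine ⟨hσ, fun N z hz x y hx hy => ?_⟩
  obtain ⟨x', y', hx', hy', h⟩ := H N z hz
  obtain ⟨k, hk⟩ := cmActs_cast (N := N) (a := x - x').1 (by simpa using dvd_sub hx' hx)
  obtain ⟨l, hl⟩ := cmActs_cast (N := N) (a := y - y').1 (by simpa using dvd_sub hy' hy)
  refine h.congr (by simp) ?_
  have e1 : (x : ℂ) - x' = 2 ^ N * k := by exact_mod_cast hk
  have e2 : (y : ℂ) - y' = 2 ^ N * l := by exact_mod_cast hl
  rw [show (x + y * δ) * z - (x' + y' * δ) * z = (k + l * δ) * (2 ^ N * z) by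
    linear_combination z * e1 + δ * z * e2]
  exact cmActs_mem hδ hz k l

/-- Numbers with countably many conjugates are algebraic. -/
lemma cmActs_alg {a : ℂ} {S : Set ℂ} (hS : S.Countable)
    (h : ∀ τ : ℂ ≃+* ℂ, (∀ x, IsAlgebraic ℚ x → τ x = x) → τ a ∈ S) : IsAlgebraic ℚ a := by
  by_contra ha
  have hc := Algebraic.countable ℚ ℂ
  have : Countable (algebraicClosure ℚ ℂ) :=
    (hc.mono fun _ hx => mem_algebraicClosure_iff.1 hx).to_subtype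
  have : Algebra.IsAlgebraic ℚ (algebraicClosure ℚ ℂ) := ⟨fun x =>
    (isAlgebraic_algHom_iff (algebraMap (algebraicClosure ℚ ℂ) ℂ).toRatAlgHom
      (RingHom.injective _)).1 (mem_algebraicClosure_iff.1 x.2)⟩
  have key : ∀ b : ℂ, ¬ IsAlgebraic ℚ b → Transcendental (algebraicClosure ℚ ℂ) b :=
    fun b hb hb' => hb (hb'.restrictScalars ℚ)
  refine not_countable_complex ((hS.union hc).mono fun b _ => ?_)
  by_cases hb : IsAlgebraic ℚ b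
  · exact Or.inr hb
  · obtain ⟨τ, h1, h2⟩ := exists_aut_transc (key a ha) (key b hb)
    exact Or.inl (h1 ▸ h τ fun x hx => h2 ⟨x, mem_algebraicClosure_iff.2 hx⟩)

theorem exists_acts (h : CMLat m δ c L) (hσ : Cj σ L L) (hδ : σ δ = δ) :
    ∃ X Y, Acts δ σ L X Y := by
  have h1 : ∀ N : ℕ, ∃ x y : ℤ, Rel σ L L (c / 2 ^ N) ((x + y * δ) * (c / 2 ^ N)) := fun N => by
    obtain ⟨w, hw⟩ := hσ.exists_rel (c / 2 ^ N)
    obtain ⟨x, y, rfl⟩ := cmActs_tors h (cmActs_pow hσ hw (cmActs_gen h N))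
    exact ⟨x, y, hw⟩
  choose x y hxy using h1
  have h2 : ∀ N, (2 : ℤ) ^ N ∣ x (N + 1) - x N ∧ (2 : ℤ) ^ N ∣ y (N + 1) - y N := fun N => by
    have e : c / 2 ^ N = (2 : ℤ) * (c / 2 ^ (N + 1)) := by push_cast; field_simp; ring
    have h3 := hσ.int_mul (hxy (N + 1)) 2
    rw [← e, mul_left_comm, ← e] at h3
    refine cmActs_div h ?_
    have := h3.unique (hxy N)
    rwa [show (x (N + 1) + y (N + 1) * δ) * (c / 2 ^ N) - (x N + y N * δ) * (c / 2 ^ N) =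
      (((x (N + 1) - x N : ℤ) : ℂ) + ((y (N + 1) - y N : ℤ) : ℂ) * δ) * (c / 2 ^ N) by
        push_cast; ring] at this
  obtain ⟨X, hX⟩ := cmActs_lim x fun N => (h2 N).1
  obtain ⟨Y, hY⟩ := cmActs_lim y fun N => (h2 N).2
  refine ⟨X, Y, cmActs_of (cmActs_delta h) hσ fun N z hz => ⟨x N, y N, hX N, hY N, ?_⟩⟩
  obtain ⟨a, b, rfl⟩ := cmActs_tors h hz
  have := cmActs_lin hσ (cmActs_ne h) (cmActs_delta h) (hxy N) a b
  rwa [hδ, mul_left_comm] at this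

/-- The action modulo `2 ^ N` is read off from the image of one point. -/
theorem Acts.dvd (h : CMLat m δ c L) (h1 : Acts δ σ L X Y) (h2 : Acts δ σ' L X' Y') (N : ℕ)
    (e1 : σ (℘[L] (c / 2 ^ N)) = σ' (℘[L] (c / 2 ^ N)))
    (e2 : σ (℘'[L] (c / 2 ^ N)) = σ' (℘'[L] (c / 2 ^ N))) :
    (2 : ℤ_[2]) ^ N ∣ X - X' ∧ (2 : ℤ_[2]) ^ N ∣ Y - Y' := by
  obtain ⟨x, hx⟩ := cmActs_appr X N
  obtain ⟨y, hy⟩ := cmActs_appr Y N
  obtain ⟨x', hx'⟩ := cmActs_appr X' N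
  obtain ⟨y', hy'⟩ := cmActs_appr Y' N
  have r1 := h1.rel N _ (cmActs_gen h N) x y hx hy
  have r2 := h2.rel N _ (cmActs_gen h N) x' y' hx' hy'
  have r3 : Rel σ L L (c / 2 ^ N) ((x' + y' * δ) * (c / 2 ^ N)) :=
    Rel.mk' r2.mem_iff (by rw [r2.wp, e1]) (by rw [r2.wp', e2])
  have h3 := r1.unique r3
  rw [show (x + y * δ) * (c / 2 ^ N) - (x' + y' * δ) * (c / 2 ^ N) =
    (((x - x' : ℤ) : ℂ) + ((y - y' : ℤ) : ℂ) * δ) * (c / 2 ^ N) by push_cast; ring] at h3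
  obtain ⟨d1, d2⟩ := cmActs_div h h3
  rw [← cmActs_cast] at d1 d2
  constructor
  · rw [show X - X' = X - x - (X' - x') + ((x - x' : ℤ) : ℤ_[2]) by push_cast; ring]
    exact dvd_add (dvd_sub hx hx') d1
  · rw [show Y - Y' = Y - y - (Y' - y') + ((y - y' : ℤ) : ℤ_[2]) by push_cast; ring]
    exact dvd_add (dvd_sub hy hy') d2

theorem Acts.unique (h : CMLat m δ c L) (h1 : Acts δ σ L X Y) (h2 : Acts δ σ L X' Y') :
    X = X' ∧ Y = Y' := by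
  have key : ∀ Z : ℤ_[2], (∀ N, (2 : ℤ_[2]) ^ N ∣ Z) → Z = 0 := fun Z hZ => by
    by_contra h0
    obtain ⟨n, hn⟩ := FiniteMultiplicity.of_not_isUnit
      (PadicInt.irreducible_p (p := 2)).not_isUnit h0
    exact hn (by simpa using hZ (n + 1))
  exact ⟨sub_eq_zero.1 (key _ fun N => (h1.dvd h h2 N rfl rfl).1),
    sub_eq_zero.1 (key _ fun N => (h1.dvd h h2 N rfl rfl).2)⟩

theorem acts_one (h : CMLat m δ c L) : Acts δ (RingEquiv.refl ℂ) L 1 0 := by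
  refine cmActs_of (cmActs_delta h) ⟨rfl, rfl⟩ fun N z _ => ⟨1, 0, by simp, by simp, ?_⟩
  exact Rel.mk' (by simp) (by simp) (by simp)

theorem Acts.mul (h : CMLat m δ c L) (h1 : Acts δ σ L X Y) (h2 : Acts δ σ' L X' Y') :
    Acts δ (σ'.trans σ) L (X * X' - m * Y * Y') (X * Y' + Y * X') := by
  refine cmActs_of (cmActs_delta h) (cmActs_cj h2.cj h1.cj) fun N z hz => ?_
  obtain ⟨x, hx⟩ := cmActs_appr X N
  obtain ⟨y, hy⟩ := cmActs_appr Y N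
  obtain ⟨x', hx'⟩ := cmActs_appr X' N
  obtain ⟨y', hy'⟩ := cmActs_appr Y' N
  have r2 := h2.rel N z hz x' y' hx' hy'
  have r1 := h1.rel N _ (cmActs_pow h2.cj r2 hz) x y hx hy
  refine ⟨x * x' - m * y * y', x * y' + y * x', ?_, ?_, ?_⟩
  · rw [show X * X' - m * Y * Y' - ((x * x' - m * y * y' : ℤ) : ℤ_[2]) =
      (X - x) * X' + (X' - x') * x - ((Y - y) * (m * Y') + (Y' - y') * (m * y)) by push_cast; ring]
    exact dvd_sub (dvd_add (hx.mul_right _) (hx'.mul_right _))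
      (dvd_add (hy.mul_right _) (hy'.mul_right _))
  · rw [show X * Y' + Y * X' - ((x * y' + y * x' : ℤ) : ℤ_[2]) =
      (X - x) * Y' + (Y' - y') * x + ((Y - y) * X' + (X' - x') * y) by push_cast; ring]
    exact dvd_add (dvd_add (hx.mul_right _) (hy'.mul_right _))
      (dvd_add (hy.mul_right _) (hx'.mul_right _))
  · rw [show (((x * x' - m * y * y' : ℤ) : ℂ) + ((x * y' + y * x' : ℤ) : ℂ) * δ) * z =
      (x + y * δ) * ((x' + y' * δ) * z) by push_cast; linear_combination -(y * y' * z) * h.sq]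
    exact cmActs_trans r2 r1

theorem alg_torsion (h : CMLat m δ c L) (N : ℕ) :
    IsAlgebraic ℚ (℘[L] (c / 2 ^ N)) ∧ IsAlgebraic ℚ (℘'[L] (c / 2 ^ N)) := by
  have key : ∀ τ : ℂ ≃+* ℂ, (∀ x, IsAlgebraic ℚ x → τ x = x) →
      ∃ q : ℤ × ℤ, Rel τ L L (c / 2 ^ N) ((q.1 + q.2 * δ) * (c / 2 ^ N)) := fun τ hτ => by
    have hc : Cj τ L L := ⟨(hτ _ h.alg2).symm, (hτ _ h.alg3).symm⟩
    obtain ⟨w, hw⟩ := hc.exists_rel (c / 2 ^ N)
    obtain ⟨x, y, rfl⟩ := cmActs_tors h (cmActs_pow hc hw (cmActs_gen h N))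
    exact ⟨(x, y), hw⟩
  exact ⟨cmActs_alg (Set.countable_range fun q : ℤ × ℤ => ℘[L] ((q.1 + q.2 * δ) * (c / 2 ^ N)))
      fun τ hτ => (key τ hτ).imp fun _ hq => hq.wp,
    cmActs_alg (Set.countable_range fun q : ℤ × ℤ => ℘'[L] ((q.1 + q.2 * δ) * (c / 2 ^ N)))
      fun τ hτ => (key τ hτ).imp fun _ hq => hq.wp'⟩

/-- Every conjugate lattice is isogenous to `L` by an algebraic multiplier. -/
theorem exists_isog (h : CMLat m δ c L) (hσ : Cj σ L' L) :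
    ∃ α : ℂ, α ≠ 0 ∧ IsAlgebraic ℚ α ∧ (∀ z ∈ L.lattice, α * z ∈ L'.lattice) ∧
      ∀ z ∈ L'.lattice, δ * z ∈ L'.lattice := by
  have hs := hσ.symm
  have al : ∀ x, IsAlgebraic ℚ x → IsAlgebraic ℚ (σ.symm x) := fun x hx =>
    hx.algHom (σ.symm : ℂ →+* ℂ).toRatAlgHom
  have hδ : ∀ z ∈ L'.lattice, δ * z ∈ L'.lattice := fun z hz => by
    have h1 := hs.isog_mem hs (cmActs_ne h) (cmActs_delta h) hz
    have h2 : σ.symm δ ^ 2 = δ ^ 2 := by rw [← map_pow, h.sq]; simp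
    rcases sq_eq_sq_iff_eq_or_eq_neg.1 h2 with e | e <;> rw [e] at h1
    · exact h1
    · simpa using neg_mem h1
  have h0 : L'.ω₁ / c ≠ 0 := div_ne_zero Pool.Agent.Shared.Weier.ω₁_ne h.ne
  have h1 : ∀ z ∈ L.lattice, L'.ω₁ / c * z ∈ L'.lattice := fun z hz => by
    obtain ⟨a, b, rfl⟩ := (h.mem _).1 hz
    rw [← mul_assoc, div_mul_cancel₀ _ h.ne, mul_comm]
    exact cmActs_mem hδ L'.ω₁_mem_lattice a b
  refine ⟨_, h0, ?_, h1, hδ⟩
  refine cmActs_alg (Set.countable_range fun q : ℤ × ℤ => (q.1 * L'.ω₁ + q.2 * L'.ω₂) / c)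
    fun τ hτ => ?_
  have c1 : Cj τ L L := ⟨(hτ _ h.alg2).symm, (hτ _ h.alg3).symm⟩
  have c2 : Cj τ L' L' :=
    ⟨(hτ _ (hs.h2 ▸ al _ h.alg2)).symm, (hτ _ (hs.h3 ▸ al _ h.alg3)).symm⟩
  obtain ⟨a, b, e⟩ := mem_lattice.1 (c1.isog_mem c2 h0 h1 ((h.mem c).2 ⟨1, 0, by simp⟩))
  exact ⟨(a, b), by simp only [e]; exact mul_div_cancel_right₀ _ h.ne⟩

theorem Acts.isog (h1 : Acts δ σ L X Y) (h2 : Cj σ L' L') {α : ℂ} (h0 : α ≠ 0) (hα : σ α = α)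
    (hL : ∀ z ∈ L.lattice, α * z ∈ L'.lattice) (hδ : ∀ z ∈ L'.lattice, δ * z ∈ L'.lattice) :
    Acts δ σ L' X Y := by
  refine cmActs_of hδ h2 fun N z hz => ?_
  have hs := sc_scale L h0
  obtain ⟨n, hn, hn'⟩ := exists_mul_mem (L := scale L h0) (M := L') fun w hw => by
    have := hL _ ((hs.symm.mem w).2 hw)
    rwa [mul_inv_cancel_left₀ h0] at this
  obtain ⟨a, n', ho, rfl⟩ := Nat.exists_eq_two_pow_mul_odd hn.ne'
  obtain ⟨k, l, hkl⟩ : IsCoprime (n' : ℤ) (2 ^ N) :=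
    (Int.isCoprime_two_right.2 (by exact_mod_cast ho)).pow_right
  have e : (k : ℂ) * n' + l * 2 ^ N = 1 := by exact_mod_cast hkl
  obtain ⟨x, hx⟩ := cmActs_appr X (N + a)
  obtain ⟨y, hy⟩ := cmActs_appr Y (N + a)
  have r := h1.rel (N + a) (α⁻¹ * (k * n' * z)) (by
    have := cmActs_int ((hs.symm.mem _).2 (hn' _ hz)) k
    rwa [show (k : ℂ) * (α⁻¹ * (((2 ^ a * n' : ℕ) : ℂ) * (2 ^ N * z))) =
      2 ^ (N + a) * (α⁻¹ * (k * n' * z)) by push_cast; ring] at this) x y hx hy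
  have r' := r.isog h1.cj h2 h0 hL
  rw [hα, mul_left_comm α (x + y * δ), mul_inv_cancel_left₀ h0] at r'
  have hd : z - k * n' * z ∈ L'.lattice := by
    rw [show z - k * n' * z = l * (2 ^ N * z) by linear_combination -z * e]
    exact cmActs_int hz l
  refine ⟨x, y, (pow_dvd_pow _ (Nat.le_add_right _ _)).trans hx,
    (pow_dvd_pow _ (Nat.le_add_right _ _)).trans hy, r'.congr hd ?_⟩
  rw [← mul_sub]
  exact cmActs_mem hδ hd x y

theorem Acts.conj (h : CMLat m δ c L) (h1 : Acts δ σ L' X Y) (h2 : Cj σ' L' L)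
    (hδ : ∀ z ∈ L'.lattice, δ * z ∈ L'.lattice) {ε : ℤ} (hε : σ' δ = ε * δ) :
    Acts δ ((σ'.symm.trans σ).trans σ') L X (ε * Y) := by
  refine cmActs_of (cmActs_delta h) (cmActs_cj (cmActs_cj h2.symm h1.cj) h2) fun N z hz => ?_
  obtain ⟨x, hx⟩ := cmActs_appr X N
  obtain ⟨y, hy⟩ := cmActs_appr Y N
  obtain ⟨z0, r0⟩ := h2.exists_rel' z
  have r1 := h1.rel N z0 (cmActs_pow h2.symm r0.symm hz) x y hx hy
  have r2 := cmActs_lin h2 (cmActs_ne h) hδ r0 x y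
  refine ⟨x, ε * y, hx, ?_, ?_⟩
  · rw [Int.cast_mul, ← mul_sub]
    exact hy.mul_left _
  · rw [hε, ← mul_assoc, mul_comm (y : ℂ) ε, ← Int.cast_mul] at r2
    exact cmActs_trans (cmActs_trans r0.symm r1) r2

end Pool.Agent.Lib.MP_f8d36e_nt
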