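import Pool.Agent.Lib.MP_f8d36e_nt.CMDefs
import Pool.Agent.Lib.MP_696deb_nt.ModPoly
import Pool.Agent.Lib.MP_696deb_nt.JInj

/-! Job CM1: the lattice and its discriminants. -/

set_option autoImplicit false

open Pool.Agent.Lib.MP_696deb_nt.Gal

namespace Pool.Agent.Lib.MP_f8d36e_nt

section
open Pool.Agent.Lib.MP_696deb_nt Complex Filter
open scoped Real

lemma cmlat_g2 (τ : UpperHalfPlane) {c : ℂ} (hc : c ≠ 0) :
    (Unif.pairOf τ hc).g₂ = 4 / 3 * π ^ 4 / c ^ 4 * ModularForm.E₄ τ := by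
  rw [PeriodPair.g₂, Unif.G_pairOf τ hc (by norm_num : 3 ≤ 4), Nat.cast_ofNat, riemannZeta_four]
  change 60 * ((c ^ 4)⁻¹ * (2 * (π ^ 4 / 90) * ModularForm.E₄ τ)) = _
  field_simp
  ring

lemma cmlat_g3 (τ : UpperHalfPlane) {c : ℂ} (hc : c ≠ 0) :
    (Unif.pairOf τ hc).g₃ = 8 / 27 * π ^ 6 / c ^ 6 * ModularForm.E₆ τ := by
  have z6 : riemannZeta (6 : ℕ) = π ^ 6 / 945 := by
    have := riemannZeta_two_mul_nat (k := 3) (by norm_num)
    norm_num [show bernoulli 6 = 1 / 42 by decide +kernel, Nat.factorial] at this ⊢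
    rw [this]
    ring
  rw [PeriodPair.g₃, Unif.G_pairOf τ hc (by norm_num : 3 ≤ 6), z6]
  change 140 * ((c ^ 6)⁻¹ * (2 * (π ^ 6 / 945) * ModularForm.E₆ τ)) = _
  field_simp
  ring

lemma cmlat_disc (τ : UpperHalfPlane) {c : ℂ} (hc : c ≠ 0) :
    disc (Unif.pairOf τ hc) = (2 * π / c) ^ 12 * Dl τ := by
  have e1 := ModularForm.discriminant_eq_E₄_cube_sub_E₆_sq τ
  change Dl τ = _ at e1
  rw [disc, cmlat_g2, cmlat_g3, e1]
  field_simp
  ring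

lemma cmlat_j (τ : UpperHalfPlane) {c : ℂ} (hc : c ≠ 0) :
    1728 * (Unif.pairOf τ hc).g₂ ^ 3 = jf τ * disc (Unif.pairOf τ hc) := by
  have d1 := Dl_ne τ.im_pos
  rw [cmlat_disc, cmlat_g2, jf, E4, UpperHalfPlane.ofComplex_apply]
  field_simp
  ring

lemma cmlat_congr {L M : PeriodPair} (h : L.lattice = M.lattice) : disc M = disc L := by
  rw [disc, disc, (sc_one h).g₂, (sc_one h).g₃]
  simp

lemma cmlat_mem (τ : UpperHalfPlane) {c : ℂ} (hc : c ≠ 0) (z : ℂ) :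
    z ∈ (Unif.pairOf τ hc).lattice ↔ ∃ a b : ℤ, z = c * (a + b * τ) := by
  rw [PeriodPair.mem_lattice]
  simp only [Unif.pairOf]
  constructor
  · rintro ⟨a, b, rfl⟩
    exact ⟨b, a, by ring⟩
  · rintro ⟨a, b, rfl⟩
    exact ⟨b, a, by ring⟩

lemma cmlat_pair (L : PeriodPair) : ∃ (τ : UpperHalfPlane) (c : ℂ) (hc : c ≠ 0),
    (Unif.pairOf τ hc).lattice = L.lattice := by
  have hi := LinearIndependent.pair_iff.mp L.indep
  have h2 : L.ω₂ ≠ 0 := fun h => by simpa using (hi 0 1 (by simp [h])).2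
  have h1 : (L.ω₁ / L.ω₂).im ≠ 0 := fun h => by
    have h3 : L.ω₁ / L.ω₂ = ((L.ω₁ / L.ω₂).re : ℂ) := Complex.ext (by simp) (by simp [h])
    have h4 := (hi 1 (-(L.ω₁ / L.ω₂).re) (by
      simp only [real_smul, ofReal_neg, ← h3]
      field_simp
      simp)).1
    simp at h4
  rcases h1.lt_or_gt with h | h
  · refine ⟨⟨-(L.ω₁ / L.ω₂), by simpa using h⟩, L.ω₂, h2, ?_⟩
    ext z
    rw [cmlat_mem, PeriodPair.mem_lattice]
    simp only
    constructor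
    · rintro ⟨a, b, rfl⟩
      exact ⟨-b, a, by push_cast; field_simp; ring⟩
    · rintro ⟨a, b, rfl⟩
      exact ⟨b, -a, by push_cast; field_simp; ring⟩
  · refine ⟨⟨L.ω₁ / L.ω₂, h⟩, L.ω₂, h2, ?_⟩
    ext z
    rw [cmlat_mem, PeriodPair.mem_lattice]
    simp only
    constructor
    · rintro ⟨a, b, rfl⟩
      exact ⟨b, a, by field_simp; ring⟩
    · rintro ⟨a, b, rfl⟩
      exact ⟨b, a, by field_simp; ring⟩

lemma cmlat_covol {τ τ' : UpperHalfPlane} {c c' : ℂ} {a b e d : ℤ} (hc' : c' ≠ 0)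
    (h1 : c' * τ' = c * (b + a * τ)) (h2 : c' = c * (d + e * τ)) :
    ‖c‖ ^ 2 * τ.im ≤ ‖c'‖ ^ 2 * τ'.im := by
  have h3 : ‖c'‖ ^ 2 * τ'.im = ((starRingEnd ℂ) c' * (c' * τ')).im := by
    rw [← mul_assoc, ← normSq_eq_conj_mul_self, normSq_eq_norm_sq]
    simp [-ofReal_pow]
  have h4 : ((starRingEnd ℂ) c' * (c' * τ')).im = ‖c‖ ^ 2 * τ.im * ((a * d - b * e : ℤ) : ℝ) := by
    rw [h1]
    conv_lhs => rw [h2]
    rw [← normSq_eq_norm_sq, normSq_apply]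
    simp
    ring
  have h5 : 0 < ‖c'‖ ^ 2 * τ'.im := mul_pos (by positivity) τ'.im_pos
  have h6 : 0 ≤ ‖c‖ ^ 2 * τ.im := mul_nonneg (by positivity) τ.im_pos.le
  rw [h3, h4] at h5 ⊢
  have h7 : (0 : ℝ) < ((a * d - b * e : ℤ) : ℝ) := (pos_of_mul_pos_left (by rwa [mul_comm] at h5) h6)
  have h8 : (1 : ℝ) ≤ ((a * d - b * e : ℤ) : ℝ) := by exact_mod_cast h7
  exact le_mul_of_one_le_right h6 h8

lemma cmlat_int {x : ℂ} (h : ∀ V : ValuationSubring ℂ, V.valuation x ≤ 1) : IsIntegral ℤ x := by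
  have h1 : x ∈ (integralClosure (Subring.closure (∅ : Set ℂ)) ℂ).toSubring := by
    rw [← iInf_valuationSubring_superset, Subring.mem_iInf]
    exact fun V => (V.1.valuation_le_one_iff x).mp (h V.1)
  have : Algebra.IsIntegral ℤ (Subring.closure (∅ : Set ℂ)) := ⟨fun y => by
    have h2 : (y : ℂ) ∈ (⊥ : Subring ℂ) := by simpa using y.2
    obtain ⟨n, hn⟩ := Subring.mem_bot.mp h2
    have h3 : y = algebraMap ℤ _ n := Subtype.ext (by simpa using hn.symm)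
    rw [h3]
    exact isIntegral_algebraMap⟩
  exact isIntegral_trans (A := Subring.closure (∅ : Set ℂ)) x h1

lemma cmlat_decay {τ : ℂ} (hτ : 1 ≤ τ.im) :
    ∃ C : ℝ, ∀ N : ℕ, ‖Dl (((2 ^ N : ℕ) : ℂ) * τ)‖ ≤ C * Real.exp (-2 ^ N) := by
  have him : ∀ N : ℕ, (((2 ^ N : ℕ) : ℂ) * τ).im = 2 ^ N * τ.im := fun N => by
    rw [← ofReal_natCast, im_ofReal_mul]
    push_cast
    rfl
  have h1 : Tendsto (fun N : ℕ => ((2 ^ N : ℕ) : ℂ) * τ) atTop atI := by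
    rw [tendsto_comap_iff]
    refine Tendsto.congr (fun N => (him N).symm) ?_
    exact (tendsto_pow_atTop_atTop_of_one_lt one_lt_two).atTop_mul_const (by linarith)
  obtain ⟨C, hC, h2⟩ := Asymptotics.bound_of_isBigO_nat_atTop
    (Asymptotics.IsBigO.comp_tendsto qe_eul.bdd h1)
  refine ⟨C ^ 24, fun N => ?_⟩
  have h3 := h2 (x := N) (by simp)
  simp only [Function.comp, norm_one, mul_one] at h3
  rw [Dl_eq, norm_mul, norm_pow, norm_q1, him, mul_comm]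
  refine mul_le_mul (pow_le_pow_left₀ (norm_nonneg _) h3 _) (Real.exp_le_exp.mpr ?_)
    (Real.exp_pos _).le (by positivity)
  have h4 : (0 : ℝ) < 2 ^ N := by positivity
  have h5 : 1 ≤ 2 * π * τ.im := by nlinarith [Real.pi_gt_three]
  nlinarith

theorem disc_ne (L : PeriodPair) : disc L ≠ 0 := by
  obtain ⟨τ, c, hc, h⟩ := cmlat_pair L
  have hπ : (π : ℂ) ≠ 0 := by exact_mod_cast Real.pi_ne_zero
  rw [cmlat_congr h, cmlat_disc]
  exact mul_ne_zero (pow_ne_zero _ (div_ne_zero (mul_ne_zero two_ne_zero hπ) hc))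
    (Dl_ne τ.im_pos)

theorem disc_bound (L : PeriodPair) : ∃ C : ℝ, ∀ (N : ℕ) (M : PeriodPair),
    (∀ z ∈ M.lattice, (2 : ℂ) ^ N * z ∈ L.lattice) → ‖disc M‖ ≤ C * 2 ^ (12 * N) := by
  obtain ⟨τ, c, hc, h⟩ := cmlat_pair L
  obtain ⟨C, hC⟩ := eta_bound
  refine ⟨(2 * π) ^ 12 * C ^ 6 / (‖c‖ ^ 2 * τ.im) ^ 6, fun N M hM => ?_⟩
  obtain ⟨τ', c', hc', h'⟩ := cmlat_pair M
  rw [← h, ← h'] at hM
  obtain ⟨b, a, h1⟩ := (cmlat_mem τ hc _).mp (hM _ (PeriodPair.ω₁_mem_lattice _))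
  obtain ⟨d, e, h2⟩ := (cmlat_mem τ hc _).mp (hM _ (PeriodPair.ω₂_mem_lattice _))
  simp only [Unif.pairOf] at h1 h2
  rw [← mul_assoc] at h1
  have h3 := cmlat_covol (mul_ne_zero (pow_ne_zero N two_ne_zero) hc') h1 h2
  rw [norm_mul, norm_pow, Complex.norm_two] at h3
  have h4 : 0 < ‖c‖ ^ 2 * τ.im := mul_pos (by positivity) τ.im_pos
  have h5 : ‖Dl τ'‖ * τ'.im ^ 6 ≤ C ^ 6 := by
    have := pow_le_pow_left₀ (mul_nonneg (by positivity) τ'.im_pos.le) (hC τ' τ'.im_pos) 6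
    rw [Dl, norm_pow]
    calc _ = (‖ModularForm.eta τ'‖ ^ 4 * (τ' : ℂ).im) ^ 6 := by
          rw [UpperHalfPlane.coe_im]; ring
      _ ≤ _ := this
  have h6 : 0 < ‖c'‖ := norm_pos_iff.mpr hc'
  rw [cmlat_congr h', cmlat_disc, norm_mul, norm_pow, norm_div, norm_mul, Complex.norm_two,
    Complex.norm_real, Real.norm_of_nonneg Real.pi_pos.le, div_mul_eq_mul_div,
    le_div_iff₀ (by positivity)]
  have h7 := pow_le_pow_left₀ h4.le h3 6
  calc _ ≤ (2 * π / ‖c'‖) ^ 12 * ‖Dl τ'‖ * ((2 ^ N * ‖c'‖) ^ 2 * τ'.im) ^ 6 := by gcongr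
    _ = (2 * π) ^ 12 * (‖Dl τ'‖ * τ'.im ^ 6) * 2 ^ (12 * N) := by
        field_simp
        ring
    _ ≤ _ := by gcongr

lemma cmlat_main {m : ℕ} (hm : ¬ IsSquare m) {δ : ℂ} (hδ : δ ^ 2 = -(m : ℂ)) {s : ℤ}
    (hs : s * s = 1) (h0 : 1 ≤ (s * δ).im) :
    ∃ (c : ℂ) (L : PeriodPair), CMLat m δ c L ∧ Small δ c L := by
  have hm0 : 0 < m := Nat.pos_of_ne_zero (by rintro rfl; exact hm ⟨0, rfl⟩)
  have hs' : (s : ℂ) * s = 1 := by exact_mod_cast hs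
  have hπ : (π : ℂ) ≠ 0 := by exact_mod_cast Real.pi_ne_zero
  have h1 : 0 < (s * δ).im := by linarith
  let τ : UpperHalfPlane := ⟨s * δ, h1⟩
  have hτ : (τ : ℂ) = s * δ := rfl
  have hD : Dl τ ≠ 0 := Dl_ne h1
  obtain ⟨c, hc⟩ := IsAlgClosed.exists_pow_nat_eq ((2 * π) ^ 12 * Dl τ) (n := 12) (by norm_num)
  have hc0 : c ≠ 0 := by
    rintro rfl
    exact mul_ne_zero (pow_ne_zero 12 (mul_ne_zero two_ne_zero hπ)) hD (by rw [← hc]; simp)
  have hd : disc (Unif.pairOf τ hc0) = 1 := by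
    rw [cmlat_disc, div_pow, hc]
    field_simp
  have hj : ∀ V : ValuationSubring ℂ, V.valuation (jf τ) ≤ 1 := fun V => by
    refine val_jf_le_one hm h1 (M := !![0, -m; 1, 0]) (by simp) ?_
    congr 1
    have h2 : (s : ℂ) * δ ≠ 0 := fun h => by simp [h] at h1
    rw [act_of, mob, hτ, div_eq_iff (by simpa using h2)]
    push_cast
    linear_combination -hδ - δ ^ 2 * hs'
  have ha : IsAlgebraic ℚ (jf τ) := ((cmlat_int hj).tower_top (A := ℚ)).isAlgebraic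
  have h3 : IsAlgebraic ℚ ((Unif.pairOf τ hc0).g₂ ^ 3) := by
    have h4 := cmlat_j τ hc0
    rw [hd, mul_one] at h4
    have h5 : (Unif.pairOf τ hc0).g₂ ^ 3 = algebraMap ℚ ℂ (1 / 1728) * jf τ := by
      rw [← h4]; simp
    rw [h5]
    exact (isAlgebraic_algebraMap _).mul ha
  have h6 : IsAlgebraic ℚ ((Unif.pairOf τ hc0).g₃ ^ 2) := by
    have h5 : (Unif.pairOf τ hc0).g₃ ^ 2 =
        algebraMap ℚ ℂ (1 / 27) * ((Unif.pairOf τ hc0).g₂ ^ 3 - 1) := by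
      rw [← hd, disc]; simp
    rw [h5]
    exact (isAlgebraic_algebraMap _).mul (h3.sub isAlgebraic_one)
  refine ⟨c, Unif.pairOf τ hc0, ⟨hm0, hδ, hc0, fun z => ?_, h3.of_pow (by norm_num),
    h6.of_pow (by norm_num)⟩, ?_⟩
  · rw [cmlat_mem, hτ]
    constructor
    · rintro ⟨a, b, rfl⟩
      exact ⟨a, b * s, by push_cast; ring⟩
    · rintro ⟨a, b, rfl⟩
      exact ⟨a, b * s, by push_cast; linear_combination (-c * b * δ) * hs'⟩
  obtain ⟨C, hC⟩ := cmlat_decay h0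
  have h7 : ∀ N : ℕ, 0 < (((2 ^ N : ℕ) : ℂ) * (s * δ)).im := fun N => by
    rw [← ofReal_natCast, im_ofReal_mul]
    positivity
  have h8 : ∀ N : ℕ, c / 2 ^ N ≠ 0 := fun N => div_ne_zero hc0 (pow_ne_zero _ two_ne_zero)
  refine ⟨fun N => Unif.pairOf ⟨_, h7 N⟩ (h8 N), C / ‖Dl τ‖, fun N => ?_⟩
  have h9 : disc (Unif.pairOf ⟨_, h7 N⟩ (h8 N)) / disc (Unif.pairOf τ hc0) =
      2 ^ (12 * N) * Dl (((2 ^ N : ℕ) : ℂ) * (s * δ)) / Dl τ := by
    rw [cmlat_disc, cmlat_disc, UpperHalfPlane.coe_mk]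
    field_simp
    ring
  refine ⟨fun z => ?_, ?_, ?_⟩
  · rw [cmlat_mem, UpperHalfPlane.coe_mk]
    constructor
    · rintro ⟨a, b, rfl⟩
      exact ⟨a, b * s, by push_cast; field_simp⟩
    · rintro ⟨a, b, rfl⟩
      refine ⟨a, b * s, ?_⟩
      push_cast
      field_simp
      linear_combination (-2 ^ N * b * δ) * hs'
  · have h10 : act (ut (2 ^ N) 0 1) τ = ((2 ^ N : ℕ) : ℂ) * (s * δ) := by
      simp [ut, act_of, mob, hτ]
    have h11 : 2 ^ (12 * N) * Dl (((2 ^ N : ℕ) : ℂ) * (s * δ)) / Dl τ =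
        phiJ (ut (2 ^ N) 0 1) τ := by
      rw [phi_ut one_ne_zero, h10]
      push_cast
      ring
    rw [h9, h11]
    exact cmlat_int fun V => (val_isog (by rw [det_ut]; positivity) h1 (hj V)).1
  · rw [h9, norm_div, norm_mul, norm_pow, Complex.norm_two]
    have := hC N
    have h12 : 0 < ‖Dl τ‖ := norm_pos_iff.mpr hD
    calc _ ≤ 2 ^ (12 * N) * (C * Real.exp (-2 ^ N)) / ‖Dl τ‖ := by gcongr
      _ = _ := by ring

theorem exists_cmLat {m : ℕ} (hm : ¬ IsSquare m) {δ : ℂ} (hδ : δ ^ 2 = -(m : ℂ)) :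
    ∃ (c : ℂ) (L : PeriodPair), CMLat m δ c L ∧ Small δ c L := by
  have hm0 : (1 : ℝ) ≤ m := by
    exact_mod_cast Nat.pos_of_ne_zero (by rintro rfl; exact hm ⟨0, rfl⟩)
  have h1 := congr_arg Complex.re hδ
  simp [sq] at h1
  have h2 : 1 ≤ δ.im ^ 2 := by nlinarith [sq_nonneg δ.re]
  rcases le_total 0 δ.im with h | h
  · exact cmlat_main hm hδ (s := 1) (by norm_num) (by simp; nlinarith)
  · exact cmlat_main hm hδ (s := -1) (by norm_num) (by simp; nlinarith)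

end

end Pool.Agent.Lib.MP_f8d36e_nt
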