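import Mathlib

/-! The matrix criterion and the group-theoretic data it is applied to. -/

set_option autoImplicit false

open Matrix

namespace Pool.Agent.Lib.MP_f8d36e_nt

/-- The field with two elements. -/
abbrev F2 : Type := ZMod 2

/-- An algebraic closure of the field with two elements. -/
abbrev Kb : Type := AlgebraicClosure (ZMod 2)

section
variable {ι : Type} [Fintype ι] [DecidableEq ι]

/-- The Redei matrix with off-diagonal entries `ρ` and row sums `u`. -/
def Rmat (u : ι → F2) (ρ : ι → ι → F2) : Matrix ι ι F2 := fun i j =>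
  if i = j then u i + ∑ l ∈ Finset.univ.erase i, ρ i l else ρ i j

/-- The linear system attached to the point `(p, q, T)` of the plane has only the zero solution. -/
def GoodPt (u w β : ι → F2) (R : Matrix ι ι F2) (p q T : Kb) : Prop :=
  ∀ y : ι → Kb,
    (∀ i, T * algebraMap F2 Kb (w i) * y i +
      ∑ j, (if β i = β j then p else q) * algebraMap F2 Kb (R i j) * y j = 0) →
    ∑ i, algebraMap F2 Kb (w i) * y i = 0 → ∑ i, algebraMap F2 Kb (w i * β i) * y i = 0 →
    ∑ i, algebraMap F2 Kb (u i * β i) * y i = 0 → y = 0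

/-- `β` is the only nonzero admissible vector, and it has the right class modulo eight. -/
structure Uniq (u w β : ι → F2) (R : Matrix ι ι F2) : Prop where
  hu : u ⬝ᵥ β = 1
  hw : w ⬝ᵥ β = 0
  hR : R *ᵥ β = u
  uniq : ∀ β' : ι → F2, R *ᵥ β' = (u ⬝ᵥ β') • u → β' = 0 ∨ β' = β

/-- The criterion. -/
def Crit (u w : ι → F2) (R : Matrix ι ι F2) : Prop :=
  ∃ β, Uniq u w β R ∧ ∃ a b : Kb, ∀ p q : Kb, p ≠ 0 ∨ q ≠ 0 → GoodPt u w β R p q (a * p + b * q)

/-- The linear relations that hold for numbers that are five modulo eight. -/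
structure Sums (u w : ι → F2) (R : Matrix ι ι F2) : Prop where
  su : ∑ i, u i = 0
  sw : ∑ i, w i = 1
  row : ∀ i, ∑ j, R i j = u i
  col : ∀ j, ∑ i, R i j = 0

/-- Inertia, Frobenius, complex conjugation and the decomposition group at two, modulo `N`. -/
structure Setup {G : Type} [Group G] [TopologicalSpace G] (u w : ι → F2) (R : Matrix ι ι F2)
    (A N : Subgroup G) where
  τ : ι → G
  φ : ι → G
  c : G
  D : Subgroup G
  index : A.index = 2
  isOpen : IsOpen (A : Set G)
  τ_not : ∀ i, τ i ∉ A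
  τ_sq : ∀ i, τ i * τ i ∈ N
  φ_mem : ∀ i, φ i ∈ A
  comm : ∀ i, φ i * τ i * (φ i)⁻¹ * (τ i)⁻¹ ∈ N
  c_not : c ∉ A
  c_sq : c * c = 1
  closed : IsClosed (D : Set G)
  chars : ∀ χ : G →* Multiplicative F2, Continuous χ → (∀ g ∈ N, χ g = 1) →
    ∃ (β' : ι → F2) (ε η : F2), (∀ i, (χ (τ i)).toAdd = β' i) ∧
      (∀ i, (χ (φ i)).toAdd = η * u i + ε * w i + (R *ᵥ β') i) ∧
      (χ c).toAdd = η + u ⬝ᵥ β' ∧
      ((∀ g ∈ D, χ g = 1) → ε = 0 ∧ η = 0 ∧ w ⬝ᵥ β' = 0) ∧
      (β' = 0 → ε = 0 → η = 0 → χ = 1)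
end

/-- One for numbers that are three modulo four. -/
def uN (p : ℕ) : F2 := if p % 4 = 3 then 1 else 0

/-- One for numbers that are three or five modulo eight. -/
def wN (p : ℕ) : F2 := if p % 8 = 3 ∨ p % 8 = 5 then 1 else 0

/-- One if `p` is a quadratic non-residue modulo `q`. -/
def rhoN (p q : ℕ) : F2 := if jacobiSym p q = -1 then 1 else 0

/-- The criterion for the natural number `m`. -/
def CritN (m : ℕ) : Prop :=
  Crit (fun p : m.primeFactors => uN p) (fun p : m.primeFactors => wN p)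
    (Rmat (fun p : m.primeFactors => uN p) fun p q : m.primeFactors => rhoN p q)

end Pool.Agent.Lib.MP_f8d36e_nt
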