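import Pool.Agent.Lib.MP_f8d36e_nt.Primes
import Pool.Agent.Lib.MP_f8d36e_nt.Crit

/-! Job A3: quadratic characters of the absolute Galois group. -/

set_option autoImplicit false

open scoped Pointwise IntermediateField

namespace Pool.Agent.Lib.MP_f8d36e_nt

theorem quad_alg : Algebra.IsAlgebraic ℚ Qbar := AlgebraicClosure.isAlgebraic ℚ

theorem quad_galois : IsGalois ℚ Qbar := by
  have := quad_alg
  have : IsAlgClosure ℚ Qbar := ⟨inferInstance, quad_alg⟩
  exact ⟨⟩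

theorem quad_rat {z : Qbar} (h : ∀ g : Gam, g z = z) : ∃ r : ℚ, (r : Qbar) = z := by
  have := quad_galois
  obtain ⟨r, hr⟩ := (InfiniteGalois.mem_range_algebraMap_iff_fixed (k := ℚ) z).2 h
  exact ⟨r, by rw [← hr]; exact (eq_ratCast _ r).symm⟩

theorem quad_int {z : Qbar} (hz : IsIntegral ℤ z) (h : ∀ g : Gam, g z = z) :
    ∃ n : ℤ, (n : Qbar) = z := by
  obtain ⟨r, rfl⟩ := quad_rat h
  have h1 : IsIntegral ℤ r := by
    rw [← eq_ratCast (algebraMap ℚ Qbar) r] at hz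
    exact (isIntegral_algebraMap_iff (algebraMap ℚ Qbar).injective).1 hz
  obtain ⟨n, hn⟩ := IsIntegrallyClosed.isIntegral_iff.1 h1
  exact ⟨n, by rw [← hn]; simp⟩

theorem quad_neg_ne {x : Qbar} (h : x ≠ 0) : -x ≠ x := fun e => h (by linear_combination -e / 2)

theorem exists_sqrt (χ : Gam →* Multiplicative F2) (hχ : Continuous χ) :
    ∃ (d : ℤ) (x : Qbar), Squarefree d ∧ x ^ 2 = d ∧ ∀ g : Gam, χ g = 1 ↔ g x = x := by
  have := quad_galois
  by_cases h1 : ∀ g, χ g = 1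
  · exact ⟨1, 1, squarefree_one, by simp, fun g => by simp [h1 g]⟩
  obtain ⟨a, ha⟩ := not_forall.1 h1
  have two : ∀ u v : Multiplicative F2, u ≠ 1 → v ≠ 1 → u * v = 1 ∧ u⁻¹ * v = 1 := by decide
  have hc : IsClosed (χ.ker : Set Gam) := (isClosed_discrete {1}).preimage hχ
  have hk := InfiniteGalois.fixingSubgroup_fixedField (⟨χ.ker, hc⟩ : ClosedSubgroup Gam)
  obtain ⟨y, hy, hay⟩ : ∃ y : Qbar, (∀ g : Gam, χ g = 1 → g y = y) ∧ a y ≠ y := by
    by_contra! k
    refine ha ?_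
    have : a ∈ (IntermediateField.fixedField χ.ker).fixingSubgroup :=
      (IntermediateField.mem_fixingSubgroup_iff _ _).2 fun y hy =>
        k y fun g hg => (IntermediateField.mem_fixedField_iff _ _).1 hy g hg
    exact (hk.le this :)
  have p1 : ∀ g : Gam, χ g = 1 → g (y - a y) = y - a y := fun g hg => by
    have := hy (a⁻¹ * g * a) (by simp [hg])
    rw [AlgEquiv.mul_apply, AlgEquiv.mul_apply, AlgEquiv.aut_inv, AlgEquiv.symm_apply_eq] at this
    rw [map_sub, hy g hg, this]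
  have p2 : ∀ g : Gam, χ g ≠ 1 → g (y - a y) = -(y - a y) := fun g hg => by
    have e1 := hy (a⁻¹ * g) (by rw [map_mul, map_inv]; exact (two _ _ ha hg).2)
    have e2 := hy (g * a) (by rw [map_mul]; exact (two _ _ hg ha).1)
    rw [AlgEquiv.mul_apply, AlgEquiv.aut_inv, AlgEquiv.symm_apply_eq] at e1
    rw [AlgEquiv.mul_apply] at e2
    rw [map_sub, e1, e2, neg_sub]
  have z0 : y - a y ≠ 0 := sub_ne_zero.2 hay.symm
  generalize y - a y = z at p1 p2 z0
  obtain ⟨r, hr⟩ := quad_rat (z := z ^ 2) fun g => by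
    rw [map_pow]
    by_cases hg : χ g = 1
    · rw [p1 g hg]
    · rw [p2 g hg, neg_sq]
  have r0 : r ≠ 0 := fun e => z0 (pow_eq_zero_iff two_ne_zero |>.1 (by rw [← hr, e]; simp))
  have n0 : r.num * r.den ≠ 0 := mul_ne_zero (Rat.num_ne_zero.2 r0) (by exact_mod_cast r.den_nz)
  obtain ⟨u, b, -, b0, hub, hu⟩ := Nat.sq_mul_squarefree_of_pos (Int.natAbs_pos.2 n0)
  obtain ⟨d, hd, e⟩ : ∃ d : ℤ, Squarefree d ∧ (b : ℤ) ^ 2 * d = r.num * r.den := by
    have hub' : (b : ℤ) ^ 2 * u = |r.num * r.den| := by rw [← Int.natCast_natAbs, ← hub]; push_cast; rfl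
    rcases abs_choice (r.num * (r.den : ℤ)) with k | k
    · exact ⟨u, Int.squarefree_natCast.2 hu, hub'.trans k⟩
    · exact ⟨-u, Int.squarefree_natAbs.1 (by simpa using hu), by linarith⟩
  have b1 : (b : Qbar) ≠ 0 := by exact_mod_cast b0.ne'
  have d1 : (r.den : Qbar) ≠ 0 := by exact_mod_cast r.den_nz
  have e1 : (b : Qbar) ^ 2 * d = r.num * r.den := by exact_mod_cast congrArg (Int.cast : ℤ → Qbar) e
  have e2 : (r : Qbar) * r.den = r.num := by exact_mod_cast congrArg (Rat.cast : ℚ → Qbar) r.mul_den_eq_num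
  have hg : ∀ g : Gam, g (r.den * z / b) = r.den * g z / b := fun g => by simp
  refine ⟨d, r.den * z / b, hd, ?_, fun g => ⟨fun h => by rw [hg, p1 g h], fun h => ?_⟩⟩
  · field_simp
    linear_combination -e1 - (r.den : Qbar) ^ 2 * hr + r.den * e2
  · by_contra k
    rw [hg, p2 g k, mul_neg, neg_div] at h
    exact quad_neg_ne (div_ne_zero (mul_ne_zero d1 z0) b1) h

variable {d : ℤ} {x : Qbar}

theorem apply_sqrt (hx : x ^ 2 = d) (g : Gam) : g x = x ∨ g x = -x :=
  sq_eq_sq_iff_eq_or_eq_neg.1 (by rw [← map_pow, hx, map_intCast])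

theorem mem_fixing (g : Gam) : g ∈ ℚ⟮x⟯.fixingSubgroup ↔ g x = x := by
  refine ⟨fun h => (IntermediateField.mem_fixingSubgroup_iff _ _).1 h x
    (IntermediateField.mem_adjoin_simple_self ℚ x), fun h => ?_⟩
  have : MulAction.stabilizer Gam x ≤ ℚ⟮x⟯.fixingSubgroup :=
    (IntermediateField.le_iff_le _ _).1 (IntermediateField.adjoin_simple_le_iff.2
      ((IntermediateField.mem_fixedField_iff _ _).2 fun _ hg => hg))
  exact this h

theorem fixing_open : IsOpen (ℚ⟮x⟯.fixingSubgroup : Set Gam) := by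
  have := IntermediateField.adjoin.finiteDimensional (quad_alg.isAlgebraic x).isIntegral
  exact IntermediateField.fixingSubgroup_isOpen _

theorem quad_ne_zero (hd : d ≠ 0) (hx : x ^ 2 = d) : x ≠ 0 := fun e => hd (by
  rw [e] at hx
  exact_mod_cast (hx.symm.trans (by simp) : (d : Qbar) = 0))

theorem quad_integral (hx : x ^ 2 = d) : IsIntegral ℤ x :=
  IsIntegral.of_pow two_pos (by rw [hx]; exact isIntegral_algebraMap (x := d))

theorem quad_moves (hd : Squarefree d) (h1 : d ≠ 1) (hx : x ^ 2 = d) : ∃ a : Gam, a x = -x := by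
  by_contra! k
  obtain ⟨n, rfl⟩ := quad_int (quad_integral hx) fun g => (apply_sqrt hx g).resolve_right (k g)
  have e : n * n = d := by
    rw [← pow_two]
    exact_mod_cast hx
  rcases Int.isUnit_iff.1 (hd n e.dvd) with rfl | rfl <;> exact h1 (by rw [← e]; norm_num)

theorem fixing_index (hd : Squarefree d) (h1 : d ≠ 1) (hx : x ^ 2 = d) :
    ℚ⟮x⟯.fixingSubgroup.index = 2 := by
  obtain ⟨a, ha⟩ := quad_moves hd h1 hx
  have hn := quad_neg_ne (quad_ne_zero hd.ne_zero hx)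
  refine Subgroup.index_eq_two_iff.2 ⟨a, fun b => ?_⟩
  rw [mem_fixing, mem_fixing, AlgEquiv.mul_apply, ha, map_neg]
  rcases apply_sqrt hx b with e | e <;> rw [e]
  · exact Or.inr ⟨rfl, hn⟩
  · exact Or.inl ⟨neg_neg x, hn⟩

/-- The square root as an algebraic integer. -/
def quadX (hx : x ^ 2 = d) : Zbar := ⟨x, quad_integral hx⟩

theorem quadX_sq (hx : x ^ 2 = d) : quadX hx ^ 2 = d := Subtype.ext (by simpa [quadX] using hx)

theorem quad_coe_smul (g : Gam) (y : Zbar) : ((g • y : Zbar) : Qbar) = g y := rfl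

/-- Integers of the quadratic field. -/
theorem quad_struct (hd : Squarefree d) (h1 : d ≠ 1) (hx : x ^ 2 = d) (y : Zbar)
    (hy : ∀ g ∈ ℚ⟮x⟯.fixingSubgroup, g • y = y) : ∃ k s n : ℤ, s ^ 2 - k ^ 2 * d = 4 * n ∧
      ∀ g : Gam, g • y - y = 0 ∨ g • y - y = k * quadX hx := by
  obtain ⟨a, ha⟩ := quad_moves hd h1 hx
  have x0 := quad_ne_zero hd.ne_zero hx
  have hy' : ∀ g : Gam, g x = x → g y = y := fun g hg =>
    congrArg Subtype.val (hy g ((mem_fixing g).2 hg))
  have ha' : a.symm x = -x := by rw [AlgEquiv.symm_apply_eq, map_neg, ha, neg_neg]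
  have key : ∀ g : Gam, (g x = x ∧ g y = y ∧ g (a y) = a y) ∨
      (g x = -x ∧ g y = a y ∧ g (a y) = y) := fun g => by
    rcases apply_sqrt hx g with e | e
    · have := hy' (a⁻¹ * g * a) (by simp [ha, ha', e])
      rw [AlgEquiv.mul_apply, AlgEquiv.mul_apply, AlgEquiv.aut_inv, AlgEquiv.symm_apply_eq] at this
      exact Or.inl ⟨e, hy' g e, this⟩
    · have e1 := hy' (a⁻¹ * g) (by simp [ha', e])
      rw [AlgEquiv.mul_apply, AlgEquiv.aut_inv, AlgEquiv.symm_apply_eq] at e1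
      exact Or.inr ⟨e, e1, hy' (g * a) (by simp [ha, e])⟩
  have i1 : IsIntegral ℤ (y : Qbar) := y.2
  have i2 : IsIntegral ℤ (a y) := (a • y).2
  obtain ⟨s, hs⟩ := quad_int (i1.add i2) fun g => by
    rcases key g with ⟨-, e1, e2⟩ | ⟨-, e1, e2⟩ <;> rw [map_add, e1, e2]
    rw [add_comm]
  obtain ⟨n, hn⟩ := quad_int (i1.mul i2) fun g => by
    rcases key g with ⟨-, e1, e2⟩ | ⟨-, e1, e2⟩ <;> rw [map_mul, e1, e2]
    rw [mul_comm]
  obtain ⟨q, hq⟩ := quad_rat (z := (a y - y) / x) fun g => by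
    rcases key g with ⟨e0, e1, e2⟩ | ⟨e0, e1, e2⟩ <;> rw [map_div₀, map_sub, e0, e1, e2]
    rw [← neg_sub, neg_div_neg_eq]
  rw [eq_div_iff x0] at hq
  have e1 : q ^ 2 * d = (s ^ 2 - 4 * n : ℤ) := by
    have : (q : Qbar) ^ 2 * d = s ^ 2 - 4 * n := by
      rw [← hx, hs, hn]
      linear_combination (q * x + a y - y) * hq
    exact_mod_cast this
  have e2 : q.num ^ 2 * d = (s ^ 2 - 4 * n) * q.den ^ 2 := by
    have : (q.num : ℚ) ^ 2 * d = (s ^ 2 - 4 * n : ℤ) * q.den ^ 2 := by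
      rw [← e1, ← q.mul_den_eq_num]; ring
    exact_mod_cast this
  have e3 : (q.den : ℤ) * q.den ∣ d := by
    have c : IsCoprime ((q.den : ℤ) ^ 2) (q.num ^ 2) := by
      refine IsCoprime.pow (Int.isCoprime_iff_gcd_eq_one.2 ?_)
      simpa [Int.gcd] using q.reduced.symm
    rw [← pow_two]
    exact c.dvd_of_dvd_mul_left ⟨_, e2.trans (mul_comm _ _)⟩
  have e4 : q.den = 1 := by simpa using Int.isUnit_iff_natAbs_eq.1 (hd _ e3)
  have e5 : (q.num : ℚ) = q := Rat.coe_int_num_of_den_eq_one e4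
  refine ⟨q.num, s, n, by rw [e2, e4]; push_cast; ring, fun g => ?_⟩
  rcases key g with ⟨-, e, -⟩ | ⟨-, e, -⟩
  · exact Or.inl (sub_eq_zero.2 (Subtype.ext e))
  · refine Or.inr (Subtype.ext ?_)
    rw [← e5, Rat.cast_intCast] at hq
    simpa [quad_coe_smul, e, quadX] using hq.symm

theorem quad_dvd {p : ℕ} (hp : p.Prime) {P : Ideal Zbar} (hP : P.IsMaximal) (h : (p : Zbar) ∈ P)
    {n : ℤ} (hn : (n : Zbar) ∈ P) : (p : ℤ) ∣ n := by
  by_contra k
  obtain ⟨a, b, e⟩ := (Nat.prime_iff_prime_int.1 hp).coprime_iff_not_dvd.2 k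
  have e1 : (a : Zbar) * p + b * n = 1 := by exact_mod_cast congrArg (Int.cast : ℤ → Zbar) e
  exact hP.ne_top ((Ideal.eq_top_iff_one P).2
    (e1 ▸ P.add_mem (P.mul_mem_left _ h) (P.mul_mem_left _ hn)))

/-- ramified odd primes -/
theorem inertia_moves (hd : Squarefree d) (hx : x ^ 2 = d) {p : ℕ} (hp : p.Prime)
    (hpd : (p : ℤ) ∣ d) (P : Ideal Zbar) (hP : P.IsMaximal) (h : (p : Zbar) ∈ P) :
    ∃ t ∈ P.inertia Gam, t x ≠ x := by
  have h1 : d ≠ 1 := fun e => (Nat.prime_iff_prime_int.1 hp).not_dvd_one (e ▸ hpd)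
  have hX : quadX hx ∈ P := by
    refine hP.isPrime.mem_of_pow_mem 2 ?_
    obtain ⟨c, rfl⟩ := hpd
    rw [quadX_sq]
    push_cast
    exact P.mul_mem_right _ h
  obtain ⟨t, ht, ht'⟩ := exists_inertia _ (fixing_index hd h1 hx) fixing_open P hP fun y hy g => by
    obtain ⟨k, -, -, -, e⟩ := quad_struct hd h1 hx y hy
    rcases e g with e | e <;> rw [e]
    exacts [P.zero_mem, P.mul_mem_left _ hX]
  exact ⟨t, ht, fun e => ht' ((mem_fixing t).2 e)⟩

/-- unramified odd primes -/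
theorem inertia_fixes (hx : x ^ 2 = d) {p : ℕ} (hp : p.Prime) (hp2 : p ≠ 2)
    (hpd : ¬ (p : ℤ) ∣ d) (P : Ideal Zbar) (hP : P.IsMaximal) (h : (p : Zbar) ∈ P) :
    ∀ t ∈ P.inertia Gam, t x = x := by
  intro t ht
  refine (apply_sqrt hx t).resolve_right fun e => ?_
  have h1 : t • quadX hx - quadX hx ∈ P := ht (quadX hx)
  rw [show t • quadX hx = -quadX hx from Subtype.ext e] at h1
  have h2 : ((2 ^ 2 * d : ℤ) : Zbar) ∈ P := by
    have := P.pow_mem_of_mem h1 2 two_pos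
    rwa [show (-quadX hx - quadX hx) ^ 2 = ((2 ^ 2 * d : ℤ) : Zbar) by
      push_cast; rw [← quadX_sq hx]; ring] at this
  have hp' := Nat.prime_iff_prime_int.1 hp
  have h3 := hp'.dvd_of_dvd_pow ((hp'.dvd_or_dvd (quad_dvd hp hP h h2)).resolve_right hpd)
  exact hp2 ((Nat.prime_dvd_prime_iff_eq hp Nat.prime_two).1 (by exact_mod_cast h3))

theorem frob_sqrt (hx : x ^ 2 = d) {p : ℕ} (hp : p.Prime) (hp2 : p ≠ 2)
    (hpd : ¬ (p : ℤ) ∣ d) (P : Ideal Zbar) (hP : P.IsMaximal) (h : (p : Zbar) ∈ P) {φ : Gam}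
    (hφ : ∀ y : Zbar, φ • y - y ^ p ∈ P) : φ x = x ↔ jacobiSym d p ≠ -1 := by
  have := Fact.mk hp
  have hn := quad_neg_ne (quad_ne_zero (fun e => hpd (by rw [e]; exact dvd_zero _)) hx)
  have hX : quadX hx ∉ P := fun k =>
    hpd (quad_dvd hp hP h (quadX_sq hx ▸ P.pow_mem_of_mem k 2 two_pos))
  have key : ∀ ε : ℤ, φ x = ε * x → (p : ℤ) ∣ jacobiSym d p - ε := fun ε e => by
    have h1 := hφ (quadX hx)
    have h2 : φ • quadX hx - quadX hx ^ p = quadX hx * ((ε - d ^ (p / 2) : ℤ) : Zbar) := by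
      rw [show φ • quadX hx = ε * quadX hx from Subtype.ext (by simpa [quad_coe_smul, quadX] using e)]
      conv_lhs => rw [← Nat.two_mul_div_two_add_one_of_odd (hp.odd_of_ne_two hp2)]
      push_cast
      rw [pow_succ, pow_mul, quadX_sq]
      ring
    rw [h2] at h1
    have h3 := quad_dvd hp hP h ((hP.isPrime.mem_or_mem h1).resolve_left hX)
    rw [← ZMod.intCast_eq_intCast_iff_dvd_sub] at h3 ⊢
    rw [← jacobiSym.legendreSym.to_jacobiSym, legendreSym.eq_pow, ← Int.cast_pow, h3]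
  have h2 : ¬ (p : ℤ) ∣ 2 := fun k =>
    hp2 ((Nat.prime_dvd_prime_iff_eq hp Nat.prime_two).1 (by exact_mod_cast k))
  refine ⟨fun e k => h2 ?_, fun k => (apply_sqrt hx φ).resolve_right fun e => h2 ?_⟩
  · have := key 1 (by simpa using e)
    rw [k] at this
    exact (dvd_neg (b := (2 : ℤ))).1 this
  · have h3 := key (-1) (by simpa using e)
    have h4 : jacobiSym d p = 1 := by
      rw [← jacobiSym.legendreSym.to_jacobiSym] at k ⊢
      exact (legendreSym.eq_one_or_neg_one p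
        fun z => hpd ((ZMod.intCast_zmod_eq_zero_iff_dvd d p).1 z)).resolve_right k
    rwa [h4] at h3

theorem split_two (hd : Squarefree d) (hx : x ^ 2 = d) (P : Ideal Zbar) (hP : P.IsMaximal)
    (h : (2 : Zbar) ∈ P) (hD : ∀ g ∈ MulAction.stabilizer Gam P, g x = x) : d % 8 = 1 := by
  have h' : ((2 : ℕ) : Zbar) ∈ P := by exact_mod_cast h
  have c1 : ¬ (2 : ℤ) ∣ d := fun k => by
    obtain ⟨t, ht, e⟩ := inertia_moves hd hx Nat.prime_two (by exact_mod_cast k) P hP h'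
    exact e (hD t (Ideal.inertia_le_stabilizer P ht))
  have c2 : d % 4 ≠ 3 := fun k => by
    have h1 : d ≠ 1 := by omega
    obtain ⟨t, ht, ht'⟩ := exists_inertia _ (fixing_index hd h1 hx) fixing_open P hP
      fun y hy g => by
        obtain ⟨k, s, n, e0, e⟩ := quad_struct hd h1 hx y hy
        obtain ⟨j, rfl⟩ : (2 : ℤ) ∣ k := by
          by_contra k2
          obtain ⟨j, rfl⟩ : ∃ j, k = 2 * j + 1 := ⟨k / 2, by omega⟩
          obtain ⟨c, rfl⟩ : ∃ c, d = 4 * c + 3 := ⟨d / 4, by omega⟩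
          rcases Int.even_or_odd' s with ⟨i, rfl | rfl⟩
          · have : 4 * (i ^ 2 - (j ^ 2 + j) * (4 * c + 3) - c - n) = 3 := by linear_combination e0
            omega
          · have : 4 * (i ^ 2 + i - (j ^ 2 + j) * (4 * c + 3) - c - n) = 2 := by
              linear_combination e0
            omega
        rcases e g with e | e <;> rw [e]
        · exact P.zero_mem
        · push_cast
          exact P.mul_mem_right _ (P.mul_mem_right _ h)
    exact ht' ((mem_fixing t).2 (hD t (Ideal.inertia_le_stabilizer P ht)))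
  have c3 : d % 8 ≠ 5 := fun k => by
    obtain ⟨c, rfl⟩ : ∃ c, d = 8 * c + 5 := ⟨d / 8, by omega⟩
    have e0 : ((1 + x) / 2) ^ 2 - (1 + x) / 2 = ((2 * c + 1 : ℤ) : Qbar) := by
      push_cast at hx ⊢
      linear_combination hx / 4
    have i1 : IsIntegral ℤ ((1 + x) / 2) := by
      refine ⟨Polynomial.X ^ 2 - (Polynomial.X + Polynomial.C (2 * c + 1)),
        Polynomial.monic_X_pow_sub (by rw [Polynomial.degree_X_add_C]; norm_num), ?_⟩
      rw [Polynomial.eval₂_sub, Polynomial.eval₂_X_pow, Polynomial.eval₂_add, Polynomial.eval₂_X,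
        Polynomial.eval₂_C, eq_intCast, ← e0]
      ring
    obtain ⟨φ, h1, h2⟩ := exists_frob Nat.prime_two P hP h'
    have h3 := P.neg_mem (h2 ⟨_, i1⟩)
    have h4 : φ • (⟨_, i1⟩ : Zbar) = ⟨_, i1⟩ := Subtype.ext (by
      rw [quad_coe_smul, map_div₀, map_add, map_one, hD φ h1, map_ofNat])
    rw [h4, neg_sub, show (⟨_, i1⟩ : Zbar) ^ 2 - ⟨_, i1⟩ = ((2 * c + 1 : ℤ) : Zbar) from
      Subtype.ext e0] at h3
    have := quad_dvd Nat.prime_two hP h' h3
    omega
  omega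

theorem stabilizer_closed (P : Ideal Zbar) :
    IsClosed (MulAction.stabilizer Gam P : Set Gam) := by
  have lc : ∀ y : Zbar, IsLocallyConstant fun g : Gam => g • y := fun y =>
    IsLocallyConstant.iff_isOpen_fiber_apply.2 fun a => by
      have e : (fun g : Gam => g • y) ⁻¹' {a • y} =
          (fun g => a⁻¹ * g) ⁻¹' (ℚ⟮(y : Qbar)⟯.fixingSubgroup : Set Gam) := by
        ext g
        rw [Set.mem_preimage, Set.mem_preimage, Set.mem_singleton_iff, SetLike.mem_coe, mem_fixing,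
          AlgEquiv.mul_apply, AlgEquiv.aut_inv, AlgEquiv.symm_apply_eq, Subtype.ext_iff]
        rfl
      rw [e]
      exact fixing_open.preimage (continuous_const.mul continuous_id)
  have e : (MulAction.stabilizer Gam P : Set Gam) =
      ⋂ y : Zbar, (fun g : Gam => g • y) ⁻¹' {z | z ∈ P ↔ y ∈ P} := by
    ext g
    rw [SetLike.mem_coe, ← inv_mem_iff, MulAction.mem_stabilizer_iff, Set.mem_iInter, Ideal.ext_iff]
    refine forall_congr' fun y => ?_
    rw [Ideal.mem_pointwise_smul_iff_inv_smul_mem, inv_inv]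
    rfl
  rw [e]
  exact isClosed_iInter fun y => ⟨by rw [← Set.preimage_compl]; exact lc y _⟩

end Pool.Agent.Lib.MP_f8d36e_nt
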