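import Pool.Agent.Lib.MP_f8d36e_nt.GDefs

/-! Job C: the action of the Iwasawa algebra. -/

set_option autoImplicit false

open MvPowerSeries
open scoped MvPowerSeries.WithPiTopology

namespace Pool.Agent.Lib.MP_f8d36e_nt

/-- Integer polynomials inside the Iwasawa algebra. -/
noncomputable def act_e : MvPolynomial (Fin 2) ℤ →+* Lam :=
  MvPolynomial.coeToMvPowerSeries.ringHom.comp (MvPolynomial.map (Int.castRingHom ℤ_[2]))

theorem act_e_X (i : Fin 2) : act_e (MvPolynomial.X i) = X i := by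
  simp [act_e]

theorem act_e_C (c : ℤ) : act_e (MvPolynomial.C c) = C (c : ℤ_[2]) := by
  rw [act_e, RingHom.comp_apply, MvPolynomial.map_C,
    MvPolynomial.coeToMvPowerSeries.ringHom_apply, MvPolynomial.coe_C]
  rfl

theorem act_e_coeff (p : MvPolynomial (Fin 2) ℤ) (d : Fin 2 →₀ ℕ) :
    coeff d (act_e p) = ((MvPolynomial.coeff d p : ℤ) : ℤ_[2]) := by
  simp only [act_e, RingHom.comp_apply, MvPolynomial.coeToMvPowerSeries.ringHom_apply,
    MvPolynomial.coeff_coe, MvPolynomial.coeff_map, eq_intCast]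

theorem act_dense : DenseRange act_e := by
  have hC : ∀ c : ℤ_[2], (C c : Lam) ∈ act_e.range.topologicalClosure := by
    intro c
    have hcl : IsClosed {c : ℤ_[2] | (C c : Lam) ∈ act_e.range.topologicalClosure} :=
      (act_e.range.isClosed_topologicalClosure).preimage WithPiTopology.continuous_C
    refine PadicInt.denseRange_intCast.induction_on c hcl ?_
    intro z
    exact act_e.range.le_topologicalClosure ⟨MvPolynomial.C z, act_e_C z⟩
  have hP : ∀ p : MvPolynomial (Fin 2) ℤ_[2], (p : Lam) ∈ act_e.range.topologicalClosure := by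
    intro p
    induction p using MvPolynomial.induction_on with
    | C c => rw [MvPolynomial.coe_C]; exact hC c
    | add p q hp hq => rw [MvPolynomial.coe_add]; exact add_mem hp hq
    | mul_X p i hp =>
      rw [MvPolynomial.coe_mul, MvPolynomial.coe_X]
      exact mul_mem hp (act_e.range.le_topologicalClosure ⟨MvPolynomial.X i, act_e_X i⟩)
  intro f
  have hcl : IsClosed {f : Lam | f ∈ act_e.range.topologicalClosure} :=
    act_e.range.isClosed_topologicalClosure
  exact (WithPiTopology.denseRange_toMvPowerSeries (R := ℤ_[2]) (σ := Fin 2)).induction_on f hcl hP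

open scoped IsMulCommutative in
theorem act_ev {A : Type} [Ring A] (s t : A) (hc : s * t = t * s) :
    ∃ ev : MvPolynomial (Fin 2) ℤ →+* A,
      ev (MvPolynomial.X 0) = s ∧ ev (MvPolynomial.X 1) = t := by
  have hcomm : ∀ x ∈ ({s, t} : Set A), ∀ y ∈ ({s, t} : Set A), x * y = y * x := by
    rintro x (rfl | rfl) y (rfl | rfl)
    · rfl
    · exact hc
    · exact hc.symm
    · rfl
  have := Subring.isMulCommutative_closure hcomm
  let s' : Subring.closure ({s, t} : Set A) := ⟨s, Subring.subset_closure (by simp)⟩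
  let t' : Subring.closure ({s, t} : Set A) := ⟨t, Subring.subset_closure (by simp)⟩
  refine ⟨(Subring.closure ({s, t} : Set A)).subtype.comp
    (MvPolynomial.eval₂Hom (Int.castRingHom _) ![s', t']), ?_, ?_⟩
  · simp [s']
  · simp [t']

theorem act_nil {R : Type} [CommRing R] (I : Ideal R) (x : R) (n : ℕ) (h2 : (2 : R) ^ n ∈ I)
    (hx : (x + 1) ^ 2 ^ n - 1 ∈ I) : x ^ (2 ^ n * n) ∈ I := by
  obtain ⟨r, hr⟩ := exists_add_pow_prime_pow_eq Nat.prime_two x 1 n
  rw [← Ideal.Quotient.eq_zero_iff_mem] at h2 hx ⊢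
  have h3 : Ideal.Quotient.mk I (x ^ 2 ^ n) = Ideal.Quotient.mk I (2 * (-(x * r))) := by
    rw [← sub_eq_zero, ← map_sub, ← hx, hr]
    congr 1
    push_cast
    ring
  rw [pow_mul, map_pow, h3, ← map_pow, mul_pow, map_mul, h2, zero_mul]

theorem act_mem (I : Ideal (MvPolynomial (Fin 2) ℤ)) (n N : ℕ)
    (h2 : (2 : MvPolynomial (Fin 2) ℤ) ^ n ∈ I) (hX : ∀ i, MvPolynomial.X i ^ N ∈ I)
    (p : MvPolynomial (Fin 2) ℤ)
    (hp : ∀ d : Fin 2 →₀ ℕ, (∀ i, d i < N) → (2 : ℤ) ^ n ∣ MvPolynomial.coeff d p) : p ∈ I := by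
  rw [p.as_sum]
  refine I.sum_mem fun d _ => ?_
  by_cases hd : ∀ i, d i < N
  · obtain ⟨c, hc⟩ := hp d hd
    have : MvPolynomial.monomial d (MvPolynomial.coeff d p) =
        (2 : MvPolynomial (Fin 2) ℤ) ^ n * MvPolynomial.monomial d c := by
      rw [hc, ← MvPolynomial.C_mul_monomial, map_pow]
      rfl
    rw [this]
    exact I.mul_mem_right _ h2
  · push Not at hd
    obtain ⟨i, hi⟩ := hd
    have : MvPolynomial.monomial d (MvPolynomial.coeff d p) =
        MvPolynomial.X i ^ N * MvPolynomial.monomial (d - Finsupp.single i N)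
          (MvPolynomial.coeff d p) := by
      rw [MvPolynomial.X_pow_eq_monomial, MvPolynomial.monomial_mul, one_mul,
        add_tsub_cancel_of_le (Finsupp.single_le_iff.2 hi)]
    rw [this]
    exact I.mul_mem_right _ (hX i)

theorem act_nhds (n N : ℕ) :
    {f : Lam | ∀ d : Fin 2 →₀ ℕ, (∀ i, d i < N) → (2 : ℤ_[2]) ^ n ∣ coeff d f} ∈ nhds (0 : Lam) := by
  have hfin : {d : Fin 2 →₀ ℕ | ∀ i, d i < N}.Finite := by
    refine (Set.finite_Iic (Finsupp.equivFunOnFinite.symm fun _ : Fin 2 => N)).subset ?_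
    intro d hd i
    exact (hd i).le
  have : {f : Lam | ∀ d : Fin 2 →₀ ℕ, (∀ i, d i < N) → (2 : ℤ_[2]) ^ n ∣ coeff d f} =
      ⋂ d ∈ {d : Fin 2 →₀ ℕ | ∀ i, d i < N}, {f : Lam | (2 : ℤ_[2]) ^ n ∣ coeff d f} := by
    ext f
    simp
  rw [this, Filter.biInter_mem hfin]
  intro d _
  have h1 : {c : ℤ_[2] | (2 : ℤ_[2]) ^ n ∣ c} ∈ nhds (coeff d (0 : Lam)) := by
    rw [map_zero]
    have hpos : (0 : ℝ) < ((2 : ℕ) : ℝ) ^ (-(n : ℤ)) := by positivity
    refine Filter.mem_of_superset (Metric.closedBall_mem_nhds (0 : ℤ_[2]) hpos) ?_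
    intro c hc
    rw [mem_closedBall_zero_iff, PadicInt.norm_le_pow_iff_mem_span_pow,
      Ideal.mem_span_singleton] at hc
    exact_mod_cast hc
  exact (WithPiTopology.continuous_coeff ℤ_[2] d).continuousAt.preimage_mem_nhds h1

theorem act_key {M : Type} [AddCommGroup M] [TopologicalSpace M] {a g : AddMonoid.End M}
    (h : Unip a g) (ev : MvPolynomial (Fin 2) ℤ →+* AddMonoid.End M)
    (h0 : ev (MvPolynomial.X 0) = a - 1) (h1 : ev (MvPolynomial.X 1) = g - 1)
    (O : Set M) (hO : O ∈ nhds (0 : M)) :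
    ∃ W : AddSubgroup M, IsOpen (W : Set M) ∧ (W : Set M) ⊆ O ∧ (∀ p, ∀ x ∈ W, ev p x ∈ W) ∧
      ∃ U ∈ nhds (0 : Lam), ∀ p, act_e p ∈ U → ∀ x, ev p x ∈ W := by
  obtain ⟨W, hWo, hWO, hWa, hWg, n, hn⟩ := h O hO
  have hX : ∀ i, ∀ x ∈ W, ev (MvPolynomial.X i) x ∈ W := by
    intro i x hx
    fin_cases i
    · have : ev (MvPolynomial.X 0) x = a x - x := by rw [h0]; rfl
      exact this ▸ sub_mem (hWa x hx) hx
    · have : ev (MvPolynomial.X 1) x = g x - x := by rw [h1]; rfl
      exact this ▸ sub_mem (hWg x hx) hx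
  have hst : ∀ p, ∀ x ∈ W, ev p x ∈ W := by
    intro p
    induction p using MvPolynomial.induction_on with
    | C c =>
      intro x hx
      rw [eq_intCast MvPolynomial.C c, map_intCast, AddMonoid.End.intCast_apply]
      exact W.zsmul_mem hx c
    | add p q hp hq =>
      intro x hx
      rw [map_add]
      exact add_mem (hp x hx) (hq x hx)
    | mul_X p i hp =>
      intro x hx
      rw [map_mul]
      exact hp _ (hX i x hx)
  let I : Ideal (MvPolynomial (Fin 2) ℤ) :=
    { carrier := {p | ∀ x, ev p x ∈ W}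
      add_mem' := fun {p q} hp hq x => by
        rw [map_add]
        exact add_mem (hp x) (hq x)
      zero_mem' := fun x => by
        rw [map_zero]
        exact W.zero_mem
      smul_mem' := fun c p hp x => by
        rw [smul_eq_mul, map_mul]
        exact hst c _ (hp x) }
  have hI2 : (2 : MvPolynomial (Fin 2) ℤ) ^ n ∈ I := by
    intro x
    have : ev (2 ^ n) = ((2 ^ n : ℕ) : AddMonoid.End M) := by
      rw [← map_natCast ev]
      congr 1
      push_cast
      rfl
    rw [this, AddMonoid.End.natCast_apply]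
    exact (hn x).1
  have hIX : ∀ i, MvPolynomial.X i ^ (2 ^ n * n) ∈ I := by
    intro i
    refine act_nil I _ n hI2 ?_
    intro x
    rw [map_sub, map_pow, map_add, map_one]
    fin_cases i
    · have : ev (MvPolynomial.X 0) + 1 = a := by rw [h0, sub_add_cancel]
      exact this ▸ (hn x).2.1
    · have : ev (MvPolynomial.X 1) + 1 = g := by rw [h1, sub_add_cancel]
      exact this ▸ (hn x).2.2
  refine ⟨W, hWo, hWO, hst, _, act_nhds n (2 ^ n * n), fun p hp => ?_⟩
  refine act_mem I n (2 ^ n * n) hI2 hIX p fun d hd => ?_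
  have := hp d hd
  rw [act_e_coeff] at this
  exact_mod_cast (PadicInt.pow_p_dvd_int_iff (p := 2) n _).1 (by exact_mod_cast this)

theorem act_ext {M : Type} [AddCommGroup M] [TopologicalSpace M] [IsTopologicalAddGroup M]
    [CompactSpace M] [T2Space M] {a g : AddMonoid.End M}
    (h : Unip a g) (ev : MvPolynomial (Fin 2) ℤ →+* AddMonoid.End M)
    (h0 : ev (MvPolynomial.X 0) = a - 1) (h1 : ev (MvPolynomial.X 1) = g - 1) :
    ∃ F : Lam × M → M, Continuous F ∧ ∀ p x, F (act_e p, x) = ev p x := by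
  let : TopologicalSpace (MvPolynomial (Fin 2) ℤ) := TopologicalSpace.induced act_e inferInstance
  let : UniformSpace M := IsTopologicalAddGroup.rightUniformSpace M
  have : IsUniformAddGroup M := isUniformAddGroup_of_addCommGroup
  have de : IsDenseInducing (act_e.toAddMonoidHom) := ⟨⟨rfl⟩, act_dense⟩
  have df : IsDenseInducing (AddMonoidHom.id M) := ⟨Topology.IsInducing.id, denseRange_id⟩
  let φ : MvPolynomial (Fin 2) ℤ →+ M →+ M := ev.toAddMonoidHom
  have hφ : Continuous fun z : MvPolynomial (Fin 2) ℤ × M => φ z.1 z.2 := by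
    rw [continuous_iff_continuousAt]
    rintro ⟨p, x⟩
    rw [ContinuousAt, ← tendsto_sub_nhds_zero_iff]
    intro O hO
    obtain ⟨W, hWo, hWO, hst, U, hU, hUW⟩ := act_key h ev h0 h1 O hO
    have he : Continuous (act_e : MvPolynomial (Fin 2) ℤ → Lam) := continuous_induced_dom
    have c1 : Continuous fun z : MvPolynomial (Fin 2) ℤ × M => act_e z.1 - act_e p :=
      (he.comp continuous_fst).sub continuous_const
    have c2 : Continuous fun z : MvPolynomial (Fin 2) ℤ × M => z.2 - x :=
      continuous_snd.sub continuous_const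
    have m1 := c1.continuousAt (x := (p, x)).preimage_mem_nhds (t := U) (by simpa using hU)
    have m2 := c2.continuousAt (x := (p, x)).preimage_mem_nhds (t := (W : Set M))
      (by simpa using hWo.mem_nhds W.zero_mem)
    rw [Filter.mem_map]
    filter_upwards [m1, m2] with z hz1 hz2
    apply hWO
    have e1 : ev (z.1 - p) z.2 ∈ W := hUW _ (by rw [map_sub]; exact hz1) _
    have e2 : ev p (z.2 - x) ∈ W := hst _ _ hz2
    have e3 : φ z.1 z.2 - φ p x = ev (z.1 - p) z.2 + ev p (z.2 - x) := by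
      rw [map_sub, map_sub]
      change ev z.1 z.2 - ev p x = (ev z.1 z.2 - ev p z.2) + (ev p z.2 - ev p x)
      abel
    change φ z.1 z.2 - φ p x ∈ W
    rw [e3]
    exact add_mem e1 e2
  exact ⟨_, de.extend_Z_bilin df hφ, fun p x => (de.prodMap df).extend_eq hφ (p, x)⟩

theorem exists_module {M : Type} [AddCommGroup M] [TopologicalSpace M] [IsTopologicalAddGroup M]
    [CompactSpace M] [T2Space M] (a g : AddMonoid.End M) (ha : Continuous a) (hg : Continuous g)
    (hc : a * g = g * a) (h : Unip a g) :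
    ∃ _ : Module Lam M, ContinuousSMul Lam M ∧ (∀ x : M, (1 + X 0 : Lam) • x = a x) ∧
      ∀ x : M, (1 + X 1 : Lam) • x = g x := by
  have hc' : (a - 1) * (g - 1) = (g - 1) * (a - 1) := by
    simp only [mul_sub, sub_mul, mul_one, one_mul, hc]
    abel
  obtain ⟨ev, h0, h1⟩ := act_ev (a - 1) (g - 1) hc'
  obtain ⟨F, hF, hFe⟩ := act_ext h ev h0 h1
  let : SMul Lam M := ⟨fun f x => F (f, x)⟩
  have hs : ∀ (f : Lam) (x : M), f • x = F (f, x) := fun _ _ => rfl
  refine ⟨Module.ofMinimalAxioms ?_ ?_ ?_ ?_, ⟨hF⟩, ?_, ?_⟩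
  · intro r x y
    simp only [hs]
    refine act_dense.induction_on r (isClosed_eq (by fun_prop) (by fun_prop)) fun p => ?_
    rw [hFe, hFe, hFe, map_add]
  · intro r s x
    simp only [hs]
    refine act_dense.induction_on₂ (p := fun r s => F (r + s, x) = F (r, x) + F (s, x))
      (isClosed_eq (by fun_prop) (by fun_prop)) (fun p q => ?_) r s
    rw [← map_add, hFe, hFe, hFe, map_add]
    rfl
  · intro r s x
    simp only [hs]
    refine act_dense.induction_on₂ (p := fun r s => F (r * s, x) = F (r, F (s, x)))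
      (isClosed_eq (by fun_prop) (by fun_prop)) (fun p q => ?_) r s
    rw [← map_mul, hFe, hFe, hFe, map_mul]
    rfl
  · intro x
    rw [hs, ← map_one act_e, hFe, map_one]
    rfl
  · intro x
    change F (1 + X 0, x) = a x
    rw [← act_e_X, ← map_one act_e, ← map_add, hFe, map_add, map_one, h0, add_sub_cancel]
  · intro x
    change F (1 + X 1, x) = g x
    rw [← act_e_X, ← map_one act_e, ← map_add, hFe, map_add, map_one, h1, add_sub_cancel]

end Pool.Agent.Lib.MP_f8d36e_nt
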