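import Pool.Agent.Lib.MP_696deb_nt.DenFamily

/-! Analytic tools copied from the library of MP_696deb_nt (to keep the import closure small). -/

set_option autoImplicit false

open Finset Filter
open scoped NumberTheorySymbols

namespace Pool.Agent.Lib.MP_f8d36e_nt.An
open Pool.Agent.Lib.MP_696deb_nt Pool.Agent.Lib.MP_696deb_nt.Den

theorem mem_SO {Z n : ℕ} : n ∈ SO Z ↔ (1 ≤ n ∧ n ≤ Z) ∧ Squarefree n ∧ Odd n := by
  simp only [SO, mem_filter, mem_Icc]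

theorem G_nonneg {g : ℕ → ℝ} (hg : ∀ p, p.Prime → 0 ≤ g p ∧ g p ≤ 1) (n : ℕ) :
    0 ≤ ∏ p ∈ n.primeFactors, g p :=
  prod_nonneg fun p hp => (hg p (Nat.prime_of_mem_primeFactors hp)).1

theorem log_two_ge : (1 / 2 : ℝ) ≤ Real.log 2 := by linarith [Real.log_two_gt_d9]

theorem log_two_le : Real.log 2 ≤ 1 := by linarith [Real.log_two_lt_d9]

/-- The Chebyshev step. -/
theorem sum_log_le {g : ℕ → ℝ} (hg : ∀ p, p.Prime → 0 ≤ g p ∧ g p ≤ 1) (Z : ℕ) :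
    ∑ n ∈ SO Z, (∏ p ∈ n.primeFactors, g p) * Real.log n ≤
      2 * Z * ∑ n ∈ SO Z, 1 / (n : ℝ) * ∏ p ∈ n.primeFactors, g p := by
  classical
  let f : (Σ _ : ℕ, ℕ) → ℝ := fun x => (∏ p ∈ (x.1 / x.2).primeFactors, g p) * Real.log x.2
  let T : Finset (Σ _ : ℕ, ℕ) := (SO Z).sigma fun k => (Ioc 0 ⌊(Z : ℝ) / k⌋₊).filter Nat.Prime
  let e : (Σ _ : ℕ, ℕ) → (Σ _ : ℕ, ℕ) := fun x => ⟨x.1 * x.2, x.2⟩
  have f0 : ∀ x, 0 ≤ f x := fun x => mul_nonneg (G_nonneg hg _) (Real.log_natCast_nonneg _)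
  calc ∑ n ∈ SO Z, (∏ p ∈ n.primeFactors, g p) * Real.log n
      ≤ ∑ n ∈ SO Z, ∑ p ∈ n.primeFactors, f ⟨n, p⟩ := by
        refine sum_le_sum fun n hn => ?_
        have h1 : Real.log n = ∑ p ∈ n.primeFactors, Real.log p := by
          conv_lhs => rw [← Nat.prod_primeFactors_of_squarefree (mem_SO.1 hn).2.1]
          rw [Nat.cast_prod, Real.log_prod fun p hp =>
            Nat.cast_ne_zero.2 (Nat.prime_of_mem_primeFactors hp).ne_zero]
        rw [h1, mul_sum]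
        refine sum_le_sum fun p hp => mul_le_mul_of_nonneg_right ?_ (Real.log_natCast_nonneg _)
        exact prod_le_prod_of_subset_of_le_one (Nat.primeFactors_mono
          (Nat.div_dvd_of_dvd (Nat.dvd_of_mem_primeFactors hp)) (mem_SO.1 hn).2.1.ne_zero)
          (fun r hr => (hg r (Nat.prime_of_mem_primeFactors hr)).1)
          fun r hr _ => (hg r (Nat.prime_of_mem_primeFactors hr)).2
    _ = ∑ x ∈ (SO Z).sigma fun n => n.primeFactors, f x := sum_sigma' _ _ _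
    _ ≤ ∑ x ∈ T.image e, f x := by
        refine sum_le_sum_of_subset_of_nonneg (fun x hx => ?_) fun x _ _ => f0 x
        obtain ⟨n, p⟩ := x
        obtain ⟨hn, hp⟩ := mem_sigma.1 hx
        obtain ⟨⟨h1, h2⟩, h3, h4⟩ := mem_SO.1 hn
        have pp := Nat.prime_of_mem_primeFactors hp
        obtain ⟨k, rfl⟩ : ∃ k, n = k * p := exists_eq_mul_left_of_dvd (Nat.dvd_of_mem_primeFactors hp)
        have k0 : 0 < k := Nat.pos_of_mul_pos_right h1
        refine mem_image.2 ⟨⟨k, p⟩, mem_sigma.2 ⟨mem_SO.2 ⟨⟨k0, (Nat.le_mul_of_pos_right k pp.pos).trans h2⟩,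
          h3.of_mul_left, h4.of_dvd_nat (Dvd.intro _ rfl)⟩, mem_filter.2 ⟨mem_Ioc.2 ⟨pp.pos, ?_⟩, pp⟩⟩, rfl⟩
        refine Nat.le_floor ((le_div_iff₀ (by exact_mod_cast k0)).2 ?_)
        rw [mul_comm]
        exact_mod_cast h2
    _ ≤ ∑ x ∈ T, f (e x) := sum_image_le_of_nonneg fun x _ => f0 x
    _ = ∑ k ∈ SO Z, ∑ p ∈ (Ioc 0 ⌊(Z : ℝ) / k⌋₊).filter Nat.Prime, f (e ⟨k, p⟩) :=
        (sum_sigma' _ _ fun k p => f (e ⟨k, p⟩)).symm
    _ ≤ ∑ k ∈ SO Z, 2 * Z * (1 / (k : ℝ) * ∏ p ∈ k.primeFactors, g p) := by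
        refine sum_le_sum fun k _ => ?_
        have h1 : ∑ p ∈ (Ioc 0 ⌊(Z : ℝ) / k⌋₊).filter Nat.Prime, f (e ⟨k, p⟩) =
            (∏ p ∈ k.primeFactors, g p) * Chebyshev.theta ((Z : ℝ) / k) := by
          rw [Chebyshev.theta, mul_sum]
          refine sum_congr rfl fun p hp => ?_
          simp only [f, e, Nat.mul_div_cancel k (mem_filter.1 hp).2.pos]
        have h2 := Chebyshev.theta_le_log4_mul_x (x := (Z : ℝ) / k) (by positivity)
        have h3 : Real.log 4 ≤ 2 := by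
          rw [show (4 : ℝ) = 2 ^ 2 by norm_num, Real.log_pow]
          push_cast
          linarith [log_two_le]
        have h4 : Chebyshev.theta ((Z : ℝ) / k) ≤ 2 * ((Z : ℝ) / k) :=
          h2.trans (mul_le_mul_of_nonneg_right h3 (by positivity))
        rw [h1]
        calc _ ≤ (∏ p ∈ k.primeFactors, g p) * (2 * ((Z : ℝ) / k)) :=
              mul_le_mul_of_nonneg_left h4 (G_nonneg hg k)
          _ = _ := by ring
    _ = _ := by rw [mul_sum]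

theorem ht1 {g : ℕ → ℝ} (hg : ∀ p, p.Prime → 0 ≤ g p ∧ g p ≤ 1) (Z : ℕ) :
    Real.log Z * ∑ n ∈ SO Z, ∏ p ∈ n.primeFactors, g p ≤
      3 * Z * ∑ n ∈ SO Z, 1 / (n : ℝ) * ∏ p ∈ n.primeFactors, g p := by
  have h1 := sum_log_le hg Z
  have h2 : Real.log Z * ∑ n ∈ SO Z, ∏ p ∈ n.primeFactors, g p ≤
      ∑ n ∈ SO Z, (∏ p ∈ n.primeFactors, g p) * Real.log n +
        Z * ∑ n ∈ SO Z, 1 / (n : ℝ) * ∏ p ∈ n.primeFactors, g p := by
    rw [mul_sum, mul_sum, ← sum_add_distrib]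
    refine sum_le_sum fun n hn => ?_
    obtain ⟨⟨a1, a2⟩, -⟩ := mem_SO.1 hn
    have n0 : (0 : ℝ) < n := by exact_mod_cast a1
    have Z0 : (0 : ℝ) < Z := by exact_mod_cast a1.trans a2
    have a3 := Real.log_le_sub_one_of_pos (div_pos Z0 n0)
    rw [Real.log_div Z0.ne' n0.ne'] at a3
    calc _ ≤ (Real.log n + Z / n) * ∏ p ∈ n.primeFactors, g p :=
          mul_le_mul_of_nonneg_right (by linarith) (G_nonneg hg n)
      _ = _ := by ring
  linarith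

theorem ht2 {g : ℕ → ℝ} (hg : ∀ p, p.Prime → 0 ≤ g p ∧ g p ≤ 1) {Z : ℕ} (hL : 0 < Real.log Z) :
    ∑ n ∈ SO Z, 1 / (n : ℝ) * ∏ p ∈ n.primeFactors, g p ≤
      3 * ∏ p ∈ (PP Z).primeFactors, (1 + g p * xs (Real.log Z) p) := by
  rw [prod_one_add_div (PP_sq Z), mul_sum]
  refine le_trans (sum_le_sum fun e he => ?_) (sum_le_sum_of_subset_of_nonneg (SO_sub Z)
    fun e _ _ => mul_nonneg (by norm_num) (prod_nonneg fun p hp =>
      mul_nonneg (hg p (Nat.prime_of_mem_primeFactors hp)).1 (xs_nonneg _ _)))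
  rw [prod_mul_distrib, xs_prod _ (mem_SO.1 he).2.1]
  have := mul_le_mul_of_nonneg_right (inv_le_xs hL he) (G_nonneg hg e)
  linarith

theorem le_log_add {y : ℝ} (hy : 0 ≤ y) : y ≤ Real.log (1 + y) + y ^ 2 := by
  have h0 : 0 < 1 + y := by linarith
  have h1 := Real.one_sub_inv_le_log_of_pos h0
  have h2 : (1 + y)⁻¹ ≤ 1 - y + y ^ 2 := by
    rw [inv_le_iff_one_le_mul₀ h0]
    nlinarith [pow_nonneg hy 3]
  linarith

theorem sum_le_log {L : ℝ} (hL : 0 < L) (Z : ℕ) {a : ℕ → ℝ} (ha : ∀ p, 0 ≤ a p ∧ a p ≤ 1) :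
    ∑ p ∈ (PP Z).primeFactors, a p * xs L p ≤
      Real.log (∏ p ∈ (PP Z).primeFactors, (1 + a p * xs L p)) + 2 := by
  have h0 : ∀ p, 0 ≤ a p * xs L p := fun p => mul_nonneg (ha p).1 (xs_nonneg _ _)
  rw [Real.log_prod fun p _ => by linarith [h0 p]]
  refine (sum_le_sum fun p _ => le_log_add (h0 p)).trans ?_
  rw [sum_add_distrib]
  refine add_le_add le_rfl (le_trans (sum_le_sum fun p hp => ?_)
    ((sum_le_sum_of_subset_of_nonneg (s := (PP Z).primeFactors) (t := Icc 1 Z)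
      (PP_pf Z ▸ filter_subset _ _) fun _ _ _ => by positivity).trans (sum_inv_sq_le Z)))
  rw [← _root_.one_div_pow]
  refine pow_le_pow_left₀ (h0 p) ?_ 2
  exact (mul_le_of_le_one_left (xs_nonneg _ _) (ha p).2).trans
    (xs_le hL (Nat.prime_of_mem_primeFactors hp).pos)

namespace Bil

theorem harm (Z : ℕ) : ∑ n ∈ Icc 1 Z, 1 / (n : ℝ) ≤ 1 + Real.log Z := by
  have h := harmonic_le_one_add_log Z
  rw [harmonic_eq_sum_Icc] at h
  push_cast at h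
  simpa [one_div] using h

theorem card_between (Z : ℕ) {x y : ℝ} (hx : 0 ≤ x) (hxy : x ≤ y) :
    (#((Icc 1 Z).filter fun a : ℕ => x < a ∧ (a : ℝ) ≤ y) : ℝ) ≤ y - x + 1 := by
  have h1 : ((Icc 1 Z).filter fun a : ℕ => x < a ∧ (a : ℝ) ≤ y) ⊆ Ioc ⌊x⌋₊ ⌊y⌋₊ := fun a ha => by
    obtain ⟨_, h2, h3⟩ := mem_filter.mp ha
    exact mem_Ioc.mpr ⟨(Nat.floor_lt hx).mpr h2, Nat.le_floor h3⟩
  have h2 := card_le_card h1
  rw [Nat.card_Ioc] at h2
  have h3 : ((⌊y⌋₊ - ⌊x⌋₊ : ℕ) : ℝ) ≤ y - x + 1 := by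
    rw [Nat.cast_sub (Nat.floor_mono hxy)]
    have := Nat.floor_le (hx.trans hxy)
    have := Nat.lt_floor_add_one x
    linarith
  exact le_trans (by exact_mod_cast h2) h3

/-- The group of `b`. -/
noncomputable def kap (η : ℝ) (b : ℕ) : ℕ := ⌈Real.log b / η⌉₊

theorem le_exp_kap {η : ℝ} (hη : 0 < η) {b : ℕ} (hb : 1 ≤ b) :
    (b : ℝ) ≤ Real.exp (η * kap η b) := by
  have hb' : (0 : ℝ) < b := by exact_mod_cast hb
  rw [← Real.log_le_iff_le_exp hb', mul_comm, ← div_le_iff₀ hη]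
  exact Nat.le_ceil _

theorem exp_kap_le {η : ℝ} (hη : 0 < η) {b : ℕ} (hb : 1 ≤ b) :
    Real.exp (η * kap η b) ≤ b * Real.exp η := by
  have hb' : (0 : ℝ) < b := by exact_mod_cast hb
  have h0 : 0 ≤ Real.log b / η := div_nonneg (Real.log_natCast_nonneg b) hη.le
  have h1 := Nat.ceil_lt_add_one h0
  have h2 : η * kap η b ≤ Real.log b + η := by
    have : η * (Real.log b / η + 1) = Real.log b + η := by field_simp
    rw [← this]
    exact mul_le_mul_of_nonneg_left h1.le hη.le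
  calc _ ≤ Real.exp (Real.log b + η) := Real.exp_le_exp.mpr h2
    _ = _ := by rw [Real.exp_add, Real.exp_log hb']

theorem rem_bound {η : ℝ} (hη : 0 < η) (Y Z : ℕ) (hY : 1 ≤ Y) (α β : ℕ → ℝ)
    (hα : ∀ a, |α a| ≤ 1) (hβ : ∀ b, |β b| ≤ 1) (hαY : ∀ a, α a ≠ 0 → Y < a) :
    |∑ b ∈ Icc 1 Z, ∑ a ∈ Icc 1 Z, if a * b ≤ Z ∧ ¬ a * Real.exp (η * kap η b) ≤ Z then
      α a * β b * (J(b | a) : ℝ) else 0| ≤ η * Z * (1 + Real.log Z) + Z / Y := by
  have hY' : (0 : ℝ) < Y := by exact_mod_cast hY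
  have h1 : ∀ b ∈ Icc 1 Z, |∑ a ∈ Icc 1 Z, if a * b ≤ Z ∧ ¬ a * Real.exp (η * kap η b) ≤ Z then
      α a * β b * (J(b | a) : ℝ) else 0| ≤
      η * Z * (1 / (b : ℝ)) + if b ≤ Z / Y then 1 else 0 := by
    intro b hb
    have hb1 := (mem_Icc.mp hb).1
    have hb' : (0 : ℝ) < b := by exact_mod_cast hb1
    split_ifs with hbY
    · have hE := Real.exp_pos (η * kap η b)
      have k1 := le_exp_kap hη hb1
      have k2 := exp_kap_le hη hb1
      have k3 := card_between Z (x := Z / Real.exp (η * kap η b)) (y := Z / b) (by positivity)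
        (div_le_div_of_nonneg_left (by positivity) hb' k1)
      have k4 : Z / b - Z / Real.exp (η * kap η b) ≤ η * Z * (1 / (b : ℝ)) := by
        have k5 : Z / (b * Real.exp η) ≤ Z / Real.exp (η * kap η b) :=
          div_le_div_of_nonneg_left (by positivity) hE k2
        have k6 : 1 - η ≤ (Real.exp η)⁻¹ := by
          rw [← Real.exp_neg]; have := Real.add_one_le_exp (-η); linarith
        have k7 : (Z : ℝ) / (b * Real.exp η) = Z / b * (Real.exp η)⁻¹ := by field_simp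
        have k8 : (Z : ℝ) / b * (1 - η) ≤ Z / b * (Real.exp η)⁻¹ :=
          mul_le_mul_of_nonneg_left k6 (by positivity)
        have k9 : η * Z * (1 / (b : ℝ)) = Z / b * η := by ring
        linarith
      refine (abs_sum_le_sum_abs _ _).trans (le_trans ?_ (k3.trans (by linarith)))
      rw [card_eq_sum_ones, Nat.cast_sum, sum_filter]
      refine sum_le_sum fun a _ => ?_
      by_cases hc : a * b ≤ Z ∧ ¬ a * Real.exp (η * kap η b) ≤ Z
      · rw [if_pos hc, if_pos ⟨by rw [div_lt_iff₀ hE]; exact not_le.mp hc.2,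
          by rw [le_div_iff₀ hb']; exact_mod_cast hc.1⟩, abs_mul, abs_mul, Nat.cast_one]
        exact mul_le_one₀ (mul_le_one₀ (hα a) (abs_nonneg _) (hβ b)) (abs_nonneg _) (abs_J_le _ _)
      · rw [if_neg hc, abs_zero]; split_ifs <;> simp
    · rw [sum_eq_zero, abs_zero]
      · positivity
      · intro a _
        split_ifs with hc
        · by_cases ha : α a = 0
          · simp [ha]
          · exfalso
            refine hbY ((Nat.le_div_iff_mul_le hY).mpr ?_)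
            have := hαY a ha
            nlinarith [hc.1]
        · rfl
  refine (abs_sum_le_sum_abs _ _).trans ((sum_le_sum h1).trans ?_)
  rw [sum_add_distrib, ← mul_sum]
  refine add_le_add (mul_le_mul_of_nonneg_left (harm Z) (by positivity)) ?_
  rw [sum_boole]
  have h2 : {b ∈ Icc 1 Z | b ≤ Z / Y} ⊆ Icc 1 (Z / Y) := fun b hb =>
    mem_Icc.mpr ⟨(mem_Icc.mp (mem_filter.mp hb).1).1, (mem_filter.mp hb).2⟩
  have h3 := card_le_card h2
  rw [Nat.card_Icc, add_tsub_cancel_right] at h3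
  exact le_trans (by exact_mod_cast h3) Nat.cast_div_le

theorem box_bound : ∃ C : ℝ, 0 < C ∧ ∀ (Y Z : ℕ) (α β : ℕ → ℝ) (N : ℝ) (T : Finset ℕ), 1 ≤ Y →
    0 < N → (∀ b ∈ T, (b : ℝ) ≤ N) → (∀ a, |α a| ≤ 1) → (∀ b, |β b| ≤ 1) →
    (∀ a, α a ≠ 0 → Squarefree a ∧ Odd a ∧ Y < a) →
    (∀ b, β b ≠ 0 → Squarefree b ∧ Odd b ∧ Y < b) →
    |∑ b ∈ T, ∑ a ∈ Icc 1 Z, if a * N ≤ Z then α a * β b * (J(b | a) : ℝ) else 0| ≤
      C * Z / ((Y : ℝ) ^ (1 / 24 : ℝ)) ^ 2 := by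
  classical
  obtain ⟨C, hC, h⟩ := bilinear_sym
  refine ⟨C, hC, fun Y Z α β N T hY hN hT hα hβ hα' hβ' => ?_⟩
  have hY' : (0 : ℝ) < Y := by exact_mod_cast hY
  have e : (∑ b ∈ T, ∑ a ∈ Icc 1 Z, if a * N ≤ Z then α a * β b * (J(b | a) : ℝ) else 0) =
      ∑ b ∈ T with β b ≠ 0, ∑ a ∈ (Icc 1 Z).filter fun a : ℕ => a * N ≤ Z ∧ α a ≠ 0,
        β b * α a * (J(b | a) : ℝ) := by
    rw [sum_filter]
    refine sum_congr rfl fun b _ => ?_
    rw [sum_filter]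
    by_cases hb : β b = 0
    · simp [hb]
    · rw [if_pos hb]
      refine sum_congr rfl fun a _ => ?_
      by_cases ha : α a = 0
      · simp [ha]
      · simp only [ne_eq, ha, not_false_eq_true, and_true, mul_comm (α a)]
  rw [e]
  rcases (T.filter fun b => β b ≠ 0).eq_empty_or_nonempty with h1 | ⟨b, hb⟩
  · rw [h1, sum_empty, abs_zero]; positivity
  rcases ((Icc 1 Z).filter fun a : ℕ => a * N ≤ Z ∧ α a ≠ 0).eq_empty_or_nonempty with h2 | ⟨a, ha⟩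
  · simp only [h2, sum_empty, sum_const_zero, abs_zero]; positivity
  have hL : ((Y : ℝ) ^ (1 / 36 : ℝ)) ^ 36 = Y := by
    rw [← Real.rpow_natCast, ← Real.rpow_mul hY'.le]; norm_num
  have hL3 : ((Y : ℝ) ^ (1 / 36 : ℝ)) ^ 3 = ((Y : ℝ) ^ (1 / 24 : ℝ)) ^ 2 := by
    rw [← Real.rpow_natCast, ← Real.rpow_natCast, ← Real.rpow_mul hY'.le, ← Real.rpow_mul hY'.le]
    norm_num
  have b1 : ∀ b ∈ T.filter fun b => β b ≠ 0, b ≤ ⌊N⌋₊ := fun b hb =>
    Nat.le_floor (hT b (mem_filter.mp hb).1)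
  have a1 : ∀ a ∈ (Icc 1 Z).filter fun a : ℕ => a * N ≤ Z ∧ α a ≠ 0, a ≤ ⌊Z / N⌋₊ := fun a ha =>
    Nat.le_floor (by rw [le_div_iff₀ hN]; exact (mem_filter.mp ha).2.1)
  have key := h ((Y : ℝ) ^ (1 / 36 : ℝ)) ⌊N⌋₊ ⌊Z / N⌋₊ (by positivity)
    (by rw [hL]; exact_mod_cast ((hβ' b (mem_filter.mp hb).2).2.2.le.trans (b1 b hb)))
    (by rw [hL]; exact_mod_cast ((hα' a (mem_filter.mp ha).2.2).2.2.le.trans (a1 a ha)))
    _ _ β α hβ hα
    (fun b hb => ⟨(hβ' b (mem_filter.mp hb).2).1, (hβ' b (mem_filter.mp hb).2).2.1, b1 b hb⟩)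
    (fun a ha => ⟨(hα' a (mem_filter.mp ha).2.2).1, (hα' a (mem_filter.mp ha).2.2).2.1, a1 a ha⟩)
  refine key.trans ?_
  rw [hL3]
  refine div_le_div_of_nonneg_right ?_ (by positivity)
  rw [mul_assoc]
  refine mul_le_mul_of_nonneg_left ?_ hC.le
  calc (⌊N⌋₊ : ℝ) * ⌊Z / N⌋₊ ≤ N * (Z / N) :=
        mul_le_mul (Nat.floor_le hN.le) (Nat.floor_le (by positivity)) (by positivity) hN.le
    _ = Z := by field_simp

end Bil

theorem hyp_bil : ∃ C : ℝ, 0 < C ∧ ∀ (Y Z : ℕ) (α β : ℕ → ℝ), 1 ≤ Y →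
    (∀ a, |α a| ≤ 1) → (∀ b, |β b| ≤ 1) →
    (∀ a, α a ≠ 0 → Squarefree a ∧ Odd a ∧ Y < a) →
    (∀ b, β b ≠ 0 → Squarefree b ∧ Odd b ∧ Y < b) →
    |∑ a ∈ Icc 1 Z, ∑ b ∈ Icc 1 Z, if a * b ≤ Z then α a * β b * (J(b | a) : ℝ) else 0| ≤
      C * Z * (1 + Real.log Z) / (Y : ℝ) ^ (1 / 24 : ℝ) := by
  obtain ⟨C, hC, h⟩ := Bil.box_bound
  refine ⟨2 * C + 2, by positivity, fun Y Z α β hY hα hβ hα' hβ' => ?_⟩
  have hY' : (1 : ℝ) ≤ Y := by exact_mod_cast hY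
  set P : ℝ := (Y : ℝ) ^ (1 / 24 : ℝ) with hP
  have hP1 : 1 ≤ P := Real.one_le_rpow hY' (by norm_num)
  have hPY : P ≤ Y := by
    calc P ≤ (Y : ℝ) ^ (1 : ℝ) := Real.rpow_le_rpow_of_exponent_le hY' (by norm_num)
      _ = Y := Real.rpow_one _
  have hP0 : 0 < P := by linarith
  have hη : 0 < P⁻¹ := by positivity
  have hl : 0 ≤ Real.log Z := Real.log_natCast_nonneg Z
  have r := Bil.rem_bound hη Y Z hY α β hα hβ fun a ha => (hα' a ha).2.2
  have e : (∑ a ∈ Icc 1 Z, ∑ b ∈ Icc 1 Z, if a * b ≤ Z then α a * β b * (J(b | a) : ℝ) else 0) =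
      (∑ k ∈ range (Bil.kap P⁻¹ Z + 1), ∑ b ∈ Icc 1 Z with Bil.kap P⁻¹ b = k, ∑ a ∈ Icc 1 Z,
        if a * Real.exp (P⁻¹ * k) ≤ Z then α a * β b * (J(b | a) : ℝ) else 0) +
      ∑ b ∈ Icc 1 Z, ∑ a ∈ Icc 1 Z, if a * b ≤ Z ∧ ¬ a * Real.exp (P⁻¹ * Bil.kap P⁻¹ b) ≤ Z then
        α a * β b * (J(b | a) : ℝ) else 0 := by
    have e1 : (∑ k ∈ range (Bil.kap P⁻¹ Z + 1), ∑ b ∈ Icc 1 Z with Bil.kap P⁻¹ b = k,
        ∑ a ∈ Icc 1 Z, if a * Real.exp (P⁻¹ * k) ≤ Z then α a * β b * (J(b | a) : ℝ) else 0) =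
        ∑ b ∈ Icc 1 Z, ∑ a ∈ Icc 1 Z,
          if a * Real.exp (P⁻¹ * Bil.kap P⁻¹ b) ≤ Z then α a * β b * (J(b | a) : ℝ) else 0 := by
      rw [← sum_fiberwise_of_maps_to (s := Icc 1 Z) (t := range (Bil.kap P⁻¹ Z + 1))
        (g := Bil.kap P⁻¹)]
      · exact sum_congr rfl fun k _ => sum_congr rfl fun b hb => by rw [(mem_filter.mp hb).2]
      · intro b hb
        obtain ⟨h1, h2⟩ := mem_Icc.mp hb
        refine mem_range.mpr (Nat.lt_succ_of_le (Nat.ceil_mono ?_))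
        exact div_le_div_of_nonneg_right (Real.log_le_log (by exact_mod_cast h1)
          (by exact_mod_cast h2)) hη.le
    rw [e1, sum_comm, ← sum_add_distrib]
    refine sum_congr rfl fun b hb => ?_
    rw [← sum_add_distrib]
    refine sum_congr rfl fun a _ => ?_
    by_cases h1 : a * Real.exp (P⁻¹ * Bil.kap P⁻¹ b) ≤ Z
    · have h2 : a * b ≤ Z := by
        have := mul_le_mul_of_nonneg_left (Bil.le_exp_kap hη (mem_Icc.mp hb).1) (Nat.cast_nonneg a)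
        exact_mod_cast this.trans h1
      simp [h1, h2]
    · simp [h1]
  rw [e]
  have m1 : |∑ k ∈ range (Bil.kap P⁻¹ Z + 1), ∑ b ∈ Icc 1 Z with Bil.kap P⁻¹ b = k, ∑ a ∈ Icc 1 Z,
        if a * Real.exp (P⁻¹ * k) ≤ Z then α a * β b * (J(b | a) : ℝ) else 0| ≤
      (Real.log Z * P + 2) * (C * Z / P ^ 2) := by
    refine (abs_sum_le_sum_abs _ _).trans ((sum_le_sum fun k _ => h Y Z α β _ _ hY
      (Real.exp_pos _) (fun b hb => ?_) hα hβ hα' hβ').trans ?_)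
    · rw [← (mem_filter.mp hb).2]
      exact Bil.le_exp_kap hη (mem_Icc.mp (mem_filter.mp hb).1).1
    · rw [sum_const, card_range, nsmul_eq_mul]
      refine mul_le_mul_of_nonneg_right ?_ (by positivity)
      have := Nat.ceil_lt_add_one (a := Real.log Z / P⁻¹) (by positivity)
      rw [div_inv_eq_mul] at this
      have e2 : (Bil.kap P⁻¹ Z : ℝ) = ⌈Real.log Z * P⌉₊ := by rw [Bil.kap, div_inv_eq_mul]
      push_cast
      linarith
  refine (abs_add_le _ _).trans ((add_le_add m1 r).trans ?_)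
  have hZ : (0 : ℝ) ≤ Z := Nat.cast_nonneg Z
  have k1 : (Real.log Z * P + 2) * (C * Z / P ^ 2) ≤ 2 * C * Z * (1 + Real.log Z) / P := by
    have : Real.log Z * P + 2 ≤ 2 * (1 + Real.log Z) * P := by nlinarith
    calc _ ≤ (2 * (1 + Real.log Z) * P) * (C * Z / P ^ 2) :=
          mul_le_mul_of_nonneg_right this (by positivity)
      _ = _ := by field_simp
  have k2 : (Z : ℝ) / Y ≤ Z * (1 + Real.log Z) / P := by
    calc (Z : ℝ) / Y ≤ Z / P := div_le_div_of_nonneg_left hZ hP0 hPY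
      _ ≤ _ := div_le_div_of_nonneg_right (by nlinarith) hP0.le
  have k3 : P⁻¹ * Z * (1 + Real.log Z) = Z * (1 + Real.log Z) / P := by field_simp
  have k4 : (2 * C + 2) * Z * (1 + Real.log Z) / P =
      2 * C * Z * (1 + Real.log Z) / P + 2 * (Z * (1 + Real.log Z) / P) := by ring
  linarith
end Pool.Agent.Lib.MP_f8d36e_nt.An
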