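import Pool.Agent.Lib.MP_f8d36e_nt.GDefs

/-! Job D1: primes of height at most one are principal. -/

set_option autoImplicit false

namespace Pool.Agent.Lib.MP_f8d36e_nt

open IsLocalRing

section
variable {A : Type} [CommRing A] [IsLocalRing A]

theorem ht_mem_max (g : PowerSeries A) :
    g ∈ maximalIdeal (PowerSeries A) ↔ PowerSeries.constantCoeff g ∈ maximalIdeal A := by
  rw [mem_maximalIdeal, mem_maximalIdeal, mem_nonunits_iff, mem_nonunits_iff,
    PowerSeries.isUnit_iff_constantCoeff]

theorem ht_mem_pow (n : ℕ) (g : PowerSeries A) : g ∈ maximalIdeal (PowerSeries A) ^ n ↔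
    ∀ i, PowerSeries.coeff i g ∈ maximalIdeal A ^ (n - i) := by
  induction n generalizing g with
  | zero => simp
  | succ n ih =>
    constructor
    · intro hg
      rw [pow_succ'] at hg
      refine Submodule.mul_induction_on hg (fun a ha b hb i => ?_) fun a b ha hb i => ?_
      · rw [PowerSeries.coeff_mul]
        refine Ideal.sum_mem _ fun q hq => ?_
        have h1 := Finset.HasAntidiagonal.mem_antidiagonal.1 hq
        have h2 := (ih b).1 hb q.2
        rcases Nat.eq_zero_or_pos q.1 with h | h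
        · have h3 : PowerSeries.coeff q.1 a ∈ maximalIdeal A := by
            rw [h, PowerSeries.coeff_zero_eq_constantCoeff_apply]
            exact (ht_mem_max a).1 ha
          have h4 := Ideal.mul_mem_mul h3 h2
          rw [← pow_succ'] at h4
          exact Ideal.pow_le_pow_right (by omega) h4
        · exact Ideal.mul_mem_left _ _ (Ideal.pow_le_pow_right (by omega) h2)
      · rw [map_add]
        exact add_mem (ha i) (hb i)
    · intro hg
      rw [g.eq_X_mul_shift_add_const]
      refine add_mem ?_ ?_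
      · rw [pow_succ']
        refine Ideal.mul_mem_mul ((ht_mem_max _).2 (by simp)) ((ih _).2 fun i => ?_)
        simpa using hg (i + 1)
      · have h1 : (maximalIdeal A).map (PowerSeries.C (R := A)) ≤ maximalIdeal (PowerSeries A) :=
          Ideal.map_le_iff_le_comap.2 fun a ha => (ht_mem_max _).2 (by simpa using ha)
        refine Ideal.pow_right_mono h1 _ ?_
        rw [← Ideal.map_pow]
        exact Ideal.mem_map_of_mem _ (by simpa using hg 0)

theorem ht_precomplete [IsPrecomplete (maximalIdeal A) A] :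
    IsPrecomplete (maximalIdeal (PowerSeries A)) (PowerSeries A) := by
  refine ⟨fun f hf => ?_⟩
  simp only [SModEq.sub_mem, smul_eq_mul, Ideal.mul_top] at hf ⊢
  have key : ∀ i, ∃ L : A, ∀ n, PowerSeries.coeff i (f (n + i)) - L ∈ maximalIdeal A ^ n := by
    intro i
    have := IsPrecomplete.prec (I := maximalIdeal A) (M := A) inferInstance
      (f := fun n => PowerSeries.coeff i (f (n + i))) (fun {m n} h => by
        simp only [SModEq.sub_mem, smul_eq_mul, Ideal.mul_top]
        simpa using (ht_mem_pow _ _).1 (hf (Nat.add_le_add_right h i)) i)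
    simpa only [SModEq.sub_mem, smul_eq_mul, Ideal.mul_top] using this
  choose L hL using key
  refine ⟨PowerSeries.mk L, fun n => (ht_mem_pow _ _).2 fun i => ?_⟩
  rcases le_total n i with h | h
  · simp [Nat.sub_eq_zero_of_le h]
  · simpa [Nat.sub_add_cancel h] using hL i (n - i)

/-- A prime ideal of a power series ring that contains a Weierstrass divisor contains a prime. -/
theorem ht_weier [IsDomain A] [UniqueFactorizationMonoid A] [IsAdicComplete (maximalIdeal A) A]
    (P : Ideal (PowerSeries A)) (hP : P.IsPrime) {g : PowerSeries A} (hg : g ∈ P)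
    (h0 : g.map (residue A) ≠ 0) : ∃ f ∈ P, Prime f := by
  obtain ⟨F, h, H⟩ := g.exists_isWeierstrassFactorization h0
  have hF : (F : PowerSeries A) ∈ P :=
    (hP.mem_or_mem (H.eq_mul ▸ hg)).resolve_right fun h1 =>
      hP.ne_top (P.eq_top_of_isUnit_mem h1 H.isUnit)
  have hm := H.isDistinguishedAt.monic
  set P' := P.comap (Polynomial.coeToPowerSeries.ringHom (R := A)) with hP'
  have hp : P'.IsPrime := Ideal.comap_isPrime _ _
  have hF' : F ∈ P' := hF
  obtain ⟨Q, h1, h2⟩ := (hp.multiset_prod_mem_iff_exists_mem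
    (UniqueFactorizationMonoid.factors F)).1
    (Ideal.mem_of_dvd _ (UniqueFactorizationMonoid.factors_prod hm.ne_zero).symm.dvd hF')
  have h3 := UniqueFactorizationMonoid.prime_of_factor Q h1
  have h4 := UniqueFactorizationMonoid.dvd_of_mem_factors h1
  obtain ⟨u, hu⟩ := hm.isUnit_leadingCoeff_of_dvd h4
  set Q' := Polynomial.C ((u⁻¹ : Aˣ) : A) * Q with hQ'
  have h5 : Q'.Monic := Polynomial.monic_C_mul_of_mul_leadingCoeff_eq_one (by rw [← hu]; simp)
  have h6 : Associated Q Q' :=
    (associated_unit_mul_right Q _ (Polynomial.isUnit_C.2 (u⁻¹).isUnit))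
  have h7 : Q'.map (Ideal.Quotient.mk (maximalIdeal A)) ∣ Polynomial.X ^ F.natDegree := by
    rw [← H.isDistinguishedAt.map_eq_X_pow]
    exact Polynomial.map_dvd _ (h6.symm.dvd.trans h4)
  obtain ⟨m, -, h8⟩ := (dvd_prime_pow Polynomial.prime_X _).1 h7
  have h9 := Polynomial.eq_of_monic_of_associated (h5.map _) (Polynomial.monic_X_pow m) h8
  have h10 : Q'.natDegree = m := by
    rw [← h5.natDegree_map (Ideal.Quotient.mk (maximalIdeal A)), h9, Polynomial.natDegree_X_pow]
  have hd : Q'.IsDistinguishedAt (maximalIdeal A) := by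
    refine ⟨⟨fun {i} hi => ?_⟩, h5⟩
    rw [← Ideal.Quotient.eq_zero_iff_mem, ← Polynomial.coeff_map, h9, Polynomial.coeff_X_pow,
      if_neg (by omega)]
  have h11 : (Ideal.span {Q'}).IsPrime :=
    (Ideal.span_singleton_prime h5.ne_zero).2 (h6.prime h3)
  have h12 : IsDomain (PowerSeries A ⧸ Ideal.span {(Q' : PowerSeries A)}) :=
    hd.algEquivQuotient.symm.toMulEquiv.isDomain _
  refine ⟨Q', (P'.mul_mem_left _ h2 : Q' ∈ P'), (Ideal.span_singleton_prime ?_).1
    ((Ideal.Quotient.isDomain_iff_prime _).1 h12)⟩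
  simpa using h5.ne_zero

end

section
open MvPowerSeries
variable {A : Type} [CommRing A]

/-- The shear substitution. -/
noncomputable def ht_sh (c : A) (n : ℕ) : Option Unit → MvPowerSeries (Option Unit) A :=
  fun o => o.elim (X none) fun _ => X (some ()) + C c * X none ^ (n + 1)

theorem ht_has (c : A) (n : ℕ) : HasSubst (ht_sh c n) :=
  hasSubst_of_constantCoeff_zero fun o => by rcases o with _ | _ <;> simp [ht_sh]

theorem ht_inv (c : A) (n : ℕ) (f : MvPowerSeries (Option Unit) A) :
    substAlgHom (R := A) (ht_has (-c) n) (substAlgHom (R := A) (ht_has c n) f) = f := by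
  have h1 : (fun s => subst (R := A) (ht_sh (-c) n) (ht_sh c n s)) = X := by
    funext o
    rw [← substAlgHom_apply (ht_has (-c) n)]
    rcases o with _ | _
    · simp only [ht_sh, Option.elim]
      exact substAlgHom_X _ _
    · have e : ∀ a : A, substAlgHom (R := A) (ht_has (-c) n) (C a) = C a := fun a =>
        (substAlgHom (R := A) (ht_has (-c) n)).commutes a
      change substAlgHom (R := A) (ht_has (-c) n) (X (some ()) + C c * X none ^ (n + 1)) = _
      rw [map_add, map_mul, map_pow, substAlgHom_X, substAlgHom_X, e]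
      simp [ht_sh]
  rw [substAlgHom_apply, substAlgHom_apply, subst_comp_subst_apply (ht_has c n) (ht_has (-c) n), h1,
    subst_self, id]

/-- The shear automorphism. -/
noncomputable def ht_aut (n : ℕ) :
    MvPowerSeries (Option Unit) A ≃ₐ[A] MvPowerSeries (Option Unit) A :=
  AlgEquiv.ofAlgHom (substAlgHom (ht_has 1 n)) (substAlgHom (ht_has (-1) n))
    (AlgHom.ext fun f => by simpa using ht_inv (-1 : A) n f) (AlgHom.ext fun f => ht_inv 1 n f)

theorem ht_coeff (k : ℕ) (g : MvPowerSeries (Option Unit) A) :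
    coeff (Finsupp.single none k) g =
      PowerSeries.coeff k (PowerSeries.map constantCoeff (optionEquivLeft Unit A g)) := by
  rw [PowerSeries.coeff_map, ← coeff_zero_eq_constantCoeff_apply, coeff_coeff_optionEquivLeft,
    Finsupp.optionElim_zero]

theorem ht_coeff_prod (k n : ℕ) (d : Option Unit →₀ ℕ) :
    coeff (Finsupp.single none k) (d.prod fun s e => ht_sh (1 : A) n s ^ e) =
      if k = d none + (n + 1) * d (some ()) then 1 else 0 := by
  rw [ht_coeff, Finsupp.prod_fintype _ _ (by simp), Fintype.prod_option]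
  simp [ht_sh, optionEquivLeft_X_none, optionEquivLeft_X_some, ← pow_mul, ← pow_add,
    PowerSeries.coeff_X_pow]

theorem ht_shear {k : Type} [CommRing k] (φ : A →+* k) (f : MvPowerSeries (Option Unit) A)
    (hf : ∃ d, φ (coeff d f) ≠ 0) : ∃ n j, φ (coeff (Finsupp.single none j) (ht_aut n f)) ≠ 0 := by
  classical
  have h1 : ∃ i, ∃ d : Option Unit →₀ ℕ, d (some ()) = i ∧ φ (coeff d f) ≠ 0 :=
    let ⟨d, hd⟩ := hf; ⟨_, d, rfl, hd⟩
  obtain ⟨d0, h2, h3⟩ := Nat.find_spec h1
  refine ⟨d0 none, d0 none + (d0 none + 1) * d0 (some ()), ?_⟩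
  change φ (coeff _ (substAlgHom (R := A) (ht_has 1 (d0 none)) f)) ≠ 0
  rw [substAlgHom_apply, coeff_subst (ht_has 1 _),
    map_finsum φ (coeff_subst_finite (ht_has 1 _) f _), finsum_eq_single _ d0]
  · rw [ht_coeff_prod, if_pos rfl, smul_eq_mul, mul_one]
    exact h3
  · intro d hd
    rw [ht_coeff_prod]
    split_ifs with h4
    · by_contra h5
      have h6 : Nat.find h1 ≤ d (some ()) := Nat.find_min' h1 ⟨d, rfl, by simpa using h5⟩
      rw [← h2] at h6
      have h7 : d (some ()) = d0 (some ()) := by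
        by_contra h8
        have h9 : d0 (some ()) + 1 ≤ d (some ()) := by omega
        nlinarith [Nat.mul_le_mul_left (d0 none + 1) h9]
      refine hd (Finsupp.ext fun o => ?_)
      rcases o with _ | _
      · rw [h7] at h4; omega
      · exact h7
    · simp

theorem ht_dvd {σ : Type} [IsLocalRing A] {π : A} (hπ : maximalIdeal A = Ideal.span {π})
    (f : MvPowerSeries σ A) : C π ∣ f ↔ map (residue A) f = 0 := by
  have h0 : ∀ a : A, residue A a = 0 ↔ π ∣ a := fun a => by
    rw [residue_eq_zero_iff, hπ, Ideal.mem_span_singleton]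
  constructor
  · rintro ⟨g, rfl⟩
    rw [map_mul, map_C, (h0 π).2 dvd_rfl, map_zero, zero_mul]
  · intro h
    have h1 : ∀ d, ∃ c, coeff d f = π * c := fun d => (h0 _).1 (by
      rw [← coeff_map, h, map_zero])
    choose c hc using h1
    exact ⟨c, MvPowerSeries.ext fun d => by rw [coeff_C_mul, hc]; rfl⟩

theorem ht_main [IsDomain A] [IsPrincipalIdealRing A] [IsLocalRing A]
    [IsAdicComplete (maximalIdeal A) A] {π : A} (hπ : maximalIdeal A = Ideal.span {π})
    (hπ0 : π ≠ 0) (P : Ideal (MvPowerSeries (Option Unit) A)) (hP : P.IsPrime) (h0 : P ≠ ⊥) :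
    ∃ f ∈ P, Prime f := by
  have : IsDomain (MvPowerSeries (Option Unit) A) := NoZeroDivisors.to_isDomain _
  have : IsDomain (MvPowerSeries (Option Unit) (ResidueField A)) := NoZeroDivisors.to_isDomain _
  have hC : Prime (C π : MvPowerSeries (Option Unit) A) := by
    have h1 : (C π : MvPowerSeries (Option Unit) A) ≠ 0 := fun h =>
      hπ0 (by simpa using congrArg constantCoeff h)
    rw [← Ideal.span_singleton_prime h1]
    have h2 : Ideal.span {(C π : MvPowerSeries (Option Unit) A)} =
        RingHom.ker (map (σ := Option Unit) (residue A)) := by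
      ext f
      rw [Ideal.mem_span_singleton, ht_dvd hπ, RingHom.mem_ker]
    rw [h2]
    exact RingHom.ker_isPrime _
  by_cases hm : C π ∈ P
  · exact ⟨_, hm, hC⟩
  obtain ⟨f0, h1, h2⟩ := Submodule.exists_mem_ne_zero_of_ne_bot h0
  obtain ⟨m, f, h3, rfl⟩ := WfDvdMonoid.max_power_factor' h2 hC.not_isUnit
  have h4 : f ∈ P := (hP.mem_or_mem h1).resolve_left fun h => hm (hP.mem_of_pow_mem m h)
  have h5 : ∃ d, residue A (coeff d f) ≠ 0 := by
    by_contra h
    simp only [not_exists, not_not] at h
    exact h3 ((ht_dvd hπ f).2 (MvPowerSeries.ext fun d => by rw [coeff_map, h d, map_zero]))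
  obtain ⟨n, j, h6⟩ := ht_shear (residue A) f h5
  have := ht_precomplete (A := A)
  have : IsAdicComplete (maximalIdeal (PowerSeries A)) (PowerSeries A) := {}
  let e : MvPowerSeries (Option Unit) A ≃+* PowerSeries (PowerSeries A) :=
    ((ht_aut n).trans (optionEquivLeft Unit A)).toRingEquiv
  obtain ⟨q, h7, h8⟩ := ht_weier (A := PowerSeries A) (P.comap e.symm) (Ideal.comap_isPrime _ _)
    (g := e f) (by rw [Ideal.mem_comap, e.symm_apply_apply]; exact h4) fun h => h6 (by
      have h9 := congrArg (PowerSeries.coeff j) h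
      rw [PowerSeries.coeff_map, map_zero, residue_eq_zero_iff, ht_mem_max] at h9
      rw [residue_eq_zero_iff, ht_coeff]
      exact h9)
  exact ⟨e.symm q, h7, (MulEquiv.prime_iff e.symm).2 h8⟩

end

theorem exists_prime_mem_Lam (P : Ideal Lam) (hP : P.IsPrime) (h0 : P ≠ ⊥) :
    ∃ f ∈ P, Prime f := by
  let e : MvPowerSeries (Option Unit) ℤ_[2] ≃+* Lam := (MvPowerSeries.renameEquiv ℤ_[2]
    ((finSuccEquiv 1).trans (Equiv.optionCongr finOneEquiv)).symm).toRingEquiv
  obtain ⟨f, h1, h2⟩ := ht_main (A := ℤ_[2]) PadicInt.maximalIdeal_eq_span_p (NeZero.ne _)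
    (P.comap e) (Ideal.comap_isPrime _ _) fun h => by
      obtain ⟨x, h3, h4⟩ := Submodule.exists_mem_ne_zero_of_ne_bot h0
      have h5 : e.symm x ∈ P.comap e := by
        rw [Ideal.mem_comap, e.apply_symm_apply]; exact h3
      rw [h, Ideal.mem_bot] at h5
      exact h4 (by simpa using h5)
  exact ⟨e f, h1, (MulEquiv.prime_iff e).2 h2⟩

theorem principal_of_height (P : Ideal Lam) (hP : P.IsPrime) (h : P.height ≤ 1) :
    ∃ f : Lam, P = Ideal.span {f} := by
  by_cases h0 : P = ⊥
  · exact ⟨0, by simp [h0]⟩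
  obtain ⟨f, h1, h2⟩ := exists_prime_mem_Lam P hP h0
  have h3 : (Ideal.span {f}).IsPrime := (Ideal.span_singleton_prime h2.ne_zero).2 h2
  refine ⟨f, (Ideal.eq_of_le_of_height_le (Ideal.span {f})
    ((Ideal.span_singleton_le_iff_mem _).2 h1) (h.trans ?_)).symm⟩
  have h4 : (⊥ : Ideal Lam) < Ideal.span {f} :=
    bot_lt_iff_ne_bot.2 (by simpa using h2.ne_zero)
  have h5 := Ideal.height_strict_mono_of_isPrime h4
  exact Order.one_le_iff_pos.2 (zero_le.trans_lt h5)

end Pool.Agent.Lib.MP_f8d36e_nt
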