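import Pool.Agent.Lib.MP_f8d36e_nt.Lead
import Pool.Agent.Lib.MP_f8d36e_nt.Ht

/-! Job D2b: the annihilator is not contained in a prime of height one. -/

set_option autoImplicit false

open MvPowerSeries Matrix

namespace Pool.Agent.Lib.MP_f8d36e_nt

theorem ann_minor {K κ ι : Type} [Field K] [Fintype κ] [Fintype ι] [DecidableEq ι]
    (H : Matrix κ ι K) (h : ∀ y, H *ᵥ y = 0 → y = 0) :
    ∃ σ : ι → κ, (H.submatrix σ id).det ≠ 0 := by
  have h1 : Submodule.span K (Set.range H.row) = ⊤ := by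
    refine Submodule.eq_top_of_finrank_eq ?_
    rw [← rank_eq_finrank_span_row]
    exact LinearMap.finrank_range_of_inj ((injective_iff_map_eq_zero H.mulVecLin).2 h)
  obtain ⟨κ', a, -, h2, h3⟩ := exists_linearIndependent' K H.row
  let e := (Pi.basisFun K ι).indexEquiv (Module.Basis.mk h3 (h2.trans h1).ge)
  exact ⟨a ∘ e, ((isUnit_iff_isUnit_det _).1 (linearIndependent_rows_iff_isUnit.1
    (h3.comp e e.injective))).ne_zero⟩

section
variable {ι : Type} [Fintype ι] [DecidableEq ι] {M : Type} [AddCommGroup M] [Module Lam M]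
  {u w β : ι → F2} {R : Matrix ι ι F2} {x : ι → M} {p q T : Kb}

theorem ann_kill (hx : Submodule.span Lam (Set.range x) = ⊤) (D : Matrix ι ι Lam) (c : Lam)
    (h : ∀ i, c • ∑ j, D i j • x j = 0) (y : M) : (c * D.det) • y = 0 := by
  have h1 : Submodule.span Lam (Set.range x) ≤
      LinearMap.ker (LinearMap.lsmul Lam M (c * D.det)) := by
    rw [Submodule.span_le]
    rintro _ ⟨l, rfl⟩
    have h2 : ∑ i, adjugate D l i • c • ∑ j, D i j • x j = 0 := by
      simp only [h, smul_zero, Finset.sum_const_zero]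
    have h3 : ∀ j, ∑ i, adjugate D l i * (c * D i j) = if l = j then c * D.det else 0 := fun j => by
      have := congrFun (congrFun (adjugate_mul D) l) j
      rw [mul_apply, Matrix.smul_apply, one_apply, smul_eq_mul] at this
      simp only [mul_left_comm _ c, ← Finset.mul_sum, this, mul_ite, mul_one, mul_zero]
    simp only [Finset.smul_sum, smul_smul] at h2
    rw [Finset.sum_comm] at h2
    simp only [← Finset.sum_smul, h3, ite_smul, zero_smul, Finset.sum_ite_eq, Finset.mem_univ,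
      if_true] at h2
    exact h2
  exact h1 (hx ▸ Submodule.mem_top)

omit [DecidableEq ι] in
theorem ann_coef (hx : Submodule.span Lam (Set.range x) = ⊤) {I : Ideal Lam} {v : M}
    (h : v ∈ I • (⊤ : Submodule Lam M)) : ∃ c : ι → Lam, (∀ j, c j ∈ I) ∧ v = ∑ j, c j • x j := by
  rw [← hx, Submodule.mem_ideal_smul_span_iff_exists_sum] at h
  obtain ⟨a, h1, rfl⟩ := h
  exact ⟨a, h1, Finsupp.sum_fintype _ _ fun _ => zero_smul _ _⟩

theorem ann_zero (k : ℕ) : Ld k 0 0 := Ld.of_mem (zero_mem _)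

theorem ann_hev_zero (k : ℕ) : hev k p q T 0 = 0 := by simp [hev]

theorem ann_deg {k : ℕ} {f : Lam} {G : MvPolynomial (Fin 2) F2} (h : Ld k f G) :
    G.totalDegree ≤ k := h.choose_spec.2.2

theorem ann_hev {k N : ℕ} {f g : Lam} {F G : MvPolynomial (Fin 2) F2} (hF : Ld k f F) (h0 : F ≠ 0)
    (hz : hev k p q T F = 0) (hd : f ∣ g) (hG : Ld N g G) : hev N p q T G = 0 := by
  obtain ⟨g, rfl⟩ := hd
  obtain rfl | ⟨j, H, rfl, h1, rfl⟩ := hF.dvd h0 hG
  · exact ann_hev_zero _
  · rw [hev_mul (ann_deg hF) (ann_deg h1), hz, zero_mul]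

theorem ann_sub {k : ℕ} {f c : Lam} {G : MvPolynomial (Fin 2) F2} (h : Ld k f G)
    (hc : c ∈ mm ^ (k + 1)) : Ld k (f - c) G := by
  have := h.add (Ld.of_mem (neg_mem hc))
  rwa [add_zero, ← sub_eq_add_neg] at this

/-- The degrees of the rows. -/
def annK : ι ⊕ Fin 3 → ℕ := Sum.elim (fun _ => 1) fun _ => 0

/-- The leading forms of the relations. -/
noncomputable def annB (u w β : ι → F2) (R : Matrix ι ι F2) :
    Matrix (ι ⊕ Fin 3) ι (MvPolynomial (Fin 2) F2) :=
  Sum.elim (fun i j => (if i = j then MvPolynomial.C (w i) * MvPolynomial.X 1 else 0) +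
      MvPolynomial.C (R i j) * (1 + MvPolynomial.C (β i + β j) * MvPolynomial.X 0))
    fun r j => MvPolynomial.C (![w j, w j * β j, u j * β j] r)

theorem ann_rows (hx : Rels u w β R x) : ∃ A : Matrix (ι ⊕ Fin 3) ι Lam,
    (∀ r j, Ld (annK r) (A r j) (annB u w β R r j)) ∧
    (∀ r, (X 0 : Lam) • ∑ j, A r j • x j = 0) ∧ (∀ i, ∑ j, A (.inl i) j • x j = 0) ∧
    ∑ j, A (.inr 0) j • x j = 0 := by
  choose c c1 c2 using fun i => ann_coef hx.span (hx.row i)
  obtain ⟨z1, a1, b1⟩ := hx.swb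
  obtain ⟨z2, a2, b2⟩ := hx.sub
  obtain ⟨d0, e0, f0⟩ := ann_coef hx.span hx.sw
  obtain ⟨d1, e1, rfl⟩ := ann_coef hx.span a1
  obtain ⟨d2, e2, rfl⟩ := ann_coef hx.span a2
  let A : Matrix (ι ⊕ Fin 3) ι Lam := Sum.elim
    (fun i j => (if i = j then ((w i).val : Lam) * X 1 else 0) +
      ((R i j).val : Lam) * (2 + ((β i + β j).val : Lam) * X 0) - c i j)
    fun r j => ((![w j, w j * β j, u j * β j] r).val : Lam) - ![d0 j, d1 j, d2 j] r
  have h1 : ∀ i, ∑ j, A (.inl i) j • x j = 0 := fun i => by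
    simp only [A, Sum.elim_inl, sub_smul, add_smul _ (_ * (_ + _) : Lam), Finset.sum_sub_distrib,
      Finset.sum_add_distrib, ite_smul, zero_smul, Finset.sum_ite_eq, Finset.mem_univ, if_true,
      c2, sub_self]
  have h2 : ∑ j, A (.inr 0) j • x j = 0 := by
    simp only [A, Sum.elim_inr, sub_smul, Finset.sum_sub_distrib, cons_val_zero, f0, sub_self]
  refine ⟨A, ?_, ?_, h1, h2⟩
  · rintro (i | r) j
    · refine ann_sub (Ld.add ?_ ((Ld.const _).mul (Ld.two.add ((Ld.const _).mul (Ld.X 0)))))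
        (c1 i j)
      split_ifs
      exacts [(Ld.const _).mul (Ld.X 1), ann_zero 1]
    · refine ann_sub (Ld.const _) ?_
      change _ ∈ mm ^ 1
      rw [pow_one]
      fin_cases r
      exacts [e0 j, e1 j, e2 j]
  · rintro (i | r)
    · rw [h1, smul_zero]
    · fin_cases r
      · exact (congrArg _ h2).trans (smul_zero _)
      · simp only [A, Sum.elim_inr, sub_smul, Finset.sum_sub_distrib]
        exact b1
      · simp only [A, Sum.elim_inr, sub_smul, Finset.sum_sub_distrib]
        exact b2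

omit [Fintype ι] in
theorem ann_inl (i j : ι) : hev 1 p q T (annB u w β R (.inl i) j) =
    (if i = j then T * algebraMap F2 Kb (w i) else 0) +
      (if β i = β j then p else q) * algebraMap F2 Kb (R i j) := by
  have h1 : ∀ (t : F2) (l : Fin 2), hev 1 p q T (MvPolynomial.C t * MvPolynomial.X l) =
      algebraMap F2 Kb t * hev 1 p q T (MvPolynomial.X l) := fun t l => by
    rw [← zero_add 1, hev_mul (ann_deg (Ld.const t)) (ann_deg (Ld.X l)), hev_C, pow_zero, mul_one]
  have h2 : hev 1 p q T (MvPolynomial.C (R i j) *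
      (1 + MvPolynomial.C (β i + β j) * MvPolynomial.X 0)) =
      (p + algebraMap F2 Kb (β i + β j) * (p + q)) * algebraMap F2 Kb (R i j) := by
    rw [mul_add, ← mul_assoc, mul_one, ← map_mul, hev_add, h1, hev_C, hev_X0, map_mul]
    ring
  rw [annB, Sum.elim_inl, hev_add, h2]
  congr 1
  · split_ifs
    · rw [h1, hev_X1, mul_comm]
    · exact ann_hev_zero 1
  · split_ifs with e
    · rw [e, CharTwo.add_self_eq_zero, map_zero, zero_mul, add_zero]
    · rw [(by decide : ∀ s t : F2, s ≠ t → s + t = 1) _ _ e, map_one, one_mul, ← add_assoc,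
        CharTwo.add_self_eq_zero, zero_add]

omit [Fintype ι] in
theorem ann_inr (r : Fin 3) (j : ι) : hev 0 p q T (annB u w β R (.inr r) j) =
    algebraMap F2 Kb (![w j, w j * β j, u j * β j] r) := by
  rw [annB, Sum.elim_inr, hev_C, pow_zero, mul_one]

theorem ann_det {A : Matrix (ι ⊕ Fin 3) ι Lam}
    (hA : ∀ r j, Ld (annK r) (A r j) (annB u w β R r j)) (σ : ι → ι ⊕ Fin 3)
    (hz : ∀ N G, Ld N (A.submatrix σ id).det G → hev N p q T G = 0) :
    (Matrix.of fun i j => hev (annK (σ i)) p q T (annB u w β R (σ i) j)).det = 0 :=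
  (hev_det (B := (annB u w β R).submatrix σ id) fun i j => ann_deg (hA (σ i) j)).symm.trans
    (hz _ _ (Ld.det fun i j => hA (σ i) j))

omit [DecidableEq ι] in
theorem ann_inj (hs : Sums u w R) (hu : Uniq u w β R) (y : ι → F2) (h1 : R *ᵥ y = 0)
    (h2 : w ⬝ᵥ y = 0) : y = 0 := by
  rcases (by decide : ∀ t : F2, t = 0 ∨ t = 1) (u ⬝ᵥ y) with e | e
  · refine (hu.uniq y (by rw [e, zero_smul, h1])).resolve_right fun h => ?_
    rw [h, hu.hu] at e
    exact one_ne_zero e
  · have a1 : u ⬝ᵥ (y + 1) = 1 := by rw [dotProduct_add, dotProduct_one, hs.su, e, add_zero]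
    have a2 : w ⬝ᵥ (y + 1) = 1 := by rw [dotProduct_add, dotProduct_one, hs.sw, h2, zero_add]
    have a3 : R *ᵥ (y + 1) = u := by
      rw [mulVec_add, h1, zero_add]
      exact funext fun i => (dotProduct_one _).trans (hs.row i)
    rcases hu.uniq (y + 1) (by rw [a1, a3, one_smul]) with h | h
    · rw [h, dotProduct_zero] at a1
      exact absurd a1 zero_ne_one
    · rw [h, hu.hw] at a2
      exact absurd a2 zero_ne_one

end

theorem exists_ann {ι : Type} [Fintype ι] [DecidableEq ι] {M : Type} [AddCommGroup M]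
    [Module Lam M] {u w β : ι → F2} {R : Matrix ι ι F2} (hs : Sums u w R) (hu : Uniq u w β R)
    {a b : Kb} (hg : ∀ p q : Kb, p ≠ 0 ∨ q ≠ 0 → GoodPt u w β R p q (a * p + b * q))
    {x : ι → M} (hx : Rels u w β R x) (P : Ideal Lam) (hP : P.IsPrime) (h : P.height ≤ 1) :
    ∃ f : Lam, f ∉ P ∧ ∀ y : M, f • y = 0 := by
  by_contra! hc
  have hc : ∀ g : Lam, (∀ y : M, g • y = 0) → g ∈ P := fun g h => by
    by_contra h'
    obtain ⟨y, hy⟩ := hc g h'
    exact hy (h y)
  obtain ⟨f, rfl⟩ := principal_of_height P hP h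
  obtain ⟨A, hA, h1, h2, h3⟩ := ann_rows hx
  have hf : ¬ IsUnit f := fun h => hP.ne_top (Ideal.span_singleton_eq_top.2 h)
  have hX : (MvPolynomial.X 0 : MvPolynomial (Fin 2) F2) ≠ 0 := MvPolynomial.X_ne_zero 0
  by_cases h0 : (X 0 : Lam) ∈ Ideal.span {f}
  · obtain ⟨g, hg⟩ := Ideal.mem_span_singleton.1 h0
    have l1 := Ld.X 0
    rw [hg] at l1
    obtain ⟨k, F, k1, F0, hF⟩ := exists_ld (f := f) (fun e => hX (l1.unique
      (by rw [e, zero_mul]; exact ann_zero 1))) hf
    obtain ⟨j, H, e1, l2, e2⟩ := (hF.dvd F0 l1).resolve_left hX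
    obtain rfl : k = 1 := by omega
    obtain rfl : j = 0 := by omega
    have hz : hev 1 1 1 0 F = 0 := by
      have e3 := MvPolynomial.totalDegree_eq_zero_iff_eq_C.1 (Nat.le_zero.1 (ann_deg l2))
      have e4 := hev_mul (p := 1) (q := 1) (T := 0) (ann_deg hF) (ann_deg l2)
      rw [← e2, hev_X0, CharTwo.add_self_eq_zero, e3, hev_C, pow_zero, mul_one] at e4
      refine (mul_eq_zero.1 e4.symm).resolve_right fun e => hX ?_
      rw [e2, e3, (_root_.map_eq_zero _).1 e, map_zero, mul_zero]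
    obtain ⟨σ, hσ⟩ := ann_minor (Matrix.of fun (r : Option ι) j => r.elim (w j) fun i => R i j)
      fun y hy => ann_inj hs hu y (funext fun i => congrFun hy (some i)) (congrFun hy none)
    have hd := ann_det (p := 1) (q := 1) (T := 0) hA (fun i => (σ i).elim (.inr 0) .inl)
      fun N G => ann_hev hF F0 hz (Ideal.mem_span_singleton.1 (hc _ fun y => by
        rw [← one_mul (det _)]
        refine ann_kill hx.span _ 1 (fun i => ?_) y
        rw [one_smul]
        simp only [submatrix_apply, id]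
        cases σ i
        exacts [h3, h2 _]))
    refine hσ ((_root_.map_eq_zero (algebraMap F2 Kb)).1 ?_)
    rw [RingHom.map_det, ← hd]
    congr 1
    ext i j
    simp only [RingHom.mapMatrix_apply, map_apply, submatrix_apply, of_apply, id]
    cases σ i
    · exact (ann_inr 0 j).symm
    · exact ((ann_inl _ j).trans (by simp)).symm
  obtain ⟨p, q, hpq, hz⟩ : ∃ p q : Kb, (p ≠ 0 ∨ q ≠ 0) ∧
      ∀ g, f ∣ g → ∀ N G, Ld N g G → hev N p q (a * p + b * q) G = 0 := by
    by_cases e : f = 0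
    · refine ⟨1, 0, Or.inl one_ne_zero, fun g hg N G hG => ?_⟩
      rw [e, zero_dvd_iff] at hg
      rw [hg] at hG
      rw [hG.unique (ann_zero N), ann_hev_zero]
    · obtain ⟨k, F, k1, F0, hF⟩ := exists_ld e hf
      obtain ⟨p, q, hpq, hz⟩ := exists_hev_zero k1 (ann_deg hF) a b
      exact ⟨p, q, hpq, fun g hg N G => ann_hev hF F0 hz hg⟩
  obtain ⟨σ, hσ⟩ := ann_minor
    (Matrix.of fun r j => hev (annK r) p q (a * p + b * q) (annB u w β R r j)) fun y hy => by
      have e : ∀ r : Fin 3, ∑ j, algebraMap F2 Kb (![w j, w j * β j, u j * β j] r) * y j = 0 :=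
        fun r => (Finset.sum_congr rfl fun j _ => by rw [← ann_inr]; rfl).trans
          (congrFun hy (.inr r))
      refine hg p q hpq y (fun i => Eq.trans ?_ (congrFun hy (.inl i))) (e 0) (e 1) (e 2)
      change _ = ∑ j, hev 1 p q _ (annB u w β R (.inl i) j) * y j
      simp only [ann_inl, add_mul, Finset.sum_add_distrib, ite_mul (i = _), zero_mul,
        Finset.sum_ite_eq, Finset.mem_univ, if_true]
  exact hσ (ann_det hA σ (hz _ (Ideal.mem_span_singleton.1 ((hP.mem_or_mem
    (hc _ (ann_kill hx.span _ _ fun i => h1 (σ i)))).resolve_left h0))))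

end Pool.Agent.Lib.MP_f8d36e_nt
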