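import Pool.Agent.Lib.MP_f8d36e_nt.Lim

/-! Job CM5: logarithm and transfer. -/

set_option autoImplicit false

namespace Pool.Agent.Lib.MP_f8d36e_nt

/-- The coordinates of the power `(X + Y * sqrt (-m)) ^ 2 ^ n = X' + 2 ^ n * Y' * sqrt (-m)`. -/
noncomputable def antiP (m : ℤ_[2]) (x y : ℤ_[2]) : ℕ → ℤ_[2] × ℤ_[2]
  | 0 => (x, y)
  | n + 1 => ((antiP m x y n).1 ^ 2 - m * 4 ^ n * (antiP m x y n).2 ^ 2,
      (antiP m x y n).1 * (antiP m x y n).2)

theorem anti_mul (m x y x' y' : ℤ_[2]) (n : ℕ) : antiP m (x * x' - m * y * y') (x * y' + y * x') n =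
    ((antiP m x y n).1 * (antiP m x' y' n).1 - m * 4 ^ n * (antiP m x y n).2 * (antiP m x' y' n).2,
      (antiP m x y n).1 * (antiP m x' y' n).2 + (antiP m x y n).2 * (antiP m x' y' n).1) := by
  induction n with
  | zero => simp [antiP]
  | succ n ih => simp only [antiP, ih]; ext <;> dsimp only <;> ring

theorem anti_neg (m x y : ℤ_[2]) (n : ℕ) :
    antiP m x (-y) n = ((antiP m x y n).1, -(antiP m x y n).2) := by
  induction n with
  | zero => rfl
  | succ n ih => simp only [antiP, ih]; ext <;> dsimp only <;> ring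

theorem anti_cont {G : Type} [TopologicalSpace G] (m : ℤ_[2]) {x y : G → ℤ_[2]} (hx : Continuous x)
    (hy : Continuous y) (n : ℕ) : Continuous fun g => antiP m (x g) (y g) n := by
  induction n with
  | zero => exact hx.prodMk hy
  | succ n ih => simp only [antiP]; fun_prop

theorem anti_dvd (m : ℤ_[2]) {x y : ℤ_[2]} (hx : 2 ∣ x - 1) (hy : 2 ∣ y) (n : ℕ) :
    2 ^ (n + 1) ∣ (antiP m x y n).1 - 1 ∧ 2 ∣ (antiP m x y n).2 ∧
      ‖(antiP m x y n).2‖ = ‖y‖ := by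
  induction n with
  | zero => exact ⟨by simpa [antiP] using hx, hy, rfl⟩
  | succ n ih =>
    obtain ⟨⟨a, ha⟩, ⟨b, hb⟩, h⟩ := ih
    refine ⟨⟨2 ^ n * a ^ 2 + a - m * 2 ^ n * b ^ 2, ?_⟩, Dvd.dvd.mul_left ⟨b, hb⟩ _, ?_⟩
    · rw [antiP, eq_add_of_sub_eq ha, hb, show (4 : ℤ_[2]) = 2 * 2 by norm_num, mul_pow]
      ring
    · rw [antiP, norm_mul, h, eq_add_of_sub_eq ha, PadicInt.norm_add_eq_max_of_ne, norm_one,
        max_eq_right (PadicInt.norm_le_one _), one_mul]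
      rw [norm_one]
      exact ((PadicInt.norm_lt_one_iff_dvd _).2 ⟨2 ^ n * a, by push_cast; ring⟩).ne

theorem anti_zero {x : ℤ_[2]} (h : ∀ n, 2 ^ n ∣ x) : x = 0 := by
  by_contra h0
  have h1 : ¬ IsUnit (2 : ℤ_[2]) := (PadicInt.prime_p (p := 2)).not_isUnit
  obtain ⟨n, hn⟩ := FiniteMultiplicity.of_not_isUnit h1 h0
  exact hn (h _)

theorem anti_transfer {G A : Type} [Group G] [CommGroup A] (U : Subgroup G) [U.FiniteIndex]
    (φ : U →* A) (h : ∀ (g : G) (y z : U), (z : G) = g * y * g⁻¹ → φ z = φ y) (x : U) :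
    MonoidHom.transfer φ x = φ x ^ U.index := by
  have := Fintype.ofFinite (Quotient (MulAction.orbitRel (Subgroup.zpowers (x : G)) (G ⧸ U)))
  rw [MonoidHom.transfer_eq_prod_quotient_orbitRel_zpowers_quot,
    Subgroup.index_eq_sum_minimalPeriod U x, ← Finset.prod_pow_eq_pow_sum]
  exact Finset.prod_congr rfl fun q _ => by
    rw [← map_pow]; exact h q.out.out⁻¹ _ _ (by simp)

theorem CMAct.exists_log {m : ℕ} {θ : Qbar} (a : CMAct m θ) :
    ∃ ρ : a.U →* Multiplicative ℤ_[2], Continuous ρ ∧ ρ ≠ 1 ∧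
      ∀ (g : Gam) (x y : a.U), (y : Gam) = g * x * g⁻¹ →
        (g θ = θ → ρ y = ρ x) ∧ (g θ = -θ → ρ y = (ρ x)⁻¹) := by
  have hd := fun (g : a.U) n => anti_dvd m (a.oddX g g.2) (a.evenY g g.2) n
  have hd1 := fun (g : a.U) n => (pow_dvd_pow 2 n.le_succ).trans (hd g n).1
  obtain ⟨ρ, h1, h2⟩ := exists_limit_hom (G := a.U) (fun n g => (antiP m (a.X g) (a.Y g) n).2)
    (fun n => (anti_cont m a.contX.domRestrict a.contY.domRestrict n).snd)
    (fun n g => by
      rw [antiP, ← sub_one_mul]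
      exact (hd1 g n).mul_right _)
    fun n g h => by
      rw [Subgroup.coe_mul, a.mulX _ g.2 _ h.2, a.mulY _ g.2 _ h.2, anti_mul]
      have := ((hd1 g n).mul_right (antiP m (a.X h) (a.Y h) n).2).add
        ((hd1 h n).mul_left (antiP m (a.X g) (a.Y g) n).2)
      exact (congrArg (_ ∣ ·) (by ring)).mp this
  refine ⟨ρ, h1, fun h => ?_, fun g x y e => ⟨fun hg => ?_, fun hg => ?_⟩⟩
  · obtain ⟨g, hg, h0⟩ := a.ne
    refine h0 (anti_zero fun n => ?_)
    have h3 := h2 n ⟨g, hg⟩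
    rw [h, MonoidHom.one_apply, toAdd_one, zero_sub, dvd_neg] at h3
    have h4 := (PadicInt.norm_le_pow_iff_mem_span_pow _ n).2 (Ideal.mem_span_singleton.2 h3)
    rw [(hd ⟨g, hg⟩ n).2.2] at h4
    exact Ideal.mem_span_singleton.1 ((PadicInt.norm_le_pow_iff_mem_span_pow _ n).1 h4)
  · refine Multiplicative.toAdd.injective (sub_eq_zero.1 (anti_zero fun n => ?_))
    have h3 := h2 n y
    rw [e, a.conjX g x x.2, a.conjY g x x.2 hg] at h3
    simpa using h3.sub (h2 n x)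
  · refine Multiplicative.toAdd.injective (sub_eq_zero.1 (anti_zero fun n => ?_))
    have h3 := h2 n y
    rw [e, a.conjX g x x.2, a.conjY' g x x.2 hg, anti_neg] at h3
    exact (congrArg (_ ∣ ·) (by rw [toAdd_inv]; ring)).mp (h3.add (h2 n x))

theorem CMAct.exists_anti {m : ℕ} {θ : Qbar} (a : CMAct m θ) (H : Subgroup Gam)
    (hH : ∀ g, g ∈ H ↔ g θ = θ) (hn : ∀ g : Gam, g θ = θ ∨ g θ = -θ) (hi : H.index = 2) :
    ∃ ρ : H →* Multiplicative ℤ_[2], Continuous ρ ∧ ρ ≠ 1 ∧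
      ∀ c : Gam, c ∉ H → ∀ x y : H, (y : Gam) = c * x * c⁻¹ → ρ y = (ρ x)⁻¹ := by
  obtain ⟨ρ, h1, h2, h3⟩ := a.exists_log
  have := a.normal
  have := Subgroup.normal_of_index_eq_two hi
  have := a.U.quotient_finite_of_isOpen a.isOpen
  have : a.U.FiniteIndex := Subgroup.finiteIndex_of_finite_quotient
  have hU : a.U ≤ H := fun g hg => (hH g).2 (a.fix g hg)
  let φ := ρ.comp (Subgroup.subgroupOfEquivOfLe hU).toMonoidHom
  let V := MonoidHom.transfer φ
  have hV : ∀ x : a.U.subgroupOf H, V x = ρ ⟨(x : H), x.2⟩ ^ (a.U.subgroupOf H).index :=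
    anti_transfer _ φ fun g y z e => (h3 g _ _ (congrArg Subtype.val e)).1 ((hH g).1 g.2)
  have hc : Continuous V := continuous_of_continuousAt_one V
    (ContinuousOn.continuousAt (s := (a.U.subgroupOf H : Set H))
      (continuousOn_iff_continuous_domRestrict.2 (Continuous.congr (by fun_prop) fun x => (hV x).symm))
      ((a.isOpen.preimage continuous_subtype_val).mem_nhds a.U.one_mem))
  obtain ⟨c, hc0⟩ : ∃ c, c ∉ H := by
    by_contra! h
    rw [(Subgroup.eq_top_iff' H).2 h, Subgroup.index_top] at hi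
    omega
  have hVc : ∀ g x y : H, (y : Gam) = g * x * (g : Gam)⁻¹ → V y = V x := fun g x y e => by
    rw [show y = g * x * g⁻¹ from Subtype.ext e]
    simp
  refine ⟨V / V.comp (MulAut.conjNormal c).toMonoidHom, hc.div' (hc.comp
    (continuous_induced_rng.2 (show Continuous fun x : H => c * x * c⁻¹ by fun_prop))),
    fun h => h2 (MonoidHom.ext fun x => ?_), fun d hd x y e => ?_⟩
  · have b1 := DFunLike.congr_fun h ⟨x, hU x.2⟩
    have b2 : c * x * c⁻¹ ∈ a.U := a.normal.conj_mem _ x.2 c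
    have b3 := hV ⟨⟨x, hU x.2⟩, x.2⟩
    have b4 := hV ⟨⟨_, hU b2⟩, b2⟩
    rw [(h3 c x ⟨_, b2⟩ rfl).2 ((hn c).resolve_left fun h => hc0 ((hH c).2 h))] at b4
    have b5 : V ⟨x, hU x.2⟩ / V ⟨_, hU b2⟩ = 1 := b1
    rw [b3, b4, inv_pow, div_inv_eq_mul, ← pow_add] at b5
    have b6 := congrArg Multiplicative.toAdd b5
    have b7 := Subgroup.FiniteIndex.index_ne_zero (H := a.U.subgroupOf H)
    rw [toAdd_pow, toAdd_one, smul_eq_zero] at b6
    exact b6.resolve_left (by omega)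
  · have b1 : d * c⁻¹ ∈ H := (Subgroup.mul_mem_iff_of_index_two hi).2 (by simp [hd, hc0])
    have b2 : c * d ∈ H := (Subgroup.mul_mem_iff_of_index_two hi).2 (by simp [hd, hc0])
    show V y / V (MulAut.conjNormal c y) = (V x / V (MulAut.conjNormal c x))⁻¹
    rw [inv_div, hVc ⟨_, b1⟩ (MulAut.conjNormal c x) y (by simp [e, mul_assoc]),
      hVc ⟨_, b2⟩ x (MulAut.conjNormal c y) (by simp [e, mul_assoc])]

end Pool.Agent.Lib.MP_f8d36e_nt
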