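import Pool.Agent.Lib.MP_f8d36e_nt.Crit

/-! Job A0: elementary facts about Redei matrices. -/

set_option autoImplicit false

open Matrix

namespace Pool.Agent.Lib.MP_f8d36e_nt

theorem Rmat_anti {ι : Type} [Fintype ι] [DecidableEq ι] {u : ι → F2} {ρ : ι → ι → F2}
    (h : ∀ i j, i ≠ j → ρ i j + ρ j i = u i * u j) (i j : ι) :
    Rmat u ρ i j + Rmat u ρ j i = u i * u j + if i = j then u i else 0 := by
  by_cases e : i = j
  · subst e
    rw [CharTwo.add_self_eq_zero, if_pos rfl]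
    exact (by decide : ∀ x : F2, 0 = x * x + x) _
  · simp only [Rmat, if_neg e, if_neg (Ne.symm e), add_zero, h i j e]

theorem sums_of_anti {ι : Type} [Fintype ι] [DecidableEq ι] {u w : ι → F2} {ρ : ι → ι → F2}
    (h : ∀ i j, i ≠ j → ρ i j + ρ j i = u i * u j) (hu : ∑ i, u i = 0) (hw : ∑ i, w i = 1) :
    Sums u w (Rmat u ρ) := by
  have row : ∀ i, ∑ j, Rmat u ρ i j = u i := fun i => by
    rw [← Finset.add_sum_erase _ _ (Finset.mem_univ i), Finset.sum_congr rfl fun j hj =>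
      show Rmat u ρ i j = ρ i j from if_neg (Finset.ne_of_mem_erase hj).symm, Rmat, if_pos rfl,
      add_assoc, CharTwo.add_self_eq_zero, add_zero]
  refine ⟨hu, hw, row, fun j => ?_⟩
  have := Finset.sum_congr (s₁ := Finset.univ) rfl fun i _ => Rmat_anti h i j
  rw [Finset.sum_add_distrib, Finset.sum_add_distrib, row, ← Finset.sum_mul, hu, zero_mul,
    Finset.sum_ite_eq', if_pos (Finset.mem_univ j)] at this
  exact add_right_cancel this

theorem anti_N {p q : ℕ} (hp : p.Prime) (hq : q.Prime) (hp2 : p ≠ 2) (hq2 : q ≠ 2) (h : p ≠ q) :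
    rhoN p q + rhoN q p = uN p * uN q := by
  have h1 := jacobiSym.quadratic_reciprocity_if (hp.eq_two_or_odd.resolve_left hp2)
    (hq.eq_two_or_odd.resolve_left hq2)
  have h2 : jacobiSym q p = 1 ∨ jacobiSym q p = -1 := jacobiSym.eq_one_or_neg_one
    (by rw [Int.gcd_natCast_natCast]; exact (Nat.coprime_primes hq hp).2 h.symm)
  unfold rhoN uN
  rw [← h1]
  by_cases a : p % 4 = 3 <;> by_cases b : q % 4 = 3 <;> rcases h2 with c | c <;>
    simp only [a, b, c] <;> decide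

theorem elem_sum {f : ℕ → F2} (h1 : f 1 = 0)
    (h : ∀ a b, a % 2 = 1 → b % 2 = 1 → f (a * b) = f a + f b) {m : ℕ} (hm : Squarefree m)
    (ho : Odd m) : ∑ p : m.primeFactors, f p = f m := by
  have key : ∀ s : Finset ℕ, (∏ p ∈ s, p) % 2 = 1 → ∑ p ∈ s, f p = f (∏ p ∈ s, p) := by
    intro s
    induction s using Finset.induction_on with
    | empty => simp [h1]
    | insert a s ha ih =>
      rw [Finset.prod_insert ha, Finset.sum_insert ha, ← Nat.odd_iff, Nat.odd_mul, Nat.odd_iff,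
        Nat.odd_iff]
      exact fun e => by rw [ih e.2, h _ _ e.1 e.2]
  have e := Nat.prod_primeFactors_of_squarefree hm
  rw [Finset.sum_coe_sort m.primeFactors f, key _ (by rw [e]; exact Nat.odd_iff.1 ho), e]

theorem elem_mod {a b : ℕ} (ha : a % 2 = 1) (hb : b % 2 = 1) :
    (a % 8 = 1 ∨ a % 8 = 3 ∨ a % 8 = 5 ∨ a % 8 = 7) ∧
      (b % 8 = 1 ∨ b % 8 = 3 ∨ b % 8 = 5 ∨ b % 8 = 7) := by omega

theorem sum_uN {m : ℕ} (hm : Squarefree m) (ho : Odd m) :
    ∑ p : m.primeFactors, uN p = uN m := by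
  refine elem_sum rfl (fun a b ha hb => ?_) hm ho
  have h : (a % 4 = 1 ∨ a % 4 = 3) ∧ (b % 4 = 1 ∨ b % 4 = 3) := by omega
  unfold uN
  rw [Nat.mul_mod]
  obtain ⟨h1 | h1, h2 | h2⟩ := h <;> rw [h1, h2] <;> decide

theorem sum_wN {m : ℕ} (hm : Squarefree m) (ho : Odd m) :
    ∑ p : m.primeFactors, wN p = wN m := by
  refine elem_sum rfl (fun a b ha hb => ?_) hm ho
  unfold wN
  rw [Nat.mul_mod]
  obtain ⟨h1 | h1 | h1 | h1, h2 | h2 | h2 | h2⟩ := elem_mod ha hb <;> rw [h1, h2] <;> decide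

theorem elem_Rmat {ι κ : Type} [Fintype ι] [DecidableEq ι] [Fintype κ] [DecidableEq κ]
    (e : ι ≃ κ) (u : κ → F2) (ρ : κ → κ → F2) (i j : ι) :
    (Rmat (fun i => u (e i)) fun i j => ρ (e i) (e j)) i j = Rmat u ρ (e i) (e j) := by
  simp only [Rmat, e.apply_eq_iff_eq]
  congr 2
  exact Finset.sum_equiv e (by simp) fun _ _ => rfl

/-- The criterion does not depend on the names of the indices. -/
theorem Crit.equiv {ι κ : Type} [Fintype ι] [DecidableEq ι] [Fintype κ] [DecidableEq κ]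
    (e : ι ≃ κ) {u w : κ → F2} {ρ : κ → κ → F2}
    (h : Crit (fun i => u (e i)) (fun i => w (e i))
      (Rmat (fun i => u (e i)) fun i j => ρ (e i) (e j))) : Crit u w (Rmat u ρ) := by
  obtain ⟨β, ⟨h1, h2, h3, h4⟩, a, b, h5⟩ := h
  obtain ⟨β, rfl⟩ : ∃ β' : κ → F2, β = fun i => β' (e i) := ⟨fun k => β (e.symm k), by simp⟩
  have d : ∀ f g : κ → F2, ((fun i => f (e i)) ⬝ᵥ fun i => g (e i)) = f ⬝ᵥ g := fun f g =>
    e.sum_comp fun k => f k * g k
  have m : ∀ (g : κ → F2) (i : ι), ((Rmat (fun i => u (e i)) fun i j => ρ (e i) (e j)) *ᵥ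
      fun i => g (e i)) i = (Rmat u ρ *ᵥ g) (e i) := fun g i => by
    rw [mulVec, mulVec, ← d]
    simp only [elem_Rmat]
  refine ⟨β, ⟨d .. ▸ h1, d .. ▸ h2, funext fun k => ?_, fun β' h => ?_⟩, a, b,
    fun p q hpq y e1 e2 e3 e4 => funext fun k => ?_⟩
  · obtain ⟨i, rfl⟩ := e.surjective k
    exact (m β i).symm.trans (congrFun h3 i)
  · refine (h4 (fun i => β' (e i)) (funext fun i => ?_)).imp (fun h => funext fun k => ?_)
      fun h => funext fun k => ?_
    · rw [m, h, d]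
      rfl
    · obtain ⟨i, rfl⟩ := e.surjective k
      exact congrFun h i
    · obtain ⟨i, rfl⟩ := e.surjective k
      exact congrFun h i
  · obtain ⟨i, rfl⟩ := e.surjective k
    refine congrFun (h5 p q hpq (fun i => y (e i)) (fun i => ?_) ((e.sum_comp _).trans e2)
      ((e.sum_comp fun k => algebraMap F2 Kb (w k * β k) * y k).trans e3)
      ((e.sum_comp fun k => algebraMap F2 Kb (u k * β k) * y k).trans e4)) i
    rw [← e1 (e i), ← e.sum_comp]
    simp only [elem_Rmat]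

/-- The diagonal of `ρ` plays no role. -/
theorem Rmat_congr {ι : Type} [Fintype ι] [DecidableEq ι] (u : ι → F2) {ρ ρ' : ι → ι → F2}
    (h : ∀ i j, i ≠ j → ρ i j = ρ' i j) : Rmat u ρ = Rmat u ρ' := by
  funext i j
  unfold Rmat
  split_ifs with e
  · rw [Finset.sum_congr rfl fun l hl => h i l (Finset.ne_of_mem_erase hl).symm]
  · exact h i j e

end Pool.Agent.Lib.MP_f8d36e_nt
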