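import Pool.Agent.Lib.MP_f8d36e_nt.Few
import Pool.Agent.Lib.MP_f8d36e_nt.Elem

/-! Job F2: almost all numbers are typical. -/

set_option autoImplicit false

open Finset Filter
open scoped NumberTheorySymbols
open Pool.Agent.Lib.MP_696deb_nt Pool.Agent.Lib.MP_696deb_nt.Den

namespace Pool.Agent.Lib.MP_f8d36e_nt

theorem bad_le {s : Finset ℕ} (T : Finset s) (P : ℕ → Prop) [DecidablePred P]
    (h : ∀ x : s, P x → x ∈ T) : #(s.filter P) ≤ #T := by
  rw [← card_map (Function.Embedding.subtype _)]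
  exact card_le_card fun x hx =>
    mem_map.2 ⟨⟨x, (mem_filter.1 hx).1⟩, h _ (mem_filter.1 hx).2, rfl⟩

theorem bad_ge {s : Finset ℕ} (T : Finset s) (P : ℕ → Prop) [DecidablePred P]
    (h : ∀ x ∈ T, P x.1) : #T ≤ #(s.filter P) :=
  card_le_card_of_injOn Subtype.val (fun x hx => mem_coe.2 (mem_filter.2 ⟨x.2, h x hx⟩))
    Subtype.val_injective.injOn

theorem bad_rho {ι : Type} (q : ℕ) (f : ι → ℕ) (hf : ∀ i, f i ≠ 0) (T : Finset ι) :
    J(q | ∏ i ∈ T, f i) ≠ 0 → ∑ i ∈ T, rhoN q (f i) = rhoN q (∏ i ∈ T, f i) := by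
  classical
  induction T using Finset.induction_on with
  | empty => simp [rhoN]
  | insert a T ha ih =>
    rw [prod_insert ha, sum_insert ha, rhoN, rhoN,
      jacobiSym.mul_right' _ (hf a) (prod_ne_zero_iff.2 fun i _ => hf i)]
    intro h
    rw [ih (right_ne_zero_of_mul h), rhoN]
    rcases jacobiSym.trichotomy (q : ℤ) (f a) with e | e | e <;>
      rcases jacobiSym.trichotomy (q : ℤ) (∏ i ∈ T, f i) with e' | e' | e' <;>
      rw [e, e'] at h ⊢ <;> first | exact absurd rfl h | decide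

/-- The small divisors. -/
def badD (v : ℕ) : Finset ℕ := {d ∈ (PP (YY v)).divisors | d ≠ 1 ∧ d ≤ 2 ^ v ^ 27}

theorem bad_typ {v m : ℕ} (hm : Squarefree m) (ho : Odd m) (h5 : m % 8 = 5)
    (h1 : #m.primeFactors ≤ v ^ 12) (h2 : #{p ∈ m.primeFactors | p ≤ YY v} ≤ v)
    (h3 : ∀ d ∈ badD v, d ∣ m →
      v ^ 9 ≤ #{p ∈ m.primeFactors | YY v < p ∧ p % 8 = 1 ∧ J(p | d) = -1})
    (h4 : v ^ 9 ≤ #{p ∈ m.primeFactors | YY v < p ∧ p % 8 = 5})
    (h6 : 1 ≤ #{p ∈ m.primeFactors | YY v < p ∧ p % 8 = 3}) : TypN v m := by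
  have pr : ∀ i : m.primeFactors, i.1.Prime := fun i => Nat.prime_of_mem_primeFactors i.2
  have od : ∀ i : m.primeFactors, Odd i.1 := fun i =>
    ho.of_dvd_nat (Nat.dvd_of_mem_primeFactors i.2)
  have n2 : ∀ i : m.primeFactors, i.1 ≠ 2 := fun i e => absurd (e ▸ od i) (by decide)
  refine ⟨by rwa [Fintype.card_coe], (bad_ge _ _ fun x hx => by simpa using hx).trans h2,
    fun i j e => anti_N (pr i) (pr j) (n2 i) (n2 j) fun e' => e (Subtype.ext e'),
    by rw [sum_uN hm ho, uN, if_neg (by omega)], by rw [sum_wN hm ho, wN, if_pos (by omega)],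
    fun η η0 η1 => ?_, h4.trans (bad_le _ _ fun x hx => ?_), ?_⟩
  · have f2 : ∀ t : F2, t ≠ 1 → t = 0 := by decide
    set T : Finset m.primeFactors := univ.filter fun i => η i = 1 with hT
    have sm : ∀ i ∈ T, i.1 ≤ YY v := fun i hi => not_lt.1 fun e => by
      have := η1 i (mem_filter.2 ⟨mem_univ _, e⟩)
      rw [(mem_filter.1 hi).2] at this
      exact one_ne_zero this
    have dv : ∀ n : ℕ, (∀ i ∈ T, i.1 ∣ n) → ∏ i ∈ T, i.1 ∣ n := fun n hn => by
      have := prod_primes_dvd (s := T.map (Function.Embedding.subtype _)) n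
        (fun a ha => by obtain ⟨i, -, rfl⟩ := mem_map.1 ha; exact (pr i).prime)
        (fun a ha => by obtain ⟨i, hi, rfl⟩ := mem_map.1 ha; exact hn i hi)
      rwa [prod_map] at this
    have hd : ∏ i ∈ T, i.1 ∈ badD v := by
      refine mem_filter.2 ⟨Nat.mem_divisors.2 ⟨dv _ fun i hi => Nat.dvd_of_mem_primeFactors ?_,
        (PP_sq _).ne_zero⟩, fun e => η0 (funext fun i => f2 _ fun e' => ?_), ?_⟩
      · rw [PP_pf]
        exact mem_filter.2 ⟨mem_Icc.2 ⟨(pr i).pos, sm i hi⟩, pr i, od i⟩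
      · exact (pr i).ne_one (Nat.dvd_one.1
          (e ▸ dvd_prod_of_mem (fun i : m.primeFactors => i.1) (mem_filter.2 ⟨mem_univ _, e'⟩)))
      · refine (prod_le_pow_card _ _ _ sm).trans ?_
        rw [YY, ← pow_mul, pow_succ v 26]
        exact Nat.pow_le_pow_right two_pos (Nat.mul_le_mul_left _ ((bad_ge _ _ sm).trans h2))
    refine (h3 _ hd (dv _ fun i _ => Nat.dvd_of_mem_primeFactors i.2)).trans
      (bad_le _ _ fun x ⟨x1, x2, x3⟩ => mem_filter.2 ⟨mem_filter.2 ⟨mem_filter.2 ⟨mem_univ _, x1⟩,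
        if_neg (by omega), if_neg (by omega)⟩, ?_⟩)
    have e := bad_rho x (fun i : m.primeFactors => i.1) (fun i => (pr i).ne_zero) T (by simp [x3])
    rw [rhoN, if_pos x3, hT, sum_filter] at e
    rw [← e]
    refine sum_congr rfl fun i _ => ?_
    split_ifs with h
    · rw [h, mul_one]
    · rw [f2 _ h, mul_zero]
  · exact mem_filter.2 ⟨mem_filter.2 ⟨mem_univ _, hx.1⟩, if_neg (by omega), if_pos (by omega)⟩
  · obtain ⟨p, hp⟩ := card_pos.1 h6
    obtain ⟨p1, p2, p3⟩ := mem_filter.1 hp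
    exact ⟨⟨p, p1⟩, mem_filter.2 ⟨mem_univ _, p2⟩, if_pos (by simp only; omega)⟩

/-- Markov inequality for the number of prime factors in a set. -/
theorem bad_markov (X k : ℕ) (P : ℕ → Prop) [DecidablePred P] (D : Finset ℕ)
    (h : ∀ m ∈ SO X, (∏ p ∈ m.primeFactors with P p, p).divisors ⊆ D) :
    (#{m ∈ SO X | k < #{p ∈ m.primeFactors | P p}} : ℝ) ≤ X * (∑ d ∈ D, 1 / (d : ℝ)) / 2 ^ k := by
  rw [le_div_iff₀ (by positivity), card_eq_sum_ones, Nat.cast_sum, sum_mul, mul_sum]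
  calc _ ≤ ∑ m ∈ SO X with k < #{p ∈ m.primeFactors | P p}, ∑ d ∈ D,
          if d ∣ m then (1 : ℝ) else 0 := by
        refine sum_le_sum fun m hm => ?_
        obtain ⟨m1, m2⟩ := mem_filter.1 hm
        have pr : ∀ p ∈ m.primeFactors.filter P, p.Prime := fun p hp =>
          Nat.prime_of_mem_primeFactors (mem_filter.1 hp).1
        have dv : ∏ p ∈ m.primeFactors with P p, p ∣ m := prod_primes_dvd _
          (fun p hp => (pr p hp).prime) fun p hp => Nat.dvd_of_mem_primeFactors (mem_filter.1 hp).1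
        have e := prod_one_add_div ((An.mem_SO.1 m1).2.1.squarefree_of_dvd dv) fun _ => 1
        rw [Nat.primeFactors_prod pr, prod_const, one_add_one_eq_two] at e
        rw [Nat.cast_one, one_mul, ← sum_filter]
        refine (pow_le_pow_right₀ one_le_two m2.le).trans (e.trans_le ?_)
        simp only [prod_const_one]
        exact sum_le_sum_of_subset_of_nonneg (fun d hd => mem_filter.2
          ⟨h m m1 hd, (Nat.dvd_of_mem_divisors hd).trans dv⟩) fun _ _ _ => zero_le_one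
    _ ≤ ∑ m ∈ Ioc 0 X, ∑ d ∈ D, if d ∣ m then (1 : ℝ) else 0 :=
        sum_le_sum_of_subset_of_nonneg
          (fun m hm => mem_Ioc.2 (An.mem_SO.1 (mem_filter.1 hm).1).1)
          fun _ _ _ => sum_nonneg fun _ _ => by positivity
    _ ≤ _ := by
        rw [sum_comm]
        refine sum_le_sum fun d _ => ?_
        rw [sum_boole, Nat.Ioc_filter_dvd_card_eq_div, mul_one_div]
        exact Nat.cast_div_le

theorem bad_logY (v : ℕ) : Real.log (YY v) ≤ (v : ℝ) ^ 26 := by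
  rw [YY, Nat.cast_pow, Real.log_pow]
  push_cast
  exact mul_le_of_le_one_right (by positivity) An.log_two_le

theorem bad_Y {v : ℕ} (hv : 1 ≤ v) : 2 ≤ YY v :=
  Nat.le_self_pow (by positivity) 2

theorem bad_sum {v : ℕ} (hv : 1 ≤ v) :
    ∑ d ∈ (PP (YY v)).divisors, 1 / (d : ℝ) ≤ 8 * Real.exp 6 * (v : ℝ) ^ 78 := by
  have e := prod_one_add_div (PP_sq (YY v)) fun p => 1 / (p : ℝ)
  rw [sum_congr rfl fun d hd => prod_mult (PP_div hd).1 (fun p => 1 / (p : ℝ)) (by simp)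
    fun a b _ _ => by push_cast; rw [one_div_mul_one_div]] at e
  have h0 := Real.log_natCast_nonneg (YY v)
  have h1 : 1 + Real.log (YY v) ≤ 2 * (v : ℝ) ^ 26 := by
    have : (1 : ℝ) ≤ (v : ℝ) ^ 26 := one_le_pow₀ (by exact_mod_cast hv)
    linarith [bad_logY v]
  rw [← e]
  calc _ ≤ ∏ p ∈ (PP (YY v)).primeFactors, Real.exp (1 / (p : ℝ)) :=
        prod_le_prod (fun _ _ => by positivity) fun p _ => by
          linarith [Real.add_one_le_exp (1 / (p : ℝ))]
    _ ≤ Real.exp (3 * Real.log (1 + Real.log (YY v)) + 6) := by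
        rw [← Real.exp_sum]
        exact Real.exp_le_exp.2 (small_sum (bad_Y hv))
    _ = (1 + Real.log (YY v)) ^ 3 * Real.exp 6 := by
        rw [Real.exp_add, show (3 : ℝ) = (3 : ℕ) by norm_num, Real.exp_nat_mul,
          Real.exp_log (by linarith)]
    _ ≤ (2 * (v : ℝ) ^ 26) ^ 3 * Real.exp 6 := by gcongr
    _ = _ := by ring

theorem bad_l {v X : ℕ} (hv : 2 ≤ v) (h : Win v X) : v + 2 ≤ Nat.log 2 (Nat.log 2 X) := by
  have h1 : 2 ^ 11 * v ≤ v ^ 12 := by
    rw [pow_succ v 11]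
    exact Nat.mul_le_mul_right _ (Nat.pow_le_pow_left hv _)
  have := h.2
  omega

theorem bad_log {v X : ℕ} (hv : 2 ≤ v) (h : Win v X) :
    (1 + Real.log X) * 2 ^ v ≤ 2 ^ v ^ 12 := by
  have h1 := bad_l hv h
  have h2 := h.1
  have h3 := Nat.lt_pow_succ_log_self one_lt_two X
  have h4 := Nat.lt_pow_succ_log_self one_lt_two (Nat.log 2 X)
  generalize Nat.log 2 (Nat.log 2 X) = l at *
  have h5 : Real.log X ≤ 2 ^ (l + 1) := by
    rcases Nat.eq_zero_or_pos X with rfl | h0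
    · simp
    refine (Real.log_le_log (by exact_mod_cast h0)
      (show (X : ℝ) ≤ 2 ^ 2 ^ (l + 1) by
        exact_mod_cast h3.le.trans (Nat.pow_le_pow_right two_pos h4))).trans ?_
    rw [Real.log_pow]
    push_cast
    exact mul_le_of_le_one_right (by positivity) An.log_two_le
  have h6 : (1 : ℝ) ≤ 2 ^ (l + 1) := one_le_pow₀ one_le_two
  calc _ ≤ (2 * 2 ^ (l + 1)) * 2 ^ v := by gcongr; linarith
    _ = (2 : ℝ) ^ (l + 2 + v) := by ring
    _ ≤ _ := pow_le_pow_right₀ one_le_two (by omega)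

theorem bad_loglog {v X d : ℕ} (hv : 2 ≤ v) (hv' : v ^ 27 ≤ 2 ^ v) (h : Win v X) (h0 : 0 < d)
    (hd : d ≤ 2 ^ v ^ 27) :
    2 ≤ X / d ∧ (v : ℝ) ^ 12 / 9 - 2 ≤ Real.log (Real.log (X / d : ℕ)) := by
  have h1 := bad_l hv h
  have h2 := h.2
  have h4 := Nat.pow_log_le_self 2 (x := Nat.log 2 X) fun e => by simp [e] at h1
  have h3 := Nat.pow_log_le_self 2 (x := X) fun e => by simp [e] at h1
  obtain ⟨l, hl⟩ : ∃ l, Nat.log 2 (Nat.log 2 X) = l + 2 := ⟨_, (Nat.sub_add_cancel (by omega)).symm⟩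
  rw [hl] at h1 h2 h4
  have h5 : 2 ^ 2 ^ (l + 1) ≤ X / d := by
    refine (Nat.le_div_iff_mul_le h0).2 (((Nat.mul_le_mul_left _ hd).trans ?_).trans h3)
    have := hv'.trans (Nat.pow_le_pow_right two_pos (show v ≤ l + 1 by omega))
    rw [← pow_add]
    exact Nat.pow_le_pow_right two_pos (by rw [pow_succ] at h4; omega)
  have h6 : (2 : ℝ) ^ l ≤ Real.log (X / d : ℕ) := by
    refine le_trans ?_ (Real.log_le_log (by positivity)
      (show (2 : ℝ) ^ 2 ^ (l + 1) ≤ (X / d : ℕ) by exact_mod_cast h5))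
    rw [Real.log_pow]
    push_cast
    rw [pow_succ, mul_assoc]
    exact le_mul_of_one_le_right (by positivity) (by linarith [An.log_two_ge])
  refine ⟨(Nat.le_self_pow (by positivity) 2).trans h5,
    le_trans ?_ (Real.log_le_log (by positivity) h6)⟩
  have h7 : (v : ℝ) ^ 12 ≤ 6 * (l + 2) := by exact_mod_cast h2
  rw [Real.log_pow]
  nlinarith [Real.log_two_gt_d9, (Nat.cast_nonneg l : (0 : ℝ) ≤ l)]

theorem bad_logs {v d : ℕ} (hv : 2 ≤ v) (h0 : 0 < d) (hd : d ≤ 2 ^ v ^ 27) :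
    Real.log (1 + Real.log (YY v)) ≤ 27 * v ∧ Real.log (3 + Real.log (8 * d)) ≤ 28 * v := by
  have h1 : (2 : ℝ) ≤ v := by exact_mod_cast hv
  have h2 : Real.log v ≤ v := (Real.log_le_sub_one_of_pos (by linarith)).trans (by linarith)
  have h3 : (2 : ℝ) ^ 26 ≤ (v : ℝ) ^ 26 := by gcongr
  have h4 := Real.log_natCast_nonneg (YY v)
  have h5 : (1 : ℝ) ≤ d := by exact_mod_cast h0
  have h6 := Real.log_nonneg (show (1 : ℝ) ≤ 8 * d by linarith)
  have h7 : Real.log (8 * d) ≤ 3 + (v : ℝ) ^ 27 := by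
    refine (Real.log_le_log (by linarith) (show (8 * d : ℝ) ≤ 2 ^ (3 + v ^ 27) by
      rw [pow_add]
      have : (d : ℝ) ≤ 2 ^ v ^ 27 := by exact_mod_cast hd
      linarith)).trans ?_
    rw [Real.log_pow]
    push_cast
    exact mul_le_of_le_one_right (by positivity) An.log_two_le
  have h8 : 2 * (v : ℝ) ^ 26 ≤ (v : ℝ) ^ 27 := by rw [pow_succ' _ 26]; gcongr
  have h9 : 2 * (v : ℝ) ^ 27 ≤ (v : ℝ) ^ 28 := by rw [pow_succ' _ 27]; gcongr
  constructor
  · refine (Real.log_le_log (by linarith)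
      (show _ ≤ (v : ℝ) ^ 27 by linarith [bad_logY v])).trans ?_
    rw [Real.log_pow]
    push_cast
    linarith
  · refine (Real.log_le_log (by linarith) (show _ ≤ (v : ℝ) ^ 28 by linarith)).trans ?_
    rw [Real.log_pow]
    push_cast
    linarith

theorem bad_few : ∃ C : ℝ, 0 < C ∧ ∀ (v Z k : ℕ) (P : ℕ → Prop) [DecidablePred P], 30 ≤ v →
    2 ≤ Z → k ≤ v ^ 9 → (v : ℝ) ^ 12 / 108 - 200 * v ≤
      ∑ p ∈ (PP Z).primeFactors with P p, xs (Real.log Z) p →
    (#{n ∈ SO Z | #{p ∈ n.primeFactors | P p} < k} : ℝ) ≤ C * Z / 2 ^ v := by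
  obtain ⟨C, hC, h⟩ := few_primes
  refine ⟨C, hC, fun v Z k P _ hv hZ hk hS => (h Z k P hZ).trans ?_⟩
  generalize ∑ p ∈ (PP Z).primeFactors with P p, xs (Real.log Z) p = S at hS
  have h1 : (30 : ℝ) ≤ v := by exact_mod_cast hv
  have h2 : (k : ℝ) ≤ (v : ℝ) ^ 9 := by exact_mod_cast hk
  have h3 : (v : ℝ) ≤ (v : ℝ) ^ 9 := le_self_pow₀ (by linarith) (by norm_num)
  have h4 : 30 ^ 3 * (v : ℝ) ^ 9 ≤ (v : ℝ) ^ 12 := by
    rw [show (v : ℝ) ^ 12 = (v : ℝ) ^ 3 * (v : ℝ) ^ 9 by ring]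
    gcongr
  have h5 : (2 : ℝ) ^ (k + v) ≤ Real.exp (1 / 4 * S) := by
    refine (pow_le_pow_left₀ zero_le_two (show (2 : ℝ) ≤ Real.exp 1 by
      linarith [Real.add_one_le_exp 1]) _).trans ?_
    rw [← Real.exp_nat_mul]
    push_cast
    exact Real.exp_le_exp.2 (by linarith)
  rw [neg_mul, Real.exp_neg, mul_assoc, ← div_eq_mul_inv, div_eq_mul_one_div (C * Z)]
  refine mul_le_mul_of_nonneg_left ?_ (by positivity)
  rw [div_le_div_iff₀ (Real.exp_pos _) (by positivity), one_mul, ← pow_add]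
  exact h5

open Classical in
theorem few_bad {ε : ℝ} (hε : 0 < ε) : ∃ v0 : ℕ, ∀ v, v0 ≤ v → ∀ X, Win v X →
    (#{m ∈ SO X | m % 8 = 5 ∧ ¬ TypN v m} : ℝ) ≤ ε * X := by
  obtain ⟨C, hC, few⟩ := bad_few
  obtain ⟨C1, wl⟩ := wit_lower
  obtain ⟨C5, c5⟩ := class_lower (a := 5) (by decide) (by norm_num)
  obtain ⟨C3, c3⟩ := class_lower (a := 3) (by decide) (by norm_num)
  set K : ℝ := 8 * Real.exp 6 with hK
  have K0 : 0 < K := by positivity
  have t1 := (tendsto_pow_const_div_const_pow_of_one_lt 78 (r := 2) one_lt_two).eventually_le_const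
    (show 0 < ε / (1 + K + C * K + 2 * C) by positivity)
  have t2 := (tendsto_pow_const_div_const_pow_of_one_lt 27 (r := 2) one_lt_two).eventually_le_const
    one_pos
  obtain ⟨v0, hv0⟩ := eventually_atTop.1 ((t1.and t2).and ((eventually_ge_atTop 30).and
    (tendsto_natCast_atTop_atTop (R := ℝ).eventually_ge_atTop (max C1 (max C5 C3)))))
  refine ⟨v0, fun v hv X hw => ?_⟩
  obtain ⟨⟨a1, a2⟩, a3, a4⟩ := hv0 v hv
  simp only [max_le_iff] at a4
  have a5 : v ^ 27 ≤ 2 ^ v := by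
    rw [div_le_one (by positivity)] at a2
    exact_mod_cast a2
  have a6 : (30 : ℝ) ≤ v := by exact_mod_cast a3
  have hY := bad_Y (v := v) (by omega)
  have hs := bad_sum (v := v) (by omega)
  have X0 : (0 : ℝ) ≤ X := Nat.cast_nonneg X
  have b1 := bad_markov X (v ^ 12) (fun _ => True) (Icc 1 X)
    fun m hm d hd => by
      obtain ⟨⟨m1, m2⟩, m3, -⟩ := An.mem_SO.1 hm
      rw [filter_true, Nat.prod_primeFactors_of_squarefree m3] at hd
      exact mem_Icc.2 ⟨Nat.pos_of_mem_divisors hd, (Nat.divisor_le hd).trans m2⟩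
  replace b1 := b1.trans (show (X : ℝ) * (∑ d ∈ Icc 1 X, 1 / (d : ℝ)) / 2 ^ v ^ 12 ≤ X / 2 ^ v by
    rw [div_le_div_iff₀ (by positivity) (by positivity), mul_assoc]
    exact mul_le_mul_of_nonneg_left ((mul_le_mul_of_nonneg_right (sum_inv_le X)
      (by positivity)).trans (bad_log (by omega) hw)) X0)
  have b2 := bad_markov X v (fun p => p ≤ YY v) (PP (YY v)).divisors fun m hm =>
    Nat.divisors_subset_of_dvd (PP_sq _).ne_zero (prod_dvd_prod_of_subset _ _ _ fun p hp => by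
      obtain ⟨p1, p2⟩ := mem_filter.1 hp
      have p3 := Nat.prime_of_mem_primeFactors p1
      exact mem_filter.2 ⟨mem_Icc.2 ⟨p3.pos, p2⟩, p3,
        (An.mem_SO.1 hm).2.2.of_dvd_nat (Nat.dvd_of_mem_primeFactors p1)⟩)
  replace b2 := b2.trans (show _ ≤ X * (K * (v : ℝ) ^ 78) / 2 ^ v by gcongr)
  obtain ⟨l1, l2⟩ := bad_loglog (d := 1) (by omega) a5 hw one_pos Nat.one_le_two_pow
  rw [Nat.div_one] at l1 l2
  have l3 := (bad_logs (v := v) (d := 1) (by omega) one_pos Nat.one_le_two_pow).1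
  have v0 : (0 : ℝ) ≤ (v : ℝ) ^ 12 := by positivity
  have b4 := few v X (v ^ 9) _ a3 l1 le_rfl (le_trans (by linarith) (c5 X _ l1 hY))
  have b5 := few v X 1 _ a3 l1 (Nat.one_le_pow _ _ (by omega))
    (le_trans (by linarith) (c3 X _ l1 hY))
  have b3 : ∀ d ∈ badD v, (#{m ∈ SO X | d ∣ m ∧
      #{p ∈ m.primeFactors | YY v < p ∧ p % 8 = 1 ∧ J(p | d) = -1} < v ^ 9} : ℝ) ≤
      C * X / 2 ^ v * (1 / (d : ℝ)) := by
    intro d hd
    obtain ⟨d1, d2, d3⟩ := mem_filter.1 hd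
    have d0 := Nat.pos_of_mem_divisors d1
    obtain ⟨l4, l5⟩ := bad_loglog (by omega) a5 hw d0 d3
    have l6 := (bad_logs (v := v) (by omega) d0 d3).2
    have := few v (X / d) (v ^ 9) _ a3 l4 le_rfl (le_trans (by linarith)
      (wl (X / d) _ d l4 hY (PP_div d1).1 (PP_div d1).2 d2 fun p hp => by
        have := Nat.primeFactors_mono (Nat.dvd_of_mem_divisors d1) (PP_sq _).ne_zero hp
        rw [PP_pf] at this
        exact (mem_Icc.1 (mem_filter.1 this).1).2))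
    refine le_trans (Nat.cast_le.2 (card_le_card_of_injOn (· / d) (fun m hm => ?_)
      fun m hm m' hm' e => ?_)) (this.trans ?_)
    · obtain ⟨m1, m2, m3⟩ := mem_filter.1 (mem_coe.1 hm)
      obtain ⟨⟨m4, m5⟩, m6, m7⟩ := An.mem_SO.1 m1
      have dv := Nat.div_dvd_of_dvd m2
      exact mem_coe.2 (mem_filter.2 ⟨An.mem_SO.2 ⟨⟨Nat.div_pos (Nat.le_of_dvd m4 m2) d0,
        Nat.div_le_div_right m5⟩, m6.squarefree_of_dvd dv, m7.of_dvd_nat dv⟩,
        (card_le_card (filter_subset_filter _ (Nat.primeFactors_mono dv m6.ne_zero))).trans_lt m3⟩)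
    · exact (Nat.div_left_inj (mem_filter.1 (mem_coe.1 hm)).2.1
        (mem_filter.1 (mem_coe.1 hm')).2.1).1 e
    · calc C * ((X / d : ℕ) : ℝ) / 2 ^ v ≤ C * (X / d) / 2 ^ v := by
            gcongr
            exact Nat.cast_div_le
        _ = _ := by ring
  have b6 := (Nat.cast_le (α := ℝ).2 (card_biUnion_le (s := badD v) (t := fun d => {m ∈ SO X |
    d ∣ m ∧ #{p ∈ m.primeFactors | YY v < p ∧ p % 8 = 1 ∧ J(p | d) = -1} < v ^ 9}))).trans
    (show _ ≤ C * X / 2 ^ v * (K * (v : ℝ) ^ 78) by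
      rw [Nat.cast_sum]
      refine (sum_le_sum b3).trans ?_
      rw [← mul_sum]
      exact mul_le_mul_of_nonneg_left ((sum_le_sum_of_subset_of_nonneg (filter_subset _ _)
        fun _ _ _ => by positivity).trans hs) (by positivity))
  have un : ∀ S1 S2 S3 S4 S5 T : Finset ℕ,
      (∀ m ∈ T, m ∉ S1 → m ∉ S2 → m ∉ S3 → m ∉ S4 → m ∉ S5 → False) →
      (#T : ℝ) ≤ #S1 + #S2 + #S3 + #S4 + #S5 := fun S1 S2 S3 S4 S5 T h => by
    have h1 := card_le_card (show T ⊆ S1 ∪ S2 ∪ S3 ∪ S4 ∪ S5 from fun m hm => by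
      have := h m hm
      simp only [mem_union]
      tauto)
    have h2 := card_union_le (S1 ∪ S2 ∪ S3 ∪ S4) S5
    have h3 := card_union_le (S1 ∪ S2 ∪ S3) S4
    have h4 := card_union_le (S1 ∪ S2) S3
    have h5 := card_union_le S1 S2
    exact_mod_cast (by omega : #T ≤ #S1 + #S2 + #S3 + #S4 + #S5)
  refine (un _ _ _ _ _ _ fun m hm n1 n2 n3 n4 n5 => ?_).trans
    ((add_le_add (add_le_add (add_le_add (add_le_add b1 b2) b6) b4) b5).trans ?_)
  · obtain ⟨m1, m2, m3⟩ := mem_filter.1 hm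
    obtain ⟨-, m4, m5⟩ := An.mem_SO.1 m1
    simp only [mem_filter, m1, true_and, not_lt, mem_biUnion, not_exists, not_and,
      filter_true] at n1 n2 n3 n4 n5
    exact m3 (bad_typ m4 m5 m2 n1 n2 n3 n4 n5)
  · have e1 : (1 : ℝ) ≤ (v : ℝ) ^ 78 := one_le_pow₀ (by linarith)
    rw [le_div_iff₀ (by positivity)] at a1
    calc _ ≤ X * (v : ℝ) ^ 78 / 2 ^ v + X * (K * (v : ℝ) ^ 78) / 2 ^ v +
          C * X / 2 ^ v * (K * (v : ℝ) ^ 78) + C * X * (v : ℝ) ^ 78 / 2 ^ v +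
          C * X * (v : ℝ) ^ 78 / 2 ^ v := by
          have e2 : (X : ℝ) / 2 ^ v ≤ X * (v : ℝ) ^ 78 / 2 ^ v :=
            div_le_div_of_nonneg_right (le_mul_of_one_le_right X0 e1) (by positivity)
          have e3 : C * X / 2 ^ v ≤ C * X * (v : ℝ) ^ 78 / 2 ^ v :=
            div_le_div_of_nonneg_right (le_mul_of_one_le_right (by positivity) e1) (by positivity)
          linarith
      _ = (v : ℝ) ^ 78 / 2 ^ v * (1 + K + C * K + 2 * C) * X := by ring
      _ ≤ _ := mul_le_mul_of_nonneg_right a1 X0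

end Pool.Agent.Lib.MP_f8d36e_nt
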