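import Pool.Agent.Lib.MP_f8d36e_nt.CMNe

/-! Job CM4: the character of an open subgroup. -/

set_option autoImplicit false

open Pool.Agent.Lib.MP_696deb_nt.Gal

namespace Pool.Agent.Lib.MP_f8d36e_nt

open PeriodPair

theorem cmAll_open (x : Qbar) : IsOpen (MulAction.stabilizer Gam x : Set Gam) :=
  stabilizer_isOpen_of_isIntegral x

theorem cmAll_orbit (x : Qbar) : (Set.range fun g : Gam => g x).Finite := by
  have := Subgroup.quotient_finite_of_isOpen _ (cmAll_open x)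
  exact Set.finite_coe_iff.1
    (Finite.of_equiv _ (MulAction.orbitEquivQuotientStabilizer Gam x).symm)

theorem cmAll_sub {s : Set Qbar} (hs : s.Finite) : ∃ U : Subgroup Gam, U.Normal ∧
    IsOpen (U : Set Gam) ∧ ∀ g ∈ U, ∀ x ∈ s, g x = x := by
  let V : Subgroup Gam := ⨅ x ∈ s, MulAction.stabilizer Gam x
  have hV : IsOpen (V : Set Gam) := by
    have : (V : Set Gam) = ⋂ x ∈ s, (MulAction.stabilizer Gam x : Set Gam) := by
      simp only [V, Subgroup.coe_iInf]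
    rw [this]
    exact hs.isOpen_biInter fun x _ => cmAll_open x
  have := Subgroup.quotient_finite_of_isOpen V hV
  have : V.FiniteIndex := V.finiteIndex_of_finite_quotient
  refine ⟨V.normalCore, inferInstance, Subgroup.isOpen_of_isClosed_of_finiteIndex _
    (V.normalCore_isClosed (V.isClosed_of_isOpen hV)), fun g hg x hx => ?_⟩
  exact Subgroup.mem_iInf.1 (Subgroup.mem_iInf.1 (V.normalCore_le hg) x) hx

theorem cmAll_norm {a : ℤ_[2]} {N : ℕ} (h : (2 : ℤ_[2]) ^ N ∣ a) : ‖a‖ ≤ (1 / 2 : ℝ) ^ N := by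
  have := (PadicInt.norm_le_pow_iff_mem_span_pow a N).2 (Ideal.mem_span_singleton.2 h)
  simpa using this

theorem cmAll_zero {a : ℤ_[2]} (h : ∀ N : ℕ, (2 : ℤ_[2]) ^ N ∣ a) : a = 0 := by
  by_contra h0
  obtain ⟨N, hN⟩ := exists_pow_lt_of_lt_one (norm_pos_iff.2 h0) (by norm_num : (1 / 2 : ℝ) < 1)
  exact absurd (cmAll_norm (h N)) (not_le.2 hN)

theorem cmAll_cont {U : Set Gam} {X : Gam → ℤ_[2]} (p p' : ℕ → Qbar)
    (h : ∀ N, ∀ g ∈ U, ∀ g' ∈ U, g (p N) = g' (p N) → g (p' N) = g' (p' N) →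
      (2 : ℤ_[2]) ^ N ∣ X g - X g') : ContinuousOn X U := by
  intro g0 hg0
  refine Metric.tendsto_nhds.2 fun ε hε => ?_
  obtain ⟨N, hN⟩ := exists_pow_lt_of_lt_one hε (by norm_num : (1 / 2 : ℝ) < 1)
  have key : ∀ x : Qbar, ∀ᶠ g : Gam in nhds g0, g x = g0 x := fun x => by
    have h1 := ((cmAll_open x).preimage (continuous_const_mul g0⁻¹)).mem_nhds
      (x := g0) (by simp)
    filter_upwards [h1] with g hg
    have h2 : g0⁻¹ (g x) = x := hg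
    simpa using congrArg g0 h2
  filter_upwards [self_mem_nhdsWithin, nhdsWithin_le_nhds (key (p N)),
    nhdsWithin_le_nhds (key (p' N))] with g hg e1 e2
  rw [dist_eq_norm]
  exact (cmAll_norm (h N g hg g0 hg0 e1 e2)).trans_lt hN

theorem cmAll_inv {j : Qbar →+* ℂ} {g : Gam} {σ : ℂ ≃+* ℂ} (h : Ext j g σ) (x : Qbar) :
    σ.symm (j x) = j (g⁻¹ x) := by
  rw [RingEquiv.symm_apply_eq, h]
  simp

theorem exists_cmAct {m : ℕ} (hm : ¬ IsSquare m) {θ : Qbar} (hθ : θ ^ 2 = -(m : Qbar)) :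
    Nonempty (CMAct m θ) := by
  let j : Qbar →+* ℂ := (IsAlgClosed.lift : Qbar →ₐ[ℚ] ℂ).toRingHom
  have hδ : j θ ^ 2 = -(m : ℂ) := by rw [← map_pow, hθ, map_neg, map_natCast]
  obtain ⟨c, L, h, hs⟩ := exists_cmLat hm hδ
  obtain ⟨a2, e2⟩ := exists_preimage j h.alg2
  obtain ⟨a3, e3⟩ := exists_preimage j h.alg3
  choose p hp using fun N => exists_preimage j (alg_torsion h N).1
  choose p' hp' using fun N => exists_preimage j (alg_torsion h N).2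
  let Q : Set (Qbar × Qbar) := Set.range fun g : Gam => (g a2, g a3)
  have hQ : Q.Finite := ((cmAll_orbit a2).prod (cmAll_orbit a3)).subset (by
    rintro _ ⟨g, rfl⟩
    exact ⟨⟨g, rfl⟩, ⟨g, rfl⟩⟩)
  have h1 : ∀ q : Q, ∃ (L' : PeriodPair) (β : Qbar), L'.g₂ = j q.1.1 ∧ L'.g₃ = j q.1.2 ∧
      j β ≠ 0 ∧ (∀ z ∈ L.lattice, j β * z ∈ L'.lattice) ∧
      ∀ z ∈ L'.lattice, j θ * z ∈ L'.lattice := by
    rintro ⟨_, g, rfl⟩
    obtain ⟨σ, hσ⟩ := exists_ext j g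
    obtain ⟨L', hL⟩ := exists_cj σ L
    obtain ⟨α, b1, b2, b3, b4⟩ := exists_isog h hL.symm
    obtain ⟨β, rfl⟩ := exists_preimage j b2
    exact ⟨L', β, by rw [hL.h2, ← e2, hσ], by rw [hL.h3, ← e3, hσ], b1, b3, b4⟩
  choose L' β l2 l3 b1 b2 b3 using h1
  have := hQ.to_subtype
  obtain ⟨U, hn, ho, hU⟩ := cmAll_sub (s := {θ, a2, a3, p 1, p' 1} ∪ Set.range β)
    ((Set.toFinite _).union (Set.finite_range β))
  have uθ : ∀ g ∈ U, g θ = θ := fun g hg => hU g hg _ (by simp)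
  have u2 : ∀ g ∈ U, g a2 = a2 := fun g hg => hU g hg _ (by simp)
  have u3 : ∀ g ∈ U, g a3 = a3 := fun g hg => hU g hg _ (by simp)
  have ex : ∀ g ∈ U, ∀ σ, Ext j g σ → ∃ X Y, Acts (j θ) σ L X Y := fun g hg σ hσ =>
    exists_acts h ⟨by rw [← e2, hσ, u2 g hg], by rw [← e3, hσ, u3 g hg]⟩ (by rw [hσ, uθ g hg])
  have dv : ∀ {g g' : Gam} {σ σ' X Y X' Y'}, Ext j g σ → Ext j g' σ' → Acts (j θ) σ L X Y →
      Acts (j θ) σ' L X' Y' → ∀ N, g (p N) = g' (p N) → g (p' N) = g' (p' N) →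
      (2 : ℤ_[2]) ^ N ∣ X - X' ∧ (2 : ℤ_[2]) ^ N ∣ Y - Y' :=
    fun hσ hσ' a a' N c1 c2 => Acts.dvd h a a' N (by rw [← hp, hσ, hσ', c1])
      (by rw [← hp', hσ, hσ', c2])
  have h2 : ∀ g : Gam, ∃ X Y, g ∈ U → ∀ σ, Ext j g σ → Acts (j θ) σ L X Y := by
    intro g
    by_cases hg : g ∈ U
    · obtain ⟨σ, hσ⟩ := exists_ext j g
      obtain ⟨X, Y, a⟩ := ex g hg σ hσ
      refine ⟨X, Y, fun _ σ' hσ' => ?_⟩
      obtain ⟨X', Y', a'⟩ := ex g hg σ' hσ'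
      rwa [sub_eq_zero.1 (cmAll_zero fun N => (dv hσ hσ' a a' N rfl rfl).1),
        sub_eq_zero.1 (cmAll_zero fun N => (dv hσ hσ' a a' N rfl rfl).2)]
    · exact ⟨0, 0, fun hg' => absurd hg' hg⟩
  choose X Y hA using h2
  choose σ hσ using exists_ext j
  have hA' : ∀ g ∈ U, Acts (j θ) (σ g) L (X g) (Y g) := fun g hg => hA g hg _ (hσ g)
  have odd : ∀ g ∈ U, (2 : ℤ_[2]) ^ 1 ∣ X g - 1 ∧ (2 : ℤ_[2]) ^ 1 ∣ Y g - 0 := fun g hg =>
    dv (g' := 1) (hσ g) (fun _ => rfl) (hA' g hg) (acts_one h) 1 (hU g hg _ (by simp))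
      (hU g hg _ (by simp))
  have mul : ∀ g ∈ U, ∀ g' ∈ U, X (g * g') = X g * X g' - m * Y g * Y g' ∧
      Y (g * g') = X g * Y g' + Y g * X g' := fun g hg g' hg' =>
    Acts.unique h (hA _ (U.mul_mem hg hg') _ fun x => by
      rw [RingEquiv.trans_apply, hσ, hσ]; rfl) (Acts.mul h (hA' g hg) (hA' g' hg'))
  have conj : ∀ (g : Gam), ∀ x ∈ U, ∀ ε : ℤ, g θ = ε * θ →
      X (g * x * g⁻¹) = X x ∧ Y (g * x * g⁻¹) = ε * Y x := by
    intro g x hx ε hε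
    let q : Q := ⟨(g⁻¹ a2, g⁻¹ a3), g⁻¹, rfl⟩
    have hx' := hn.conj_mem x hx g
    have fx : ∀ a, (g * x * g⁻¹) a = a → x (g⁻¹ a) = g⁻¹ a := fun a ha => by
      conv_rhs => rw [← ha]
      simp
    have c1 : Cj (σ g) (L' q) L :=
      ⟨by rw [l2, hσ, ← e2]; simp [q], by rw [l3, hσ, ← e3]; simp [q]⟩
    have c2 : Cj (σ x) (L' q) (L' q) :=
      ⟨by rw [l2, hσ, fx a2 (u2 _ hx')], by rw [l3, hσ, fx a3 (u3 _ hx')]⟩
    have a1 := (hA' x hx).isog c2 (b1 q) (by rw [hσ, hU x hx _ (Or.inr ⟨q, rfl⟩)]) (b2 q) (b3 q)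
    have a2 := Acts.conj h a1 c1 (b3 q) (ε := ε) (by rw [hσ, hε, map_mul, map_intCast])
    refine Acts.unique h (hA _ hx' _ fun y => ?_) a2
    rw [RingEquiv.trans_apply, RingEquiv.trans_apply, cmAll_inv (hσ g), hσ, hσ]
    rfl
  refine ⟨⟨U, hn, ho, uθ, X, Y,
    cmAll_cont p p' fun N g hg g' hg' c1 c2 => (dv (hσ g) (hσ g') (hA' g hg) (hA' g' hg') N c1 c2).1,
    cmAll_cont p p' fun N g hg g' hg' c1 c2 => (dv (hσ g) (hσ g') (hA' g hg) (hA' g' hg') N c1 c2).2,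
    fun g hg => by simpa using (odd g hg).1, fun g hg => by simpa using (odd g hg).2,
    fun g hg g' hg' => (mul g hg g' hg').1, fun g hg g' hg' => (mul g hg g' hg').2,
    fun g x hx => ?_, fun g x hx e => by simpa using (conj g x hx 1 (by simpa using e)).2,
    fun g x hx e => by simpa using (conj g x hx (-1) (by simpa using e)).2, ?_⟩⟩
  · have : g θ ^ 2 = θ ^ 2 := by rw [← map_pow, hθ, map_neg, map_natCast]
    rcases sq_eq_sq_iff_eq_or_eq_neg.1 this with e | e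
    · exact (conj g x hx 1 (by simpa using e)).1
    · exact (conj g x hx (-1) (by simpa using e)).1
  · by_contra hh
    push Not at hh
    exact not_scalar h hs j U ho fun g hg => ⟨σ g, X g, hσ g, hh g hg ▸ hA' g hg⟩

end Pool.Agent.Lib.MP_f8d36e_nt
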