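import Pool.Agent.Lib.MP_f8d36e_nt.GDefs
import Pool.Agent.Lib.MP_696deb_nt.Transport
import Pool.Agent.Lib.MP_696deb_nt.AutC

/-! Definitions for the curve with complex multiplication. -/

set_option autoImplicit false

open Pool.Agent.Lib.MP_696deb_nt.Gal

namespace Pool.Agent.Lib.MP_f8d36e_nt

/-- The discriminant of a lattice. -/
noncomputable def disc (L : PeriodPair) : ℂ := L.g₂ ^ 3 - 27 * L.g₃ ^ 2

/-- `L` is the lattice `c (Z + Z δ)`, with `δ` a square root of `-m`, and has algebraic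
invariants. -/
structure CMLat (m : ℕ) (δ c : ℂ) (L : PeriodPair) : Prop where
  pos : 0 < m
  sq : δ ^ 2 = -(m : ℂ)
  ne : c ≠ 0
  mem : ∀ z, z ∈ L.lattice ↔ ∃ a b : ℤ, z = c * (a + b * δ)
  alg2 : IsAlgebraic ℚ L.g₂
  alg3 : IsAlgebraic ℚ L.g₃

/-- `σ` acts on the two-power torsion of `L` as multiplication by `X + Y δ`. -/
structure Acts (δ : ℂ) (σ : ℂ ≃+* ℂ) (L : PeriodPair) (X Y : ℤ_[2]) : Prop where
  cj : Cj σ L L
  rel : ∀ (N : ℕ) (z : ℂ), (2 : ℂ) ^ N * z ∈ L.lattice → ∀ x y : ℤ, (2 : ℤ_[2]) ^ N ∣ X - x →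
    (2 : ℤ_[2]) ^ N ∣ Y - y → Rel σ L L z ((x + y * δ) * z)

/-- `σ` extends `g` along the embedding `j`. -/
def Ext (j : Qbar →+* ℂ) (g : Gam) (σ : ℂ ≃+* ℂ) : Prop := ∀ x, σ (j x) = j (g x)

/-- The lattices `c (2 ^ (-N) Z + Z δ)` have integral and very small relative discriminant. -/
def Small (δ c : ℂ) (L : PeriodPair) : Prop :=
  ∃ (M : ℕ → PeriodPair) (C : ℝ), ∀ N : ℕ,
    (∀ z, z ∈ (M N).lattice ↔ ∃ a b : ℤ, z = c * (a / 2 ^ N + b * δ)) ∧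
    IsIntegral ℤ (disc (M N) / disc L) ∧
    ‖disc (M N) / disc L‖ ≤ C * 2 ^ (12 * N) * Real.exp (-2 ^ N)

end Pool.Agent.Lib.MP_f8d36e_nt
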