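import Pool.Agent.Lib.MP_f8d36e_nt.CMLat
import Pool.Agent.Lib.MP_f8d36e_nt.CMActs

/-! Job CM3: no open subgroup acts by scalars. -/

set_option autoImplicit false

open Pool.Agent.Lib.MP_696deb_nt.Gal

namespace Pool.Agent.Lib.MP_f8d36e_nt

theorem cmne_half {m : ℕ} {δ c : ℂ} {L : PeriodPair} (h : CMLat m δ c L) :
    c / 2 ∉ L.lattice := fun hc => by
  obtain ⟨a, b, e⟩ := (h.mem _).mp hc
  have e1 : (1 : ℂ) - 2 * a = 2 * b * δ :=
    mul_left_cancel₀ h.ne (by linear_combination 2 * e)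
  have e2 : ((1 : ℂ) - 2 * a) ^ 2 = -(4 * b ^ 2 * m) := by
    rw [e1, mul_pow, h.sq]; ring
  have e3 : ((1 : ℤ) - 2 * a) ^ 2 = -(4 * b ^ 2 * m) := by exact_mod_cast e2
  have e4 : (1 : ℤ) = 2 * (2 * a - 2 * a ^ 2 - 2 * b ^ 2 * m) := by linear_combination e3
  omega

theorem cmne_odd {m : ℕ} {δ c : ℂ} {L : PeriodPair} (h : CMLat m δ c L) {σ : ℂ ≃+* ℂ}
    {X : ℤ_[2]} (ha : Acts δ σ L X 0) : ¬ (2 : ℤ_[2]) ∣ X := fun hX => by
  have h1 : (2 : ℂ) ^ 1 * (c / 2) ∈ L.lattice := (h.mem _).mpr ⟨1, 0, by push_cast; ring⟩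
  have h2 := ha.rel 1 (c / 2) h1 0 0 (by simpa using hX) (by simp)
  exact cmne_half h (h2.mem_iff.mp (by simp))

theorem cmne_appr (X : ℤ_[2]) (N : ℕ) : ∃ x : ℤ, (2 : ℤ_[2]) ^ N ∣ X - x := by
  refine ⟨(X.appr N : ℕ), ?_⟩
  have := PadicInt.appr_spec N X
  rw [Ideal.mem_span_singleton] at this
  simpa using this

theorem cmne_cj {m : ℕ} {δ c : ℂ} {L M : PeriodPair} (h : CMLat m δ c L) {σ : ℂ ≃+* ℂ}
    {X : ℤ_[2]} (ha : Acts δ σ L X 0) {N : ℕ} (h1 : L.lattice ≤ M.lattice)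
    (h2 : ∀ z ∈ M.lattice, (2 : ℂ) ^ N * z ∈ L.lattice) : Cj σ M M := by
  obtain ⟨M', hM⟩ := exists_cj σ M
  obtain ⟨x, hx⟩ := cmne_appr X (N + 1)
  have hx' : (2 : ℤ_[2]) ^ N ∣ X - x := (pow_dvd_pow _ N.le_succ).trans hx
  have hodd : Odd x := by
    rw [← Int.not_even_iff_odd]
    rintro ⟨k, hk⟩
    apply cmne_odd h ha
    have k1 : (2 : ℤ_[2]) ∣ X - x := (dvd_pow_self _ N.succ_ne_zero).trans hx
    have k2 : (2 : ℤ_[2]) ∣ (x : ℤ_[2]) := ⟨k, by rw [hk]; push_cast; ring⟩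
    simpa using dvd_add k1 k2
  have key : ∀ z, (2 : ℂ) ^ N * z ∈ L.lattice →
      ((x : ℂ) * z ∈ M'.lattice ↔ z ∈ M.lattice) := fun z hz => by
    have := (Rel.of_le ha.cj hM h1 (ha.rel N z hz x 0 hx' (by simp))).mem_iff
    simpa using this
  have e : M.lattice = M'.lattice := by
    refine le_antisymm (fun z hz => ?_) fun z hz => ?_
    · have k1 := (key z (h2 z hz)).mpr hz
      have k2 : (2 : ℂ) ^ N * z ∈ M'.lattice := by
        have := Cj.isog_mem ha.cj hM one_ne_zero (fun w hw => by simpa using h1 hw) (h2 z hz)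
        simpa using this
      have hc : IsCoprime x ((2 : ℤ) ^ N) := by
        refine IsCoprime.pow_right ?_
        obtain ⟨k, rfl⟩ := hodd
        exact ⟨1, -k, by ring⟩
      obtain ⟨u, v, huv⟩ := hc
      have huv' : (u : ℂ) * x + v * 2 ^ N = 1 := by exact_mod_cast huv
      have := add_mem (M'.lattice.smul_mem u k1) (M'.lattice.smul_mem v k2)
      rw [zsmul_eq_mul, zsmul_eq_mul] at this
      have k3 : (u : ℂ) * (x * z) + v * (2 ^ N * z) = z := by linear_combination z * huv'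
      rwa [k3] at this
    · have k1 : (2 : ℂ) ^ N * z ∈ L.lattice := by
        have := Cj.isog_mem hM ha.cj (pow_ne_zero N two_ne_zero) h2 hz
        simpa [map_ofNat] using this
      refine (key z k1).mp ?_
      have := M'.lattice.smul_mem x hz
      rwa [zsmul_eq_mul] at this
  have s := sc_one e
  exact ⟨by rw [← hM.h2, s.g₂]; simp, by rw [← hM.h3, s.g₃]; simp⟩

theorem cmne_disc {σ : ℂ ≃+* ℂ} {L L' : PeriodPair} (h : Cj σ L L') : σ (disc L) = disc L' := by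
  simp [disc, h.h2, h.h3, map_ofNat]

theorem cmne_bound (σ : ℂ ≃+* ℂ) (L : PeriodPair) : ∃ C : ℝ, ∀ (N : ℕ) (M : PeriodPair),
    (∀ z ∈ M.lattice, (2 : ℂ) ^ N * z ∈ L.lattice) →
      ‖σ (disc M / disc L)‖ ≤ C * 2 ^ (12 * N) := by
  obtain ⟨L', hL⟩ := exists_cj σ L
  obtain ⟨C, hC⟩ := disc_bound L'
  refine ⟨C / ‖disc L'‖, fun N M hM => ?_⟩
  obtain ⟨M', hM'⟩ := exists_cj σ M
  have k := hC N M' fun z hz => by
    have := Cj.isog_mem hM' hL (pow_ne_zero N two_ne_zero) hM hz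
    simpa [map_ofNat] using this
  rw [map_div₀, cmne_disc hL, cmne_disc hM', norm_div, div_mul_eq_mul_div]
  exact div_le_div_of_nonneg_right k (norm_nonneg _)

/-- The product of the conjugates of a nonzero algebraic integer has size at least one. -/
theorem cmne_norm (j : Qbar →+* ℂ) (U : Subgroup Gam) [Fintype (Gam ⧸ U)] {ξ : Qbar}
    (h0 : ξ ≠ 0) (hi : IsIntegral ℤ ξ) (hU : ∀ g ∈ U, g ξ = ξ) :
    1 ≤ ∏ q : Gam ⧸ U, ‖j (q.out ξ)‖ := by
  have hout : ∀ g : Gam, (g : Gam ⧸ U).out ξ = g ξ := fun g => by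
    obtain ⟨u, hu⟩ := QuotientGroup.mk_out_eq_mul U g
    rw [hu, AlgEquiv.mul_apply, hU u u.2]
  have hfix : ∀ g : Gam, g (∏ q : Gam ⧸ U, q.out ξ) = ∏ q : Gam ⧸ U, q.out ξ := fun g => by
    rw [map_prod, ← Equiv.prod_comp (MulAction.toPerm g) fun q : Gam ⧸ U => q.out ξ]
    refine Finset.prod_congr rfl fun q _ => ?_
    have : (MulAction.toPerm g q : Gam ⧸ U) = ((g * q.out : Gam) : Gam ⧸ U) := by
      rw [MulAction.toPerm_apply, ← MulAction.Quotient.coe_smul_out, smul_eq_mul]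
    rw [this, hout, AlgEquiv.mul_apply]
  obtain ⟨r, hr⟩ := (InfiniteGalois.mem_range_algebraMap_iff_fixed _).mpr hfix
  have hint : IsIntegral ℤ (∏ q : Gam ⧸ U, q.out ξ) :=
    IsIntegral.prod _ fun q _ => hi.map (q.out.restrictScalars ℤ)
  rw [← hr, isIntegral_algebraMap_iff (algebraMap ℚ Qbar).injective] at hint
  obtain ⟨n, rfl⟩ := IsIntegrallyClosed.isIntegral_iff.mp hint
  have hn : n ≠ 0 := by
    rintro rfl
    rw [map_zero, map_zero, eq_comm, Finset.prod_eq_zero_iff] at hr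
    obtain ⟨q, -, hq⟩ := hr
    exact h0 ((map_eq_zero _).mp hq)
  rw [← norm_prod, ← map_prod, ← hr]
  have : j (algebraMap ℚ Qbar (algebraMap ℤ ℚ n)) = n := by simp
  rw [this, Complex.norm_intCast]
  exact_mod_cast Int.one_le_abs hn

theorem not_scalar {m : ℕ} {δ c : ℂ} {L : PeriodPair} (h : CMLat m δ c L) (hs : Small δ c L)
    (j : Qbar →+* ℂ) (U : Subgroup Gam) (hU : IsOpen (U : Set Gam))
    (ha : ∀ g ∈ U, ∃ σ X, Ext j g σ ∧ Acts δ σ L X 0) : False := by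
  classical
  obtain ⟨M, C, hM⟩ := hs
  have : Finite (Gam ⧸ U) := U.quotient_finite_of_isOpen hU
  let _ : Fintype (Gam ⧸ U) := Fintype.ofFinite _
  have h1 : ∀ N, L.lattice ≤ (M N).lattice := fun N z hz => by
    obtain ⟨a, b, e⟩ := (h.mem _).mp hz
    refine ((hM N).1 z).mpr ⟨a * 2 ^ N, b, ?_⟩
    rw [e]; push_cast; field_simp
  have h2 : ∀ N, ∀ z ∈ (M N).lattice, (2 : ℂ) ^ N * z ∈ L.lattice := fun N z hz => by
    obtain ⟨a, b, e⟩ := ((hM N).1 z).mp hz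
    refine (h.mem _).mpr ⟨a, 2 ^ N * b, ?_⟩
    rw [e]; push_cast; field_simp
  have hx : ∀ N, ∃ ξ, j ξ = disc (M N) / disc L := fun N =>
    exists_preimage j ((hM N).2.1.tower_top (A := ℚ)).isAlgebraic
  choose ξ hξ using hx
  choose σ hσ using exists_ext j
  choose D hD using fun q : Gam ⧸ U => cmne_bound (σ q.out) L
  have hfix : ∀ N, ∀ g ∈ U, g (ξ N) = ξ N := fun N g hg => by
    obtain ⟨s, X, e, a⟩ := ha g hg
    apply j.injective
    rw [← e, hξ, map_div₀, cmne_disc a.cj, cmne_disc (cmne_cj h a (h1 N) (h2 N))]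
  let q0 : Gam ⧸ U := ((1 : Gam) : Gam ⧸ U)
  have hq0 : q0.out ∈ U := by
    obtain ⟨u, hu⟩ := QuotientGroup.mk_out_eq_mul U 1
    rw [hu, one_mul]; exact u.2
  let T := (Finset.univ : Finset (Gam ⧸ U)).erase q0
  have key : ∀ N : ℕ, 1 ≤ (C * ∏ q ∈ T, D q) *
      (((2 : ℝ) ^ N) ^ (12 * (T.card + 1)) * Real.exp (-2 ^ N)) := fun N => by
    have k0 : ξ N ≠ 0 := fun e => by
      have := hξ N
      rw [e, map_zero] at this
      exact div_ne_zero (disc_ne _) (disc_ne _) this.symm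
    have ki : IsIntegral ℤ (ξ N) := by
      have := (hM N).2.1
      rw [← hξ] at this
      exact (isIntegral_algHom_iff j.toIntAlgHom j.injective).mp this
    have k1 := cmne_norm j U k0 ki (hfix N)
    rw [← Finset.mul_prod_erase _ _ (Finset.mem_univ q0), hfix N _ hq0, hξ] at k1
    have k2 : ∏ q ∈ T, ‖j (q.out (ξ N))‖ ≤ ∏ q ∈ T, (D q * 2 ^ (12 * N)) :=
      Finset.prod_le_prod (fun _ _ => norm_nonneg _) fun q _ => by
        rw [← hσ, hξ]; exact hD q N _ (h2 N)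
    have k3 := mul_le_mul (hM N).2.2 k2 (Finset.prod_nonneg fun _ _ => norm_nonneg _)
      ((norm_nonneg _).trans (hM N).2.2)
    refine (k1.trans k3).trans_eq ?_
    rw [Finset.prod_mul_distrib, Finset.prod_const]
    ring
  have lim := ((Real.tendsto_pow_mul_exp_neg_atTop_nhds_zero (12 * (T.card + 1))).comp
    (tendsto_pow_atTop_atTop_of_one_lt (one_lt_two (α := ℝ)))).const_mul (C * ∏ q ∈ T, D q)
  have := ge_of_tendsto' lim key
  norm_num at this

end Pool.Agent.Lib.MP_f8d36e_nt
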