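import Pool.Agent.Lib.MP_f8d36e_nt.Pr

/-! Job E7: simple spectrum. -/

set_option autoImplicit false

open Matrix Finset

namespace Pool.Agent.Lib.MP_f8d36e_nt

variable {ι K : Type} [Fintype ι] [DecidableEq ι] [Field K] [Algebra F2 K]
  {B : Finset ι} {β : ι → F2} {Ψ0 Ψ1 : Matrix ι ι K} {x1 : K} {σ : ℕ}

/-- The symmetric matrix with row and column `i` given by `τ` on `B ∩ J`. -/
def chain_rc (J : Finset ι) {i : ι} (hi : i ∈ B) (τ : ι → F2) : Sym B :=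
  ⟨Matrix.of fun a b => (if a = i ∧ b ∈ B ∧ b ∈ J then τ b else 0) +
    (if b = i ∧ a ∈ B ∧ a ∈ J then τ a else 0), fun _ _ => add_comm _ _, fun a b ha => by
      have : a ≠ i := fun h => ha (h ▸ hi)
      simp [ha, this]⟩

omit [DecidableEq ι] [Algebra F2 K] in
lemma chain_ker {J : Finset ι} {M M' : Matrix ι ι K} (h : ∀ a ∈ J, ∀ b ∈ J, M a b = M' a b) :
    Ker J J M = Ker J J M' := by
  ext y
  refine and_congr_right fun hy => forall₂_congr fun a ha => Eq.congr_left ?_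
  refine sum_congr rfl fun b _ => ?_
  by_cases hb : b ∈ J
  · exact congrArg (· * y b) (h a ha b hb)
  · rw [hy b hb, mul_zero, mul_zero]

lemma chain_ker_rc {J : Finset ι} {i : ι} (hi : i ∈ B) (hJ : i ∉ J) (x : K) (S : Sym B)
    (τ : ι → F2) : Ker J J (pen β Ψ0 Ψ1 x (S + chain_rc J hi τ : Sym B)) =
      Ker J J (pen β Ψ0 Ψ1 x S) :=
  chain_ker fun a ha b hb => by
    have h1 : a ≠ i := fun h => hJ (h ▸ ha)
    have h2 : b ≠ i := fun h => hJ (h ▸ hb)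
    simp [pen, mat, chain_rc, h1, h2]

lemma chain_one {J : Finset ι} {i : ι} (hi : i ∈ B) (hJ : i ∉ J) {x : K} (hx : x ≠ 0) (S : Sym B)
    {y : ι → K} (hy : ∀ j, j ∉ J → y j = 0) {b : F2} (hb : 2 ^ σ < Nat.card (Vs B β b y)) :
    pr (fun τ => (pen β Ψ0 Ψ1 x (S + chain_rc J hi τ : Sym B) *ᵥ y) i = 0) ≤ 1 / 2 ^ σ := by
  let φ : (ι → F2) →+ K := AddMonoidHom.mk' (fun τ => ∑ j, cf 1 x (β i) (β j) *
    algebraMap F2 K (if j ∈ B ∧ j ∈ J then τ j else 0) * y j) fun τ τ' => by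
      rw [← sum_add_distrib]
      refine sum_congr rfl fun j _ => ?_
      split_ifs <;> simp [mul_add, add_mul]
  have h1 : ∀ τ, (pen β Ψ0 Ψ1 x (S + chain_rc J hi τ : Sym B) *ᵥ y) i =
      (pen β Ψ0 Ψ1 x S *ᵥ y) i + φ τ := fun τ => by
    simp only [φ, AddMonoidHom.mk'_apply, mulVec, dotProduct, ← sum_add_distrib]
    refine sum_congr rfl fun j _ => ?_
    simp [pen, mat, chain_rc, hJ, mul_add, add_mul, add_assoc]
  have h2 : cf 1 x (β i) b ≠ 0 := by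
    rw [cf]
    split_ifs
    exacts [one_ne_zero, hx]
  have h3 : ∀ a ∈ Vs B β b y, cf 1 x (β i) b * a ∈ φ.range := fun a ha => by
    obtain ⟨ε, hε, rfl⟩ := mem_Vs.1 ha
    refine ⟨ε, ?_⟩
    rw [mul_sum]
    refine sum_congr rfl fun j _ => ?_
    by_cases h0 : ε j = 0
    · simp [h0]
    · by_cases hj : j ∈ J
      · rw [if_pos ⟨(hε j h0).1, hj⟩, (hε j h0).2, mul_assoc]
      · simp [hy j hj]
  have : Finite φ.range := Finite.of_surjective _ φ.rangeRestrict_surjective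
  have h4 : Nat.card (Vs B β b y) ≤ Nat.card φ.range :=
    Nat.card_le_card_of_injective (fun a => (⟨_, h3 a.1 a.2⟩ : φ.range))
      fun a a' h => Subtype.ext (mul_left_cancel₀ h2 (congrArg Subtype.val h))
  refine (pr_mono fun τ h => ?_).trans ((pr_hom_le φ (-(pen β Ψ0 Ψ1 x S *ᵥ y) i)).trans ?_)
  · exact eq_neg_of_add_eq_zero_right (h1 τ ▸ h)
  · exact one_div_le_one_div_of_le (by positivity) (by exact_mod_cast hb.le.trans h4)

theorem step {J : Finset ι} {i : ι} (hi : i ∈ B) (hJ : i ∉ J) :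
    pr (fun S : Sym B => Good σ x1 B J β Ψ0 Ψ1 S ∧ ∃ x, x ≠ 0 ∧
      Ker J J (pen β Ψ0 Ψ1 x S) ≠ ⊥ ∧
      ∀ y ∈ Ker J J (pen β Ψ0 Ψ1 x S), (pen β Ψ0 Ψ1 x S *ᵥ y) i = 0) ≤ #J / 2 ^ σ := by
  refine (pr_avg_le (F := fun _ => False) (fun τ S => S + chain_rc J hi τ)
    (fun τ => (Equiv.addRight _).bijective) (ε := #J / 2 ^ σ) (by positivity)
    fun S _ => ?_).trans (by rw [pr_eq_zero fun _ => not_false, zero_add])
  simp only [Good, chain_ker_rc hi hJ]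
  by_cases hG : Good σ x1 B J β Ψ0 Ψ1 S
  swap
  · exact (pr_eq_zero fun τ h => hG h.1).trans_le (by positivity)
  obtain ⟨X, hX, hX'⟩ := card_sing (pen_eq β Ψ0 Ψ1 x1 S ▸ hG.1)
  refine (pr_mono fun τ ⟨_, x, h⟩ => ⟨x, hX' x (pen_eq β Ψ0 Ψ1 x S ▸ h.2.1), h⟩).trans
    ((pr_exists_le_card X _ (ε := 1 / 2 ^ σ) fun x _ => ?_).trans ?_)
  · by_cases h : x ≠ 0 ∧ Ker J J (pen β Ψ0 Ψ1 x S) ≠ ⊥
    · obtain ⟨y, hy, hy0⟩ := (Submodule.ne_bot_iff _).1 h.2
      obtain ⟨b, hb⟩ : ∃ b, 2 ^ σ < Nat.card (Vs B β b y) :=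
        (hG.2 x h.1 y hy hy0).elim (fun h => ⟨0, h⟩) fun h => ⟨1, h⟩
      exact (pr_mono fun τ h => h.2.2 y hy).trans (chain_one hi hJ h.1 S hy.1 hb)
    · exact (pr_eq_zero fun τ h' => h ⟨h'.1, h'.2.1⟩).trans_le (by positivity)
  · rw [mul_one_div]
    gcongr

omit [Algebra F2 K] in
lemma chain_le_one {J : Finset ι} {i : ι} {M : Matrix ι ι K} (h : Ker J J M = ⊥) :
    Module.finrank K (Ker (insert i J) (insert i J) M) ≤ 1 := by
  refine (LinearMap.finrank_le_finrank_of_injective (f := LinearMap.proj i ∘ₗ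
    (Ker (insert i J) (insert i J) M).subtype) (LinearMap.ker_eq_bot.1
      (LinearMap.ker_eq_bot'.2 fun y hy => Subtype.ext ?_))).trans (Module.finrank_self K).le
  refine (Submodule.mem_bot K).1 (h ▸ ⟨fun j hj => ?_, fun j hj => y.2.2 j (mem_insert_of_mem hj)⟩)
  by_cases e : j = i
  · exact e ▸ hy
  · exact y.2.1 j (by simp [e, hj])

omit [Algebra F2 K] in
lemma chain_lt {J : Finset ι} {i : ι} {M : Matrix ι ι K} {y0 l : ι → K} (h0 : y0 ∈ Ker J J M)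
    (h0' : (M *ᵥ y0) i ≠ 0) (hl : l ∈ Ker J J Mᵀ) (hl' : (Mᵀ *ᵥ l) i ≠ 0) :
    Module.finrank K (Ker (insert i J) (insert i J) M) < Module.finrank K (Ker J J M) := by
  refine Submodule.finrank_lt_finrank_of_lt (lt_of_le_of_ne (fun y hy => ⟨fun j hj => ?_,
    fun j hj => hy.2 j (mem_insert_of_mem hj)⟩) fun h => h0' ((h.ge h0).2 i (mem_insert_self ..)))
  by_cases e : j = i
  swap
  · exact hy.1 j (by simp [e, hj])
  subst e
  have h1 : l ⬝ᵥ M *ᵥ y = 0 := sum_eq_zero fun a _ => by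
    by_cases ha : a ∈ J
    · rw [hy.2 a (mem_insert_of_mem ha), mul_zero]
    · rw [hl.1 a ha, zero_mul]
  rw [dotProduct_mulVec, ← mulVec_transpose, dotProduct, sum_eq_single j (fun a _ e => ?_)
    (by simp)] at h1
  · exact (mul_eq_zero.1 h1).resolve_left hl'
  · by_cases ha : a ∈ J
    · rw [hl.2 a ha, zero_mul]
    · rw [hy.1 a (by simp [e, ha]), mul_zero]

omit [DecidableEq ι] [Algebra F2 K] in
lemma chain_le_card (J : Finset ι) (M : Matrix ι ι K) : Module.finrank K (Ker J J M) ≤ #J := by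
  refine (LinearMap.finrank_le_finrank_of_injective (f := LinearMap.funLeft K K
    (Subtype.val : J → ι) ∘ₗ (Ker J J M).subtype) (LinearMap.ker_eq_bot.1
      (LinearMap.ker_eq_bot'.2 fun y hy => Subtype.ext (funext fun j => ?_)))).trans (by simp)
  by_cases hj : j ∈ J
  · exact congrFun hy ⟨j, hj⟩
  · exact y.2.1 j hj

omit [DecidableEq ι] in
lemma chain_tr (x : K) (S : Sym B) : pen β Ψ0ᵀ Ψ1ᵀ x S = (pen β Ψ0 Ψ1 x S)ᵀ := by
  rw [pen, pen, mat_transpose, transpose_add, transpose_smul]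

theorem chain {J1 J0 : Finset ι} (h : J1 ⊆ J0) (hB : J0 \ J1 ⊆ B) (hc : 2 * #J1 ≤ #J0 + 1)
    {ε : ℝ} (hG : ∀ J, J1 ⊆ J → J ⊆ J0 →
      pr (fun S : Sym B => ¬ Good σ x1 B J β Ψ0 Ψ1 S) ≤ ε ∧
      pr (fun S : Sym B => ¬ Good σ x1 B J β Ψ0ᵀ Ψ1ᵀ S) ≤ ε) :
    pr (fun S : Sym B => Mult J0 β Ψ0 Ψ1 S) ≤
      Fintype.card ι * (2 * ε + 2 * Fintype.card ι / 2 ^ σ) := by
  have key : ∀ (n : ℕ) (J : Finset ι), J1 ⊆ J → J ⊆ J0 → #J = #J1 + n →
      pr (fun S : Sym B => ∃ x, x ≠ 0 ∧ max (#J1 - n) 1 <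
        Module.finrank K (Ker J J (pen β Ψ0 Ψ1 x S))) ≤
      n * (2 * ε + 2 * Fintype.card ι / 2 ^ σ) := by
    intro n
    induction n with
    | zero =>
      intro J _ _ h3
      refine (pr_eq_zero ?_).trans_le (by simp)
      rintro S ⟨x, -, h⟩
      have := chain_le_card J (pen β Ψ0 Ψ1 x S)
      omega
    | succ n ih =>
      intro J' h1 h2 h3
      obtain ⟨i, a1, a2⟩ := exists_mem_notMem_of_card_lt_card (s := J1) (t := J') (by omega)
      obtain ⟨J, hJ, rfl⟩ : ∃ J, i ∉ J ∧ J' = insert i J :=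
        ⟨J'.erase i, notMem_erase _ _, (insert_erase a1).symm⟩
      have b1 : J1 ⊆ J := (subset_insert_iff_of_notMem a2).1 h1
      have b2 : J ⊆ J0 := (subset_insert _ _).trans h2
      have b3 : i ∈ B := hB (mem_sdiff.2 ⟨h2 a1, a2⟩)
      rw [card_insert_of_notMem hJ] at h3
      have c1 := ih J b1 b2 (by omega)
      obtain ⟨c2, c3⟩ := hG J b1 b2
      have c4 := step (σ := σ) (x1 := x1) (β := β) (Ψ0 := Ψ0) (Ψ1 := Ψ1) b3 hJ
      have c5 := step (σ := σ) (x1 := x1) (β := β) (Ψ0 := Ψ0ᵀ) (Ψ1 := Ψ1ᵀ) b3 hJ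
      have c6 : (#J : ℝ) / 2 ^ σ ≤ Fintype.card ι / 2 ^ σ := by
        gcongr
        exact card_le_univ J
      refine (pr_mono ?_).trans ((pr_or_le.trans (add_le_add c1 (pr_or_le.trans (add_le_add
        (pr_or_le.trans (add_le_add c2 c3)) (pr_or_le.trans (add_le_add c4 c5)))))).trans ?_)
      · rintro S ⟨x, hx, h⟩
        by_contra H
        simp only [not_or, not_not] at H
        obtain ⟨d1, ⟨d2, d3⟩, d4, d5⟩ := H
        have d6 : Ker J J (pen β Ψ0 Ψ1 x S) ≠ ⊥ := fun e => by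
          have := chain_le_one (i := i) e
          omega
        have d7 : Ker J J (pen β Ψ0ᵀ Ψ1ᵀ x S) ≠ ⊥ := fun e => d6 (by
          simpa only [chain_tr, transpose_transpose] using ker_transpose e)
        obtain ⟨y, hy⟩ := not_forall.1 fun e => d4 ⟨d2, x, hx, d6, e⟩
        obtain ⟨l, hl⟩ := not_forall.1 fun e => d5 ⟨d3, x, hx, d7, e⟩
        rw [Classical.not_imp] at hy hl
        rw [chain_tr] at hl
        have d8 := chain_lt hy.1 hy.2 hl.1 hl.2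
        have d9 := not_lt.1 fun e => d1 ⟨x, hx, e⟩
        omega
      · rw [mul_div_assoc]
        push_cast
        linarith
  have h1 := card_le_card h
  have h2 := pr_nonneg.trans (hG J1 Subset.rfl h).1
  refine (pr_mono ?_).trans ((key (#J0 - #J1) J0 h Subset.rfl (by omega)).trans ?_)
  · rintro S ⟨x, hx, h⟩
    exact ⟨x, hx, by omega⟩
  · gcongr
    exact (Nat.sub_le _ _).trans (card_le_univ J0)

end Pool.Agent.Lib.MP_f8d36e_nt
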