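import Pool.Agent.Lib.MP_f8d36e_nt.Quad
import Pool.Agent.Lib.MP_f8d36e_nt.Elem

/-! Job A4: the arithmetic data of an imaginary quadratic field. -/

set_option autoImplicit false

open scoped Pointwise IntermediateField

namespace Pool.Agent.Lib.MP_f8d36e_nt

/-- A square root. -/
noncomputable def charsSq (a : ℤ) : Qbar :=
  (IsAlgClosed.exists_pow_nat_eq (a : Qbar) two_pos).choose

theorem chars_sq (a : ℤ) : charsSq a ^ 2 = a :=
  (IsAlgClosed.exists_pow_nat_eq (a : Qbar) two_pos).choose_spec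

open Classical in
/-- The quadratic character attached to an integer. -/
noncomputable def charsChi (a : ℤ) (g : Gam) : F2 := if g (charsSq a) = charsSq a then 0 else 1

/-- The prime with the sign that makes it one modulo four. -/
def charsSt (p : ℕ) : ℤ := if p % 4 = 3 then -p else p

theorem chars_two : ∀ b : F2, b = 0 ∨ b = 1 := by decide

theorem chars_ext : ∀ a b : F2, (a = 0 ↔ b = 0) → a = b := by decide

theorem chars_chi {a : ℤ} {x : Qbar} (hx : x ^ 2 = a) (g : Gam) : charsChi a g = 0 ↔ g x = x := by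
  have h : charsChi a g = 0 ↔ g (charsSq a) = charsSq a := by
    unfold charsChi
    split_ifs with h <;> simp [h]
  rw [h]
  rcases sq_eq_sq_iff_eq_or_eq_neg.1 (hx.trans (chars_sq a).symm) with e | e <;> rw [e]
  rw [map_neg, neg_inj]

theorem chars_mul {a b : ℤ} (ha : a ≠ 0) (hb : b ≠ 0) (g : Gam) :
    charsChi (a * b) g = charsChi a g + charsChi b g := by
  have h1 := chars_sq a
  have h2 := chars_sq b
  have n1 : charsSq a ≠ 0 := fun h => ha (by exact_mod_cast (h ▸ h1).symm.trans (zero_pow two_ne_zero))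
  have n2 : charsSq b ≠ 0 := fun h => hb (by exact_mod_cast (h ▸ h2).symm.trans (zero_pow two_ne_zero))
  have h3 : (charsSq a * charsSq b) ^ 2 = ((a * b : ℤ) : Qbar) := by
    rw [mul_pow, h1, h2, Int.cast_mul]
  refine chars_ext _ _ ?_
  rw [chars_chi h3, map_mul]
  unfold charsChi
  rcases apply_sqrt h1 g with e1 | e1 <;> rcases apply_sqrt h2 g with e2 | e2 <;>
    simp [e1, e2, n1, n2, neg_eq_self, CharTwo.add_self_eq_zero]

theorem chars_one (g : Gam) : charsChi 1 g = 0 :=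
  (chars_chi (x := 1) (by simp) g).2 (map_one g)

theorem chars_pow {a : ℤ} (b : F2) (g : Gam) : charsChi (a ^ b.val) g = charsChi a g * b := by
  rcases chars_two b with rfl | rfl
  · rw [ZMod.val_zero, pow_zero, chars_one, mul_zero]
  · rw [ZMod.val_one, pow_one, mul_one]

theorem chars_prod {ι : Type} (s : Finset ι) {a : ι → ℤ} (ha : ∀ i, a i ≠ 0) (g : Gam) :
    charsChi (∏ i ∈ s, a i) g = ∑ i ∈ s, charsChi (a i) g := by
  classical
  induction s using Finset.induction_on with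
  | empty => simpa using chars_one g
  | insert i s hi ih =>
    rw [Finset.prod_insert hi, Finset.sum_insert hi,
      chars_mul (ha i) (Finset.prod_ne_zero_iff.2 fun j _ => ha j), ih]

theorem chars_frob {a : ℤ} {p : ℕ} (hp : p.Prime) (hp2 : p ≠ 2) (hpd : ¬ (p : ℤ) ∣ a)
    {P : Ideal Zbar} (hP : P.IsMaximal) (h : (p : Zbar) ∈ P) {φ : Gam}
    (hφ : ∀ y : Zbar, φ • y - y ^ p ∈ P) :
    charsChi a φ = if jacobiSym a p = -1 then 1 else 0 := by
  refine chars_ext _ _ ?_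
  rw [chars_chi (chars_sq a), frob_sqrt (chars_sq a) hp hp2 hpd P hP h hφ]
  split_ifs with h1 <;> simp [h1]

theorem chars_neg_one {p : ℕ} (ho : p % 2 = 1) :
    (if jacobiSym (-1) p = -1 then 1 else 0) = uN p := by
  rw [jacobiSym.at_neg_one (Nat.odd_iff.2 ho), ZMod.χ₄_nat_eq_if_mod_four, uN]
  rcases Nat.odd_mod_four_iff.1 ho with h | h <;> simp [ho, h]

theorem chars_at_two {p : ℕ} (ho : p % 2 = 1) :
    (if jacobiSym 2 p = -1 then 1 else 0) = wN p := by
  rw [jacobiSym.at_two (Nat.odd_iff.2 ho), ZMod.χ₈_nat_eq_if_mod_eight, wN]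
  have : p % 8 = 1 ∨ p % 8 = 3 ∨ p % 8 = 5 ∨ p % 8 = 7 := by omega
  rcases this with h | h | h | h <;> simp [ho, h]

theorem chars_rec {p q : ℕ} (hp : p % 2 = 1) (hq : q % 2 = 1) :
    jacobiSym (charsSt p) q = jacobiSym q p := by
  have op := Nat.odd_iff.2 hp
  have oq := Nat.odd_iff.2 hq
  rw [charsSt]
  rcases Nat.odd_mod_four_iff.1 hp with h | h
  · rw [if_neg (by omega), jacobiSym.quadratic_reciprocity_one_mod_four h oq]
  · rw [if_pos h, jacobiSym.neg _ oq]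
    rcases Nat.odd_mod_four_iff.1 hq with k | k
    · rw [ZMod.χ₄_nat_one_mod_four k, jacobiSym.quadratic_reciprocity_one_mod_four' op k, one_mul]
    · rw [ZMod.χ₄_nat_three_mod_four k, jacobiSym.quadratic_reciprocity_three_mod_four h k]
      ring

theorem chars_abs (p : ℕ) : (charsSt p).natAbs = p := by
  unfold charsSt
  split_ifs <;> simp

theorem chars_dvd_st {p q : ℕ} : (q : ℤ) ∣ charsSt p ↔ q ∣ p := by
  rw [Int.natCast_dvd, chars_abs]

/-- The class modulo eight. -/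
def charsF (a : F2) : ZMod 8 := 1 + 4 * (a.val : ZMod 8)

theorem chars_F_add : ∀ a b : F2, charsF (a + b) = charsF a * charsF b := by decide

theorem chars_F_st {p : ℕ} (ho : p % 2 = 1) (b : F2) :
    ((charsSt p ^ b.val : ℤ) : ZMod 8) = charsF (wN p * b) := by
  rw [Int.cast_pow, charsSt, wN, apply_ite (Int.cast : ℤ → ZMod 8), Int.cast_neg, Int.cast_natCast,
    ← ZMod.natCast_mod p 8, ← Nat.mod_mod_of_dvd p (show 4 ∣ 8 by norm_num)]
  have : p % 8 = 1 ∨ p % 8 = 3 ∨ p % 8 = 5 ∨ p % 8 = 7 := by omega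
  revert b
  rcases this with h | h | h | h <;> rw [h] <;> decide

theorem chars_F_prod {ι : Type} (s : Finset ι) {p : ι → ℕ} (ho : ∀ i, p i % 2 = 1) (b : ι → F2) :
    ((∏ i ∈ s, charsSt (p i) ^ (b i).val : ℤ) : ZMod 8) = charsF (∑ i ∈ s, wN (p i) * b i) := by
  classical
  induction s using Finset.induction_on with
  | empty => simp [charsF]
  | insert i s hi ih =>
    rw [Finset.prod_insert hi, Finset.sum_insert hi, Int.cast_mul, ih, chars_F_st (ho i),
      chars_F_add]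

theorem chars_odd {m : ℕ} (h8 : m % 8 = 5) (p : m.primeFactors) : (p : ℕ) % 2 = 1 := by
  obtain ⟨k, hk⟩ := Nat.dvd_of_mem_primeFactors p.2
  by_contra h
  obtain ⟨j, hj⟩ : 2 ∣ (p : ℕ) := by omega
  rw [hj, mul_assoc] at hk
  omega

theorem chars_prod_st {m : ℕ} (hm : Squarefree m) (h8 : m % 8 = 5) :
    ∏ p : m.primeFactors, charsSt p = m := by
  have h1 : (∏ p : m.primeFactors, charsSt p).natAbs = m := by
    rw [← Int.natAbsHom_apply, map_prod]
    simp only [Int.natAbsHom_apply, chars_abs]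
    rw [Finset.prod_coe_sort m.primeFactors fun p => p, Nat.prod_primeFactors_of_squarefree hm]
  refine (Int.natAbs_eq_iff.1 h1).resolve_right fun h => ?_
  have h2 := chars_F_prod Finset.univ (chars_odd h8) fun _ => 1
  simp only [ZMod.val_one, pow_one] at h2
  rw [h, Int.cast_neg, Int.cast_natCast, ← ZMod.natCast_mod m 8, h8] at h2
  exact absurd h2 ((by decide : ∀ a : F2, -((5 : ℕ) : ZMod 8) ≠ charsF a) _)

theorem chars_dvd {a b : ℤ} (ha : Squarefree a)
    (h : ∀ q : ℕ, q.Prime → (q : ℤ) ∣ a → (q : ℤ) ∣ b) : a ∣ b := by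
  rw [← Int.natAbs_dvd_natAbs, ← Nat.prod_primeFactors_of_squarefree (Int.squarefree_natAbs.2 ha)]
  exact Finset.prod_primes_dvd _ (fun q hq => (Nat.prime_of_mem_primeFactors hq).prime)
    fun q hq => Int.natCast_dvd.1 (h q (Nat.prime_of_mem_primeFactors hq)
      (Int.natCast_dvd.2 (Nat.dvd_of_mem_primeFactors hq)))

/-- The shape of a squarefree number with given odd prime factors. -/
theorem chars_shape {m : ℕ} (hm : Squarefree m) (h8 : m % 8 = 5) {d : ℤ} (hd : Squarefree d)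
    (β : m.primeFactors → F2) (h1 : ∀ p, β p = 1 → ((p : ℕ) : ℤ) ∣ d)
    (h2 : ∀ q : ℕ, q.Prime → q ≠ 2 → (q : ℤ) ∣ d → ∃ p : m.primeFactors, (p : ℕ) = q ∧ β p = 1) :
    ∃ η ε : F2, d = (-1) ^ η.val * (2 ^ ε.val * ∏ p : m.primeFactors, charsSt p ^ (β p).val) := by
  obtain ⟨Q, hQ⟩ : ∃ Q, Q = ∏ p : m.primeFactors, charsSt p ^ (β p).val := ⟨_, rfl⟩
  have q1 : Q ∣ m := by
    rw [← chars_prod_st hm h8, hQ]
    refine Finset.prod_dvd_prod_of_dvd _ _ fun p _ => ?_
    rcases chars_two (β p) with h | h <;> simp [h, ZMod.val_one]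
  have q2 : Squarefree Q := (Int.squarefree_natCast.2 hm).squarefree_of_dvd q1
  obtain ⟨e, rfl⟩ : Q ∣ d := chars_dvd q2 fun q hq h => by
    rw [hQ] at h
    obtain ⟨p, -, hp⟩ := (Nat.prime_iff_prime_int.1 hq).exists_mem_finset_dvd h
    rcases chars_two (β p) with k | k
    · rw [k, ZMod.val_zero, pow_zero] at hp
      exact absurd (isUnit_of_dvd_one hp) (Nat.prime_iff_prime_int.1 hq).not_isUnit
    · rw [k, ZMod.val_one, pow_one, chars_dvd_st,
        Nat.prime_dvd_prime_iff_eq hq (Nat.prime_of_mem_primeFactors p.2)] at hp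
      exact hp ▸ h1 p k
  have q3 : Q * e ∣ Q * 2 := chars_dvd hd fun q hq h => by
    by_cases h0 : q = 2
    · exact h0 ▸ dvd_mul_left _ _
    · obtain ⟨p, rfl, hp⟩ := h2 q hq h0 h
      refine Dvd.dvd.mul_right (hQ ▸ (Dvd.dvd.trans ?_ (Finset.dvd_prod_of_mem _
        (Finset.mem_univ p)))) _
      rw [hp, ZMod.val_one, pow_one, chars_dvd_st]
  have q4 := (mul_dvd_mul_iff_left q2.ne_zero).1 q3
  have q5 := Int.le_of_dvd two_pos q4
  have q6 := Int.le_of_dvd two_pos (neg_dvd.2 q4)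
  have q7 : e ≠ 0 := by
    rintro rfl
    simp at q4
  have q8 : e = 1 ∨ e = -1 ∨ e = 2 ∨ e = -2 := by omega
  rw [← hQ]
  rcases q8 with rfl | rfl | rfl | rfl
  · exact ⟨0, 0, by simp⟩
  · exact ⟨1, 0, by simp [ZMod.val_one]⟩
  · exact ⟨0, 1, by simp [ZMod.val_one, mul_comm]⟩
  · exact ⟨1, 1, by simp [ZMod.val_one, mul_comm]⟩

theorem chars_not_two {p : ℕ} (ho : p % 2 = 1) {P : Ideal Zbar} (hP : P.IsMaximal)
    (h : (p : Zbar) ∈ P) : (2 : Zbar) ∉ P := fun h2 => hP.ne_top (by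
  have e : (p : Zbar) = 2 * ((p / 2 : ℕ) : Zbar) + 1 := by
    exact_mod_cast congrArg (Nat.cast : ℕ → Zbar) (show p = 2 * (p / 2) + 1 by omega)
  rw [e] at h
  exact (Ideal.eq_top_iff_one P).2 ((P.add_mem_iff_right (P.mul_mem_right _ h2)).1 h))

theorem chars_conj {p : ℕ} {P : Ideal Zbar} {φ t : Gam} (hφ : ∀ y : Zbar, φ • y - y ^ p ∈ P)
    (ht : t ∈ P.inertia Gam) : φ * t * φ⁻¹ ∈ P.inertia Gam := fun y => by
  have h1 := hφ (t • φ⁻¹ • y)
  have h2 := hφ (φ⁻¹ • y)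
  have h3 := P.mem_of_dvd (sub_dvd_pow_sub_pow (t • φ⁻¹ • y) (φ⁻¹ • y) p) (ht _)
  rw [smul_inv_smul] at h2
  have h4 := P.sub_mem (P.add_mem h1 h3) h2
  rw [sub_add_sub_cancel, sub_sub_sub_cancel_right] at h4
  rwa [mul_smul, mul_smul]

/-- The local data at a prime factor. -/
theorem chars_local {m : ℕ} (hm : Squarefree m) {θ : Qbar} (hθ : θ ^ 2 = ((-m : ℤ) : Qbar))
    (p : m.primeFactors) : ∃ (P : Ideal Zbar) (τ φ : Gam), P.IsMaximal ∧ ((p : ℕ) : Zbar) ∈ P ∧
      τ ∈ P.inertia Gam ∧ τ θ ≠ θ ∧ φ θ = θ ∧ ∀ y : Zbar, φ • y - y ^ (p : ℕ) ∈ P := by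
  have hp := Nat.prime_of_mem_primeFactors p.2
  obtain ⟨P, h1, h2⟩ := exists_maximal hp
  obtain ⟨τ, h3, h4⟩ := inertia_moves (Int.squarefree_natAbs.1 (by simpa using hm)) hθ hp
    (dvd_neg.2 (Int.natCast_dvd_natCast.2 (Nat.dvd_of_mem_primeFactors p.2))) P h1 h2
  obtain ⟨φ, -, h5⟩ := exists_frob hp P h1 h2
  rcases apply_sqrt hθ φ with h6 | h6
  · exact ⟨P, τ, φ, h1, h2, h3, h4, h6, h5⟩
  · refine ⟨P, τ, τ * φ, h1, h2, h3, h4, ?_, fun y => ?_⟩
    · rw [AlgEquiv.mul_apply, h6, map_neg, (apply_sqrt hθ τ).resolve_left h4, neg_neg]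
    · rw [mul_smul]
      exact sub_add_sub_cancel (τ • φ • y) (φ • y) _ ▸ P.add_mem (h3 _) (h5 y)

theorem exists_setup {m : ℕ} (hm : Squarefree m) (h8 : m % 8 = 5) {θ : Qbar}
    (hθ : θ ^ 2 = -(m : Qbar)) (N : Subgroup Gam)
    (hN : ∀ P : Ideal Zbar, P.IsMaximal → (2 : Zbar) ∉ P →
      P.inertia Gam ⊓ ℚ⟮θ⟯.fixingSubgroup ≤ N) :
    ∃ s : Setup (fun p : m.primeFactors => uN p) (fun p : m.primeFactors => wN p)
      (Rmat (fun p : m.primeFactors => uN p) fun p q : m.primeFactors => rhoN p q)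
      ℚ⟮θ⟯.fixingSubgroup N,
      ∃ P : Ideal Zbar, P.IsMaximal ∧ (2 : Zbar) ∈ P ∧ s.D = MulAction.stabilizer Gam P := by
  have hθ' : θ ^ 2 = ((-m : ℤ) : Qbar) := by rw [hθ, Int.cast_neg, Int.cast_natCast]
  have ho := chars_odd h8
  have hpr : ∀ p : m.primeFactors, (p : ℕ).Prime := fun p => Nat.prime_of_mem_primeFactors p.2
  have hp2 : ∀ p : m.primeFactors, (p : ℕ) ≠ 2 := fun p h => by have := ho p; omega
  have hi : ℚ⟮θ⟯.fixingSubgroup.index = 2 :=
    fixing_index (Int.squarefree_natAbs.1 (by simpa using hm)) (by omega) hθ'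
  choose P τ φ h1 h2 h3 h4 h5 h6 using chars_local hm hθ'
  obtain ⟨P2, k1, k2⟩ := exists_maximal Nat.prime_two
  rw [Nat.cast_ofNat] at k2
  obtain ⟨c, c1, c2⟩ := exists_conj
  have n2 := fun p => chars_not_two (ho p) (h1 p) (h2 p)
  have t1 : ∀ p, τ p ∉ ℚ⟮θ⟯.fixingSubgroup := fun p h => h4 p ((mem_fixing _).1 h)
  have t2 : ∀ p, φ p ∈ ℚ⟮θ⟯.fixingSubgroup := fun p => (mem_fixing _).2 (h5 p)
  have s0 : ∀ p : m.primeFactors, charsSt p ≠ 0 := fun p h =>
    (hpr p).ne_zero (by rw [← chars_abs p, h, Int.natAbs_zero])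
  have cc : ∀ a : ℤ, a ≠ 0 → charsChi a c = if 0 < a then 0 else 1 := fun a ha =>
    chars_ext _ _ (by
      rw [chars_chi (chars_sq a), c2 _ _ ha (chars_sq a)]
      split_ifs with h <;> simp [h])
  have fr := fun (a : ℤ) p (h : ¬ ((p : m.primeFactors) : ℕ) ∣ a.natAbs) =>
    chars_frob (hpr p) (hp2 p) (mt Int.natCast_dvd.1 h) (h1 p) (h2 p) (h6 p)
  have f1 : ∀ p, charsChi (-1) (φ p) = uN p := fun p => by
    rw [fr _ p (by simpa using (hpr p).ne_one), chars_neg_one (ho p)]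
  have f2 : ∀ p, charsChi 2 (φ p) = wN p := fun p => by
    rw [fr 2 p (mt (Nat.prime_dvd_prime_iff_eq (hpr p) Nat.prime_two).1 (hp2 p)),
      chars_at_two (ho p)]
  have f3 : ∀ p q : m.primeFactors, p ≠ q → charsChi (charsSt q) (φ p) = rhoN p q :=
    fun p q h => by
      rw [fr _ p (by
        rw [chars_abs, Nat.prime_dvd_prime_iff_eq (hpr p) (hpr q)]
        exact fun e => h (Subtype.ext e)), chars_rec (ho q) (ho p), rhoN]
  have f4 : ∀ p q : m.primeFactors, charsChi (charsSt q) (φ p) =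
      Rmat (fun p : m.primeFactors => uN p) (fun p q : m.primeFactors => rhoN p q) p q := by
    intro p q
    rw [Rmat]
    split_ifs with h
    · subst h
      have e := (chars_chi hθ' _).2 (h5 p)
      rw [← neg_one_mul, chars_mul (by norm_num) (by omega), f1, ← chars_prod_st hm h8,
        chars_prod _ s0, ← Finset.add_sum_erase _ _ (Finset.mem_univ p),
        Finset.sum_congr rfl fun q hq => f3 p q (Finset.ne_of_mem_erase hq).symm] at e
      exact (by decide : ∀ a b c : F2, a + (b + c) = 0 → b = a + c) _ _ _ e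
    · exact f3 p q h
  refine ⟨⟨τ, φ, c, MulAction.stabilizer Gam P2, hi, fixing_open, t1,
    fun p => hN _ (h1 p) (n2 p) ⟨mul_mem (h3 p) (h3 p), ?_⟩, t2,
    fun p => hN _ (h1 p) (n2 p) ⟨mul_mem (chars_conj (h6 p) (h3 p))
      ((Ideal.inertia Gam (P p)).inv_mem (h3 p)), ?_⟩,
    fun h => ?_, c1, stabilizer_closed P2, fun χ hχ hχN => ?_⟩, P2, k1, k2, rfl⟩
  · exact (Subgroup.mul_mem_iff_of_index_two hi).2 Iff.rfl
  · change _ ∈ ℚ⟮θ⟯.fixingSubgroup
    simp [Subgroup.mul_mem_iff_of_index_two hi, t1, t2]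
  · have := (c2 θ _ (by omega) hθ').1 ((mem_fixing _).1 h)
    omega
  obtain ⟨d, x, hd, hx, hχx⟩ := exists_sqrt χ hχ
  obtain ⟨η, ε, e⟩ := chars_shape hm h8 hd (fun p => (χ (τ p)).toAdd) (fun p hp => by
    by_contra h
    rw [(hχx _).2 (inertia_fixes hx (hpr p) (hp2 p) h _ (h1 p) (h2 p) _ (h3 p))] at hp
    exact absurd hp (by decide)) (fun q hq q2 hqd => by
    have hqm : (q : ℤ) ∣ -m := by
      by_contra h
      obtain ⟨Q, a1, a2⟩ := exists_maximal hq
      obtain ⟨t, a3, a4⟩ := inertia_moves hd hx hq hqd Q a1 a2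
      exact a4 ((hχx t).1 (hχN t (hN Q a1 (chars_not_two (hq.eq_two_or_odd.resolve_left q2) a1 a2)
        ⟨a3, (mem_fixing _).2 (inertia_fixes hθ' hq q2 h Q a1 a2 t a3)⟩)))
    obtain ⟨p, rfl⟩ : ∃ p : m.primeFactors, (p : ℕ) = q := ⟨⟨q, Nat.mem_primeFactors.2
      ⟨hq, Int.natCast_dvd_natCast.1 (dvd_neg.1 hqm), hm.ne_zero⟩⟩, rfl⟩
    refine ⟨p, rfl, (chars_two _).resolve_left fun h0 => ?_⟩
    obtain ⟨t, a3, a4⟩ := inertia_moves hd hx hq hqd _ (h1 p) (h2 p)
    refine a4 ((hχx t).1 ?_)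
    by_cases ht : t ∈ ℚ⟮θ⟯.fixingSubgroup
    · exact hχN t (hN _ (h1 p) (n2 p) ⟨a3, ht⟩)
    · have := hχN _ (hN _ (h1 p) (n2 p) ⟨mul_mem a3 (h3 p),
        (Subgroup.mul_mem_iff_of_index_two hi).2 (iff_of_false ht (t1 p))⟩)
      rwa [map_mul, toAdd_eq_zero.1 h0, mul_one] at this)
  have key : ∀ g, (χ g).toAdd = η * charsChi (-1) g + ε * charsChi 2 g +
      ∑ p : m.primeFactors, charsChi (charsSt p) g * (χ (τ p)).toAdd := fun g => by
    have a1 : (χ g).toAdd = charsChi d g :=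
      chars_ext _ _ (by rw [toAdd_eq_zero, chars_chi hx, hχx])
    have a2 := fun p => pow_ne_zero (χ (τ p)).toAdd.val (s0 p)
    have a3 := Finset.prod_ne_zero_iff.2 fun p (_ : p ∈ Finset.univ) => a2 p
    rw [a1, e, chars_mul (by positivity) (by positivity), chars_mul (by positivity) a3,
      chars_prod _ a2]
    simp only [chars_pow]
    ring
  refine ⟨fun p => (χ (τ p)).toAdd, ε, η, fun _ => rfl, fun p => ?_, ?_, fun hD => ?_,
    fun b0 e0 e1 => MonoidHom.ext fun g => ?_⟩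
  · rw [key, f1, f2]
    simp only [f4]
    rfl
  · rw [key, cc _ (by norm_num), cc _ (by norm_num), if_neg (by norm_num), if_pos (by norm_num),
      mul_one, mul_zero, add_zero]
    refine congrArg _ (Finset.sum_congr rfl fun p _ => congrArg (· * _) ?_)
    have := (hpr p).pos
    rw [cc _ (s0 p), charsSt]
    by_cases h : (p : ℕ) % 4 = 3 <;> simp [uN, h, this]
  · have a1 := split_two hd hx P2 k1 k2 fun g hg => (hχx g).1 (hD g hg)
    have a2 : (d : ZMod 8) = 1 := by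
      rw [← ZMod.intCast_mod d 8, show d % (8 : ℕ) = 1 from a1, Int.cast_one]
    rw [e, Int.cast_mul, Int.cast_mul, chars_F_prod _ ho, Int.cast_pow, Int.cast_pow, Int.cast_neg,
      Int.cast_one, Int.cast_ofNat] at a2
    exact (by decide : ∀ a b c : F2, (-1) ^ a.val * (2 ^ b.val * charsF c) = 1 →
      b = 0 ∧ a = 0 ∧ c = 0) _ _ _ a2
  · have := key g
    simp only [e0, e1, show ∀ p, (χ (τ p)).toAdd = 0 from congrFun b0, zero_mul, mul_zero,
      Finset.sum_const_zero, add_zero] at this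
    exact toAdd_eq_zero.1 this

end Pool.Agent.Lib.MP_f8d36e_nt
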