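import Pool.Agent.Lib.MP_f8d36e_nt.Pr
import Pool.Agent.Lib.MP_f8d36e_nt.Elem

/-! Job E10b: conditioning on the admissible vector; counting admissible vectors. -/

set_option autoImplicit false

open Matrix Finset

namespace Pool.Agent.Lib.MP_f8d36e_nt

variable {ι : Type} [Fintype ι] [DecidableEq ι] {B : Finset ι} {u w : ι → F2} {ρ : ι → ι → F2}

theorem cond_self (a : F2) : a + a = 0 := by revert a; decide

/-- The matrix with the same entries off the diagonal and zero row sums. -/
def condLap (s : Matrix ι ι F2) : Matrix ι ι F2 := fun i j =>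
  if i = j then ∑ l ∈ univ.erase i, s i l else s i j

theorem cond_R (s : Matrix ι ι F2) :
    Rmat u (fun i j => ρ i j + s i j) = Rmat u ρ + condLap s := by
  ext i j
  simp only [Rmat, condLap, Matrix.add_apply]
  split_ifs
  · rw [sum_add_distrib, add_assoc]
  · rfl

theorem condLap_add (s t : Matrix ι ι F2) : condLap (s + t) = condLap s + condLap t := by
  ext i j
  simp only [condLap, Matrix.add_apply]
  split_ifs
  · rw [sum_add_distrib]
  · rfl

theorem condLap_symm {s : Matrix ι ι F2} (h : ∀ i j, s i j = s j i) (i j : ι) :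
    condLap s i j = condLap s j i := by
  by_cases e : i = j
  · rw [e]
  · simp only [condLap, if_neg e, if_neg (Ne.symm e), h i j]

theorem condLap_zero {s : Matrix ι ι F2} {i : ι} (h : ∀ j, s i j = 0) (j : ι) :
    condLap s i j = 0 := by
  simp [condLap, h]

/-- The part of the matrix away from the two special indices. -/
def condS (n0 n1 : ι) (s : Alt B) : Sym ((B.erase n0).erase n1) :=
  ⟨fun i j => if i ≠ n0 ∧ i ≠ n1 ∧ j ≠ n0 ∧ j ≠ n1 then condLap (s : Matrix ι ι F2) i j else 0,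
    fun i j => if_congr (by tauto) (condLap_symm s.2.1.1 i j) rfl,
    fun i j h => by
      beta_reduce
      split_ifs with e
      · exact condLap_zero (fun l => s.2.1.2 i l fun hi => h (by simp [hi, e.1, e.2.1])) j
      · rfl⟩

/-- The map used for conditioning. -/
def condT (β : ι → F2) (n0 n1 : ι) :
    Alt B →+ Sym ((B.erase n0).erase n1) × (B.erase n1 → F2) :=
  AddMonoidHom.mk' (fun s => (condS n0 n1 s, fun i => (condLap (s : Matrix ι ι F2) *ᵥ β) i))
    fun s t => by
      refine Prod.ext (Subtype.ext ?_) ?_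
      · ext i j
        simp only [condS, AddSubgroup.coe_add, condLap_add, Prod.fst_add, Matrix.add_apply]
        split_ifs <;> simp
      · ext i
        simp [condLap_add, add_mulVec]

theorem condT_surj {β : ι → F2} {n0 n1 : ι} (hn0 : n0 ∈ B) (hn1 : n1 ∈ B) (h0 : β n0 = 0)
    (h1 : β n1 = 1) : Function.Surjective (condT (B := B) β n0 n1) := by
  rintro ⟨⟨S, hS, hS'⟩, t⟩
  have hne : n0 ≠ n1 := fun e => by rw [e, h1] at h0; exact one_ne_zero h0
  have hS0 : ∀ j, S n0 j = 0 := fun j => hS' _ _ (by simp)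
  have hS1 : ∀ j, S n1 j = 0 := fun j => hS' _ _ (by simp)
  let t' : ι → F2 := fun i => if h : i ∈ B.erase n1 then t ⟨i, h⟩ else 0
  let a : ι → F2 := fun i => t' i + (S *ᵥ β) i
  let b : ι → F2 := fun i => if i = n0 then 0 else a i + ∑ l, S i l
  let a' : ι → F2 := fun i => a i + if i = n0 then b ⬝ᵥ β else 0
  have ha : ∀ i, i ∉ B.erase n1 → a i = 0 := fun i hi => by
    have : ∀ j, S i j = 0 := fun j => hS' _ _ fun e => hi (by simp at e ⊢; tauto)
    simp only [a, t', dif_neg hi, mulVec, dotProduct, this, zero_mul, sum_const_zero, add_zero]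
  have hb : ∀ i, i ∉ B.erase n1 → b i = 0 := fun i hi => by
    have : ∀ j, S i j = 0 := fun j => hS' _ _ fun e => hi (by simp at e ⊢; tauto)
    simp only [b, ha i hi, this, sum_const_zero, add_zero, ite_self]
  have ha' : ∀ i, i ∉ B.erase n1 → a' i = 0 := fun i hi => by
    have : i ≠ n0 := fun e => hi (by simp [e, hne, hn0])
    simp only [a', ha i hi, if_neg this, add_zero]
  have hb0 : b n0 = 0 := if_pos rfl
  have hb1 : b n1 = 0 := hb _ (by simp)
  have ha1 : a' n1 = 0 := ha' _ (by simp)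
  let s : Matrix ι ι F2 := fun i j => (if i = j then 0 else S i j) +
    ((if j = n1 then a' i else 0) + (if i = n1 then a' j else 0)) +
    ((if j = n0 then b i else 0) + (if i = n0 then b j else 0))
  have hs : s ∈ Alt B := by
    refine ⟨⟨fun i j => ?_, fun i j hi => ?_⟩, fun i => ?_⟩
    · simp only [s, hS i j, eq_comm (a := i) (b := j)]
      ring
    · have e0 : i ≠ n0 := fun e => hi (e ▸ hn0)
      have e1 : i ≠ n1 := fun e => hi (e ▸ hn1)
      have k : i ∉ B.erase n1 := fun e => hi (mem_of_mem_erase e)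
      have : S i j = 0 := hS' _ _ fun e => hi (by simp at e; tauto)
      simp [s, e0, e1, ha' i k, hb i k, this]
    · simp [s, cond_self]
  have hrow : ∀ i, i ≠ n0 → i ≠ n1 → ∑ l ∈ univ.erase i, s i l = S i i := fun i e0 e1 => by
    have k : ∑ l ∈ univ.erase i, s i l = ∑ l, s i l := sum_erase _ (hs.2 i)
    have k2 : ∑ l, (if i = l then 0 else S i l) = ∑ l, S i l + S i i := by
      rw [← add_sum_erase _ _ (mem_univ i), ← add_sum_erase _ (S i) (mem_univ i), if_pos rfl,
        sum_congr rfl fun l hl => if_neg (ne_of_mem_erase hl).symm]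
      linear_combination (-1 : F2) * cond_self (S i i)
    rw [k]
    simp only [s, sum_add_distrib, if_neg e0, if_neg e1, sum_ite_eq', mem_univ, if_true, k2,
      add_zero, a', b]
    linear_combination cond_self (a i) + cond_self (∑ l, S i l)
  refine ⟨⟨s, hs⟩, Prod.ext (Subtype.ext ?_) ?_⟩
  · ext i j
    change (if i ≠ n0 ∧ i ≠ n1 ∧ j ≠ n0 ∧ j ≠ n1 then condLap s i j else 0) = S i j
    split_ifs with e
    · obtain ⟨e0, e1, e2, e3⟩ := e
      by_cases k : i = j
      · subst k
        simp only [condLap, if_true, hrow i e0 e1]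
      · simp [condLap, s, k, e0, e1, e2, e3]
    · by_contra k
      refine e ⟨?_, ?_, ?_, ?_⟩ <;> rintro rfl <;> apply k
      exacts [(hS0 _).symm, (hS1 _).symm, by rw [hS, hS0], by rw [hS, hS1]]
  · ext ⟨i, hi⟩
    change (condLap s *ᵥ β) i = t ⟨i, hi⟩
    have e1 : i ≠ n1 := ne_of_mem_erase hi
    have ht : t' i = t ⟨i, hi⟩ := dif_pos hi
    rw [← ht]
    by_cases e0 : i = n0
    · subst e0
      have k : ∀ j, condLap s i j * β j = (if j = n1 then a' i else 0) * β j + b j * β j :=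
        fun j => by
          by_cases e : i = j
          · rw [← e, h0]; simp
          · simp [condLap, s, e, e1, hS0, hb0, add_mul]
      simp only [mulVec, dotProduct, k, sum_add_distrib, ite_mul, zero_mul, sum_ite_eq', mem_univ,
        if_true, h1, mul_one, a', a, hS0, sum_const_zero, add_zero]
      linear_combination cond_self (∑ j, b j * β j)
    · have k : ∀ j, condLap s i j * β j = S i j * β j + (if j = n1 then a' i else 0) * β j :=
        fun j => by
          by_cases e : i = j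
          · subst e
            simp only [condLap, if_true, hrow i e0 e1, if_neg e1, zero_mul, add_zero]
          · by_cases e' : j = n0
            · rw [e', h0]; simp
            · simp [condLap, s, e, e0, e1, e', add_mul]
      simp only [mulVec, dotProduct, k, sum_add_distrib, ite_mul, zero_mul, sum_ite_eq', mem_univ,
        if_true, h1, mul_one, a', a, if_neg e0, add_zero]
      linear_combination cond_self (∑ j, S i j * β j)

theorem cond {β : ι → F2} {n0 n1 : ι} (hn0 : n0 ∈ B) (hn1 : n1 ∈ B) (h0 : β n0 = 0)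
    (h1 : β n1 = 1) (ha : ∀ i j, i ≠ j → ρ i j + ρ j i = u i * u j) (su : ∑ i, u i = 0)
    (sw : ∑ i, w i = 1) (hb : ∀ i, i ∉ B → (Rmat u ρ *ᵥ β) i = u i)
    (E : Sym ((B.erase n0).erase n1) → Prop) :
    pr E / 2 ^ (#B - 1) ≤ pr (fun s : Alt B =>
      Rmat u (fun i j => ρ i j + (s : Matrix ι ι F2) i j) *ᵥ β = u ∧
      ∃ S : Sym ((B.erase n0).erase n1), E S ∧ ∀ i j, i ≠ n0 → i ≠ n1 → j ≠ n0 → j ≠ n1 →
        Rmat u (fun i j => ρ i j + (s : Matrix ι ι F2) i j) i j =
          Rmat u ρ i j + (S : Matrix ι ι F2) i j) := by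
  let t0 : B.erase n1 → F2 := fun i => u i + (Rmat u ρ *ᵥ β) i
  have e1 := pr_surj (condT (B := B) β n0 n1) (condT_surj hn0 hn1 h0 h1)
    fun x => E x.1 ∧ x.2 = t0
  rw [pr_prod, Nat.card_fun, Nat.card_zmod, Nat.card_eq_fintype_card, Fintype.card_coe,
    card_erase_of_mem hn1] at e1
  push_cast at e1
  rw [← e1]
  refine pr_mono fun s hs => ⟨?_, condS n0 n1 s, hs.1, fun i j a b c d => ?_⟩
  · have k := sums_of_anti (u := u) (w := w) (ρ := fun i j => ρ i j + (s : Matrix ι ι F2) i j)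
      (fun i j e => by
        linear_combination ha i j e + s.2.1.1 i j + cond_self ((s : Matrix ι ι F2) j i)) su sw
    have k1 : ∀ i, i ≠ n1 →
        (Rmat u (fun i j => ρ i j + (s : Matrix ι ι F2) i j) *ᵥ β) i = u i := fun i hi => by
      rw [cond_R, add_mulVec, Pi.add_apply]
      by_cases e : i ∈ B
      · have : (condLap (s : Matrix ι ι F2) *ᵥ β) i = u i + (Rmat u ρ *ᵥ β) i :=
          congrFun hs.2 ⟨i, mem_erase.mpr ⟨hi, e⟩⟩
        linear_combination this + cond_self ((Rmat u ρ *ᵥ β) i)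
      · rw [hb i e]
        simp [mulVec, dotProduct, condLap_zero fun l => s.2.1.2 i l e]
    have k2 : ∑ i, (Rmat u (fun i j => ρ i j + (s : Matrix ι ι F2) i j) *ᵥ β) i = ∑ i, u i := by
      simp only [mulVec, dotProduct]
      rw [sum_comm, su]
      simp only [← sum_mul, k.col, zero_mul, sum_const_zero]
    funext i
    by_cases e : i = n1
    · rw [← add_sum_erase _ _ (mem_univ i), ← add_sum_erase _ u (mem_univ i),
        sum_congr rfl fun l hl => k1 l (e ▸ ne_of_mem_erase hl)] at k2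
      exact add_right_cancel k2
    · exact k1 i e
  · rw [cond_R, Matrix.add_apply]
    exact congrArg _ (if_pos ⟨a, b, c, d⟩).symm

/-- A tail bound for the number of indices in one block. -/
theorem cond_tail (A : Finset ι) (b : F2) (T : ℕ) {l : ℝ} (hl : 0 ≤ l) :
    pr (fun β : ι → F2 => 2 * cnt β A b + T < #A) ≤
      Real.exp (Fintype.card ι * (l ^ 2 / 2) - l * T) := by
  classical
  let g : ι → F2 → ℝ := fun i x => if i ∈ A then (if x = b then -1 else 1) else 0
  have hg : ∀ β : ι → F2, ∑ i, g i (β i) = #A - 2 * cnt β A b := fun β => by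
    have : ∀ x : F2, (if x = b then (-1 : ℝ) else 1) = 1 - 2 * if x = b then 1 else 0 :=
      fun x => by split_ifs <;> norm_num
    simp only [g, sum_ite_mem, univ_inter, this, sum_sub_distrib, ← mul_sum, sum_boole, cnt]
    simp
  have h1 : ∀ β : ι → F2, (if 2 * cnt β A b + T < #A then (1 : ℝ) else 0) ≤
      Real.exp (-(l * T)) * ∏ i, Real.exp (l * g i (β i)) := fun β => by
    rw [← Real.exp_sum, ← mul_sum, hg, ← Real.exp_add]
    split_ifs with e
    · have : (2 * cnt β A b + T : ℝ) ≤ #A := by exact_mod_cast e.le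
      exact Real.one_le_exp (by nlinarith)
    · exact (Real.exp_pos _).le
  have h2 : ∀ i, ∑ x : F2, Real.exp (l * g i x) ≤ 2 * Real.exp (l ^ 2 / 2) := fun i => by
    have k := Real.cosh_le_exp_half_sq l
    have k' := Real.one_le_cosh l
    rw [Real.cosh_eq] at k k'
    have e : ∑ x : F2, Real.exp (l * g i x) =
        Real.exp (l * g i b) + Real.exp (l * g i (b + 1)) := by
      have : ∀ b : F2, (univ : Finset F2) = {b, b + 1} := by decide
      rw [this b, sum_pair (by simp)]
    rw [e]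
    by_cases hi : i ∈ A
    · simp only [g, if_pos hi, if_true, add_eq_left, one_ne_zero, if_false, mul_neg, mul_one]
      linarith
    · simp only [g, if_neg hi, mul_zero, Real.exp_zero]
      linarith
  rw [pr_eq_sum, div_le_iff₀ (by positivity)]
  refine (sum_le_sum fun β _ => h1 β).trans ?_
  rw [← mul_sum, ← Fintype.piFinset_univ, ← prod_univ_sum (fun _ => univ)
    fun i x => Real.exp (l * g i x)]
  refine (mul_le_mul_of_nonneg_left (prod_le_prod (fun i _ => by positivity)
    fun i _ => h2 i) (Real.exp_pos _).le).trans_eq ?_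
  rw [prod_const, Fintype.card_fun, ZMod.card, mul_pow, ← Real.exp_nat_mul, card_univ, sub_eq_neg_add,
    Real.exp_add]
  push_cast
  ring

theorem cond_pt {H : Type} (c : H) : pr (fun y : H => y = c) = 1 / Nat.card H := by
  simp [pr]

/-- The conditions that define an admissible vector. -/
def condA (B : Finset ι) (u w : ι → F2) (R : Matrix ι ι F2) :
    Matrix (↥Bᶜ ⊕ Bool) ι F2 := fun k j =>
  Sum.elim (fun i : ↥Bᶜ => R i j) (fun c => if c then u j else w j) k

theorem condA_surj {v : ℕ} (hv : 0 < v) (h : Typ v B u w ρ) :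
    Function.Surjective (condA B u w (Rmat u ρ)).mulVecLin := by
  have h9 : 0 < v ^ 9 := pow_pos hv 9
  have hli : LinearIndependent F2 (condA B u w (Rmat u ρ)).row := by
    rw [Fintype.linearIndependent_iff]
    intro c hc
    have k : ∀ j, ∑ i : ↥Bᶜ, c (.inl i) * Rmat u ρ i j +
        (c (.inr true) * u j + c (.inr false) * w j) = 0 := fun j => by
      have := congrFun hc j
      simpa [Fintype.sum_sum_type, condA, Matrix.row] using this
    let η : ι → F2 := fun i => if hi : i ∈ Bᶜ then c (.inl ⟨i, hi⟩) else 0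
    have hη : ∀ i : ↥Bᶜ, η i = c (.inl i) := fun i => dif_pos i.2
    have hη' : ∀ j ∈ B, η j = 0 := fun j hj => dif_neg (by simpa using hj)
    have k1 : η = 0 := by
      by_contra e
      obtain ⟨j, hj⟩ := card_pos.mp (h9.trans_le (h.wit η e hη'))
      simp only [cls, mem_filter] at hj
      obtain ⟨⟨hj, hu, hw⟩, hs⟩ := hj
      have k2 := k j
      rw [hu, hw, mul_zero, mul_zero, add_zero, add_zero] at k2
      have k3 : ∑ i, ρ j i * η i = ∑ i : ↥Bᶜ, c (.inl i) * Rmat u ρ i j := by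
        rw [← sum_subset (subset_univ Bᶜ) fun i _ hi => by
          rw [hη' i (by simpa using hi), mul_zero], ← sum_coe_sort]
        refine sum_congr rfl fun i _ => ?_
        have ne : (i : ι) ≠ j := fun e => (mem_compl.mp i.2) (e ▸ hj)
        have := h.anti i j ne
        rw [hu, mul_zero] at this
        rw [hη, Rmat, if_neg ne, mul_comm]
        congr 1
        linear_combination this - cond_self (ρ i j)
      rw [k3, k2] at hs
      exact zero_ne_one hs
    have k2 : ∀ i, c (.inl i) = 0 := fun i => by rw [← hη, k1]; rfl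
    simp only [k2, zero_mul, sum_const_zero, zero_add] at k
    have k3 : c (.inr false) = 0 := by
      obtain ⟨j, hj⟩ := card_pos.mp (h9.trans_le h.five)
      simp only [cls, mem_filter] at hj
      simpa [hj.2.1, hj.2.2] using k j
    have k4 : c (.inr true) = 0 := by
      obtain ⟨j, -, hj⟩ := h.exu
      simpa [hj, k3] using k j
    rintro (i | _ | _)
    exacts [k2 i, k3, k4]
  rw [← LinearMap.range_eq_top]
  apply Submodule.eq_top_of_finrank_eq
  rw [Module.finrank_fintype_fun_eq_card, ← hli.rank_matrix, Matrix.rank]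

theorem cond_adm {v : ℕ} (hv : 0 < v) (h : Typ v B u w ρ) :
    pr (fun β : ι → F2 => u ⬝ᵥ β = 1 ∧ w ⬝ᵥ β = 0 ∧ ∀ i, i ∉ B → (Rmat u ρ *ᵥ β) i = u i) =
      1 / 2 ^ (#Bᶜ + 2) := by
  let c : ↥Bᶜ ⊕ Bool → F2 := Sum.elim (fun i => u i) fun c => if c then 1 else 0
  have e := pr_surj (condA B u w (Rmat u ρ)).mulVecLin.toAddMonoidHom (condA_surj hv h)
    fun y => y = c
  rw [cond_pt, Nat.card_fun, Nat.card_zmod, Nat.card_eq_fintype_card, Fintype.card_sum,
    Fintype.card_coe, Fintype.card_bool] at e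
  push_cast at e
  rw [← e]
  refine congrArg pr (funext fun β => propext ⟨fun k => ?_, fun k => ?_⟩)
  · funext x
    rcases x with i | _ | _
    exacts [k.2.2 i (mem_compl.mp i.2), k.2.1, k.1]
  · exact ⟨congrFun k (.inr true), congrFun k (.inr false),
      fun i hi => congrFun k (.inl ⟨i, mem_compl.mpr hi⟩)⟩

theorem cond_num {v : ℕ} (hv : 6 ≤ v) {n : ℕ} (hn : n ≤ v ^ 12) :
    (2 : ℝ) ^ (v + 2) * Real.exp (n * ((1 / (v : ℝ) ^ 5) ^ 2 / 2) - 1 / (v : ℝ) ^ 5 * (v ^ 7 : ℕ))
      ≤ 1 / 2 ^ (v + 3) := by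
  have h6 : (6 : ℝ) ≤ v := by exact_mod_cast hv
  have h0 : (0 : ℝ) < v := by linarith
  have hn' : (n : ℝ) ≤ v ^ 12 := by exact_mod_cast hn
  have e1 : n * ((1 / (v : ℝ) ^ 5) ^ 2 / 2) - 1 / (v : ℝ) ^ 5 * (v ^ 7 : ℕ) ≤
      -((2 * v + 5 : ℕ) : ℝ) := by
    have k1 : n * ((1 / (v : ℝ) ^ 5) ^ 2 / 2) ≤ v ^ 12 * ((1 / (v : ℝ) ^ 5) ^ 2 / 2) :=
      mul_le_mul_of_nonneg_right hn' (by positivity)
    have k2 : (v : ℝ) ^ 12 * ((1 / (v : ℝ) ^ 5) ^ 2 / 2) = v ^ 2 / 2 := by field_simp
    have k3 : 1 / (v : ℝ) ^ 5 * (v ^ 7 : ℕ) = v ^ 2 := by push_cast; field_simp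
    rw [k3]
    push_cast
    nlinarith
  have e2 : (2 : ℝ) ^ (2 * v + 5) ≤ Real.exp ((2 * v + 5 : ℕ) : ℝ) := by
    rw [← Real.exp_one_pow]
    exact pow_le_pow_left₀ zero_le_two (by linarith [Real.add_one_le_exp (1 : ℝ)]) _
  have e3 := (Real.exp_le_exp.mpr e1).trans ((Real.exp_neg _).trans_le
    (inv_anti₀ (by positivity) e2))
  refine (mul_le_mul_of_nonneg_left e3 (by positivity)).trans_eq ?_
  field_simp
  ring

theorem cond_bad {v : ℕ} (hv : 6 ≤ v) (h : Typ v B u w ρ) :
    pr (fun β : ι → F2 => ¬ (Wit B (cls u w B 0 0) β (Rmat u ρ) ∧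
      (∀ b, #B ≤ 2 * cnt β B b + v ^ 7) ∧
      ∀ b, #(cls u w B 0 1) ≤ 2 * cnt β (cls u w B 0 1) b + v ^ 7)) ≤ 1 / 2 ^ (v + 3) := by
  classical
  let A : (↥Bᶜ → F2) → Finset ι := fun ζ => {j ∈ cls u w B 0 0 | ∑ i : ↥Bᶜ, ρ j i * ζ i = 1}
  let 𝒜 : Finset (Finset ι) := insert B (insert (cls u w B 0 1) (univ.image A))
  have hA : #((univ : Finset F2) ×ˢ 𝒜) ≤ 2 ^ (v + 2) := by
    have k1 : #(univ.image A) ≤ 2 ^ v := card_image_le.trans (by
      rw [card_univ, Fintype.card_fun, ZMod.card, Fintype.card_coe]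
      exact Nat.pow_le_pow_right two_pos h.bord)
    have k2 : #𝒜 ≤ #(univ.image A) + 1 + 1 :=
      (card_insert_le _ _).trans (Nat.succ_le_succ (card_insert_le _ _))
    have k3 : 2 ^ 1 ≤ 2 ^ v := Nat.pow_le_pow_right two_pos (by omega)
    rw [card_product, card_univ, ZMod.card, pow_add]
    omega
  have k := pr_exists_le_card ((univ : Finset F2) ×ˢ 𝒜)
    (fun x (β : ι → F2) => 2 * cnt β x.2 x.1 + v ^ 7 < x.2.card)
    fun x _ => cond_tail x.2 x.1 (v ^ 7) (l := 1 / (v : ℝ) ^ 5) (by positivity)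
  refine (pr_mono fun β hβ => ?_).trans (k.trans ((mul_le_mul_of_nonneg_right
    (by exact_mod_cast hA) (Real.exp_pos _).le).trans (cond_num hv h.card)))
  by_contra e
  simp only [not_exists, not_and, not_lt, Prod.forall, mem_product, mem_univ, true_and] at e
  refine hβ ⟨fun b η h0 hη => ?_, fun b => e b _ (by simp [𝒜]), fun b => e b _ (by simp [𝒜])⟩
  have k1 := e b (A fun i => η i) (by simp [𝒜])
  have k2 : ∀ j, ∑ i : ↥Bᶜ, ρ j i * η i = ∑ i, ρ j i * η i := fun j => by
    rw [← sum_subset (subset_univ Bᶜ) fun i _ hi => by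
      rw [hη i (by simpa using hi), mul_zero]]
    exact sum_coe_sort Bᶜ fun i => ρ j i * η i
  have k3 : v ^ 9 ≤ #(A fun i => η i) := by
    simp only [A, k2]
    exact h.wit η h0 hη
  have k4 : v ^ 7 < v ^ 9 := Nat.pow_lt_pow_right (by omega) (by norm_num)
  obtain ⟨j, hj⟩ := card_pos.mp (show 0 < cnt β (A fun i => η i) b by omega)
  simp only [A, k2, mem_filter] at hj
  refine ⟨j, hj.1.1, hj.2, ?_⟩
  rw [← hj.1.2]
  refine sum_congr rfl fun i _ => ?_
  by_cases e' : j = i
  · rw [← e', hη j (mem_filter.mp hj.1.1).1, mul_zero, mul_zero]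
  · simp only [Rmat, if_neg e']

open Classical in
theorem card_goodBeta : ∃ v0 : ℕ, ∀ v, v0 ≤ v → ∀ (ι : Type) [Fintype ι] [DecidableEq ι]
    (B : Finset ι) (u w : ι → F2) (ρ : ι → ι → F2), Typ v B u w ρ →
    2 ^ #B ≤ 8 * #{β : ι → F2 | GoodBeta v B u w (Rmat u ρ) β} := by
  refine ⟨6, fun v hv ι _ _ B u w ρ h => ?_⟩
  have k1 := (sub_le_sub (cond_adm (by omega) h).ge (cond_bad hv h)).trans pr_and_ge
  have k2 := k1.trans (pr_mono (F := GoodBeta v B u w (Rmat u ρ)) fun β k =>
    ⟨k.1.1, k.1.2.1, k.1.2.2, k.2.1, k.2.2.1, k.2.2.2⟩)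
  rw [pr_eq_sum, sum_boole, Fintype.card_fun, ZMod.card, ← card_add_card_compl B,
    le_div_iff₀ (by positivity)] at k2
  have k3 : (1 : ℝ) / 2 ^ (v + 3) ≤ 1 / 2 ^ (#Bᶜ + 3) :=
    one_div_le_one_div_of_le (by positivity)
      (pow_le_pow_right₀ one_le_two (Nat.add_le_add_right h.bord 3))
  have k4 : (2 : ℝ) ^ #B = 8 * ((1 / 2 ^ (#Bᶜ + 2) - 1 / 2 ^ (#Bᶜ + 3)) *
      ((2 ^ (#B + #Bᶜ) : ℕ) : ℝ)) := by
    push_cast
    field_simp
    ring
  have k5 : (2 : ℝ) ^ #B ≤ 8 * (#{β : ι → F2 | GoodBeta v B u w (Rmat u ρ) β} : ℝ) := by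
    rw [k4]
    refine mul_le_mul_of_nonneg_left (le_trans ?_ k2) (by norm_num)
    exact mul_le_mul_of_nonneg_right (by linarith) (by positivity)
  exact_mod_cast k5

end Pool.Agent.Lib.MP_f8d36e_nt
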