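import Pool.Agent.Lib.MP_f8d36e_nt.Pr

/-! Job E8: the bordered matrix. -/

set_option autoImplicit false

open Matrix Finset

namespace Pool.Agent.Lib.MP_f8d36e_nt

section
variable {ι K : Type} [Fintype ι] [Field K]

/-- The correction of a kernel vector. -/
theorem eta_alg {J J0 : Finset ι} (hJ : J ⊆ J0) {β : ι → F2} {M M' : Matrix ι ι K}
    {c κ : F2 → F2 → K} {G vv : F2 → ι → K} {e : ι → K} (cs : ∀ b b', c b b' = c b' b)
    (hM : ∀ i j, M' i j = M i j + c (β i) (β j) *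
      (G (β j) i * e j + e i * G (β i) j + κ (β i) (β j) * e i * e j))
    (m1 : ∀ b, ∀ i ∈ J0, (M *ᵥ vv b) i = c (β i) b * G b i)
    (m2 : ∀ b, ∀ i ∈ J0, (Mᵀ *ᵥ vv b) i = c (β i) b * G b i)
    (sup : ∀ b j, j ∉ J0 → vv b j = 0)
    (ort : ∀ b (s : F2 → K), ∑ j, s (β j) * e j * vv b j = 0)
    (kap : ∀ b b', ∑ j, c b (β j) * G b j * vv b' j = c b b' * κ b b')
    {y : ι → K} (hy : y ∈ Ker J0 J M') : ∃ α : F2 → K, y + ∑ b, α b • vv b ∈ Ker J0 J0 M ∧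
      ∀ s : F2 → K, ∑ b, s b * α b = ∑ j, s (β j) * e j * (y + ∑ b, α b • vv b) j := by
  obtain ⟨α, hα⟩ : ∃ α : F2 → K, ∀ s : F2 → K, ∑ b, s b * α b = ∑ j, s (β j) * e j * y j :=
    ⟨fun b => ∑ j, if β j = b then e j * y j else 0, fun s => by
      simp only [mul_sum, mul_ite, mul_zero]
      rw [sum_comm]
      simp only [sum_ite_eq, mem_univ, if_true, mul_assoc]⟩
  have lin : ∀ w : ι → K, ∑ j, w j * (y + ∑ b, α b • vv b) j =
      ∑ j, w j * y j + ∑ b, α b * ∑ j, w j * vv b j := fun w => by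
    simp only [Pi.add_apply, Finset.sum_apply, Pi.smul_apply, smul_eq_mul, mul_add,
      sum_add_distrib, mul_sum]
    rw [sum_comm]
    simp only [mul_left_comm]
  obtain ⟨t, ht⟩ : ∃ t : F2 → K, ∀ b, t b = ∑ j, c b (β j) * G b j * y j +
      ∑ j, c b (β j) * κ b (β j) * e j * y j := ⟨_, fun _ => rfl⟩
  obtain ⟨z, hz⟩ : ∃ z, z = y + ∑ b, α b • vv b := ⟨_, rfl⟩
  have z0 : ∀ j, j ∉ J0 → z j = 0 := fun j hj => by
    simp [hz, Finset.sum_apply, sup _ j hj, hy.1 j fun h => hj (hJ h)]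
  have z1 : ∀ i ∈ J0, (M *ᵥ z) i = -t (β i) * e i := fun i hi => by
    have a1 := hy.2 i hi
    have a2 := hα fun b => c (β i) b * G b i
    have a3 : ∀ b, ∑ j, M i j * vv b j = c (β i) b * G b i := fun b => m1 b i hi
    have a4 : (M' *ᵥ y) i = ∑ j, M i j * y j + ∑ j, c (β i) (β j) * G (β j) i * e j * y j +
        t (β i) * e i := by
      rw [ht, add_mul, sum_mul, sum_mul, ← sum_add_distrib, ← sum_add_distrib, ← sum_add_distrib]
      exact sum_congr rfl fun j _ => by simp only [hM]; ring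
    have a5 := lin (M i)
    simp only [a3, mul_comm (α _)] at a5
    rw [← hz] at a5
    have a6 : (M *ᵥ z) i = ∑ j, M i j * z j := rfl
    linear_combination a6 + a5 + a2 - a4 + a1
  have z2 : ∀ b, t b = 0 := fun b => by
    have a1 : vv b ⬝ᵥ M *ᵥ z = 0 := by
      rw [← ort b fun b => -t b]
      refine sum_congr rfl fun i _ => ?_
      by_cases hi : i ∈ J0
      · rw [z1 i hi, mul_comm]
      · rw [sup b i hi, zero_mul, mul_zero]
    have a2 : vv b ⬝ᵥ M *ᵥ z = ∑ j, c b (β j) * G b j * z j := by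
      rw [dotProduct_mulVec, ← mulVec_transpose]
      refine sum_congr rfl fun i _ => ?_
      by_cases hi : i ∈ J0
      · rw [m2 b i hi, cs]
      · rw [z0 i hi, mul_zero, mul_zero]
    rw [a1, hz, lin] at a2
    simp only [kap, mul_comm (α _)] at a2
    rw [ht, ← hα fun b' => c b b' * κ b b', a2]
  refine ⟨α, hz ▸ ⟨z0, fun i hi => by rw [z1 i hi, z2, neg_zero, zero_mul]⟩, fun s => ?_⟩
  rw [lin, hα]
  simp only [ort, mul_zero, sum_const_zero, add_zero]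

/-- The change of the random matrix. -/
def etaD (β : ι → F2) (v g : F2 → ι → F2) (η : ι → F2) : Matrix ι ι F2 := fun i j =>
  g (β j) i * η j + η i * g (β i) j + v (β i) ⬝ᵥ g (β j) * η i * η j

/-- The admissible shifts. -/
def etaT (B : Finset ι) (v : F2 → ι → F2) : AddSubgroup (ι → F2) where
  carrier := {η | (∀ j, j ∉ B → η j = 0) ∧ ∀ b, η ⬝ᵥ v b = 0}
  zero_mem' := ⟨fun _ _ => rfl, fun _ => zero_dotProduct _⟩
  add_mem' := fun {a b} ha hb => ⟨fun j h => by simp [ha.1 j h, hb.1 j h],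
    fun c => by simp [ha.2 c, hb.2 c]⟩
  neg_mem' := fun {a} ha => ⟨fun j h => by simp [ha.1 j h], fun c => by simp [ha.2 c]⟩

variable {B : Finset ι} {β : ι → F2} {v γ : F2 → ι → F2}

theorem eta_v (hv : ∀ b j, v b j ≠ 0 → j ∈ B ∧ β j = b) (F : F2 → F2) (w : ι → F2) (b : F2) :
    ∑ j, F (β j) * w j * v b j = F b * w ⬝ᵥ v b := by
  rw [dotProduct, mul_sum]
  refine sum_congr rfl fun j _ => ?_
  by_cases h : v b j = 0
  · simp [h]
  · rw [(hv b j h).2, mul_assoc]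

theorem eta_sym (hs : ∀ b b', v b ⬝ᵥ γ b' = v b' ⬝ᵥ γ b) (S : Sym B) (b b' : F2) :
    v b ⬝ᵥ (γ b' + S.1 *ᵥ v b') = v b' ⬝ᵥ (γ b + S.1 *ᵥ v b) := by
  have : S.1ᵀ = S.1 := Matrix.ext fun i j => S.2.1 j i
  rw [dotProduct_add, dotProduct_add, hs, dotProduct_mulVec, ← mulVec_transpose, this,
    dotProduct_comm (S.1 *ᵥ _)]

theorem eta_g0 (hγ : ∀ b j, γ b j ≠ 0 → j ∈ B) (S : Sym B) (b : F2) {i : ι} (hi : i ∉ B) :
    (γ b + S.1 *ᵥ v b) i = 0 := by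
  simp [mulVec, dotProduct, S.2.2 i _ hi, not_not.1 (mt (hγ b i) hi)]

/-- The involution. -/
def etaF (β : ι → F2) (hγ : ∀ b j, γ b j ≠ 0 → j ∈ B) (hs : ∀ b b', v b ⬝ᵥ γ b' = v b' ⬝ᵥ γ b)
    (η : etaT B v) (S : Sym B) : Sym B :=
  S + ⟨etaD β v (fun b => γ b + S.1 *ᵥ v b) η.1, fun i j => by
    simp only [etaD, eta_sym hs S (β i)]
    ring, fun i j hi => by simp only [etaD, eta_g0 hγ S _ hi, η.2.1 i hi]; ring⟩

theorem eta_inv (hv : ∀ b j, v b j ≠ 0 → j ∈ B ∧ β j = b) (hγ : ∀ b j, γ b j ≠ 0 → j ∈ B)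
    (hs : ∀ b b', v b ⬝ᵥ γ b' = v b' ⬝ᵥ γ b) (η : etaT B v) :
    Function.Involutive (etaF β hγ hs η) := by
  intro S
  obtain ⟨g, hg⟩ : ∃ g, g = fun b => γ b + S.1 *ᵥ v b := ⟨_, rfl⟩
  have a0 : ∀ b b', v b ⬝ᵥ g b' = v b' ⬝ᵥ g b := hg ▸ eta_sym hs S
  have a1 : ∀ b i, (γ b + (S.1 + etaD β v g η.1) *ᵥ v b) i = g b i + v (β i) ⬝ᵥ g b * η.1 i := by
    intro b i
    have k1 := eta_v hv (fun c => g c i) η.1 b
    have k2 := eta_v hv (fun c => v (β i) ⬝ᵥ g c * η.1 i) η.1 b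
    rw [η.2.2, mul_zero] at k1 k2
    have k3 : (etaD β v g η.1 *ᵥ v b) i = ∑ j, g (β j) i * η.1 j * v b j +
        η.1 i * g (β i) ⬝ᵥ v b + ∑ j, v (β i) ⬝ᵥ g (β j) * η.1 i * η.1 j * v b j := by
      rw [dotProduct, mul_sum, ← sum_add_distrib, ← sum_add_distrib]
      exact sum_congr rfl fun j _ => by simp only [etaD]; ring
    rw [add_mulVec, ← add_assoc, Pi.add_apply, k3, k1, k2, dotProduct_comm, a0, hg]
    ring
  have a2 : ∀ b b', v b ⬝ᵥ (γ b' + (S.1 + etaD β v g η.1) *ᵥ v b') = v b ⬝ᵥ g b' := by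
    intro b b'
    have k1 := eta_v hv (fun c => v c ⬝ᵥ g b') η.1 b
    rw [η.2.2, mul_zero] at k1
    rw [← add_zero (v b ⬝ᵥ g b'), ← k1, dotProduct, dotProduct, ← sum_add_distrib]
    exact sum_congr rfl fun j _ => by rw [a1]; ring
  refine Subtype.ext (Matrix.ext fun i j => ?_)
  change S.1 i j + etaD β v (fun b => γ b + S.1 *ᵥ v b) η.1 i j + etaD β v (fun b => γ b +
    (S.1 + etaD β v (fun b => γ b + S.1 *ᵥ v b) η.1) *ᵥ v b) η.1 i j = S.1 i j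
  rw [← hg, etaD, etaD, a1, a1, a2, a0 (β j)]
  linear_combination (g (β j) i * η.1 j + η.1 i * g (β i) j +
    2 * (v (β i) ⬝ᵥ g (β j) * η.1 i * η.1 j)) * (by decide : (2 : F2) = 0)

variable [Algebra F2 K] [DecidableEq ι] {st : ι}

theorem eta_vv (hv : ∀ b j, v b j ≠ 0 → j ∈ B ∧ β j = b) (F : F2 → K) {w : ι → F2}
    (hw : w st = 0) (b : F2) (r : K) : ∑ j, F (β j) * algebraMap F2 K (w j) *
      ((fun j => algebraMap F2 K (v b j)) + Pi.single st r : ι → K) j =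
        F b * algebraMap F2 K (w ⬝ᵥ v b) := by
  rw [dotProduct, map_sum, mul_sum]
  refine sum_congr rfl fun j _ => ?_
  by_cases hj : j = st
  · simp [hj, hw]
  by_cases h : v b j = 0
  · simp [h, hj]
  · simp [(hv b j h).2, mul_assoc, hj]

theorem eta_mv (hv : ∀ b j, v b j ≠ 0 → j ∈ B ∧ β j = b) (hst' : st ∉ B) (S : Sym B) (x : K)
    (Ψ : Matrix ι ι K) (b : F2) (r : K) (i : ι)
    (h : (Ψ *ᵥ ((fun j => algebraMap F2 K (v b j)) + Pi.single st r)) i =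
      cf 1 x (β i) b * algebraMap F2 K (γ b i)) :
    (mat β 1 x Ψ S *ᵥ ((fun j => algebraMap F2 K (v b j)) + Pi.single st r)) i =
      cf 1 x (β i) b * algebraMap F2 K ((γ b + S.1 *ᵥ v b) i) := by
  have := eta_vv hv (cf 1 x (β i)) (w := S.1 i) ((S.2.1 i st).trans (S.2.2 st i hst')) b r
  rw [Pi.add_apply, map_add, mul_add, ← h, mulVec, mulVec, mulVec, ← this, dotProduct, dotProduct,
    ← sum_add_distrib]
  exact sum_congr rfl fun j _ => add_mul _ _ _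

omit [DecidableEq ι] in
theorem eta_mat (hγ : ∀ b j, γ b j ≠ 0 → j ∈ B) (hs : ∀ b b', v b ⬝ᵥ γ b' = v b' ⬝ᵥ γ b)
    (x : K) (Ψ : Matrix ι ι K) (S : Sym B) (η : etaT B v) (i j : ι) :
    mat β 1 x Ψ (etaF β hγ hs η S) i j = mat β 1 x Ψ S i j + cf 1 x (β i) (β j) *
      (algebraMap F2 K ((γ (β j) + S.1 *ᵥ v (β j)) i) * algebraMap F2 K (η.1 j) +
        algebraMap F2 K (η.1 i) * algebraMap F2 K ((γ (β i) + S.1 *ᵥ v (β i)) j) +
        algebraMap F2 K (v (β i) ⬝ᵥ (γ (β j) + S.1 *ᵥ v (β j))) * algebraMap F2 K (η.1 i) *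
          algebraMap F2 K (η.1 j)) := by
  have e : (etaF β hγ hs η S).1 i j = S.1 i j + etaD β v (fun b => γ b + S.1 *ᵥ v b) η.1 i j := rfl
  simp only [mat, Matrix.of_apply, e, etaD, map_add, map_mul]
  ring

theorem eta_det {J0 : Finset ι} (hB : B ⊆ J0) (hst : st ∈ J0) (hst' : st ∉ B)
    (hv : ∀ b j, v b j ≠ 0 → j ∈ B ∧ β j = b) (hγ : ∀ b j, γ b j ≠ 0 → j ∈ B)
    (hs : ∀ b b', v b ⬝ᵥ γ b' = v b' ⬝ᵥ γ b) {x : K} {Ψ : Matrix ι ι K}
    (h1 : ∀ b, ∀ i ∈ J0, (Ψ *ᵥ ((fun j => algebraMap F2 K (v b j)) + Pi.single st (cf 1 x 1 b))) i =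
      cf 1 x (β i) b * algebraMap F2 K (γ b i))
    (h2 : ∀ b, ∀ i ∈ J0, (Ψᵀ *ᵥ ((fun j => algebraMap F2 K (v b j)) + Pi.single st (cf 1 x 1 b))) i =
      cf 1 x (β i) b * algebraMap F2 K (γ b i)) (S : Sym B) (η : etaT B v)
    (hx : Ker J0 (J0.erase st) (mat β 1 x Ψ (etaF β hγ hs η S)) ≠ ⊥) :
    ∃ z ∈ Ker J0 J0 (mat β 1 x Ψ S), z ≠ 0 ∧
      ∑ j, cf 1 x 1 (β j) * algebraMap F2 K (η.1 j) * z j = z st := by
  have v0 : ∀ b, v b st = 0 := fun b => not_not.1 fun h => hst' (hv b st h).1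
  obtain ⟨y, hy, y0⟩ := (Submodule.ne_bot_iff _).1 hx
  obtain ⟨α, k1, k2⟩ := eta_alg (erase_subset st J0)
    (κ := fun b b' => algebraMap F2 K (v b ⬝ᵥ (γ b' + S.1 *ᵥ v b')))
    (G := fun b i => algebraMap F2 K ((γ b + S.1 *ᵥ v b) i))
    (vv := fun b => (fun j => algebraMap F2 K (v b j)) + Pi.single st (cf 1 x 1 b))
    (e := fun j => algebraMap F2 K (η.1 j)) (fun b b' => by simp only [cf, eq_comm])
    (eta_mat hγ hs x Ψ S η) (fun b i hi => eta_mv hv hst' S x _ b _ i (h1 b i hi))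
    (fun b i hi => by rw [mat_transpose]; exact eta_mv hv hst' S x _ b _ i (h2 b i hi))
    (fun b j hj => by
      simp [not_not.1 fun h => hj (hB (hv b j h).1), show j ≠ st from fun h => hj (h ▸ hst)])
    (fun b s => by rw [eta_vv hv s (η.2.1 st hst'), η.2.2, map_zero, mul_zero])
    (fun b b' => by
      rw [eta_vv hv (cf 1 x b) (eta_g0 hγ S b hst'), dotProduct_comm, eta_sym hs]) hy
  refine ⟨_, k1, fun h => y0 ?_, ?_⟩
  · have a : ∀ b, α b = 0 := fun b => by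
      have := k2 (Pi.single b 1)
      rw [h] at this
      simpa [Pi.single_apply] using this
    simpa [a] using h
  · rw [← k2]
    simp [Finset.sum_apply, hy.1 st (notMem_erase st J0), v0, mul_comm]

omit [DecidableEq ι] in
/-- The linear condition on the shift is unlikely. -/
theorem eta_pr (hv : ∀ b j, v b j ≠ 0 → j ∈ B ∧ β j = b) {c : F2 → K} (hc : ∀ b, c b ≠ 0)
    {y : ι → K} {σ : ℕ} {b : F2} (h : 2 ^ σ < Nat.card (Vs B β b y)) (r : K) :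
    pr (fun η : etaT B v => ∑ j, c (β j) * algebraMap F2 K (η.1 j) * y j = r) ≤ 4 / 2 ^ σ := by
  obtain ⟨φ, hφ⟩ : ∃ φ : etaT B v →+ K,
      ∀ η, φ η = ∑ j, c (β j) * algebraMap F2 K (η.1 j) * y j :=
    ⟨AddMonoidHom.mk' (fun η => ∑ j, c (β j) * algebraMap F2 K (η.1 j) * y j) fun η η' => by
      simp [mul_add, add_mul, sum_add_distrib], fun _ => rfl⟩
  simp only [← hφ]
  refine (pr_hom_le φ r).trans ?_
  obtain ⟨ε0, e1, e2⟩ : ∃ ε0 : ι → F2, (∀ j, ε0 j ≠ 0 → j ∈ B ∧ β j = b) ∧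
      ∀ ε : ι → F2, (∀ j, ε j ≠ 0 → j ∈ B ∧ β j = b) → ε ⬝ᵥ v b = ε ⬝ᵥ v b * ε0 ⬝ᵥ v b := by
    by_cases h0 : ∃ ε0 : ι → F2, (∀ j, ε0 j ≠ 0 → j ∈ B ∧ β j = b) ∧ ε0 ⬝ᵥ v b ≠ 0
    · obtain ⟨ε0, e1, e2⟩ := h0
      exact ⟨ε0, e1, fun ε _ => (by decide : ∀ s t : F2, t ≠ 0 → s = s * t) _ _ e2⟩
    · push Not at h0
      exact ⟨0, fun j hj => absurd rfl hj, fun ε hε => by rw [h0 ε hε, zero_mul]⟩
  have key : ∀ z : Vs B β b y, ∃ p : φ.range × F2,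
      c b * (z.1 - algebraMap F2 K p.2 * ∑ j, algebraMap F2 K (ε0 j) * y j) = p.1.1 := by
    intro z
    obtain ⟨ε, e3, e4⟩ := mem_Vs.1 z.2
    have s1 : ∀ j, (ε - (ε ⬝ᵥ v b) • ε0) j ≠ 0 → j ∈ B ∧ β j = b := fun j hj => by
      by_contra hn
      simp [not_not.1 (mt (e1 j) hn), not_not.1 (mt (e3 j) hn)] at hj
    refine ⟨(⟨φ ⟨ε - (ε ⬝ᵥ v b) • ε0, fun j hj => not_not.1 fun k => hj (s1 j k).1, fun b' => ?_⟩,
      _, rfl⟩, ε ⬝ᵥ v b), ?_⟩
    · by_cases hb : b' = b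
      · rw [hb, sub_dotProduct, smul_dotProduct, smul_eq_mul, ← e2 ε e3, sub_self]
      · refine sum_eq_zero fun j _ => ?_
        by_contra hn
        exact hb ((hv b' j (right_ne_zero_of_mul hn)).2.symm.trans
          (s1 j (left_ne_zero_of_mul hn)).2)
    · dsimp only
      rw [hφ, e4, mul_sum, ← sum_sub_distrib, mul_sum]
      refine sum_congr rfl fun j _ => ?_
      have e5 : algebraMap F2 K (ε j) * y j - algebraMap F2 K (ε ⬝ᵥ v b) *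
          (algebraMap F2 K (ε0 j) * y j) = algebraMap F2 K ((ε - (ε ⬝ᵥ v b) • ε0) j) * y j := by
        simp only [Pi.sub_apply, Pi.smul_apply, smul_eq_mul, map_sub, map_mul]
        ring
      dsimp only
      rw [e5, mul_assoc]
      by_cases hj : (ε - (ε ⬝ᵥ v b) • ε0) j = 0
      · rw [hj, map_zero, zero_mul, mul_zero, mul_zero]
      · rw [(s1 j hj).2]
  choose p hp using key
  have : Finite φ.range := Finite.of_surjective _ φ.rangeRestrict_surjective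
  have h1 := Nat.card_le_card_of_injective p fun z z' e => Subtype.ext (by
    have := (hp z).trans (e ▸ (hp z').symm)
    exact sub_left_injective (mul_left_cancel₀ (hc b) this))
  rw [Nat.card_prod, Nat.card_zmod] at h1
  have h2 : (2 : ℝ) ^ σ ≤ Nat.card φ.range * 2 := by exact_mod_cast h.le.trans h1
  have h3 : (0 : ℝ) < Nat.card φ.range := by exact_mod_cast Nat.card_pos
  rw [div_le_div_iff₀ h3 (by positivity)]
  linarith

end

theorem eta {ι K : Type} [Fintype ι] [DecidableEq ι] [Field K] [Algebra F2 K]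
    {B J0 : Finset ι} {β : ι → F2} {Ψ0 Ψ1 : Matrix ι ι K} {x1 : K} {σ : ℕ} {st : ι}
    (hB : B ⊆ J0) (hst : st ∈ J0) (hst' : st ∉ B) (v γ : F2 → ι → F2)
    (hv : ∀ b j, v b j ≠ 0 → j ∈ B ∧ β j = b) (hγ : ∀ b j, γ b j ≠ 0 → j ∈ B)
    (hs : ∀ b b', v b ⬝ᵥ γ b' = v b' ⬝ᵥ γ b)
    (h1 : ∀ x b, ∀ i ∈ J0, ((Ψ0 + x • Ψ1) *ᵥ
      ((fun j => algebraMap F2 K (v b j)) + Pi.single st (cf 1 x 1 b))) i =
        cf 1 x (β i) b * algebraMap F2 K (γ b i))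
    (h2 : ∀ x b, ∀ i ∈ J0, ((Ψ0 + x • Ψ1)ᵀ *ᵥ
      ((fun j => algebraMap F2 K (v b j)) + Pi.single st (cf 1 x 1 b))) i =
        cf 1 x (β i) b * algebraMap F2 K (γ b i)) :
    pr (fun S : Sym B => ∃ x, x ≠ 0 ∧ Ker J0 (J0.erase st) (pen β Ψ0 Ψ1 x S) ≠ ⊥) ≤
      pr (fun S : Sym B => ¬ Good σ x1 B J0 β Ψ0 Ψ1 S) +
      pr (fun S : Sym B => Mult J0 β Ψ0 Ψ1 S) + 4 * #J0 / 2 ^ σ := by
  refine (pr_avg_le (F := fun S : Sym B => ¬ Good σ x1 B J0 β Ψ0 Ψ1 S ∨ Mult J0 β Ψ0 Ψ1 S)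
    (etaF β hγ hs) (fun η => (eta_inv hv hγ hs η).bijective) (by positivity) fun S hS => ?_).trans
    (add_le_add pr_or_le le_rfl)
  rw [not_or, not_not] at hS
  obtain ⟨X, x1, x2⟩ := card_sing (pen_eq β Ψ0 Ψ1 x1 S ▸ hS.1.1)
  simp only [← pen_eq] at x2
  refine (pr_mono (F := fun η : etaT B v => ∃ x ∈ X, x ≠ 0 ∧ ∃ z ∈ Ker J0 J0 (pen β Ψ0 Ψ1 x S),
    z ≠ 0 ∧ ∑ j, cf 1 x 1 (β j) * algebraMap F2 K (η.1 j) * z j = z st) ?_).trans
    ((pr_exists_le_card X _ (ε := 4 / 2 ^ σ) fun x _ => ?_).trans ?_)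
  · rintro η ⟨x, x0, hx⟩
    obtain ⟨z, k1, k2, k3⟩ := eta_det hB hst hst' hv hγ hs (h1 x) (h2 x) S η hx
    exact ⟨x, x2 x ((Submodule.ne_bot_iff _).2 ⟨_, k1, k2⟩), x0, z, k1, k2, k3⟩
  · by_cases x0 : x = 0
    · rw [pr_eq_zero fun _ h => h.1 x0]
      positivity
    obtain ⟨y, hy⟩ := finrank_le_one_iff.1
      (Nat.lt_succ_iff.1 (not_le.1 fun h => hS.2 ⟨x, x0, h⟩))
    have hc : ∀ b, cf 1 x 1 b ≠ 0 := fun b => by
      unfold cf
      split_ifs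
      exacts [one_ne_zero, x0]
    have mul : ∀ z ∈ Ker J0 J0 (pen β Ψ0 Ψ1 x S), ∃ r : K, z = r • y.1 := fun z hz =>
      (hy ⟨z, hz⟩).imp fun r hr => (congrArg Subtype.val hr).symm
    by_cases y0 : y.1 = 0
    · rw [pr_eq_zero fun _ ⟨_, z, a1, a2, _⟩ => a2 (by simpa [y0] using mul z a1)]
      positivity
    refine (pr_mono (F := fun η : etaT B v =>
      ∑ j, cf 1 x 1 (β j) * algebraMap F2 K (η.1 j) * y.1 j = y.1 st) ?_).trans
      ((hS.1.2 x x0 _ y.2 y0).elim (eta_pr hv hc · _) (eta_pr hv hc · _))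
    rintro η ⟨-, z, a1, a2, a3⟩
    obtain ⟨r, rfl⟩ := mul z a1
    refine mul_left_cancel₀ (left_ne_zero_of_smul a2) ?_
    rw [mul_sum]
    simpa only [Pi.smul_apply, smul_eq_mul, mul_left_comm _ r] using a3
  · rw [mul_div_assoc', mul_comm]
    gcongr

end Pool.Agent.Lib.MP_f8d36e_nt
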