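import Pool.Agent.Lib.MP_f8d36e_nt.Pr

/-! Job E9: nonsingularity over the field with two elements. -/

set_option autoImplicit false

open Matrix Finset

namespace Pool.Agent.Lib.MP_f8d36e_nt

section
variable {ι : Type} [Fintype ι] [DecidableEq ι] {B J W : Finset ι} {Ψ M : Matrix ι ι F2} {i0 : ι}

theorem nons_one {a : F2} (h : a ≠ 0) : a = 1 := by revert a; decide

theorem nons_add (a : F2) : a + a = 0 := by revert a; decide

/-- The symmetric matrix with row and column `i0` equal to `t`. -/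
def nonsRc (i0 : ι) (t : ι → F2) : Matrix ι ι F2 :=
  Matrix.of fun i j => if i = i0 then t j else if j = i0 then t i else 0

theorem nons_rc_mulVec (i0 : ι) (t y : ι → F2) (i : ι) :
    (nonsRc i0 t *ᵥ y) i = if i = i0 then t ⬝ᵥ y else t i * y i0 := by
  by_cases h : i = i0 <;> simp [nonsRc, mulVec, dotProduct, h]

omit [Fintype ι] in
theorem nons_rc_mem (h0 : i0 ∈ B) {t : ι → F2} (ht : ∀ j, j ∉ B → t j = 0) :
    nonsRc i0 t ∈ Sym B := by
  refine ⟨fun i j => ?_, fun i j hi => ?_⟩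
  · by_cases h : i = i0 <;> by_cases h' : j = i0 <;> simp [nonsRc, h, h']
  · have h : i ≠ i0 := fun e => hi (e ▸ h0)
    simp [nonsRc, h, ht i hi]

omit [DecidableEq ι] in
theorem nons_zero (hI : Inj B W J Ψ) (S : Sym B) {y : ι → F2} (h1 : ∀ j, j ∉ J → y j = 0)
    (h2 : ∀ j ∈ B, y j = 0) (h3 : ∀ j ∈ W, ((Ψ + S.1) *ᵥ y) j = 0) : y = 0 := by
  refine hI y ⟨h1, fun j hj => ?_⟩ h2
  have h4 : (S.1 *ᵥ y) j = 0 := Finset.sum_eq_zero fun i _ => by
    by_cases h : i ∈ B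
    · rw [h2 i h, mul_zero]
    · exact mul_eq_zero_of_left ((S.2.1 j i).trans (S.2.2 i j h)) _
  have := h3 j hj
  rwa [add_mulVec, Pi.add_apply, h4, add_zero] at this

theorem nons_symm (hs : ∀ j ∈ insert i0 W, ∀ i ∈ J, Ψ j i = Ψ i j) (S : Sym B) {y : ι → F2}
    (h1 : ∀ j, j ∉ J → y j = 0) {j : ι} (hj : j ∈ insert i0 W) :
    ((Ψ + S.1)ᵀ *ᵥ y) j = ((Ψ + S.1) *ᵥ y) j := Finset.sum_congr rfl fun i _ => by
  by_cases h : i ∈ J
  · simp only [transpose_apply, Matrix.add_apply, hs j hj i h, S.2.1 i j]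
  · simp only [h1 i h, mul_zero]

theorem nons_card (hB : B ⊆ J) (hW : W ⊆ B) (h0 : i0 ∈ B) (h0' : i0 ∉ W)
    (hs : ∀ j ∈ insert i0 W, ∀ i ∈ J, Ψ j i = Ψ i j) (hI : Inj B W J Ψ) :
    Nat.card (Ker (J \ B) (J.erase i0) Ψ) ≤ 2 ^ (#B - 1) := by
  let A : Matrix (J \ B : Finset ι) (J.erase i0) F2 := Ψ.submatrix Subtype.val Subtype.val
  have hA : LinearIndependent F2 A.row := Fintype.linearIndependent_iff.2 fun g hg i => by
    have h1 : (fun j => if h : j ∈ J \ B then g ⟨j, h⟩ else 0) = 0 := by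
      refine hI _ ⟨fun j hj => dif_neg fun h => hj (mem_sdiff.1 h).1, fun j hj => ?_⟩
        fun j hj => dif_neg fun h => (mem_sdiff.1 h).2 hj
      have h2 := congrFun hg ⟨j, mem_erase.2 ⟨fun e => h0' (e ▸ hj), hB (hW hj)⟩⟩
      rw [Finset.sum_apply, Pi.zero_apply] at h2
      refine Eq.trans ?_ h2
      rw [mulVec, dotProduct, ← sum_subset (subset_univ (J \ B)) fun i _ hi => by
        rw [dif_neg hi, mul_zero], ← sum_coe_sort]
      refine sum_congr rfl fun i _ => ?_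
      rw [dif_pos i.2, hs j (mem_insert_of_mem hj) i (mem_sdiff.1 i.2).1, mul_comm]
      rfl
    have := congrFun h1 i
    rwa [dif_pos i.2] at this
  have h1 := A.mulVecLin.finrank_range_add_finrank_ker
  have h2 : Module.finrank F2 (LinearMap.range A.mulVecLin) = _ := hA.rank_matrix
  rw [h2, Module.finrank_fintype_fun_eq_card, Fintype.card_coe, Fintype.card_coe,
    card_erase_of_mem (hB h0), card_sdiff_of_subset hB] at h1
  have h3 := card_le_card hB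
  have h4 := card_pos.2 ⟨i0, h0⟩
  have h5 : Nat.card (LinearMap.ker A.mulVecLin) = 2 ^ (#B - 1) := by
    rw [Module.natCard_eq_pow_finrank (K := F2), Nat.card_zmod]
    congr 1
    omega
  rw [← h5]
  refine Nat.card_le_card_of_injective (fun y => ⟨fun j => y.1 j.1, funext fun i => ?_⟩)
    fun y y' e => Subtype.ext (funext fun j => ?_)
  · rw [Pi.zero_apply, ← y.2.2 i i.2, mulVec, dotProduct, ← sum_subset (subset_univ (J.erase i0))
      fun j _ hj => by rw [y.2.1 j hj, mul_zero], ← sum_coe_sort]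
    rfl
  · by_cases h : j ∈ J.erase i0
    · exact congrFun (congrArg Subtype.val e) ⟨j, h⟩
    · rw [y.2.1 j h, y'.2.1 j h]

theorem nons_term (hB : B ⊆ J) {y : ι → F2} {j : ι} (hj : j ∈ B) (hy : y j = 1) :
    pr (fun S : Sym B => y ∈ Ker (J.erase i0) (J.erase i0) (Ψ + S.1)) ≤ 1 / 2 ^ #(B.erase i0) := by
  let φ : Sym B →+ (B.erase i0 → F2) := AddMonoidHom.mk' (fun S i => (S.1 *ᵥ y) i.1)
    fun S S' => funext fun i => by simp [add_mulVec]
  have h1 : φ.range = ⊤ := AddMonoidHom.range_eq_top.2 fun a => by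
    obtain ⟨b, b1, b2⟩ : ∃ b : ι → F2, (∀ i : B.erase i0, b i = a i) ∧ ∀ i, i ∉ B → b i = 0 :=
      ⟨fun i => if h : i ∈ B.erase i0 then a ⟨i, h⟩ else 0, fun i => dif_pos i.2,
        fun i hi => dif_neg fun h => hi (mem_of_mem_erase h)⟩
    refine ⟨⟨nonsRc j (b + Pi.single j (b j + b ⬝ᵥ y)), nons_rc_mem hj fun i hi => ?_⟩,
      funext fun i => ?_⟩
    · rw [Pi.add_apply, b2 i hi, Pi.single_eq_of_ne fun e => hi (by rw [e]; exact hj), add_zero]
    · refine (nons_rc_mulVec _ _ _ _).trans ?_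
      rw [← b1 i]
      split_ifs with h
      · rw [add_dotProduct, single_dotProduct, hy, h]
        linear_combination nons_add (b ⬝ᵥ y)
      · rw [Pi.add_apply, Pi.single_eq_of_ne h, hy, add_zero, mul_one]
  have h2 := pr_hom_le φ fun i => -(Ψ *ᵥ y) i.1
  rw [h1, AddSubgroup.card_top, Nat.card_fun, Nat.card_zmod, Nat.card_eq_fintype_card,
    Fintype.card_coe] at h2
  push_cast at h2
  refine (pr_mono fun S hS => funext fun i => ?_).trans h2
  have := hS.2 i (erase_subset_erase i0 hB i.2)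
  rw [add_mulVec, Pi.add_apply] at this
  exact eq_neg_of_add_eq_zero_right this

theorem nons_first (hB : B ⊆ J) (hW : W ⊆ B) (h0 : i0 ∈ B) (h0' : i0 ∉ W)
    (hs : ∀ j ∈ insert i0 W, ∀ i ∈ J, Ψ j i = Ψ i j) (hI : Inj B W J Ψ) :
    ∑ y ∈ univ.erase (0 : ι → F2),
      pr (fun S : Sym B => y ∈ Ker (J.erase i0) (J.erase i0) (Ψ + S.1)) ≤ 1 := by
  classical
  have h1 : ∀ y ∈ univ.erase (0 : ι → F2),
      pr (fun S : Sym B => y ∈ Ker (J.erase i0) (J.erase i0) (Ψ + S.1)) ≤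
        if y ∈ Ker (J \ B) (J.erase i0) Ψ then 1 / 2 ^ (#B - 1) else 0 := fun y hy => by
    split_ifs with h
    · by_cases k : ∀ j ∈ B, y j = 0
      · rw [pr_eq_zero fun S hS => ne_of_mem_erase hy (nons_zero hI S
          (fun j hj => hS.1 j fun e => hj (mem_of_mem_erase e)) k fun j hj =>
            hS.2 j (mem_erase.2 ⟨fun e => h0' (e ▸ hj), hB (hW hj)⟩))]
        positivity
      · push Not at k
        obtain ⟨j, hj, k⟩ := k
        rw [← card_erase_of_mem h0]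
        exact nons_term hB hj (nons_one k)
    · refine (pr_eq_zero fun S hS => h ⟨hS.1, fun i hi => ?_⟩).le
      obtain ⟨a, b⟩ := mem_sdiff.1 hi
      have h2 := hS.2 i (mem_erase.2 ⟨fun e => b (e ▸ h0), a⟩)
      have h3 : (S.1 *ᵥ y) i = 0 := sum_eq_zero fun j _ => mul_eq_zero_of_left (S.2.2 i j b) _
      rwa [add_mulVec, Pi.add_apply, h3, add_zero] at h2
  refine (sum_le_sum h1).trans ((sum_le_sum_of_subset_of_nonneg (subset_univ _)
    fun _ _ _ => by positivity).trans ?_)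
  have h2 := nons_card hB hW h0 h0' hs hI
  rw [Nat.card_eq_fintype_card, Fintype.card_subtype] at h2
  rw [← sum_filter, sum_const, nsmul_eq_mul, mul_one_div, div_le_one (by positivity)]
  exact_mod_cast h2

theorem nons_drop {t y : ι → F2} (hy : y ∈ Ker J J (M + nonsRc i0 t)) (h : y i0 = 0) :
    y ∈ Ker (J.erase i0) (J.erase i0) M := by
  refine ⟨fun j hj => ?_, fun i hi => ?_⟩
  · by_cases e : j = i0
    · rw [e, h]
    · exact hy.1 j fun k => hj (mem_erase.2 ⟨e, k⟩)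
  · have := hy.2 i (mem_of_mem_erase hi)
    rwa [add_mulVec, Pi.add_apply, nons_rc_mulVec, if_neg (ne_of_mem_erase hi), h, mul_zero,
      add_zero] at this

theorem nons_case0 (h0 : i0 ∈ J) (hK : Ker (J.erase i0) (J.erase i0) M = ⊥) (t : ι → F2) :
    Ker J J (M + nonsRc i0 t) = ⊥ ∨ Ker J J (M + nonsRc i0 (t + Pi.single i0 1)) = ⊥ := by
  by_contra! k
  obtain ⟨y, hy, y0⟩ := Submodule.exists_mem_ne_zero_of_ne_bot k.1
  obtain ⟨z, hz, z0⟩ := Submodule.exists_mem_ne_zero_of_ne_bot k.2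
  have y1 : y i0 = 1 := nons_one fun e => y0 ((Submodule.eq_bot_iff _).1 hK y (nons_drop hy e))
  have z1 : z i0 = 1 := nons_one fun e => z0 ((Submodule.eq_bot_iff _).1 hK z (nons_drop hz e))
  have h1 : y - z = 0 := (Submodule.eq_bot_iff _).1 hK _ ⟨fun j hj => by
    by_cases e : j = i0
    · rw [e, Pi.sub_apply, y1, z1, sub_self]
    · have h : j ∉ J := fun k => hj (mem_erase.2 ⟨e, k⟩)
      rw [Pi.sub_apply, hy.1 j h, hz.1 j h, sub_self], fun i hi => by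
    have a := hy.2 i (mem_of_mem_erase hi)
    have b := hz.2 i (mem_of_mem_erase hi)
    rw [add_mulVec, Pi.add_apply, nons_rc_mulVec, if_neg (ne_of_mem_erase hi)] at a b
    rw [Pi.add_apply, Pi.single_eq_of_ne (ne_of_mem_erase hi), z1] at b
    rw [y1] at a
    rw [mulVec_sub, Pi.sub_apply]
    linear_combination a - b⟩
  obtain rfl := sub_eq_zero.1 h1
  have a := hy.2 i0 h0
  have b := hz.2 i0 h0
  rw [add_mulVec, Pi.add_apply, nons_rc_mulVec, if_pos rfl] at a b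
  rw [add_dotProduct, single_dotProduct, y1] at b
  exact one_ne_zero (by linear_combination b - a : (1 : F2) = 0)

theorem nons_case1 (h0 : i0 ∈ J) {k l t : ι → F2}
    (hk : ∀ y ∈ Ker (J.erase i0) (J.erase i0) M, y ≠ 0 → y = k)
    (hl : l ∈ Ker (J.erase i0) (J.erase i0) Mᵀ) (h1 : t ⬝ᵥ k = 1 - (M *ᵥ k) i0)
    (h2 : t ⬝ᵥ l = 1 - (Mᵀ *ᵥ l) i0) : Ker J J (M + nonsRc i0 t) = ⊥ := by
  refine (Submodule.eq_bot_iff _).2 fun y hy => ?_
  have l0 : l i0 = 0 := hl.1 i0 (notMem_erase _ _)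
  have e1 : l ⬝ᵥ ((M + nonsRc i0 t) *ᵥ y) = 0 := sum_eq_zero fun i _ => by
    by_cases h : i ∈ J.erase i0
    · rw [hy.2 i (mem_of_mem_erase h), mul_zero]
    · rw [hl.1 i h, zero_mul]
  have e2 : l ⬝ᵥ (M *ᵥ y) = (Mᵀ *ᵥ l) i0 * y i0 := by
    rw [dotProduct_mulVec, ← mulVec_transpose]
    refine sum_eq_single i0 (fun i _ hi => ?_) fun h => absurd (mem_univ _) h
    by_cases h : i ∈ J
    · rw [hl.2 i (mem_erase.2 ⟨hi, h⟩), zero_mul]
    · rw [hy.1 i h, mul_zero]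
  have e3 : l ⬝ᵥ (nonsRc i0 t *ᵥ y) = t ⬝ᵥ l * y i0 := by
    rw [dotProduct, dotProduct, sum_mul]
    refine sum_congr rfl fun i _ => ?_
    rw [nons_rc_mulVec]
    split_ifs with h
    · rw [h, l0]; ring
    · ring
  rw [add_mulVec, dotProduct_add, e2, e3, h2] at e1
  by_contra y0
  obtain rfl := hk y (nons_drop hy (by linear_combination e1)) y0
  have a := hy.2 i0 h0
  rw [add_mulVec, Pi.add_apply, nons_rc_mulVec, if_pos rfl, h1] at a
  exact one_ne_zero (by linear_combination a : (1 : F2) = 0)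

theorem nons_range {k l : ι → F2} {j1 j2 : ι} (h1 : j1 ∈ B) (k1 : k j1 = 1) (h2 : j2 ∈ B)
    (l2 : l j2 = 1) {a b : F2} (h : (∀ j ∈ B, k j = l j) → a = b) :
    ∃ t : ι → F2, (∀ j, j ∉ B → t j = 0) ∧ t ⬝ᵥ k = a ∧ t ⬝ᵥ l = b := by
  have s : ∀ {j}, j ∈ B → ∀ (c : F2) (i), i ∉ B → (Pi.single j c : ι → F2) i = 0 :=
    fun {j} hj c i hi => by rw [Pi.single_eq_of_ne fun e : i = j => hi (e ▸ hj)]
  by_cases e : ∀ j ∈ B, k j = l j
  · exact ⟨Pi.single j1 a, s h1 a, by simp [k1], by simp [← e j1 h1, k1, h e]⟩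
  push Not at e
  obtain ⟨j, hj, e⟩ := e
  by_cases e0 : k j = 0
  · have e1 : l j = 1 := nons_one fun z => e (e0.trans z.symm)
    exact ⟨Pi.single j1 a + Pi.single j (b - a * l j1), fun i hi => by
      rw [Pi.add_apply, s h1 _ i hi, s hj _ i hi, add_zero], by simp [k1, e0], by simp [e1]⟩
  · have e1 : l j = 0 := by
      by_contra z
      exact e ((nons_one e0).trans (nons_one z).symm)
    exact ⟨Pi.single j2 b + Pi.single j (a - b * k j2), fun i hi => by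
      rw [Pi.add_apply, s h2 _ i hi, s hj _ i hi, add_zero], by simp [nons_one e0], by simp [l2, e1]⟩

theorem nons_shift (hB : B ⊆ J) (hW : W ⊆ B) (h0 : i0 ∈ B) (h0' : i0 ∉ W)
    (hs : ∀ j ∈ insert i0 W, ∀ i ∈ J, Ψ j i = Ψ i j) (hI : Inj B W J Ψ) (S : Sym B)
    (hF : ∀ y ∈ Ker (J.erase i0) (J.erase i0) (Ψ + S.1), y ≠ 0 →
      ∀ z ∈ Ker (J.erase i0) (J.erase i0) (Ψ + S.1), z ≠ 0 → y = z) :
    1 / 4 ≤ pr fun t : Ker ∅ B (0 : Matrix ι ι F2) =>
      Ker J J (Ψ + S.1 + nonsRc i0 t.1) = ⊥ := by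
  have hT : ∀ t : ι → F2, (∀ j, j ∉ B → t j = 0) → t ∈ Ker ∅ B (0 : Matrix ι ι F2) :=
    fun t ht => ⟨ht, fun _ h => absurd h (notMem_empty _)⟩
  by_cases hK : Ker (J.erase i0) (J.erase i0) (Ψ + S.1) = ⊥
  · let e : Ker ∅ B (0 : Matrix ι ι F2) := ⟨Pi.single i0 1, hT _ fun j hj =>
      Pi.single_eq_of_ne (fun e => hj (by rw [e]; exact h0)) _⟩
    have h1 := pr_equiv (E := fun t : Ker ∅ B (0 : Matrix ι ι F2) =>
      Ker J J (Ψ + S.1 + nonsRc i0 t.1) = ⊥) (Equiv.addRight e)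
    have h2 := pr_or_le (E := fun t : Ker ∅ B (0 : Matrix ι ι F2) =>
      Ker J J (Ψ + S.1 + nonsRc i0 t.1) = ⊥)
      (F := fun t => Ker J J (Ψ + S.1 + nonsRc i0 (Equiv.addRight e t).1) = ⊥)
    have h3 := pr_not (E := fun t : Ker ∅ B (0 : Matrix ι ι F2) =>
      Ker J J (Ψ + S.1 + nonsRc i0 t.1) = ⊥ ∨
        Ker J J (Ψ + S.1 + nonsRc i0 (Equiv.addRight e t).1) = ⊥)
    rw [pr_eq_zero fun t ht => ht (nons_case0 (hB h0) hK t.1)] at h3
    linarith
  obtain ⟨k, hk, k0⟩ := Submodule.exists_mem_ne_zero_of_ne_bot hK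
  obtain ⟨l, hl, l0⟩ := Submodule.exists_mem_ne_zero_of_ne_bot
    (fun e => hK (ker_transpose (M := (Ψ + S.1)ᵀ) e))
  have hW' : ∀ j ∈ W, j ∈ J.erase i0 := fun j hj => mem_erase.2 ⟨fun e => h0' (e ▸ hj), hB (hW hj)⟩
  have kJ : ∀ j, j ∉ J → k j = 0 := fun j hj => hk.1 j fun e => hj (mem_of_mem_erase e)
  have lJ : ∀ j, j ∉ J → l j = 0 := fun j hj => hl.1 j fun e => hj (mem_of_mem_erase e)
  have lW : ∀ j ∈ W, ((Ψ + S.1) *ᵥ l) j = 0 := fun j hj =>
    (nons_symm hs S lJ (mem_insert_of_mem hj)).symm.trans (hl.2 j (hW' j hj))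
  obtain ⟨j1, h1, k1⟩ : ∃ j ∈ B, k j ≠ 0 := by
    by_contra! z
    exact k0 (nons_zero hI S kJ z fun j hj => hk.2 j (hW' j hj))
  obtain ⟨j2, h2, l2⟩ : ∃ j ∈ B, l j ≠ 0 := by
    by_contra! z
    exact l0 (nons_zero hI S lJ z lW)
  obtain ⟨t, t0, t1, t2⟩ := nons_range h1 (nons_one k1) h2 (nons_one l2)
    (a := 1 - ((Ψ + S.1) *ᵥ k) i0) (b := 1 - ((Ψ + S.1)ᵀ *ᵥ l) i0) fun e => by
      have : k - l = 0 := nons_zero hI S (fun j hj => by rw [Pi.sub_apply, kJ j hj, lJ j hj, sub_self])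
        (fun j hj => by rw [Pi.sub_apply, e j hj, sub_self]) fun j hj => by
          rw [mulVec_sub, Pi.sub_apply, hk.2 j (hW' j hj), lW j hj, sub_self]
      rw [nons_symm hs S lJ (mem_insert_self _ _), sub_eq_zero.1 this]
  let φ : Ker ∅ B (0 : Matrix ι ι F2) →+ F2 × F2 := AddMonoidHom.mk'
    (fun t => (t.1 ⬝ᵥ k, t.1 ⬝ᵥ l)) fun a b => by simp
  have h3 := pr_hom_eq φ (a := (_, _)) ⟨⟨t, hT t t0⟩, Prod.ext t1 t2⟩
  have h4 : Nat.card φ.range ≤ 4 := (AddSubgroup.card_le_card_addGroup _).trans (by simp)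
  have h5 : (0 : ℝ) < Nat.card φ.range := by exact_mod_cast Nat.card_pos
  refine le_trans (one_div_le_one_div_of_le h5 (by exact_mod_cast h4)) (h3 ▸ pr_mono fun t ht => ?_)
  exact nons_case1 (hB h0) (fun y hy y0 => hF y hy y0 k hk k0) hl (congrArg Prod.fst ht)
    (congrArg Prod.snd ht)

end

theorem nonsing {ι : Type} [Fintype ι] [DecidableEq ι] {B J W : Finset ι} {Ψ : Matrix ι ι F2}
    {i0 : ι} (hB : B ⊆ J) (hW : W ⊆ B) (h0 : i0 ∈ B) (h0' : i0 ∉ W)
    (hs : ∀ j ∈ insert i0 W, ∀ i ∈ J, Ψ j i = Ψ i j) (hI : Inj B W J Ψ) :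
    1 / 6 ≤ pr (fun S : Sym B => Ker J J (Ψ + (S : Matrix ι ι F2)) = ⊥) := by
  let F : Sym B → Prop := fun S => ∀ y ∈ Ker (J.erase i0) (J.erase i0) (Ψ + S.1), y ≠ 0 →
    ∀ z ∈ Ker (J.erase i0) (J.erase i0) (Ψ + S.1), z ≠ 0 → y = z
  have h1 := mul_pr_le (E := fun S => ¬ F S) (univ.erase (0 : ι → F2))
    (fun y (S : Sym B) => y ∈ Ker (J.erase i0) (J.erase i0) (Ψ + S.1)) 3 fun S hS => by
      simp only [F] at hS
      push Not at hS
      obtain ⟨y, hy, y0, z, hz, z0, yz⟩ := hS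
      have e : y + z ≠ 0 := fun e => yz (funext fun j => by
        have h : y j + z j = 0 := congrFun e j
        linear_combination h - nons_add (z j))
      refine ⟨{y, z, y + z}, by simp [insert_subset_iff, y0, z0, e], (card_eq_three.2
        ⟨y, z, y + z, yz, by simpa using z0, by simpa using y0, rfl⟩).ge, ?_⟩
      simpa using ⟨hy, hz, add_mem hy hz⟩
  have h2 := nons_first hB hW h0 h0' hs hI
  have h3 := pr_not (E := F)
  have h4 := pr_avg_ge (E := fun S : Sym B => Ker J J (Ψ + S.1) = ⊥) (F := F)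
    (fun (t : Ker ∅ B (0 : Matrix ι ι F2)) S => S + ⟨nonsRc i0 t.1, nons_rc_mem h0 t.2.1⟩)
    (fun t => (Equiv.addRight _).bijective) (ε := 1 / 4) fun S hS => by
      simpa only [AddSubgroup.coe_add, add_assoc] using nons_shift hB hW h0 h0' hs hI S hS
  push_cast at h1
  linarith

end Pool.Agent.Lib.MP_f8d36e_nt
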