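import Pool.Agent.Lib.MP_f8d36e_nt.Pr
import Pool.Agent.Lib.MP_f8d36e_nt.Elem

/-! Job E10a: reduction of the criterion to the bordered matrix. -/

set_option autoImplicit false
set_option linter.unusedSectionVars false

open Matrix Finset

namespace Pool.Agent.Lib.MP_f8d36e_nt

theorem red_cases : ∀ b : F2, b = 0 ∨ b = 1 := by decide

theorem red_one : (1 + 1 : F2) = 0 := by decide

theorem red_self : ∀ b : F2, b + b = 0 := by decide

theorem red_eq : ∀ a b : F2, a + b = 0 → a = b := by decide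

theorem red_cf {K : Type} [Field K] (p q : K) (b b' : F2) : cf p q b b' = cf p q b' b := by
  simp only [cf, eq_comm]

variable {ι : Type} [Fintype ι] [DecidableEq ι] {u w β : ι → F2} {R Φ : Matrix ι ι F2} {n0 n1 : ι}

theorem GoodPt.smul {p q T c : Kb} (h : GoodPt u w β R p q T) (hc : c ≠ 0) :
    GoodPt u w β R (c * p) (c * q) (c * T) := by
  intro y h1 h2 h3 h4
  refine h y (fun i => mul_left_cancel₀ hc ?_) h2 h3 h4
  rw [mul_zero, ← h1 i, mul_add, mul_sum]
  congr 1
  · ring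
  · exact sum_congr rfl fun j _ => by split_ifs <;> ring

omit [DecidableEq ι] in
theorem red_dot {K : Type} [Field K] [Algebra F2 K] (l : ι → F2) (y : ι → K) (s t : K) :
    ∑ j, algebraMap F2 K (l j) *
      (y j + (s * algebraMap F2 K (1 + β j) + t * algebraMap F2 K (β j))) =
    ∑ j, algebraMap F2 K (l j) * y j + (s * algebraMap F2 K (∑ j, l j * (1 + β j)) +
      t * algebraMap F2 K (∑ j, l j * β j)) := by
  rw [map_sum, map_sum, mul_sum, mul_sum, ← sum_add_distrib, ← sum_add_distrib]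
  exact sum_congr rfl fun j _ => by rw [map_mul, map_mul]; ring

omit [DecidableEq ι] in
theorem red_sums (l : ι → F2) : ∑ j, l j * (1 + β j) = ∑ j, l j + l ⬝ᵥ β ∧
    ∑ j, l j * (1 + β j) * (1 + β j) = ∑ j, l j + l ⬝ᵥ β ∧ ∑ j, l j * (1 + β j) * β j = 0 ∧
    ∑ j, l j * β j * (1 + β j) = 0 ∧ ∑ j, l j * β j * β j = l ⬝ᵥ β := by
  have a1 : ∀ a b : F2, a * (1 + b) * (1 + b) = a + a * b := by decide
  have a2 : ∀ a b : F2, a * (1 + b) * b = 0 := by decide
  have a3 : ∀ a b : F2, a * b * (1 + b) = 0 := by decide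
  have a4 : ∀ a b : F2, a * b * b = a * b := by decide
  simp only [a1, a2, a3, a4, dotProduct, sum_add_distrib, sum_const_zero, true_and, and_true]
  simp only [mul_add, mul_one, sum_add_distrib]

theorem red_good (hs : Sums u w R) (hR : R *ᵥ β = u) (hu : u ⬝ᵥ β = 1) (hw : w ⬝ᵥ β = 0)
    (h0 : β n0 = 0) (h1 : β n1 = 1) {S : Matrix ι ι F2} (hS : ∀ j, S n1 j = 0)
    (hRS : ∀ i j, i ≠ n0 → i ≠ n1 → j ≠ n0 → j ≠ n1 → R i j = Φ i j + S i j) {p q T γ : Kb}
    (h : Ker (univ.erase n0) ((univ.erase n0).erase n1)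
      (mat β p q (Amat u w β Φ n1 p q T γ) S) = ⊥) : GoodPt u w β R p q T := by
  intro y e1 e2 e3 e4
  have two : (2 : Kb) = 0 := two_eq_zero
  obtain ⟨z, hz⟩ : ∃ z : ι → Kb, ∀ j, z j =
    y j + (y n0 * algebraMap F2 Kb (1 + β j) + y n1 * algebraMap F2 Kb (β j)) := ⟨_, fun _ => rfl⟩
  have z0 : z n0 = 0 := by
    rw [hz, h0, add_zero (1 : F2), map_one, map_zero]
    linear_combination y n0 * two
  have z1 : z n1 = 0 := by
    rw [hz, h1, red_one, map_one, map_zero]
    linear_combination y n1 * two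
  have d0 : ∑ j, algebraMap F2 Kb (w j * (1 + β j)) * z j = y n0 := by
    have a : ∑ j, algebraMap F2 Kb (w j * (1 + β j)) * y j = 0 := by
      simp only [mul_add, mul_one, map_add, add_mul, sum_add_distrib, e2, e3, add_zero]
    simp only [hz]
    rw [red_dot, a, (red_sums w).2.1, (red_sums w).2.2.1, hs.sw, hw]
    simp
  have d1 : ∑ j, algebraMap F2 Kb (u j * β j) * z j = y n1 := by
    simp only [hz]
    rw [red_dot, e4, (red_sums u).2.2.2.1, (red_sums u).2.2.2.2, hu]
    simp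
  have d2 : ∑ j, algebraMap F2 Kb (w j * β j) * z j = 0 := by
    simp only [hz]
    rw [red_dot, e3, (red_sums w).2.2.2.1, (red_sums w).2.2.2.2, hw]
    simp
  have hk : z ∈ Ker (univ.erase n0) ((univ.erase n0).erase n1)
      (mat β p q (Amat u w β Φ n1 p q T γ) S) := by
    refine ⟨fun j hj => ?_, fun i hi => ?_⟩
    · by_cases j1 : j = n1
      · rw [j1, z1]
      · by_cases j0 : j = n0
        · rw [j0, z0]
        · simp [j0, j1] at hj
    have i0 : i ≠ n0 := (mem_erase.1 hi).1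
    by_cases i1 : i = n1
    · have : ∀ j, mat β p q (Amat u w β Φ n1 p q T γ) S i j * z j =
          γ * (algebraMap F2 Kb (w j * β j) * z j) := by
        intro j
        by_cases j1 : j = n1
        · rw [j1, z1, mul_zero, mul_zero, mul_zero]
        · simp only [mat, Amat, of_apply, i1, j1, hS, if_true, if_false, map_zero]
          ring
      simp only [mulVec, dotProduct, this]
      rw [← mul_sum, d2, mul_zero]
    have a1 : ∀ j, mat β p q (Amat u w β Φ n1 p q T γ) S i j * z j =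
        cf p q (β i) (β j) * algebraMap F2 Kb (R i j) * z j +
        (if i = j then T * algebraMap F2 Kb (w i) * z j else 0) +
        T * algebraMap F2 Kb (w i * (1 + β i)) * (algebraMap F2 Kb (w j * (1 + β j)) * z j) +
        (T * algebraMap F2 Kb (w i * β i) + cf p q (β i) 1 * algebraMap F2 Kb (u i)) *
          (algebraMap F2 Kb (u j * β j) * z j) := by
      intro j
      by_cases j1 : j = n1
      · simp [j1, z1]
      by_cases j0 : j = n0
      · simp [j0, z0]
      simp only [mat, Amat, of_apply, i1, j1, if_false, hRS i j i0 i1 j0 j1, map_add, map_mul]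
      split_ifs <;> ring
    have a2 : ∀ j, cf p q (β i) (β j) * algebraMap F2 Kb (R i j) * z j =
        cf p q (β i) (β j) * algebraMap F2 Kb (R i j) * y j +
        (y n0 * cf p q (β i) 0 * algebraMap F2 Kb (R i j * (1 + β j)) +
          y n1 * cf p q (β i) 1 * algebraMap F2 Kb (R i j * β j)) := by
      intro j
      rw [hz]
      rcases red_cases (β j) with hb | hb
      · simp only [hb, add_zero, map_one, map_zero, mul_one, mul_zero]
        ring
      · simp only [hb, red_one, map_one, map_zero, mul_one, mul_zero]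
        ring
    have a3 : R i ⬝ᵥ β = u i := congrFun hR i
    have a4 : ∑ j, cf p q (β i) (β j) * algebraMap F2 Kb (R i j) * y j =
        -(T * algebraMap F2 Kb (w i) * y i) := eq_neg_of_add_eq_zero_right (e1 i)
    have a5 : ∑ j, R i j * β j = u i := a3
    simp only [mulVec, dotProduct, a1, a2, sum_add_distrib, ← mul_sum, ← map_sum, d0, d1, a4, a5,
      (red_sums (R i)).1, hs.row, a3, red_self, sum_ite_eq, mem_univ, if_true, map_zero]
    rw [hz, map_mul, map_mul]
    linear_combination (T * algebraMap F2 Kb (w i) * algebraMap F2 Kb (1 + β i) * y n0 +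
      (T * algebraMap F2 Kb (w i) * algebraMap F2 Kb (β i) +
        cf p q (β i) 1 * algebraMap F2 Kb (u i)) * y n1) * two
  rw [h, Submodule.mem_bot] at hk
  simp only [hk, Pi.zero_apply, mul_zero, sum_const_zero] at d0 d1
  funext j
  have := hz j
  rwa [hk, ← d0, ← d1, zero_mul, zero_mul, add_zero, add_zero, eq_comm] at this

theorem red_uniq (hs : Sums u w R)
    (ha : ∀ i j, R i j + R j i = u i * u j + if i = j then u i else 0) (hR : R *ᵥ β = u)
    (hu : u ⬝ᵥ β = 1) (hw : w ⬝ᵥ β = 0) (h0 : β n0 = 0) (h1 : β n1 = 1) {S : Matrix ι ι F2}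
    (hRS : ∀ i j, i ≠ n0 → i ≠ n1 → j ≠ n0 → j ≠ n1 → R i j = Φ i j + S i j)
    (h : Ker ((univ.erase n0).erase n1) ((univ.erase n0).erase n1)
      (Φ + vecMulVec u (u * β) + S) = ⊥) : Uniq u w β R := by
  refine ⟨hu, hw, hR, fun y hy => ?_⟩
  obtain ⟨z, hz⟩ : ∃ z : ι → F2, ∀ j, z j = y j + (y n0 * (1 + β j) + y n1 * β j) :=
    ⟨_, fun _ => rfl⟩
  have dot : ∀ l : ι → F2, ∑ j, l j * z j =
      l ⬝ᵥ y + (y n0 * (∑ j, l j + l ⬝ᵥ β) + y n1 * l ⬝ᵥ β) := by
    intro l
    simp only [hz, dotProduct, mul_add, mul_sum, ← sum_add_distrib]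
    exact sum_congr rfl fun j _ => by ring
  have z0 : z n0 = 0 := by rw [hz, h0, add_zero, mul_one, mul_zero, add_zero, red_self]
  have z1 : z n1 = 0 := by rw [hz, h1, red_one, mul_one, mul_zero, zero_add, red_self]
  have rb : ∀ i, R i ⬝ᵥ β = u i := congrFun hR
  have rz : ∀ i, ∑ j, R i j * z j = (u ⬝ᵥ y + y n1) * u i := by
    intro i
    have a : R i ⬝ᵥ y = (u ⬝ᵥ y) * u i := congrFun hy i
    rw [dot, a, hs.row, rb, red_self]
    ring
  have col : ∀ j, ∑ i, (1 + β i) * R i j = u j * β j := by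
    intro j
    have a : ∀ i, (1 + β i) * R i j =
        R i j + (R j i * β i + (u j * (u i * β i) + if i = j then u i * β i else 0)) := by
      intro i
      have b : R i j = R j i + (u i * u j + if i = j then u i else 0) := by
        rw [← ha, add_comm (R i j), ← add_assoc, red_self, zero_add]
      rw [add_mul, one_mul, add_right_inj, b]
      split_ifs <;> ring
    have b1 : ∑ i, R j i * β i = u j := rb j
    have b2 : ∑ i, u i * β i = 1 := hu
    simp only [a, sum_add_distrib, ← mul_sum, hs.col, b1, b2, sum_ite_eq', mem_univ, if_true]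
    rw [zero_add, mul_one, ← add_assoc, red_self, zero_add]
  have d1 : ∑ j, u j * β j * z j = u ⬝ᵥ y + y n1 := by
    have a : ∑ i, (1 + β i) * ∑ j, R i j * z j = ∑ j, u j * β j * z j := by
      simp only [mul_sum, ← col, sum_mul, mul_assoc]
      exact sum_comm
    have b : ∑ i, (1 + β i) * u i = 1 := by
      simp only [mul_comm _ (u _)]
      rw [(red_sums u).1, hs.su, hu, zero_add]
    simp only [← a, rz, mul_left_comm _ (u ⬝ᵥ y + y n1), ← mul_sum, b, mul_one]
  have hk : z ∈ Ker ((univ.erase n0).erase n1) ((univ.erase n0).erase n1)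
      (Φ + vecMulVec u (u * β) + S) := by
    refine ⟨fun j hj => ?_, fun i hi => ?_⟩
    · by_cases j1 : j = n1
      · rw [j1, z1]
      · by_cases j0 : j = n0
        · rw [j0, z0]
        · simp [j0, j1] at hj
    have a : ∀ j, (Φ + vecMulVec u (u * β) + S) i j * z j =
        R i j * z j + u i * (u j * β j * z j) := by
      intro j
      by_cases j1 : j = n1
      · simp [j1, z1]
      by_cases j0 : j = n0
      · simp [j0, z0]
      rw [hRS i j (mem_erase.1 (mem_erase.1 hi).2).1 (mem_erase.1 hi).1 j0 j1]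
      simp only [Matrix.add_apply, vecMulVec_apply, Pi.mul_apply]
      ring
    simp only [mulVec, dotProduct, a, sum_add_distrib, ← mul_sum]
    rw [rz, d1, mul_comm, red_self]
  rw [h, Submodule.mem_bot] at hk
  have a1 := dot u
  simp only [hk, Pi.zero_apply, mul_zero, sum_const_zero] at d1 a1
  rw [hs.su, hu, zero_add, mul_one, mul_one, add_left_comm, ← d1, add_zero] at a1
  have a2 : ∀ j, y j = y n1 * β j := fun j => red_eq _ _ (by
    have := hz j
    rwa [hk, ← a1, zero_mul, zero_add, eq_comm] at this)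
  rcases red_cases (y n1) with hb | hb
  · exact Or.inl (funext fun j => by rw [a2, hb, zero_mul, Pi.zero_apply])
  · exact Or.inr (funext fun j => by rw [a2, hb, one_mul])

variable {K : Type} [Field K] [Algebra F2 K]

theorem Amat_map {k : Type} [Field k] [Algebra F2 k] (f : k →+* K) (p q T γ : k) :
    (Amat u w β Φ n1 p q T γ).map f = Amat u w β Φ n1 (f p) (f q) (f T) (f γ) := by
  have h : ∀ x, f (algebraMap F2 k x) = algebraMap F2 K x := fun x =>
    DFunLike.congr_fun (RingHom.ext_zmod (f.comp (algebraMap F2 k)) (algebraMap F2 K)) x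
  ext i j
  simp only [Amat, cf, map_apply, of_apply, apply_ite f, map_add f, map_mul f, map_zero f, h]

theorem Amat_line (a b x : K) : Amat u w β Φ n1 1 0 a 1 + x • Amat u w β Φ n1 0 1 b 0 =
    Amat u w β Φ n1 1 x (a + b * x) 1 := by
  ext i j
  simp only [Amat, cf, Matrix.add_apply, Matrix.smul_apply, of_apply, smul_eq_mul]
  split_ifs <;> ring

theorem red_off {T γ : K} {i j : ι} (hi : i ≠ n1) (hj : j ≠ n1) (h : β i ≠ β j) :
    Amat u w β Φ n1 1 0 T γ i j = 0 := by
  have h' : i ≠ j := fun e => h (by rw [e])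
  have two : (1 + 1 : K) = 0 := one_add_one_eq_two.trans two_eq_zero
  rcases red_cases (β i) with a | a <;> rcases red_cases (β j) with b | b <;>
    simp [Amat, cf, hi, hj, h', a, b, red_one, two] at h ⊢

/-- At the point with `q = 0` the matrix splits into two blocks. -/
theorem ker_split {I J : Finset ι} (hJ : n1 ∉ J) (hI : J ⊆ I) {T γ : K} {S : Matrix ι ι F2}
    (β' : F2 → ι → F2) (h : ∀ b, Ker {j ∈ J | β j = b} {j ∈ J | β j = b}
      (mat (β' b) 1 1 (Amat u w β Φ n1 1 0 T γ) S) = ⊥) :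
    Ker I J (mat β 1 0 (Amat u w β Φ n1 1 0 T γ) S) = ⊥ := by
  refine (Submodule.eq_bot_iff _).2 fun y hy => funext fun l => ?_
  have hk : (fun j => if β j = β l then y j else 0) ∈ Ker {j ∈ J | β j = β l} {j ∈ J | β j = β l}
      (mat (β' (β l)) 1 1 (Amat u w β Φ n1 1 0 T γ) S) := by
    refine ⟨fun j hj => ?_, fun i hi => ?_⟩
    · by_cases hb : β j = β l
      · exact (if_pos hb).trans (hy.1 j fun h' => hj (mem_filter.2 ⟨h', hb⟩))
      · exact if_neg hb
    obtain ⟨i1, i2⟩ := mem_filter.1 hi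
    refine Eq.trans (sum_congr rfl fun j _ => ?_) (hy.2 i (hI i1))
    by_cases hj : j ∈ J
    · by_cases hb : β j = β l
      · simp [mat, cf, hb, i2]
      · have h' : β i ≠ β j := fun e => hb (by rw [← e, i2])
        simp [mat, cf, hb, h', red_off (ne_of_mem_of_not_mem i1 hJ) (ne_of_mem_of_not_mem hj hJ) h']
    · simp [hy.1 j hj]
  rw [h, Submodule.mem_bot] at hk
  simpa using congrFun hk l

omit [DecidableEq ι] in
theorem red_shape {Λ B : Finset ι} {T : K} {Ψ : Matrix ι ι K} {ρ : ℕ}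
    (h : Shape Λ B β 1 0 T Ψ ρ) (β' : ι → F2) : Shape Λ B β' 1 1 T Ψ ρ := by
  obtain ⟨Φ, L, h1, h2, h3⟩ := h
  refine ⟨of fun i j => if β i = β j then Φ i j else 0, L, h1, fun i hi j hj => ?_,
    fun y hy i hi => ?_⟩
  · simp only [of_apply, h2 i hi j hj, eq_comm]
  · rw [h3 y hy i hi]
    refine congrArg _ (sum_congr rfl fun j _ => ?_)
    simp only [cf, of_apply]
    split_ifs <;> simp

omit [DecidableEq ι] in
/-- The witness property over an extension field. -/
theorem red_wit {B W : Finset ι} (hw : Wit B W β Φ) (b : F2) {y : ι → K} (h0 : ∀ j ∈ B, y j = 0)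
    (h : ∀ j ∈ W, β j = b → ∑ i, algebraMap F2 K (Φ j i) * y i = 0) : y = 0 := by
  funext l
  refine (Module.forall_dual_apply_eq_zero_iff F2 (y l)).1 fun f => ?_
  by_contra hc
  obtain ⟨j, j1, j2, j3⟩ := hw b (fun i => f (y i)) (fun e => hc (congrFun e l))
    fun j hj => by rw [h0 j hj, map_zero]
  have := congrArg f (h j j1 j2)
  simp only [map_sum, ← Algebra.smul_def, map_smul, smul_eq_mul, map_zero] at this
  exact one_ne_zero (j3.symm.trans this)

variable {B B' Λ W : Finset ι}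
  (ha : ∀ i j, Φ i j + Φ j i = u i * u j + if i = j then u i else 0)
include ha

omit [Fintype ι] in
theorem red_symm {j : ι} (hj : u j = 0) (i : ι) : Φ j i = Φ i j :=
  red_eq _ _ (by simp [ha, hj])

/-- Rows and columns with `u = 0`. -/
theorem red_row {j : ι} (h1 : j ≠ n1) (hu : u j = 0) (p q T γ : K) (y : ι → K) (hy : y n1 = 0)
    (e0 : w j = 0 ∨ ∑ i, algebraMap F2 K (w i * (1 + β i)) * y i = 0)
    (e1 : w j = 0 ∨ ∑ i, algebraMap F2 K (u i * β i) * y i = 0) :
    (Amat u w β Φ n1 p q T γ *ᵥ y) j = T * algebraMap F2 K (w j) * y j +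
      ∑ i, cf p q (β j) (β i) * algebraMap F2 K (Φ j i) * y i ∧
    ((Amat u w β Φ n1 p q T γ)ᵀ *ᵥ y) j = T * algebraMap F2 K (w j) * y j +
      ∑ i, cf p q (β j) (β i) * algebraMap F2 K (Φ j i) * y i := by
  have a1 : ∀ i, Amat u w β Φ n1 p q T γ j i * y i =
      (if j = i then T * algebraMap F2 K (w j) * y i else 0) +
      cf p q (β j) (β i) * algebraMap F2 K (Φ j i) * y i +
      T * algebraMap F2 K (1 + β j) *
        (algebraMap F2 K (w j) * (algebraMap F2 K (w i * (1 + β i)) * y i)) +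
      T * algebraMap F2 K (β j) * (algebraMap F2 K (w j) * (algebraMap F2 K (u i * β i) * y i)) := by
    intro i
    by_cases i1 : i = n1
    · simp [i1, hy]
    simp only [Amat, of_apply, i1, h1, if_false, hu, map_mul, map_zero]
    split_ifs <;> ring
  have a2 : ∀ i, Amat u w β Φ n1 p q T γ i j * y i =
      (if j = i then T * algebraMap F2 K (w j) * y i else 0) +
      cf p q (β j) (β i) * algebraMap F2 K (Φ j i) * y i +
      T * algebraMap F2 K (1 + β j) *
        (algebraMap F2 K (w j) * (algebraMap F2 K (w i * (1 + β i)) * y i)) := by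
    intro i
    by_cases i1 : i = n1
    · simp [i1, hy]
    simp only [Amat, of_apply, i1, h1, if_false, hu, map_mul, map_zero, red_symm ha hu i,
      red_cf p q (β i) (β j)]
    by_cases e : j = i
    · subst e
      simp only [if_true]
      ring
    · simp only [e, Ne.symm e, if_false]
      ring
  have b0 : algebraMap F2 K (w j) * ∑ i, algebraMap F2 K (w i * (1 + β i)) * y i = 0 := by
    rcases e0 with e | e <;> simp only [e, map_zero, zero_mul, mul_zero]
  have b1 : algebraMap F2 K (w j) * ∑ i, algebraMap F2 K (u i * β i) * y i = 0 := by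
    rcases e1 with e | e <;> simp only [e, map_zero, zero_mul, mul_zero]
  constructor
  · simp only [mulVec, dotProduct, a1, sum_add_distrib, ← mul_sum, b0, b1, sum_ite_eq, mem_univ,
      if_true, mul_zero, add_zero]
  · simp only [mulVec, dotProduct, transpose_apply, a2, sum_add_distrib, ← mul_sum, b0, sum_ite_eq,
      mem_univ, if_true, mul_zero, add_zero]

theorem shape_Amat (hΛ : Λ ⊆ cls u w B' 0 1) (h1 : n1 ∉ B') (p q T γ : K) :
    Shape Λ B' β p q T (Amat u w β Φ n1 p q T γ) (#B'ᶜ + 4) ∧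
      Shape Λ B' β p q T (Amat u w β Φ n1 p q T γ)ᵀ (#B'ᶜ + 4) := by
  obtain ⟨L, hL⟩ : ∃ L : Finset (ι → F2), L = insert (fun j => w j * (1 + β j))
    (insert (fun j => u j * β j) (B'ᶜ.image fun j => Pi.single j 1)) := ⟨_, rfl⟩
  have hc : #L ≤ #B'ᶜ + 4 := by
    rw [hL]
    exact (card_insert_le _ _).trans (Nat.succ_le_of_lt (Nat.lt_of_le_of_lt (card_insert_le _ _)
      (Nat.lt_of_le_of_lt (Nat.succ_le_succ card_image_le) (by omega))))
  have hs : ∀ i ∈ Λ, ∀ j ∈ Λ, Φ i j = Φ j i := fun i hi j _ =>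
    red_symm ha (mem_filter.1 (hΛ hi)).2.1 j
  have key : ∀ y : ι → K, (∀ l ∈ L, ∑ j, algebraMap F2 K (l j) * y j = 0) → ∀ i ∈ Λ,
      (Amat u w β Φ n1 p q T γ *ᵥ y) i =
        T * y i + ∑ j ∈ B', cf p q (β i) (β j) * algebraMap F2 K (Φ i j) * y j ∧
      ((Amat u w β Φ n1 p q T γ)ᵀ *ᵥ y) i =
        T * y i + ∑ j ∈ B', cf p q (β i) (β j) * algebraMap F2 K (Φ i j) * y j := by
    intro y hy i hi
    obtain ⟨i1, i2, i3⟩ := mem_filter.1 (hΛ hi)
    have y0 : ∀ j, j ∉ B' → y j = 0 := fun j hj => by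
      have := hy (Pi.single j 1) (by
        rw [hL]
        exact mem_insert_of_mem (mem_insert_of_mem (mem_image_of_mem _ (mem_compl.2 hj))))
      simpa [Pi.single_apply, apply_ite (algebraMap F2 K)] using this
    have a := red_row (β := β) (w := w) ha (ne_of_mem_of_not_mem i1 h1) i2 p q T γ y (y0 _ h1)
      (Or.inr (hy _ (by rw [hL]; exact mem_insert_self _ _)))
      (Or.inr (hy _ (by rw [hL]; exact mem_insert_of_mem (mem_insert_self _ _))))
    rwa [i3, map_one, mul_one, ← sum_subset (subset_univ B') fun j _ hj => by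
      rw [y0 j hj, mul_zero]] at a
  exact ⟨⟨Φ, L, hc, hs, fun y hy i hi => (key y hy i hi).1⟩,
    ⟨Φ, L, hc, hs, fun y hy i hi => (key y hy i hi).2⟩⟩

theorem shape_split (hΛ : Λ ⊆ cls u w B' 0 1) (h1 : n1 ∉ B') (T γ : K) (β' : ι → F2) :
    Shape Λ B' β' 1 1 T (Amat u w β Φ n1 1 0 T γ) (#B'ᶜ + 4) ∧
      Shape Λ B' β' 1 1 T (Amat u w β Φ n1 1 0 T γ)ᵀ (#B'ᶜ + 4) :=
  ⟨red_shape (shape_Amat ha hΛ h1 1 0 T γ).1 β', red_shape (shape_Amat ha hΛ h1 1 0 T γ).2 β'⟩

/-- Rows and columns with `u = w = 0`. -/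
theorem red_ent {j : ι} (h1 : j ≠ n1) (hu : u j = 0) (hw : w j = 0) (p q T γ : K) (i : ι) :
    Amat u w β Φ n1 p q T γ j i =
      (if i = n1 then 0 else cf p q (β j) (β i) * algebraMap F2 K (Φ j i)) ∧
    Amat u w β Φ n1 p q T γ i j =
      if i = n1 then 0 else cf p q (β j) (β i) * algebraMap F2 K (Φ j i) := by
  by_cases i1 : i = n1
  · simp [Amat, i1, h1, hw]
  by_cases e : i = j
  · simp [Amat, e, h1, hu, hw]
  · simp [Amat, i1, h1, hu, hw, e, red_symm ha hu i, red_cf p q (β i) (β j)]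

omit ha in
theorem red_inj (hB : ∀ j, j ∈ B' ↔ j ∈ B ∧ j ≠ n0 ∧ j ≠ n1) (hw : Wit B W β Φ) {p q : K}
    {A : Matrix ι ι K} (hA : ∀ j ∈ W, ∀ i,
      A j i = if i = n1 then 0 else cf p q (β j) (β i) * algebraMap F2 K (Φ j i))
    (b : F2) {y : ι → K} (h0 : y n0 = 0) (h1 : ∀ j ∈ B', y j = 0)
    (h : ∀ j ∈ W, β j = b → (A *ᵥ y) j = 0) {i : ι} (hi : i ≠ n1) : cf p q b (β i) * y i = 0 := by
  have := red_wit hw b (y := fun i => if i = n1 then 0 else cf p q b (β i) * y i) (fun j hj => ?_)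
    fun j hj hb => Eq.trans (sum_congr rfl fun l _ => ?_) (h j hj hb)
  · simpa only [hi, if_false, Pi.zero_apply] using congrFun this i
  · split_ifs with j1
    · rfl
    by_cases j0 : j = n0
    · rw [j0, h0, mul_zero]
    · rw [h1 j ((hB j).2 ⟨hj, j0, j1⟩), mul_zero]
  · simp only [hA j hj, hb]
    split_ifs <;> ring

theorem inj_Amat (hB : ∀ j, j ∈ B' ↔ j ∈ B ∧ j ≠ n0 ∧ j ≠ n1) (hW : W ⊆ cls u w B' 0 0)
    (hw : Wit B W β Φ) {i1 : ι} (hi : i1 ∈ cls u w B' 0 1) (hi' : β i1 = 1) {I J : Finset ι}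
    (hI : insert i1 W ⊆ I) (hJ : n0 ∉ J) {p q T γ : K} (hq : q ≠ 0) (hγ : γ ≠ 0) :
    Inj B' I J (Amat u w β Φ n1 p q T γ) ∧ Inj B' I J (Amat u w β Φ n1 p q T γ)ᵀ := by
  have key : ∀ A : Matrix ι ι K, (∀ j ∈ W, ∀ i,
      A j i = if i = n1 then 0 else cf p q (β j) (β i) * algebraMap F2 K (Φ j i)) →
      A i1 n1 = γ → Inj B' I J A := by
    intro A h1 h2 y hy h0
    have a : ∀ i, i ≠ n1 → y i = 0 := fun i e => by
      have := red_inj hB hw h1 (β i + 1) (hy.1 _ hJ) h0
        (fun j hj _ => hy.2 j (hI (mem_insert_of_mem hj))) e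
      rw [cf, if_neg (by simp)] at this
      exact (mul_eq_zero.1 this).resolve_left hq
    have b := hy.2 i1 (hI (mem_insert_self _ _))
    rw [mulVec, dotProduct, sum_eq_single n1 (fun j _ e => by rw [a j e, mul_zero]) (by simp),
      h2] at b
    funext i
    by_cases e : i = n1
    · rw [e]
      exact (mul_eq_zero.1 b).resolve_left hγ
    · exact a i e
  obtain ⟨i2, -, i4⟩ := mem_filter.1 hi
  have i5 : i1 ≠ n1 := ((hB _).1 i2).2.2
  have e := fun j (hj : j ∈ W) => red_ent (β := β) ha ((hB _).1 (mem_filter.1 (hW hj)).1).2.2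
    (mem_filter.1 (hW hj)).2.1 (mem_filter.1 (hW hj)).2.2 p q T γ
  exact ⟨key _ (fun j hj i => (e j hj i).1) (by simp [Amat, i5, i4, hi']),
    key _ (fun j hj i => (e j hj i).2) (by simp [Amat, i5, i4, hi'])⟩

theorem inj_split (hB : ∀ j, j ∈ B' ↔ j ∈ B ∧ j ≠ n0 ∧ j ≠ n1) (hW : W ⊆ cls u w B' 0 0)
    (hw : Wit B W β Φ) {J : Finset ι} (hI : W ⊆ J) (hJ : n0 ∉ J) (hJ' : n1 ∉ J) (T γ : K)
    (b : F2) :
    Inj B' {j ∈ J | β j = b} {j ∈ J | β j = b} (Amat u w β Φ n1 1 0 T γ) ∧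
      Inj B' {j ∈ J | β j = b} {j ∈ J | β j = b} (Amat u w β Φ n1 1 0 T γ)ᵀ := by
  have key : ∀ A : Matrix ι ι K, (∀ j ∈ W, ∀ i,
      A j i = if i = n1 then 0 else cf 1 0 (β j) (β i) * algebraMap F2 K (Φ j i)) →
      Inj B' {j ∈ J | β j = b} {j ∈ J | β j = b} A := by
    intro A h1 y hy h0
    funext i
    by_cases e : i ∈ {j ∈ J | β j = b}
    · have := red_inj hB hw h1 b (hy.1 _ fun h => hJ (mem_filter.1 h).1) h0
        (fun j hj hb => hy.2 j (mem_filter.2 ⟨hI hj, hb⟩))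
        (ne_of_mem_of_not_mem (mem_filter.1 e).1 hJ')
      rwa [cf, if_pos (mem_filter.1 e).2.symm, one_mul] at this
    · exact hy.1 i e
  have e := fun j (hj : j ∈ W) => red_ent (β := β) ha ((hB _).1 (mem_filter.1 (hW hj)).1).2.2
    (mem_filter.1 (hW hj)).2.1 (mem_filter.1 (hW hj)).2.2 (1 : K) 0 T γ
  exact ⟨key _ fun j hj i => (e j hj i).1, key _ fun j hj i => (e j hj i).2⟩

theorem inj_two (hB : ∀ j, j ∈ B' ↔ j ∈ B ∧ j ≠ n0 ∧ j ≠ n1) (hW : W ⊆ cls u w B' 0 0)
    (hw : Wit B W β Φ) {J : Finset ι} (hJ : n0 ∉ J) (hJ' : n1 ∉ J) :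
    Inj B' W J (Φ + vecMulVec u (u * β)) ∧ ∀ j, u j = 0 → ∀ i,
      (Φ + vecMulVec u (u * β)) j i = (Φ + vecMulVec u (u * β)) i j := by
  refine ⟨fun y hy h0 => by_contra fun hc => ?_, fun j hj i => ?_⟩
  · obtain ⟨j, j1, -, j3⟩ := hw 0 y hc fun j hj => by
      by_cases e : j ∈ J
      · exact h0 j ((hB j).2 ⟨hj, ne_of_mem_of_not_mem e hJ, ne_of_mem_of_not_mem e hJ'⟩)
      · exact hy.1 j e
    have := hy.2 j j1
    simp only [mulVec, dotProduct, Matrix.add_apply, vecMulVec_apply,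
      (mem_filter.1 (hW j1)).2.1, zero_mul,
      add_zero] at this j3
    exact one_ne_zero (j3.symm.trans this)
  · simp [vecMulVec_apply, hj, red_symm ha hj i]

omit ha in
theorem red_off_sum {η : ι → F2} (h : ∀ j ∈ B, η j = 0) (l : ι → F2) :
    ∑ i : (Bᶜ : Finset ι), l i * η i = l ⬝ᵥ η := by
  rw [sum_coe_sort Bᶜ fun i => l i * η i]
  exact sum_subset (subset_univ _) fun j _ hj => by rw [h j (by simpa using hj), mul_zero]

omit ha in
/-- The rows in a block span all vectors off `B`. -/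
theorem red_onto (hw : Wit B W β Φ) (b : F2) (g : ι → F2) : ∃ v : ι → F2,
    (∀ j, v j ≠ 0 → j ∈ W ∧ β j = b) ∧ ∀ i, i ∉ B → ∑ j, v j * Φ j i = g i := by
  have key : (fun i : (Bᶜ : Finset ι) => g i) ∈ Submodule.span F2
      ((fun (j : ι) (i : (Bᶜ : Finset ι)) => Φ j i) '' ({j ∈ W | β j = b} : Finset ι)) := by
    by_contra hc
    obtain ⟨f, f1, f2⟩ := Submodule.exists_le_ker_of_notMem hc
    obtain ⟨η, h1, h2⟩ : ∃ η : ι → F2, (∀ j ∈ B, η j = 0) ∧
        ∀ l : ι → F2, f (fun i => l i) = l ⬝ᵥ η := by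
      refine ⟨fun i => if h : i ∈ Bᶜ then f fun j => if (⟨i, h⟩ : (Bᶜ : Finset ι)) = j then 1 else 0
        else 0, fun j hj => dif_neg (by simpa using hj), fun l => ?_⟩
      rw [← red_off_sum (B := B) fun j hj => dif_neg (by simpa using hj),
        LinearMap.pi_apply_eq_sum_univ]
      exact sum_congr rfl fun i _ => by rw [dif_pos i.2, smul_eq_mul]
    obtain ⟨j, j1, j2, j3⟩ := hw b η (fun e => f1 (by rw [h2, e, dotProduct_zero])) h1
    have : f (fun i => Φ j i) = 0 :=
      f2 (Submodule.subset_span ⟨j, mem_coe.2 (mem_filter.2 ⟨j1, j2⟩), rfl⟩)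
    exact one_ne_zero (j3.symm.trans ((h2 (Φ j)).symm.trans this))
  obtain ⟨c, hc⟩ := (Submodule.mem_span_image_finset_iff_exists_fun' F2).1 key
  refine ⟨fun j => if j ∈ {j ∈ W | β j = b} then c j else 0, fun j hj => ?_, fun i hi => ?_⟩
  · exact mem_filter.1 (by_contra fun e => hj (if_neg e))
  · have := congrFun hc ⟨i, mem_compl.2 hi⟩
    simp only [Finset.sum_apply, Pi.smul_apply, smul_eq_mul] at this
    simp only [ite_mul, zero_mul, sum_ite_mem, univ_inter, this]

theorem exists_eta (hB : ∀ j, j ∈ B' ↔ j ∈ B ∧ j ≠ n0 ∧ j ≠ n1) (h1 : n1 ∈ B)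
    (hW : W ⊆ cls u w B' 0 0) (hw : Wit B W β Φ) : ∃ v γ : F2 → ι → F2,
    (∀ b j, v b j ≠ 0 → j ∈ B' ∧ β j = b) ∧ (∀ b j, γ b j ≠ 0 → j ∈ B') ∧
    (∀ b b', v b ⬝ᵥ γ b' = v b' ⬝ᵥ γ b) ∧ ∀ (x T : K) (b : F2), ∀ i ∈ univ.erase n0,
      (Amat u w β Φ n1 1 x T 1 *ᵥ
        ((fun j => algebraMap F2 K (v b j)) + Pi.single n1 (cf 1 x 1 b))) i =
          cf 1 x (β i) b * algebraMap F2 K (γ b i) ∧
      ((Amat u w β Φ n1 1 x T 1)ᵀ *ᵥ
        ((fun j => algebraMap F2 K (v b j)) + Pi.single n1 (cf 1 x 1 b))) i =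
          cf 1 x (β i) b * algebraMap F2 K (γ b i) := by
  choose v v1 v2 using fun b => red_onto hw b fun i => w i * β i
  have hc := fun b j (hj : v b j ≠ 0) => mem_filter.1 (hW (v1 b j hj).1)
  refine ⟨v, fun b i => if i ∈ B' then ∑ j, v b j * Φ j i + w i * β i else 0,
    fun b j hj => ⟨(hc b j hj).1, (v1 b j hj).2⟩, fun b j hj => by_contra fun e => hj (if_neg e),
    fun b b' => ?_, fun x T b i hi => ?_⟩
  · have a : ∀ b b', (v b ⬝ᵥ fun i => if i ∈ B' then ∑ j, v b' j * Φ j i + w i * β i else 0) =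
        ∑ i, ∑ j, v b i * (v b' j * Φ j i) := fun b b' => sum_congr rfl fun i _ => by
      by_cases e : v b i = 0
      · simp [e]
      · simp only [(hc b i e).1, (hc b i e).2.2, if_true, zero_mul, add_zero, mul_sum]
    rw [a, a, sum_comm]
    refine sum_congr rfl fun i _ => sum_congr rfl fun j _ => ?_
    by_cases e : v b j = 0
    · simp [e]
    · rw [red_symm ha (hc b j e).2.1 i]
      ring
  · have key : ∀ A : Matrix ι ι K, (∀ j, v b j ≠ 0 →
        A i j = if i = n1 then 0 else cf 1 x (β j) (β i) * algebraMap F2 K (Φ j i)) →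
        A i n1 = (if i = n1 then 0 else algebraMap F2 K (w i * β i)) →
        (A *ᵥ ((fun j => algebraMap F2 K (v b j)) + Pi.single n1 (cf 1 x 1 b))) i =
          cf 1 x (β i) b * algebraMap F2 K
            (if i ∈ B' then ∑ j, v b j * Φ j i + w i * β i else 0) := by
      intro A a1 a2
      have a3 : ∀ j, A i j * algebraMap F2 K (v b j) =
          if i = n1 then 0 else cf 1 x (β i) b * algebraMap F2 K (v b j * Φ j i) := fun j => by
        by_cases e : v b j = 0
        · simp [e]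
        · rw [a1 j e, (v1 b j e).2, red_cf 1 x b, map_mul]
          split_ifs <;> ring
      rw [mulVec_add, Pi.add_apply, mulVec_single, mulVec, dotProduct]
      simp only [a3, op_smul_eq_mul, Pi.smul_apply, col_apply, a2]
      by_cases i1 : i = n1
      · simp [i1, hB]
      have a4 : algebraMap F2 K (w i * β i) * cf 1 x 1 b =
          cf 1 x (β i) b * algebraMap F2 K (w i * β i) := by
        rcases red_cases (β i) with e | e <;> simp [e, mul_comm]
      simp only [i1, if_false]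
      rw [a4, ← mul_sum, ← map_sum, ← mul_add, ← map_add]
      split_ifs with e
      · rfl
      · rw [v2 b i fun e' => e ((hB i).2 ⟨e', (mem_erase.1 hi).1, i1⟩), red_self]
    have e := fun j (hj : v b j ≠ 0) => red_ent (β := β) ha ((hB _).1 (hc b j hj).1).2.2
      (hc b j hj).2.1 (hc b j hj).2.2 (1 : K) x T 1 i
    refine ⟨key _ (fun j hj => (e j hj).2) ?_, key _ (fun j hj => (e j hj).1) ?_⟩ <;>
      by_cases i1 : i = n1 <;> simp [Amat, i1]

omit ha in
theorem Wit.small (hw : Wit B W β Φ) : ∃ W' ⊆ W, #W' ≤ 2 * #Bᶜ ∧ Wit B W' β Φ := by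
  have key : ∀ b : F2, ∃ Z ⊆ W, #Z ≤ #Bᶜ ∧ ∀ η : ι → F2, η ≠ 0 → (∀ j ∈ B, η j = 0) →
      ∃ j ∈ Z, β j = b ∧ (Φ *ᵥ η) j = 1 := by
    intro b
    obtain ⟨Z, z1, -, z2, z3⟩ := exists_linearIndepOn_extension
      (v := fun (j : ι) (i : (Bᶜ : Finset ι)) => Φ j i) (K := F2) (linearIndepOn_empty _ _)
      (Set.empty_subset {j | j ∈ W ∧ β j = b})
    lift Z to Finset ι using Set.toFinite Z
    refine ⟨Z, fun j hj => (z1 hj).1, ?_, fun η h1 h2 => by_contra fun hc => ?_⟩
    · simpa [card_compl] using LinearIndependent.fintype_card_le_finrank z3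
    · obtain ⟨j, j1, j2, j3⟩ := hw b η h1 h2
      obtain ⟨c, hc'⟩ := (Submodule.mem_span_image_finset_iff_exists_fun' F2).1
        (z2 ⟨j, ⟨j1, j2⟩, rfl⟩)
      have a : ∀ l ∈ Z, ∑ i : (Bᶜ : Finset ι), Φ l i * η i = 0 := fun l hl => by
        rw [red_off_sum h2 (Φ l)]
        exact (red_cases _).resolve_right fun e => hc ⟨l, hl, (z1 hl).2, e⟩
      have a' : ∑ i : (Bᶜ : Finset ι), Φ j i * η i = 0 := by
        have e : ∀ i : (Bᶜ : Finset ι), Φ j i = ∑ l ∈ Z, c l * Φ l i := fun i => by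
          simpa using (congrFun hc' i).symm
        simp only [e, sum_mul, mul_assoc]
        rw [sum_comm]
        exact sum_eq_zero fun l hl => by rw [← mul_sum, a l hl, mul_zero]
      exact one_ne_zero (j3.symm.trans ((red_off_sum h2 (Φ j)).symm.trans a'))
  choose Z z1 z2 z3 using key
  refine ⟨Z 0 ∪ Z 1, union_subset (z1 0) (z1 1), (card_union_le _ _).trans ?_, fun b η h1 h2 => ?_⟩
  · have := z2 0
    have := z2 1
    omega
  · obtain ⟨j, j1, j2⟩ := z3 b η h1 h2
    refine ⟨j, ?_, j2⟩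
    rcases red_cases b with rfl | rfl
    exacts [mem_union_left _ j1, mem_union_right _ j1]

end Pool.Agent.Lib.MP_f8d36e_nt
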