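import Pool.Agent.Lib.MP_f8d36e_nt.Test
import Pool.Agent.Lib.MP_f8d36e_nt.Chain
import Pool.Agent.Lib.MP_f8d36e_nt.Eta
import Pool.Agent.Lib.MP_f8d36e_nt.Nons
import Pool.Agent.Lib.MP_f8d36e_nt.Red
import Pool.Agent.Lib.MP_f8d36e_nt.Cond

/-! The random matrix theorem. -/

set_option autoImplicit false

open Matrix Finset

namespace Pool.Agent.Lib.MP_f8d36e_nt

section
variable {ι k : Type} [Fintype ι] [DecidableEq ι] [Field k] [Finite k] [Algebra F2 k]
  {f : k →+* Kb} {v r : ℕ} {a b x1 : k} {B B' W Λ : Finset ι} {u w β : ι → F2}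
  {Φ : Matrix ι ι F2} {n0 n1 i1 : ι}

/-- The data that are fixed once `β` is chosen. -/
structure Dat (v : ℕ) (B B' W : Finset ι) (u w β : ι → F2) (Φ : Matrix ι ι F2) (n0 n1 : ι) :
    Prop where
  ha : ∀ i j, Φ i j + Φ j i = u i * u j + if i = j then u i else 0
  hB : ∀ j, j ∈ B' ↔ j ∈ B ∧ j ≠ n0 ∧ j ≠ n1
  hn : n1 ∈ B
  hne : n1 ≠ n0
  hW : W ⊆ cls u w B' 0 0
  wit : Wit B W β Φ
  cW : #W ≤ 2 * v
  cB : #B'ᶜ ≤ v + 2
  big : 100 ≤ v

omit [Fintype ι] [DecidableEq ι] in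
theorem cls_sub (a b : F2) : cls u w B a b ⊆ B := filter_subset _ _

theorem comb_num1 (hv : 100 ≤ v) (hr : r ≤ 10 * v) {s ρ : ℕ} (hs : s ≤ v + 2) (hρ : ρ ≤ v + 6) :
    40 * r * (r + s + ρ + 1) ≤ v ^ 5 := by
  have h1 : r + s + ρ + 1 ≤ 13 * v := by omega
  calc 40 * r * (r + s + ρ + 1) ≤ 40 * (10 * v) * (13 * v) := by gcongr
    _ = 5200 * v ^ 2 := by ring
    _ ≤ 100 ^ 3 * v ^ 2 := by gcongr; norm_num
    _ ≤ v ^ 3 * v ^ 2 := by gcongr
    _ = v ^ 5 := by ring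

theorem comb_num2 (hv : 100 ≤ v) (hr : r ≤ 10 * v) {s ρ : ℕ} (hs : s ≤ v + 2) (hρ : ρ ≤ v + 6) :
    40 * r * (v + s + ρ + 1) ^ 2 ≤ v ^ 5 := by
  have h1 : v + s + ρ + 1 ≤ 4 * v := by omega
  calc 40 * r * (v + s + ρ + 1) ^ 2 ≤ 40 * (10 * v) * (4 * v) ^ 2 := by gcongr
    _ = 6400 * v ^ 3 := by ring
    _ ≤ 100 ^ 2 * v ^ 3 := by gcongr; norm_num
    _ ≤ v ^ 2 * v ^ 3 := by gcongr
    _ = v ^ 5 := by ring

omit [Fintype ι] in
theorem card_sdiff_le [Fintype ι] (J : Finset ι) : #(J \ B') ≤ #B'ᶜ :=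
  card_le_card fun _ h => mem_compl.mpr (mem_sdiff.mp h).2

/-- A pencil over `k` is good with high probability. -/
theorem good_aux (hl : Line v r f a b x1) (hv : 100 ≤ v) (cB : #B'ᶜ ≤ v + 2) {J : Finset ι}
    {Ψ0 Ψ1 : Matrix ι ι k} (hΛ : Λ ⊆ J ∩ B') (h0 : v ^ 5 ≤ cnt β Λ 0) (h1 : v ^ 5 ≤ cnt β Λ 1)
    (s1 : Shape Λ B' β 1 x1 (a + b * x1) (Ψ0 + x1 • Ψ1) (#B'ᶜ + 4))
    (i1 : Inj B' J J (Ψ0 + x1 • Ψ1)) (i2 : Inj B' J J (Ψ0 + x1 • Ψ1)ᵀ)
    (s2 : ∀ x, x ≠ 0 → Shape Λ B' β 1 x (f a + f b * x) (Ψ0.map f + x • Ψ1.map f) (#B'ᶜ + 4))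
    (i3 : ∀ x : Kb, x ≠ 0 → Inj B' J J (Ψ0.map f + x • Ψ1.map f)) :
    pr (fun S : Sym B' => ¬ Good v (f x1) B' J β (Ψ0.map f) (Ψ1.map f) S) ≤ 6 / 2 ^ r := by
  have a1 := test_point hl.card hΛ (fun _ _ => Iff.rfl) (card_sdiff_le J) (card_sdiff_le J) s1 i1 i2
    h0 h1 (comb_num1 hv hl.hi cB (by omega)) (.inl ⟨rfl, hl.x0, hl.g1, le_rfl⟩)
  have a2 := small_span f (x1 := f x1) hl.card hΛ (card_sdiff_le J) ⟨x1, rfl⟩ s2 i3 hl.line h0 h1
    (comb_num2 hv hl.hi cB (by omega))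
  refine ((pr_mono fun S hS => ?_).trans pr_or_le).trans ((add_le_add a1 a2).trans_eq (by ring))
  by_cases h : Ker J J (mat β 1 x1 (Ψ0 + x1 • Ψ1) S) = ⊥
  · refine .inr ⟨?_, hS⟩
    have := ker_map f h
    rw [mat_map, map_one] at this
    have e : (Ψ0 + x1 • Ψ1).map f = Ψ0.map f + f x1 • Ψ1.map f := by ext i j; simp
    rwa [e] at this
  · exact .inl h

variable (d : Dat v B B' W u w β Φ n0 n1) (hl : Line v r f a b x1)
include d hl

theorem good_Amat (hΛ : Λ ⊆ cls u w B' 0 1) (h0 : v ^ 5 ≤ cnt β Λ 0) (h1 : v ^ 5 ≤ cnt β Λ 1)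
    {J : Finset ι} (hJ : W ∪ Λ ⊆ J) (hJ0 : n0 ∉ J) :
    pr (fun S : Sym B' => ¬ Good v (f x1) B' J β (Amat u w β Φ n1 1 0 (f a) 1)
      (Amat u w β Φ n1 0 1 (f b) 0) S) ≤ 6 / 2 ^ r ∧
    pr (fun S : Sym B' => ¬ Good v (f x1) B' J β (Amat u w β Φ n1 1 0 (f a) 1)ᵀ
      (Amat u w β Φ n1 0 1 (f b) 0)ᵀ S) ≤ 6 / 2 ^ r := by
  have hn : n1 ∉ B' := fun h => ((d.hB _).mp h).2.2 rfl
  have hv := d.big
  obtain ⟨i1, hi⟩ : ({i ∈ Λ | β i = 1} : Finset ι).Nonempty :=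
    card_pos.mp (lt_of_lt_of_le (by positivity) h1)
  rw [mem_filter] at hi
  have hI : insert i1 W ⊆ J := insert_subset (hJ (mem_union_right _ hi.1))
    (subset_union_left.trans hJ)
  have hΛ' : Λ ⊆ J ∩ B' := subset_inter (subset_union_right.trans hJ) (hΛ.trans (cls_sub _ _))
  have e0 : (Amat u w β Φ n1 1 0 a 1).map f = Amat u w β Φ n1 1 0 (f a) 1 := by
    rw [Amat_map, map_one, map_zero]
  have e1 : (Amat u w β Φ n1 0 1 b 0).map f = Amat u w β Φ n1 0 1 (f b) 0 := by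
    rw [Amat_map, map_one, map_zero]
  have t1 := inj_Amat d.ha d.hB d.hW d.wit (hΛ hi.1) hi.2 hI hJ0 (p := 1) (T := a + b * x1)
    hl.x0 one_ne_zero
  have t2 := fun (x : Kb) (hx : x ≠ 0) => inj_Amat d.ha d.hB d.hW d.wit (hΛ hi.1) hi.2 hI hJ0
    (p := 1) (T := f a + f b * x) hx one_ne_zero
  constructor
  · rw [← e0, ← e1]
    refine good_aux hl hv d.cB hΛ' h0 h1 ?_ ?_ ?_ (fun x hx => ?_) fun x hx => ?_
    · rw [Amat_line]; exact (shape_Amat d.ha hΛ hn ..).1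
    · rw [Amat_line]; exact t1.1
    · rw [Amat_line]; exact t1.2
    · rw [e0, e1, Amat_line]; exact (shape_Amat d.ha hΛ hn ..).1
    · rw [e0, e1, Amat_line]; exact (t2 x hx).1
  · rw [← e0, ← e1, ← transpose_map, ← transpose_map]
    refine good_aux hl hv d.cB hΛ' h0 h1 ?_ ?_ ?_ (fun x hx => ?_) fun x hx => ?_
    · rw [← transpose_smul, ← transpose_add, Amat_line]; exact (shape_Amat d.ha hΛ hn ..).2
    · rw [← transpose_smul, ← transpose_add, Amat_line]; exact t1.2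
    · rw [← transpose_smul, ← transpose_add, Amat_line, transpose_transpose]; exact t1.1
    · rw [transpose_map, transpose_map, e0, e1, ← transpose_smul, ← transpose_add, Amat_line]
      exact (shape_Amat d.ha hΛ hn ..).2
    · rw [transpose_map, transpose_map, e0, e1, ← transpose_smul, ← transpose_add, Amat_line]
      exact (t2 x hx).2

omit hl [Finite k] [Algebra F2 k] in
theorem Dat.sub : B' ⊆ (univ.erase n0).erase n1 := fun j h => by
  have := (d.hB j).mp h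
  simp [this.2.1, this.2.2]

theorem generic (hΛ : Λ ⊆ cls u w B' 0 1) (h0 : v ^ 5 ≤ cnt β Λ 0) (h1 : v ^ 5 ≤ cnt β Λ 1)
    (hc : #Λ ≤ 2 * v ^ 5) (hn : v ^ 9 ≤ Fintype.card ι) :
    pr (fun S : Sym B' => ∃ x, x ≠ 0 ∧ Ker (univ.erase n0) ((univ.erase n0).erase n1)
      (mat β 1 x (Amat u w β Φ n1 1 x (f a + f b * x) 1) S) ≠ ⊥) ≤
      6 / 2 ^ r + Fintype.card ι * (2 * (6 / 2 ^ r) + 2 * Fintype.card ι / 2 ^ v) +
        4 * Fintype.card ι / 2 ^ v := by
  have hs := d.sub.trans (erase_subset _ _)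
  have hW : W ∪ Λ ⊆ B' := union_subset (d.hW.trans (cls_sub _ _)) (hΛ.trans (cls_sub _ _))
  obtain ⟨vv, γ, e1, e2, e3, e4⟩ := exists_eta (K := Kb) d.ha d.hB d.hn d.hW d.wit
  have a1 := eta (B := B') (J0 := univ.erase n0) (Ψ0 := Amat u w β Φ n1 1 0 (f a) 1)
    (Ψ1 := Amat u w β Φ n1 0 1 (f b) 0) (x1 := f x1) (σ := v) hs (by simp [d.hne])
    (fun h => ((d.hB _).mp h).2.2 rfl) vv γ e1 e2 e3
    (fun x c i hi => by rw [Amat_line]; exact (e4 x _ c i hi).1)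
    (fun x c i hi => by rw [Amat_line]; exact (e4 x _ c i hi).2)
  have a2 := (good_Amat d hl hΛ h0 h1 (hW.trans hs) (notMem_erase _ _)).1
  have a3 := chain (B := B') (J1 := (B'ᶜ.erase n0) ∪ (W ∪ Λ)) (J0 := univ.erase n0)
    (union_subset (erase_subset_erase _ (subset_univ _)) (hW.trans hs))
    (fun j hj => by
      by_contra h
      simp only [mem_sdiff, mem_union, mem_erase, mem_compl] at hj
      exact hj.2 (.inl ⟨hj.1.1, h⟩))
    (by
      have c1 := card_union_le (B'ᶜ.erase n0) (W ∪ Λ)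
      have c2 := card_union_le W Λ
      have c3 := card_erase_le (s := B'ᶜ) (a := n0)
      have c4 := card_erase_add_one (mem_univ n0)
      have c5 := d.cW
      have c6 := d.cB
      have c7 := d.big
      have c8 : v ≤ v ^ 5 := Nat.le_self_pow (by norm_num) v
      have c9 : 100 ^ 4 * v ^ 5 ≤ v ^ 9 := by
        calc 100 ^ 4 * v ^ 5 ≤ v ^ 4 * v ^ 5 := by gcongr
          _ = v ^ 9 := by ring
      rw [card_univ] at c4
      omega)
    (fun J hJ hJ' => good_Amat d hl hΛ h0 h1 (subset_union_right.trans hJ)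
      fun h => notMem_erase _ _ (hJ' h))
  have a4 : (4 * #(univ.erase n0) / 2 ^ v : ℝ) ≤ 4 * Fintype.card ι / 2 ^ v := by
    gcongr
    exact card_le_univ _
  simp only [pen, Amat_line] at a1
  linarith

theorem point_p (h0 : v ^ 5 ≤ cnt β (cls u w B' 0 1) 0) (h1 : v ^ 5 ≤ cnt β (cls u w B' 0 1) 1)
    (b0 : cnt β B' 0 + v ^ 5 ≤ cnt β B' 1 + cnt β (cls u w B' 0 1) 0)
    (b1 : cnt β B' 1 + v ^ 5 ≤ cnt β B' 0 + cnt β (cls u w B' 0 1) 1) :
    pr (fun S : Sym B' => Ker (univ.erase n0) ((univ.erase n0).erase n1)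
      (mat β 0 1 (Amat u w β Φ n1 0 1 (f b) 1) S) ≠ ⊥) ≤ 5 / 2 ^ r := by
  have hn : n1 ∉ B' := fun h => ((d.hB _).mp h).2.2 rfl
  have hv := d.big
  obtain ⟨i1, hi⟩ : ({i ∈ cls u w B' 0 1 | β i = 1} : Finset ι).Nonempty :=
    card_pos.mp (lt_of_lt_of_le (by positivity) h1)
  rw [mem_filter] at hi
  have hI : insert i1 W ⊆ (univ.erase n0).erase n1 :=
    (insert_subset (cls_sub _ _ hi.1) (d.hW.trans (cls_sub _ _))).trans d.sub
  have e : (univ.erase n0).erase n1 ∩ B' = B' := inter_eq_right.mpr d.sub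
  have a1 := test_point (I := univ.erase n0) (J := (univ.erase n0).erase n1) (p := 0) (q := 1)
    (T := b) (Ψ := Amat u w β Φ n1 0 1 b 1) hl.card (by rw [e]; exact cls_sub _ _)
    (fun i hi => ⟨fun _ => d.sub hi, fun h => mem_of_mem_erase h⟩) (card_sdiff_le _)
    (card_sdiff_le _) (shape_Amat d.ha subset_rfl hn ..).1
    (inj_Amat d.ha d.hB d.hW d.wit hi.1 hi.2 (hI.trans (erase_subset _ _)) (by simp)
      one_ne_zero one_ne_zero).1
    (inj_Amat d.ha d.hB d.hW d.wit hi.1 hi.2 hI (by simp) one_ne_zero one_ne_zero).2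
    h0 h1 (comb_num1 hv hl.hi d.cB (by have := d.cB; omega))
    (.inr ⟨rfl, rfl, hl.b0, hl.gb, card_lt_card ⟨sdiff_subset_sdiff (erase_subset _ _) le_rfl,
      fun h => by simpa using h (x := n1) (by simp [hn, d.hne])⟩, by rwa [e], by rwa [e]⟩)
  refine (pr_mono fun S hS h => hS ?_).trans a1
  have := ker_map f h
  rwa [mat_map, Amat_map, map_one, map_zero] at this

theorem point_q (h : ∀ c, 2 * v ^ 5 ≤ cnt β (cls u w B' 0 1) c) :
    pr (fun S : Sym B' => Ker (univ.erase n0) ((univ.erase n0).erase n1)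
      (mat β 1 0 (Amat u w β Φ n1 1 0 (f a) 1) S) ≠ ⊥) ≤ 10 / 2 ^ r := by
  have hn : n1 ∉ B' := fun h => ((d.hB _).mp h).2.2 rfl
  have hv := d.big
  choose P hP hP' using fun c => exists_subset_card_eq
    (s := {i ∈ cls u w B' 0 1 | β i = c}) (n := v ^ 5) (by have := h c; unfold cnt at this; omega)
  set J := (univ.erase n0).erase n1 with hJ
  have a1 : ∀ c, pr (fun S : Sym B' => Ker {j ∈ J | β j = c} {j ∈ J | β j = c}
      (mat (fun i => if i ∈ P c then 0 else 1) 1 1 (Amat u w β Φ n1 1 0 a 1) S) ≠ ⊥) ≤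
      5 / 2 ^ r := fun c => by
    have t := inj_split (K := k) d.ha d.hB d.hW d.wit (J := J)
      ((d.hW.trans (cls_sub _ _)).trans d.sub) (by simp [hJ]) (by simp [hJ]) a 1 c
    refine test_point (Λ := {i ∈ cls u w B' 0 1 | β i = c}) hl.card
      (fun i hi => ?_) (fun _ _ => Iff.rfl) (card_sdiff_le _) (card_sdiff_le _)
      (shape_split d.ha (filter_subset _ _) hn a 1 _).1 t.1 t.2 ?_ ?_
      (comb_num1 hv hl.hi d.cB (by have := d.cB; omega)) (.inl ⟨rfl, one_ne_zero, hl.ga, le_rfl⟩)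
    · rw [mem_filter] at hi
      exact mem_inter.mpr ⟨mem_filter.mpr ⟨d.sub (cls_sub _ _ hi.1), hi.2⟩, cls_sub _ _ hi.1⟩
    · rw [← hP' c]
      exact card_le_card fun i hi => mem_filter.mpr ⟨hP c hi, if_pos hi⟩
    · have h1 := card_sdiff_add_card_eq_card (hP c)
      have h2 : #({i ∈ cls u w B' 0 1 | β i = c} \ P c) ≤ cnt (fun i => if i ∈ P c then 0 else 1)
          {i ∈ cls u w B' 0 1 | β i = c} 1 := card_le_card fun i hi =>
        mem_filter.mpr ⟨(mem_sdiff.mp hi).1, if_neg (mem_sdiff.mp hi).2⟩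
      have h3 := h c
      have h4 := hP' c
      unfold cnt at h3
      omega
  refine ((pr_mono fun S hS => ?_).trans pr_or_le).trans
    ((add_le_add (a1 0) (a1 1)).trans_eq (by ring))
  by_contra hc
  rw [not_or, not_not, not_not] at hc
  refine hS (ker_split (by simp) (erase_subset _ _) (fun c i => if i ∈ P c then 0 else 1) fun c => ?_)
  have hc' : Ker {j ∈ J | β j = c} {j ∈ J | β j = c}
      (mat (fun i => if i ∈ P c then 0 else 1) 1 1 (Amat u w β Φ n1 1 0 a 1) S) = ⊥ := by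
    fin_cases c
    exacts [hc.1, hc.2]
  have := ker_map f hc'
  rwa [mat_map, Amat_map, map_one, map_zero] at this

/-- All points of the line are good with high probability. -/
theorem line_good (hn : v ^ 9 ≤ Fintype.card ι) (hn' : Fintype.card ι ≤ v ^ 12)
    (hv : 468 * v ^ 24 ≤ 2 ^ v) (h : ∀ c, 2 * v ^ 5 ≤ cnt β (cls u w B' 0 1) c)
    (b0 : cnt β B' 0 + v ^ 5 ≤ cnt β B' 1 + cnt β (cls u w B' 0 1) 0)
    (b1 : cnt β B' 1 + v ^ 5 ≤ cnt β B' 0 + cnt β (cls u w B' 0 1) 1) :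
    pr (fun S : Sym B' => ¬ ((∀ x, Ker (univ.erase n0) ((univ.erase n0).erase n1)
      (mat β 1 x (Amat u w β Φ n1 1 x (f a + f b * x) 1) S) = ⊥) ∧
      Ker (univ.erase n0) ((univ.erase n0).erase n1)
        (mat β 0 1 (Amat u w β Φ n1 0 1 (f b) 1) S) = ⊥)) ≤ 1 / 12 := by
  choose P hP hP' using fun c => exists_subset_card_eq
    (s := {i ∈ cls u w B' 0 1 | β i = c}) (n := v ^ 5) (by have := h c; unfold cnt at this; omega)
  have c0 : ∀ c, P c ⊆ P 0 ∪ P 1 → v ^ 5 ≤ cnt β (P 0 ∪ P 1) c := fun c hc => by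
    rw [← hP' c]
    exact card_le_card fun i hi => mem_filter.mpr ⟨hc hi, (mem_filter.mp (hP c hi)).2⟩
  have a1 := generic d hl (Λ := P 0 ∪ P 1)
    (union_subset ((hP 0).trans (filter_subset _ _)) ((hP 1).trans (filter_subset _ _)))
    (c0 0 subset_union_left) (c0 1 subset_union_right)
    ((card_union_le _ _).trans (by rw [hP', hP']; omega)) hn
  have a2 := point_p d hl (by have := h 0; omega) (by have := h 1; omega) b0 b1
  have a3 := point_q d hl h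
  refine ((pr_mono fun S hS => ?_).trans pr_or_le).trans
    ((add_le_add (pr_or_le.trans (add_le_add a1 a3)) a2).trans ?_)
  · by_contra hc
    simp only [not_or, not_not, not_exists, not_and] at hc
    refine hS ⟨fun x => ?_, hc.2⟩
    rcases eq_or_ne x 0 with rfl | hx
    · simpa only [mul_zero, add_zero] using hc.1.2
    · exact hc.1.1 x hx
  · have e1 : (1 : ℝ) / 2 ^ r ≤ 1 / 2 ^ v := one_div_le_one_div_of_le (by positivity)
      (pow_le_pow_right₀ (by norm_num) (by have := hl.lo; omega))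
    have e2 : (Fintype.card ι : ℝ) ≤ (v : ℝ) ^ 12 := by exact_mod_cast hn'
    have e3 : (468 : ℝ) * (v : ℝ) ^ 24 ≤ 2 ^ v := by exact_mod_cast hv
    have e4 : (1 : ℝ) ≤ (v : ℝ) ^ 12 := one_le_pow₀ (by have := d.big; norm_cast; omega)
    set n : ℝ := (Fintype.card ι : ℝ)
    have e5 : 0 ≤ n := Nat.cast_nonneg _
    set V : ℝ := (v : ℝ) ^ 12 with hV
    have e6 : (v : ℝ) ^ 24 = V * V := by rw [hV]; ring
    set x : ℝ := 1 / 2 ^ v with hx
    set y : ℝ := 1 / 2 ^ r with hy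
    have e7 : 0 ≤ y := by positivity
    have e8 : 468 * (V * V) * x ≤ 1 := by
      rw [hx, mul_one_div, div_le_one (by positivity), ← e6]; exact e3
    have e9 : n * n ≤ V * V := mul_le_mul e2 e2 e5 (by linarith)
    have e10 : V ≤ V * V := le_mul_of_one_le_right (by linarith) e4
    calc _ = (21 + 12 * n) * y + (2 * (n * n) + 4 * n) * x := by rw [hx, hy]; ring
      _ ≤ (21 + 12 * n) * x + (2 * (n * n) + 4 * n) * x := by gcongr
      _ = (21 + 16 * n + 2 * (n * n)) * x := by ring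
      _ ≤ (39 * (V * V)) * x := mul_le_mul_of_nonneg_right (by linarith) (e7.trans e1)
      _ ≤ 1 / 12 := by linarith

end

theorem comb_ev : ∃ v0 : ℕ, ∀ v, v0 ≤ v → 100 ≤ v ∧ 468 * v ^ 24 ≤ 2 ^ v := by
  have h := (tendsto_pow_const_div_const_pow_of_one_lt 24 (r := 2) one_lt_two).eventually
    (gt_mem_nhds (show (0 : ℝ) < 1 / 468 by norm_num))
  obtain ⟨v0, h⟩ := Filter.eventually_atTop.mp (h.and (Filter.eventually_ge_atTop 100))
  refine ⟨v0, fun v hv => ⟨(h v hv).2, ?_⟩⟩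
  have := (h v hv).1
  rw [div_lt_div_iff₀ (by positivity) (by norm_num)] at this
  have h2 : (468 : ℝ) * (v : ℝ) ^ 24 ≤ 2 ^ v := by linarith
  exact_mod_cast h2

theorem cnt_le {ι : Type} [DecidableEq ι] (β : ι → F2) {A A' : Finset ι} {n0 n1 : ι}
    (h : ∀ j ∈ A, j ≠ n0 → j ≠ n1 → j ∈ A') (c : F2) : cnt β A c ≤ cnt β A' c + 2 := by
  refine (card_le_card (t := {i ∈ A' | β i = c} ∪ {n0, n1}) fun j hj => ?_).trans
    ((card_union_le _ _).trans (add_le_add le_rfl card_le_two))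
  rw [mem_filter] at hj
  by_cases h0 : j = n0
  · simp [h0]
  by_cases h1 : j = n1
  · simp [h1]
  exact mem_union_left _ (mem_filter.mpr ⟨h j hj.1 h0 h1, hj.2⟩)

theorem cnt_add {ι : Type} (β : ι → F2) (A : Finset ι) : cnt β A 0 + cnt β A 1 = #A := by
  rw [← card_filter_add_card_filter_not (s := A) fun i => β i = 0]
  unfold cnt
  congr 2
  ext i
  simp only [mem_filter, and_congr_right_iff]
  intro _
  generalize β i = x
  revert x
  decide

theorem fixed_beta : ∃ v0 : ℕ, ∀ v, v0 ≤ v → ∀ (ι : Type) [Fintype ι] [DecidableEq ι]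
    (B : Finset ι) (u w : ι → F2) (ρ : ι → ι → F2) (β : ι → F2), Typ v B u w ρ →
    GoodBeta v B u w (Rmat u ρ) β → 1 / 12 / 2 ^ (#B - 1) ≤ pr (fun s : Alt B =>
      Uniq u w β (Rmat u fun i j => ρ i j + (s : Matrix ι ι F2) i j) ∧
      Crit u w (Rmat u fun i j => ρ i j + (s : Matrix ι ι F2) i j)) := by
  obtain ⟨v0, h⟩ := comb_ev
  refine ⟨v0, fun v hv ι _ _ B u w ρ β ht hb => ?_⟩
  obtain ⟨h100, h468⟩ := h v hv
  obtain ⟨r, k, _, _, _, f, a, b, x1, hl⟩ := exists_line (v := v) (by omega)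
  have n1' : 100 ^ 2 * v ^ 7 ≤ v ^ 9 := by
    calc 100 ^ 2 * v ^ 7 ≤ v ^ 2 * v ^ 7 := by gcongr
      _ = v ^ 9 := by ring
  have n2' : 100 ^ 2 * v ^ 5 ≤ v ^ 7 := by
    calc 100 ^ 2 * v ^ 5 ≤ v ^ 2 * v ^ 5 := by gcongr
      _ = v ^ 7 := by ring
  have n3' : 1 ≤ v ^ 5 := Nat.one_le_pow _ _ (by omega)
  have h5 := ht.five
  have hex : ∀ c, ∃ n, n ∈ B ∧ u n = 0 ∧ w n = 1 ∧ β n = c := fun c => by
    obtain ⟨n, hn⟩ : ({i ∈ cls u w B 0 1 | β i = c} : Finset ι).Nonempty :=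
      card_pos.mp (by have := hb.bal5 c; unfold cnt at this; omega)
    simp only [cls, mem_filter] at hn
    exact ⟨n, hn.1.1, hn.1.2.1, hn.1.2.2, hn.2⟩
  obtain ⟨n0, m0, -, w0, b0⟩ := hex 0
  obtain ⟨n1, m1, -, w1, b1⟩ := hex 1
  obtain ⟨W, hW, cW, hW'⟩ := hb.wit.small
  set B' := (B.erase n0).erase n1 with hB'
  have hB : ∀ j, j ∈ B' ↔ j ∈ B ∧ j ≠ n0 ∧ j ≠ n1 := fun j => by simp [hB']; tauto
  have hbord := ht.bord
  have d : Dat v B B' W u w β (Rmat u ρ) n0 n1 :=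
    { ha := Rmat_anti ht.anti
      hB := hB
      hn := m1
      hne := fun e => by rw [e, b0] at b1; exact zero_ne_one b1
      hW := fun j hj => by
        have := hW hj
        simp only [cls, mem_filter] at this ⊢
        refine ⟨(hB j).mpr ⟨this.1, ?_, ?_⟩, this.2⟩ <;> rintro rfl
        · exact zero_ne_one (this.2.2.symm.trans w0)
        · exact zero_ne_one (this.2.2.symm.trans w1)
      wit := hW'
      cW := by omega
      cB := by
        refine (card_le_card (t := Bᶜ ∪ {n0, n1}) fun j hj => ?_).trans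
          ((card_union_le _ _).trans (add_le_add hbord card_le_two))
        simp only [mem_compl, hB, mem_union, mem_insert, mem_singleton] at hj ⊢
        tauto
      big := h100 }
  have k1 := cnt_le β (A := cls u w B 0 1) (A' := cls u w B' 0 1) (n0 := n0) (n1 := n1)
    fun j hj e0 e1 => by
      simp only [cls, mem_filter] at hj ⊢
      exact ⟨(hB j).mpr ⟨hj.1, e0, e1⟩, hj.2⟩
  have k2 := cnt_le β (A := B) (A' := B') (n0 := n0) (n1 := n1)
    fun j hj e0 e1 => (hB j).mpr ⟨hj, e0, e1⟩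
  have k3 := cnt_le β (A := B') (A' := B) (n0 := n0) (n1 := n1) fun j hj _ _ => ((hB j).mp hj).1
  have k4 := cnt_add β B
  have k5 : ∀ c, 2 * v ^ 5 ≤ cnt β (cls u w B' 0 1) c := fun c => by
    have := k1 c; have := hb.bal5 c; omega
  have a1 := line_good d hl (h5.trans (card_le_univ _)) ht.card h468 k5
    (by have := k1 0; have := hb.bal5 0; have := hb.bal 1; have := k2 1; have := k3 0; omega)
    (by have := k1 1; have := hb.bal5 1; have := hb.bal 0; have := k2 0; have := k3 1; omega)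
  obtain ⟨i0, hi⟩ : ({i ∈ cls u w B' 0 1 | β i = 0} : Finset ι).Nonempty :=
    card_pos.mp (by have := k5 0; unfold cnt at this; omega)
  simp only [cls, mem_filter] at hi
  have t := inj_two d.ha hB d.hW hW' (J := (univ.erase n0).erase n1) (by simp) (by simp)
  have a2 := nonsing (i0 := i0) d.sub (d.hW.trans (cls_sub _ _)) hi.1.1
    (fun h => zero_ne_one ((mem_filter.mp (d.hW h)).2.2.symm.trans hi.1.2.2))
    (fun j hj i _ => t.2 j (by
      rcases mem_insert.mp hj with rfl | hj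
      exacts [hi.1.2.1, (mem_filter.mp (d.hW hj)).2.1]) i) t.1
  have a3 := (sub_le_sub a2 a1).trans pr_and_ge
  refine le_trans (div_le_div_of_nonneg_right (le_trans (by norm_num) a3) (by positivity))
    ((cond m0 m1 b0 b1 ht.anti ht.su ht.sw hb.bord _).trans (pr_mono fun s hs => ?_))
  obtain ⟨hR, S, ⟨e1, e2, e3⟩, hS⟩ := hs
  have han : ∀ i j, i ≠ j → (ρ i j + (s : Matrix ι ι F2) i j) + (ρ j i + (s : Matrix ι ι F2) j i) =
      u i * u j := fun i j hij => by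
    rw [← ht.anti i j hij, s.2.1.1 j i, add_add_add_comm, CharTwo.add_self_eq_zero, add_zero]
  have hsum := sums_of_anti han ht.su ht.sw
  have hU := red_uniq hsum (Rmat_anti han) hR hb.hu hb.hw b0 b1 hS e1
  have hS1 : ∀ j, (S : Matrix ι ι F2) n1 j = 0 := fun j => S.2.2 n1 j (notMem_erase _ _)
  refine ⟨hU, β, hU, f a, f b, fun p q hpq => ?_⟩
  rcases eq_or_ne p 0 with rfl | hp
  · have hq : q ≠ 0 := by simpa using hpq
    simpa [mul_comm] using (red_good hsum hR hb.hu hb.hw b0 b1 hS1 hS e3).smul hq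
  · have := (red_good hsum hR hb.hu hb.hw b0 b1 hS1 hS (e2 (q / p))).smul hp
    rwa [mul_one, mul_div_cancel₀ _ hp,
      show p * (f a + f b * (q / p)) = f a * p + f b * q by field_simp] at this

theorem comb_main : ∃ v0 : ℕ, ∀ v, v0 ≤ v → ∀ (ι : Type) [Fintype ι] [DecidableEq ι]
    (B : Finset ι) (u w : ι → F2) (ρ : ι → ι → F2), Typ v B u w ρ →
    1 / 48 ≤ pr (fun s : Alt B => Crit u w (Rmat u fun i j => ρ i j + (s : Matrix ι ι F2) i j)) := by
  classical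
  obtain ⟨v0, h0⟩ := fixed_beta
  obtain ⟨v1, h1⟩ := card_goodBeta
  refine ⟨max v0 v1, fun v hv ι _ _ B u w ρ ht => ?_⟩
  have a1 := h1 v (le_of_max_le_right hv) ι B u w ρ ht
  refine le_trans ?_ (sum_pr_le {β : ι → F2 | GoodBeta v B u w (Rmat u ρ) β}
    (fun β (s : Alt B) => Uniq u w β (Rmat u fun i j => ρ i j + (s : Matrix ι ι F2) i j) ∧
      Crit u w (Rmat u fun i j => ρ i j + (s : Matrix ι ι F2) i j)) (fun _ _ _ h => h.2)
    fun β _ β' _ s h h' => ?_)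
  · refine le_trans ?_ (card_nsmul_le_sum _ _ _ fun β hβ =>
      h0 v (le_of_max_le_left hv) ι B u w ρ β ht (mem_filter.mp hβ).2)
    obtain ⟨j, hj, -⟩ := ht.exu
    obtain ⟨n, hn⟩ : ∃ n, #B = n + 1 := ⟨#B - 1, by have := card_pos.mpr ⟨j, hj⟩; omega⟩
    rw [hn] at a1
    have a2 : (2 : ℝ) ^ (n + 1) ≤ 8 * #{β : ι → F2 | GoodBeta v B u w (Rmat u ρ) β} := by
      exact_mod_cast a1
    rw [hn, Nat.add_sub_cancel, nsmul_eq_mul, ← mul_div_assoc, le_div_iff₀ (by positivity)]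
    rw [pow_succ] at a2
    linarith
  · rcases h'.1.uniq β (by rw [h.1.hu, one_smul, h.1.hR]) with e | e
    · have := h.1.hu
      rw [e, dotProduct_zero] at this
      exact absurd this zero_ne_one
    · exact e

end Pool.Agent.Lib.MP_f8d36e_nt
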