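import Pool.Agent.Lib.MP_f8d36e_nt.Lim

/-! Job B0: the abelian quotient and the conjugation action. -/

set_option autoImplicit false

namespace Pool.Agent.Lib.MP_f8d36e_nt

section
variable {G : Type} [Group G]

/-- Conjugation on the quotient. -/
def ctxEx_conj (K N : Subgroup G) [K.Normal] [N.Normal] (g : G) :
    (K ⧸ N.subgroupOf K) →* (K ⧸ N.subgroupOf K) :=
  QuotientGroup.map _ _ (MulAut.conjNormal g : MulAut K).toMonoidHom (by
    intro x hx
    have hx' : (x : G) ∈ N := hx
    have : g * (x : G) * g⁻¹ ∈ N := Subgroup.Normal.conj_mem inferInstance _ hx' g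
    exact this)

theorem ctxEx_conj_mk (K N : Subgroup G) [K.Normal] [N.Normal] (g : G) (x : K) :
    ctxEx_conj K N g (QuotientGroup.mk x) = QuotientGroup.mk (MulAut.conjNormal g x) := rfl

theorem ctxEx_comm (K N : Subgroup G) [N.Normal]
    (hc : ∀ a ∈ K, ∀ b ∈ K, a * b * a⁻¹ * b⁻¹ ∈ N) (x y : K ⧸ N.subgroupOf K) :
    x * y = y * x := by
  obtain ⟨a, rfl⟩ := QuotientGroup.mk_surjective x
  obtain ⟨b, rfl⟩ := QuotientGroup.mk_surjective y
  rw [← QuotientGroup.mk_mul, ← QuotientGroup.mk_mul, QuotientGroup.eq, Subgroup.mem_subgroupOf]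
  have := hc (b⁻¹ : K) (b⁻¹).2 (a⁻¹ : K) (a⁻¹).2
  simpa [mul_assoc] using this

theorem ctxEx_pow [TopologicalSpace G] [IsTopologicalGroup G] [CompactSpace G] {N W : Subgroup G}
    (h2 : ProTwo N) (hW : W.Normal) (hO : IsOpen (W : Set G)) (hle : N ≤ W) :
    ∃ n : ℕ, ∀ g : G, g ^ 2 ^ n ∈ W := by
  have : Finite (G ⧸ W) := Subgroup.quotient_finite_of_isOpen W hO
  have hp : IsPGroup 2 (G ⧸ W) := by
    intro q
    obtain ⟨g, rfl⟩ := QuotientGroup.mk_surjective q
    obtain ⟨n, hn⟩ := h2 W hW hO hle g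
    exact ⟨n, by rw [← QuotientGroup.mk_pow, QuotientGroup.eq_one_iff]; exact hn⟩
  obtain ⟨n, hn⟩ := IsPGroup.iff_card.1 hp
  refine ⟨n, fun g => ?_⟩
  rw [← QuotientGroup.eq_one_iff, QuotientGroup.mk_pow, ← hn]
  exact pow_card_eq_one'

end

theorem exists_ctx {G : Type} [Group G] [TopologicalSpace G] [IsTopologicalGroup G]
    [CompactSpace G] [TotallyDisconnectedSpace G] (K N : Subgroup G) [K.Normal] [N.Normal]
    (hK : IsClosed (K : Set G)) (hN : IsClosed (N : Set G)) (hle : N ≤ K)
    (hc : ∀ a ∈ K, ∀ b ∈ K, a * b * a⁻¹ * b⁻¹ ∈ N) (h2 : ProTwo N) :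
    ∃ (M : Type) (_ : AddCommGroup M) (_ : TopologicalSpace M) (_ : IsTopologicalAddGroup M)
      (_ : CompactSpace M) (_ : T2Space M) (cx : Ctx K N M),
      ∀ a g : G, Unip (cx.act a) (cx.act g) := by
  let cg : CommGroup (K ⧸ N.subgroupOf K) :=
    { (inferInstance : Group (K ⧸ N.subgroupOf K)) with mul_comm := ctxEx_comm K N hc }
  have : CompactSpace K := isCompact_iff_compactSpace.1 hK.isCompact
  have : IsClosed ((N.subgroupOf K : Subgroup K) : Set K) :=
    hN.preimage continuous_subtype_val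
  have hT2 : T2Space (K ⧸ N.subgroupOf K) := inferInstance
  have hcomp : CompactSpace (K ⧸ N.subgroupOf K) := inferInstance
  let act : G →* AddMonoid.End (Additive (K ⧸ N.subgroupOf K)) :=
    { toFun := fun g => MonoidHom.toAdditive (ctxEx_conj K N g)
      map_one' := by
        refine AddMonoidHom.ext fun x => ?_
        obtain ⟨a, ha⟩ := QuotientGroup.mk_surjective (Additive.toMul x)
        have hx : x = Additive.ofMul (QuotientGroup.mk a) := by rw [ha]; rfl
        subst hx
        change Additive.ofMul (ctxEx_conj K N 1 (QuotientGroup.mk a)) = _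
        rw [ctxEx_conj_mk, map_one]
        rfl
      map_mul' := by
        intro g h
        refine AddMonoidHom.ext fun x => ?_
        obtain ⟨a, ha⟩ := QuotientGroup.mk_surjective (Additive.toMul x)
        have hx : x = Additive.ofMul (QuotientGroup.mk a) := by rw [ha]; rfl
        subst hx
        change Additive.ofMul (ctxEx_conj K N (g * h) (QuotientGroup.mk a)) =
          Additive.ofMul (ctxEx_conj K N g (ctxEx_conj K N h (QuotientGroup.mk a)))
        rw [ctxEx_conj_mk, ctxEx_conj_mk, ctxEx_conj_mk, map_mul]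
        rfl }
  have hact : ∀ (g : G) (a : K), act g (Additive.ofMul (QuotientGroup.mk a)) =
      Additive.ofMul (QuotientGroup.mk (MulAut.conjNormal g a)) := fun g a => rfl
  have hsurj : ∀ x : Additive (K ⧸ N.subgroupOf K), ∃ a : K,
      x = Additive.ofMul (QuotientGroup.mk a) := by
    intro x
    obtain ⟨a, ha⟩ := QuotientGroup.mk_surjective (Additive.toMul x)
    exact ⟨a, by rw [ha]; rfl⟩
  let π : K →* Multiplicative (Additive (K ⧸ N.subgroupOf K)) :=
    { toFun := fun a => Multiplicative.ofAdd (Additive.ofMul (QuotientGroup.mk a))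
      map_one' := rfl
      map_mul' := fun _ _ => rfl }
  have hcont : Continuous fun z : G × Additive (K ⧸ N.subgroupOf K) => act z.1 z.2 := by
    have hq : IsOpenQuotientMap
        (Prod.map (id : G → G) (QuotientGroup.mk : K → K ⧸ N.subgroupOf K)) :=
      IsOpenQuotientMap.id.prodMap QuotientGroup.isOpenQuotientMap_mk
    have hc1 : Continuous fun z : G × K => (MulAut.conjNormal z.1 z.2 : K) := by
      refine continuous_induced_rng.2 ?_
      change Continuous fun z : G × K => z.1 * (z.2 : G) * z.1⁻¹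
      fun_prop
    have hc2 : Continuous fun z : G × (K ⧸ N.subgroupOf K) => ctxEx_conj K N z.1 z.2 := by
      rw [← hq.continuous_comp_iff]
      exact QuotientGroup.continuous_mk.comp hc1
    exact hc2
  refine ⟨Additive (K ⧸ N.subgroupOf K), inferInstance, inferInstance, inferInstance,
    hcomp, hT2,
    { π := π, act := act, cont := QuotientGroup.continuous_mk,
      surj := fun x => ?_, ker := ?_, spec := ?_, cont_act := hcont }, ?_⟩
  · obtain ⟨a, ha⟩ := hsurj x.toAdd
    exact ⟨a, by change Multiplicative.ofAdd _ = x; rw [← ha]; rfl⟩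
  · ext a
    rw [MonoidHom.mem_ker, ← QuotientGroup.eq_one_iff]
    exact Iff.rfl
  · intro g x y hy
    have : y = MulAut.conjNormal g x := Subtype.ext hy
    subst this
    rfl
  · intro a g O hO
    obtain ⟨O', hO'O, hO', h0⟩ := mem_nhds_iff.1 hO
    have hU : IsOpen ((fun k : K => (Additive.ofMul (QuotientGroup.mk k) :
        Additive (K ⧸ N.subgroupOf K))) ⁻¹' O') := hO'.preimage QuotientGroup.continuous_mk
    obtain ⟨V, hV, hVU⟩ := isOpen_induced_iff.1 hU
    have hNV : (N : Set G) ⊆ V := by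
      intro n hn
      have h1 : (⟨n, hle hn⟩ : K) ∈ Subtype.val ⁻¹' V := by
        rw [hVU]
        have : (QuotientGroup.mk (⟨n, hle hn⟩ : K) : K ⧸ N.subgroupOf K) = 1 :=
          (QuotientGroup.eq_one_iff _).2 hn
        change Additive.ofMul (QuotientGroup.mk _) ∈ O'
        rw [this]
        exact h0
      exact h1
    obtain ⟨W, hWn, hWo, hNW, hWV⟩ := exists_open_normal N hN hV hNV
    obtain ⟨n, hn⟩ := ctxEx_pow h2 hWn hWo hNW
    let W' : AddSubgroup (Additive (K ⧸ N.subgroupOf K)) :=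
      Subgroup.toAddSubgroup ((W.subgroupOf K).map (QuotientGroup.mk' (N.subgroupOf K)))
    have hmem : ∀ k : K, (k : G) ∈ W → (Additive.ofMul (QuotientGroup.mk k) :
        Additive (K ⧸ N.subgroupOf K)) ∈ W' := fun k hk => ⟨k, hk, rfl⟩
    have hmem' : ∀ x ∈ W', ∃ k : K, (k : G) ∈ W ∧ x = Additive.ofMul (QuotientGroup.mk k) := by
      rintro x ⟨k, hk, hx⟩
      refine ⟨k, hk, ?_⟩
      have : Additive.toMul x = QuotientGroup.mk k := hx.symm
      rw [← this]; rfl
    have hstab : ∀ b : G, ∀ x ∈ W', act b x ∈ W' := by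
      intro b x hx
      obtain ⟨k, hk, rfl⟩ := hmem' x hx
      rw [hact]
      exact hmem _ (hWn.conj_mem _ hk b)
    have hpow : ∀ (b : G) (x : Additive (K ⧸ N.subgroupOf K)),
        (act b ^ 2 ^ n) x - x ∈ W' := by
      intro b x
      obtain ⟨k, rfl⟩ := hsurj x
      rw [← map_pow, hact]
      have h3 : ((MulAut.conjNormal (b ^ 2 ^ n) k * k⁻¹ : K) : G) ∈ W := by
        have h4 := W.mul_mem (hn b) (hWn.conj_mem _ (W.inv_mem (hn b)) k)
        have h5 : ((MulAut.conjNormal (b ^ 2 ^ n) k * k⁻¹ : K) : G) =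
            b ^ 2 ^ n * ((k : G) * (b ^ 2 ^ n)⁻¹ * (k : G)⁻¹) := by
          generalize b ^ 2 ^ n = c
          simp [mul_assoc]
        rw [h5]; exact h4
      have h6 := hmem _ h3
      rw [sub_eq_add_neg]
      exact h6
    refine ⟨W', ?_, ?_, hstab a, hstab g, n, fun x => ⟨?_, hpow a x, hpow g x⟩⟩
    · have h7 : IsOpen ((W.subgroupOf K : Subgroup K) : Set K) :=
        hWo.preimage continuous_subtype_val
      exact QuotientGroup.isOpenMap_coe _ h7
    · intro x hx
      obtain ⟨k, hk, rfl⟩ := hmem' x hx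
      have h8 : k ∈ Subtype.val ⁻¹' V := hWV hk
      rw [hVU] at h8
      exact hO'O h8
    · obtain ⟨k, rfl⟩ := hsurj x
      have h9 := hmem (k ^ 2 ^ n) (by simpa using hn k)
      rw [QuotientGroup.mk_pow, ofMul_pow] at h9
      exact h9

end Pool.Agent.Lib.MP_f8d36e_nt
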