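import Mathlib

set_option autoImplicit false

open scoped Pointwise MvPowerSeries.WithPiTopology

namespace Pool.Agent.Lib.MP_f8d36e_nt

/-- An algebraic closure of the rationals. -/
abbrev Qbar : Type := AlgebraicClosure ℚ

instance : IsAlgClosure ℚ Qbar := ⟨inferInstance, AlgebraicClosure.isAlgebraic ℚ⟩

/-- The absolute Galois group of the rationals, with its Krull topology. -/
abbrev Gam : Type := Qbar ≃ₐ[ℚ] Qbar

/-- The ring of all algebraic integers. -/
abbrev Zbar : Type := integralClosure ℤ Qbar

/-- The intersection of the kernels of all continuous surjections from `H` onto `Z_p`.  For a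
subgroup `H` of `Gam` this is the Galois group of `Qbar` over the compositum of all
`Z_p`-extensions of the fixed field of `H`. -/
noncomputable def tildeGal (p : ℕ) [Fact p.Prime] {G : Type} [Group G] [TopologicalSpace G]
    (H : Subgroup G) : Subgroup G :=
  H ⊓ sInf {K | ∃ ρ : H →* Multiplicative ℤ_[p],
    Continuous ρ ∧ Function.Surjective ρ ∧ K = ρ.ker.map H.subtype}

/-- `U` contains the part in `H` of every inertia group. -/
def Unram (H U : Subgroup Gam) : Prop :=
  ∀ P : Ideal Zbar, P.IsMaximal → P.inertia Gam ⊓ H ≤ U

/-- `U` contains the part in `H` of every decomposition group above `p`. -/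
def SplitAt (p : ℕ) (H U : Subgroup Gam) : Prop :=
  ∀ P : Ideal Zbar, P.IsMaximal → (p : Zbar) ∈ P → MulAction.stabilizer Gam P ⊓ H ≤ U

/-- `U` contains every complex conjugation that lies in `H`. -/
def RealSplit (H U : Subgroup Gam) : Prop :=
  ∀ (j : Qbar →+* ℂ) (c : Gam), (∀ x : Qbar, j (c x) = star (j x)) → c ∈ H → c ∈ U

/-- `U` is the group of a finite abelian `p`-extension of the fixed field of `H` that is
unramified at every prime (finite or real) and in which every prime above `p` splits
completely. -/
structure IsSplitLayer (p : ℕ) (H U : Subgroup Gam) : Prop where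
  le : U ≤ H
  isOpen : IsOpen (U.subgroupOf H : Set H)
  comm : ∀ a ∈ H, ∀ b ∈ H, a * b * a⁻¹ * b⁻¹ ∈ U
  index : ∃ n : ℕ, U.relIndex H = p ^ n
  unram : Unram H U
  split : SplitAt p H U
  real : RealSplit H U

/-- The Galois group of `Qbar` over the maximal abelian pro-`p` extension of the fixed field of
`H` that is unramified at every prime and split at every prime above `p`. -/
noncomputable def splitGal (p : ℕ) (H : Subgroup Gam) : Subgroup Gam :=
  H ⊓ ⨅ U : {U : Subgroup Gam // IsSplitLayer p H U}, U.1

/-- The Iwasawa algebra in `d` variables. -/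
abbrev Iw (p d : ℕ) [Fact p.Prime] : Type := MvPowerSeries (Fin d) ℤ_[p]

/-- `f` is a continuous surjection from `A` onto `Y` with kernel `B`. -/
def IsQuot {G : Type} [Group G] [TopologicalSpace G] (A B : Subgroup G) {Y : Type}
    [AddCommGroup Y] [TopologicalSpace Y] (f : A →* Multiplicative Y) : Prop :=
  Continuous f ∧ Function.Surjective f ∧ f.ker = B.subgroupOf A

/-- Through `π`, conjugation by `g` on `K` is multiplication by `r` on `X`. -/
def ConjBy {G : Type} [Group G] (K : Subgroup G) {R X : Type} [CommRing R] [AddCommGroup X]
    [Module R X] (π : K →* Multiplicative X) (g : G) (r : R) : Prop :=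
  ∀ x y : K, (y : G) = g * x * g⁻¹ → (π y).toAdd = r • (π x).toAdd

/-- `X` is a finitely generated module whose localization at every prime of height at most one
vanishes. -/
def PseudoNull (R X : Type) [CommRing R] [AddCommGroup X] [Module R X] : Prop :=
  Module.Finite R X ∧ ∀ P : PrimeSpectrum R, P.asIdeal.height ≤ 1 →
    Subsingleton (LocalizedModule P.asIdeal.primeCompl X)

/-- `X` is a Hausdorff topological module. -/
def TopMod (R X : Type) [CommRing R] [TopologicalSpace R] [AddCommGroup X] [TopologicalSpace X]
    [Module R X] : Prop :=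
  T2Space X ∧ ContinuousAdd X ∧ ContinuousSMul R X

/-- There is an identification `e` of `H / K` with `Z_p ^ d`, the group `X = K / L` carries a
continuous action of the Iwasawa algebra in which `1 + T_i` is conjugation by the `i`-th basis
element, and `X` is finitely generated and pseudo-null. -/
def NullTower (p d : ℕ) [Fact p.Prime] {G : Type} [Group G] [TopologicalSpace G]
    (H K L : Subgroup G) : Prop :=
  ∃ e : H →* Multiplicative (Fin d → ℤ_[p]), IsQuot H K e ∧
    ∃ (X : Type) (_ : AddCommGroup X) (_ : TopologicalSpace X) (_ : Module (Iw p d) X)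
      (π : K →* Multiplicative X),
      TopMod (Iw p d) X ∧ IsQuot K L π ∧
      (∀ (i : Fin d) (g : H), e g = Multiplicative.ofAdd (Pi.single i 1) →
        ConjBy K π (g : G) (1 + MvPowerSeries.X i : Iw p d)) ∧
      PseudoNull (Iw p d) X

/-- Greenberg's generalized conjecture (split form) for the fixed field of `H` and the prime `p`,
with rank `d`. -/
def GGC (p d : ℕ) [Fact p.Prime] (H : Subgroup Gam) : Prop :=
  NullTower p d H (tildeGal p H) (splitGal p (tildeGal p H))

end Pool.Agent.Lib.MP_f8d36e_nt
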