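import Pool.Agent.Lib.MP_f8d36e_nt.Pr

/-! Job E2: kernel vectors with unlikely spans. -/

set_option autoImplicit false

open Matrix Finset

namespace Pool.Agent.Lib.MP_f8d36e_nt

theorem degen_cases (b : F2) : b = 0 ∨ b = 1 := by
  revert b
  decide

theorem degen_ne (b b' : F2) (h : b ≠ b') : b' = b + 1 := by
  revert b b'
  decide

theorem degen_ne_succ (b : F2) : b ≠ b + 1 := by
  revert b
  decide

theorem degen_one_one : (1 : F2) + 1 = 0 := by decide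

/-- Counting through fibres. -/
theorem degen_card_le {α γ δ : Type} [Finite γ] [Finite δ] (c : α → γ)
    (h : ∀ a0, ∃ g : {a // c a = c a0} → δ, Function.Injective g) :
    Nat.card α ≤ Nat.card γ * Nat.card δ := by
  have h1 : ∀ x : γ, ∃ g : {a // c a = x} → δ, Function.Injective g := by
    intro x
    by_cases hx : ∃ a, c a = x
    · obtain ⟨a, rfl⟩ := hx
      exact h a
    · exact ⟨fun a => (hx ⟨a.1, a.2⟩).elim, fun a => (hx ⟨a.1, a.2⟩).elim⟩
  choose g hg using h1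
  have h2 : ∀ (x y : γ) (e : x = y) (a : α) (ha : c a = x),
      g x ⟨a, ha⟩ = g y ⟨a, ha.trans e⟩ := by
    intro x y e a ha
    subst e
    rfl
  rw [← Nat.card_prod]
  refine Nat.card_le_card_of_injective (fun a => (c a, g (c a) ⟨a, rfl⟩)) ?_
  intro a a' e
  have e1 : c a = c a' := congrArg Prod.fst e
  have e2 : g (c a) ⟨a, rfl⟩ = g (c a') ⟨a', rfl⟩ := congrArg Prod.snd e
  rw [h2 _ _ e1 a rfl] at e2
  exact congrArg Subtype.val (hg _ e2)

theorem degen_prod {ι : Type} (β : ι → F2) (A : Finset ι) (g : F2 → ℕ) :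
    ∏ i ∈ A, g (β i) = g 0 ^ cnt β A 0 * g 1 ^ cnt β A 1 := by
  rw [← prod_filter_mul_prod_filter_not A (fun i => β i = 0)]
  have e : A.filter (fun i => ¬ β i = 0) = A.filter (fun i => β i = 1) := by
    refine filter_congr fun i _ => ?_
    rcases degen_cases (β i) with h | h <;> simp [h]
  rw [e, prod_congr rfl (g := fun _ => g 0) fun i hi => by rw [(mem_filter.1 hi).2],
    prod_congr (s₁ := A.filter (fun i => β i = 1)) rfl (g := fun _ => g 1)
      fun i hi => by rw [(mem_filter.1 hi).2], prod_const, prod_const]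
  rfl

theorem degen_cnt_sdiff {ι : Type} [DecidableEq ι] (β : ι → F2) {A Λ : Finset ι} (h : Λ ⊆ A)
    (b : F2) : cnt β (A \ Λ) b = cnt β A b - cnt β Λ b := by
  unfold cnt
  rw [← card_sdiff_of_subset (filter_subset_filter _ h)]
  refine congrArg card ?_
  ext i
  simp only [mem_filter, mem_sdiff]
  tauto

section
variable {ι K : Type} [Field K]

theorem degen_mem_Ws {p q : K} {V V' : AddSubgroup K} {a : K} :
    a ∈ Ws p q V V' ↔ ∃ x ∈ V, ∃ x' ∈ V', p * x + q * x' = a := by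
  simp only [Ws, AddSubgroup.mem_sup, AddSubgroup.mem_map, AddMonoidHom.coe_mulLeft]
  constructor
  · rintro ⟨_, ⟨x, hx, rfl⟩, _, ⟨x', hx', rfl⟩, h⟩
    exact ⟨x, hx, x', hx', h⟩
  · rintro ⟨x, hx, x', hx', h⟩
    exact ⟨_, ⟨x, hx, rfl⟩, _, ⟨x', hx', rfl⟩, h⟩

theorem degen_surj (p q : K) (V V' : AddSubgroup K) : Function.Surjective
    (fun x : V × V' =>
      (⟨p * x.1 + q * x.2, degen_mem_Ws.2 ⟨_, x.1.2, _, x.2.2, rfl⟩⟩ : Ws p q V V')) := by
  rintro ⟨a, ha⟩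
  obtain ⟨x, hx, x', hx', rfl⟩ := degen_mem_Ws.1 ha
  exact ⟨(⟨x, hx⟩, ⟨x', hx'⟩), rfl⟩

theorem degen_finite_Ws (p q : K) (V V' : AddSubgroup K) [Finite V] [Finite V'] :
    Finite (Ws p q V V') :=
  Finite.of_surjective _ (degen_surj p q V V')

theorem degen_card_Ws (p q : K) (V V' : AddSubgroup K) [Finite V] [Finite V'] :
    Nat.card (Ws p q V V') ≤ Nat.card V * Nat.card V' := by
  rw [← Nat.card_prod]
  exact Nat.card_le_card_of_surjective _ (degen_surj p q V V')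

theorem degen_finite_of_le {V k : AddSubgroup K} [Finite k] (h : V ≤ k) : Finite V :=
  Finite.of_injective _ (AddSubgroup.inclusion_injective h)

theorem degen_mem_Vs {B : Finset ι} (β : ι → F2) (y : ι → K) {j : ι} (hj : j ∈ B) :
    y j ∈ Vs B β (β j) y :=
  AddSubgroup.subset_closure ⟨j, ⟨hj, rfl⟩, rfl⟩

variable [Algebra F2 K]

theorem degen_cf_mem (p q : K) (V : F2 → AddSubgroup K) (b b' e : F2) {a : K} (ha : a ∈ V b') :
    cf p q b b' * algebraMap F2 K e * a ∈ Ws p q (V b) (V (b + 1)) := by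
  rcases degen_cases e with rfl | rfl
  · simp
  · rw [map_one, mul_one]
    by_cases h : b = b'
    · subst h
      exact degen_mem_Ws.2 ⟨a, ha, 0, zero_mem _, by simp [cf]⟩
    · exact degen_mem_Ws.2 ⟨0, zero_mem _, a, degen_ne b b' h ▸ ha, by simp [cf, h]⟩

theorem degen_form_mem [Fintype ι] {k : AddSubgroup K} (l : ι → F2) {y : ι → K}
    (hy : ∀ j, y j ∈ k) : ∑ j, algebraMap F2 K (l j) * y j ∈ k := by
  refine sum_mem fun j _ => ?_
  rcases degen_cases (l j) with h | h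
  · simp [h]
  · simpa [h] using hy j

theorem degen_mulVec [Fintype ι] (β : ι → F2) (p q : K) (Ψ : Matrix ι ι K) {B : Finset ι}
    (S : Sym B) (y : ι → K) (i : ι) : (mat β p q Ψ S *ᵥ y) i =
      (Ψ *ᵥ y) i + ∑ j ∈ B, cf p q (β i) (β j) * algebraMap F2 K (S.1 i j) * y j := by
  have e : ∑ j ∈ B, cf p q (β i) (β j) * algebraMap F2 K (S.1 i j) * y j =
      ∑ j, cf p q (β i) (β j) * algebraMap F2 K (S.1 i j) * y j := by
    refine sum_subset (subset_univ _) fun j _ hj => ?_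
    rw [S.2.1 i j, S.2.2 j i hj]
    simp
  rw [e]
  simp only [mulVec, dotProduct, mat, of_apply, add_mul, sum_add_distrib]

/-- The random part of the rows in `R`, as an additive map. -/
def degen_hom (B R : Finset ι) (β : ι → F2) (p q : K) (y : ι → K) : Sym B →+ (R → K) where
  toFun S := fun i => ∑ j ∈ B, cf p q (β i) (β j) * algebraMap F2 K (S.1 i j) * y j
  map_zero' := by
    funext i
    simp
  map_add' S S' := by
    funext i
    simp [mul_add, add_mul, sum_add_distrib]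

theorem degen_single [DecidableEq ι] {B R : Finset ι} (hR : R ⊆ B) (β : ι → F2) (p q : K)
    (y : ι → K) (i : R) {z : ι} (hz : z ∈ B) (hzR : z ∉ R) :
    Pi.single i (cf p q (β i) (β z) * y z) ∈ (degen_hom B R β p q y).range := by
  refine ⟨⟨Matrix.of fun a b => if (a = i ∧ b = z) ∨ (a = z ∧ b = i) then 1 else 0, ?_, ?_⟩, ?_⟩
  · intro a b
    simp only [of_apply]
    refine if_congr ?_ rfl rfl
    tauto
  · intro a b ha
    simp only [of_apply]
    rw [if_neg]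
    rintro (⟨rfl, _⟩ | ⟨rfl, _⟩)
    · exact ha (hR i.2)
    · exact ha hz
  · funext a
    have haz : (a : ι) ≠ z := fun h => hzR (h ▸ a.2)
    change ∑ j ∈ B, cf p q (β a) (β j) *
      algebraMap F2 K (if ((a : ι) = i ∧ j = z) ∨ ((a : ι) = z ∧ j = i) then 1 else 0) * y j = _
    by_cases hai : a = i
    · subst hai
      rw [Pi.single_eq_same, sum_eq_single_of_mem z hz]
      · simp
      · intro j _ hj
        simp [hj, haz]
    · rw [Pi.single_eq_of_ne hai]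
      have hai' : (a : ι) ≠ i := fun h => hai (Subtype.ext h)
      simp [hai', haz]

/-- The probability that a fixed vector is in the kernel. -/
theorem degen_pr_fixed [Fintype ι] [DecidableEq ι] {B I J : Finset ι} {β : ι → F2} {p q : K}
    {Ψ : Matrix ι ι K} {D : ℕ} (hIJ : ∀ i ∈ B, i ∈ I ↔ i ∈ J) (y : ι → K)
    (hc : ∀ b, Nat.card (Vs B β b y) ≤ 2 ^ D) :
    pr (fun S : Sym B => y ∈ Ker I J (mat β p q Ψ S)) ≤ 2 ^ (4 * D ^ 2) /
      ((∏ i ∈ J ∩ B, Nat.card (Ws p q (Vs B β (β i) y) (Vs B β (β i + 1) y)) : ℕ) : ℝ) := by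
  have hfin : ∀ b, Finite (Vs B β b y) := fun b => finite_Vs B β b y
  have hfinW : ∀ b, Finite (Ws p q (Vs B β b y) (Vs B β (b + 1) y)) := fun b =>
    degen_finite_Ws _ _ _ _
  have hZ : ∀ b, ∃ Z : Finset ι, (Z : Set ι) ⊆ {j | j ∈ B ∧ β j = b} ∧ #Z ≤ D ∧
      AddSubgroup.closure (y '' (Z : Set ι)) = Vs B β b y := fun b => exists_gen y (hc b)
  choose Z hZ1 hZ2 hZ3 using hZ
  set R : Finset ι := (J ∩ B) \ (Z 0 ∪ Z 1) with hR
  have hRB : R ⊆ B := sdiff_subset.trans inter_subset_right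
  have hZR : ∀ b, ∀ z ∈ Z b, z ∉ R := by
    intro b z hz h
    refine (mem_sdiff.1 h).2 ?_
    rcases degen_cases b with rfl | rfl
    · exact mem_union_left _ hz
    · exact mem_union_right _ hz
  set φ := degen_hom B R β p q y with hφ
  have h1 : ∀ (i : R) (b : F2), ∀ a ∈ Vs B β b y, Pi.single i (cf p q (β i) b * a) ∈ φ.range := by
    intro i b a ha
    rw [← hZ3 b] at ha
    induction ha using AddSubgroup.closure_induction with
    | mem x hx =>
      obtain ⟨z, hz, rfl⟩ := hx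
      have := degen_single hRB β p q y i (hZ1 b hz).1 (hZR b z hz)
      rwa [(hZ1 b hz).2] at this
    | zero => simp
    | add x x' _ _ hx hx' =>
      rw [mul_add, Pi.single_add]
      exact add_mem hx hx'
    | neg x _ hx =>
      rw [mul_neg, Pi.single_neg]
      exact neg_mem hx
  have h2 : ∀ (i : R), ∀ a ∈ Ws p q (Vs B β (β i) y) (Vs B β (β i + 1) y),
      Pi.single i a ∈ φ.range := by
    intro i a ha
    obtain ⟨x, hx, x', hx', rfl⟩ := degen_mem_Ws.1 ha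
    rw [Pi.single_add]
    refine add_mem ?_ ?_
    · simpa [cf] using h1 i _ x hx
    · have := h1 i _ x' hx'
      rwa [cf, if_neg (degen_ne_succ _)] at this
  have hfr : Finite φ.range := Finite.of_surjective _ φ.rangeRestrict_surjective
  have h3 : ∏ i ∈ R, Nat.card (Ws p q (Vs B β (β i) y) (Vs B β (β i + 1) y)) ≤
      Nat.card φ.range := by
    rw [← prod_coe_sort R, ← Nat.card_pi]
    refine Nat.card_le_card_of_injective (fun w => ⟨fun i => (w i : K), ?_⟩) ?_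
    · rw [← univ_sum_single (fun i : R => (w i : K))]
      exact sum_mem fun i _ => h2 i _ (w i).2
    · intro w w' e
      funext i
      exact Subtype.ext (congrFun (congrArg Subtype.val e) i)
  have h4 : ∏ i ∈ J ∩ B, Nat.card (Ws p q (Vs B β (β i) y) (Vs B β (β i + 1) y)) ≤
      2 ^ (4 * D ^ 2) * Nat.card φ.range := by
    rw [← prod_inter_mul_prod_sdiff (J ∩ B) (Z 0 ∪ Z 1)]
    refine Nat.mul_le_mul ?_ h3
    refine (prod_le_pow_card _ _ (2 ^ D * 2 ^ D) fun i _ =>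
      (degen_card_Ws _ _ _ _).trans (Nat.mul_le_mul (hc _) (hc _))).trans ?_
    rw [← pow_add, ← pow_mul]
    refine Nat.pow_le_pow_right (by norm_num) ?_
    have : #(J ∩ B ∩ (Z 0 ∪ Z 1)) ≤ D + D :=
      (card_le_card inter_subset_right).trans
        ((card_union_le _ _).trans (Nat.add_le_add (hZ2 0) (hZ2 1)))
    calc (D + D) * #(J ∩ B ∩ (Z 0 ∪ Z 1)) ≤ (D + D) * (D + D) := Nat.mul_le_mul_left _ this
      _ = 4 * D ^ 2 := by ring
  have h5 : pr (fun S : Sym B => y ∈ Ker I J (mat β p q Ψ S)) ≤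
      pr (fun S : Sym B => φ S = fun i : R => -(Ψ *ᵥ y) i) := by
    refine pr_mono fun S hS => ?_
    funext i
    have hi := mem_inter.1 (mem_sdiff.1 i.2).1
    have := hS.2 i ((hIJ i hi.2).2 hi.1)
    rw [degen_mulVec] at this
    exact eq_neg_of_add_eq_zero_right this
  refine h5.trans ((pr_hom_le φ _).trans ?_)
  have hp1 : (0 : ℝ) < Nat.card φ.range := Nat.cast_pos.2 Nat.card_pos
  have hp2 : (0 : ℝ) <
      ((∏ i ∈ J ∩ B, Nat.card (Ws p q (Vs B β (β i) y) (Vs B β (β i + 1) y)) : ℕ) : ℝ) :=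
    Nat.cast_pos.2 (prod_pos fun i _ => Nat.card_pos)
  rw [div_le_div_iff₀ hp1 hp2, one_mul]
  exact_mod_cast h4

/-- The candidates with prescribed spans. -/
def degen_Y [Fintype ι] [DecidableEq ι] (B J : Finset ι) (β : ι → F2) (p q : K)
    (Ψ : Matrix ι ι K) (k : AddSubgroup K) (V : F2 → AddSubgroup K) : Set (ι → K) :=
  {y | (∀ j, j ∉ J → y j = 0) ∧ (∀ j, y j ∈ k) ∧ (∀ b, Vs B β b y = V b) ∧
    ∀ i ∈ J ∩ B, (Ψ *ᵥ y) i ∈ Ws p q (V (β i)) (V (β i + 1))}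

theorem degen_card_Y [Fintype ι] [DecidableEq ι] {Λ B J : Finset ι} {β : ι → F2} {p q T : K}
    {Ψ : Matrix ι ι K} {ρ s : ℕ} (hΛ : Λ ⊆ J ∩ B) (hs : #(J \ B) ≤ s)
    (hS : Shape Λ B β p q T Ψ ρ) (k : AddSubgroup K) [Finite k] (V : F2 → AddSubgroup K)
    (hV : ∀ b, V b ≤ k) :
    Nat.card (degen_Y B J β p q Ψ k V) ≤ Nat.card k ^ (s + ρ) *
      ((∏ i ∈ (J ∩ B) \ Λ, Nat.card (V (β i))) * ∏ i ∈ Λ, Nat.card (V (β i) ⊓
        (Ws p q (V (β i)) (V (β i + 1))).comap (AddMonoidHom.mulLeft T) : AddSubgroup K)) := by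
  obtain ⟨Φ, L, hL, -, hΦ⟩ := hS
  have hfin : ∀ b, Finite (V b) := fun b => degen_finite_of_le (hV b)
  have hfin' : ∀ b, Finite (V b ⊓ (Ws p q (V b) (V (b + 1))).comap (AddMonoidHom.mulLeft T) :
      AddSubgroup K) := fun b => degen_finite_of_le (inf_le_left.trans (hV b))
  let c : degen_Y B J β p q Ψ k V → ((J \ B : Finset ι) → k) × (L → k) := fun y =>
    (fun j => ⟨y.1 j, y.2.2.1 j⟩, fun l => ⟨_, degen_form_mem l.1 y.2.2.1⟩)
  have hmem : ∀ y : degen_Y B J β p q Ψ k V, ∀ j ∈ B, y.1 j ∈ V (β j) := fun y j hj =>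
    y.2.2.2.1 (β j) ▸ degen_mem_Vs β y.1 hj
  have key : ∀ y y' : degen_Y B J β p q Ψ k V, c y = c y' → ∀ i ∈ Λ,
      T * (y.1 i - y'.1 i) ∈ Ws p q (V (β i)) (V (β i + 1)) := by
    intro y y' e i hi
    have h1 := hΦ (y.1 - y'.1) (fun l hl => by
      have e1 : ∑ j, algebraMap F2 K (l j) * y.1 j = ∑ j, algebraMap F2 K (l j) * y'.1 j :=
        congrArg Subtype.val (congrFun (congrArg Prod.snd e) ⟨l, hl⟩)
      simp only [Pi.sub_apply, mul_sub, sum_sub_distrib, e1, sub_self]) i hi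
    rw [mulVec_sub, Pi.sub_apply, Pi.sub_apply] at h1
    rw [eq_sub_of_add_eq h1.symm]
    refine sub_mem (sub_mem (y.2.2.2.2 i (hΛ hi)) (y'.2.2.2.2 i (hΛ hi))) (sum_mem fun j hj => ?_)
    exact degen_cf_mem p q V _ _ _ (sub_mem (hmem y j hj) (hmem y' j hj))
  refine (degen_card_le (δ := (∀ i : ((J ∩ B) \ Λ : Finset ι), V (β i)) ×
    ∀ i : Λ, (V (β i) ⊓ (Ws p q (V (β i)) (V (β i + 1))).comap (AddMonoidHom.mulLeft T) :
      AddSubgroup K)) c fun y0 => ?_).trans ?_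
  · refine ⟨fun y => (fun i => ⟨y.1.1 i, hmem y.1 i (mem_inter.1 (mem_sdiff.1 i.2).1).2⟩,
      fun i => ⟨y.1.1 i - y0.1 i, AddSubgroup.mem_inf.2 ⟨(V (β i)).sub_mem
        (hmem y.1 i (mem_inter.1 (hΛ i.2)).2) (hmem y0 i (mem_inter.1 (hΛ i.2)).2),
        key y.1 y0 y.2 i i.2⟩⟩), fun y y' e => ?_⟩
    refine Subtype.ext (Subtype.ext (funext fun j => ?_))
    by_cases hJ : j ∈ J
    · by_cases hB : j ∈ B
      · by_cases hl : j ∈ Λ
        · exact sub_left_injective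
            (congrArg Subtype.val (congrFun (congrArg Prod.snd e) ⟨j, hl⟩))
        · exact congrArg Subtype.val (congrFun (congrArg Prod.fst e)
            ⟨j, mem_sdiff.2 ⟨mem_inter.2 ⟨hJ, hB⟩, hl⟩⟩)
      · exact congrArg Subtype.val (congrFun (congrArg Prod.fst (y.2.trans y'.2.symm))
          ⟨j, mem_sdiff.2 ⟨hJ, hB⟩⟩)
    · rw [y.1.2.1 j hJ, y'.1.2.1 j hJ]
  · rw [Nat.card_prod, Nat.card_prod, Nat.card_pi, Nat.card_pi, Nat.card_pi, Nat.card_pi,
      prod_coe_sort ((J ∩ B) \ Λ) (fun i => Nat.card (V (β i))),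
      prod_coe_sort Λ (fun i => Nat.card (V (β i) ⊓
        (Ws p q (V (β i)) (V (β i + 1))).comap (AddMonoidHom.mulLeft T) : AddSubgroup K)),
      prod_const, prod_const, card_univ, card_univ, Fintype.card_coe, Fintype.card_coe, ← pow_add]
    exact Nat.mul_le_mul_right _ (Nat.pow_le_pow_right Nat.card_pos (Nat.add_le_add hs hL))

/-- The bound for prescribed spans. -/
theorem degen_fixed [Fintype ι] [DecidableEq ι] {Λ B I J : Finset ι} {β : ι → F2} {p q T : K}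
    {Ψ : Matrix ι ι K} {ρ s t D : ℕ} (hΛ : Λ ⊆ J ∩ B) (hIJ : ∀ i ∈ B, i ∈ I ↔ i ∈ J)
    (hs : #(J \ B) ≤ s) (hS : Shape Λ B β p q T Ψ ρ) (k : AddSubgroup K) [Finite k]
    (V : F2 → AddSubgroup K) (hV : ∀ b, V b ≤ k) (hc : ∀ b, Nat.card (V b) ≤ 2 ^ D)
    (hG : Gain p q T (cnt β (J ∩ B) 0) (cnt β (J ∩ B) 1) (cnt β Λ 0) (cnt β Λ 1) t (V 0) (V 1)) :
    pr (fun S : Sym B => ∃ y ∈ Ker I J (mat β p q Ψ S), (∀ j, y j ∈ k) ∧
      ∀ b, Vs B β b y = V b) ≤ (Nat.card k : ℝ) ^ (s + ρ) * 2 ^ (4 * D ^ 2) / 2 ^ t := by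
  have hfinY : (degen_Y B J β p q Ψ k V).Finite :=
    (Set.Finite.pi' (t := fun _ : ι => (k : Set K)) fun _ => Set.toFinite _).subset
      fun y hy => hy.2.1
  have hfin : ∀ b, Finite (V b) := fun b => degen_finite_of_le (hV b)
  have hfinW : ∀ b, Finite (Ws p q (V b) (V (b + 1))) := fun b => degen_finite_Ws _ _ _ _
  set M : ℕ := ∏ i ∈ J ∩ B, Nat.card (Ws p q (V (β i)) (V (β i + 1))) with hM
  set N : ℕ := (∏ i ∈ (J ∩ B) \ Λ, Nat.card (V (β i))) * ∏ i ∈ Λ, Nat.card (V (β i) ⊓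
    (Ws p q (V (β i)) (V (β i + 1))).comap (AddMonoidHom.mulLeft T) : AddSubgroup K) with hN
  have hNM : 2 ^ t * N ≤ M := by
    rw [hM, hN, degen_prod β _ (fun b => Nat.card (V b)), degen_prod β _ (fun b => Nat.card (V b ⊓
      (Ws p q (V b) (V (b + 1))).comap (AddMonoidHom.mulLeft T) : AddSubgroup K)),
      degen_prod β _ (fun b => Nat.card (Ws p q (V b) (V (b + 1)))), degen_cnt_sdiff β hΛ,
      degen_cnt_sdiff β hΛ, zero_add, degen_one_one]
    refine le_of_eq_of_le ?_ hG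
    ring
  have hY : hfinY.toFinset.card ≤ Nat.card k ^ (s + ρ) * N := by
    rw [← Set.ncard_eq_toFinset_card _ hfinY, ← Nat.card_coe_set_eq]
    exact degen_card_Y hΛ hs hS k V hV
  have h1 : pr (fun S : Sym B => ∃ y ∈ Ker I J (mat β p q Ψ S), (∀ j, y j ∈ k) ∧
      ∀ b, Vs B β b y = V b) ≤
      pr (fun S : Sym B => ∃ y ∈ hfinY.toFinset, y ∈ Ker I J (mat β p q Ψ S)) := by
    refine pr_mono ?_
    rintro S ⟨y, hy, hk, hb⟩
    refine ⟨y, hfinY.mem_toFinset.2 ⟨hy.1, hk, hb, fun i hi => ?_⟩, hy⟩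
    have := hy.2 i ((hIJ i (mem_inter.1 hi).2).2 (mem_inter.1 hi).1)
    rw [degen_mulVec] at this
    rw [eq_neg_of_add_eq_zero_left this]
    exact neg_mem (sum_mem fun j hj => degen_cf_mem p q V _ _ _ (hb (β j) ▸ degen_mem_Vs β y hj))
  have h2 : ∀ y ∈ hfinY.toFinset,
      pr (fun S : Sym B => y ∈ Ker I J (mat β p q Ψ S)) ≤ 2 ^ (4 * D ^ 2) / (M : ℝ) := by
    intro y hy
    have hb := (hfinY.mem_toFinset.1 hy).2.2.1
    have := degen_pr_fixed (p := p) (q := q) (Ψ := Ψ) hIJ y fun b => (hb b).symm ▸ hc b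
    simp only [hb] at this
    exact this
  refine h1.trans ((pr_exists_le_card _ _ h2).trans ?_)
  have hMp : (0 : ℝ) < M := Nat.cast_pos.2 (prod_pos fun i _ => Nat.card_pos)
  have hY' : (hfinY.toFinset.card : ℝ) ≤ (Nat.card k : ℝ) ^ (s + ρ) * N := by exact_mod_cast hY
  have hNM' : (2 : ℝ) ^ t * N ≤ M := by exact_mod_cast hNM
  rw [← mul_div_assoc, div_le_div_iff₀ hMp (by positivity)]
  calc (hfinY.toFinset.card : ℝ) * 2 ^ (4 * D ^ 2) * 2 ^ t
      ≤ (Nat.card k : ℝ) ^ (s + ρ) * N * 2 ^ (4 * D ^ 2) * 2 ^ t := by gcongr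
    _ = (Nat.card k : ℝ) ^ (s + ρ) * 2 ^ (4 * D ^ 2) * (2 ^ t * N) := by ring
    _ ≤ _ := by gcongr

/-- A small subgroup is generated by a short tuple. -/
theorem degen_tuple {k V : AddSubgroup K} [Finite k] (hV : V ≤ k) {D : ℕ}
    (hc : Nat.card V ≤ 2 ^ D) :
    ∃ f : Fin D → k, AddSubgroup.closure (Set.range fun i => (f i : K)) = V := by
  have := Fintype.ofFinite k
  have e : (fun x : k => (x : K)) '' {x | (x : K) ∈ V} = V := by
    ext a
    exact ⟨fun ⟨x, hx, h⟩ => h ▸ hx, fun h => ⟨⟨a, hV h⟩, h, rfl⟩⟩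
  obtain ⟨Z, hZ1, hZ2, hZ3⟩ := exists_gen (s := {x : k | (x : K) ∈ V}) (fun x : k => (x : K))
    (D := D) (by rw [e, AddSubgroup.closure_eq]; exact hc)
  rw [e, AddSubgroup.closure_eq] at hZ3
  refine ⟨fun i => if h : (i : ℕ) < #Z then (Z.equivFin.symm ⟨i, h⟩ : k) else 0, ?_⟩
  refine le_antisymm ((AddSubgroup.closure_le _).2 ?_) ?_
  · rintro _ ⟨i, rfl⟩
    by_cases h : (i : ℕ) < #Z
    · simp only [dif_pos h]
      exact hZ1 (Z.equivFin.symm ⟨i, h⟩).2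
    · simp only [dif_neg h]
      exact zero_mem V
  · rw [← hZ3]
    refine AddSubgroup.closure_mono ?_
    rintro _ ⟨z, hz, rfl⟩
    refine ⟨⟨Z.equivFin ⟨z, hz⟩, (Z.equivFin ⟨z, hz⟩).2.trans_le hZ2⟩, ?_⟩
    simp only [dif_pos (Z.equivFin ⟨z, hz⟩).2, Fin.eta, Equiv.symm_apply_apply]

end

theorem degenerate {ι K : Type} [Fintype ι] [DecidableEq ι] [Field K] [Algebra F2 K]
    {Λ B I J : Finset ι} {β : ι → F2} {p q T : K} {Ψ : Matrix ι ι K} {ρ s t D : ℕ}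
    (hΛ : Λ ⊆ J ∩ B) (hIJ : ∀ i ∈ B, i ∈ I ↔ i ∈ J) (hs : #(J \ B) ≤ s)
    (hS : Shape Λ B β p q T Ψ ρ) (hI : Inj B I J Ψ) (k : AddSubgroup K) [Finite k]
    (P : AddSubgroup K → AddSubgroup K → Prop)
    (hG : ∀ V0 V1 : AddSubgroup K, V0 ≤ k → V1 ≤ k → V0 ≠ ⊥ ∨ V1 ≠ ⊥ → Nat.card V0 ≤ 2 ^ D →
      Nat.card V1 ≤ 2 ^ D → P V0 V1 →
      Gain p q T (cnt β (J ∩ B) 0) (cnt β (J ∩ B) 1) (cnt β Λ 0) (cnt β Λ 1) t V0 V1) :
    pr (fun S : Sym B => ∃ y ∈ Ker I J (mat β p q Ψ S), y ≠ 0 ∧ (∀ j, y j ∈ k) ∧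
      Nat.card (Vs B β 0 y) ≤ 2 ^ D ∧ Nat.card (Vs B β 1 y) ≤ 2 ^ D ∧
      P (Vs B β 0 y) (Vs B β 1 y)) ≤
      (Nat.card k : ℝ) ^ (2 * D + s + ρ) * 2 ^ (4 * D ^ 2) / 2 ^ t := by
  have := Fintype.ofFinite k
  let V : (F2 → Fin D → k) → F2 → AddSubgroup K := fun f b =>
    AddSubgroup.closure (Set.range fun i => (f b i : K))
  let A : (F2 → Fin D → k) → Sym B → Prop := fun f S =>
    ((∀ b, V f b ≤ k) ∧ (∀ b, Nat.card (V f b) ≤ 2 ^ D) ∧ Gain p q T (cnt β (J ∩ B) 0)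
      (cnt β (J ∩ B) 1) (cnt β Λ 0) (cnt β Λ 1) t (V f 0) (V f 1)) ∧
    ∃ y ∈ Ker I J (mat β p q Ψ S), (∀ j, y j ∈ k) ∧ ∀ b, Vs B β b y = V f b
  have h1 : ∀ f ∈ (univ : Finset (F2 → Fin D → k)),
      pr (A f) ≤ (Nat.card k : ℝ) ^ (s + ρ) * 2 ^ (4 * D ^ 2) / 2 ^ t := by
    intro f _
    by_cases h : (∀ b, V f b ≤ k) ∧ (∀ b, Nat.card (V f b) ≤ 2 ^ D) ∧ Gain p q T (cnt β (J ∩ B) 0)
      (cnt β (J ∩ B) 1) (cnt β Λ 0) (cnt β Λ 1) t (V f 0) (V f 1)
    · exact (pr_mono fun S hS => hS.2).trans (degen_fixed hΛ hIJ hs hS k (V f) h.1 h.2.1 h.2.2)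
    · rw [pr_eq_zero (E := A f) fun S hS => h hS.1]
      positivity
  refine le_trans (pr_mono ?_) ((pr_exists_le_card _ A h1).trans (le_of_eq ?_))
  · rintro S ⟨y, hy, hy0, hk, hc0, hc1, hP⟩
    have hle : ∀ b, Vs B β b y ≤ k := fun b => (AddSubgroup.closure_le _).2 (by
      rintro _ ⟨j, _, rfl⟩
      exact hk j)
    have hc : ∀ b, Nat.card (Vs B β b y) ≤ 2 ^ D := fun b => by
      rcases degen_cases b with rfl | rfl
      · exact hc0
      · exact hc1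
    choose f hf using fun b => degen_tuple (hle b) (hc b)
    have hf' : ∀ b, V f b = Vs B β b y := hf
    have hne : Vs B β 0 y ≠ ⊥ ∨ Vs B β 1 y ≠ ⊥ := by
      by_contra hcon
      rw [not_or, not_not, not_not] at hcon
      have hz : ∀ j ∈ B, y j = 0 := by
        intro j hj
        have := degen_mem_Vs β y hj
        rcases degen_cases (β j) with h | h
        · rwa [h, hcon.1, AddSubgroup.mem_bot] at this
        · rwa [h, hcon.2, AddSubgroup.mem_bot] at this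
      refine hy0 (hI y ⟨hy.1, fun i hi => ?_⟩ hz)
      have := hy.2 i hi
      rwa [degen_mulVec, sum_eq_zero fun j hj => by rw [hz j hj, mul_zero], add_zero] at this
    refine ⟨f, mem_univ _, ⟨fun b => hf' b ▸ hle b, fun b => hf' b ▸ hc b, ?_⟩,
      y, hy, hk, fun b => (hf' b).symm⟩
    rw [hf', hf']
    exact hG _ _ (hle 0) (hle 1) hne hc0 hc1 hP
  · rw [card_univ, Fintype.card_fun, Fintype.card_fun, ZMod.card, Fintype.card_fin,
      Nat.card_eq_fintype_card]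
    push_cast
    ring

end Pool.Agent.Lib.MP_f8d36e_nt
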