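import Pool.Agent.Lib.MP_f8d36e_nt.Trans
import Pool.Agent.Lib.MP_f8d36e_nt.Bad

/-! Job F4: the criterion holds for a positive proportion. -/

set_option autoImplicit false

open Finset Filter
open scoped NumberTheorySymbols
open Pool.Agent.Lib.MP_696deb_nt Pool.Agent.Lib.MP_696deb_nt.Den

namespace Pool.Agent.Lib.MP_f8d36e_nt

theorem dens_cnt (t : ℕ) : (t : ℝ) / 8 - 1 ≤ #{m ∈ Icc 1 t | m % 8 = 5} ∧
    (#{m ∈ Icc 1 t | m % 8 = 5} : ℝ) ≤ t / 8 + 1 := by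
  have e : ({m ∈ Icc 1 t | m % 8 = 5} : Finset ℕ) =
      (range ((t + 3) / 8)).image fun k => 8 * k + 5 := by
    ext m
    simp only [mem_filter, mem_Icc, mem_image, mem_range]
    exact ⟨fun h => ⟨m / 8, by omega, by omega⟩, fun ⟨k, h1, h2⟩ => by omega⟩
  rw [e, card_image_of_injective _ fun a b h => by simpa using h, card_range]
  have a : (t : ℝ) ≤ 8 * ((t + 3) / 8 : ℕ) + 8 := by exact_mod_cast (by omega)
  have b : 8 * (((t + 3) / 8 : ℕ) : ℝ) ≤ t + 8 := by exact_mod_cast (by omega)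
  constructor <;> linarith

theorem card_five : ∀ᶠ X : ℕ in atTop, (X : ℝ) / 20 ≤ #{m ∈ SO X | m % 8 = 5} := by
  filter_upwards [eventually_ge_atTop (10 ^ 4)] with X hX
  have hsub : ({m ∈ Icc 1 X | m % 8 = 5} : Finset ℕ) ⊆ {m ∈ SO X | m % 8 = 5} ∪
      (Ioc 2 (Nat.sqrt X)).biUnion fun p =>
        ({m ∈ Icc 1 (X / p ^ 2) | m % 8 = 5} : Finset ℕ).image (· * p ^ 2) := by
    intro m hm
    simp only [mem_filter, mem_Icc] at hm
    obtain ⟨⟨hm1, hmt⟩, hmr⟩ := hm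
    have ho : Odd m := Nat.odd_iff.2 (by omega)
    by_cases hs : Squarefree m
    · exact mem_union_left _ (mem_filter.2 ⟨An.mem_SO.2 ⟨⟨hm1, hmt⟩, hs, ho⟩, hmr⟩)
    refine mem_union_right _ ?_
    rw [Nat.squarefree_iff_prime_squarefree] at hs
    push Not at hs
    obtain ⟨p, hp, k, rfl⟩ := hs
    have hk : 1 ≤ k := Nat.pos_of_ne_zero (by rintro rfl; simp at hm1)
    have h2 := hp.two_le
    have po : p % 2 = 1 := Nat.odd_iff.1 (Nat.Odd.of_mul_left (Nat.Odd.of_mul_left ho))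
    have p8 : p * p % 8 = 1 := by
      rcases (by omega : p % 8 = 1 ∨ p % 8 = 3 ∨ p % 8 = 5 ∨ p % 8 = 7) with h | h | h | h <;>
        rw [Nat.mul_mod, h]
    rw [Nat.mul_mod, p8, one_mul, Nat.mod_mod] at hmr
    simp only [mem_biUnion, mem_filter, mem_Icc, mem_Ioc, mem_image]
    refine ⟨p, ⟨by omega, ?_⟩, k, ⟨⟨hk, ?_⟩, hmr⟩, by ring⟩
    · rw [Nat.le_sqrt]; nlinarith
    · rw [Nat.le_div_iff_mul_le (by positivity)]; nlinarith
  have h1 : Nat.sqrt X * Nat.sqrt X ≤ X := Nat.sqrt_le X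
  have h2 : 100 ≤ Nat.sqrt X := by rw [Nat.le_sqrt]; omega
  have h3 := (card_le_card hsub).trans ((card_union_le _ _).trans (add_le_add le_rfl card_biUnion_le))
  have h4 : ∑ p ∈ Ioc 2 (Nat.sqrt X),
      (#(({m ∈ Icc 1 (X / p ^ 2) | m % 8 = 5} : Finset ℕ).image (· * p ^ 2)) : ℝ) ≤
      ∑ p ∈ Ioc 2 (Nat.sqrt X), ((X : ℝ) / 8 * ((p : ℝ) ^ 2)⁻¹ + 1) := by
    refine sum_le_sum fun p _ => (Nat.cast_le.2 card_image_le).trans ?_
    have a := Nat.cast_div_le (α := ℝ) (m := X) (n := p ^ 2)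
    have b := (dens_cnt (X / p ^ 2)).2
    rw [Nat.cast_pow, div_eq_mul_inv] at a
    linarith
  rw [sum_add_distrib, ← mul_sum, sum_const, nsmul_eq_mul, Nat.card_Ioc, mul_one] at h4
  have h5 := sum_Ioc_inv_sq_le_sub (α := ℝ) two_ne_zero (show 2 ≤ Nat.sqrt X by omega)
  have h6 : ((Nat.sqrt X - 2 : ℕ) : ℝ) ≤ Nat.sqrt X := Nat.cast_le.2 (Nat.sub_le _ _)
  have h7 : (X : ℝ) / 8 * ∑ p ∈ Ioc 2 (Nat.sqrt X), ((p : ℝ) ^ 2)⁻¹ ≤ X / 8 * (1 / 2) := by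
    refine mul_le_mul_of_nonneg_left (h5.trans ?_) (by positivity)
    have : (0 : ℝ) ≤ (Nat.sqrt X : ℝ)⁻¹ := by positivity
    norm_num
  have h8 := (Nat.cast_le (α := ℝ)).2 h3
  have h9 := (dens_cnt X).1
  have h1' : (Nat.sqrt X : ℝ) * Nat.sqrt X ≤ X := by exact_mod_cast h1
  have h2' : (100 : ℝ) ≤ Nat.sqrt X := by exact_mod_cast h2
  push_cast at h8
  nlinarith

theorem exists_win (v0 : ℕ) : ∀ᶠ X : ℕ in atTop, ∃ v, v0 ≤ v ∧ Win v X := by
  filter_upwards [eventually_ge_atTop (2 ^ 2 ^ ((v0 + 18) ^ 12 + 1))] with X hX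
  have hl := Nat.le_log_of_pow_le one_lt_two (Nat.le_log_of_pow_le one_lt_two hX)
  unfold Win
  generalize Nat.log 2 (Nat.log 2 X) = l at hl
  have ex : ∃ v : ℕ, 3 * l ≤ v ^ 12 := ⟨3 * l, Nat.le_self_pow (by norm_num) _⟩
  have h1 := Nat.find_spec ex
  have h2 := fun m => Nat.find_min ex (m := m)
  generalize Nat.find ex = v at h1 h2
  have h3 : v0 + 18 < v := lt_of_pow_lt_pow_left₀ 12 (Nat.zero_le _) (by omega)
  obtain ⟨w, rfl⟩ : ∃ w, v = w + 1 := ⟨v - 1, by omega⟩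
  have h4 := h2 w (Nat.lt_succ_self w)
  have h5 := Nat.pow_le_pow_left (show 18 * (w + 1) ≤ 19 * w by omega) 12
  rw [mul_pow, mul_pow] at h5
  refine ⟨w + 1, by omega, h1, ?_⟩
  generalize (w + 1) ^ 12 = a at h5
  generalize w ^ 12 = b at h4 h5
  omega

open Classical in
theorem density : ∀ᶠ X : ℕ in atTop,
    (X : ℝ) / 1000 ≤ #{m ∈ Icc 1 X | Squarefree m ∧ m % 8 = 5 ∧ CritN m} := by
  obtain ⟨v1, h1⟩ := few_bad (ε := 1 / 100000) (by norm_num)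
  obtain ⟨v2, h2⟩ := good_ge (ε := 1 / 100000) (by norm_num)
  filter_upwards [card_five, exists_win (max v1 v2)] with X h3 ⟨v, hv, hw⟩
  have a := h1 v ((le_max_left _ _).trans hv) X hw
  have b := h2 v ((le_max_right _ _).trans hv) X hw
  have c : #{m ∈ SO X | m % 8 = 5} ≤
      #{m ∈ SO X | TypN v m} + #{m ∈ SO X | m % 8 = 5 ∧ ¬ TypN v m} := by
    refine (card_le_card fun m hm => ?_).trans (card_union_le _ _)
    rw [mem_filter] at hm
    rw [mem_union, mem_filter, mem_filter]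
    tauto
  have d : #{m ∈ SO X | m % 8 = 5 ∧ CritN m} ≤
      #{m ∈ Icc 1 X | Squarefree m ∧ m % 8 = 5 ∧ CritN m} := by
    refine card_le_card fun m hm => ?_
    rw [mem_filter, An.mem_SO] at hm
    exact mem_filter.2 ⟨mem_Icc.2 hm.1.1, hm.1.2.1, hm.2⟩
  have c' := (Nat.cast_le (α := ℝ)).2 c
  have d' := (Nat.cast_le (α := ℝ)).2 d
  have e : (0 : ℝ) ≤ X := Nat.cast_nonneg X
  push_cast at c'
  linarith

end Pool.Agent.Lib.MP_f8d36e_nt
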