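import Pool.Agent.Lib.MP_f8d36e_nt.Crit

/-! Definitions for the random matrix half. -/

set_option autoImplicit false

open Matrix Finset

namespace Pool.Agent.Lib.MP_f8d36e_nt

/-- Probability under the uniform distribution. -/
noncomputable def pr {Ω : Type} (E : Ω → Prop) : ℝ := (Nat.card {x // E x} : ℝ) / Nat.card Ω

section
variable {ι : Type}

/-- Symmetric matrices supported on `B`. -/
def Sym (B : Finset ι) : AddSubgroup (Matrix ι ι F2) where
  carrier := {S | (∀ i j, S i j = S j i) ∧ ∀ i j, i ∉ B → S i j = 0}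
  zero_mem' := ⟨fun _ _ => rfl, fun _ _ _ => rfl⟩
  add_mem' := fun {a b} ha hb => ⟨fun i j => by simp [ha.1 i j, hb.1 i j],
    fun i j h => by simp [ha.2 i j h, hb.2 i j h]⟩
  neg_mem' := fun {a} ha => ⟨fun i j => by simp [ha.1 i j], fun i j h => by simp [ha.2 i j h]⟩

/-- Symmetric matrices with zero diagonal supported on `B`. -/
def Alt (B : Finset ι) : AddSubgroup (Matrix ι ι F2) where
  carrier := {S | S ∈ Sym B ∧ ∀ i, S i i = 0}
  zero_mem' := ⟨zero_mem _, fun _ => rfl⟩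
  add_mem' := fun {a b} ha hb => ⟨add_mem ha.1 hb.1, fun i => by simp [ha.2 i, hb.2 i]⟩
  neg_mem' := fun {a} ha => ⟨neg_mem ha.1, fun i => by simp [ha.2 i]⟩

variable {K : Type} [Field K]

/-- The weight of a pair of blocks. -/
def cf (p q : K) (b b' : F2) : K := if b = b' then p else q

/-- The number of indices of `A` in block `b`. -/
def cnt (β : ι → F2) (A : Finset ι) (b : F2) : ℕ := #{i ∈ A | β i = b}

/-- The additive span of the entries of `y` with index in `B` and in block `b`. -/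
def Vs (B : Finset ι) (β : ι → F2) (b : F2) (y : ι → K) : AddSubgroup K :=
  AddSubgroup.closure (y '' {j | j ∈ B ∧ β j = b})

/-- The group `p V + q V'`. -/
def Ws (p q : K) (V V' : AddSubgroup K) : AddSubgroup K :=
  V.map (AddMonoidHom.mulLeft p) ⊔ V'.map (AddMonoidHom.mulLeft q)

/-- The pair of spans `V0`, `V1` is unlikely. -/
def Gain (p q T : K) (n0 n1 l0 l1 t : ℕ) (V0 V1 : AddSubgroup K) : Prop :=
  2 ^ t * (Nat.card V0 ^ (n0 - l0) *
      Nat.card (V0 ⊓ (Ws p q V0 V1).comap (AddMonoidHom.mulLeft T) : AddSubgroup K) ^ l0) *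
    (Nat.card V1 ^ (n1 - l1) *
      Nat.card (V1 ⊓ (Ws p q V1 V0).comap (AddMonoidHom.mulLeft T) : AddSubgroup K) ^ l1) ≤
    Nat.card (Ws p q V0 V1) ^ n0 * Nat.card (Ws p q V1 V0) ^ n1

/-- Multiplication by `θ` leaves no proper subgroup stable. -/
def Gen (θ : K) : Prop := ∀ V : AddSubgroup K, (∀ a ∈ V, θ * a ∈ V) → V = ⊥ ∨ V = ⊤

/-- No small subgroup is stable under the square of `x` and under `a + b x`. -/
def Hline (σ : ℕ) (a b : K) : Prop := ∀ (x : K) (V : AddSubgroup K), Finite V → V ≠ ⊥ →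
  Nat.card V ≤ 2 ^ σ → (∀ z ∈ V, x ^ 2 * z ∈ V) → (∀ z ∈ V, (a + b * x) * z ∈ V) → False

variable [Fintype ι]

/-- Vectors supported on `J` that are killed by the rows in `I`. -/
def Ker (I J : Finset ι) (M : Matrix ι ι K) : Submodule K (ι → K) where
  carrier := {y | (∀ j, j ∉ J → y j = 0) ∧ ∀ i ∈ I, (M *ᵥ y) i = 0}
  zero_mem' := ⟨fun _ _ => rfl, fun i _ => by simp⟩
  add_mem' := fun {a b} ha hb => ⟨fun j h => by simp [ha.1 j h, hb.1 j h],
    fun i h => by simp [mulVec_add, ha.2 i h, hb.2 i h]⟩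
  smul_mem' := fun c a ha => ⟨fun j h => by simp [ha.1 j h],
    fun i h => by simp [mulVec_smul, ha.2 i h]⟩

/-- No kernel vector is supported off the random part. -/
def Inj (B I J : Finset ι) (Ψ : Matrix ι ι K) : Prop :=
  ∀ y ∈ Ker I J Ψ, (∀ j ∈ B, y j = 0) → y = 0

variable [Algebra F2 K]

/-- The fixed matrix `Ψ` plus the weighted random matrix `S`. -/
def mat (β : ι → F2) (p q : K) (Ψ : Matrix ι ι K) (S : Matrix ι ι F2) : Matrix ι ι K :=
  Matrix.of fun i j => Ψ i j + cf p q (β i) (β j) * algebraMap F2 K (S i j)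

/-- Up to `ρ` linear forms, the rows in `Λ` are `T` times the identity plus a weighted matrix
that is symmetric on `Λ`. -/
def Shape (Λ B : Finset ι) (β : ι → F2) (p q T : K) (Ψ : Matrix ι ι K) (ρ : ℕ) : Prop :=
  ∃ (Φ : Matrix ι ι F2) (L : Finset (ι → F2)), #L ≤ ρ ∧ (∀ i ∈ Λ, ∀ j ∈ Λ, Φ i j = Φ j i) ∧
    ∀ y : ι → K, (∀ l ∈ L, ∑ j, algebraMap F2 K (l j) * y j = 0) → ∀ i ∈ Λ,
      (Ψ *ᵥ y) i = T * y i + ∑ j ∈ B, cf p q (β i) (β j) * algebraMap F2 K (Φ i j) * y j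

/-- The pencil of matrices on the line. -/
def pen (β : ι → F2) (Ψ0 Ψ1 : Matrix ι ι K) (x : K) (S : Matrix ι ι F2) : Matrix ι ι K :=
  mat β 1 x (Ψ0 + x • Ψ1) S

/-- The pencil is regular at `x1` and all its kernel vectors have large span. -/
def Good (σ : ℕ) (x1 : K) (B J : Finset ι) (β : ι → F2) (Ψ0 Ψ1 : Matrix ι ι K)
    (S : Matrix ι ι F2) : Prop :=
  Ker J J (pen β Ψ0 Ψ1 x1 S) = ⊥ ∧ ∀ x, x ≠ 0 → ∀ y ∈ Ker J J (pen β Ψ0 Ψ1 x S), y ≠ 0 →
    2 ^ σ < Nat.card (Vs B β 0 y) ∨ 2 ^ σ < Nat.card (Vs B β 1 y)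

/-- Some member of the pencil has a kernel of dimension at least two. -/
def Mult (J : Finset ι) (β : ι → F2) (Ψ0 Ψ1 : Matrix ι ι K) (S : Matrix ι ι F2) : Prop :=
  ∃ x, x ≠ 0 ∧ 2 ≤ Module.finrank K (Ker J J (pen β Ψ0 Ψ1 x S))

variable [DecidableEq ι]

/-- The reduced matrix of the criterion, bordered in row and column `st`. -/
def Amat (u w β : ι → F2) (Φ : Matrix ι ι F2) (st : ι) (p q T γ : K) : Matrix ι ι K :=
  Matrix.of fun i j =>
    if i = st then (if j = st then 0 else γ * algebraMap F2 K (w j * β j))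
    else if j = st then γ * algebraMap F2 K (w i * β i)
    else cf p q (β i) (β j) * algebraMap F2 K (Φ i j) +
      (if i = j then T * algebraMap F2 K (w i) else 0) +
      T * algebraMap F2 K (w i * (1 + β i) * (w j * (1 + β j))) +
      (T * algebraMap F2 K (w i * β i) + cf p q (β i) 1 * algebraMap F2 K (u i)) *
        algebraMap F2 K (u j * β j)

/-- The indices of `B` with prescribed class modulo eight. -/
def cls (u w : ι → F2) (B : Finset ι) (a b : F2) : Finset ι := {j ∈ B | u j = a ∧ w j = b}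

/-- The rows of `Φ` in `W` and in either block have full rank on the columns off `B`. -/
def Wit (B W : Finset ι) (β : ι → F2) (Φ : Matrix ι ι F2) : Prop :=
  ∀ (b : F2) (η : ι → F2), η ≠ 0 → (∀ j ∈ B, η j = 0) → ∃ j ∈ W, β j = b ∧ (Φ *ᵥ η) j = 1

/-- Typical data. -/
structure Typ (v : ℕ) (B : Finset ι) (u w : ι → F2) (ρ : ι → ι → F2) : Prop where
  card : Fintype.card ι ≤ v ^ 12
  bord : #Bᶜ ≤ v
  anti : ∀ i j, i ≠ j → ρ i j + ρ j i = u i * u j
  su : ∑ i, u i = 0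
  sw : ∑ i, w i = 1
  wit : ∀ η : ι → F2, η ≠ 0 → (∀ j ∈ B, η j = 0) →
    v ^ 9 ≤ #{j ∈ cls u w B 0 0 | ∑ i, ρ j i * η i = 1}
  five : v ^ 9 ≤ #(cls u w B 0 1)
  exu : ∃ j ∈ B, u j = 1

/-- Admissible and balanced vectors. -/
structure GoodBeta (v : ℕ) (B : Finset ι) (u w : ι → F2) (Φ : Matrix ι ι F2) (β : ι → F2) :
    Prop where
  hu : u ⬝ᵥ β = 1
  hw : w ⬝ᵥ β = 0
  bord : ∀ i, i ∉ B → (Φ *ᵥ β) i = u i
  wit : Wit B (cls u w B 0 0) β Φ
  bal : ∀ b, #B ≤ 2 * cnt β B b + v ^ 7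
  bal5 : ∀ b, #(cls u w B 0 1) ≤ 2 * cnt β (cls u w B 0 1) b + v ^ 7

end

/-- The parameters of the line. -/
structure Line (v r : ℕ) {k : Type} [Field k] (f : k →+* Kb) (a b x1 : k) : Prop where
  card : Nat.card k = 2 ^ r
  lo : 5 * v ≤ r
  hi : r ≤ 10 * v
  ga : Gen a
  gb : Gen (b ^ 2)
  b0 : b ≠ 0
  g1 : Gen (a + b * x1)
  x0 : x1 ≠ 0
  line : Hline v (f a) (f b)

end Pool.Agent.Lib.MP_f8d36e_nt
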