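import Pool.Agent.Lib.MP_f8d36e_nt.Pr

/-! Job E4a: quadratic exponential sums and syzygies. -/

set_option autoImplicit false
set_option linter.unusedSectionVars false

open Matrix Finset

namespace Pool.Agent.Lib.MP_f8d36e_nt

/-- The sign of an element of the field with two elements. -/
def sgn (a : F2) : ℤ := if a = 0 then 1 else -1

theorem sgn_add (a b : F2) : sgn (a + b) = sgn a * sgn b := by
  revert a b
  decide

theorem weyl_one {a : F2} (h : a ≠ 0) : sgn a = -1 := if_neg h

theorem weyl_zero : sgn 0 = 1 := if_pos rfl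

theorem weyl_le (a : F2) : sgn a ≤ 1 := by
  revert a
  decide

theorem weyl_self (a : F2) : a + a = 0 := by
  revert a
  decide

theorem weyl_eq {a b : F2} (h : a + b = 0) : a = b := by
  revert a b
  decide

theorem sum_sgn {Y : Type} [AddCommGroup Y] [Fintype Y] (φ : Y →+ F2) [Decidable (φ = 0)] :
    ∑ y, sgn (φ y) = if φ = 0 then (Fintype.card Y : ℤ) else 0 := by
  split_ifs with h
  · simp [h, weyl_zero]
  · obtain ⟨y0, h0⟩ : ∃ y0, φ y0 ≠ 0 := by
      by_contra hc
      exact h (AddMonoidHom.ext fun y => by_contra fun hy => hc ⟨y, hy⟩)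
    have h1 : ∑ y, sgn (φ (y + y0)) = ∑ y, sgn (φ y) :=
      Equiv.sum_comp (Equiv.addRight y0) fun y => sgn (φ y)
    simp only [map_add, sgn_add, weyl_one h0, mul_neg, mul_one, Finset.sum_neg_distrib] at h1
    omega

theorem weyl_row {X E : Type} [AddCommGroup X] [Fintype X] [AddCommGroup E] [Fintype E]
    (P : X →+ E →+ F2) :
    ∑ x, ∑ e, sgn (P x e) = (Nat.card P.ker : ℤ) * Fintype.card E := by
  classical
  have h1 : Nat.card P.ker = #{x | P x = 0} := by
    rw [← Fintype.card_subtype, ← Nat.card_eq_fintype_card]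
    rfl
  simp only [sum_sgn]
  rw [h1, ← Finset.sum_filter, Finset.sum_const, nsmul_eq_mul]

/-- Double counting for a pairing. -/
theorem weyl_perp {X E : Type} [AddCommGroup X] [Finite X] [AddCommGroup E] [Finite E]
    (P : X →+ E →+ F2) : Nat.card P.ker * Nat.card E = Nat.card P.flip.ker * Nat.card X := by
  have := Fintype.ofFinite X
  have := Fintype.ofFinite E
  have h1 := weyl_row P
  have h2 := weyl_row P.flip
  rw [Finset.sum_comm] at h2
  simp only [AddMonoidHom.flip_apply] at h2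
  rw [h2] at h1
  rw [Nat.card_eq_fintype_card (α := E), Nat.card_eq_fintype_card (α := X)]
  exact_mod_cast h1.symm

/-- The dot product with the elements of a subgroup. -/
def weylDot {κ : Type} [Fintype κ] (E : AddSubgroup (κ → F2)) : (κ → F2) →+ E →+ F2 :=
  AddMonoidHom.mk' (fun x => AddMonoidHom.mk' (fun e => (e : κ → F2) ⬝ᵥ x)
    fun a b => by simp [add_dotProduct]) fun a b => by
      ext e
      simp [dotProduct_add]

theorem weyl_dot {κ : Type} [Fintype κ] (E : AddSubgroup (κ → F2)) (x : κ → F2) (e : E) :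
    weylDot E x e = (e : κ → F2) ⬝ᵥ x := rfl

theorem weyl_ker {κ : Type} [Fintype κ] (E : AddSubgroup (κ → F2)) :
    Nat.card (weylDot E).ker * Nat.card E = 2 ^ Fintype.card κ := by
  classical
  have h1 : (weylDot E).flip.ker = ⊥ := by
    refine (AddSubgroup.eq_bot_iff_forall _).2 fun e he => Subtype.ext (funext fun i => ?_)
    have h2 : (weylDot E).flip e (Pi.single i 1) = 0 := by
      rw [AddMonoidHom.mem_ker.1 he]
      rfl
    rw [AddMonoidHom.flip_apply, weyl_dot] at h2
    simpa using h2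
  rw [weyl_perp, h1, AddSubgroup.card_bot, one_mul, Nat.card_fun, Nat.card_zmod,
    Nat.card_eq_fintype_card]

theorem weyl {Y κ : Type} [AddCommGroup Y] [Fintype Y] [Fintype κ] (Q : Y → F2)
    (Bf : Y →+ Y →+ F2) (hQ : ∀ a b, Q (a + b) = Q a + Q b + Bf a b)
    (E : AddSubgroup (κ → F2)) (f g : E → Y)
    (h : ∀ ε ε' : E, Bf (f ε) (g ε') = (ε : κ → F2) ⬝ᵥ (ε' : κ → F2)) {c : ℕ}
    (hc : 2 ^ Fintype.card κ ≤ 2 ^ c * Nat.card E) :
    (∑ y, sgn (Q y)) ^ 2 * 2 ^ Fintype.card κ ≤ (Fintype.card Y : ℤ) ^ 2 * 4 ^ c := by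
  classical
  have s1 : (∑ y, sgn (Q y)) ^ 2 = ∑ z, sgn (Q z) * ∑ y, sgn (Bf.flip z y) := by
    rw [sq, Finset.sum_mul_sum]
    simp only [Finset.mul_sum]
    rw [Finset.sum_comm (f := fun z y => sgn (Q z) * sgn (Bf.flip z y))]
    refine Finset.sum_congr rfl fun y _ => ?_
    rw [← Equiv.sum_comp (Equiv.addLeft y)]
    refine Finset.sum_congr rfl fun z _ => ?_
    rw [Equiv.coe_addLeft, ← sgn_add, ← sgn_add, hQ, AddMonoidHom.flip_apply, ← add_assoc,
      ← add_assoc, weyl_self, zero_add]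
  have s2 : (∑ y, sgn (Q y)) ^ 2 ≤ (Nat.card Bf.flip.ker : ℤ) * Fintype.card Y := by
    rw [s1, ← weyl_row]
    refine Finset.sum_le_sum fun z _ => ?_
    refine mul_le_of_le_one_left ?_ (weyl_le _)
    rw [sum_sgn]
    split_ifs
    · positivity
    · exact le_rfl
  have s3 : Nat.card Bf.flip.ker * Nat.card Bf.flip.range = Fintype.card Y := by
    rw [← AddSubgroup.index_ker, AddSubgroup.card_mul_index, Nat.card_eq_fintype_card]
  have hfin : Finite Bf.flip.range := Finite.of_surjective _ Bf.flip.rangeRestrict_surjective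
  have hE : 0 < Nat.card E := Nat.card_pos
  have s4 : Nat.card (weylDot E).ker ≤ 2 ^ c := by
    rw [← weyl_ker E] at hc
    exact Nat.le_of_mul_le_mul_right hc hE
  obtain ⟨ψ, hψ⟩ : ∃ ψ : E → Bf.flip.range, ∀ ε, (ψ ε : Y →+ F2) = Bf.flip (g ε) :=
    ⟨fun ε => ⟨_, g ε, rfl⟩, fun _ => rfl⟩
  have s5 : ∀ ε : E, (ε : κ → F2) - (Function.invFun ψ (ψ ε) : E) ∈ (weylDot E).ker := by
    intro ε
    have h1 : ψ (Function.invFun ψ (ψ ε)) = ψ ε := Function.invFun_eq ⟨ε, rfl⟩
    have h2 : Bf.flip (g (Function.invFun ψ (ψ ε))) = Bf.flip (g ε) := by rw [← hψ, ← hψ, h1]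
    refine AddMonoidHom.mem_ker.2 (AddMonoidHom.ext fun e => ?_)
    have h3 := DFunLike.congr_fun h2 (f e)
    rw [AddMonoidHom.flip_apply, AddMonoidHom.flip_apply, h, h] at h3
    rw [weyl_dot, dotProduct_sub, h3, sub_self]
    rfl
  have s6 : Nat.card E ≤ Nat.card Bf.flip.range * Nat.card (weylDot E).ker := by
    rw [← Nat.card_prod]
    refine Nat.card_le_card_of_injective (fun ε => (ψ ε, ⟨_, s5 ε⟩)) fun a b hab => ?_
    obtain ⟨h1, h2⟩ := Prod.ext_iff.1 hab
    have h3 := Subtype.ext_iff.1 h2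
    dsimp only at h1 h3
    rw [h1] at h3
    exact Subtype.ext (sub_left_inj.1 h3)
  have s7 : 2 ^ Fintype.card κ ≤ Nat.card Bf.flip.range * 4 ^ c := by
    calc 2 ^ Fintype.card κ ≤ 2 ^ c * Nat.card E := hc
      _ ≤ 2 ^ c * (Nat.card Bf.flip.range * 2 ^ c) :=
        Nat.mul_le_mul_left _ (s6.trans (Nat.mul_le_mul_left _ s4))
      _ = Nat.card Bf.flip.range * 4 ^ c := by
        rw [show 4 = 2 * 2 from rfl, mul_pow]
        ring
  have s8 : (2 : ℤ) ^ Fintype.card κ ≤ Nat.card Bf.flip.range * 4 ^ c := by exact_mod_cast s7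
  have s9 : (Nat.card Bf.flip.ker : ℤ) * Nat.card Bf.flip.range = Fintype.card Y := by
    exact_mod_cast s3
  calc (∑ y, sgn (Q y)) ^ 2 * 2 ^ Fintype.card κ
      ≤ (Nat.card Bf.flip.ker : ℤ) * Fintype.card Y * (Nat.card Bf.flip.range * 4 ^ c) :=
        mul_le_mul s2 s8 (by positivity) (by positivity)
    _ = (Nat.card Bf.flip.ker : ℤ) * Nat.card Bf.flip.range * Fintype.card Y * 4 ^ c := by ring
    _ = (Fintype.card Y : ℤ) ^ 2 * 4 ^ c := by rw [s9, sq]

variable {k : Type} [Field k] [Finite k] [Algebra F2 k]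

/-- The trace to the prime field. -/
noncomputable abbrev tr (a : k) : F2 := Algebra.trace F2 k a

omit [Finite k] in
theorem weyl_tr_add (a b : k) : tr (a + b) = tr a + tr b := map_add _ a b

omit [Finite k] in
theorem weyl_tr_zero : tr (0 : k) = 0 := map_zero _

theorem weyl_nondeg {a : k} (h : ∀ z, tr (a * z) = 0) : a = 0 := by
  have : Module.Finite F2 k := Module.Finite.of_finite
  exact (traceForm_nondegenerate F2 k).1 a h

theorem weyl_ext {a b : k} (h : ∀ z, tr (a * z) = tr (b * z)) : a = b := by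
  refine sub_eq_zero.1 (weyl_nondeg fun z => ?_)
  rw [sub_mul, tr, map_sub]
  exact sub_eq_zero.2 (h z)

/-- The value of a homomorphism is equidistributed up to the annihilator of its range. -/
theorem pr_le_perp {G κ : Type} [AddCommGroup G] [Finite G] [Fintype κ] (L : G →+ (κ → k))
    (a : κ → k) : pr (fun S => L S = a) ≤
      Nat.card {l : κ → k // ∀ S, tr (l ⬝ᵥ L S) = 0} / (Nat.card k : ℝ) ^ Fintype.card κ := by
  obtain ⟨P, hP⟩ : ∃ P : (κ → k) →+ L.range →+ F2, ∀ l e, P l e = tr (l ⬝ᵥ (e : κ → k)) :=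
    ⟨AddMonoidHom.mk' (fun l => AddMonoidHom.mk' (fun e => tr (l ⬝ᵥ (e : κ → k)))
      fun a b => by simp [dotProduct_add]) fun a b => by
        ext e
        simp [add_dotProduct], fun _ _ => rfl⟩
  have h1 : Nat.card P.ker = Nat.card {l : κ → k // ∀ S, tr (l ⬝ᵥ L S) = 0} := by
    refine Nat.card_congr (Equiv.subtypeEquivRight fun l => ?_)
    rw [AddMonoidHom.mem_ker]
    refine ⟨fun h S => ?_, fun h => AddMonoidHom.ext ?_⟩
    · have h2 := hP l ⟨L S, S, rfl⟩
      rw [h] at h2
      exact h2.symm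
    · rintro ⟨_, S, rfl⟩
      rw [hP]
      exact h S
  have h2 := weyl_perp P
  have h3 : 0 < Nat.card P.flip.ker := Nat.card_pos
  have h4 : Nat.card k ^ Fintype.card κ ≤ Nat.card P.ker * Nat.card L.range := by
    rw [h2, Nat.card_fun, Nat.card_eq_fintype_card (α := κ)]
    exact Nat.le_mul_of_pos_left _ h3
  have h5 : (0 : ℝ) < Nat.card L.range := by exact_mod_cast Nat.card_pos
  have h6 : (0 : ℝ) < Nat.card k := by exact_mod_cast Nat.card_pos
  refine (pr_hom_le L a).trans ?_
  rw [← h1, div_le_div_iff₀ h5 (by positivity), one_mul]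
  exact_mod_cast h4

/-- Syzygies: one additive map for each block. -/
def Syz (p q : k) : AddSubgroup (F2 → k →+ k) where
  carrier := {A | (∀ b b' x y, tr (cf p q b b' * A b x * y) = tr (cf p q b b' * A b' y * x)) ∧
    ∀ b x, tr (p * A b x * x) = 0}
  zero_mem' := by
    refine ⟨fun b b' x y => ?_, fun b x => ?_⟩ <;> simp
  add_mem' := by
    intro A A' hA hA'
    refine ⟨fun b b' x y => ?_, fun b x => ?_⟩
    · simp only [Pi.add_apply, AddMonoidHom.add_apply, mul_add, add_mul, weyl_tr_add]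
      rw [hA.1, hA'.1]
    · simp only [Pi.add_apply, AddMonoidHom.add_apply, mul_add, add_mul, weyl_tr_add]
      rw [hA.2, hA'.2, add_zero]
  neg_mem' := by
    intro A hA
    refine ⟨fun b b' x y => ?_, fun b x => ?_⟩
    · simp only [Pi.neg_apply, AddMonoidHom.neg_apply, mul_neg, neg_mul, tr, map_neg]
      exact congrArg _ (hA.1 b b' x y)
    · simp only [Pi.neg_apply, AddMonoidHom.neg_apply, mul_neg, neg_mul, tr, map_neg]
      exact neg_eq_zero.2 (hA.2 b x)

/-- Degenerate syzygies. -/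
def Deg (T : k) (A : F2 → k →+ k) : Prop := ∀ b x y, tr (T * A b x * y) = tr (T * A b y * x)

theorem finite_maps : Finite (F2 → k →+ k) := by
  have : Finite (k →+ k) := DFunLike.finite _
  infer_instance

theorem card_syz {r : ℕ} (h : Nat.card k = 2 ^ r) (p q : k) :
    Nat.card (Syz p q) ≤ 2 ^ (2 * r ^ 2) := by
  have := finite_maps (k := k)
  have : Module.Finite F2 k := Module.Finite.of_finite
  have h1 : Module.finrank F2 k = r := by
    rw [Module.natCard_eq_pow_finrank (K := F2), Nat.card_zmod] at h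
    exact Nat.pow_right_injective le_rfl h
  have h2 : Nat.card (k →+ k) = 2 ^ r ^ 2 := by
    rw [Nat.card_congr (AddMonoidHom.toZModLinearMapEquiv 2).toEquiv,
      Module.natCard_eq_pow_finrank (K := F2), Nat.card_zmod, Module.finrank_linearMap, h1, sq]
  refine (Nat.card_le_card_of_injective _ (Syz p q).subtype_injective).trans (le_of_eq ?_)
  rw [Nat.card_fun, h2, Nat.card_zmod, ← pow_mul, mul_comm]

omit [Finite k] [Algebra F2 k] in
/-- An additive map that commutes with a generator is a multiplication. -/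
theorem weyl_gen {T : k} (hT : Gen T) (A : k →+ k) (h : ∀ x, T * A x = A (T * x)) (x : k) :
    A x = A 1 * x := by
  rcases hT (A - AddMonoidHom.mulLeft (A 1)).ker (fun a ha => by
    rw [AddMonoidHom.mem_ker, AddMonoidHom.sub_apply, AddMonoidHom.coe_mulLeft, sub_eq_zero] at ha ⊢
    rw [← h, ha]
    ring) with h1 | h1
  · have h2 : (1 : k) ∈ (A - AddMonoidHom.mulLeft (A 1)).ker := by
      rw [AddMonoidHom.mem_ker, AddMonoidHom.sub_apply, AddMonoidHom.coe_mulLeft, sub_eq_zero]
      exact (mul_one _).symm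
    rw [h1, AddSubgroup.mem_bot] at h2
    exact absurd h2 one_ne_zero
  · have h2 : x ∈ (A - AddMonoidHom.mulLeft (A 1)).ker := h1 ▸ AddSubgroup.mem_top x
    rwa [AddMonoidHom.mem_ker, AddMonoidHom.sub_apply, AddMonoidHom.coe_mulLeft, sub_eq_zero] at h2

theorem weyl_comm {p q T : k} {A : F2 → k →+ k} (hA : A ∈ Syz p q) (h : Deg T A) {b b' : F2}
    (hb : cf p q b b' = 1) (x : k) : T * A b x = A b' (T * x) := by
  refine weyl_ext fun y => ?_
  have h1 := hA.1 b b' y (T * x)
  rw [hb, one_mul, one_mul] at h1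
  rw [h b x y, ← h1]
  congr 1
  ring

theorem deg_pos {q T : k} (hT : Gen T) {A : F2 → k →+ k} (hA : A ∈ Syz 1 q) (h : Deg T A) :
    A = 0 := by
  have : CharP k 2 := charP_of_injective_algebraMap (algebraMap F2 k).injective 2
  refine funext fun b => AddMonoidHom.ext fun x => ?_
  have h1 := weyl_gen hT (A b) (weyl_comm hA h (if_pos rfl))
  have h2 : A b 1 = 0 := weyl_nondeg fun z => by
    obtain ⟨w, rfl⟩ := isSquare_of_charTwo' z
    have h3 := hA.2 b w
    rwa [one_mul, h1, mul_assoc] at h3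
  rw [h1, h2, zero_mul]
  rfl

theorem deg_zero {T : k} (h0 : T ≠ 0) (hT : Gen (T ^ 2)) :
    Nat.card {A : Syz (0 : k) 1 // Deg T A} ≤ Nat.card k := by
  have key : ∀ A : F2 → k →+ k, A ∈ Syz (0 : k) 1 → Deg T A → ∀ b x, A b x = A 0 1 * x := by
    intro A hA h
    have c1 := weyl_comm hA h (b := 0) (b' := 1) (if_neg zero_ne_one)
    have c2 := weyl_comm hA h (b := 1) (b' := 0) (if_neg one_ne_zero)
    have h1 := weyl_gen hT (A 0) fun x => by rw [sq, mul_assoc, c1, c2, mul_assoc]
    have h2 : ∀ x, A 1 x = A 0 1 * x := fun x => by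
      have h3 := c1 (T⁻¹ * x)
      rw [mul_inv_cancel_left₀ h0, h1] at h3
      rw [← h3]
      field_simp
    intro b
    fin_cases b
    exacts [h1, h2]
  refine Nat.card_le_card_of_injective (fun A => A.1.1 0 1) fun A A' hAA => ?_
  refine Subtype.ext (Subtype.ext (funext fun b => AddMonoidHom.ext fun x => ?_))
  rw [key _ A.1.2 A.2, key _ A'.1.2 A'.2]
  exact congrArg (· * x) hAA

omit [Finite k] in
theorem weyl_expand {ι : Type} [Fintype ι] {B : Finset ι} (β : ι → F2) (p q : k) (y l : ι → k)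
    (S : Sym B) : tr (∑ i ∈ B, l i * (mat β p q 0 S *ᵥ y) i) =
      ∑ i, ∑ j, (S : Matrix ι ι F2) i j * tr (cf p q (β i) (β j) * l i * y j) := by
  rw [tr, map_sum, ← Finset.sum_subset (Finset.subset_univ B) fun i _ hi => by simp [S.2.2 i _ hi]]
  refine Finset.sum_congr rfl fun i _ => ?_
  rw [mulVec, dotProduct, Finset.mul_sum, map_sum]
  refine Finset.sum_congr rfl fun j _ => ?_
  rw [← smul_eq_mul ((S : Matrix ι ι F2) i j), tr, ← map_smul, Algebra.smul_def]
  congr 1
  simp only [mat, of_apply, Matrix.zero_apply]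
  ring

omit [Finite k] [Algebra F2 k] in
theorem weyl_cf (p q : k) (b b' : F2) : cf p q b b' = cf p q b' b := by
  simp only [cf, eq_comm]

theorem weyl_single {ι : Type} [Fintype ι] [DecidableEq ι] (i j : ι) (t : ι → ι → F2) :
    ∑ a, ∑ b, Matrix.single i j (1 : F2) a b * t a b = t i j := by
  simp [Matrix.single, ite_and]

/-- For a vector with full spans every annihilating vector comes from a syzygy. -/
theorem exists_syz {ι : Type} [Fintype ι] {B : Finset ι} {β : ι → F2} {p q : k} (hq : q ≠ 0)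
    {y l : ι → k} (h0 : Vs B β 0 y = ⊤) (h1 : Vs B β 1 y = ⊤)
    (h : ∀ S : Sym B, tr (∑ i ∈ B, l i * (mat β p q 0 S *ᵥ y) i) = 0) :
    ∃ A ∈ Syz p q, ∀ i ∈ B, l i = A (β i) (y i) := by
  classical
  have t1 : ∀ i ∈ B, ∀ j ∈ B,
      tr (cf p q (β i) (β j) * l i * y j) = tr (cf p q (β i) (β j) * l j * y i) := by
    intro i hi j hj
    have h2 := h ⟨Matrix.single i j 1 + Matrix.single j i 1, fun a b => by
      simp only [Matrix.add_apply, Matrix.single, of_apply, and_comm (a := i = a),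
        and_comm (a := j = a)]
      exact add_comm _ _, fun a b ha => by
      have n1 : i ≠ a := fun e => ha (e ▸ hi)
      have n2 : j ≠ a := fun e => ha (e ▸ hj)
      simp [Matrix.single, n1, n2]⟩
    rw [weyl_expand] at h2
    simp only [Matrix.add_apply, add_mul, Finset.sum_add_distrib, weyl_single] at h2
    rw [weyl_eq h2, weyl_cf]
  have t2 : ∀ i ∈ B, tr (p * l i * y i) = 0 := by
    intro i hi
    have h2 := h ⟨Matrix.single i i 1, fun a b => by
      simp only [Matrix.single, of_apply, and_comm (a := i = a)], fun a b ha => by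
      have n1 : i ≠ a := fun e => ha (e ▸ hi)
      simp [Matrix.single, n1]⟩
    rw [weyl_expand] at h2
    simp only [weyl_single] at h2
    rwa [cf, if_pos rfl] at h2
  obtain ⟨Γ, hΓ⟩ : ∃ Γ : F2 → AddSubgroup (k × k), ∀ b, Γ b =
      AddSubgroup.closure ((fun i => (y i, l i)) '' {j | j ∈ B ∧ β j = b}) := ⟨_, fun _ => rfl⟩
  have g1 : ∀ b b', ∀ z ∈ Γ b, ∀ z' ∈ Γ b',
      tr (cf p q b b' * z.2 * z'.1) = tr (cf p q b b' * z'.2 * z.1) := by
    intro b b' z hz z' hz'
    rw [hΓ] at hz hz'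
    induction hz using AddSubgroup.closure_induction with
    | mem x hx =>
      obtain ⟨i, ⟨hi, rfl⟩, rfl⟩ := hx
      induction hz' using AddSubgroup.closure_induction with
      | mem x hx =>
        obtain ⟨j, ⟨hj, rfl⟩, rfl⟩ := hx
        exact t1 i hi j hj
      | zero => simp
      | add x y _ _ hx hy =>
        simp only [Prod.fst_add, Prod.snd_add, mul_add, add_mul, weyl_tr_add]
        rw [hx, hy]
      | neg x _ hx =>
        simp only [Prod.fst_neg, Prod.snd_neg, mul_neg, neg_mul, tr, map_neg]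
        exact congrArg _ hx
    | zero => simp
    | add x y _ _ hx hy =>
      simp only [Prod.fst_add, Prod.snd_add, mul_add, add_mul, weyl_tr_add]
      rw [hx, hy]
    | neg x _ hx =>
      simp only [Prod.fst_neg, Prod.snd_neg, mul_neg, neg_mul, tr, map_neg]
      exact congrArg _ hx
  have g2 : ∀ b, ∀ z ∈ Γ b, tr (p * z.2 * z.1) = 0 := by
    intro b z hz
    rw [hΓ] at hz
    induction hz using AddSubgroup.closure_induction with
    | mem x hx =>
      obtain ⟨i, ⟨hi, -⟩, rfl⟩ := hx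
      exact t2 i hi
    | zero => simp
    | add x y mx my hx hy =>
      have h2 := g1 b b x (hΓ b ▸ mx) y (hΓ b ▸ my)
      rw [cf, if_pos rfl] at h2
      simp only [Prod.fst_add, Prod.snd_add, mul_add, add_mul, weyl_tr_add]
      rw [hx, hy, h2, zero_add, add_zero, weyl_self]
    | neg x _ hx => simpa using hx
  have g3 : ∀ b x, ∃ u, (x, u) ∈ Γ b := by
    intro b x
    have hx : x ∈ Vs B β b y := by
      fin_cases b
      exacts [h0 ▸ AddSubgroup.mem_top x, h1 ▸ AddSubgroup.mem_top x]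
    induction hx using AddSubgroup.closure_induction with
    | mem x hx =>
      obtain ⟨i, hi, rfl⟩ := hx
      exact ⟨l i, hΓ b ▸ AddSubgroup.subset_closure ⟨i, hi, rfl⟩⟩
    | zero => exact ⟨0, zero_mem _⟩
    | add x y _ _ hx hy =>
      obtain ⟨u, hu⟩ := hx
      obtain ⟨v, hv⟩ := hy
      exact ⟨u + v, add_mem hu hv⟩
    | neg x _ hx =>
      obtain ⟨u, hu⟩ := hx
      exact ⟨-u, neg_mem hu⟩
  have g4 : ∀ b x u v, (x, u) ∈ Γ b → (x, v) ∈ Γ b → u = v := by
    intro b x u v hu hv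
    have hb : cf p q b (b + 1) = q := if_neg (by simp)
    refine mul_left_cancel₀ hq (weyl_ext fun z => ?_)
    obtain ⟨w, hw⟩ := g3 (b + 1) z
    have h2 := g1 _ _ _ hu _ hw
    have h3 := g1 _ _ _ hv _ hw
    rw [hb] at h2 h3
    exact h2.trans h3.symm
  choose A hA using g3
  refine ⟨fun b => AddMonoidHom.mk' (A b) fun x x' =>
    g4 b _ _ _ (hA b _) (add_mem (hA b x) (hA b x')),
    ⟨fun b b' x x' => g1 b b' _ (hA b x) _ (hA b' x'), fun b x => g2 b _ (hA b x)⟩, fun i hi => ?_⟩
  exact g4 (β i) _ _ _ (hΓ (β i) ▸ AddSubgroup.subset_closure ⟨i, ⟨hi, rfl⟩, rfl⟩) (hA _ _)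

theorem syz_perp {ι : Type} [Fintype ι] {B : Finset ι} {β : ι → F2} {p q : k}
    {A : F2 → k →+ k} (hA : A ∈ Syz p q) (y : ι → k) (S : Sym B) :
    tr (∑ i ∈ B, A (β i) (y i) * (mat β p q 0 S *ᵥ y) i) = 0 := by
  rw [weyl_expand β p q y (fun i => A (β i) (y i)) S, ← Finset.sum_product']
  refine Finset.sum_ninvolution Prod.swap (fun a => ?_) (fun a ha e => ha ?_)
    (fun a => by simp) fun a => rfl
  · rw [Prod.fst_swap, Prod.snd_swap, S.2.1 a.2 a.1, hA.1 (β a.2), weyl_cf p q (β a.2)]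
    exact weyl_self _
  · have e1 : a.2 = a.1 := congrArg Prod.fst e
    rw [e1, cf, if_pos rfl, hA.2, mul_zero]

end Pool.Agent.Lib.MP_f8d36e_nt
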