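import Pool.Agent.Lib.MP_f8d36e_nt.FDefs
import Pool.Agent.Lib.MP_f8d36e_nt.Weyl

/-! Job F3a: equidistribution of the symbols between large primes. -/

set_option autoImplicit false

open Finset Filter
open scoped NumberTheorySymbols
open Pool.Agent.Lib.MP_696deb_nt Pool.Agent.Lib.MP_696deb_nt.Den

namespace Pool.Agent.Lib.MP_f8d36e_nt

/-- The characters of the group of functions with values in the field with two elements. -/
noncomputable def equi_ch {κ : Type} (S : Finset κ) (γ s : κ → F2) : ℝ :=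
  ∏ e ∈ S, if γ e * s e = 0 then 1 else -1

theorem equi_ch_abs {κ : Type} (S : Finset κ) (γ s : κ → F2) : |equi_ch S γ s| ≤ 1 := by
  rw [equi_ch, abs_prod]
  refine prod_le_one (fun _ _ => abs_nonneg _) fun e _ => ?_
  split_ifs <;> simp

theorem equi_orth {κ : Type} [Fintype κ] [DecidableEq κ] (s s' : κ → F2) :
    ∑ γ : κ → F2, equi_ch univ γ s' * equi_ch univ γ s =
      if s' = s then (Fintype.card (κ → F2) : ℝ) else 0 := by
  have h1 : ∀ a b : F2, ∑ g : F2, ((if g * a = 0 then 1 else -1) * (if g * b = 0 then 1 else -1) : ℤ)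
      = if a = b then 2 else 0 := by decide
  have h2 : ∀ a b : F2, ∑ g : F2, ((if g * a = 0 then 1 else -1) * (if g * b = 0 then 1 else -1) : ℝ)
      = if a = b then 2 else 0 := fun a b => by exact_mod_cast h1 a b
  simp only [equi_ch, ← prod_mul_distrib]
  rw [← Fintype.prod_sum (fun (e : κ) (g : F2) =>
    ((if g * s' e = 0 then 1 else -1) * (if g * s e = 0 then 1 else -1) : ℝ))]
  simp only [h2]
  split_ifs with h
  · simp [h]
  · obtain ⟨e, he⟩ := Function.ne_iff.1 h
    exact prod_eq_zero (mem_univ e) (if_neg he)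

open Classical in
theorem equi_fourier {κ : Type} [Fintype κ] [DecidableEq κ] (E : (κ → F2) → Prop) :
    ∃ c : (κ → F2) → ℝ, (∀ γ, |c γ| ≤ 1) ∧ c 0 = pr E ∧
      ∀ s, (if E s then (1 : ℝ) else 0) = ∑ γ, c γ * equi_ch univ γ s := by
  have hN : (0 : ℝ) < Fintype.card (κ → F2) := by exact_mod_cast Fintype.card_pos
  refine ⟨fun γ => (∑ s', (if E s' then 1 else 0) * equi_ch univ γ s') / Fintype.card (κ → F2),
    fun γ => ?_, ?_, fun s => ?_⟩
  · rw [abs_div, abs_of_pos hN, div_le_one hN]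
    refine (abs_sum_le_sum_abs _ _).trans ((sum_le_sum (g := fun _ => 1) fun s' _ => ?_).trans
      (by simp))
    rw [abs_mul]
    refine mul_le_one₀ ?_ (abs_nonneg _) (equi_ch_abs _ _ _)
    split_ifs <;> simp
  · rw [pr_eq_sum]
    simp [equi_ch]
  · simp only [div_mul_eq_mul_div, ← sum_div, sum_mul, mul_assoc]
    rw [sum_comm]
    simp only [← mul_sum, equi_orth, mul_ite, mul_zero, sum_ite_eq', mem_univ, if_true]
    rw [mul_div_cancel_right₀ _ hN.ne']

/-- The bilinear bound. -/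
def EquiBil (C : ℝ) : Prop := ∀ (Y Z : ℕ) (α β : ℕ → ℝ), 1 ≤ Y →
    (∀ a, |α a| ≤ 1) → (∀ b, |β b| ≤ 1) →
    (∀ a, α a ≠ 0 → Squarefree a ∧ Odd a ∧ Y < a) →
    (∀ b, β b ≠ 0 → Squarefree b ∧ Odd b ∧ Y < b) →
    |∑ a ∈ Icc 1 Z, ∑ b ∈ Icc 1 Z, if a * b ≤ Z then α a * β b * (J(b | a) : ℝ) else 0| ≤
      C * Z * (1 + Real.log Z) / (Y : ℝ) ^ (1 / 24 : ℝ)

theorem equi_bil {C : ℝ} (hC0 : 0 < C) (hC : EquiBil C) {Y Z D : ℕ} (hY : 2 ≤ Y) (hD : 0 < D)
    {α β : ℕ → ℝ} (hα : ∀ a, |α a| ≤ 1) (hβ : ∀ b, |β b| ≤ 1) :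
    |∑ a ∈ Icc 1 Z with a.Prime ∧ Y < a, ∑ b ∈ Icc 1 Z with b.Prime ∧ Y < b,
      if D * a * b ≤ Z then α a * β b * (J(b | a) : ℝ) else 0| ≤
      C * Z * (1 + Real.log Z) / (Y : ℝ) ^ (1 / 24 : ℝ) * (1 / (D : ℝ)) := by
  have h1 : ∀ γ : ℕ → ℝ, (∀ a, |γ a| ≤ 1) → ∀ a : ℕ,
      |if a.Prime ∧ Y < a then γ a else 0| ≤ 1 := fun γ h a => by
    split_ifs
    · exact h a
    · simp
  have h2 : ∀ (γ : ℕ → ℝ) (a : ℕ), (if a.Prime ∧ Y < a then γ a else 0) ≠ 0 →
      Squarefree a ∧ Odd a ∧ Y < a := fun γ a h => by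
    have h3 : a.Prime ∧ Y < a := by
      by_contra hc
      exact h (if_neg hc)
    exact ⟨h3.1.squarefree, h3.1.odd_of_ne_two (by omega), h3.2⟩
  have key := hC Y (Z / D) _ _ (by omega) (h1 α hα) (h1 β hβ) (h2 α) (h2 β)
  have hs : Icc 1 (Z / D) ⊆ Icc 1 Z := Icc_subset_Icc_right (Nat.div_le_self _ _)
  rw [sum_subset hs, sum_congr rfl fun a ha => sum_subset hs ?_] at key
  · refine le_trans (le_of_eq (congrArg _ ?_)) (key.trans ?_)
    · rw [sum_filter]
      refine sum_congr rfl fun a _ => ?_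
      by_cases ha : a.Prime ∧ Y < a
      · rw [if_pos ha, if_pos ha, sum_filter]
        refine sum_congr rfl fun b _ => ?_
        have e : a * b ≤ Z / D ↔ D * a * b ≤ Z := by
          rw [Nat.le_div_iff_mul_le hD, mul_comm, mul_assoc]
        simp only [e]
        split_ifs <;> simp
      · simp [ha]
    · have a1 : ((Z / D : ℕ) : ℝ) ≤ Z * (1 / (D : ℝ)) := by
        rw [mul_one_div]
        exact Nat.cast_div_le
      have a2 : Real.log (Z / D : ℕ) ≤ Real.log Z := by
        rcases Nat.eq_zero_or_pos (Z / D) with h | h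
        · rw [h, Nat.cast_zero, Real.log_zero]
          exact Real.log_natCast_nonneg Z
        · exact Real.log_le_log (by exact_mod_cast h) (by exact_mod_cast Nat.div_le_self _ _)
      have a3 := Real.log_natCast_nonneg (Z / D)
      calc _ ≤ C * (Z * (1 / (D : ℝ))) * (1 + Real.log Z) / (Y : ℝ) ^ (1 / 24 : ℝ) := by gcongr
        _ = _ := by ring
  · intro b hb hb'
    refine if_neg fun h => hb' (mem_Icc.2 ⟨(mem_Icc.1 hb).1, le_trans ?_ h⟩)
    exact Nat.le_mul_of_pos_left _ (mem_Icc.1 ha).1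
  · intro a ha ha'
    refine sum_eq_zero fun b hb => if_neg fun h => ha' (mem_Icc.2 ⟨(mem_Icc.1 ha).1, le_trans ?_ h⟩)
    exact Nat.le_mul_of_pos_right _ (mem_Icc.1 hb).1

open Function in
theorem equi_inj {k : ℕ} {i j : Fin k} (h : i ≠ j) (q : Fin k → ℕ) (x y : ℕ) :
    Injective (update (update q j y) i x) ↔
      ((∀ l l', l ≠ i → l ≠ j → l' ≠ i → l' ≠ j → q l = q l' → l = l') ∧
        ∀ l, l ≠ i → l ≠ j → q l ≠ y) ∧ (∀ l, l ≠ i → l ≠ j → q l ≠ x) ∧ x ≠ y := by
  constructor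
  · intro H
    refine ⟨⟨fun l l' a b c d e => H (by simp [a, b, c, d, e]), fun l a b e => b (H ?_)⟩,
      fun l a b e => a (H ?_), fun e => h (H ?_)⟩
    · simp [a, b, h.symm, e]
    · simp [a, b, e]
    · simp [h.symm, e]
  · rintro ⟨⟨a, b⟩, c, d⟩ l l' e
    simp only [update_apply] at e
    grind

theorem equi_sym {x y : ℕ} (hx : x.Prime) (hy : y.Prime) (h : x ≠ y) :
    (if rhoN x y = 0 then (1 : ℝ) else -1) = (J(x | y) : ℝ) := by
  have := jacobiSym.eq_one_or_neg_one (a := x) (b := y) (by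
    rw [Int.gcd_natCast_natCast]
    exact (Nat.coprime_primes hx hy).2 h)
  rcases this with e | e <;> simp [rhoN, e]

open Function Classical in
theorem equi_fixed {C : ℝ} (hC0 : 0 < C) (hC : EquiBil C) {k Y Z : ℕ} (hY : 2 ≤ Y) {T : Type}
    [Fintype T] (τ : ℕ → T) {c : (Fin k → T) → ℝ} (hc : ∀ t, |c t| ≤ 1) {γ : Pr k → F2}
    {i j : Fin k} (hij : i < j) (hγ : γ ⟨(i, j), hij⟩ = 1) {q : Fin k → ℕ} (hi : q i = 1)
    (hj : q j = 1) (hq : 0 < ∏ l, q l) :
    |∑ y ∈ Icc 1 Z with y.Prime ∧ Y < y, ∑ x ∈ Icc 1 Z with x.Prime ∧ Y < x,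
      if Injective (update (update q j y) i x) ∧ ∏ l, update (update q j y) i x l ≤ Z then
        c (fun l => τ (update (update q j y) i x l)) *
          equi_ch univ γ (up (update (update q j y) i x)) else 0| ≤
      (Fintype.card T : ℝ) ^ 2 * (C * Z * (1 + Real.log Z) / (Y : ℝ) ^ (1 / 24 : ℝ) *
        (1 / ((∏ l, q l : ℕ) : ℝ))) := by
  let S := (univ : Finset (Pr k)).erase ⟨(i, j), hij⟩
  let α : T → ℕ → ℝ := fun t y => if τ y = t ∧
    (∀ l l', l ≠ i → l ≠ j → l' ≠ i → l' ≠ j → q l = q l' → l = l') ∧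
      ∀ l, l ≠ i → l ≠ j → q l ≠ y then
    equi_ch (S.filter fun e => e.1.1 ≠ i ∧ e.1.2 ≠ i) γ (up (update q j y)) else 0
  let β : T → ℕ → ℝ := fun t x => if τ x = t ∧ ∀ l, l ≠ i → l ≠ j → q l ≠ x then
    equi_ch (S.filter fun e => ¬ (e.1.1 ≠ i ∧ e.1.2 ≠ i)) γ (up (update q i x)) else 0
  have hα : ∀ t y, |α t y| ≤ 1 := fun t y => by
    simp only [α]
    split_ifs
    exacts [equi_ch_abs _ _ _, by simp]
  have hβ : ∀ t y, |β t y| ≤ 1 := fun t y => by
    simp only [β]
    split_ifs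
    exacts [equi_ch_abs _ _ _, by simp]
  have e : ∀ x y : ℕ, x.Prime → y.Prime →
      (if Injective (update (update q j y) i x) ∧ ∏ l, update (update q j y) i x l ≤ Z then
        c (fun l => τ (update (update q j y) i x l)) *
          equi_ch univ γ (up (update (update q j y) i x)) else 0) =
      ∑ t : T × T, c (update (update (fun l => τ (q l)) j t.1) i t.2) *
        if (∏ l, q l) * y * x ≤ Z then α t.1 y * β t.2 x * (J(x | y) : ℝ) else 0 := by
    intro x y hx hy
    rw [sum_eq_single (τ y, τ x), prod_update_one _ _ (by rw [update_of_ne hij.ne, hi]),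
      prod_update_one _ _ hj]
    · have e1 : (fun l => τ (update (update q j y) i x l)) =
          update (update (fun l => τ (q l)) j (τ y)) i (τ x) := by
        funext l
        simp only [update_apply]
        split_ifs <;> rfl
      by_cases h0 : (∏ l, q l) * y * x ≤ Z
      swap
      · simp [h0]
      have e2 := equi_inj hij.ne q x y
      by_cases hxy : x = y
      · rw [if_neg fun a => (e2.1 a.1).2.2 hxy]
        subst hxy
        have : J(x | x) = 0 := jacobiSym.eq_zero_iff.2 ⟨hx.ne_zero, by simpa using hx.one_lt.ne'⟩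
        simp [this]
      rw [if_pos h0, e1]
      by_cases a1 : Injective (update (update q j y) i x)
      · simp only [α, β]
        rw [if_pos ⟨a1, h0⟩, if_pos ⟨trivial, (e2.1 a1).1⟩, if_pos ⟨trivial, (e2.1 a1).2.1⟩,
          ← equi_sym hx hy hxy, equi_ch, ← prod_erase_mul _ _ (mem_univ ⟨(i, j), hij⟩), hγ,
          ← prod_filter_mul_prod_filter_not _ fun e : Pr k => e.1.1 ≠ i ∧ e.1.2 ≠ i]
        congr 2
        · congr 1
          · refine prod_congr rfl fun e he => ?_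
            obtain ⟨b1, b2⟩ := (mem_filter.1 he).2
            rw [show up (update (update q j y) i x) e = up (update q j y) e by
              simp only [up, update_of_ne b1, update_of_ne b2]]
          · refine prod_congr rfl fun e he => ?_
            obtain ⟨b1, b2⟩ := mem_filter.1 he
            have b3 : ¬ (e.1.1 = i ∧ e.1.2 = j) := fun b =>
              ne_of_mem_erase b1 (Subtype.ext (Prod.ext b.1 b.2))
            have b4 := e.2
            have b5 : ∀ l, l ≠ j → update (update q j y) i x l = update q i x l := fun l hl => by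
              simp only [update_apply, if_neg hl]
            rw [show up (update (update q j y) i x) e = up (update q i x) e by
              rw [up, up, b5 _ (by omega), b5 _ (by omega)]]
        · simp [up, hij.ne']
      · rw [if_neg fun a => a1 a.1]
        simp only [α, β]
        split_ifs with a2 a3
        · exact absurd (e2.2 ⟨a2.2, a3.2, hxy⟩) a1
        · simp
        · simp
        · simp
    · rintro ⟨t, t'⟩ - h
      have : ¬ τ y = t ∨ ¬ τ x = t' := by
        by_contra a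
        push Not at a
        exact h (by rw [a.1, a.2])
      rcases this with a | a <;> simp [α, β, a]
    · simp
  rw [sum_congr rfl fun y hy => sum_congr rfl fun x hx =>
    e x y (mem_filter.1 hx).2.1 (mem_filter.1 hy).2.1, sum_congr rfl fun y _ => sum_comm, sum_comm]
  simp only [← mul_sum]
  refine (abs_sum_le_sum_abs _ _).trans ((sum_le_card_nsmul _ _ _ fun t _ => (abs_mul _ _).le.trans
    ((mul_le_of_le_one_left (abs_nonneg _) (hc _)).trans
      (equi_bil hC0 hC hY hq (hα _) (hβ _)))).trans (le_of_eq ?_))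
  rw [card_univ, Fintype.card_prod, nsmul_eq_mul, Nat.cast_mul, ← sq]

open Function Fintype Classical in
theorem equi_one {C : ℝ} (hC0 : 0 < C) (hC : EquiBil C) {k Y Z : ℕ} (hY : 2 ≤ Y) {T : Type}
    [Fintype T] (τ : ℕ → T) {c : (Fin k → T) → ℝ} (hc : ∀ t, |c t| ≤ 1) {γ : Pr k → F2}
    (hγ : γ ≠ 0) :
    |∑ q ∈ Tup k Y Z, c (fun l => τ (q l)) * equi_ch univ γ (up q)| ≤
      (Fintype.card T : ℝ) ^ 2 * C * Z * (1 + Real.log Z) ^ k / (Y : ℝ) ^ (1 / 24 : ℝ) := by
  obtain ⟨⟨⟨i, j⟩, hij⟩, h1⟩ := ne_iff.1 hγ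
  have h2 : ∀ a : F2, a ≠ 0 → a = 1 := by decide
  have hne : i ≠ j := ne_of_lt hij
  rw [Tup, sum_filter, sum_pi_update _ i, sum_pi_update _ j, update_of_ne hne.symm]
  set Q := update (update (fun _ : Fin k => {q ∈ Icc 1 Z | q.Prime ∧ Y < q}) i {1}) j {1} with hQ
  have hl := Real.log_natCast_nonneg Z
  have h3 : (∑ q ∈ piFinset Q, 1 / ((∏ l, q l : ℕ) : ℝ)) * (1 + Real.log Z) ≤
      (1 + Real.log Z) ^ k := by
    have a1 : ∑ q ∈ piFinset Q, 1 / ((∏ l, q l : ℕ) : ℝ) = ∏ l, ∑ m ∈ Q l, 1 / (m : ℝ) := by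
      rw [prod_univ_sum]
      exact sum_congr rfl fun q _ => by push_cast; simp
    have a2 : (1 + Real.log Z) ^ k = (∏ l ∈ univ.erase j, (1 + Real.log Z)) * (1 + Real.log Z) := by
      rw [prod_erase_mul _ (fun _ => 1 + Real.log Z) (mem_univ j), prod_const, card_univ,
        Fintype.card_fin]
    rw [a1, a2, ← prod_erase_mul _ _ (mem_univ j)]
    refine mul_le_mul_of_nonneg_right ?_ (by linarith)
    rw [show ∑ m ∈ Q j, 1 / (m : ℝ) = 1 by simp [hQ], mul_one]
    refine prod_le_prod (fun l _ => sum_nonneg fun m _ => by positivity) fun l hl' => ?_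
    rw [hQ, update_of_ne (ne_of_mem_erase hl')]
    by_cases a3 : l = i
    · simpa [a3] using hl
    · rw [update_of_ne a3]
      exact (sum_le_sum_of_subset_of_nonneg (filter_subset _ _) fun _ _ _ => by positivity).trans
        (sum_inv_le Z)
  refine (abs_sum_le_sum_abs _ _).trans ((sum_le_sum fun q hq =>
    equi_fixed hC0 hC hY τ hc hij (h2 _ h1) ?_ ?_ ?_).trans ?_)
  · simpa [hQ, hne] using mem_piFinset.1 hq i
  · simpa [hQ] using mem_piFinset.1 hq j
  · refine prod_pos fun l _ => ?_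
    have := mem_piFinset.1 hq l
    simp only [hQ, update_apply] at this
    split_ifs at this
    · rw [mem_singleton.1 this]; exact one_pos
    · rw [mem_singleton.1 this]; exact one_pos
    · exact (mem_filter.1 this).2.1.pos
  · rw [← mul_sum, ← mul_sum]
    calc _ = (Fintype.card T : ℝ) ^ 2 * C * Z * ((∑ q ∈ piFinset Q, 1 / ((∏ l, q l : ℕ) : ℝ)) *
          (1 + Real.log Z)) / (Y : ℝ) ^ (1 / 24 : ℝ) := by ring
      _ ≤ _ := by gcongr

open Classical in
theorem equi : ∃ C : ℝ, 0 < C ∧ ∀ (k Y Z : ℕ) (T : Type) [Fintype T] (τ : ℕ → T)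
    (E : (Fin k → T) → (Pr k → F2) → Prop), 2 ≤ Y →
    ∑ q ∈ Tup k Y Z, pr (E fun i => τ (q i)) ≤
      #{q ∈ Tup k Y Z | E (fun i => τ (q i)) (up q)} +
        2 ^ k ^ 2 * (Fintype.card T : ℝ) ^ 2 * C * Z * (1 + Real.log Z) ^ k /
          (Y : ℝ) ^ (1 / 24 : ℝ) := by
  obtain ⟨C, hC0, hC⟩ := An.hyp_bil
  refine ⟨C, hC0, fun k Y Z T _ τ E hY => ?_⟩
  choose c h1 h2 h3 using fun t => equi_fourier (E t)
  have hl := Real.log_natCast_nonneg Z
  have e : (#{q ∈ Tup k Y Z | E (fun i => τ (q i)) (up q)} : ℝ) =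
      ∑ q ∈ Tup k Y Z, pr (E fun i => τ (q i)) + ∑ γ ∈ univ.erase 0,
        ∑ q ∈ Tup k Y Z, c (fun i => τ (q i)) γ * equi_ch univ γ (up q) := by
    rw [natCast_card_filter, sum_congr rfl fun q _ => h3 _ (up q), sum_comm,
      ← add_sum_erase _ _ (mem_univ 0)]
    simp [h2, equi_ch]
  have a1 := (abs_sum_le_sum_abs _ _).trans (sum_le_card_nsmul (univ.erase (0 : Pr k → F2)) _ _
    fun γ hγ => equi_one (Z := Z) hC0 hC hY τ (fun t => h1 t γ) (ne_of_mem_erase hγ))
  have a2 : (#(univ.erase (0 : Pr k → F2)) : ℝ) ≤ 2 ^ k ^ 2 := by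
    have b1 : Fintype.card (Pr k) ≤ k ^ 2 := (Fintype.card_subtype_le _).trans (by simp [sq])
    have b2 : #(univ.erase (0 : Pr k → F2)) ≤ 2 ^ k ^ 2 := card_erase_le.trans (by
      rw [card_univ, Fintype.card_fun, ZMod.card]
      exact Nat.pow_le_pow_right (by norm_num) b1)
    exact_mod_cast b2
  rw [nsmul_eq_mul] at a1
  have a3 := (neg_le_abs _).trans (a1.trans (mul_le_mul_of_nonneg_right a2 (by positivity)))
  rw [e]
  simp only [mul_div_assoc, mul_assoc] at a3 ⊢
  linarith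

end Pool.Agent.Lib.MP_f8d36e_nt
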