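import Pool.Agent.Lib.MP_f8d36e_nt.EDefs
import Pool.Agent.Lib.MP_f8d36e_nt.Anal

/-! Definitions for the analytic half. -/

set_option autoImplicit false

open Finset Filter
open scoped NumberTheorySymbols
open Pool.Agent.Lib.MP_696deb_nt Pool.Agent.Lib.MP_696deb_nt.Den

namespace Pool.Agent.Lib.MP_f8d36e_nt

/-- The bound that separates small and large primes. -/
def YY (v : ℕ) : ℕ := 2 ^ v ^ 26

/-- The parameter `v` fits the size `X`. -/
def Win (v X : ℕ) : Prop :=
  3 * Nat.log 2 (Nat.log 2 X) ≤ v ^ 12 ∧ v ^ 12 ≤ 6 * Nat.log 2 (Nat.log 2 X)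

/-- Typical numbers. -/
def TypN (v m : ℕ) : Prop :=
  Typ v (univ.filter fun p : m.primeFactors => YY v < p) (fun p => uN p) (fun p => wN p)
    fun p q => rhoN p q

open Classical in
/-- Tuples of distinct primes above `Y` with product at most `Z`. -/
noncomputable def Tup (k Y Z : ℕ) : Finset (Fin k → ℕ) :=
  (Fintype.piFinset fun _ => {q ∈ Icc 1 Z | q.Prime ∧ Y < q}).filter fun q =>
    Function.Injective q ∧ ∏ i, q i ≤ Z

/-- Ordered pairs of indices. -/
abbrev Pr (k : ℕ) : Type := {e : Fin k × Fin k // e.1 < e.2}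

/-- The symbols between the primes of a tuple. -/
def up {k : ℕ} (q : Fin k → ℕ) : Pr k → F2 := fun e => rhoN (q e.1.1) (q e.1.2)

/-- The type of a large prime relative to `M`. -/
abbrev Ty (M : ℕ) : Type := Fin 8 × (M.primeFactors → F2)

/-- The class modulo eight and the symbols modulo the primes of `M`. -/
def tyN (M q : ℕ) : Ty M := (⟨q % 8, Nat.mod_lt _ (by norm_num)⟩, fun p => rhoN q p)

section
variable {M k : ℕ}

/-- The large indices of the model. -/
def BM (M k : ℕ) : Finset (M.primeFactors ⊕ Fin k) := univ.filter fun i => i.isRight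

def uM (t : Fin k → Ty M) : M.primeFactors ⊕ Fin k → F2 :=
  Sum.elim (fun p => uN p) fun i => uN (t i).1

def wM (t : Fin k → Ty M) : M.primeFactors ⊕ Fin k → F2 :=
  Sum.elim (fun p => wN p) fun i => wN (t i).1

/-- The part of the symbols that is determined by the types. -/
def rhoM (t : Fin k → Ty M) : M.primeFactors ⊕ Fin k → M.primeFactors ⊕ Fin k → F2
  | .inl p, .inl p' => rhoN p p'
  | .inr i, .inl p => (t i).2 p
  | .inl p, .inr i => (t i).2 p + uN p * uN (t i).1
  | .inr i, .inr j => if j < i then uN (t i).1 * uN (t j).1 else 0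

/-- The symmetric matrix with prescribed upper part. -/
def symM (M : ℕ) (s : Pr k → F2) : M.primeFactors ⊕ Fin k → M.primeFactors ⊕ Fin k → F2
  | .inr i, .inr j => if h : i < j then s ⟨(i, j), h⟩ else if h : j < i then s ⟨(j, i), h⟩ else 0
  | _, _ => 0

/-- The event in the model. -/
def EM (v : ℕ) (t : Fin k → Ty M) (s : Pr k → F2) : Prop :=
  Typ v (BM M k) (uM t) (wM t) (rhoM t) ∧
    Crit (uM t) (wM t) (Rmat (uM t) fun i j => rhoM t i j + symM M s i j)
end

end Pool.Agent.Lib.MP_f8d36e_nt
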