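import Pool.Agent.Lib.MP_f8d36e_nt.FDefs

/-! Job F1: numbers with few prime factors in a set; primes in classes. -/

set_option autoImplicit false

open Finset Filter
open scoped NumberTheorySymbols
open Pool.Agent.Lib.MP_696deb_nt Pool.Agent.Lib.MP_696deb_nt.Den

namespace Pool.Agent.Lib.MP_f8d36e_nt

theorem few_L {Z : ℕ} (hZ : 2 ≤ Z) : 1 / 2 ≤ Real.log Z :=
  An.log_two_ge.trans (Real.log_le_log two_pos (by exact_mod_cast hZ))

theorem few_xs {L : ℝ} (hL : 0 < L) {p : ℕ} (hp : p.Prime) : xs L p ≤ 1 :=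
  (xs_le hL hp.pos).trans ((div_le_one (by exact_mod_cast hp.pos)).2 (by exact_mod_cast hp.pos))

theorem few_mem {Z p : ℕ} : p ∈ (PP Z).primeFactors ↔ p ≤ Z ∧ p.Prime ∧ Odd p := by
  rw [PP_pf, mem_filter, mem_Icc]
  exact ⟨fun h => ⟨h.1.2, h.2⟩, fun h => ⟨⟨h.2.1.pos, h.1⟩, h.2⟩⟩

theorem few_up {L : ℝ} (hL : 0 < L) (Z : ℕ) :
    ∑ p ∈ (PP Z).primeFactors, xs L p ≤ Real.log (1 + L) + 2 := by
  have h := An.sum_le_log hL Z (a := fun _ => 1) fun _ => ⟨zero_le_one, le_rfl⟩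
  simp only [one_mul] at h
  refine h.trans (add_le_add (Real.log_le_log (prod_pos fun p _ => ?_)
    (prod_xs_le hL (PP_sq Z))) le_rfl)
  linarith [xs_nonneg L p]

theorem few_log {L : ℝ} (hL : 1 / 2 ≤ L) : Real.log (1 + L) ≤ Real.log L + Real.log 3 := by
  rw [← Real.log_mul (by linarith) (by norm_num)]
  exact Real.log_le_log (by linarith) (by linarith)

theorem few_primes : ∃ C : ℝ, 0 < C ∧ ∀ (Z k : ℕ) (P : ℕ → Prop) [DecidablePred P], 2 ≤ Z →
    (#{n ∈ SO Z | #{p ∈ n.primeFactors | P p} < k} : ℝ) ≤ C * Z * 2 ^ k *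
      Real.exp (-(1 / 4) * ∑ p ∈ (PP Z).primeFactors with P p, xs (Real.log Z) p) := by
  refine ⟨27, by norm_num, fun Z k P _ hZ => ?_⟩
  have hL := few_L hZ
  have L0 : 0 < Real.log Z := by linarith
  have hg : ∀ p : ℕ, p.Prime → 0 ≤ (if P p then 1 / 2 else 1 : ℝ) ∧
      (if P p then 1 / 2 else 1 : ℝ) ≤ 1 := fun p _ => by split_ifs <;> norm_num
  have h1 := An.ht1 hg Z
  have h2 := An.ht2 hg L0
  have h3 : ∏ p ∈ (PP Z).primeFactors, (1 + (if P p then 1 / 2 else 1) * xs (Real.log Z) p) ≤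
      (1 + Real.log Z) *
        Real.exp (-(1 / 4) * ∑ p ∈ (PP Z).primeFactors with P p, xs (Real.log Z) p) := by
    refine le_trans ?_ (mul_le_mul_of_nonneg_right (prod_xs_le L0 (PP_sq Z)) (Real.exp_pos _).le)
    rw [sum_filter, mul_sum, Real.exp_sum, ← prod_mul_distrib]
    refine prod_le_prod (fun p hp => ?_) fun p hp => ?_
    · linarith [mul_nonneg (hg p (few_mem.1 hp).2.1).1 (xs_nonneg (Real.log Z) p)]
    · have e1 := xs_nonneg (Real.log Z) p
      have e2 := few_xs L0 (few_mem.1 hp).2.1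
      split_ifs
      · have e3 := mul_le_mul_of_nonneg_left (Real.add_one_le_exp (-(1 / 4) * xs (Real.log Z) p))
          (show 0 ≤ 1 + xs (Real.log Z) p by linarith)
        nlinarith
      · simp
  have h4 : (#{n ∈ SO Z | #{p ∈ n.primeFactors | P p} < k} : ℝ) ≤
      2 ^ k * ∑ n ∈ SO Z, ∏ p ∈ n.primeFactors, (if P p then 1 / 2 else 1 : ℝ) := by
    rw [card_eq_sum_ones, Nat.cast_sum, mul_sum]
    refine (sum_le_sum fun n hn => ?_).trans (sum_le_sum_of_subset_of_nonneg (filter_subset _ _)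
      fun n _ _ => mul_nonneg (by positivity) (An.G_nonneg hg n))
    rw [prod_ite, prod_const_one, mul_one, prod_const, one_div, inv_pow, Nat.cast_one,
      ← div_eq_mul_inv, one_le_div (by positivity)]
    exact pow_le_pow_right₀ one_le_two (mem_filter.1 hn).2.le
  set E := Real.exp (-(1 / 4) * ∑ p ∈ (PP Z).primeFactors with P p, xs (Real.log Z) p)
  have h5 : (1 + Real.log Z) * E ≤ 3 * Real.log Z * E :=
    mul_le_mul_of_nonneg_right (by linarith) (Real.exp_pos _).le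
  have h6 := mul_le_mul_of_nonneg_left (h2.trans (mul_le_mul_of_nonneg_left (h3.trans h5)
    (by norm_num))) (show (0 : ℝ) ≤ 3 * Z by positivity)
  have h7 := le_of_mul_le_mul_left ((h1.trans h6).trans_eq
    (show _ = Real.log Z * (27 * Z * E) by ring)) L0
  exact h4.trans ((mul_le_mul_of_nonneg_left h7 (by positivity)).trans_eq (by ring))

theorem small_sum {Y : ℕ} (hY : 2 ≤ Y) :
    ∑ p ∈ (PP Y).primeFactors, 1 / (p : ℝ) ≤ 3 * Real.log (1 + Real.log Y) + 6 := by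
  have L0 : 0 < Real.log Y := by linarith [few_L hY]
  have h1 := few_up L0 Y
  have h2 : ∑ p ∈ (PP Y).primeFactors, 1 / (p : ℝ) ≤
      3 * ∑ p ∈ (PP Y).primeFactors, xs (Real.log Y) p := by
    rw [mul_sum]
    refine sum_le_sum fun p hp => inv_le_xs L0 ?_
    obtain ⟨a, b, c⟩ := few_mem.1 hp
    exact An.mem_SO.2 ⟨⟨b.pos, a⟩, b.squarefree, c⟩
  linarith

theorem sum_xs_lower : ∃ C : ℝ, ∀ Z : ℕ, 2 ≤ Z →
    Real.log (Real.log Z) - C ≤ ∑ p ∈ (PP Z).primeFactors, xs (Real.log Z) p := by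
  refine ⟨Real.log 12, fun Z hZ => ?_⟩
  have L0 : 0 < Real.log Z := by linarith [few_L hZ]
  have h0 : ∀ n : ℕ, ((ArithmeticFunction.moebius n : ℝ)) ^ 2 = if Squarefree n then 1 else 0 :=
    fun n => by exact_mod_cast ArithmeticFunction.moebius_sq
  have h1 := log_le_sqfree_sum Z
  simp only [h0, ite_div, zero_div, ← sum_filter] at h1
  rw [← sum_filter_add_sum_filter_not _ Odd, filter_filter, filter_filter] at h1
  have h2 : ∑ l ∈ Icc 1 Z with Squarefree l ∧ ¬ Odd l, 1 / (l : ℝ) ≤ ∑ l ∈ SO Z, 1 / (l : ℝ) := by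
    have e : ∀ l ∈ {l ∈ Icc 1 Z | Squarefree l ∧ ¬ Odd l}, ∃ k, 0 < k ∧ l = 2 * k := fun l hl => by
      simp only [mem_filter, mem_Icc, Nat.odd_iff] at hl
      exact ⟨l / 2, by omega, by omega⟩
    refine sum_le_sum_inj (· / 2) (fun l hl l' hl' h => ?_) (fun l hl => ?_) (fun l hl => ?_)
      fun _ _ => by positivity
    · obtain ⟨k, -, rfl⟩ := e l hl
      obtain ⟨k', -, rfl⟩ := e l' hl'
      simp only at h
      omega
    · obtain ⟨k, k0, rfl⟩ := e l hl
      obtain ⟨a, b, -⟩ := mem_filter.1 hl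
      rw [mem_Icc] at a
      rw [Nat.mul_div_cancel_left _ two_pos]
      exact An.mem_SO.2 ⟨⟨k0, by omega⟩, b.of_mul_right,
        Nat.coprime_two_left.1 (Nat.coprime_of_squarefree_mul b)⟩
    · obtain ⟨k, k0, rfl⟩ := e l hl
      rw [Nat.mul_div_cancel_left _ two_pos]
      exact one_div_le_one_div_of_le (by exact_mod_cast k0) (by exact_mod_cast (by omega))
  have h3 : ∑ l ∈ SO Z, 1 / (l : ℝ) ≤
      3 * Real.exp (∑ p ∈ (PP Z).primeFactors, xs (Real.log Z) p) := by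
    refine (sum_le_sum fun l hl => inv_le_xs L0 hl).trans ?_
    rw [← mul_sum, Real.exp_sum]
    refine mul_le_mul_of_nonneg_left (le_trans ?_ (prod_le_prod (f := fun p => 1 + xs (Real.log Z) p)
      (fun p _ => by linarith [xs_nonneg (Real.log Z) p])
      fun p _ => (add_comm _ _).trans_le (Real.add_one_le_exp _))) (by norm_num)
    rw [prod_one_add_div (PP_sq Z), sum_congr rfl fun d hd => xs_prod _ (PP_div hd).1]
    exact sum_le_sum_of_subset_of_nonneg (SO_sub Z) fun _ _ _ => xs_nonneg _ _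
  rw [← Real.log_div L0.ne' (by norm_num), Real.log_le_iff_le_exp (by positivity)]
  unfold SO at h2 h3
  linarith

/-- The terms of the Dirichlet series over the primes of a class. -/
noncomputable def fewG (a : ℕ) (s : ℝ) (n : ℕ) : ℝ :=
  if n.Prime ∧ n % 8 = a then (n : ℝ) ^ (-(1 + s)) else 0

theorem few_G0 (a : ℕ) (s : ℝ) (n : ℕ) : 0 ≤ fewG a s n := by
  unfold fewG
  split_ifs
  exacts [Real.rpow_nonneg n.cast_nonneg _, le_rfl]

theorem few_Gs (a : ℕ) {s : ℝ} (hs : 0 < s) : Summable (fewG a s) := by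
  refine (Real.summable_nat_rpow.2 (show -(1 + s) < -1 by linarith)).of_nonneg_of_le
    (few_G0 a s) fun n => ?_
  unfold fewG
  split_ifs
  exacts [le_rfl, Real.rpow_nonneg n.cast_nonneg _]

open ArithmeticFunction.vonMangoldt in
theorem few_step {a : ℕ} (ha : Odd a) (h8 : a < 8) : ∃ C : ℝ, 0 ≤ C ∧ ∀ s : ℝ, 0 < s → 2 * s ≤ 1 →
    ∑' n, fewG a (2 * s) n + 1 / 8 - C * s ≤ ∑' n, fewG a s n := by
  obtain ⟨C, hC⟩ := LSeries_residueClass_lower_bound (q := 8) (a := (a : ZMod 8))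
    ((ZMod.isUnit_iff_coprime a 8).2 ((Nat.coprime_two_right.2 ha).pow_right 3))
  have hN := summable_residueClass_non_primes_div (a : ZMod 8)
  refine ⟨|C + ∑' n : ℕ, (if n.Prime then 0 else residueClass (a : ZMod 8) n) / n|, abs_nonneg _,
    fun s h0 h1 => ?_⟩
  have key : ∀ n : ℕ, s * (residueClass (a : ZMod 8) n / (n : ℝ) ^ (1 + 2 * s)) ≤
      fewG a s n - fewG a (2 * s) n +
        s * ((if n.Prime then 0 else residueClass (a : ZMod 8) n) / n) := by
    intro n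
    by_cases hp : n.Prime
    · have n0 : (0 : ℝ) < n := by exact_mod_cast hp.pos
      rw [if_pos hp, zero_div, mul_zero, add_zero, fewG, fewG]
      simp only [residueClass, Set.indicator_apply, Set.mem_ofPred_eq,
        ZMod.natCast_eq_natCast_iff', Nat.mod_eq_of_lt h8]
      by_cases hc : n % 8 = a
      · rw [if_pos hc, if_pos ⟨hp, hc⟩, if_pos ⟨hp, hc⟩,
          ArithmeticFunction.vonMangoldt_apply_prime hp, show -(1 + s) = s + -(1 + 2 * s) by ring,
          Real.rpow_add n0 s, div_eq_mul_inv, ← Real.rpow_neg n0.le, Real.rpow_def_of_pos n0 s]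
        have e1 := Real.add_one_le_exp (Real.log n * s)
        have e2 := Real.rpow_nonneg n0.le (-(1 + 2 * s))
        nlinarith
      · simp [hc]
    · rw [if_neg hp, fewG, fewG, if_neg fun h => hp h.1, if_neg fun h => hp h.1, sub_zero, zero_add]
      refine mul_le_mul_of_nonneg_left ?_ h0.le
      rcases n.eq_zero_or_pos with rfl | n0
      · simp
      · refine div_le_div_of_nonneg_left (residueClass_nonneg _ _) (by exact_mod_cast n0) ?_
        exact Real.self_le_rpow_of_one_le (by exact_mod_cast n0) (by linarith)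
  have s1 := (few_Gs a h0).sub (few_Gs a (s := 2 * s) (by linarith))
  have s2 := s1.add (hN.mul_left s)
  have s3 := (s2.of_nonneg_of_le (fun n => mul_nonneg h0.le (div_nonneg (residueClass_nonneg _ _)
    (Real.rpow_nonneg n.cast_nonneg _))) key).tsum_le_tsum key s2
  rw [tsum_mul_left, s1.tsum_add (hN.mul_left s), tsum_mul_left,
    (few_Gs a h0).tsum_sub (few_Gs a (s := 2 * s) (by linarith))] at s3
  have s4 := mul_le_mul_of_nonneg_left (hC (x := 1 + 2 * s) ⟨by linarith, by linarith⟩) h0.le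
  have s5 : s * (((Nat.totient 8 : ℕ) : ℝ)⁻¹ / (1 + 2 * s - 1) - C) = 1 / 8 - C * s := by
    rw [show Nat.totient 8 = 4 by decide]
    field_simp
    ring
  have s6 := mul_le_mul_of_nonneg_right
    (le_abs_self (C + ∑' n : ℕ, (if n.Prime then 0 else residueClass (a : ZMod 8) n) / n)) h0.le
  linarith

theorem few_tele {a : ℕ} (ha : Odd a) (h8 : a < 8) : ∃ C : ℝ, ∀ L : ℝ, 0 < L →
    1 / 6 * Real.log L - C ≤ ∑' n, fewG a (1 / L) n := by
  obtain ⟨C, C0, hC⟩ := few_step ha h8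
  have key : ∀ (k : ℕ) (s : ℝ), 0 < s → 2 ^ k * s ≤ 1 →
      k / 8 - C * (2 ^ k * s - s) ≤ ∑' n, fewG a s n := by
    intro k
    induction k with
    | zero => exact fun s _ _ => by simpa using tsum_nonneg (few_G0 a s)
    | succ k ih =>
      intro s h0 h1
      rw [pow_succ, mul_assoc] at h1 ⊢
      have e1 := ih (2 * s) (by linarith) h1
      have e2 := hC s h0 ((le_mul_of_one_le_left (by linarith) (one_le_pow₀ one_le_two)).trans h1)
      push_cast
      linarith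
  refine ⟨C + 1 / 8, fun L hL => ?_⟩
  rcases le_total L 1 with h1 | h1
  · have : 0 ≤ ∑' n, fewG a (1 / L) n := tsum_nonneg (few_G0 a _)
    linarith [Real.log_nonpos hL.le h1]
  obtain ⟨k, k1, k2⟩ := exists_nat_pow_near h1 one_lt_two
  have e0 : 2 ^ k * (1 / L) ≤ 1 := by rwa [mul_one_div, div_le_one hL]
  have e1 := key k (1 / L) (by positivity) e0
  have e2 := Real.log_le_log hL k2.le
  rw [Real.log_pow] at e2
  have e3 : C * (2 ^ k * (1 / L) - 1 / L) ≤ C :=
    mul_le_of_le_one_right C0 (by linarith [one_div_pos.2 hL])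
  have e4 := mul_le_mul_of_nonneg_left Real.log_two_lt_d9.le (Nat.cast_nonneg (k + 1))
  push_cast at e2 e4
  linarith [(Nat.cast_nonneg k : (0 : ℝ) ≤ k)]

theorem few_union {s t : Finset ℕ} {f : ℕ → ℝ} (h : ∀ n, 0 ≤ f n) :
    ∑ n ∈ s ∪ t, f n ≤ ∑ n ∈ s, f n + ∑ n ∈ t, f n := by
  rw [← sum_union_inter]
  exact le_add_of_nonneg_right (sum_nonneg fun n _ => h n)

theorem class_lower {a : ℕ} (ha : Odd a) (h8 : a < 8) : ∃ C : ℝ, ∀ Z Y : ℕ, 2 ≤ Z → 2 ≤ Y →
    1 / 6 * Real.log (Real.log Z) - 3 * Real.log (1 + Real.log Y) - C ≤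
      ∑ p ∈ (PP Z).primeFactors with Y < p ∧ p % 8 = a, xs (Real.log Z) p := by
  obtain ⟨C1, h1⟩ := few_tele ha h8
  obtain ⟨C2, h2⟩ := sum_xs_lower
  refine ⟨C1 + C2 + 8 + Real.log 3, fun Z Y hZ hY => ?_⟩
  have hL := few_L hZ
  have L0 : 0 < Real.log Z := by linarith
  have e1 := h1 _ L0
  have e2 := h2 Z hZ
  have e3 := (sum_le_sum fun p hp => xs_le L0 (few_mem.1 hp).2.1.pos).trans (small_sum hY)
  have e4 := few_log hL
  have e5 : ∑' n, fewG a (1 / Real.log Z) n ≤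
      ∑ p ∈ (PP Z).primeFactors with Y < p ∧ p % 8 = a, xs (Real.log Z) p +
        ∑ p ∈ (PP Y).primeFactors, xs (Real.log Z) p +
        (Real.log (1 + Real.log Z) + 2 - ∑ p ∈ (PP Z).primeFactors, xs (Real.log Z) p) := by
    refine (few_Gs a (by positivity)).tsum_le_of_sum_range_le fun N => ?_
    have a1 : (PP Z).primeFactors ⊆ (PP (Z + N)).primeFactors := fun p hp =>
      few_mem.2 ⟨(few_mem.1 hp).1.trans (Nat.le_add_right _ _), (few_mem.1 hp).2⟩
    have a2 := sum_sdiff (f := xs (Real.log Z)) a1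
    have a3 := few_up L0 (Z + N)
    refine le_trans ?_ (add_le_add (few_union (xs_nonneg _))
      (show ∑ p ∈ (PP (Z + N)).primeFactors \ (PP Z).primeFactors, xs (Real.log Z) p ≤ _ by
        linarith))
    refine le_trans ?_ (few_union (xs_nonneg _))
    simp only [fewG, ← sum_filter]
    refine sum_le_sum_of_subset_of_nonneg (fun p hp => ?_) fun _ _ _ => xs_nonneg _ _
    simp only [mem_filter, mem_range, mem_union, Finset.mem_sdiff, few_mem, Nat.odd_iff] at hp ha ⊢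
    simp only [hp.2.1, true_and]
    omega
  linarith

theorem char_upper : ∃ C : ℝ, ∀ (Z q : ℕ) (χ : ℕ → ℝ), 2 ≤ Z → χ 1 = 1 →
    (∀ a b, χ (a * b) = χ a * χ b) → (∀ a, |χ a| ≤ 1) → (∀ t, |∑ n ∈ range t, χ n| ≤ q) →
    ∑ p ∈ (PP Z).primeFactors, χ p * xs (Real.log Z) p ≤ Real.log (3 + Real.log q) + C := by
  obtain ⟨C, hC⟩ := sum_xs_lower
  refine ⟨C + 4 + Real.log 2 + Real.log 3, fun Z q χ hZ h1 hm hb hq => ?_⟩
  have hL := few_L hZ
  have L0 : 0 < Real.log Z := by linarith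
  have ha : ∀ p, 0 ≤ (1 + χ p) / 2 ∧ (1 + χ p) / 2 ≤ 1 := fun p => by
    constructor <;> linarith [abs_le.1 (hb p)]
  have q0 := Real.log_natCast_nonneg q
  have e1 := An.sum_le_log L0 Z ha
  have e2 := Real.log_le_log (pow_pos (prod_pos fun p _ => by
    linarith [mul_nonneg (ha p).1 (xs_nonneg (Real.log Z) p)]) 2)
    (euler_sq_le L0 (PP_sq Z) h1 hm hb hq)
  rw [Real.log_pow, Real.log_mul (by positivity) (by positivity),
    Real.log_mul (by positivity) (by positivity)] at e2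
  have e3 : ∑ p ∈ (PP Z).primeFactors, (1 + χ p) / 2 * xs (Real.log Z) p =
      (∑ p ∈ (PP Z).primeFactors, xs (Real.log Z) p +
        ∑ p ∈ (PP Z).primeFactors, χ p * xs (Real.log Z) p) / 2 := by
    rw [← sum_add_distrib, sum_div]
    exact sum_congr rfl fun p _ => by ring
  have e4 := few_log hL
  have e5 := hC Z hZ
  push_cast at e2
  linarith

theorem few_char {d : ℕ} (hd : Squarefree d) (ho : Odd d) (h1 : d ≠ 1) (ψ : ZMod 8 → ℤ)
    (hb : ∀ a, |ψ a| ≤ 1) (t : ℕ) :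
    |∑ n ∈ range t, (ψ n : ℝ) * (J(n | d) : ℝ)| ≤ (8 * d : ℕ) := by
  have hd0 := hd.ne_zero
  have h8 : ∀ n : ℕ, ψ ((n % 8 : ℕ) : ZMod 8) = ψ (n : ZMod 8) := fun n => by simp
  refine periodic_sum_le (by omega) _ (fun n => ?_) ?_ (fun n => ?_) t
  · rw [← h8 (n % (8 * d)), Nat.mod_mod_of_dvd _ (dvd_mul_right _ _), h8, ← J_mod (n % (8 * d)),
      Nat.mod_mod_of_dvd _ (dvd_mul_left _ _), J_mod]
  · obtain ⟨a, -, a1, a2⟩ := exists_jac_neg_of_ne hd squarefree_one ho odd_one h1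
    rw [mul_one] at a1 a2
    have e := sum_range_char_zero (χ := fun n => J(n | d)) (Nat.pos_of_ne_zero hd0)
      (fun a b => by rw [Nat.cast_mul, jacobiSym.mul_left]) (fun n => jac_add_self n d) a1 a2
    rw [crt_sum ((Nat.coprime_two_left.2 ho).pow_left 3) (by omega) hd0 (fun n => (ψ n : ℝ))
      (fun n => (J(n | d) : ℝ)) (fun n => by rw [h8]) fun n => by rw [J_mod],
      ← Int.cast_sum (range d), e, Int.cast_zero, mul_zero]
  · rw [abs_mul]
    exact mul_le_one₀ (by exact_mod_cast hb n) (abs_nonneg _) (abs_J_le _ _)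

theorem few_ind : ∀ r < 8, r % 2 = 1 →
    (1 + ZMod.χ₈ (r : ℕ)) * (1 + ZMod.χ₈' (r : ℕ)) = if r = 1 then 4 else 0 := by decide

theorem few_abs : ∀ a : ZMod 8, |ZMod.χ₈ a| ≤ 1 ∧ |ZMod.χ₈' a| ≤ 1 := by decide

theorem few_four : ∃ C2 : ℝ, ∀ Z d : ℕ, 2 ≤ Z → Squarefree d → Odd d → d ≠ 1 →
    4 * ∑ p ∈ (PP Z).primeFactors, (if p % 8 = 1 then 1 else 0) * (J(p | d) : ℝ) *
      xs (Real.log Z) p ≤ 4 * (Real.log (3 + Real.log (8 * d)) + C2) := by
  obtain ⟨C2, h2⟩ := char_upper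
  refine ⟨C2, fun Z d hZ hd ho hd1 => ?_⟩
  have e3 : ∀ i j : ℕ, ∑ p ∈ (PP Z).primeFactors,
      ((ZMod.χ₈ p ^ i * ZMod.χ₈' p ^ j : ℤ) : ℝ) * (J(p | d) : ℝ) * xs (Real.log Z) p ≤
      Real.log (3 + Real.log (8 * d)) + C2 := fun i j => by
    have b1 : ∀ a : ZMod 8, |ZMod.χ₈ a ^ i * ZMod.χ₈' a ^ j| ≤ 1 := fun a => by
      rw [abs_mul, abs_pow, abs_pow]
      exact mul_le_one₀ (pow_le_one₀ (abs_nonneg _) (few_abs a).1) (by positivity)
        (pow_le_one₀ (abs_nonneg _) (few_abs a).2)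
    have := h2 Z (8 * d) (fun n => ((ZMod.χ₈ n ^ i * ZMod.χ₈' n ^ j : ℤ) : ℝ) * (J(n | d) : ℝ)) hZ
      (by simp) (fun a b => by
        simp only [Nat.cast_mul, map_mul, jacobiSym.mul_left]
        push_cast
        ring)
      (fun a => by
        rw [abs_mul]
        exact mul_le_one₀ (by exact_mod_cast b1 a) (abs_nonneg _) (abs_J_le _ _))
      (few_char hd ho hd1 (fun a => ZMod.χ₈ a ^ i * ZMod.χ₈' a ^ j) b1)
    rwa [Nat.cast_mul, Nat.cast_ofNat] at this
  refine le_trans (le_of_eq ?_) ((add_le_add (add_le_add (e3 0 0) (e3 0 1))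
    (add_le_add (e3 1 0) (e3 1 1))).trans_eq (by ring))
  simp only [mul_sum, ← sum_add_distrib]
  refine sum_congr rfl fun p hp' => ?_
  have o := Nat.odd_iff.1 (PP_pf_odd hp')
  rw [← ZMod.natCast_mod p 8]
  have a2 := congrArg (Int.cast : ℤ → ℝ) (few_ind (p % 8) (by omega) (by omega))
  push_cast at a2 ⊢
  split_ifs at a2 ⊢ <;> linear_combination (-(J(p | d) : ℝ) * xs (Real.log Z) p) * a2

theorem few_split {L : ℝ} (L0 : 0 < L) {Z Y d : ℕ} (hd : d ≠ 0)
    (hp : ∀ p ∈ d.primeFactors, p ≤ Y) :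
    ∑ p ∈ (PP Z).primeFactors with Y < p ∧ p % 8 = 1, xs L p ≤
      2 * ∑ p ∈ (PP Z).primeFactors with Y < p ∧ p % 8 = 1 ∧ J(p | d) = -1, xs L p +
      ∑ p ∈ (PP Z).primeFactors with p ≤ Y, 1 / (p : ℝ) +
      ∑ p ∈ (PP Z).primeFactors, (if p % 8 = 1 then 1 else 0) * (J(p | d) : ℝ) * xs L p := by
  simp only [sum_filter, mul_sum, ← sum_add_distrib]
  refine sum_le_sum fun p hp' => ?_
  have p1 := (few_mem.1 hp').2.1
  have x0 := xs_nonneg L p
  have x1 := xs_le L0 p1.pos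
  by_cases c1 : p ≤ Y
  · have := mul_le_mul_of_nonneg_right (abs_le.1 (abs_J_le p d)).1 x0
    simp only [c1.not_gt, false_and, if_false, c1, if_true]
    split_ifs <;> linarith
  · have c2 : J(p | d) = 1 ∨ J(p | d) = -1 := jacobiSym.eq_one_or_neg_one (by
      rw [Int.gcd_natCast_natCast]
      exact (Nat.Prime.coprime_iff_not_dvd p1).2 fun h =>
        c1 (hp p (Nat.mem_primeFactors.2 ⟨p1, h, hd⟩)))
    by_cases c3 : p % 8 = 1 <;> rcases c2 with c2 | c2 <;>
      simp [c1, not_le.1 c1, c2, c3, two_mul]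

theorem wit_lower : ∃ C : ℝ, ∀ Z Y d : ℕ, 2 ≤ Z → 2 ≤ Y → Squarefree d → Odd d → d ≠ 1 →
    (∀ p ∈ d.primeFactors, p ≤ Y) →
    1 / 12 * Real.log (Real.log Z) - Real.log (3 + Real.log (8 * d)) -
        6 * Real.log (1 + Real.log Y) - C ≤
      ∑ p ∈ (PP Z).primeFactors with Y < p ∧ p % 8 = 1 ∧ J(p | d) = -1, xs (Real.log Z) p := by
  obtain ⟨C1, h1⟩ := class_lower odd_one (by norm_num)
  obtain ⟨C2, h2⟩ := few_four
  refine ⟨C1 / 2 + C2 / 2 + 3, fun Z Y d hZ hY hd ho hd1 hp => ?_⟩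
  have L0 : 0 < Real.log Z := by linarith [few_L hZ]
  have e1 := h1 Z Y hZ hY
  have e2 := small_sum hY
  have e4 := few_split L0 (Z := Z) hd.ne_zero hp
  have e5 : ∑ p ∈ (PP Z).primeFactors with p ≤ Y, 1 / (p : ℝ) ≤
      ∑ p ∈ (PP Y).primeFactors, 1 / (p : ℝ) :=
    sum_le_sum_of_subset_of_nonneg (fun p hp' => few_mem.2 ⟨(mem_filter.1 hp').2,
      (few_mem.1 (mem_filter.1 hp').1).2⟩) fun _ _ _ => by positivity
  have e6 := h2 Z d hZ hd ho hd1
  have e7 : 0 ≤ Real.log (3 + Real.log (8 * d)) := Real.log_nonneg (by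
    have := Real.log_natCast_nonneg (8 * d)
    push_cast at this
    linarith)
  have e8 : 0 ≤ Real.log (1 + Real.log Y) :=
    Real.log_nonneg (by linarith [Real.log_natCast_nonneg Y])
  linarith

end Pool.Agent.Lib.MP_f8d36e_nt
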