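import Pool.Agent.Lib.MP_f8d36e_nt.Weyl

/-! Job E4b: kernel vectors with full spans. -/

set_option autoImplicit false

open Matrix Finset

namespace Pool.Agent.Lib.MP_f8d36e_nt

theorem full_card_ker {ι k : Type} [Fintype ι] [DecidableEq ι] [Field k] [Finite k]
    {B I J : Finset ι} {Ψ : Matrix ι ι k} (hI : Inj B J I Ψᵀ) :
    Nat.card (Ker (I \ B) J Ψ) * Nat.card k ^ #(I \ B) ≤ Nat.card k ^ #J := by
  classical
  let M : Matrix (I \ B : Finset ι) J k := Matrix.of fun i j => Ψ i j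
  have hli : LinearIndependent k M.row := by
    rw [Fintype.linearIndependent_iff]
    intro c hc i
    let z : ι → k := fun i => if h : i ∈ I \ B then c ⟨i, h⟩ else 0
    have hz : z = 0 := by
      refine hI z ⟨fun j hj => dif_neg fun h => hj (mem_sdiff.mp h).1, fun j hj => ?_⟩
        fun j hj => dif_neg fun h => (mem_sdiff.mp h).2 hj
      have h1 := congrFun hc ⟨j, hj⟩
      rw [Finset.sum_apply] at h1
      have h2 : (Ψᵀ *ᵥ z) j = ∑ i ∈ I \ B, Ψ i j * z i := by
        rw [Matrix.mulVec, dotProduct]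
        refine (Finset.sum_subset (subset_univ _) fun i _ hi => ?_).symm
        simp only [z, dif_neg hi, mul_zero]
      rw [h2, ← Finset.sum_coe_sort]
      refine Eq.trans (Finset.sum_congr rfl fun i _ => ?_) h1
      simp only [z, dif_pos i.2, M, Pi.smul_apply, Matrix.row, Matrix.of_apply, smul_eq_mul,
        mul_comm]
    have h3 := congrFun hz i
    simpa only [z, dif_pos i.2, Pi.zero_apply] using h3
  have hr : Module.finrank k (LinearMap.range M.mulVecLin) = #(I \ B) := by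
    have := hli.rank_matrix
    rwa [Fintype.card_coe] at this
  have hrn := LinearMap.finrank_range_add_finrank_ker M.mulVecLin
  rw [hr, Module.finrank_fintype_fun_eq_card, Fintype.card_coe] at hrn
  have hle : Nat.card (Ker (I \ B) J Ψ) ≤ Nat.card (LinearMap.ker M.mulVecLin) := by
    refine Nat.card_le_card_of_injective
      (fun y => (⟨fun j => y.1 j, ?_⟩ : LinearMap.ker M.mulVecLin)) ?_
    · rw [LinearMap.mem_ker]
      funext i
      have h1 := y.2.2 i i.2
      rw [Matrix.mulVec, dotProduct] at h1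
      rw [Matrix.mulVecLin_apply, Matrix.mulVec, dotProduct, Pi.zero_apply, ← h1]
      rw [← Finset.sum_subset (subset_univ J) fun j _ hj => by rw [y.2.1 j hj, mul_zero]]
      exact Finset.sum_coe_sort J fun j => Ψ i j * y.1 j
    · intro y y' h
      have h1 := congrArg Subtype.val h
      ext j
      by_cases hj : j ∈ J
      · exact congrFun h1 ⟨j, hj⟩
      · rw [y.2.1 j hj, y'.2.1 j hj]
  rw [Module.natCard_eq_pow_finrank (K := k) (V := LinearMap.ker M.mulVecLin)] at hle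
  rw [← hrn, pow_add, mul_comm]
  exact Nat.mul_le_mul_left _ hle

/-- The bilinear pairing attached to a pair of additive maps. -/
noncomputable def full_Q {ι k : Type} [Fintype ι] [Field k] [Algebra F2 k] (B : Finset ι)
    (β : ι → F2) (Ψ : Matrix ι ι k) (A : F2 → k →+ k) (y z : ι → k) : F2 :=
  tr (∑ i ∈ B, A (β i) (y i) * (Ψ *ᵥ z) i)

section
variable {ι k : Type} [Fintype ι] [Field k] [Algebra F2 k] (B : Finset ι)
    (β : ι → F2) (Ψ : Matrix ι ι k)

theorem full_Q_add1 (A A' : F2 → k →+ k) (y z : ι → k) :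
    full_Q B β Ψ (A + A') y z = full_Q B β Ψ A y z + full_Q B β Ψ A' y z := by
  simp only [full_Q, Pi.add_apply, AddMonoidHom.add_apply, add_mul, Finset.sum_add_distrib,
    map_add]

theorem full_Q_add2 (A : F2 → k →+ k) (y y' z : ι → k) :
    full_Q B β Ψ A (y + y') z = full_Q B β Ψ A y z + full_Q B β Ψ A y' z := by
  simp only [full_Q, Pi.add_apply, add_mul, Finset.sum_add_distrib, map_add]

theorem full_Q_add3 (A : F2 → k →+ k) (y z z' : ι → k) :
    full_Q B β Ψ A y (z + z') = full_Q B β Ψ A y z + full_Q B β Ψ A y z' := by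
  simp only [full_Q, Matrix.mulVec_add, Pi.add_apply, mul_add, Finset.sum_add_distrib, map_add]

end

theorem full_cases (a : F2) : a = 0 ∨ a = 1 := by
  revert a
  decide

theorem full_Q_vec {ι k : Type} [Fintype ι] [Field k] [Algebra F2 k] {Λ B : Finset ι}
    {β : ι → F2} {p q T : k} {Ψ : Matrix ι ι k} {Φ : Matrix ι ι F2} (A : F2 → k →+ k) (b : F2)
    (x0 x1 : k) {e e' : ι → F2} (he : ∀ i, e i ≠ 0 → i ∈ Λ ∧ β i = b)
    (he' : ∀ i, e' i ≠ 0 → i ∈ Λ ∧ β i = b)
    (hy : ∀ i ∈ Λ, (Ψ *ᵥ fun j => algebraMap F2 k (e' j) * x1) i =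
      T * (algebraMap F2 k (e' i) * x1) + ∑ j ∈ B, cf p q (β i) (β j) *
        algebraMap F2 k (Φ i j) * (algebraMap F2 k (e' j) * x1)) :
    full_Q B β Ψ A (fun j => algebraMap F2 k (e j) * x0) (fun j => algebraMap F2 k (e' j) * x1) =
      (∑ i ∈ B, e i * e' i) * tr (T * A b x0 * x1) +
        (∑ i ∈ B, ∑ j ∈ B, e i * Φ i j * e' j) * tr (p * A b x0 * x1) := by
  have key : ∀ i ∈ B, A (β i) (algebraMap F2 k (e i) * x0) *
      (Ψ *ᵥ fun j => algebraMap F2 k (e' j) * x1) i =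
      (e i * e' i) • (T * A b x0 * x1) + (∑ j ∈ B, e i * Φ i j * e' j) • (p * A b x0 * x1) := by
    intro i _
    rcases full_cases (e i) with h | h
    · simp only [h, map_zero, zero_mul, zero_smul, Finset.sum_const_zero, add_zero]
    · obtain ⟨hi, hb⟩ := he i (by rw [h]; exact one_ne_zero)
      rw [hy i hi, h, hb, map_one, one_mul, one_mul, mul_add, Finset.mul_sum, Finset.sum_smul,
        Algebra.smul_def]
      congr 1
      · ring
      · refine Finset.sum_congr rfl fun j _ => ?_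
        rcases full_cases (e' j) with h' | h'
        · simp only [h', map_zero, zero_mul, mul_zero, zero_smul]
        · obtain ⟨-, hb'⟩ := he' j (by rw [h']; exact one_ne_zero)
          rw [h', hb', cf, if_pos rfl, Algebra.smul_def, map_one, one_mul, one_mul, mul_one]
          ring
  rw [full_Q, Finset.sum_congr rfl key, Finset.sum_add_distrib, ← Finset.sum_smul,
    ← Finset.sum_smul, tr, map_add, map_smul, map_smul, smul_eq_mul, smul_eq_mul]


theorem full_Bf_vec {ι k : Type} [Fintype ι] [Field k] [Finite k] [Algebra F2 k] {Λ B : Finset ι}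
    {β : ι → F2} {p q T : k} {Ψ : Matrix ι ι k} {Φ : Matrix ι ι F2}
    (hΦ : ∀ i ∈ Λ, ∀ j ∈ Λ, Φ i j = Φ j i) {A : F2 → k →+ k} (hA : A ∈ Syz p q) {b : F2}
    {x0 x1 : k} (hx : tr (T * A b x0 * x1) ≠ tr (T * A b x1 * x0)) {e e' : ι → F2}
    (he : ∀ i, e i ≠ 0 → i ∈ Λ ∧ β i = b) (he' : ∀ i, e' i ≠ 0 → i ∈ Λ ∧ β i = b)
    (hy : ∀ i ∈ Λ, (Ψ *ᵥ fun j => algebraMap F2 k (e j) * x0) i =
      T * (algebraMap F2 k (e i) * x0) + ∑ j ∈ B, cf p q (β i) (β j) *
        algebraMap F2 k (Φ i j) * (algebraMap F2 k (e j) * x0))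
    (hy' : ∀ i ∈ Λ, (Ψ *ᵥ fun j => algebraMap F2 k (e' j) * x1) i =
      T * (algebraMap F2 k (e' i) * x1) + ∑ j ∈ B, cf p q (β i) (β j) *
        algebraMap F2 k (Φ i j) * (algebraMap F2 k (e' j) * x1)) :
    full_Q B β Ψ A (fun j => algebraMap F2 k (e j) * x0) (fun j => algebraMap F2 k (e' j) * x1) +
      full_Q B β Ψ A (fun j => algebraMap F2 k (e' j) * x1) (fun j => algebraMap F2 k (e j) * x0) =
      ∑ i ∈ B, e i * e' i := by
  rw [full_Q_vec A b x0 x1 he he' hy', full_Q_vec A b x1 x0 he' he hy]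
  have h1 : ∑ i ∈ B, e' i * e i = ∑ i ∈ B, e i * e' i :=
    Finset.sum_congr rfl fun i _ => mul_comm _ _
  have h2 : ∑ i ∈ B, ∑ j ∈ B, e' i * Φ i j * e j = ∑ i ∈ B, ∑ j ∈ B, e i * Φ i j * e' j := by
    rw [Finset.sum_comm]
    refine Finset.sum_congr rfl fun i _ => Finset.sum_congr rfl fun j _ => ?_
    by_cases hi : e i = 0
    · rw [hi, mul_zero, zero_mul, zero_mul]
    by_cases hj : e' j = 0
    · rw [hj, mul_zero, zero_mul, zero_mul]
    rw [hΦ j (he' j hj).1 i (he i hi).1]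
    ring
  have h3 : tr (p * A b x0 * x1) = tr (p * A b x1 * x0) := by
    have := hA.1 b b x0 x1
    rwa [cf, if_pos rfl] at this
  have h4 : ∀ a c u v w : F2, u ≠ v → a * u + c * w + (a * v + c * w) = a := by decide
  rw [h1, h2, h3]
  exact h4 _ _ _ _ _ hx

theorem full_nondeg {ι k : Type} [Fintype ι] [DecidableEq ι] [Field k] [Finite k] [Algebra F2 k]
    {Λ B I J : Finset ι} {β : ι → F2} {p q T : k} {Ψ : Matrix ι ι k} {ρ s t r : ℕ}
    (hk : Nat.card k = 2 ^ r) (hΛ : Λ ⊆ J ∩ B) (hs' : #(I \ B) ≤ s)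
    (hS : Shape Λ B β p q T Ψ ρ) (h0 : t ≤ cnt β Λ 0) (h1 : t ≤ cnt β Λ 1)
    (ht : 2 * (2 * r ^ 2) + 2 * (ρ + r * s) ≤ t) {A : F2 → k →+ k} (hA : A ∈ Syz p q)
    (hD : ¬ Deg T A) [Fintype (Ker (I \ B) J Ψ)] :
    (∑ y : Ker (I \ B) J Ψ, sgn (full_Q B β Ψ A y y)) * 2 ^ (2 * r ^ 2) ≤
      (Fintype.card (Ker (I \ B) J Ψ) : ℤ) := by
  classical
  obtain ⟨Φ, L, hL, hΦ, hsh⟩ := hS
  obtain ⟨b, x0, x1, hx⟩ : ∃ b x0 x1, tr (T * A b x0 * x1) ≠ tr (T * A b x1 * x0) := by
    by_contra hcon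
    refine hD fun b x y => ?_
    by_contra h
    exact hcon ⟨b, x, y, h⟩
  let κ : Finset ι := {i ∈ Λ | β i = b}
  have hκ : t ≤ Fintype.card κ := by
    rw [Fintype.card_coe]
    rcases full_cases b with h | h
    · rw [show #κ = cnt β Λ b from rfl, h]
      exact h0
    · rw [show #κ = cnt β Λ b from rfl, h]
      exact h1
  let ex : (κ → F2) → ι → F2 := fun ε i => if h : i ∈ κ then ε ⟨i, h⟩ else 0
  have ex_add : ∀ ε ε' i, ex (ε + ε') i = ex ε i + ex ε' i := by
    intro ε ε' i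
    by_cases h : i ∈ κ
    · simp only [ex, dif_pos h, Pi.add_apply]
    · simp only [ex, dif_neg h, add_zero]
  have ex_supp : ∀ ε i, ex ε i ≠ 0 → i ∈ Λ ∧ β i = b := by
    intro ε i hi
    by_contra h
    exact hi (dif_neg fun h' => h (mem_filter.mp h'))
  let θ1 : (κ → F2) →+ (L → F2) := AddMonoidHom.mk' (fun ε l => ∑ j, l.1 j * ex ε j) (by
    intro ε ε'
    funext l
    simp only [ex_add, mul_add, Finset.sum_add_distrib, Pi.add_apply])
  let θ2 : (κ → F2) →+ ((I \ B : Finset ι) → k) :=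
    AddMonoidHom.mk' (fun ε i => ∑ j, Ψ i j * algebraMap F2 k (ex ε j)) (by
      intro ε ε'
      funext i
      simp only [ex_add, map_add, mul_add, Finset.sum_add_distrib, Pi.add_apply])
  let E : AddSubgroup (κ → F2) := (θ1.prod θ2).ker
  have hE1 : ∀ ε : E, ∀ l ∈ L, ∑ j, l j * ex ε j = 0 := fun ε l hl =>
    congrFun (congrArg Prod.fst (AddMonoidHom.mem_ker.mp ε.2)) ⟨l, hl⟩
  have hE2 : ∀ ε : E, ∀ i ∈ I \ B, ∑ j, Ψ i j * algebraMap F2 k (ex ε j) = 0 := fun ε i hi =>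
    congrFun (congrArg Prod.snd (AddMonoidHom.mem_ker.mp ε.2)) ⟨i, hi⟩
  have hc : 2 ^ Fintype.card κ ≤ 2 ^ (ρ + r * s) * Nat.card E := by
    have e1 := AddSubgroup.card_mul_index E
    rw [AddSubgroup.index_ker, Nat.card_fun, Nat.card_zmod, Nat.card_eq_fintype_card (α := κ)]
      at e1
    have e2 : Nat.card (θ1.prod θ2).range ≤ 2 ^ (ρ + r * s) := by
      refine (Nat.card_le_card_of_injective _ Subtype.val_injective).trans ?_
      rw [Nat.card_prod, Nat.card_fun, Nat.card_fun, Nat.card_zmod, hk, ← pow_mul, ← pow_add,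
        Nat.card_eq_fintype_card, Nat.card_eq_fintype_card, Fintype.card_coe, Fintype.card_coe]
      exact Nat.pow_le_pow_right two_pos (Nat.add_le_add hL (Nat.mul_le_mul_left _ hs'))
    rw [← e1, mul_comm]
    exact Nat.mul_le_mul_right _ e2
  have hmem : ∀ (x : k) (ε : E),
      (fun j => algebraMap F2 k (ex ε j) * x) ∈ Ker (I \ B) J Ψ := by
    intro x ε
    refine ⟨fun j hj => ?_, fun i hi => ?_⟩
    · have : ex ε j = 0 := by
        by_contra h
        exact hj (mem_inter.mp (hΛ (ex_supp ε j h).1)).1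
      simp only [this, map_zero, zero_mul]
    · rw [Matrix.mulVec, dotProduct]
      simp only [← mul_assoc, ← Finset.sum_mul, hE2 ε i hi, zero_mul]
  have hsh' : ∀ (x : k) (ε : E), ∀ i ∈ Λ, (Ψ *ᵥ fun j => algebraMap F2 k (ex ε j) * x) i =
      T * (algebraMap F2 k (ex ε i) * x) + ∑ j ∈ B, cf p q (β i) (β j) *
        algebraMap F2 k (Φ i j) * (algebraMap F2 k (ex ε j) * x) := by
    intro x ε
    refine hsh _ fun l hl => ?_
    simp only [← mul_assoc, ← Finset.sum_mul, ← map_mul, ← map_sum, hE1 ε l hl, map_zero,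
      zero_mul]
  let Bf : Ker (I \ B) J Ψ →+ Ker (I \ B) J Ψ →+ F2 :=
    AddMonoidHom.mk' (fun y => AddMonoidHom.mk'
      (fun z => full_Q B β Ψ A y z + full_Q B β Ψ A z y) (by
        intro z z'
        rw [Submodule.coe_add, full_Q_add2, full_Q_add3]
        ring)) (by
      intro y y'
      ext z
      simp only [AddMonoidHom.mk'_apply, AddMonoidHom.add_apply, Submodule.coe_add, full_Q_add2,
        full_Q_add3]
      ring)
  have hw := weyl (Y := Ker (I \ B) J Ψ) (κ := κ) (fun y => full_Q B β Ψ A y y) Bf (by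
      intro y z
      simp only [Bf, AddMonoidHom.mk'_apply, Submodule.coe_add, full_Q_add2, full_Q_add3]
      ring) E (fun ε => ⟨_, hmem x0 ε⟩) (fun ε => ⟨_, hmem x1 ε⟩) (by
      intro ε ε'
      simp only [Bf, AddMonoidHom.mk'_apply]
      rw [full_Bf_vec hΦ hA hx (ex_supp ε) (ex_supp ε') (hsh' x0 ε) (hsh' x1 ε'), dotProduct]
      have hκB : κ ⊆ B := fun i hi => (mem_inter.mp (hΛ (mem_filter.mp hi).1)).2
      rw [← Finset.sum_subset hκB fun i _ hi => by simp only [ex, dif_neg hi, zero_mul],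
        ← Finset.sum_coe_sort]
      exact Finset.sum_congr rfl fun i _ => by simp only [ex, dif_pos i.2]) hc
  refine (abs_le_of_sq_le_sq' ?_ (Nat.cast_nonneg _)).2
  have hp : (0 : ℤ) < 4 ^ (ρ + r * s) := by positivity
  refine le_of_mul_le_mul_right (le_trans ?_ hw) hp
  rw [mul_pow, mul_assoc]
  refine mul_le_mul_of_nonneg_left ?_ (sq_nonneg _)
  rw [show (4 : ℤ) = 2 ^ 2 by norm_num, ← pow_mul, ← pow_mul, ← pow_add]
  exact pow_le_pow_right₀ one_le_two (by omega)


theorem full_sum_nonneg {ι k : Type} [Fintype ι] [Field k] [Finite k] [Algebra F2 k]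
    (B : Finset ι) (β : ι → F2) (p q : k) (Ψ : Matrix ι ι k) [Fintype (Syz p q)] (y : ι → k) :
    0 ≤ ∑ A : Syz p q, sgn (full_Q B β Ψ A y y) ∧
      ((∀ A ∈ Syz p q, full_Q B β Ψ A y y = 0) →
        ∑ A : Syz p q, sgn (full_Q B β Ψ A y y) = (Fintype.card (Syz p q) : ℤ)) := by
  classical
  let φ : Syz p q →+ F2 := AddMonoidHom.mk' (fun A => full_Q B β Ψ A y y) (by
    intro A A'
    rw [AddSubgroup.coe_add, full_Q_add1])
  have h := sum_sgn φ
  simp only [φ, AddMonoidHom.mk'_apply] at h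
  refine ⟨?_, fun h0 => ?_⟩
  · rw [h]
    split_ifs
    · exact Nat.cast_nonneg _
    · exact le_rfl
  · rw [h, if_pos]
    ext A
    exact h0 A A.2

theorem full_mat_mulVec {ι k : Type} [Fintype ι] [Field k] [Algebra F2 k] (β : ι → F2) (p q : k)
    (Ψ : Matrix ι ι k) (S : Matrix ι ι F2) (y : ι → k) (i : ι) :
    (mat β p q Ψ S *ᵥ y) i = (Ψ *ᵥ y) i + (mat β p q 0 S *ᵥ y) i := by
  simp only [mat, Matrix.mulVec, dotProduct, Matrix.of_apply, Matrix.zero_apply, zero_add,
    add_mul, Finset.sum_add_distrib]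

theorem full_pr_le {ι k : Type} [Fintype ι] [DecidableEq ι] [Field k] [Finite k] [Algebra F2 k]
    {B I J : Finset ι} {β : ι → F2} {p q : k} {Ψ : Matrix ι ι k} (hq : q ≠ 0)
    (hIJ : ∀ i ∈ B, i ∈ I ↔ i ∈ J) [Fintype (Syz p q)] {y : ι → k}
    (h0 : Vs B β 0 y = ⊤) (h1 : Vs B β 1 y = ⊤) [Decidable (y ∈ Ker (I \ B) J Ψ)] :
    pr (fun S : Sym B => y ∈ Ker I J (mat β p q Ψ S)) ≤
      if y ∈ Ker (I \ B) J Ψ then
        ((∑ A : Syz p q, sgn (full_Q B β Ψ A y y) : ℤ) : ℝ) / (Nat.card k : ℝ) ^ #(J ∩ B)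
      else 0 := by
  classical
  obtain ⟨hnn, hall⟩ := full_sum_nonneg B β p q Ψ y
  by_cases hex : ∃ S : Sym B, y ∈ Ker I J (mat β p q Ψ S)
  swap
  · rw [pr_eq_zero fun S hS => hex ⟨S, hS⟩]
    split_ifs
    · exact div_nonneg (by exact_mod_cast hnn) (by positivity)
    · exact le_rfl
  obtain ⟨S0, hS0⟩ := hex
  have hrow : ∀ S : Sym B, y ∈ Ker I J (mat β p q Ψ S) → ∀ i ∈ J ∩ B,
      (mat β p q 0 S *ᵥ y) i = -(Ψ *ᵥ y) i := by
    intro S hS i hi
    have := hS.2 i ((hIJ i (mem_inter.mp hi).2).mpr (mem_inter.mp hi).1)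
    rw [full_mat_mulVec] at this
    exact eq_neg_of_add_eq_zero_right this
  have hy : y ∈ Ker (I \ B) J Ψ := by
    refine ⟨hS0.1, fun i hi => ?_⟩
    have h2 := hS0.2 i (mem_sdiff.mp hi).1
    have h3 : (mat β p q 0 S0 *ᵥ y) i = 0 := by
      simp only [mat, Matrix.mulVec, dotProduct, Matrix.of_apply, Matrix.zero_apply, zero_add,
        S0.2.2 i _ (mem_sdiff.mp hi).2, map_zero, mul_zero, zero_mul, Finset.sum_const_zero]
    rwa [full_mat_mulVec, h3, add_zero] at h2
  have hQ : ∀ A ∈ Syz p q, full_Q B β Ψ A y y = 0 := by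
    intro A hA
    have h2 : ∑ i ∈ B, A (β i) (y i) * (Ψ *ᵥ y) i =
        -∑ i ∈ B, A (β i) (y i) * (mat β p q 0 S0 *ᵥ y) i := by
      rw [← Finset.sum_neg_distrib]
      refine Finset.sum_congr rfl fun i hi => ?_
      by_cases hj : i ∈ J
      · rw [hrow S0 hS0 i (mem_inter.mpr ⟨hj, hi⟩), mul_neg, neg_neg]
      · rw [hS0.1 i hj, map_zero, zero_mul, zero_mul, neg_zero]
    rw [full_Q, h2, tr, map_neg]
    exact neg_eq_zero.mpr (syz_perp hA y S0)
  rw [if_pos hy, hall hQ]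
  let L : Sym B →+ ((J ∩ B : Finset ι) → k) :=
    AddMonoidHom.mk' (fun S i => (mat β p q 0 S *ᵥ y) i) (by
      intro S S'
      funext i
      simp only [mat, Matrix.mulVec, dotProduct, Matrix.of_apply, Matrix.zero_apply, zero_add,
        AddSubgroup.coe_add, Matrix.add_apply, map_add, mul_add, add_mul, Finset.sum_add_distrib,
        Pi.add_apply])
  refine (pr_mono (F := fun S => L S = fun i => -(Ψ *ᵥ y) i.1) fun S hS => ?_).trans
    ((pr_le_perp L _).trans ?_)
  · funext i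
    exact hrow S hS i i.2
  rw [Fintype.card_coe]
  refine div_le_div_of_nonneg_right ?_ (by positivity)
  have hsyz : ∀ l : {l : (J ∩ B : Finset ι) → k // ∀ S, tr (l ⬝ᵥ L S) = 0},
      ∃ A : Syz p q, ∀ i : (J ∩ B : Finset ι), l.1 i = A.1 (β i) (y i) := by
    intro l
    obtain ⟨A, hA, hl⟩ := exists_syz (p := p)
      (l := fun i => if h : i ∈ J ∩ B then l.1 ⟨i, h⟩ else 0) hq h0 h1 (fun S => by
        refine Eq.trans ?_ (l.2 S)
        rw [dotProduct, ← Finset.sum_subset (inter_subset_right (s₁ := J))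
          fun i _ hi => by simp only [dif_neg hi, zero_mul], ← Finset.sum_coe_sort]
        congr 1
        exact Finset.sum_congr rfl fun i _ => by
          simp only [dif_pos i.2, L, AddMonoidHom.mk'_apply])
    refine ⟨⟨A, hA⟩, fun i => ?_⟩
    have := hl i (mem_inter.mp i.2).2
    rwa [dif_pos i.2] at this
  choose F hF using hsyz
  have hinj : Function.Injective F := by
    intro l l' h
    ext i
    rw [hF l i, hF l' i, h]
  have := Nat.card_le_card_of_injective F hinj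
  rw [Nat.card_eq_fintype_card (α := Syz p q)] at this
  exact_mod_cast this

theorem full_sgn_le (a : F2) : sgn a ≤ 1 := by
  unfold sgn
  split_ifs <;> norm_num

open Classical in
theorem full_count {ι k : Type} [Fintype ι] [DecidableEq ι] [Field k] [Fintype k] [Algebra F2 k]
    {Λ B I J : Finset ι} {β : ι → F2} {p q T : k} {Ψ : Matrix ι ι k} {ρ s t r : ℕ}
    (hk : Nat.card k = 2 ^ r) (hΛ : Λ ⊆ J ∩ B) (hIJ : ∀ i ∈ B, i ∈ I ↔ i ∈ J)
    (hs : #(J \ B) ≤ s) (hs' : #(I \ B) ≤ s) (hS : Shape Λ B β p q T Ψ ρ) (hI : Inj B J I Ψᵀ)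
    (h0 : t ≤ cnt β Λ 0) (h1 : t ≤ cnt β Λ 1) (ht : 40 * r * (r + s + ρ + 1) ≤ t)
    (hc : (p = 1 ∧ q ≠ 0 ∧ Gen T ∧ #(J \ B) ≤ #(I \ B)) ∨
      (p = 0 ∧ q = 1 ∧ T ≠ 0 ∧ Gen (T ^ 2) ∧ #(J \ B) < #(I \ B))) :
    ∑ y : ι → k with Vs B β 0 y = ⊤ ∧ Vs B β 1 y = ⊤,
      pr (fun S : Sym B => y ∈ Ker I J (mat β p q Ψ S)) ≤ 2 := by
  have _ := hs
  have : Finite (F2 → k →+ k) := finite_maps
  let _ : Fintype (Syz p q) := Fintype.ofFinite _
  let _ : Fintype (Ker (I \ B) J Ψ) := Fintype.ofFinite _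
  have hq : q ≠ 0 := by
    rcases hc with h | h
    · exact h.2.1
    · rw [h.2.1]
      exact one_ne_zero
  have hk1 : 1 < Nat.card k := Finite.one_lt_card
  have hr : 1 ≤ r := by
    rcases Nat.eq_zero_or_pos r with h | h
    · rw [hk, h] at hk1
      exact absurd hk1 (by norm_num)
    · exact h
  have ht' : 2 * (2 * r ^ 2) + 2 * (ρ + r * s) ≤ t := by
    refine le_trans ?_ ht
    nlinarith [Nat.zero_le (r * s), Nat.zero_le (r * r), Nat.mul_le_mul_right ρ hr]
  have hY := full_card_ker hI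
  rw [← Finset.card_inter_add_card_sdiff J B, pow_add, Nat.card_eq_fintype_card] at hY
  set N := Nat.card k ^ #(J ∩ B) with hN
  set c := Fintype.card (Ker (I \ B) J Ψ) with hcY
  have hkpos : 0 < Nat.card k := by omega
  have hdeg : c ≤ N ∧ #{A : Syz p q | Deg T A} * c ≤ N := by
    rcases hc with ⟨hp, -, hT, hle⟩ | ⟨hp, hq1, hT0, hT, hlt⟩
    · have hcN : c ≤ N := Nat.le_of_mul_le_mul_right
        (hY.trans (Nat.mul_le_mul_left _ (Nat.pow_le_pow_right hkpos hle))) (pow_pos hkpos _)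
      have hone : #{A : Syz p q | Deg T A} ≤ 1 := by
        subst hp
        refine Finset.card_le_one.mpr fun A hA A' hA' => Subtype.ext ?_
        rw [deg_pos hT A.2 (mem_filter.mp hA).2, deg_pos hT A'.2 (mem_filter.mp hA').2]
      exact ⟨hcN, (Nat.mul_le_mul_right _ hone).trans (by rwa [one_mul])⟩
    · have hcN : Nat.card k * c ≤ N := by
        refine Nat.le_of_mul_le_mul_right (le_trans ?_ hY) (pow_pos hkpos _)
        rw [mul_comm (Nat.card k), mul_assoc, ← pow_succ']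
        exact Nat.mul_le_mul_left _ (Nat.pow_le_pow_right hkpos hlt)
      have hcard : #{A : Syz p q | Deg T A} ≤ Nat.card k := by
        subst hp hq1
        have := deg_zero hT0 hT
        rwa [Nat.subtype_card _ fun A => (mem_filter_univ A)] at this
      exact ⟨le_trans (Nat.le_mul_of_pos_left _ hkpos) hcN,
        (Nat.mul_le_mul_right _ hcard).trans hcN⟩
  have hmain : ∑ y : Ker (I \ B) J Ψ, ∑ A : Syz p q, sgn (full_Q B β Ψ A y y) ≤ 2 * (N : ℤ) := by
    rw [Finset.sum_comm, ← Finset.sum_filter_add_sum_filter_not univ fun A : Syz p q => Deg T A,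
      two_mul]
    refine add_le_add ?_ ?_
    · refine le_trans (Finset.sum_le_card_nsmul _ _ (c : ℤ) fun A _ => ?_) ?_
      · refine le_trans (Finset.sum_le_card_nsmul _ _ 1 fun y _ => full_sgn_le _) ?_
        rw [nsmul_eq_mul, mul_one, Finset.card_univ]
      · rw [nsmul_eq_mul]
        exact_mod_cast hdeg.2
    · have hp : (0 : ℤ) < 2 ^ (2 * r ^ 2) := by positivity
      refine le_of_mul_le_mul_right ?_ hp
      rw [Finset.sum_mul]
      refine le_trans (Finset.sum_le_card_nsmul _ _ (c : ℤ) fun A hA =>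
        full_nondeg hk hΛ hs' hS h0 h1 ht' A.2 (mem_filter.mp hA).2) ?_
      have h2 : #{A : Syz p q | ¬ Deg T A} ≤ 2 ^ (2 * r ^ 2) := by
        refine (Finset.card_le_univ _).trans ?_
        rw [← Nat.card_eq_fintype_card]
        exact card_syz hk p q
      rw [nsmul_eq_mul, mul_comm]
      exact_mod_cast Nat.mul_le_mul hdeg.1 h2
  have hNpos : (0 : ℝ) < (Nat.card k : ℝ) ^ #(J ∩ B) := by positivity
  refine le_trans (Finset.sum_le_sum fun y hy =>
    full_pr_le hq hIJ (mem_filter.mp hy).2.1 (mem_filter.mp hy).2.2) ?_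
  refine le_trans (Finset.sum_le_sum_of_subset_of_nonneg (filter_subset _ _) fun y _ _ => ?_) ?_
  · split_ifs
    · exact div_nonneg (by exact_mod_cast (full_sum_nonneg B β p q Ψ y).1) hNpos.le
    · exact le_rfl
  rw [← Finset.sum_filter, Finset.sum_subtype (p := fun y => y ∈ Ker (I \ B) J Ψ) _
    (fun y => mem_filter_univ y), ← Finset.sum_div, div_le_iff₀ hNpos]
  exact_mod_cast hmain

end Pool.Agent.Lib.MP_f8d36e_nt
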