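import Pool.Agent.Lib.MP_f8d36e_nt.Defs
import Pool.Agent.Lib.MP_f8d36e_nt.Crit

/-! Definitions for the Galois-theoretic half. -/

set_option autoImplicit false

open MvPowerSeries

namespace Pool.Agent.Lib.MP_f8d36e_nt

/-- The quotient by `N` is a pro-2 group. -/
def ProTwo {G : Type} [Group G] [TopologicalSpace G] (N : Subgroup G) : Prop :=
  ∀ W : Subgroup G, W.Normal → IsOpen (W : Set G) → N ≤ W → ∀ g : G, ∃ n : ℕ, g ^ 2 ^ n ∈ W

/-- The Iwasawa algebra in two variables. -/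
abbrev Lam : Type := Iw 2 2

/-- Its maximal ideal. -/
noncomputable def mm : Ideal Lam := Ideal.span {2, X 0, X 1}

/-- Coordinates on `A`: anticyclotomic (index zero) and cyclotomic (index one). -/
structure Coord {ι : Type} [Fintype ι] {G : Type} [Group G] [TopologicalSpace G] {u w : ι → F2}
    {R : Matrix ι ι F2} {A N : Subgroup G} (s : Setup u w R A N) (β : ι → F2)
    (e : A →* Multiplicative (Fin 2 → ℤ_[2])) : Prop where
  cont : Continuous e
  surj : Function.Surjective e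
  conj : ∀ x y : A, (y : G) = s.c * x * s.c⁻¹ →
    (e y).toAdd 0 = -(e x).toAdd 0 ∧ (e y).toAdd 1 = (e x).toAdd 1
  tau : ∀ i, ∀ x : A, (x : G) = s.τ i * s.c⁻¹ →
    PadicInt.toZMod ((e x).toAdd 0) = β i ∧ (e x).toAdd 1 = 0
  phi : ∀ i, ∀ x : A, (x : G) = s.φ i →
    (e x).toAdd 0 = 0 ∧ PadicInt.toZMod ((e x).toAdd 1) = w i
  dec : ∀ g : G, ∃ d ∈ s.D, ∃ x : A, e x = 1 ∧ g = x * d

/-- The abelian quotient `M = K / N` with the conjugation action of `G`. -/
structure Ctx {G : Type} [Group G] [TopologicalSpace G] (K N : Subgroup G) (M : Type)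
    [AddCommGroup M] [TopologicalSpace M] where
  π : K →* Multiplicative M
  act : G →* AddMonoid.End M
  cont : Continuous π
  surj : Function.Surjective π
  ker : π.ker = N.subgroupOf K
  spec : ∀ (g : G) (x y : K), (y : G) = g * x * g⁻¹ → (π y).toAdd = act g (π x).toAdd
  cont_act : Continuous fun z : G × M => act z.1 z.2

/-- The endomorphisms `a` and `g` of `M` are topologically unipotent. -/
def Unip {M : Type} [AddCommGroup M] [TopologicalSpace M] (a g : AddMonoid.End M) : Prop :=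
  ∀ O ∈ nhds (0 : M), ∃ W : AddSubgroup M, IsOpen (W : Set M) ∧ (W : Set M) ⊆ O ∧
    (∀ x ∈ W, a x ∈ W) ∧ (∀ x ∈ W, g x ∈ W) ∧
    ∃ n : ℕ, ∀ x, 2 ^ n • x ∈ W ∧ (a ^ 2 ^ n) x - x ∈ W ∧ (g ^ 2 ^ n) x - x ∈ W

/-- The relations between the generators of the Iwasawa module, to first order. -/
structure Rels {ι : Type} [Fintype ι] {M : Type} [AddCommGroup M] [Module Lam M] (u w β : ι → F2)
    (R : Matrix ι ι F2) (x : ι → M) : Prop where
  span : Submodule.span Lam (Set.range x) = ⊤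
  row : ∀ i, (((w i).val : Lam) * X 1) • x i +
    ∑ j, (((R i j).val : Lam) * (2 + ((β i + β j).val : Lam) * X 0)) • x j ∈
      mm ^ 2 • (⊤ : Submodule Lam M)
  sw : ∑ i, ((w i).val : Lam) • x i ∈ mm • (⊤ : Submodule Lam M)
  swb : ∃ z ∈ mm • (⊤ : Submodule Lam M),
    (X 0 : Lam) • (∑ i, ((w i * β i).val : Lam) • x i - z) = 0
  sub : ∃ z ∈ mm • (⊤ : Submodule Lam M),
    (X 0 : Lam) • (∑ i, ((u i * β i).val : Lam) • x i - z) = 0

/-- The action of an open subgroup on the two-power torsion of a curve with complex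
multiplication by the square root of `-m`, written as `X + Y * sqrt (-m)`. -/
structure CMAct (m : ℕ) (θ : Qbar) where
  U : Subgroup Gam
  normal : U.Normal
  isOpen : IsOpen (U : Set Gam)
  fix : ∀ g ∈ U, g θ = θ
  X : Gam → ℤ_[2]
  Y : Gam → ℤ_[2]
  contX : ContinuousOn X U
  contY : ContinuousOn Y U
  oddX : ∀ g ∈ U, (2 : ℤ_[2]) ∣ X g - 1
  evenY : ∀ g ∈ U, (2 : ℤ_[2]) ∣ Y g
  mulX : ∀ g ∈ U, ∀ h ∈ U, X (g * h) = X g * X h - m * Y g * Y h
  mulY : ∀ g ∈ U, ∀ h ∈ U, Y (g * h) = X g * Y h + Y g * X h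
  conjX : ∀ g, ∀ x ∈ U, X (g * x * g⁻¹) = X x
  conjY : ∀ g, ∀ x ∈ U, g θ = θ → Y (g * x * g⁻¹) = Y x
  conjY' : ∀ g, ∀ x ∈ U, g θ = -θ → Y (g * x * g⁻¹) = -Y x
  ne : ∃ g ∈ U, Y g ≠ 0

end Pool.Agent.Lib.MP_f8d36e_nt
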