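import Pool.Agent.Lib.MP_f8d36e_nt.GDefs

/-! Job B2a: the group acts through scalars. -/

set_option autoImplicit false
set_option linter.unusedSectionVars false

open MvPowerSeries
open scoped MvPowerSeries.WithPiTopology

namespace Pool.Agent.Lib.MP_f8d36e_nt

instance : CompactSpace Lam :=
  inferInstanceAs (CompactSpace ((Fin 2 →₀ ℕ) → ℤ_[2]))

theorem scal_X_mem (i : Fin 2) : (X i : Lam) ∈ mm := by
  refine Ideal.subset_span ?_
  fin_cases i <;> simp

theorem scal_two_mem : (2 : Lam) ∈ mm := Ideal.subset_span (by simp)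

theorem mem_mm {f : Lam} : f ∈ mm ↔ (2 : ℤ_[2]) ∣ constantCoeff f := by
  classical
  constructor
  · intro hf
    have : mm ≤ (Ideal.span {(2 : ℤ_[2])}).comap (constantCoeff (σ := Fin 2) (R := ℤ_[2])) := by
      refine Ideal.span_le.2 ?_
      rintro g (rfl | rfl | rfl)
      · exact Ideal.mem_comap.2 (Ideal.subset_span (map_ofNat _ 2))
      · exact Ideal.mem_comap.2 (by simp)
      · exact Ideal.mem_comap.2 (by simp)
    exact Ideal.mem_span_singleton.1 (Ideal.mem_comap.1 (this hf))
  · rintro ⟨c, hc⟩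
    let f1 : Lam := fun m => if m 0 = 0 ∧ m ≠ 0 then coeff m f else 0
    have hf1 : ∀ m, coeff m f1 = if m 0 = 0 ∧ m ≠ 0 then coeff m f else 0 := fun _ => rfl
    obtain ⟨a, ha⟩ : (X 1 : Lam) ∣ f1 := X_dvd_iff.2 fun m hm => by
      rw [hf1, if_neg]
      rintro ⟨h0, h1⟩
      refine h1 (Finsupp.ext fun j => ?_)
      fin_cases j
      · exact h0
      · exact hm
    obtain ⟨b, hb⟩ : (X 0 : Lam) ∣ f - C (constantCoeff f) - f1 := X_dvd_iff.2 fun m hm => by
      rw [map_sub, map_sub, hf1, coeff_C]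
      by_cases h0 : m = 0
      · subst h0
        simp
      · simp [h0, hm]
    have e : f = 2 * C c + X 0 * b + X 1 * a := by
      rw [← ha, ← hb, hc, map_mul, map_ofNat]
      ring
    rw [e]
    exact mm.add_mem (mm.add_mem (mm.mul_mem_right _ scal_two_mem)
      (mm.mul_mem_right _ (scal_X_mem 0))) (mm.mul_mem_right _ (scal_X_mem 1))

theorem isClosed_mm : IsClosed (mm : Set Lam) := by
  have h : (mm : Set Lam) = constantCoeff ⁻¹' Set.range fun y : ℤ_[2] => 2 * y := by
    ext f
    exact mem_mm.trans ⟨fun ⟨c, hc⟩ => ⟨c, hc.symm⟩, fun ⟨c, hc⟩ => ⟨c, hc.symm⟩⟩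
  rw [h]
  exact (isCompact_range (by fun_prop)).isClosed.preimage
    (WithPiTopology.continuous_constantCoeff ℤ_[2])

theorem scal_dvd (x : ℤ_[2]) : (2 : ℤ_[2]) ∣ x - ((PadicInt.toZMod x).val : ℤ_[2]) := by
  have := PadicInt.toZMod_spec x
  rw [PadicInt.maximalIdeal_eq_span_p, Ideal.mem_span_singleton, ← ZMod.natCast_val] at this
  exact_mod_cast this

theorem exists_sub_mem_mm (f : Lam) : ∃ t : F2, f - (t.val : Lam) ∈ mm :=
  ⟨PadicInt.toZMod (constantCoeff f), mem_mm.2 (by
    rw [map_sub, map_natCast]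
    exact scal_dvd _)⟩

variable {M : Type} [AddCommGroup M] [TopologicalSpace M] [IsTopologicalAddGroup M]
  [CompactSpace M] [T2Space M] [Module Lam M] [ContinuousSMul Lam M]

theorem isClosed_smul_top (I : Ideal Lam) :
    IsClosed ((I • (⊤ : Submodule Lam M) : Submodule Lam M) : Set M) := by
  obtain ⟨n, g, hg⟩ := Submodule.fg_iff_exists_fin_generating_family.1
    (IsNoetherian.noetherian (I : Submodule Lam Lam))
  have h : ((I • (⊤ : Submodule Lam M) : Submodule Lam M) : Set M) =
      Set.range fun y : Fin n → M => ∑ k, g k • y k := by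
    ext v
    constructor
    · intro hv
      refine Submodule.smul_induction_on (p := fun v => v ∈ Set.range
        fun y : Fin n → M => ∑ k, g k • y k) hv ?_ ?_
      · intro r hr x _
        rw [← hg] at hr
        obtain ⟨c, rfl⟩ := (Submodule.mem_span_range_iff_exists_fun Lam).1 hr
        refine ⟨fun k => c k • x, ?_⟩
        simp only [Finset.sum_smul, smul_smul, smul_eq_mul, mul_comm]
      · rintro _ _ ⟨y, rfl⟩ ⟨z, rfl⟩
        exact ⟨y + z, by simp [Finset.sum_add_distrib]⟩
    · rintro ⟨y, rfl⟩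
      refine Submodule.sum_mem _ fun k _ => Submodule.smul_mem_smul ?_ trivial
      rw [← hg]
      exact Submodule.subset_span ⟨k, rfl⟩
  rw [h]
  exact (isCompact_range (by fun_prop)).isClosed

theorem isClosed_span {ι : Type} [Fintype ι] (x : ι → M) :
    IsClosed ((Submodule.span Lam (Set.range x) : Submodule Lam M) : Set M) := by
  have h : ((Submodule.span Lam (Set.range x) : Submodule Lam M) : Set M) =
      Set.range fun c : ι → Lam => ∑ i, c i • x i := by
    ext v
    exact Submodule.mem_span_range_iff_exists_fun Lam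
  rw [h]
  exact (isCompact_range (by fun_prop)).isClosed

/-- A closed subgroup that is stable under both variables is a submodule. -/
theorem smul_mem_of_closed (Q : AddSubgroup M) (hQ : IsClosed (Q : Set M))
    (h : ∀ i, ∀ x ∈ Q, (X i : Lam) • x ∈ Q) (f : Lam) : ∀ x ∈ Q, f • x ∈ Q := by
  have hP : IsClosed {f : Lam | ∀ x ∈ Q, f • x ∈ Q} := by
    simp only [Set.ofPred_forall]
    exact isClosed_iInter fun x => isClosed_iInter fun _ =>
      hQ.preimage (f := fun f : Lam => f • x) (by fun_prop)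
  have hC : ∀ a : ℤ_[2], ∀ x ∈ Q, (C a : Lam) • x ∈ Q := fun a =>
    PadicInt.denseRange_intCast.induction_on (p := fun a => ∀ x ∈ Q, (C a : Lam) • x ∈ Q) a
      (hP.preimage WithPiTopology.continuous_C) fun n x hx => by
        rw [map_intCast, Int.cast_smul_eq_zsmul]
        exact Q.zsmul_mem hx n
  refine WithPiTopology.denseRange_toMvPowerSeries.induction_on
    (p := fun f : Lam => ∀ x ∈ Q, f • x ∈ Q) f hP fun p => ?_
  induction p using MvPolynomial.induction_on with
  | C a =>
    rw [MvPolynomial.coe_C]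
    exact hC a
  | add p q hp hq =>
    intro x hx
    rw [MvPolynomial.coe_add, add_smul]
    exact Q.add_mem (hp x hx) (hq x hx)
  | mul_X p i hp =>
    intro x hx
    rw [MvPolynomial.coe_mul, MvPolynomial.coe_X, mul_smul]
    exact hp _ (h i x hx)

/-- Characters separate the points of `M / mm M`. -/
theorem mem_mm_smul {ι : Type} [Fintype ι] {x : ι → M}
    (hx : Submodule.span Lam (Set.range x) = ⊤) {v : M}
    (h : ∀ ψ : M →+ F2, Continuous ψ → (∀ y ∈ mm • (⊤ : Submodule Lam M), ψ y = 0) → ψ v = 0) :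
    v ∈ mm • (⊤ : Submodule Lam M) := by
  set N : Submodule Lam M := mm • ⊤ with hN
  have hfin : Finite (M ⧸ N) := by
    refine Finite.of_surjective (fun t : ι → F2 => N.mkQ (∑ i, ((t i).val : Lam) • x i)) ?_
    intro q
    obtain ⟨y, rfl⟩ := N.mkQ_surjective q
    obtain ⟨c, rfl⟩ := (Submodule.mem_span_range_iff_exists_fun Lam).1
      (hx ▸ Submodule.mem_top : y ∈ Submodule.span Lam (Set.range x))
    choose t ht using fun i => exists_sub_mem_mm (c i)
    refine ⟨t, ((Submodule.Quotient.eq N).2 ?_).symm⟩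
    rw [← Finset.sum_sub_distrib]
    refine N.sum_mem fun i _ => ?_
    rw [← sub_smul]
    exact Submodule.smul_mem_smul (ht i) trivial
  have hfi : N.toAddSubgroup.FiniteIndex :=
    @AddSubgroup.finiteIndex_of_finite_quotient _ _ _ hfin
  have hopen : IsOpen (N : Set M) :=
    AddSubgroup.isOpen_of_isClosed_of_finiteIndex N.toAddSubgroup (isClosed_smul_top mm)
  let : Module (ZMod 2) (M ⧸ N) := AddCommGroup.zmodModule fun q => by
    obtain ⟨y, rfl⟩ := N.mkQ_surjective q
    rw [← map_nsmul, Submodule.mkQ_apply, Submodule.Quotient.mk_eq_zero,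
      ← Nat.cast_smul_eq_nsmul Lam]
    exact Submodule.smul_mem_smul scal_two_mem trivial
  rw [← Submodule.Quotient.mk_eq_zero, ← Module.forall_dual_apply_eq_zero_iff (ZMod 2)]
  intro φ
  have h0 : ∀ y ∈ N, (φ.toAddMonoidHom.comp N.mkQ.toAddMonoidHom) y = 0 := fun y hy => by
    show φ (Submodule.Quotient.mk y) = 0
    rw [(Submodule.Quotient.mk_eq_zero N).2 hy, map_zero]
  refine h (φ.toAddMonoidHom.comp N.mkQ.toAddMonoidHom) (continuous_of_continuousAt_zero _ ?_) h0
  refine (continuousAt_const (y := (0 : F2))).congr ?_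
  filter_upwards [hopen.mem_nhds N.zero_mem] with y hy
  exact (h0 y hy).symm

theorem exists_scalar {G : Type} [Group G] [TopologicalSpace G] [IsTopologicalGroup G]
    [CompactSpace G] {A : Subgroup G} (hA : IsClosed (A : Set G))
    {e : A →* Multiplicative (Fin 2 → ℤ_[2])} (he : Continuous e) (hs : Function.Surjective e)
    (act : G →* AddMonoid.End M) (hc : Continuous fun z : G × M => act z.1 z.2)
    (h1 : ∀ g : A, e g = 1 → act g = 1)
    (hX : ∀ (i : Fin 2) (g : A), e g = Multiplicative.ofAdd (Pi.single i 1) →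
      ∀ x : M, act g x = (1 + X i : Lam) • x)
    (i : Fin 2) (g : A) (hg : ∀ j, j ≠ i → (e g).toAdd j = 0) :
    ∃ μ : Lam, μ - ((PadicInt.toZMod ((e g).toAdd i)).val : Lam) ∈ mm ∧
      ∀ x : M, act g x = (1 + X i * μ) • x := by
  have : CompactSpace A := isCompact_iff_compactSpace.1 hA.isCompact
  have hj : ∀ j, Continuous fun z : A × Lam => (e z.1).toAdd j := fun j =>
    (continuous_apply j).comp (continuous_toAdd.comp (he.comp continuous_fst))
  let Z : Set (A × Lam) := {z | (∀ j, j ≠ i → (e z.1).toAdd j = 0) ∧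
    z.2 - C ((e z.1).toAdd i) ∈ mm ∧ ∀ x : M, act z.1 x = (1 + X i * z.2) • x}
  have hZ : IsClosed Z := by
    refine IsClosed.inter ?_ (IsClosed.inter ?_ ?_)
    · show IsClosed {z : A × Lam | ∀ j, j ≠ i → (e z.1).toAdd j = 0}
      simp only [Set.ofPred_forall]
      exact isClosed_iInter fun j => isClosed_iInter fun _ => isClosed_eq (hj j) continuous_const
    · exact isClosed_mm.preimage (continuous_snd.sub (WithPiTopology.continuous_C.comp (hj i)))
    · show IsClosed {z : A × Lam | ∀ x : M, act z.1 x = (1 + X i * z.2) • x}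
      simp only [Set.ofPred_forall]
      refine isClosed_iInter fun x => isClosed_eq ?_ (by fun_prop)
      exact hc.comp ((continuous_subtype_val.comp continuous_fst).prodMk continuous_const)
  have hcl := (hZ.isCompact.image (hj i)).isClosed
  obtain ⟨g0, hg0⟩ := hs (Multiplicative.ofAdd (Pi.single i 1))
  have hn : ∀ n : ℕ, ∃ μ : Lam, μ - (n : Lam) ∈ mm ∧
      ∀ x : M, act (g0 ^ n : A) x = (1 + X i * μ) • x := by
    intro n
    induction n with
    | zero => exact ⟨0, by simp, fun x => by simp⟩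
    | succ n ih =>
      obtain ⟨μ, h2, h3⟩ := ih
      refine ⟨μ + 1 + X i * μ, ?_, fun x => ?_⟩
      · rw [show μ + 1 + X i * μ - ((n + 1 : ℕ) : Lam) = μ - (n : Lam) + X i * μ by
          push_cast; ring]
        exact mm.add_mem h2 (mm.mul_mem_right _ (scal_X_mem i))
      · rw [pow_succ, Subgroup.coe_mul, map_mul, AddMonoid.End.coe_mul, Function.comp_apply,
          hX i g0 hg0, h3, smul_smul]
        congr 1
        ring
  have hall : (e g).toAdd i ∈ (fun z : A × Lam => (e z.1).toAdd i) '' Z :=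
    PadicInt.denseRange_natCast.induction_on
      (p := fun t => t ∈ (fun z : A × Lam => (e z.1).toAdd i) '' Z) _ hcl fun n => by
        obtain ⟨μ, h2, h3⟩ := hn n
        have h4 : (e (g0 ^ n)).toAdd i = n := by simp [hg0]
        refine ⟨(g0 ^ n, μ), ⟨fun j hj => by simp [hg0, hj], ?_, h3⟩, h4⟩
        rwa [h4, map_natCast]
  obtain ⟨⟨a, μ⟩, ⟨h2, h3, h4⟩, h5⟩ := hall
  have h6 : e a = e g := by
    refine Multiplicative.toAdd.injective (funext fun j => ?_)
    by_cases hj : j = i
    · rw [hj]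
      exact h5
    · rw [hg j hj]
      exact h2 j hj
  have h7 : act (g * a⁻¹ : A) = 1 := h1 _ (by rw [map_mul, map_inv, h6, mul_inv_cancel])
  have h8 : act g = act a := by
    rw [show (g : G) = (g * a⁻¹ : A) * a by simp, map_mul, h7, one_mul]
  refine ⟨μ, ?_, fun x => h8 ▸ h4 x⟩
  have h9 : (C ((e g).toAdd i) : Lam) - ((PadicInt.toZMod ((e g).toAdd i)).val : Lam) ∈ mm := by
    rw [mem_mm, map_sub, map_natCast, constantCoeff_C]
    exact scal_dvd _
  have h10 := mm.add_mem h3 h9
  rwa [show (e (a, μ).1).toAdd i = (e g).toAdd i from h5, sub_add_sub_cancel] at h10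

end Pool.Agent.Lib.MP_f8d36e_nt
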