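import Pool.Agent.Lib.MP_f8d36e_nt.Lim

/-! Job B1: the Galois group of the compositum of the towers. -/

set_option autoImplicit false
set_option linter.unusedSectionVars false

open Matrix

namespace Pool.Agent.Lib.MP_f8d36e_nt

theorem struct_mod (x : ℤ_[2]) : PadicInt.toZMod x = 0 ↔ (2 : ℤ_[2]) ∣ x := by
  rw [← RingHom.mem_ker, PadicInt.ker_toZMod, PadicInt.maximalIdeal_eq_span_p,
    Ideal.mem_span_singleton, Nat.cast_ofNat]

theorem struct_cont : Continuous (PadicInt.toZMod : ℤ_[2] → F2) := by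
  refine continuous_of_continuousAt_zero (PadicInt.toZMod (p := 2)).toAddMonoidHom
    (continuousAt_const (y := (0 : F2)).congr ?_)
  filter_upwards [Metric.ball_mem_nhds (0 : ℤ_[2]) one_pos] with x hx
  exact ((struct_mod x).2 (by
    simpa using (PadicInt.norm_lt_one_iff_dvd x).1 (by simpa using hx))).symm

theorem struct_zero {x : ℤ_[2]} (h : ∀ k : ℕ, (2 : ℤ_[2]) ^ k ∣ x) : x = 0 := by
  by_contra e
  have := (PadicInt.mem_span_pow_iff_le_valuation x e (x.valuation + 1)).1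
    (Ideal.mem_span_singleton.2 (by simpa using h _))
  omega

theorem struct_f2 (t : F2) : t = 0 ∨ t = 1 := by revert t; decide

section
variable {G : Type} [Group G] [TopologicalSpace G] [IsTopologicalGroup G] {A N : Subgroup G}

theorem struct_cases (h2 : A.index = 2) {c : G} (hc : c ∉ A) (g : G) :
    ∃ x : A, g = x ∨ g = x * c := by
  by_cases h : g ∈ A
  · exact ⟨⟨g, h⟩, Or.inl rfl⟩
  · exact ⟨⟨g * c⁻¹, (Subgroup.mul_mem_iff_of_index_two h2).2 (by simp [h, hc])⟩, Or.inr (by simp)⟩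

theorem struct_conj (h2 : A.index = 2) (c : G) (x : A) : ∃ y : A, (y : G) = c * x * c⁻¹ :=
  ⟨⟨_, (Subgroup.normal_of_index_eq_two h2).conj_mem _ x.2 c⟩, rfl⟩

/-- Extension of an invariant quadratic character. -/
theorem struct_ext (h2 : A.index = 2) (ho : IsOpen (A : Set G)) {c : G} (hc : c ∉ A)
    (hcc : c * c = 1) (ψ : A → F2) (hψ : Continuous ψ) (hm : ∀ x y, ψ (x * y) = ψ x + ψ y)
    (hσ : ∀ x y : A, (y : G) = c * x * c⁻¹ → ψ y = ψ x) (z : F2) :
    ∃ χ : G →* Multiplicative F2, Continuous χ ∧ (∀ x : A, (χ x).toAdd = ψ x) ∧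
      ∀ x : A, (χ (x * c)).toAdd = ψ x + z := by
  classical
  let f : G → F2 := fun g => if h : g ∈ A then ψ ⟨g, h⟩ else
    ψ ⟨g * c⁻¹, (Subgroup.mul_mem_iff_of_index_two h2).2 (by simp [h, hc])⟩ + z
  have f1 : ∀ x : A, f x = ψ x := fun x => dif_pos x.2
  have f2 : ∀ x : A, f (x * c) = ψ x + z := fun x => by
    have : (x : G) * c ∉ A := fun h => hc ((A.mul_mem_cancel_left x.2).1 h)
    simp only [f, dif_neg this, mul_inv_cancel_right]
  have f3 : ∀ g h, f (g * h) = f g + f h := fun g h => by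
    obtain ⟨x, rfl | rfl⟩ := struct_cases h2 hc g <;> obtain ⟨y, rfl | rfl⟩ := struct_cases h2 hc h
    · rw [← Subgroup.coe_mul, f1, f1, f1, hm]
    · rw [← mul_assoc, ← Subgroup.coe_mul, f2, f1, f2, hm, add_assoc]
    · obtain ⟨y', hy⟩ := struct_conj h2 c y
      rw [show (x : G) * c * y = (x * y' : A) * c by rw [Subgroup.coe_mul, hy]; group,
        f2, f2, f1, hm, hσ y y' hy, add_right_comm]
    · obtain ⟨y', hy⟩ := struct_conj h2 c y
      rw [show (x : G) * c * (y * c) = (x * y' : A) by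
        rw [Subgroup.coe_mul, hy, inv_eq_of_mul_eq_one_right hcc]; group,
        f1, f2, f2, hm, hσ y y' hy, add_add_add_comm, CharTwo.add_self_eq_zero, add_zero]
  refine ⟨MonoidHom.mk' (fun g => Multiplicative.ofAdd (f g)) fun g h => congrArg _ (f3 g h),
    continuous_of_continuousAt_one _ ?_, f1, f2⟩
  refine (ho.isOpenEmbedding_subtypeVal.continuousAt_iff (x := ⟨1, A.one_mem⟩)).1 ?_
  exact ((continuous_ofAdd.comp hψ).congr fun x =>
    congrArg Multiplicative.ofAdd (f1 x).symm).continuousAt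

/-- The homomorphism is multiplied by `δ` under conjugation by `c`. -/
def structInv (c : G) (δ : ℤ_[2]) (ρ : A →* Multiplicative ℤ_[2]) : Prop :=
  Continuous ρ ∧ ∀ x y : A, (y : G) = c * x * c⁻¹ → (ρ y).toAdd = δ * (ρ x).toAdd

theorem struct_div {c : G} {δ : ℤ_[2]} {ρ ρ' : A →* Multiplicative ℤ_[2]} (h : structInv c δ ρ)
    (h' : structInv c δ ρ') : structInv c δ (ρ / ρ') :=
  ⟨h.1.div' h'.1, fun x y e => by
    simp only [MonoidHom.div_apply, toAdd_div, h.2 x y e, h'.2 x y e, mul_sub]⟩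

theorem struct_scale {c : G} {δ a : ℤ_[2]} {ρ ρ' : A →* Multiplicative ℤ_[2]}
    (h : structInv c δ ρ) (hc : Continuous ρ') (ha : a ≠ 0)
    (e : ∀ x, (ρ x).toAdd = a * (ρ' x).toAdd) : structInv c δ ρ' :=
  ⟨hc, fun x y hxy => mul_left_cancel₀ ha (by rw [← e, h.2 x y hxy, e]; ring)⟩

theorem struct_kill {c : G} {δ : ℤ_[2]} {ρ₀ : A →* Multiplicative ℤ_[2]} (h₀ : structInv c δ ρ₀)
    (H : ∀ ρ : A →* Multiplicative ℤ_[2], structInv c δ ρ →
      (∀ x, (2 : ℤ_[2]) ∣ (ρ x).toAdd) ∨ ∀ x, (2 : ℤ_[2]) ∣ ((ρ / ρ₀) x).toAdd)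
    {x : A} (hx : (ρ₀ x).toAdd = 0) (ρ : A →* Multiplicative ℤ_[2]) (h : structInv c δ ρ) :
    (ρ x).toAdd = 0 := by
  refine struct_zero fun k => ?_
  induction k generalizing ρ with
  | zero => simp
  | succ k ih =>
    have key : ∀ ρ : A →* Multiplicative ℤ_[2], structInv c δ ρ →
        (∀ x, (2 : ℤ_[2]) ∣ (ρ x).toAdd) → (2 : ℤ_[2]) ^ (k + 1) ∣ (ρ x).toAdd := by
      intro ρ h h2
      obtain ⟨ρ', c1, c2⟩ := exists_half ρ h.1 h2
      rw [c2, pow_succ']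
      exact mul_dvd_mul_left _ (ih ρ' (struct_scale h c1 two_ne_zero c2))
    rcases H ρ h with h2 | h2
    · exact key ρ h h2
    · simpa only [MonoidHom.div_apply, toAdd_div, hx, sub_zero] using key _ (struct_div h h₀) h2

variable {ι : Type} [Fintype ι] {u w β : ι → F2} {R : Matrix ι ι F2} (s : Setup u w R A N)

theorem struct_key (hNA : N ≤ A) (ψ : A → F2) (hψ : Continuous ψ)
    (hm : ∀ x y, ψ (x * y) = ψ x + ψ y) (hσ : ∀ x y : A, (y : G) = s.c * x * s.c⁻¹ → ψ y = ψ x)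
    (hN : ∀ x : A, (x : G) ∈ N → ψ x = 0) (z : F2) :
    ∃ (β' : ι → F2) (ε η : F2), (∀ i, ∀ x : A, (x : G) = s.τ i * s.c⁻¹ → ψ x + z = β' i) ∧
      (∀ i, ∀ x : A, (x : G) = s.φ i → ψ x = η * u i + ε * w i + (R *ᵥ β') i) ∧
      z = η + u ⬝ᵥ β' ∧
      ((∀ x : A, (x : G) ∈ s.D → ψ x = 0) → (∀ x : A, (x : G) * s.c ∈ s.D → ψ x + z = 0) →
        ε = 0 ∧ η = 0 ∧ w ⬝ᵥ β' = 0) ∧ (β' = 0 → ε = 0 → η = 0 → ∀ x, ψ x = 0) := by
  obtain ⟨χ, c1, c2, c3⟩ := struct_ext s.index s.isOpen s.c_not s.c_sq ψ hψ hm hσ z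
  obtain ⟨β', ε, η, k1, k2, k3, k4, k5⟩ := s.chars χ c1 fun g hg =>
    toAdd_eq_zero.1 ((c2 ⟨g, hNA hg⟩).trans (hN _ hg))
  refine ⟨β', ε, η, fun i x e => ?_, fun i x e => ?_, ?_, fun h1 h2 => k4 fun g hg => ?_,
    fun e1 e2 e3 x => ?_⟩
  · rw [← c3, e, inv_mul_cancel_right, k1]
  · rw [← c2, e, k2]
  · have e1 := c3 1
    have e2 := c2 1
    simp only [OneMemClass.coe_one, one_mul, map_one, toAdd_one] at e1 e2
    rw [← k3, e1, ← e2, zero_add]
  · obtain ⟨x, rfl | rfl⟩ := struct_cases s.index s.c_not g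
    exacts [toAdd_eq_zero.1 ((c2 x).trans (h1 x hg)), toAdd_eq_zero.1 ((c3 x).trans (h2 x hg))]
  · rw [← c2, k5 e1 e2 e3]
    rfl

theorem struct_tau (i : ι) : ∃ x : A, (x : G) = s.τ i * s.c⁻¹ :=
  ⟨⟨_, (Subgroup.mul_mem_iff_of_index_two s.index).2 (by simp [s.τ_not i, s.c_not])⟩, rfl⟩

theorem struct_w (hs : Sums u w R) {t : F2} (h : ∀ i, t * w i = 0) : t = 0 := by
  rw [← mul_one t, ← hs.sw, Finset.mul_sum]
  exact Finset.sum_eq_zero fun i _ => h i

variable (hs : Sums u w R) (hNA : N ≤ A)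
  (hN : ∀ ρ : A →* Multiplicative ℤ_[2], Continuous ρ → ∀ x : A, (x : G) ∈ N → ρ x = 1)
include hs hNA hN

omit hs in
theorem struct_inv {ρ : A →* Multiplicative ℤ_[2]} (h : structInv s.c 1 ρ) :
    (∀ i, ∀ x : A, (x : G) = s.τ i * s.c⁻¹ → (ρ x).toAdd = 0) ∧ ∃ ε : F2,
      (∀ i, ∀ x : A, (x : G) = s.φ i → PadicInt.toZMod (ρ x).toAdd = ε * w i) ∧
      (ε = 0 → ∀ x, (2 : ℤ_[2]) ∣ (ρ x).toAdd) := by
  have a1 : ∀ i, ∀ x : A, (x : G) = s.τ i * s.c⁻¹ → (ρ x).toAdd = 0 := fun i x e => by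
    obtain ⟨y, hy⟩ := struct_conj s.index s.c x
    have := congrArg Multiplicative.toAdd (hN ρ h.1 (x * y) (by
      rw [Subgroup.coe_mul, hy, e, show s.τ i * s.c⁻¹ * (s.c * (s.τ i * s.c⁻¹) * s.c⁻¹) =
        s.τ i * s.τ i * (s.c * s.c)⁻¹ by group, s.c_sq, inv_one, mul_one]
      exact s.τ_sq i))
    rwa [map_mul, toAdd_mul, h.2 x y hy, one_mul, toAdd_one, add_self_eq_zero] at this
  obtain ⟨β', ε, η, k1, k2, k3, -, k5⟩ := struct_key s hNA (fun x => PadicInt.toZMod (ρ x).toAdd)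
    (struct_cont.comp (continuous_toAdd.comp h.1)) (fun x y => by simp)
    (fun x y e => by simp [h.2 x y e]) (fun x hx => by simp [hN ρ h.1 x hx]) 0
  have b1 : β' = 0 := funext fun i => by
    obtain ⟨x, e⟩ := struct_tau s i
    simp [← k1 i x e, a1 i x e]
  have b2 : η = 0 := by simpa [b1] using k3.symm
  exact ⟨a1, ε, fun i x e => by simpa [b1, b2] using k2 i x e,
    fun e x => (struct_mod _).1 (k5 b1 e b2 x)⟩

theorem struct_anti (hu : Uniq u w β R) {ρ : A →* Multiplicative ℤ_[2]}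
    (h : structInv s.c (-1) ρ) :
    (∀ i, ∀ x : A, (x : G) = s.φ i → (ρ x).toAdd = 0) ∧ ∃ t : F2,
      (∀ i, ∀ x : A, (x : G) = s.τ i * s.c⁻¹ → PadicInt.toZMod (ρ x).toAdd = t * β i) ∧
      (t = 0 → ∀ x, (2 : ℤ_[2]) ∣ (ρ x).toAdd) := by
  have a1 : ∀ i, ∀ x : A, (x : G) = s.φ i → (ρ x).toAdd = 0 := fun i x e => by
    obtain ⟨y, hy⟩ := struct_conj s.index s.c x
    obtain ⟨a, ha⟩ := struct_tau s i
    have := congrArg Multiplicative.toAdd (hN ρ h.1 (x * a * y⁻¹ * a⁻¹) (by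
      simp only [Subgroup.coe_mul, Subgroup.coe_inv, hy, e, ha]
      rw [show s.φ i * (s.τ i * s.c⁻¹) * (s.c * s.φ i * s.c⁻¹)⁻¹ * (s.τ i * s.c⁻¹)⁻¹ =
        s.φ i * s.τ i * (s.φ i)⁻¹ * (s.τ i)⁻¹ by group]
      exact s.comm i))
    simp only [map_mul, map_inv, toAdd_mul, toAdd_inv, h.2 x y hy, toAdd_one] at this
    exact add_self_eq_zero.1 (by linear_combination this)
  obtain ⟨β', ε, η, k1, k2, k3, -, k5⟩ := struct_key s hNA (fun x => PadicInt.toZMod (ρ x).toAdd)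
    (struct_cont.comp (continuous_toAdd.comp h.1)) (fun x y => by simp)
    (fun x y e => by simp [h.2 x y e, CharTwo.neg_eq]) (fun x hx => by simp [hN ρ h.1 x hx]) 0
  have b1 : ∀ i, η * u i + ε * w i + (R *ᵥ β') i = 0 := fun i => by
    rw [← k2 i ⟨_, s.φ_mem i⟩ rfl, a1 i _ rfl, map_zero]
  have b2 : ε = 0 := by
    have e := Finset.sum_eq_zero (s := Finset.univ) fun i _ => b1 i
    simp only [Finset.sum_add_distrib, ← Finset.mul_sum, hs.su, hs.sw, mulVec, dotProduct] at e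
    rw [Finset.sum_comm] at e
    simpa [← Finset.sum_mul, hs.col] using e
  have b3 : u ⬝ᵥ β' = η := (CharTwo.add_eq_zero.1 k3.symm).symm
  refine ⟨a1, ?_⟩
  rcases hu.uniq β' (funext fun i => by
    have := b1 i
    rw [b2, zero_mul, add_zero] at this
    rw [b3, Pi.smul_apply, smul_eq_mul, CharTwo.add_eq_zero.1 this]) with e | e
  · exact ⟨0, fun i x hx => by simpa [e] using k1 i x hx,
      fun _ x => (struct_mod _).1 (k5 e b2 (by simpa [e] using b3.symm) x)⟩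
  · exact ⟨1, fun i x hx => by simpa [e] using k1 i x hx, fun h => absurd h one_ne_zero⟩

end

theorem exists_coord {ι : Type} [Fintype ι] [DecidableEq ι] {G : Type} [Group G]
    [TopologicalSpace G] [IsTopologicalGroup G] [CompactSpace G] {u w β : ι → F2}
    {R : Matrix ι ι F2} {A N : Subgroup G} (s : Setup u w R A N) (hs : Sums u w R)
    (hu : Uniq u w β R) (hNA : N ≤ A)
    (hN : ∀ ρ : A →* Multiplicative ℤ_[2], Continuous ρ → ∀ x : A, (x : G) ∈ N → ρ x = 1)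
    (ρp : G →* Multiplicative ℤ_[2]) (hp : Continuous ρp) (hp1 : ρp ≠ 1)
    (ρm : A →* Multiplicative ℤ_[2]) (hm : Continuous ρm) (hm1 : ρm ≠ 1)
    (hm2 : ∀ x y : A, (y : G) = s.c * x * s.c⁻¹ → ρm y = (ρm x)⁻¹) :
    ∃ e : A →* Multiplicative (Fin 2 → ℤ_[2]), Coord s β e ∧
      ∀ ρ : A →* Multiplicative ℤ_[2], Continuous ρ → ∀ x : A, e x = 1 → ρ x = 1 := by
  have : CompactSpace A := isCompact_iff_compactSpace.1 (A.isClosed_of_isOpen s.isOpen).isCompact
  have odd : ∀ ρ : A →* Multiplicative ℤ_[2], Function.Surjective ρ →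
      ¬ ∀ x, (2 : ℤ_[2]) ∣ (ρ x).toAdd := fun ρ h1 h2 => by
    obtain ⟨x, hx⟩ := h1 (Multiplicative.ofAdd 1)
    have := (struct_mod _).2 (h2 x)
    simp [hx] at this
  obtain ⟨v, m, m1, m2, m3⟩ := exists_scale ρm hm hm1
  obtain ⟨v', p, p1, p2, p3⟩ := exists_scale (ρp.comp A.subtype) (hp.comp continuous_subtype_val)
    fun e => hp1 (MonoidHom.ext fun g => by
      have := congrArg Multiplicative.toAdd
        (DFunLike.congr_fun e ⟨g * g, Subgroup.mul_self_mem_of_index_two s.index g⟩)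
      simpa using this)
  have im : structInv s.c (-1) m := struct_scale (ρ := ρm)
    ⟨hm, fun x y e => by simp [hm2 x y e]⟩ m1 (pow_ne_zero _ two_ne_zero) m3
  have ip : structInv s.c 1 p := struct_scale (ρ := ρp.comp A.subtype)
    ⟨hp.comp continuous_subtype_val, fun x y e => by simp [e]⟩ p1 (pow_ne_zero _ two_ne_zero) p3
  obtain ⟨m4, t, m5, m6⟩ := struct_anti s hs hNA hN hu im
  obtain ⟨p4, ε, p5, p6⟩ := struct_inv s hNA hN ip
  obtain rfl : t = 1 := (struct_f2 t).resolve_left fun e => odd m m2 (m6 e)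
  obtain rfl : ε = 1 := (struct_f2 ε).resolve_left fun e => odd p p2 (p6 e)
  simp only [one_mul] at m5 p5
  let e : A →* Multiplicative (Fin 2 → ℤ_[2]) := MonoidHom.mk'
    (fun x => Multiplicative.ofAdd ![(m x).toAdd, (p x).toAdd]) fun x y => by
      rw [← ofAdd_add]
      simp
  have e0 : ∀ x, (e x).toAdd 0 = (m x).toAdd := fun _ => rfl
  have e1 : ∀ x, (e x).toAdd 1 = (p x).toAdd := fun _ => rfl
  have ec : Continuous e := continuous_ofAdd.comp (continuous_pi fun i => by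
    fin_cases i
    exacts [continuous_toAdd.comp m1, continuous_toAdd.comp p1])
  have key : ∀ a b z : F2, (∀ x : A, (x : G) ∈ s.D →
      a * PadicInt.toZMod (m x).toAdd + b * PadicInt.toZMod (p x).toAdd = 0) →
      (∀ x : A, (x : G) * s.c ∈ s.D →
        a * PadicInt.toZMod (m x).toAdd + b * PadicInt.toZMod (p x).toAdd + z = 0) →
      z = 0 ∧ a = 0 ∧ b = 0 := by
    intro a b z h1 h2
    obtain ⟨β', ε, η, k1, k2, k3, k4, -⟩ := struct_key s hNA
      (fun x => a * PadicInt.toZMod (m x).toAdd + b * PadicInt.toZMod (p x).toAdd)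
      ((continuous_const.mul (struct_cont.comp (continuous_toAdd.comp m1))).add
        (continuous_const.mul (struct_cont.comp (continuous_toAdd.comp p1))))
      (fun x y => by simp only [map_mul, toAdd_mul, map_add]; ring)
      (fun x y e => by simp [im.2 x y e, ip.2 x y e, CharTwo.neg_eq])
      (fun x hx => by simp [hN m m1 x hx, hN p p1 x hx]) z
    obtain ⟨rfl, rfl, k5⟩ := k4 h1 h2
    have b1 : β' = a • β + z • 1 := funext fun i => by
      obtain ⟨x, e⟩ := struct_tau s i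
      simp [← k1 i x e, m5 i x e, p4 i x e]
    have b2 : z = 0 := by simpa [b1, hu.hw, dotProduct_one, hs.sw] using k5
    have b3 : a = 0 := by simpa [b1, b2, hu.hu] using k3.symm
    refine ⟨b2, b3, struct_w hs fun i => ?_⟩
    simpa [b1, b2, b3, p5 i ⟨_, s.φ_mem i⟩ rfl] using k2 i ⟨_, s.φ_mem i⟩ rfl
  obtain ⟨x₀, hx₀⟩ : ∃ x : A, (x : G) * s.c ∈ s.D := by
    by_contra h
    exact one_ne_zero (key 0 0 1 (by simp) fun x hx => absurd ⟨x, hx⟩ h).1
  have key2 : ∀ a b : F2, a ≠ 0 ∨ b ≠ 0 → ∃ x : A, (x : G) ∈ s.D ∧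
      a * PadicInt.toZMod (m x).toAdd + b * PadicInt.toZMod (p x).toAdd ≠ 0 := by
    intro a b hab
    by_contra h
    simp only [not_exists, not_and, not_not] at h
    have := key a b (a * PadicInt.toZMod (m x₀).toAdd + b * PadicInt.toZMod (p x₀).toAdd) h
      fun x hx => by
        have := h (x * x₀⁻¹) (by simpa using s.D.mul_mem hx (s.D.inv_mem hx₀))
        simp only [map_mul, map_inv, toAdd_mul, toAdd_inv, map_add, map_neg, CharTwo.neg_eq] at this
        linear_combination this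
    tauto
  have top : ((s.D.subgroupOf A).map e).toAddSubgroup' = ⊤ := by
    refine surj_of_mod_two _ ?_ fun y => ?_
    · exact (((s.closed.preimage continuous_subtype_val).isCompact.image
        (continuous_toAdd.comp ec)).isClosed :)
    obtain ⟨x1, d1, h1⟩ := key2 1 0 (by simp)
    obtain ⟨x2, d2, h2⟩ := key2 0 1 (by simp)
    obtain ⟨x3, d3, h3⟩ := key2 1 1 (by simp)
    have fin : ∀ a1 b1 a2 b2 a3 b3 y0 y1 : F2, 1 * a1 + 0 * b1 ≠ 0 → 0 * a2 + 1 * b2 ≠ 0 →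
        1 * a3 + 1 * b3 ≠ 0 → ∃ k1 k2 k3 : Fin 2, y0 - (k1.1 • a1 + k2.1 • a2 + k3.1 • a3) = 0 ∧
          y1 - (k1.1 • b1 + k2.1 • b2 + k3.1 • b3) = 0 := by decide
    obtain ⟨k1, k2, k3, f1, f2⟩ := fin _ _ _ _ _ _ (PadicInt.toZMod (y 0)) (PadicInt.toZMod (y 1))
      h1 h2 h3
    refine ⟨(e (x1 ^ k1.1 * x2 ^ k2.1 * x3 ^ k3.1)).toAdd, ⟨_, ?_, rfl⟩, fun i => ?_⟩
    · exact (s.D.subgroupOf A).mul_mem ((s.D.subgroupOf A).mul_mem (Subgroup.pow_mem _ d1 _)
        (Subgroup.pow_mem _ d2 _)) (Subgroup.pow_mem _ d3 _)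
    · rw [← struct_mod]
      fin_cases i
      · simpa only [Fin.zero_eta, e0, map_mul, map_pow, toAdd_mul, toAdd_pow, map_sub, map_add,
          map_nsmul, Pi.add_apply, Pi.smul_apply] using f1
      · simpa only [Fin.mk_one, e1, map_mul, map_pow, toAdd_mul, toAdd_pow, map_sub, map_add,
          map_nsmul, Pi.add_apply, Pi.smul_apply] using f2
  have sur : ∀ y, ∃ d : A, (d : G) ∈ s.D ∧ e d = y := fun y =>
    (top ▸ AddSubgroup.mem_top y.toAdd : y.toAdd ∈ ((s.D.subgroupOf A).map e).toAddSubgroup')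
  refine ⟨e, ⟨ec, fun y => (sur y).imp fun _ h => h.2, fun x y h => ?_, fun i x h => ?_,
    fun i x h => ?_, fun g => ?_⟩, fun ρ hρ x hx => ?_⟩
  · simp [e0, e1, im.2 x y h, ip.2 x y h]
  · exact ⟨m5 i x h, p4 i x h⟩
  · exact ⟨m4 i x h, p5 i x h⟩
  · obtain ⟨x, rfl | rfl⟩ := struct_cases s.index s.c_not g
    · obtain ⟨d, d1, d2⟩ := sur (e x)
      exact ⟨d, d1, x * d⁻¹, by simp [d2], by simp⟩
    · obtain ⟨d, d1, d2⟩ := sur (e (x * x₀⁻¹))
      exact ⟨_, s.D.mul_mem d1 hx₀, x * x₀⁻¹ * d⁻¹, by rw [map_mul, map_inv, d2, mul_inv_cancel],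
        by simp [mul_assoc]⟩
  have := Subgroup.normal_of_index_eq_two s.index
  let σ : A →* A := (MulAut.conjNormal s.c).toMonoidHom
  have σ1 : ∀ x : A, (σ x : G) = s.c * x * s.c⁻¹ := fun _ => rfl
  have σc : Continuous σ := Continuous.subtype_mk (by fun_prop) _
  have σ2 : ∀ x y : A, (y : G) = s.c * x * s.c⁻¹ → y = σ x ∧ σ y = x := fun x y h =>
    ⟨Subtype.ext h, Subtype.ext (by
      rw [σ1, h, show s.c * (s.c * x * s.c⁻¹) * s.c⁻¹ = s.c * s.c * x * (s.c * s.c)⁻¹ by group,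
        s.c_sq]
      simp)⟩
  have z1 := struct_kill ip (fun r hr => by
      obtain ⟨-, ε, a1, a2⟩ := struct_inv s hNA hN hr
      obtain ⟨-, ε', b1, b2⟩ := struct_inv s hNA hN (struct_div hr ip)
      refine (struct_f2 ε).imp a2 fun h => b2 (struct_w hs fun i => ?_)
      rw [← b1 i ⟨_, s.φ_mem i⟩ rfl, MonoidHom.div_apply, toAdd_div, map_sub, a1 i _ rfl,
        p5 i _ rfl, h, one_mul, sub_self]) (x := x) (by rw [← e1, hx]; rfl) (ρ * ρ.comp σ)
    ⟨hρ.mul (hρ.comp σc), fun x y h => by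
      simp [(σ2 x y h).2, ← (σ2 x y h).1, add_comm]⟩
  have z2 := struct_kill im (fun r hr => by
      obtain ⟨-, t, a1, a2⟩ := struct_anti s hs hNA hN hu hr
      obtain ⟨-, t', b1, b2⟩ := struct_anti s hs hNA hN hu (struct_div hr im)
      refine (struct_f2 t).imp a2 fun h => b2 ?_
      rw [← mul_one t', ← hu.hu, dotProduct, Finset.mul_sum]
      refine Finset.sum_eq_zero fun i _ => ?_
      obtain ⟨y, hy⟩ := struct_tau s i
      rw [mul_left_comm, ← b1 i y hy, MonoidHom.div_apply, toAdd_div, map_sub, a1 i y hy,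
        m5 i y hy, h, one_mul, sub_self, mul_zero]) (x := x) (by rw [← e0, hx]; rfl)
    (ρ / ρ.comp σ) ⟨hρ.div' (hρ.comp σc), fun x y h => by
      simp [(σ2 x y h).2, ← (σ2 x y h).1]⟩
  simp only [MonoidHom.mul_apply, MonoidHom.div_apply, toAdd_mul, toAdd_div] at z1 z2
  exact toAdd_eq_zero.1 (add_self_eq_zero.1 (by linear_combination z1 + z2))

end Pool.Agent.Lib.MP_f8d36e_nt
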