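import Pool.Agent.Lib.MP_f8d36e_nt.GDefs

/-! Job G1: homomorphisms to the two-adic integers; the cyclotomic tower; profinite lemmas. -/

set_option autoImplicit false

namespace Pool.Agent.Lib.MP_f8d36e_nt

theorem lim_dvd_iff (x : ℤ_[2]) (n : ℕ) : (2 : ℤ_[2]) ^ n ∣ x ↔ ‖x‖ ≤ (1 / 2) ^ n := by
  have := PadicInt.norm_le_pow_iff_mem_span_pow x n
  rw [Ideal.mem_span_singleton] at this
  simpa using this.symm

theorem lim_small {ε : ℝ} (hε : 0 < ε) : ∃ n : ℕ, ∀ x : ℤ_[2], 2 ^ n ∣ x → ‖x‖ < ε := by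
  obtain ⟨n, hn⟩ := exists_pow_lt_of_lt_one hε (show (1 / 2 : ℝ) < 1 by norm_num)
  exact ⟨n, fun x hx => ((lim_dvd_iff x n).1 hx).trans_lt hn⟩

theorem lim_eq_zero {x : ℤ_[2]} (h : ∀ n, (2 : ℤ_[2]) ^ n ∣ x) : x = 0 := by
  by_contra h0
  obtain ⟨n, hn⟩ := lim_small (norm_pos_iff.2 h0)
  exact (hn x (h n)).false

theorem lim_closed (n : ℕ) : IsClosed {x : ℤ_[2] | 2 ^ n ∣ x} := by
  simp only [lim_dvd_iff]
  exact isClosed_le continuous_norm continuous_const

theorem lim_toZModPow (x : ℤ_[2]) (n : ℕ) : PadicInt.toZModPow n x = 0 ↔ (2 : ℤ_[2]) ^ n ∣ x := by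
  rw [← RingHom.mem_ker, PadicInt.ker_toZModPow, Ideal.mem_span_singleton]
  simp

theorem lim_cont {X : Type} [TopologicalSpace X] {f F : X → ℤ_[2]} (hF : Continuous F) {c : ℤ_[2]}
    (hc : c ≠ 0) (h : ∀ x, F x = c * f x) : Continuous f := by
  refine PadicInt.isOpenEmbedding_coe.isInducing.continuous_iff.2
    (((PadicInt.isOpenEmbedding_coe.continuous.comp hF).div_const (c : ℚ_[2])).congr fun x => ?_)
  have := PadicInt.coe_ne_zero.2 hc
  change ((F x : ℤ_[2]) : ℚ_[2]) / c = ((f x : ℤ_[2]) : ℚ_[2])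
  rw [h, PadicInt.coe_mul, mul_div_cancel_left₀ _ this]

section
variable {G : Type} [Group G] [TopologicalSpace G]

theorem exists_limit_hom (a : ℕ → G → ℤ_[2]) (hc : ∀ n, Continuous (a n))
    (h1 : ∀ n g, (2 : ℤ_[2]) ^ n ∣ a (n + 1) g - a n g)
    (h2 : ∀ n g h, (2 : ℤ_[2]) ^ n ∣ a n (g * h) - a n g - a n h) :
    ∃ ρ : G →* Multiplicative ℤ_[2], Continuous ρ ∧
      ∀ n g, (2 : ℤ_[2]) ^ n ∣ (ρ g).toAdd - a n g := by
  have h3 : ∀ g n m, n ≤ m → (2 : ℤ_[2]) ^ n ∣ a m g - a n g := fun g n m hm => by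
    induction m, hm using Nat.le_induction with
    | base => simp
    | succ m hm ih => simpa using ((pow_dvd_pow _ hm).trans (h1 m g)).add ih
  have h4 : ∀ g, CauchySeq fun n => a n g := fun g =>
    cauchySeq_of_le_geometric (1 / 2) 1 (by norm_num) fun n => by
      rw [dist_comm, dist_eq_norm, one_mul]
      exact (lim_dvd_iff _ n).1 (h1 n g)
  choose r hr using fun g => cauchySeq_tendsto_of_complete (h4 g)
  have h5 : ∀ n g, (2 : ℤ_[2]) ^ n ∣ r g - a n g := fun n g =>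
    (lim_closed n).mem_of_tendsto ((hr g).sub_const (a n g))
      (Filter.eventually_atTop.2 ⟨n, h3 g n⟩)
  have h6 : Continuous r := by
    refine TendstoUniformly.continuous (F := a) (p := Filter.atTop)
      (Metric.tendstoUniformly_iff.2 fun ε hε => ?_) (Filter.Frequently.of_forall hc)
    obtain ⟨n, hn⟩ := lim_small hε
    refine Filter.eventually_atTop.2 ⟨n, fun m hm g => ?_⟩
    rw [dist_eq_norm]
    exact hn _ ((pow_dvd_pow _ hm).trans (h5 m g))
  refine ⟨MonoidHom.mk' (fun g => Multiplicative.ofAdd (r g)) fun g h => ?_,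
    continuous_ofAdd.comp h6, h5⟩
  rw [← ofAdd_add]
  congr 1
  refine sub_eq_zero.1 (lim_eq_zero fun n => ?_)
  have := (((h5 n (g * h)).add (h2 n g h)).sub (h5 n g)).sub (h5 n h)
  exact (congrArg (_ ∣ ·) (by ring)).mp this

/-- A closed subgroup that surjects modulo two is everything. -/
theorem surj_of_mod_two {d : ℕ} (S : AddSubgroup (Fin d → ℤ_[2])) 
    (hS : IsClosed (S : Set (Fin d → ℤ_[2])))
    (h : ∀ v : Fin d → ℤ_[2], ∃ s ∈ S, ∀ i, (2 : ℤ_[2]) ∣ v i - s i) : S = ⊤ := by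
  have h1 : ∀ (k : ℕ) (v : Fin d → ℤ_[2]), ∃ s ∈ S, ∀ i, (2 : ℤ_[2]) ^ k ∣ v i - s i := fun k v => by
    induction k with
    | zero => exact ⟨0, S.zero_mem, fun i => by simp⟩
    | succ k ih =>
      obtain ⟨s, hs, h2⟩ := ih
      choose u hu using h2
      obtain ⟨t, ht, h3⟩ := h u
      choose z hz using h3
      refine ⟨s + 2 ^ k • t, S.add_mem hs (S.nsmul_mem ht _), fun i => ⟨z i, ?_⟩⟩
      rw [Pi.add_apply, Pi.smul_apply, nsmul_eq_mul, Nat.cast_pow, Nat.cast_ofNat]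
      linear_combination hu i + 2 ^ k * hz i
  refine eq_top_iff.2 fun v _ => hS.closure_subset (Metric.mem_closure_iff.2 fun ε hε => ?_)
  obtain ⟨n, hn⟩ := lim_small hε
  obtain ⟨s, hs, h2⟩ := h1 n v
  exact ⟨s, hs, (dist_pi_lt_iff hε).2 fun i => by rw [dist_eq_norm]; exact hn _ (h2 i)⟩

theorem exists_half (ρ : G →* Multiplicative ℤ_[2]) (hρ : Continuous ρ)
    (h : ∀ g, (2 : ℤ_[2]) ∣ (ρ g).toAdd) :
    ∃ ρ' : G →* Multiplicative ℤ_[2], Continuous ρ' ∧ ∀ g, (ρ g).toAdd = 2 * (ρ' g).toAdd := by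
  choose f hf using h
  refine ⟨MonoidHom.mk' (fun g => Multiplicative.ofAdd (f g)) fun g h => ?_,
    continuous_ofAdd.comp (lim_cont (continuous_toAdd.comp hρ) two_ne_zero hf), hf⟩
  rw [← ofAdd_add]
  congr 1
  refine mul_left_cancel₀ (two_ne_zero (α := ℤ_[2])) ?_
  rw [← hf, mul_add, ← hf, ← hf, map_mul, toAdd_mul]

theorem exists_scale [CompactSpace G] (ρ : G →* Multiplicative ℤ_[2]) (hρ : Continuous ρ)
    (h : ρ ≠ 1) : ∃ (v : ℕ) (ρ' : G →* Multiplicative ℤ_[2]), Continuous ρ' ∧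
      Function.Surjective ρ' ∧ ∀ g, (ρ g).toAdd = 2 ^ v * (ρ' g).toAdd := by
  obtain ⟨n, g0, hn⟩ : ∃ n g, ¬ (2 : ℤ_[2]) ^ n ∣ (ρ g).toAdd := by
    by_contra! h1
    exact h (MonoidHom.ext fun g => toAdd_eq_zero.1 (lim_eq_zero fun n => h1 n g))
  clear h
  induction n generalizing ρ with
  | zero => simp at hn
  | succ n ih =>
    by_cases h1 : ∀ g, (2 : ℤ_[2]) ∣ (ρ g).toAdd
    · obtain ⟨ρ1, h2, h3⟩ := exists_half ρ hρ h1
      obtain ⟨v, ρ2, h4, h5, h6⟩ := ih ρ1 h2 fun h7 => hn (by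
        rw [h3, pow_succ']; exact mul_dvd_mul_left _ h7)
      exact ⟨v + 1, ρ2, h4, h5, fun g => by rw [h3, h6]; ring⟩
    · obtain ⟨g, hg⟩ := not_forall.1 h1
      have h2 : IsUnit (ρ g).toAdd := by
        by_contra h2
        exact hg (by simpa using (PadicInt.norm_lt_one_iff_dvd _).1 (PadicInt.not_isUnit_iff.1 h2))
      obtain ⟨u, hu⟩ := h2.exists_left_inv
      have h3 : IsClosed (Set.range fun g => (ρ g).toAdd) :=
        (isCompact_range (continuous_toAdd.comp hρ)).isClosed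
      have h4 : ∀ y : ℤ_[2], y * (ρ g).toAdd ∈ Set.range fun g => (ρ g).toAdd := fun y =>
        PadicInt.denseRange_intCast.induction_on y (h3.preimage (continuous_mul_const _))
          fun k => ⟨g ^ k, by simp⟩
      refine ⟨0, ρ, hρ, fun x => ?_, fun g => by simp⟩
      obtain ⟨z, hz⟩ := h4 (x.toAdd * u)
      rw [mul_assoc, hu, mul_one] at hz
      exact ⟨z, Multiplicative.toAdd.injective hz⟩

variable [IsTopologicalGroup G] [CompactSpace G] [TotallyDisconnectedSpace G]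

/-- A closed subgroup is the intersection of its products with open normal subgroups. -/
theorem mem_of_forall_open (H : Subgroup G) (hH : IsClosed (H : Set G)) {g : G}
    (h : ∀ W : Subgroup G, W.Normal → IsOpen (W : Set G) → g ∈ H ⊔ W) : g ∈ H := by
  by_contra hg
  obtain ⟨W, hW⟩ := ProfiniteGrp.exist_openNormalSubgroup_sub_open_nhds_of_one
    (U := (fun x => g * x⁻¹) ⁻¹' (H : Set G)ᶜ) (hH.isOpen_compl.preimage (by fun_prop))
    (by simpa using hg)
  obtain ⟨y, hy, z, hz, rfl⟩ :=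
    Subgroup.mem_sup_of_normal_right.1 (h W.toSubgroup inferInstance W.isOpen)
  exact hW hz (by simpa using hy)

/-- An open set that contains a closed normal subgroup contains an open normal overgroup. -/
theorem exists_open_normal (N : Subgroup G) [N.Normal] (hN : IsClosed (N : Set G)) {O : Set G}
    (hO : IsOpen O) (h : (N : Set G) ⊆ O) :
    ∃ W : Subgroup G, W.Normal ∧ IsOpen (W : Set G) ∧ N ≤ W ∧ (W : Set G) ⊆ O := by
  obtain ⟨V, hV, h1⟩ := compact_open_separated_mul_right hN.isCompact hO h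
  obtain ⟨V', h2, h3, h4⟩ := mem_nhds_iff.1 hV
  obtain ⟨W, hW⟩ := ProfiniteGrp.exist_openNormalSubgroup_sub_open_nhds_of_one h3 h4
  refine ⟨N ⊔ W.toSubgroup, inferInstance, Subgroup.isOpen_mono le_sup_right W.isOpen, le_sup_left,
    fun x hx => ?_⟩
  obtain ⟨y, hy, z, hz, rfl⟩ := Subgroup.mem_sup_of_normal_right.1 hx
  exact h1 (Set.mul_mem_mul hy (h2 (hW hz)))

omit [IsTopologicalGroup G] [CompactSpace G] [TotallyDisconnectedSpace G] in
/-- A proper subgroup of a finite two-group lies in a subgroup of index two. -/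
theorem lim_index {Q : Type} [Group Q] [Finite Q] (hQ : IsPGroup 2 Q) {H : Subgroup Q}
    (h : H ≠ ⊤) : ∃ M : Subgroup Q, H ≤ M ∧ M.index = 2 := by
  classical
  obtain ⟨M, hM, h1⟩ := (eq_top_or_exists_le_coatom H).resolve_left h
  have := hQ.isNilpotent
  have := Subgroup.NormalizerCondition.normal_of_coatom M
    Group.normalizerCondition_of_isNilpotent hM
  refine ⟨M, h1, ?_⟩
  have h2 : Nontrivial (Q ⧸ M) := QuotientGroup.nontrivial_iff.2 hM.1
  obtain ⟨n, hn, h3⟩ := (hQ.to_quotient M).nontrivial_iff_card.1 h2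
  obtain ⟨y, hy⟩ := exists_prime_orderOf_dvd_card' (G := Q ⧸ M) 2 (h3 ▸ dvd_pow_self 2 hn.ne')
  have h4 : (Subgroup.zpowers y).comap (QuotientGroup.mk' M) = ⊤ := by
    refine hM.2 _ (lt_of_le_of_ne (fun x hx => ?_) fun h5 => ?_)
    · rw [Subgroup.mem_comap, QuotientGroup.mk'_apply, (QuotientGroup.eq_one_iff x).2 hx]
      exact one_mem _
    · obtain ⟨x, rfl⟩ := QuotientGroup.mk_surjective y
      have h6 : x ∈ M := h5.ge (Subgroup.mem_zpowers _)
      rw [(QuotientGroup.eq_one_iff x).2 h6, orderOf_one] at hy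
      omega
  have h5 : Subgroup.zpowers y = ⊤ := eq_top_iff.2 fun z _ => by
    obtain ⟨x, rfl⟩ := QuotientGroup.mk_surjective z
    exact h4.ge (Subgroup.mem_top x)
  rw [Subgroup.index, ← hy, ← Nat.card_zpowers, h5, Subgroup.card_top]

/-- A proper closed subgroup that contains `N` is killed by a nontrivial quadratic character. -/
theorem exists_char {N : Subgroup G} [N.Normal] (hG : ProTwo N) (H : Subgroup G) (hN : N ≤ H)
    (hH : IsClosed (H : Set G)) (h : H ≠ ⊤) :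
    ∃ χ : G →* Multiplicative F2, Continuous χ ∧ χ ≠ 1 ∧ ∀ g ∈ H, χ g = 1 := by
  classical
  obtain ⟨g, hg⟩ : ∃ g, g ∉ H := by
    by_contra! h1
    exact h (eq_top_iff.2 fun g _ => h1 g)
  obtain ⟨W, h1, h2, h3⟩ : ∃ W : Subgroup G, W.Normal ∧ IsOpen (W : Set G) ∧ g ∉ H ⊔ W := by
    by_contra! h1
    exact hg (mem_of_forall_open H hH h1)
  have h4 : IsOpen ((N ⊔ W : Subgroup G) : Set G) := Subgroup.isOpen_mono le_sup_right h2
  have := Subgroup.quotient_finite_of_isOpen _ h4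
  have h5 : IsPGroup 2 (G ⧸ (N ⊔ W)) := fun q => by
    obtain ⟨x, rfl⟩ := QuotientGroup.mk_surjective q
    obtain ⟨n, hn⟩ := hG (N ⊔ W) inferInstance h4 le_sup_left x
    exact ⟨n, (QuotientGroup.eq_one_iff _).2 hn⟩
  obtain ⟨M, h6, h7⟩ := lim_index h5 (H := H.map (QuotientGroup.mk' (N ⊔ W))) fun h6 => h3 (by
    have h7 : g ∈ (H.map (QuotientGroup.mk' (N ⊔ W))).comap (QuotientGroup.mk' (N ⊔ W)) :=
      h6.ge (Subgroup.mem_top _)
    rwa [Subgroup.comap_map_eq, QuotientGroup.ker_mk', ← sup_assoc, sup_eq_left.2 hN] at h7)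
  obtain ⟨A, hA⟩ : ∃ A : Subgroup G, A = M.comap (QuotientGroup.mk' (N ⊔ W)) := ⟨_, rfl⟩
  have h8 : A.index = 2 := by
    rw [hA, Subgroup.index_comap_of_surjective _ (QuotientGroup.mk'_surjective _), h7]
  have h9 : IsOpen (A : Set G) := Subgroup.isOpen_mono (fun x hx => by
    rw [hA, Subgroup.mem_comap, QuotientGroup.mk'_apply, (QuotientGroup.eq_one_iff x).2 hx]
    exact one_mem _) h4
  refine ⟨MonoidHom.mk' (fun x => Multiplicative.ofAdd (if x ∈ A then 0 else 1)) fun x y => ?_,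
    ?_, fun h0 => ?_, fun x hx => ?_⟩
  · rw [← ofAdd_add, Subgroup.mul_mem_iff_of_index_two h8]
    by_cases hx : x ∈ A <;> by_cases hy : y ∈ A <;> simp [hx, hy]
    decide
  · refine continuous_of_continuousAt_one _ (continuousAt_const.congr (f := fun _ => 1) ?_)
    filter_upwards [h9.mem_nhds A.one_mem] with x hx
    simp [show x ∈ A from hx]
  · have h10 : A = ⊤ := eq_top_iff.2 fun x _ => by
      by_contra hx
      simpa [hx] using DFunLike.congr_fun h0 x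
    simp [h10] at h8
  · simp [show x ∈ A from hA ▸ h6 (Subgroup.mem_map_of_mem _ hx)]
end

theorem exists_cyc : ∃ ρ : Gam →* Multiplicative ℤ_[2], Continuous ρ ∧
    ∃ g, ¬ (2 : ℤ_[2]) ∣ (ρ g).toAdd := by
  obtain ⟨k, hc, hm, hu, hs⟩ : ∃ k : Gam → ℤ_[2], Continuous k ∧ (∀ g h, k (g * h) = k g * k h) ∧
      (∀ g, IsUnit (k g)) ∧ ∀ (g : Gam) (t : Qbar), t ^ 2 ^ 5 = 1 →
        g t = t ^ (PadicInt.toZModPow 5 (k g)).val :=
    ⟨fun g => ((cyclotomicCharacter Qbar 2).comp (MulSemiringAction.toRingAut Gam Qbar) g).val,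
      Units.continuous_val.comp (cyclotomicCharacter.continuous 2 ℚ Qbar), fun g h => by simp only [map_mul, Units.val_mul],
      fun g => Units.isUnit _, fun g t ht =>
        cyclotomicCharacter.spec 2 (MulSemiringAction.toRingAut Gam Qbar g) t ht⟩
  have h1 : ∀ (n : ℕ) g, ∃ a, k g ^ 2 ^ (n + 1) - 1 = 2 ^ (n + 3) * a := fun n g => by
    induction n with
    | zero =>
      obtain ⟨v, hv⟩ := (hu g).exists_right_inv
      have h2 : ∀ x y : ZMod (2 ^ 3), x * y = 1 → x ^ 2 ^ (0 + 1) - 1 = 0 := by decide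
      refine (lim_toZModPow _ 3).1 ?_
      rw [map_sub, map_pow, map_one]
      exact h2 _ (PadicInt.toZModPow 3 v) (by rw [← map_mul, hv, map_one])
    | succ n ih =>
      obtain ⟨a, ha⟩ := ih
      refine ⟨a + 2 ^ (n + 2) * a ^ 2, ?_⟩
      rw [pow_succ 2 (n + 1), pow_mul, eq_add_of_sub_eq ha]
      ring
  choose a ha using h1
  have h2 : ∀ n : ℕ, (2 : ℤ_[2]) ^ n ≠ 0 := fun n => pow_ne_zero n two_ne_zero
  obtain ⟨ρ, h3, h4⟩ := exists_limit_hom a
    (fun n => lim_cont ((hc.pow _).sub continuous_const) (h2 _) (ha n))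
    (fun n g => ⟨4 * a n g ^ 2, mul_left_cancel₀ (h2 (n + 4)) (by
      rw [mul_sub, ← ha (n + 1) g, pow_succ 2 (n + 1), pow_mul, eq_add_of_sub_eq (ha n g)]
      ring)⟩)
    fun n g h => ⟨8 * a n g * a n h, mul_left_cancel₀ (h2 (n + 3)) (by
      rw [mul_sub, mul_sub, ← ha n (g * h), hm, mul_pow, eq_add_of_sub_eq (ha n g),
        eq_add_of_sub_eq (ha n h)]
      ring)⟩
  have : IsAlgClosure ℚ Qbar := AlgebraicClosure.instIsAlgClosure ℚ
  obtain ⟨ζ, hζ⟩ := HasEnoughRootsOfUnity.exists_primitiveRoot Qbar (2 ^ 5)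
  obtain ⟨g, hg⟩ : ∃ g : Gam, g ζ = ζ ^ 3 := (show IsConjRoot ℚ (ζ ^ 3) ζ by
    rw [IsConjRoot, ← Polynomial.cyclotomic_eq_minpoly_rat hζ (by norm_num),
      ← Polynomial.cyclotomic_eq_minpoly_rat (hζ.pow_of_coprime 3 (by norm_num))
        (by norm_num)]).exists_algEquiv
  refine ⟨ρ, h3, g, fun h5 => ?_⟩
  have h6 := hζ.pow_inj (by norm_num) (ZMod.val_lt _) (hg.symm.trans (hs g ζ hζ.pow_eq_one))
  have h7 : PadicInt.toZModPow 5 (k g) = 3 := by
    rw [← ZMod.natCast_zmod_val (PadicInt.toZModPow 5 (k g)), ← h6]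
    rfl
  obtain ⟨b, hb⟩ : (2 : ℤ_[2]) ∣ a 1 g := by
    have h9 := h5.sub (pow_one (2 : ℤ_[2]) ▸ h4 1 g)
    rwa [sub_sub_cancel] at h9
  have h8 := (lim_toZModPow (k g ^ 2 ^ (1 + 1) - 1) 5).2 ⟨b, by rw [ha, hb]; ring⟩
  rw [map_sub, map_pow, map_one, h7] at h8
  exact absurd h8 (by decide)

end Pool.Agent.Lib.MP_f8d36e_nt
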