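import Pool.Agent.Lib.MP_f8d36e_nt.Primes
import Pool.Agent.Lib.MP_f8d36e_nt.Lim

/-! Job A5: the groups that occur in the statement. -/

set_option autoImplicit false

open scoped Pointwise

namespace Pool.Agent.Lib.MP_f8d36e_nt

variable {H : Subgroup Gam}

theorem groups_mem_tilde {g : Gam} : g ∈ tildeGal 2 H ↔ ∃ hg : g ∈ H,
    ∀ ρ : H →* Multiplicative ℤ_[2], Continuous ρ → Function.Surjective ρ → ρ ⟨g, hg⟩ = 1 := by
  unfold tildeGal
  rw [Subgroup.mem_inf, Subgroup.mem_sInf]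
  constructor
  · rintro ⟨hg, h⟩
    refine ⟨hg, fun ρ hc hs => ?_⟩
    obtain ⟨x, hx, rfl⟩ := h _ ⟨ρ, hc, hs, rfl⟩
    exact hx
  · rintro ⟨hg, h⟩
    refine ⟨hg, ?_⟩
    rintro _ ⟨ρ, hc, hs, rfl⟩
    exact ⟨⟨g, hg⟩, h ρ hc hs, rfl⟩

theorem groups_mem_split {g : Gam} : g ∈ splitGal 2 H ↔
    g ∈ H ∧ ∀ U : Subgroup Gam, IsSplitLayer 2 H U → g ∈ U := by
  unfold splitGal
  rw [Subgroup.mem_inf, Subgroup.mem_iInf]
  exact ⟨fun h => ⟨h.1, fun U hU => h.2 ⟨U, hU⟩⟩, fun h => ⟨h.1, fun U => h.2 U.1 U.2⟩⟩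

theorem groups_cont_conj [H.Normal] (c : Gam) : Continuous (MulAut.conjNormal c : H → H) := by
  refine continuous_induced_rng.2 ?_
  have : (Subtype.val ∘ (MulAut.conjNormal c : H → H)) = fun x : H => c * (x : Gam) * c⁻¹ := by
    funext x
    exact MulAut.conjNormal_apply c x
  rw [this]
  exact (continuous_const.mul continuous_subtype_val).mul continuous_const

theorem tilde_le : tildeGal 2 H ≤ H := inf_le_left

theorem tilde_normal [H.Normal] : (tildeGal 2 H).Normal := by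
  refine ⟨fun g hg c => ?_⟩
  obtain ⟨hg, h⟩ := groups_mem_tilde.1 hg
  refine groups_mem_tilde.2 ⟨‹H.Normal›.conj_mem g hg c, fun ρ hc hs => ?_⟩
  have h1 := h (ρ.comp (MulAut.conjNormal c : MulAut H).toMonoidHom)
    (hc.comp (groups_cont_conj c)) (hs.comp (MulAut.conjNormal c : MulAut H).surjective)
  have h2 : (MulAut.conjNormal c : MulAut H) ⟨g, hg⟩ =
      ⟨c * g * c⁻¹, ‹H.Normal›.conj_mem g hg c⟩ := Subtype.ext (MulAut.conjNormal_apply c _)
  rw [← h2]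
  exact h1

theorem tilde_closed (hH : IsClosed (H : Set Gam)) : IsClosed (tildeGal 2 H : Set Gam) := by
  unfold tildeGal
  rw [Subgroup.coe_inf, Subgroup.coe_sInf]
  refine hH.inter (isClosed_biInter ?_)
  rintro _ ⟨ρ, hc, -, rfl⟩
  rw [Subgroup.coe_map]
  exact hH.isClosedEmbedding_subtypeVal.isClosedMap _ (isClosed_singleton.preimage hc)

theorem mem_tilde (hH : IsClosed (H : Set Gam)) (g : H) : (g : Gam) ∈ tildeGal 2 H ↔
    ∀ ρ : H →* Multiplicative ℤ_[2], Continuous ρ → ρ g = 1 := by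
  haveI : CompactSpace H := isCompact_iff_compactSpace.1 hH.isCompact
  rw [groups_mem_tilde]
  constructor
  · rintro ⟨_, h⟩ ρ hc
    by_cases h1 : ρ = 1
    · rw [h1]; rfl
    · obtain ⟨v, ρ', hc', hs', he⟩ := exists_scale ρ hc h1
      have h2 : ρ' g = 1 := h ρ' hc' hs'
      have h3 := he g
      rw [h2, toAdd_one, mul_zero] at h3
      exact toAdd_eq_zero.1 h3
  · intro h
    exact ⟨g.2, fun ρ hc _ => h ρ hc⟩

theorem split_le : splitGal 2 H ≤ H := inf_le_left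

theorem groups_smul_max (c : Gam) (P : Ideal Zbar) (hP : P.IsMaximal) : (c • P).IsMaximal := by
  rw [Ideal.pointwise_smul_eq_comap]
  exact Ideal.comap_isMaximal_of_surjective _ (RingEquiv.surjective _)

theorem groups_layer_conj [hn : H.Normal] {U : Subgroup Gam} (hU : IsSplitLayer 2 H U) (c : Gam) :
    IsSplitLayer 2 H (U.comap (MulAut.conj c : MulAut Gam).toMonoidHom) where
  le := fun x hx => by
    have h1 : c * x * c⁻¹ ∈ H := hU.le hx
    have h2 := hn.conj_mem _ h1 c⁻¹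
    simpa [mul_assoc] using h2
  isOpen := by
    have h1 := hU.isOpen.preimage (groups_cont_conj (H := H) c)
    have h2 : ((U.comap (MulAut.conj c : MulAut Gam).toMonoidHom).subgroupOf H : Set H) =
        (MulAut.conjNormal c : H → H) ⁻¹' (U.subgroupOf H : Set H) := by
      ext x
      change c * (x : Gam) * c⁻¹ ∈ U ↔ ((MulAut.conjNormal c x : H) : Gam) ∈ U
      rw [MulAut.conjNormal_apply]
    rw [h2]
    exact h1
  comm := fun a ha b hb => by
    have h1 := hU.comm _ (hn.conj_mem a ha c) _ (hn.conj_mem b hb c)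
    change c * (a * b * a⁻¹ * b⁻¹) * c⁻¹ ∈ U
    have h2 : c * (a * b * a⁻¹ * b⁻¹) * c⁻¹ =
        c * a * c⁻¹ * (c * b * c⁻¹) * (c * a * c⁻¹)⁻¹ * (c * b * c⁻¹)⁻¹ := by group
    rw [h2]
    exact h1
  index := by
    obtain ⟨n, h⟩ := hU.index
    refine ⟨n, ?_⟩
    rw [Subgroup.relIndex_comap, ← h]
    exact congrArg _ (Subgroup.Normal.map_conj_eq H c)
  unram := fun P hP x hx => by
    change c * x * c⁻¹ ∈ U
    refine hU.unram (c • P) (groups_smul_max c P hP) ⟨fun y => ?_, hn.conj_mem x hx.2 c⟩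
    have h1 : x • (c⁻¹ • y) - c⁻¹ • y ∈ P := hx.1 (c⁻¹ • y)
    change (c * x * c⁻¹) • y - y ∈ c • P
    rw [Ideal.mem_pointwise_smul_iff_inv_smul_mem, smul_sub, mul_smul, mul_smul, inv_smul_smul]
    exact h1
  split := fun P hP h2 x hx => by
    change c * x * c⁻¹ ∈ U
    refine hU.split (c • P) (groups_smul_max c P hP) ?_ ⟨?_, hn.conj_mem x hx.2 c⟩
    · have h1 := Ideal.smul_mem_pointwise_smul c _ P h2
      have h3 : c • ((2 : ℕ) : Zbar) = ((2 : ℕ) : Zbar) :=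
        map_natCast (MulSemiringAction.toRingHom Gam Zbar c) 2
      rwa [h3] at h1
    · have h1 : x • P = P := hx.1
      change (c * x * c⁻¹) • c • P = c • P
      rw [mul_smul, mul_smul, inv_smul_smul, h1]
  real := fun j x hj hx => by
    change c * x * c⁻¹ ∈ U
    refine hU.real (j.comp (c⁻¹ : Gam).toRingEquiv.toRingHom) _ (fun y => ?_) (hn.conj_mem x hx c)
    have h1 := hj (c⁻¹ y)
    change j (c⁻¹ (c (x (c⁻¹ y)))) = star (j (c⁻¹ y))
    rw [← h1]
    congr 1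
    exact c.symm_apply_apply _

theorem split_normal [H.Normal] : (splitGal 2 H).Normal := by
  refine ⟨fun g hg c => ?_⟩
  obtain ⟨hg, h⟩ := groups_mem_split.1 hg
  exact groups_mem_split.2 ⟨‹H.Normal›.conj_mem g hg c, fun U hU => h _ (groups_layer_conj hU c)⟩

theorem split_closed (hH : IsClosed (H : Set Gam)) : IsClosed (splitGal 2 H : Set Gam) := by
  unfold splitGal
  rw [Subgroup.coe_inf, Subgroup.coe_iInf]
  refine hH.inter (isClosed_iInter fun U => ?_)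
  have h0 : IsClosed (U.1.subgroupOf H : Set H) := Subgroup.isClosed_of_isOpen _ U.2.isOpen
  have h1 := hH.isClosedEmbedding_subtypeVal.isClosedMap _ h0
  have h2 : (U.1 : Set Gam) = Subtype.val '' (U.1.subgroupOf H : Set H) := by
    ext x
    exact ⟨fun hx => ⟨⟨x, U.2.le hx⟩, hx, rfl⟩, fun ⟨y, hy, e⟩ => e ▸ hy⟩
  rw [h2]
  exact h1

theorem split_comm : ∀ a ∈ H, ∀ b ∈ H, a * b * a⁻¹ * b⁻¹ ∈ splitGal 2 H := fun a ha b hb =>
  groups_mem_split.2 ⟨H.mul_mem (H.mul_mem (H.mul_mem ha hb) (H.inv_mem ha)) (H.inv_mem hb),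
    fun _ hU => hU.comm a ha b hb⟩

theorem split_unram (P : Ideal Zbar) (hP : P.IsMaximal) :
    P.inertia Gam ⊓ H ≤ splitGal 2 H := fun _ hx =>
  groups_mem_split.2 ⟨hx.2, fun _ hU => hU.unram P hP hx⟩

theorem split_split (P : Ideal Zbar) (hP : P.IsMaximal) (h : (2 : Zbar) ∈ P) :
    MulAction.stabilizer Gam P ⊓ H ≤ splitGal 2 H := fun _ hx =>
  groups_mem_split.2 ⟨hx.2, fun _ hU => hU.split P hP (by exact_mod_cast h) hx⟩

theorem split_real (j : Qbar →+* ℂ) (c : Gam) (hj : ∀ x : Qbar, j (c x) = star (j x))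
    (hc : c ∈ H) : c ∈ splitGal 2 H :=
  groups_mem_split.2 ⟨hc, fun _ hU => hU.real j c hj hc⟩

theorem groups_cluster {Y : Type} [TopologicalSpace Y] [CompactSpace Y] (x : ℕ → Y) :
    ∃ y, MapClusterPt y Filter.atTop x :=
  exists_clusterPt_of_compactSpace (Filter.map x Filter.atTop)

theorem groups_tendsto (a : ℤ_[2]) :
    Filter.Tendsto (fun n : ℕ => (2 ^ n : ℕ) • a) Filter.atTop (nhds 0) := by
  have h1 : ‖(2 : ℤ_[2])‖ < 1 := by
    have h := PadicInt.norm_p (p := 2)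
    rw [Nat.cast_ofNat] at h
    rw [h]
    norm_num
  have h2 := (tendsto_pow_atTop_nhds_zero_of_norm_lt_one h1).mul_const a
  rw [zero_mul] at h2
  refine h2.congr fun n => ?_
  rw [nsmul_eq_mul, Nat.cast_pow, Nat.cast_ofNat]

theorem groups_step_tilde (hH : IsClosed (H : Set Gam)) (W : Subgroup Gam)
    (ho : IsOpen (W : Set Gam)) (x : H) :
    ∃ n : ℕ, ∃ y ∈ tildeGal 2 H, y⁻¹ * (x : Gam) ^ 2 ^ n ∈ W := by
  haveI : CompactSpace H := isCompact_iff_compactSpace.1 hH.isCompact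
  obtain ⟨y, hy⟩ := groups_cluster fun n : ℕ => x ^ 2 ^ n
  have h1 : (y : Gam) ∈ tildeGal 2 H := by
    refine (mem_tilde hH y).2 fun ρ hc => ?_
    have hc' : Continuous fun g : H => (ρ g).toAdd := continuous_toAdd.comp hc
    have h2 := hy.continuousAt_comp hc'.continuousAt
    have h3 : Filter.Tendsto ((fun g : H => (ρ g).toAdd) ∘ fun n : ℕ => x ^ 2 ^ n) Filter.atTop
        (nhds 0) := by
      refine (groups_tendsto (ρ x).toAdd).congr fun n => ?_
      rw [Function.comp_apply, map_pow, toAdd_pow]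
    exact toAdd_eq_zero.1 (eq_of_nhds_neBot (ClusterPt.mono h2 h3))
  have h4 : {g : H | (y : Gam)⁻¹ * (g : Gam) ∈ W} ∈ nhds y := by
    refine IsOpen.mem_nhds (ho.preimage (continuous_const.mul continuous_subtype_val)) ?_
    change (y : Gam)⁻¹ * (y : Gam) ∈ W
    rw [inv_mul_cancel]
    exact W.one_mem
  obtain ⟨n, hn⟩ := (hy.frequently h4).exists
  exact ⟨n, y, h1, hn⟩

theorem groups_step_split (hH : IsClosed (H : Set Gam)) (W : Subgroup Gam)
    (ho : IsOpen (W : Set Gam)) (hW : splitGal 2 H ≤ W) (x : H) :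
    ∃ n : ℕ, (x : Gam) ^ 2 ^ n ∈ W := by
  haveI : CompactSpace H := isCompact_iff_compactSpace.1 hH.isCompact
  obtain ⟨y, hy⟩ := groups_cluster fun n : ℕ => x ^ 2 ^ n
  have h1 : (y : Gam) ∈ splitGal 2 H := by
    refine groups_mem_split.2 ⟨y.2, fun U hU => ?_⟩
    haveI : (U.subgroupOf H).Normal := ⟨fun u hu c => by
      have h2 := U.mul_mem (hU.comm c c.2 u u.2) (show (u : Gam) ∈ U from hu)
      rw [inv_mul_cancel_right] at h2
      exact h2⟩
    obtain ⟨k, hk⟩ := hU.index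
    have h3 : ∀ᶠ n : ℕ in Filter.atTop, x ^ 2 ^ n ∈ (U.subgroupOf H : Set H) := by
      refine Filter.eventually_atTop.2 ⟨k, fun n hn => ?_⟩
      obtain ⟨m, rfl⟩ := Nat.exists_eq_add_of_le hn
      rw [pow_add, pow_mul, ← hk]
      exact (U.subgroupOf H).pow_mem ((U.subgroupOf H).pow_index_mem x) _
    exact (Subgroup.isClosed_of_isOpen _ hU.isOpen).mem_of_mapClusterPt hy h3
  have h4 : {g : H | (g : Gam) ∈ W} ∈ nhds y :=
    IsOpen.mem_nhds (ho.preimage continuous_subtype_val) (hW h1)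
  obtain ⟨n, hn⟩ := (hy.frequently h4).exists
  exact ⟨n, hn⟩

theorem pro_two (hi : H.index = 2) (ho : IsOpen (H : Set Gam)) :
    ProTwo (splitGal 2 (tildeGal 2 H)) := by
  intro W hn hW hle g
  have hH := Subgroup.isClosed_of_isOpen H ho
  obtain ⟨n, y, hy, h1⟩ := groups_step_tilde hH W hW ⟨g ^ 2, Subgroup.sq_mem_of_index_two hi g⟩
  obtain ⟨m, h2⟩ := groups_step_split (tilde_closed hH) W hW hle ⟨y, hy⟩
  refine ⟨1 + n + m, ?_⟩
  have h3 : (QuotientGroup.mk y : Gam ⧸ W) = QuotientGroup.mk ((g ^ 2) ^ 2 ^ n) :=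
    QuotientGroup.eq.2 h1
  have h4 : (QuotientGroup.mk (y ^ 2 ^ m) : Gam ⧸ W) = 1 := (QuotientGroup.eq_one_iff _).2 h2
  rw [QuotientGroup.mk_pow, h3, ← QuotientGroup.mk_pow, QuotientGroup.eq_one_iff] at h4
  rw [pow_add, pow_add, pow_one, pow_mul, pow_mul]
  exact h4

/-- The elements of `H` on which `ρ` is small. -/
def groups_ball (ρ : H →* Multiplicative ℤ_[2]) {ε : ℝ} (hε : 0 < ε) : Subgroup H where
  carrier := {g | ‖(ρ g).toAdd‖ < ε}
  one_mem' := by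
    change ‖(ρ 1).toAdd‖ < ε
    rw [map_one, toAdd_one, norm_zero]
    exact hε
  mul_mem' := fun {a b} ha hb => by
    change ‖(ρ (a * b)).toAdd‖ < ε
    rw [map_mul, toAdd_mul]
    exact (PadicInt.nonarchimedean _ _).trans_lt (max_lt ha hb)
  inv_mem' := fun {a} ha => by
    change ‖(ρ a⁻¹).toAdd‖ < ε
    rw [map_inv, toAdd_inv, norm_neg]
    exact ha

theorem groups_core (hi : H.index = 2) (ho : IsOpen (H : Set Gam))
    (ρ : H →* Multiplicative ℤ_[2]) (hc : Continuous ρ) {ε : ℝ} (hε : 0 < ε) :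
    ∃ W : Subgroup Gam, W.Normal ∧ IsOpen (W : Set Gam) ∧ (∀ g : Gam, ∃ n : ℕ, g ^ 2 ^ n ∈ W) ∧
      ∀ g : H, (g : Gam) ∈ W → ‖(ρ g).toAdd‖ < ε := by
  have hV : IsOpen (((groups_ball ρ hε).map H.subtype : Subgroup Gam) : Set Gam) := by
    rw [Subgroup.coe_map]
    exact ho.isOpenEmbedding_subtypeVal.isOpenMap _
      (isOpen_lt (continuous_toAdd.comp hc).norm continuous_const)
  haveI := Subgroup.quotient_finite_of_isOpen _ hV
  haveI : ((groups_ball ρ hε).map H.subtype).FiniteIndex := Subgroup.finiteIndex_of_finite_quotient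
  refine ⟨((groups_ball ρ hε).map H.subtype).normalCore, inferInstance,
    Subgroup.isOpen_of_isClosed_of_finiteIndex _
      (Subgroup.normalCore_isClosed _ (Subgroup.isClosed_of_isOpen _ hV)), fun g => ?_,
    fun g hg => ?_⟩
  · obtain ⟨k, hk⟩ := (((groups_tendsto 1).norm).eventually
      (gt_mem_nhds (by rw [norm_zero]; exact hε))).exists
    refine ⟨k + 1, fun c => ⟨(⟨(c * g * c⁻¹) ^ 2, Subgroup.sq_mem_of_index_two hi _⟩ : H) ^ 2 ^ k,
      ?_, ?_⟩⟩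
    · change ‖(ρ _).toAdd‖ < ε
      rw [map_pow, toAdd_pow, nsmul_eq_mul, norm_mul]
      rw [nsmul_eq_mul, mul_one] at hk
      exact (mul_le_of_le_one_right (norm_nonneg _) (PadicInt.norm_le_one _)).trans_lt hk
    · change ((c * g * c⁻¹) ^ 2) ^ 2 ^ k = c * g ^ 2 ^ (k + 1) * c⁻¹
      rw [← pow_mul, conj_pow, pow_succ']
  · obtain ⟨x, hx, e⟩ := Subgroup.normalCore_le _ hg
    have h1 : x = g := Subtype.ext e
    rw [← h1]
    exact hx

theorem groups_coe (W : Subgroup Gam) (a b : H) (l : ℕ)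
    (h : (a : Gam) * b * (a : Gam)⁻¹ * ((b : Gam) ^ l)⁻¹ ∈ W) :
    ((a * b * a⁻¹ * (b ^ l)⁻¹ : H) : Gam) ∈ W := by
  rw [Subgroup.coe_mul, Subgroup.coe_mul, Subgroup.coe_mul, Subgroup.coe_inv, Subgroup.coe_inv,
    Subgroup.coe_pow]
  exact h

theorem groups_val (ρ : H →* Multiplicative ℤ_[2]) (a b : H) (l : ℕ) :
    (ρ (a * b * a⁻¹ * (b ^ l)⁻¹)).toAdd = (1 - (l : ℤ_[2])) * (ρ b).toAdd := by
  rw [ρ.map_mul, ρ.map_mul, ρ.map_mul, ρ.map_inv, ρ.map_inv, ρ.map_pow, toAdd_mul, toAdd_mul,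
    toAdd_mul, toAdd_inv, toAdd_inv, toAdd_pow, nsmul_eq_mul]
  ring

theorem unram_odd (hi : H.index = 2) (ho : IsOpen (H : Set Gam)) (P : Ideal Zbar)
    (hP : P.IsMaximal) (h : (2 : Zbar) ∉ P) :
    P.inertia Gam ⊓ H ≤ splitGal 2 (tildeGal 2 H) := by
  intro t ht
  refine split_unram P hP ⟨ht.1, ?_⟩
  refine (mem_tilde (Subgroup.isClosed_of_isOpen H ho) ⟨t, ht.2⟩).2 fun ρ hc => ?_
  obtain ⟨p, hp, hpP⟩ := exists_prime_mem P hP
  obtain ⟨φ, -, hφ⟩ := exists_frob hp P hP hpP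
  have h1 : ∀ x : Zbar, (φ ^ 2) • x - x ^ p ^ 2 ∈ P := fun x => by
    have h2 := hφ (φ • x)
    have h3 : (φ • x) ^ p - (x ^ p) ^ p ∈ P :=
      Ideal.mem_of_dvd P (sub_dvd_pow_sub_pow _ _ p) (hφ x)
    have h4 := P.add_mem h2 h3
    rw [sub_add_sub_cancel, ← pow_mul, ← mul_smul, ← pow_two, ← pow_two] at h4
    exact h4
  have h8 : (1 - (p ^ 2 : ℕ) : ℤ_[2]) * (ρ ⟨t, ht.2⟩).toAdd = 0 := by
    by_contra h9
    obtain ⟨W, hn, hW, hpow, hsm⟩ := groups_core hi ho ρ hc (norm_pos_iff.2 h9)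
    have h6 := tame_gam W hW hpow P hP h (pow_pos hp.pos 2) h1 ht.1
    have h7 := hsm _ (groups_coe W ⟨φ ^ 2, Subgroup.sq_mem_of_index_two hi φ⟩ ⟨t, ht.2⟩ _ h6)
    rw [groups_val] at h7
    exact lt_irrefl _ h7
  have h10 : (1 - (p ^ 2 : ℕ) : ℤ_[2]) ≠ 0 := by
    rw [sub_ne_zero]
    intro h11
    have h12 : 1 = p ^ 2 := by exact_mod_cast h11
    exact (Nat.one_lt_pow two_ne_zero hp.one_lt).ne h12
  exact toAdd_eq_zero.1 ((mul_eq_zero.1 h8).resolve_left h10)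

end Pool.Agent.Lib.MP_f8d36e_nt
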