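import Pool.Agent.Lib.MP_f8d36e_nt.Quad
import Pool.Agent.Lib.MP_f8d36e_nt.Groups
import Pool.Agent.Lib.MP_696deb_nt.B2.CF
import Pool.Agent.Lib.MP_696deb_nt.B2.CH2
import Pool.Agent.Lib.MP_696deb_nt.B2.B3c
import Pool.Agent.Lib.MP_696deb_nt.B2.B4c

/-! An imaginary quadratic field has at most two independent two-adic towers. -/

set_option autoImplicit false

open scoped NNReal Classical IntermediateField
open Finset Matrix

namespace Pool.Agent.Lib.MP_f8d36e_nt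

open Pool.Agent.Lib.MP_696deb_nt
open B2 (Plc GK rt Fx Dec Ine IsFrob Away Sm IsHom cc)

variable {m : ℕ}

theorem rank_mem {θ : Qbar} (hθ : θ ^ 2 = -(m : Qbar)) (h0 : 0 < m) :
    ℚ⟮θ⟯.fixingSubgroup = GK m := by
  have e : θ ^ 2 = ((-(m : ℤ) : ℤ) : Qbar) := by simpa using hθ
  have n := quad_ne_zero (by omega) e
  ext g
  rw [mem_fixing, B2.B4c_mem, B2.chi_spec e g]
  rcases Int.units_eq_one_or (B2.chi (-m) g) with h | h
  · simp [h]
  · simpa [h] using quad_neg_ne n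

theorem rank_sq : rt (-m) ^ 2 = -(m : Qbar) := by simpa using B2.rt_sq (-m)

theorem rank_cc (h0 : 0 < m) : cc (rt (-m)) = -rt (-m) :=
  (B2.rt_or _ _).resolve_left fun h => B2.cc_notMem h0 (B2.chi_eq_one.2 h)

/-- Coordinates of an integer of the field. -/
theorem rank_coord (hm : Squarefree m) {z : Qbar} (hz : Fx (GK m) z) (hi : IsIntegral ℤ z) :
    ∃ X Y : ℤ, 2 * z = X + Y * rt (-m) := by
  have h0 : 0 < m := Nat.pos_of_ne_zero hm.ne_zero
  obtain ⟨a, b, e⟩ := B2.fx_GK h0 hz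
  have e' : cc z = a - b * rt (-m) := by
    rw [e, map_add, map_mul, map_ratCast, map_ratCast, rank_cc h0]
    ring
  obtain ⟨X, hX⟩ := quad_int (z := z + cc z) (hi.add (hi.map cc.toAlgHom.toRingHom.toIntAlgHom))
    fun g => by
      rw [e', e, show (a : Qbar) + b * rt (-m) + (a - b * rt (-m)) = (2 * a : ℚ) by push_cast; ring,
        map_ratCast]
  obtain ⟨k, -, -, -, hk⟩ := quad_struct (d := -m) (by rw [← Int.squarefree_natAbs]; simpa using hm)
    (by omega) (B2.rt_sq _) ⟨z, hi⟩ fun g hg => Subtype.ext (hz g (rank_mem rank_sq h0 ▸ hg))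
  rcases hk cc with h | h
  · have h1 : cc z - z = 0 := congrArg Subtype.val h
    exact ⟨X, 0, by rw [hX]; push_cast; linear_combination -h1⟩
  · have h1 : cc z - z = k * rt (-m) := by simpa [quadX] using congrArg Subtype.val h
    exact ⟨X, -k, by rw [hX]; push_cast; linear_combination -h1⟩

theorem rank_unit (hm : Squarefree m) (h4 : 4 < m) {z : Qbar} (hz : Fx (GK m) z)
    (h : ∀ v : Plc, v.V z = 1) : z = 1 ∨ z = -1 := by
  obtain ⟨X, Y, e⟩ := rank_coord hm hz (B2.isIntegral_of_V fun v => (h v).le)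
  have e' : 2 * cc z = X - Y * rt (-m) := by
    have := congrArg cc e
    rw [map_mul, map_ofNat, map_add, map_mul, map_intCast, map_intCast, rank_cc (by omega)] at this
    linear_combination this
  have n : z * cc z = (((X ^ 2 + m * Y ^ 2 : ℤ) : ℚ) / 4 : ℚ) := by
    push_cast
    linear_combination (cc z / 2) * e + ((X + Y * rt (-m)) / 4) * e' - (Y : Qbar) ^ 2 / 4 * rank_sq
  have h1 : ∀ v : Plc, v.V (z * cc z) = 1 := fun v => by
    have := h (cc⁻¹ • v)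
    rw [B2.smul_V, inv_inv] at this
    rw [map_mul, h, this, mul_one]
  obtain ⟨s, hs⟩ := quad_int (z := z * cc z) (B2.isIntegral_of_V fun v => (h1 v).le)
    fun g => by rw [n, map_ratCast]
  obtain ⟨t, ht⟩ := quad_int (z := (z * cc z)⁻¹)
    (B2.isIntegral_of_V fun v => by rw [map_inv₀, h1, inv_one]) fun g => by
      rw [map_inv₀, n, map_ratCast]
  obtain ⟨v, -⟩ := B2.exists_plc Nat.prime_two
  have h2 : s * t = 1 := by
    have : (s : Qbar) * t = 1 := by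
      rw [hs, ht]
      exact mul_inv_cancel₀ fun k => by simpa [k] using h1 v
    exact_mod_cast this
  have h3 : 4 * s = X ^ 2 + m * Y ^ 2 := by
    rw [← hs] at n
    have : (4 : Qbar) * s = ((X ^ 2 + m * Y ^ 2 : ℤ) : Qbar) := by
      rw [n]
      push_cast
      ring
    exact_mod_cast this
  have h5 : (5 : ℤ) ≤ m := by omega
  have h6 : s = 1 := by
    rcases Int.eq_one_or_neg_one_of_mul_eq_one h2 with k | k
    · exact k
    · nlinarith [sq_nonneg X, sq_nonneg Y]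
  have h7 : Y = 0 := by
    by_contra k
    nlinarith [sq_nonneg X, Int.one_le_abs k, sq_abs Y]
  have h8 : X ^ 2 = 2 ^ 2 := by rw [h6, h7] at h3; linarith
  rw [h7] at e
  refine (sq_eq_sq_iff_eq_or_eq_neg.1 h8).imp (fun k => ?_) fun k => ?_ <;> rw [k] at e <;>
    push_cast at e <;> linear_combination e / 2

/-- A power of every prime ideal is principal. -/
theorem rank_gen (hm : Squarefree m) (h4 : 4 < m) (w : Plc) (hI : Ine w ≤ GK m) :
    ∃ (b : Qbar) (k : ℤ), k ≠ 0 ∧ b ≠ 0 ∧ Fx (GK m) b ∧ IsIntegral ℤ b ∧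
      w.V b = ((w.p : ℝ≥0) ^ k)⁻¹ ∧ ∀ v, Away (GK m) {w} v → v.V b = 1 := by
  have hs := B2.su (GK m) {w} (B2.op_GK m) (B2.tc_of_le (q := m) (by omega) le_rfl) (by
    intro v hv v' hv' _ _ _
    rw [mem_singleton.1 hv, mem_singleton.1 hv'])
  rw [B2.index_GK (by omega), card_singleton] at hs
  obtain ⟨a, ha, hi⟩ : ∃ a : Fin 2 → Qbar, (∀ i, a i ≠ 0 ∧ Fx (GK m) (a i) ∧
      ∀ v, Away (GK m) {w} v → v.V (a i) = 1) ∧
      ∀ t : Finset (Fin 2), (∃ b, Fx (GK m) b ∧ ∏ i ∈ t, a i = b ^ 2) → t = ∅ := hs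
  have all : ∀ b, Fx (GK m) b → (∀ v, Away (GK m) {w} v → v.V b = 1) →
      ∀ v : Plc, v.V b = 1 ∨ v.V b = w.V b := fun b h1 h2 v => by
    by_cases h : Away (GK m) {w} v
    · exact .inl (h2 v h)
    simp only [Away, mem_singleton, forall_eq, not_forall, not_not] at h
    obtain ⟨g, hg, rfl⟩ := h
    exact .inr (by rw [B2.smul_V, h1 _ (inv_mem hg)])
  have one : Fx (GK m) 1 := fun g _ => map_one g
  obtain ⟨i, hi'⟩ : ∃ i, w.V (a i) ≠ 1 := by
    by_contra! k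
    have u := fun i => rank_unit hm h4 (ha i).2.1 fun v =>
      (all _ (ha i).2.1 (ha i).2.2 v).elim id fun e => e.trans (k i)
    have u' : ∀ i, a i = -1 := fun i => (u i).resolve_left fun e =>
      singleton_ne_empty i (hi {i} ⟨1, one, by simp [e]⟩)
    exact absurd (hi univ ⟨1, one, by simp [u']⟩) (by decide)
  obtain ⟨b, b0, b1, b2, b3⟩ : ∃ b, b ≠ 0 ∧ Fx (GK m) b ∧ w.V b < 1 ∧
      ∀ v, Away (GK m) {w} v → v.V b = 1 := by
    rcases hi'.lt_or_gt with h | h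
    · exact ⟨a i, (ha i).1, (ha i).2.1, h, (ha i).2.2⟩
    · exact ⟨(a i)⁻¹, inv_ne_zero (ha i).1, fun g hg => by rw [map_inv₀, (ha i).2.1 g hg],
        by rw [map_inv₀]; exact inv_lt_one_of_one_lt₀ h,
        fun v hv => by rw [map_inv₀, (ha i).2.2 v hv, inv_one]⟩
  obtain ⟨k, hk⟩ := B2.V_of_fx_ine (w := w) (fun g hg => b1 g (hI hg)) b0
  exact ⟨b, k, fun e => b2.ne (by simpa [e] using hk), b0, b1, B2.isIntegral_of_V fun v =>
    (all b b1 b3 v).elim le_of_eq fun e => e.trans_le b2.le, hk, b3⟩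

/-- The reciprocity law for a number that is close to one at two. -/
theorem rank_rel (h0 : 0 < m) {r : ℕ} {χ : Gam → ZMod (2 ^ r)} (h1 : Sm (GK m) χ)
    (h2 : IsHom (GK m) χ) (h3 : ∀ v : Plc, v.p ≠ 2 → ∀ σ ∈ GK m ⊓ Ine v, χ σ = 0)
    {w : Fin 3 → Plc} (hw : Function.Injective fun i => (w i).p)
    (hp : ∀ i, ¬ ((w i).p : ℤ) ∣ 2 * -m) {φ : Fin 3 → Gam} (hφ : ∀ i, IsFrob (w i) (w i).p (φ i))
    (hφ' : ∀ i, φ i ∈ GK m) {A : Qbar} (a0 : A ≠ 0) (a1 : Fx (GK m) A) {k : Fin 3 → ℤ}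
    (a2 : ∀ i, (w i).V A = (((w i).p : ℝ≥0) ^ k i)⁻¹)
    (a3 : ∀ v, (∀ i, Away (GK m) {w i} v) → v.V A = 1)
    (a4 : ∀ v : Plc, v.p = 2 → v.V (A - 1) < v.V (2 ^ (r + 1))) : ∑ i, χ (φ i) * k i = 0 := by
  obtain ⟨F⟩ := B2.exists_cft
  obtain ⟨κ, hκ⟩ := B2.exists_kum r a0 a1
  have o := B2.op_GK m
  have hom : ∀ v : Plc, IsHom (GK m ⊓ Dec v) χ := fun v g hg h hh => h2 g hg.1 h hh.1
  have := F.recip (univ.image w) o (B2.c2_cup h1 h2 hκ.sm hκ.coc)
    (.inl (B2.tc_of_le h0 le_rfl)) (by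
      simp only [B2.Apart, mem_image, mem_univ, true_and]
      rintro _ ⟨i, rfl⟩ _ ⟨j, rfl⟩ g - e
      rw [hw (show (w i).p = (w j).p from e ▸ (B2.smul_p g _).symm)]) fun v hv => by
      by_cases h : v.p = 2
      · exact F.cup_pow o (h1.mono inf_le_left) (hom v) (hκ.mono inf_le_left)
          (B2.exists_root inf_le_right r (fun g hg => a1 g hg.1) (a4 v h))
      · exact F.unit o (h1.mono inf_le_left) (hom v) (h3 v h) (hκ.mono inf_le_left)
          (a3 v fun i u hu => hv u (by simp [mem_singleton.1 hu]))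
  rw [sum_image fun i _ j _ e => hw (congrArg Plc.p e)] at this
  rw [← this]
  refine sum_congr rfl fun i _ => Eq.symm ?_
  have hI : Ine (w i) ≤ GK m := fun g hg => B2.chi_ine (hp i) hg
  have hD : Dec (w i) ≤ GK m := fun g hg => B2.b2c_dec (fun σ hσ => hI hσ) (hφ i) (hφ' i) hg
  refine F.kum (k i) o hI (hφ' i) ?_ (h1.mono inf_le_left) (hom _)
    (fun σ hσ => h3 _ (fun e => hp i (by simp [e])) σ ⟨hI hσ, hσ⟩) (hκ.mono inf_le_left) (a2 i)
  rw [inf_eq_right.2 hD, Subgroup.relIndex_self, pow_one]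
  exact hφ i

/-- Two products of powers that are congruent. -/
theorem rank_pig (hm : Squarefree m) {b : Fin 3 → Qbar} (h1 : ∀ i, Fx (GK m) (b i))
    (h2 : ∀ i, IsIntegral ℤ (b i)) (u : ℕ) : ∃ j j' : Fin 3 → Fin (2 ^ (2 * u + 3)), j ≠ j' ∧
      ∀ v : Plc, v.V (∏ i, b i ^ (j i).1 - ∏ i, b i ^ (j' i).1) ≤ v.V (2 ^ (3 * u + 2)) := by
  choose X Y e using fun j : Fin 3 → Fin (2 ^ (2 * u + 3)) =>
    rank_coord hm (z := ∏ i, b i ^ (j i).1) (fun g hg => by simp [map_prod, h1 _ g hg])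
      (IsIntegral.prod _ fun i _ => (h2 i).pow _)
  obtain ⟨j, j', n, k⟩ := Fintype.exists_ne_map_eq_of_card_lt
    (fun j => (((X j : ℤ) : ZMod (2 ^ (3 * u + 3))), ((Y j : ℤ) : ZMod (2 ^ (3 * u + 3))))) (by
      simp only [Fintype.card_prod, ZMod.card, Fintype.card_fun, Fintype.card_fin, ← pow_mul,
        ← pow_add]
      exact Nat.pow_lt_pow_right one_lt_two (by omega))
  rw [Prod.mk.injEq, ZMod.intCast_eq_intCast_iff_dvd_sub, ZMod.intCast_eq_intCast_iff_dvd_sub] at k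
  obtain ⟨⟨x, hx⟩, y, hy⟩ := k
  refine ⟨j, j', n, fun v => ?_⟩
  have hx' := congrArg (Int.cast : ℤ → Qbar) hx
  have hy' := congrArg (Int.cast : ℤ → Qbar) hy
  push_cast at hx' hy'
  rw [show ∏ i, b i ^ (j i).1 - ∏ i, b i ^ (j' i).1 = 2 ^ (3 * u + 2) * -(x + y * rt (-m)) by
    linear_combination (e j - e j' - hx' - rt (-m) * hy') / 2, map_mul, v.V.map_neg]
  exact mul_le_of_le_one_right' (v.V_le_one_of_isIntegral
    ((isIntegral_intCast _).add ((isIntegral_intCast _).mul (quad_integral (B2.rt_sq _)))))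

/-- The reduction of a homomorphism. -/
noncomputable def rankChi (ρ : GK m →* Multiplicative ℤ_[2]) (r : ℕ) (g : Gam) : ZMod (2 ^ r) :=
  if h : g ∈ GK m then PadicInt.toZModPow r (ρ ⟨g, h⟩).toAdd else 0

theorem rankChi_coe (ρ : GK m →* Multiplicative ℤ_[2]) (r : ℕ) (g : GK m) :
    rankChi ρ r g = PadicInt.toZModPow r (ρ g).toAdd := dif_pos g.2

theorem rank_core (h0 : 0 < m) (ρ : GK m →* Multiplicative ℤ_[2]) (hρ : Continuous ρ) (r : ℕ) :
    ∃ W : Subgroup Gam, W.Normal ∧ IsOpen (W : Set Gam) ∧ (∀ g : Gam, ∃ n : ℕ, g ^ 2 ^ n ∈ W) ∧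
      ∀ g h : GK m, (g : Gam)⁻¹ * h ∈ W →
        PadicInt.toZModPow r (ρ g).toAdd = PadicInt.toZModPow r (ρ h).toAdd := by
  obtain ⟨W, w1, w2, w3, w4⟩ := groups_core (B2.index_GK h0) (B2.op_GK m) ρ hρ
    (ε := ((2 : ℕ) : ℝ) ^ (-r : ℤ)) (by positivity)
  refine ⟨W, w1, w2, w3, fun g h e => ?_⟩
  have := (PadicInt.norm_le_pow_iff_mem_span_pow _ r).1 (w4 (g⁻¹ * h) e).le
  rw [← PadicInt.ker_toZModPow, RingHom.mem_ker, map_mul, map_inv, toAdd_mul, toAdd_inv, map_add,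
    map_neg] at this
  exact neg_add_eq_zero.1 this

theorem rank_ker (r : ℕ) (x : ℤ_[2]) : PadicInt.toZModPow r x = 0 ↔ 2 ^ r ∣ x := by
  rw [← RingHom.mem_ker, PadicInt.ker_toZModPow, Ideal.mem_span_singleton, Nat.cast_ofNat]

theorem rankChi_spec (h0 : 0 < m) (ρ : GK m →* Multiplicative ℤ_[2]) (hρ : Continuous ρ) (r : ℕ) :
    Sm (GK m) (rankChi ρ r) ∧ IsHom (GK m) (rankChi ρ r) ∧
      ∀ v : Plc, v.p ≠ 2 → ∀ σ ∈ GK m ⊓ Ine v, rankChi ρ r σ = 0 := by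
  obtain ⟨W, w1, w2, -, w4⟩ := rank_core h0 ρ hρ r
  refine ⟨⟨W, w2, w1, fun g hg h hh e => (rankChi_coe _ _ ⟨g, hg⟩).trans
    ((w4 ⟨g, hg⟩ ⟨h, hh⟩ e).trans (rankChi_coe _ _ ⟨h, hh⟩).symm)⟩, fun g hg h hh => ?_,
    fun v hv σ hσ => ?_⟩
  · refine (rankChi_coe _ _ (⟨g, hg⟩ * ⟨h, hh⟩)).trans ?_
    rw [rankChi_coe _ _ ⟨g, hg⟩, rankChi_coe _ _ ⟨h, hh⟩, ρ.map_mul, toAdd_mul, RingHom.map_add]
  · have h2 : v.V (2 : ℤ) = 1 := v.V_int_eq_one.2 fun h => hv
      ((Nat.prime_dvd_prime_iff_eq v.prime Nat.prime_two).1 (by exact_mod_cast h))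
    have := unram_odd (B2.index_GK h0) (B2.op_GK m) (B2.b2aP v) inferInstance
      (fun h => (B2.b2a_mem.1 h).ne h2)
      (x := σ) ⟨fun y => hσ.2.2 y (v.V_le_one_of_isIntegral y.2), hσ.1⟩
    rw [rankChi_coe _ _ ⟨σ, hσ.1⟩,
      (mem_tilde (B2.op_GK m).closed ⟨σ, hσ.1⟩).1 (split_le this) _ hρ, toAdd_one, RingHom.map_zero]

theorem rank_frob (hm : Squarefree m) (h4 : 4 < m) (ρ : Fin 3 → GK m →* Multiplicative ℤ_[2])
    (hρ : ∀ a, Continuous (ρ a)) {w : Fin 3 → Plc} (hw : Function.Injective fun i => (w i).p)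
    (hp : ∀ i, ¬ ((w i).p : ℤ) ∣ 2 * -m) (φ : Fin 3 → GK m)
    (hφ : ∀ i, IsFrob (w i) (w i).p (φ i)) : (of fun a i => (ρ a (φ i)).toAdd).det = 0 := by
  have h0 : 0 < m := by omega
  set M : Matrix (Fin 3) (Fin 3) ℤ_[2] := of fun a i => (ρ a (φ i)).toAdd with hM
  choose b k k0 b0 b1 b2 b3 b4 using fun i => rank_gen hm h4 (w i) fun g hg => B2.chi_ine (hp i) hg
  by_contra hΔ
  have hD : M.det * ∏ i, (k i : ℤ_[2]) ≠ 0 :=
    mul_ne_zero hΔ (prod_ne_zero_iff.2 fun i _ => Int.cast_ne_zero.2 (k0 i))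
  obtain ⟨e, he⟩ : ∃ e, ¬ (2 : ℤ_[2]) ^ e ∣ M.det * ∏ i, (k i : ℤ_[2]) :=
    not_forall.1 fun h => hD (PadicInt.ext_of_toZModPow.1 fun r => by
      rw [RingHom.map_zero, rank_ker]
      exact h r)
  obtain ⟨j, j', n, c⟩ := rank_pig hm b1 b2 (e + 4)
  have aw : ∀ i (v : Plc), v.p ≠ (w i).p → v.V (b i) = 1 := fun i v h => b4 i v fun u hu g _ e =>
    h (by rw [← e, mem_singleton.1 hu, B2.smul_p])
  have p0 : ∀ j : Fin 3 → ℕ, ∏ i, b i ^ j i ≠ 0 := fun j =>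
    prod_ne_zero_iff.2 fun i _ => pow_ne_zero _ (b0 i)
  have pw : ∀ (j : Fin 3 → ℕ) i, (w i).V (∏ i, b i ^ j i) = (((w i).p : ℝ≥0) ^ (k i * j i))⁻¹ :=
    fun j i => by
      rw [map_prod, prod_eq_single i (fun l _ h => by
        rw [map_pow, aw l _ fun e => h (hw e).symm, one_pow]) (by simp), map_pow, b3, inv_pow,
        _root_.zpow_mul, _root_.zpow_natCast]
  have key : ∀ a, (2 : ℤ_[2]) ^ (3 * (e + 4)) ∣
      (M *ᵥ fun i => ((k i * ((j i).1 - (j' i).1 : ℤ) : ℤ) : ℤ_[2])) a := fun a => by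
    obtain ⟨w1, w2, w3⟩ := rankChi_spec h0 (ρ a) (hρ a) (3 * (e + 4))
    have := rank_rel h0 w1 w2 w3
      hw hp hφ (fun i => (φ i).2) (A := (∏ i, b i ^ (j i).1) / ∏ i, b i ^ (j' i).1)
      (div_ne_zero (p0 _) (p0 _)) (fun g hg => by simp [map_prod, b1 _ g hg])
      (k := fun i => k i * ((j i).1 - (j' i).1))
      (fun i => by
        rw [map_div₀, pw, pw, mul_sub, zpow_sub₀ (one_pos.trans (B2.b3a_p _)).ne', inv_div_inv,
          inv_div])
      (fun v hv => by simp [map_prod, fun i => b4 i v (hv i)]) fun v hv => by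
        have u1 : v.V (∏ i, b i ^ (j' i).1) = 1 := by
          simp [map_prod, fun i => aw i v fun e => hp i (by simp [← e, hv])]
        have u2 : v.V 2 < 1 := by simpa [hv] using B2.b2a_p_lt v
        rw [div_sub_one (p0 _), map_div₀, u1, div_one]
        refine (c v).trans_lt ?_
        rw [map_pow, map_pow]
        exact pow_lt_pow_right_of_lt_one₀ (B2.b3a_pos v two_ne_zero) u2 (by omega)
    rw [← rank_ker, ← this, mulVec, dotProduct, map_sum]
    exact sum_congr rfl fun i _ => by rw [map_mul, map_intCast, rankChi_coe, hM, of_apply]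
  obtain ⟨i, hi⟩ := Function.ne_iff.1 n
  have d0 : ((j i).1 - (j' i).1 : ℤ) ≠ 0 := fun h => hi (Fin.ext (by omega))
  have d1 : ¬ (2 : ℤ_[2]) ^ (2 * (e + 4) + 3) ∣ (((j i).1 - (j' i).1 : ℤ) : ℤ_[2]) := fun h => by
    have h1 := Int.le_of_dvd (abs_pos.2 d0) ((dvd_abs _ _).2
      ((PadicInt.pow_p_dvd_int_iff (p := 2) _ _).1 (by simpa using h)))
    have h2 : ((j i).1 : ℤ) < ((2 : ℕ) : ℤ) ^ (2 * (e + 4) + 3) := by exact_mod_cast (j i).2
    have h3 : ((j' i).1 : ℤ) < ((2 : ℕ) : ℤ) ^ (2 * (e + 4) + 3) := by exact_mod_cast (j' i).2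
    rcases abs_cases ((j i).1 - (j' i).1 : ℤ) with h | h <;> omega
  have d2 : (2 : ℤ_[2]) ^ (3 * (e + 4)) ∣ M.det * (k i * ((j i).1 - (j' i).1 : ℤ)) := by
    have := congrFun (congrArg (· *ᵥ fun i => ((k i * ((j i).1 - (j' i).1 : ℤ) : ℤ) : ℤ_[2]))
      (adjugate_mul M)) i
    simp only [← mulVec_mulVec, smul_mulVec, one_mulVec, Pi.smul_apply, smul_eq_mul,
      Int.cast_mul] at this key
    rw [← this, mulVec, dotProduct]
    exact dvd_sum fun a _ => (key a).mul_left _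
  have d3 := (d2.trans (c := (M.det * ∏ i, (k i : ℤ_[2])) * ((j i).1 - (j' i).1 : ℤ)) (by
    rw [← mul_assoc]
    exact mul_dvd_mul_right (mul_dvd_mul_left _ (dvd_prod_of_mem _ (mem_univ i))) _)).trans
    (mul_dvd_mul ((ValuationRing.dvd_total _ _).resolve_left he)
      ((ValuationRing.dvd_total _ _).resolve_left d1))
  rw [← pow_add, pow_dvd_pow_iff two_ne_zero (by simpa using PadicInt.prime_p (p := 2).not_isUnit)]
    at d3
  omega

theorem rank_cheb (h0 : 0 < m) (ρ : Fin 3 → GK m →* Multiplicative ℤ_[2])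
    (hρ : ∀ a, Continuous (ρ a)) (r : ℕ) (s : GK m) (B : Finset ℕ) :
    ∃ (w : Plc) (φ : GK m) (a : ℕ), w.p ∉ B ∧ IsFrob w w.p φ ∧ IsUnit (a : ZMod (2 ^ r)) ∧
      ∀ c, PadicInt.toZModPow r (ρ c φ).toAdd = a * PadicInt.toZModPow r (ρ c s).toAdd := by
  choose W w1 w2 w3 w4 using fun a => rank_core h0 (ρ a) (hρ a) r
  have := B2.normal_GK m
  have := Subgroup.normal_iInf_normal w1
  choose n hn using fun c => w3 c s
  have o : IsOpen ((⨅ c, W c : Subgroup Gam) : Set Gam) := by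
    rw [Subgroup.coe_iInf]
    exact isOpen_iInter_of_finite w2
  obtain ⟨w, φ, a, c1, c2, c3, c4, c5⟩ := B2.cheb (GK m ⊓ ⨅ c, W c) s (∑ c, n c) B
    ((B2.op_GK m).inf o) inferInstance
    ⟨pow_mem s.2 _, Subgroup.mem_iInf.2 fun c => by
      obtain ⟨t, ht⟩ := pow_dvd_pow 2 (single_le_sum (f := n) (fun _ _ => zero_le) (mem_univ c))
      rw [ht, pow_mul]
      exact pow_mem (hn c) _⟩
  refine ⟨w, ⟨φ, inv_mem_iff.1 ((mul_mem_cancel_right (pow_mem s.2 _)).1 c4)⟩, a, c1, c2,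
    (ZMod.isUnit_iff_coprime _ _).2 (Nat.Coprime.pow_right _ (Nat.coprime_two_right.2 c3)),
    fun c => (w4 c _ (s ^ a) (Subgroup.mem_iInf.1 c5 c)).trans ?_⟩
  rw [(ρ c).map_pow, toAdd_pow, nsmul_eq_mul, RingHom.map_mul, map_natCast]

theorem rank_det (hm : Squarefree m) (h4 : 4 < m) (ρ : Fin 3 → GK m →* Multiplicative ℤ_[2])
    (hρ : ∀ a, Continuous (ρ a)) (s : Fin 3 → GK m) :
    (of fun a i => (ρ a (s i)).toAdd).det = 0 := by
  have h0 : 0 < m := by omega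
  refine PadicInt.ext_of_toZModPow.1 fun r => ?_
  obtain ⟨v0, φ0, a0, x0, y0, z0, t0⟩ := rank_cheb h0 ρ hρ r (s 0) (2 * m).primeFactors
  obtain ⟨v1, φ1, a1, x1, y1, z1, t1⟩ :=
    rank_cheb h0 ρ hρ r (s 1) (insert v0.p (2 * m).primeFactors)
  obtain ⟨v2, φ2, a2, x2, y2, z2, t2⟩ :=
    rank_cheb h0 ρ hρ r (s 2) (insert v1.p (insert v0.p (2 * m).primeFactors))
  simp only [mem_insert, not_or] at x1 x2
  have nd : ∀ v : Plc, v.p ∉ (2 * m).primeFactors → ¬ (v.p : ℤ) ∣ 2 * -m := fun v h k =>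
    h (Nat.mem_primeFactors.2 ⟨v.prime, by
      rw [mul_neg, dvd_neg] at k
      exact_mod_cast k, by omega⟩)
  have k := congrArg (PadicInt.toZModPow r) (rank_frob hm h4 ρ hρ (w := ![v0, v1, v2])
    (fun i j h => by
      fin_cases i <;> fin_cases j
      exacts [rfl, absurd h.symm x1.1, absurd h.symm x2.2.1, absurd h x1.1, rfl, absurd h.symm x2.1,
        absurd h x2.2.1, absurd h x2.1, rfl])
    (fun i => by
      fin_cases i
      exacts [nd _ x0, nd _ x1.2, nd _ x2.2.2]) ![φ0, φ1, φ2] fun i => by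
      fin_cases i
      exacts [y0, y1, y2])
  simp only [det_fin_three, of_apply, cons_val_zero, cons_val_one, cons_val_two, RingHom.map_add,
    RingHom.map_sub, RingHom.map_mul, RingHom.map_zero, tail_cons, head_cons, t0, t1, t2] at k ⊢
  refine ((z0.mul z1).mul z2).mul_right_eq_zero.1 ?_
  linear_combination k

/-- Three continuous homomorphisms to the two-adic integers are dependent. -/
theorem rank_two (hm : Squarefree m) (h4 : 4 < m) {θ : Qbar} (hθ : θ ^ 2 = -(m : Qbar))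
    (ρ : Fin 3 → ℚ⟮θ⟯.fixingSubgroup →* Multiplicative ℤ_[2]) (hρ : ∀ a, Continuous (ρ a))
    (s : Fin 3 → ℚ⟮θ⟯.fixingSubgroup) : (of fun a i => (ρ a (s i)).toAdd).det = 0 := by
  have e := rank_mem hθ (by omega)
  revert ρ s
  rw [e]
  exact rank_det hm h4

/-- The form that is used: a pair of coordinates that is onto sees every homomorphism. -/
theorem rank_kill (hm : Squarefree m) (h4 : 4 < m) {θ : Qbar} (hθ : θ ^ 2 = -(m : Qbar))
    (e : ℚ⟮θ⟯.fixingSubgroup →* Multiplicative (Fin 2 → ℤ_[2])) (he : Continuous e)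
    (hs : Function.Surjective e) (ρ : ℚ⟮θ⟯.fixingSubgroup →* Multiplicative ℤ_[2])
    (hρ : Continuous ρ) (x : ℚ⟮θ⟯.fixingSubgroup) (hx : e x = 1) : ρ x = 1 := by
  obtain ⟨s0, h0⟩ := hs (Multiplicative.ofAdd ![1, 0])
  obtain ⟨s1, h1⟩ := hs (Multiplicative.ofAdd ![0, 1])
  let c : Fin 2 → ℚ⟮θ⟯.fixingSubgroup →* Multiplicative ℤ_[2] := fun i =>
    (AddMonoidHom.toMultiplicative (Pi.evalAddMonoidHom (fun _ : Fin 2 => ℤ_[2]) i)).comp e
  have hc : ∀ i, Continuous (c i) := fun i =>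
    continuous_ofAdd.comp ((continuous_apply i).comp (continuous_toAdd.comp he))
  have ec : ∀ i y, (c i y).toAdd = (e y).toAdd i := fun _ _ => rfl
  have := rank_two hm h4 hθ ![c 0, c 1, ρ] (fun a => by
    fin_cases a
    exacts [hc 0, hc 1, hρ]) ![s0, s1, x]
  simpa [det_fin_three, ec, h0, h1, hx] using this

end Pool.Agent.Lib.MP_f8d36e_nt
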