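import Pool.Agent.Lib.MP_f8d36e_nt.Pr

/-! Job E3: when a pair of spans is unlikely; the choice of the line. -/

set_option autoImplicit false

open Finset

namespace Pool.Agent.Lib.MP_f8d36e_nt

theorem gainL_le {a c w n l : ℕ} (hl : l ≤ n) (hc : c ≤ a) (hw : a ≤ w) :
    a ^ (n - l) * c ^ l ≤ w ^ n := by
  calc a ^ (n - l) * c ^ l ≤ w ^ (n - l) * w ^ l :=
        Nat.mul_le_mul (Nat.pow_le_pow_left hw _) (Nat.pow_le_pow_left (hc.trans hw) _)
    _ = w ^ n := by rw [← pow_add, Nat.sub_add_cancel hl]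

theorem gainL_half {a c w n l t : ℕ} (ht : t ≤ l) (hl : l ≤ n) (hw : a ≤ w)
    (h : 2 * c ≤ w) : 2 ^ t * (a ^ (n - l) * c ^ l) ≤ w ^ n := by
  calc 2 ^ t * (a ^ (n - l) * c ^ l) ≤ 2 ^ l * (w ^ (n - l) * c ^ l) :=
        Nat.mul_le_mul (Nat.pow_le_pow_right two_pos ht)
          (Nat.mul_le_mul_right _ (Nat.pow_le_pow_left hw _))
    _ = w ^ (n - l) * (2 * c) ^ l := by rw [mul_pow]; ring
    _ ≤ w ^ (n - l) * w ^ l := Nat.mul_le_mul_left _ (Nat.pow_le_pow_left h _)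
    _ = w ^ n := by rw [← pow_add, Nat.sub_add_cancel hl]

theorem gainL_swap {a a' c c' n n' l l' t : ℕ} (hl : l ≤ n) (hl' : l' ≤ n') (b : n' + t ≤ n + l')
    (hc : c ≤ a) (hc' : c' ≤ a) (h : 2 * a ≤ a') :
    2 ^ t * (a ^ (n - l) * c ^ l) * (a' ^ (n' - l') * c' ^ l') ≤ a' ^ n * a ^ n' := by
  obtain ⟨e, he⟩ := Nat.exists_eq_add_of_le b
  obtain ⟨m, rfl⟩ := Nat.exists_eq_add_of_le hl'
  have hn : n = m + t + e := by omega
  rw [Nat.add_sub_cancel_left]
  have h1 := gainL_le hl hc le_rfl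
  have h2 : c' ^ l' ≤ a ^ l' := Nat.pow_le_pow_left hc' _
  have h3 : (2 * a) ^ t ≤ a' ^ t := Nat.pow_le_pow_left h _
  have h4 : a ^ e ≤ a' ^ e := Nat.pow_le_pow_left (by omega) _
  calc 2 ^ t * (a ^ (n - l) * c ^ l) * (a' ^ m * c' ^ l') ≤ 2 ^ t * a ^ n * (a' ^ m * a ^ l') :=
        Nat.mul_le_mul (Nat.mul_le_mul_left _ h1) (Nat.mul_le_mul_left _ h2)
    _ = (2 * a) ^ t * a ^ e * (a' ^ m * a ^ (l' + m)) := by rw [hn]; ring
    _ ≤ a' ^ t * a' ^ e * (a' ^ m * a ^ (l' + m)) := Nat.mul_le_mul_right _ (Nat.mul_le_mul h3 h4)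
    _ = a' ^ n * a ^ (l' + m) := by rw [hn]; ring

theorem gainL_two {G : Type} [AddCommGroup G] {H L : AddSubgroup G} [Finite L] (h : H ≤ L) :
    H = L ∨ 2 * Nat.card H ≤ Nat.card L := by
  obtain ⟨d, hd⟩ := AddSubgroup.card_dvd_of_le h
  have hp : 0 < Nat.card L := Nat.card_pos
  by_cases h1 : d = 1
  · left
    exact AddSubgroup.eq_of_le_of_card_ge h (by rw [hd, h1, mul_one])
  · right
    have h0 : d ≠ 0 := by rintro rfl; omega
    rw [hd, mul_comm]
    exact Nat.mul_le_mul_left _ (by omega)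

section
variable {K : Type} [Field K]

theorem gainL_fin (p q : K) (V V' : AddSubgroup K) [Finite V] [Finite V'] :
    Finite (Ws p q V V') := by
  refine Finite.of_surjective (fun x : V × V' => (⟨p * x.1 + q * x.2, AddSubgroup.add_mem_sup
    (AddSubgroup.mem_map_of_mem (AddMonoidHom.mulLeft p) x.1.2)
    (AddSubgroup.mem_map_of_mem (AddMonoidHom.mulLeft q) x.2.2)⟩ : Ws p q V V')) ?_
  rintro ⟨z, hz⟩
  obtain ⟨_, ⟨x, hx, rfl⟩, _, ⟨y, hy, rfl⟩, rfl⟩ := AddSubgroup.mem_sup.mp hz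
  exact ⟨(⟨x, hx⟩, ⟨y, hy⟩), rfl⟩

theorem gainL_card {c : K} (hc : c ≠ 0) {V W : AddSubgroup K} [Finite W]
    (h : ∀ a ∈ V, c * a ∈ W) : Nat.card V ≤ Nat.card W :=
  Nat.card_le_card_of_injective (fun x : V => (⟨c * x, h x x.2⟩ : W)) fun _ _ e =>
    Subtype.ext (mul_left_cancel₀ hc (congrArg Subtype.val e))

theorem gainL_left (q : K) (V V' : AddSubgroup K) : V ≤ Ws 1 q V V' := fun a ha =>
  AddSubgroup.mem_sup_left ⟨a, ha, one_mul a⟩

theorem gainL_right (p q : K) (V V' : AddSubgroup K) : ∀ a ∈ V', q * a ∈ Ws p q V V' :=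
  fun a ha => AddSubgroup.mem_sup_right ⟨a, ha, rfl⟩

theorem gainL_zero (V V' : AddSubgroup K) : Ws 0 1 V V' = V' := by
  apply le_antisymm
  · refine sup_le ?_ ?_
    · rintro _ ⟨a, -, rfl⟩
      show 0 * a ∈ V'
      rw [zero_mul]; exact zero_mem _
    · rintro _ ⟨a, ha, rfl⟩
      show 1 * a ∈ V'
      rwa [one_mul]
  · intro a ha
    have := gainL_right 0 1 V V' a ha
    rwa [one_mul] at this

theorem gainL_pow [Algebra F2 K] (V : AddSubgroup K) [Finite V] : ∃ n, Nat.card V = 2 ^ n := by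
  have h : IsPGroup 2 (Multiplicative V) := fun g => ⟨1, by
    apply Multiplicative.toAdd.injective
    apply Subtype.ext
    rw [toAdd_pow, pow_one, toAdd_one]
    show ((2 • Multiplicative.toAdd g : V) : K) = 0
    rw [AddSubgroup.coe_nsmul, nsmul_eq_mul, Nat.cast_ofNat, two_eq_zero, zero_mul]⟩
  exact (IsPGroup.iff_card (G := Multiplicative V)).mp h

theorem gainL_ne {V0 V1 : AddSubgroup K} (hV : V0 ≠ ⊥ ∨ V1 ≠ ⊥) (h : Nat.card V1 = Nat.card V0) :
    V0 ≠ ⊥ := by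
  rintro rfl
  rcases hV with h0 | h0
  · exact h0 rfl
  · exact h0 (AddSubgroup.eq_bot_of_card_eq _ (by rw [h, AddSubgroup.card_bot]))
end

section
variable {K : Type} [Field K] [Algebra F2 K] {q T : K} {n0 n1 l0 l1 t : ℕ} {V0 V1 : AddSubgroup K}

omit [Algebra F2 K] in
theorem gainL_pos [Finite V0] [Finite V1] (hq : q ≠ 0) (h0 : t ≤ l0) (h0' : l0 ≤ n0) (h1 : t ≤ l1)
    (h1' : l1 ≤ n1) (hV : V0 ≠ ⊥ ∨ V1 ≠ ⊥) : Gain 1 q T n0 n1 l0 l1 t V0 V1 ∨
      (V0 ≠ ⊥ ∧ (∀ a ∈ V0, q ^ 2 * a ∈ V0) ∧ (∀ a ∈ V0, T * a ∈ V0) ∧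
        Nat.card V1 = Nat.card V0) := by
  have := gainL_fin 1 q V0 V1
  have := gainL_fin 1 q V1 V0
  have a0 := AddSubgroup.card_le_of_le (gainL_left q V0 V1)
  have a1 := AddSubgroup.card_le_of_le (gainL_left q V1 V0)
  have c0 := AddSubgroup.card_le_of_le
    (inf_le_left : V0 ⊓ (Ws 1 q V0 V1).comap (AddMonoidHom.mulLeft T) ≤ V0)
  have c1 := AddSubgroup.card_le_of_le
    (inf_le_left : V1 ⊓ (Ws 1 q V1 V0).comap (AddMonoidHom.mulLeft T) ≤ V1)
  have g0 : 2 * Nat.card (V0 ⊓ (Ws 1 q V0 V1).comap (AddMonoidHom.mulLeft T) : AddSubgroup K) ≤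
      Nat.card (Ws 1 q V0 V1) → Gain 1 q T n0 n1 l0 l1 t V0 V1 := fun h =>
    Nat.mul_le_mul (gainL_half h0 h0' a0 h) (gainL_le h1' c1 a1)
  rcases gainL_two (gainL_left q V0 V1) with e0 | e0
  swap
  · exact Or.inl (g0 (by omega))
  rcases gainL_two (gainL_left q V1 V0) with e1 | e1
  swap
  · left
    have := Nat.mul_le_mul (gainL_le h0' c0 a0) (gainL_half h1 h1' a1 (c := Nat.card
      (V1 ⊓ (Ws 1 q V1 V0).comap (AddMonoidHom.mulLeft T) : AddSubgroup K)) (by omega))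
    unfold Gain
    refine le_trans (le_of_eq ?_) this
    ring
  rcases gainL_two (inf_le_left : V0 ⊓ (Ws 1 q V0 V1).comap (AddMonoidHom.mulLeft T) ≤ V0)
    with e2 | e2
  swap
  · exact Or.inl (g0 (by omega))
  right
  have s0 : ∀ a ∈ V1, q * a ∈ V0 := fun a ha => e0 ▸ gainL_right 1 q V0 V1 a ha
  have s1 : ∀ a ∈ V0, q * a ∈ V1 := fun a ha => e1 ▸ gainL_right 1 q V1 V0 a ha
  have hc := le_antisymm (gainL_card hq s0) (gainL_card hq s1)
  refine ⟨gainL_ne hV hc, fun a ha => ?_, fun a ha => ?_, hc⟩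
  · rw [sq, mul_assoc]; exact s0 _ (s1 a ha)
  · have h2 : T * a ∈ Ws 1 q V0 V1 := (inf_eq_left.mp e2) ha
    exact e0 ▸ h2

theorem gain_pos [Finite V0] [Finite V1] (hq : q ≠ 0) (h0 : t ≤ l0) (h0' : l0 ≤ n0) (h1 : t ≤ l1)
    (h1' : l1 ≤ n1) (hV : V0 ≠ ⊥ ∨ V1 ≠ ⊥) : Gain 1 q T n0 n1 l0 l1 t V0 V1 ∨
      (V0 ≠ ⊥ ∧ (∀ a ∈ V0, q ^ 2 * a ∈ V0) ∧ (∀ a ∈ V0, T * a ∈ V0) ∧
        Nat.card V1 = Nat.card V0) :=
  gainL_pos hq h0 h0' h1 h1' hV

theorem gain_zero [Finite V0] [Finite V1] (hT : T ≠ 0) (h0 : t ≤ l0) (h0' : l0 ≤ n0) (h1 : t ≤ l1)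
    (h1' : l1 ≤ n1) (b0 : n0 + t ≤ n1 + l0) (b1 : n1 + t ≤ n0 + l1) (hV : V0 ≠ ⊥ ∨ V1 ≠ ⊥) :
    Gain 0 1 T n0 n1 l0 l1 t V0 V1 ∨
      (V0 ≠ ⊥ ∧ (∀ a ∈ V0, T ^ 2 * a ∈ V0) ∧ Nat.card V1 = Nat.card V0) := by
  unfold Gain
  rw [gainL_zero, gainL_zero]
  have c0 := AddSubgroup.card_le_of_le
    (inf_le_left : V0 ⊓ V1.comap (AddMonoidHom.mulLeft T) ≤ V0)
  have c1 := AddSubgroup.card_le_of_le
    (inf_le_left : V1 ⊓ V0.comap (AddMonoidHom.mulLeft T) ≤ V1)
  have d0 : Nat.card (V0 ⊓ V1.comap (AddMonoidHom.mulLeft T) : AddSubgroup K) ≤ Nat.card V1 :=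
    gainL_card hT fun a ha => ha.2
  have d1 : Nat.card (V1 ⊓ V0.comap (AddMonoidHom.mulLeft T) : AddSubgroup K) ≤ Nat.card V0 :=
    gainL_card hT fun a ha => ha.2
  obtain ⟨m0, hm0⟩ := gainL_pow V0
  obtain ⟨m1, hm1⟩ := gainL_pow V1
  rcases lt_trichotomy m0 m1 with hm | hm | hm
  · left
    refine gainL_swap h0' h1' b1 c0 d1 ?_
    rw [hm0, hm1, ← pow_succ']
    exact Nat.pow_le_pow_right two_pos hm
  · have hc : Nat.card V1 = Nat.card V0 := by rw [hm0, hm1, hm]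
    rcases gainL_two (inf_le_left : V0 ⊓ V1.comap (AddMonoidHom.mulLeft T) ≤ V0) with e0 | e0
    swap
    · exact Or.inl (Nat.mul_le_mul (gainL_half h0 h0' hc.ge (by omega)) (gainL_le h1' c1 hc.le))
    rcases gainL_two (inf_le_left : V1 ⊓ V0.comap (AddMonoidHom.mulLeft T) ≤ V1) with e1 | e1
    swap
    · left
      have := Nat.mul_le_mul (gainL_le h0' c0 hc.ge) (gainL_half h1 h1' hc.le (c := Nat.card
        (V1 ⊓ V0.comap (AddMonoidHom.mulLeft T) : AddSubgroup K)) (by omega))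
      refine le_trans (le_of_eq ?_) this
      ring
    right
    refine ⟨gainL_ne hV hc, fun a ha => ?_, hc⟩
    have h2 : T * a ∈ V1 := (inf_eq_left.mp e0) ha
    have h3 : T * (T * a) ∈ V0 := (inf_eq_left.mp e1) h2
    rwa [sq, mul_assoc]
  · left
    have := gainL_swap h1' h0' b0 c1 d0 (a' := Nat.card V0) (by
      rw [hm0, hm1, ← pow_succ']
      exact Nat.pow_le_pow_right two_pos hm)
    refine le_trans (le_of_eq ?_) (this.trans (le_of_eq ?_)) <;> ring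
end

theorem gen_of_prime {k : Type} [Field k] [Finite k] {r : ℕ} (hr : r.Prime)
    (h : Nat.card k = 2 ^ r) {θ : k} (h0 : θ ≠ 0) (h1 : θ ≠ 1) : Gen θ := by
  intro V hV
  by_cases hb : V = ⊥
  · exact Or.inl hb
  right
  let S : Subfield k :=
    { carrier := {c | ∀ a ∈ V, c * a ∈ V}
      mul_mem' := fun {x y} hx hy a ha => by rw [mul_assoc]; exact hx _ (hy a ha)
      one_mem' := fun a ha => by rwa [one_mul]
      add_mem' := fun {x y} hx hy a ha => by rw [add_mul]; exact add_mem (hx a ha) (hy a ha)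
      zero_mem' := fun a _ => by rw [zero_mul]; exact zero_mem _
      neg_mem' := fun {x} hx a ha => by rw [neg_mul]; exact neg_mem (hx a ha)
      inv_mem' := fun x hx a ha => by
        by_cases hx0 : x = 0
        · rw [hx0, inv_zero, zero_mul]; exact zero_mem _
        have hi : Function.Injective (fun z : V => (⟨x * z, hx z z.2⟩ : V)) := fun _ _ e =>
          Subtype.ext (mul_left_cancel₀ hx0 (congrArg Subtype.val e))
        obtain ⟨y, hy⟩ := Finite.injective_iff_surjective.mp hi ⟨a, ha⟩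
        have e : x * y = a := congrArg Subtype.val hy
        rw [← e, inv_mul_cancel_left₀ hx0]
        exact y.2 }
  have hc : Nat.card k = Nat.card S ^ Module.finrank S k := Module.natCard_eq_pow_finrank
  have hd : Nat.card S ∣ 2 ^ r := by
    rw [← h]; exact AddSubgroup.card_addSubgroup_dvd_card S.toAddSubgroup
  obtain ⟨e, -, he⟩ := (Nat.dvd_prime_pow Nat.prime_two).mp hd
  rw [h, he, ← pow_mul] at hc
  have hre : r = e * Module.finrank S k := Nat.pow_right_injective le_rfl hc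
  have hS : S = ⊤ := by
    rcases (Nat.dvd_prime hr).mp ⟨_, hre⟩ with e1 | e1
    · exfalso
      rw [e1, pow_one] at he
      obtain ⟨y, -, hy⟩ := (Nat.card_eq_two_iff' (0 : S)).mp he
      have a1 := hy ⟨θ, hV⟩ (fun e => h0 (congrArg Subtype.val e))
      have a2 := hy 1 one_ne_zero
      exact h1 (congrArg Subtype.val (a1.trans a2.symm))
    · have : S.toAddSubgroup = ⊤ := AddSubgroup.eq_top_of_card_eq _ (by rw [h, ← e1]; exact he)
      rw [eq_top_iff]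
      intro x _
      have hx : x ∈ S.toAddSubgroup := this ▸ AddSubgroup.mem_top x
      exact hx
  obtain ⟨⟨z, hz⟩, hz0⟩ := AddSubgroup.ne_bot_iff_exists_ne_zero.mp hb
  have hz1 : z ≠ 0 := fun e => hz0 (Subtype.ext e)
  rw [eq_top_iff]
  intro x _
  have hx : x / z ∈ S := hS ▸ Subfield.mem_top _
  have := hx z hz
  rwa [div_mul_cancel₀ _ hz1] at this

theorem gainL_avoid {k K : Type} [Finite k] {f : k → K} (hf : Function.Injective f) (Y : Finset K)
    (h : #Y < Nat.card k) : ∃ a, f a ∉ Y := by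
  by_contra hn
  push Not at hn
  have := Nat.card_le_card_of_injective (fun a => (⟨f a, hn a⟩ : Y)) fun _ _ e =>
    hf (congrArg Subtype.val e)
  rw [Nat.card_eq_finsetCard] at this
  omega

theorem gainL_root {K : Type} [Field K] {N : ℕ} {θ : K} {V : AddSubgroup K} [Finite V]
    (hb : V ≠ ⊥) (hN : Nat.card V ≤ N) (h : ∀ z ∈ V, θ * z ∈ V) :
    θ = 0 ∨ ∃ j, 1 ≤ j ∧ j ≤ N ∧ θ ^ j = 1 := by
  by_cases h0 : θ = 0
  · exact Or.inl h0
  right
  obtain ⟨⟨z, hz⟩, hz0⟩ := AddSubgroup.ne_bot_iff_exists_ne_zero.mp hb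
  have hz1 : z ≠ 0 := fun e => hz0 (Subtype.ext e)
  have hp : ∀ i : ℕ, θ ^ i * z ∈ V := by
    intro i
    induction i with
    | zero => rwa [pow_zero, one_mul]
    | succ i ih => rw [pow_succ', mul_assoc]; exact h _ ih
  have key : ∀ i j : ℕ, i < j → j ≤ N → θ ^ i * z = θ ^ j * z →
      ∃ j, 1 ≤ j ∧ j ≤ N ∧ θ ^ j = 1 := by
    intro i j hij hj e
    refine ⟨j - i, by omega, by omega, ?_⟩
    have e2 := mul_right_cancel₀ hz1 e
    apply mul_left_cancel₀ (pow_ne_zero i h0)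
    rw [← pow_add, Nat.add_sub_cancel' hij.le, mul_one, e2]
  have hni : ¬ Function.Injective (fun i : Fin (N + 1) => (⟨θ ^ (i : ℕ) * z, hp i⟩ : V)) := by
    intro hi
    have := Nat.card_le_card_of_injective _ hi
    rw [Nat.card_eq_fintype_card, Fintype.card_fin] at this
    omega
  obtain ⟨i, j, e, hij⟩ := Function.not_injective_iff.mp hni
  have e' : θ ^ (i : ℕ) * z = θ ^ (j : ℕ) * z := congrArg Subtype.val e
  rcases lt_or_gt_of_ne (Fin.val_ne_of_ne hij) with hl | hl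
  · exact key i j hl (Nat.lt_succ_iff.mp j.2) e'
  · exact key j i hl (Nat.lt_succ_iff.mp i.2) e'.symm

theorem gainL_sq {K : Type} [Field K] [Algebra F2 K] {x : K} (h : x ^ 2 = 1) : x = 1 := by
  have h2 : (2 : K) = 0 := two_eq_zero
  have : (x - 1) ^ 2 = 0 := by linear_combination h - (x - 1) * h2
  exact sub_eq_zero.mp (pow_eq_zero_iff two_ne_zero |>.mp this)

theorem exists_line {v : ℕ} (hv : 2 ≤ v) : ∃ (r : ℕ) (k : Type) (_ : Field k) (_ : Finite k)
    (_ : Algebra F2 k) (f : k →+* Kb) (a b x1 : k), Line v r f a b x1 := by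
  classical
  obtain ⟨r, hr, h1, h2⟩ := Nat.exists_prime_lt_and_le_two_mul (5 * v) (by omega)
  have hcard : Nat.card (GaloisField 2 r) = 2 ^ r := GaloisField.card 2 r hr.ne_zero
  let f : GaloisField 2 r →+* Kb :=
    (IsAlgClosed.lift : GaloisField 2 r →ₐ[ZMod 2] Kb).toRingHom
  have h4 : 3 < Nat.card (GaloisField 2 r) := by
    rw [hcard]
    exact lt_of_lt_of_le (by norm_num : 3 < 2 ^ 2) (Nat.pow_le_pow_right two_pos (by omega))
  obtain ⟨b, hb⟩ := gainL_avoid (Function.injective_id) ({0, 1} : Finset (GaloisField 2 r))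
    (lt_of_le_of_lt Finset.card_le_two (by omega))
  simp only [id, mem_insert, mem_singleton, not_or] at hb
  let Θ : Finset Kb := insert 0 ((Icc 1 (2 ^ v)).biUnion fun j => Polynomial.nthRootsFinset j 1)
  have hΘ : #Θ ≤ 2 * (2 ^ v * 2 ^ v) := by
    have e1 : #((Icc 1 (2 ^ v)).biUnion fun j => Polynomial.nthRootsFinset j (1 : Kb))
        ≤ #(Icc 1 (2 ^ v)) * 2 ^ v := by
      refine card_biUnion_le_card_mul _ _ _ fun j hj => ?_
      rw [Polynomial.nthRootsFinset_def]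
      exact ((Multiset.toFinset_card_le _).trans (Polynomial.card_nthRoots j 1)).trans
        (mem_Icc.mp hj).2
    rw [Nat.card_Icc, Nat.add_sub_cancel] at e1
    have e2 := card_insert_le (0 : Kb)
      ((Icc 1 (2 ^ v)).biUnion fun j => Polynomial.nthRootsFinset j (1 : Kb))
    have e3 : 0 < 2 ^ v * 2 ^ v := by positivity
    show #(insert _ _) ≤ _
    omega
  have mΘ : ∀ θ : Kb, (θ = 0 ∨ ∃ j, 1 ≤ j ∧ j ≤ 2 ^ v ∧ θ ^ j = 1) → θ ∈ Θ := by
    rintro θ (rfl | ⟨j, j1, j2, e⟩)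
    · exact mem_insert_self _ _
    · exact mem_insert_of_mem (mem_biUnion.mpr ⟨j, mem_Icc.mpr ⟨j1, j2⟩,
        (Polynomial.mem_nthRootsFinset j1 1).mpr e⟩)
  let Y : Finset Kb := insert 0 (insert 1 (image₂ (fun s x => s - f b * x) Θ Θ))
  have hY : #Y < Nat.card (GaloisField 2 r) := by
    have e1 : #(image₂ (fun s x => s - f b * x) Θ Θ) ≤ #Θ * #Θ := card_image₂_le _ _ _
    have e2 := Nat.mul_le_mul hΘ hΘ
    have e3 := card_insert_le (1 : Kb) (image₂ (fun s x => s - f b * x) Θ Θ)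
    have e4 := card_insert_le (0 : Kb) (insert 1 (image₂ (fun s x => s - f b * x) Θ Θ))
    have e5 : 2 * (2 ^ v * 2 ^ v) * (2 * (2 ^ v * 2 ^ v)) = 2 ^ (4 * v + 2) := by ring
    have e6 : 2 ^ (4 * v + 3) ≤ 2 ^ r := Nat.pow_le_pow_right two_pos (by omega)
    have e7 : 2 ^ 2 ≤ 2 ^ (4 * v + 2) := Nat.pow_le_pow_right two_pos (by omega)
    rw [pow_succ] at e6
    rw [hcard]
    show #(insert _ _) < _
    omega
  obtain ⟨a, ha⟩ := gainL_avoid f.injective Y hY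
  have ha0 : a ≠ 0 := by rintro rfl; exact ha (by rw [map_zero]; exact mem_insert_self _ _)
  have ha1 : a ≠ 1 := by
    rintro rfl; exact ha (by rw [map_one]; exact mem_insert_of_mem (mem_insert_self _ _))
  obtain ⟨x1, hx⟩ := gainL_avoid (Function.injective_id)
    ({0, -a / b, (1 - a) / b} : Finset (GaloisField 2 r)) (lt_of_le_of_lt card_le_three h4)
  simp only [id, mem_insert, mem_singleton, not_or] at hx
  refine ⟨r, GaloisField 2 r, inferInstance, inferInstance, inferInstance, f, a, b, x1, hcard,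
    h1.le, by omega, gen_of_prime hr hcard ha0 ha1,
    gen_of_prime hr hcard (pow_ne_zero 2 hb.1) (fun e => hb.2 (gainL_sq e)), hb.1,
    gen_of_prime hr hcard (fun e => hx.2.1 ?_) (fun e => hx.2.2 ?_), hx.1, ?_⟩
  · rw [eq_div_iff hb.1]; linear_combination e
  · rw [eq_div_iff hb.1]; linear_combination e
  · intro x V hV hb' hc s1 s2
    have m1 : x ∈ Θ := by
      apply mΘ
      rcases gainL_root hb' hc s1 with e | ⟨j, j1, j2, e⟩
      · exact Or.inl (pow_eq_zero_iff two_ne_zero |>.mp e)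
      · exact Or.inr ⟨j, j1, j2, gainL_sq (by rw [← pow_mul, mul_comm, pow_mul, e])⟩
    have m2 := mΘ _ (gainL_root hb' hc s2)
    apply ha
    refine mem_insert_of_mem (mem_insert_of_mem (mem_image₂.mpr ⟨_, m2, _, m1, ?_⟩))
    ring

end Pool.Agent.Lib.MP_f8d36e_nt
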