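import Pool.Agent.Lib.MP_f8d36e_nt.Scal
import Pool.Agent.Lib.MP_f8d36e_nt.Lim

/-! Job B2b: generators and relations. -/

set_option autoImplicit false

open MvPowerSeries
open scoped MvPowerSeries.WithPiTopology

namespace Pool.Agent.Lib.MP_f8d36e_nt

attribute [local instance 2000] Semiring.toNatAlgebra Ring.toIntAlgebra

theorem relsThm_two : (2 : Lam) ∈ mm := Ideal.subset_span (by simp)

theorem relsThm_S : (X 0 : Lam) ∈ mm := Ideal.subset_span (by simp)

theorem relsThm_T : (X 1 : Lam) ∈ mm := Ideal.subset_span (by simp)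

theorem relsThm_val_mul (a b : F2) : (((a * b).val : ℕ) : Lam) = (a.val : Lam) * (b.val : Lam) := by
  have h : ∀ a b : ZMod 2, (a * b).val = a.val * b.val := by decide
  rw [h, Nat.cast_mul]

theorem relsThm_val_add (a b : F2) :
    ((b.val : Lam) - (a.val : Lam) + (((a + b).val : ℕ) : Lam)) ∈ mm := by
  have h : ∀ a b : ZMod 2, b.val + (a + b).val = a.val ∨ b.val + (a + b).val = a.val + 2 := by
    decide
  rcases h a b with h | h
  · have h1 := congrArg (Nat.cast : ℕ → Lam) h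
    push_cast at h1
    rw [show (b.val : Lam) - (a.val : Lam) + (((a + b).val : ℕ) : Lam) = 0 by
      linear_combination h1]
    exact mm.zero_mem
  · have h1 := congrArg (Nat.cast : ℕ → Lam) h
    push_cast at h1
    rw [show (b.val : Lam) - (a.val : Lam) + (((a + b).val : ℕ) : Lam) = 2 by
      linear_combination h1]
    exact relsThm_two

section Alg
variable {M : Type} [AddCommGroup M] [Module Lam M]

theorem relsThm_mem1 {a : Lam} (ha : a ∈ mm) (y : M) : a • y ∈ mm • (⊤ : Submodule Lam M) :=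
  Submodule.smul_mem_smul ha Submodule.mem_top

theorem relsThm_mem2 {a : Lam} (ha : a ∈ mm) {y : M} (hy : y ∈ mm • (⊤ : Submodule Lam M)) :
    a • y ∈ mm ^ 2 • (⊤ : Submodule Lam M) := by
  rw [pow_two, Submodule.mul_smul]
  exact Submodule.smul_mem_smul ha hy

theorem relsThm_char (ψ : M →+ F2) {ι : Type} [Fintype ι] (a : ι → F2) (x : ι → M) :
    ψ (∑ i, ((a i).val : Lam) • x i) = a ⬝ᵥ fun i => ψ (x i) := by
  rw [map_sum]
  refine Finset.sum_congr rfl fun i _ => ?_
  rw [Nat.cast_smul_eq_nsmul, map_nsmul, nsmul_eq_mul, ZMod.natCast_zmod_val]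

theorem relsThm_nat (r : AddMonoid.End M) (n : ℕ) (y : M) :
    r ((n : Lam) • y) = (n : Lam) • r y := by
  rw [Nat.cast_smul_eq_nsmul, Nat.cast_smul_eq_nsmul, map_nsmul]

/-- The norm operator on `mm M`. -/
theorem relsThm_norm2 {r : AddMonoid.End M} {μ' : Lam} (hμ : μ' - 1 ∈ mm)
    (hS : ∀ y, r ((X 0 : Lam) • y) = (X 0 * μ' : Lam) • r y)
    (hT : ∀ y, r ((X 1 : Lam) • y) = (X 1 : Lam) • r y)
    (h1 : ∀ y, ∃ z, r y + y = (X 0 : Lam) • z) {v : M} (hv : v ∈ mm • (⊤ : Submodule Lam M)) :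
    ∃ z ∈ mm • (⊤ : Submodule Lam M), r v + v = (X 0 : Lam) • z := by
  refine Submodule.smul_induction_on hv (fun f hf y _ => ?_) ?_
  · obtain ⟨a, g, hg, rfl⟩ := Ideal.mem_span_insert.1 hf
    obtain ⟨b, c, rfl⟩ := Ideal.mem_span_pair.1 hg
    obtain ⟨za, ha⟩ := h1 (a • y)
    obtain ⟨zb, hb⟩ := h1 (b • y)
    obtain ⟨zc, hc⟩ := h1 (c • y)
    have e : (a * 2 + (b * X 0 + c * X 1) : Lam) • y =
        ((2 : ℕ) : Lam) • a • y + (X 0 : Lam) • b • y + (X 1 : Lam) • c • y := by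
      push_cast
      module
    refine ⟨(2 : Lam) • za + ((X 0 : Lam) • μ' • zb - (μ' - 1) • b • y) + (X 1 : Lam) • zc,
      add_mem (add_mem (relsThm_mem1 relsThm_two _)
        (sub_mem (relsThm_mem1 relsThm_S _) (relsThm_mem1 hμ _))) (relsThm_mem1 relsThm_T _), ?_⟩
    rw [e, map_add, map_add, relsThm_nat, hS, hT]
    push_cast
    linear_combination (norm := module) (2 : Lam) • ha + (X 0 * μ' : Lam) • hb + (X 1 : Lam) • hc
  · rintro x y ⟨z, hz, e⟩ ⟨z', hz', e'⟩
    refine ⟨z + z', add_mem hz hz', ?_⟩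
    rw [map_add]
    linear_combination (norm := module) e + e'

/-- The norm operator on an element that is known modulo `mm M`. -/
theorem relsThm_norm3 {ι : Type} [Fintype ι] {r : AddMonoid.End M} {x : ι → M} {β : ι → F2}
    {μ : ι → Lam} (hμ : ∀ j, μ j - ((β j).val : Lam) ∈ mm)
    (hx : ∀ j, (1 + X 0 * μ j : Lam) • r (x j) = -x j)
    (h1 : ∀ y, ∃ z, r y + y = (X 0 : Lam) • z)
    (h2 : ∀ v ∈ mm • (⊤ : Submodule Lam M),
      ∃ z ∈ mm • (⊤ : Submodule Lam M), r v + v = (X 0 : Lam) • z)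
    (a : ι → F2) {v : M} (hv : v - ∑ j, ((a j).val : Lam) • x j ∈ mm • (⊤ : Submodule Lam M)) :
    ∃ z ∈ mm • (⊤ : Submodule Lam M),
      r v + v = (X 0 : Lam) • (∑ j, ((a j * β j).val : Lam) • x j + z) := by
  have key : ∀ j, ∃ z ∈ mm • (⊤ : Submodule Lam M),
      r (x j) + x j = (X 0 : Lam) • (((β j).val : Lam) • x j + z) := by
    intro j
    obtain ⟨z, hz⟩ := h1 (x j)
    refine ⟨(μ j - ((β j).val : Lam)) • x j - (X 0 : Lam) • μ j • z,
      sub_mem (relsThm_mem1 (hμ j) _) (relsThm_mem1 relsThm_S _), ?_⟩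
    linear_combination (norm := module) hx j - (X 0 * μ j : Lam) • hz
  choose z hz e using key
  obtain ⟨z0, hz0, e0⟩ := h2 _ hv
  refine ⟨z0 + ∑ j, ((a j).val : Lam) • z j,
    add_mem hz0 (Submodule.sum_mem _ fun j _ => Submodule.smul_mem _ _ (hz j)), ?_⟩
  have e1 : r (∑ j, ((a j).val : Lam) • x j) + ∑ j, ((a j).val : Lam) • x j =
      (X 0 : Lam) • (∑ j, ((a j * β j).val : Lam) • x j + ∑ j, ((a j).val : Lam) • z j) := by
    rw [map_sum, ← Finset.sum_add_distrib, ← Finset.sum_add_distrib, Finset.smul_sum]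
    refine Finset.sum_congr rfl fun j _ => ?_
    rw [relsThm_nat, relsThm_val_mul]
    linear_combination (norm := module) ((a j).val : Lam) • e j
  rw [map_sub] at e0
  linear_combination (norm := module) e0 + e1

/-- The commutator relation to first order. -/
theorem relsThm_row {ι : Type} [Fintype ι] {x : ι → M} {β a : ι → F2} {b t : F2} {μ ν : Lam}
    {y ry x0 z : M} (hμ : μ - (b.val : Lam) ∈ mm) (hν : ν - (t.val : Lam) ∈ mm)
    (hy : y - ∑ j, ((a j).val : Lam) • x j ∈ mm • (⊤ : Submodule Lam M))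
    (hz : z ∈ mm • (⊤ : Submodule Lam M))
    (e1 : ry + y = (X 0 : Lam) • (∑ j, ((a j * β j).val : Lam) • x j + z))
    (e2 : y + (1 + X 1 * ν : Lam) • x0 = x0 + (1 + X 0 * μ : Lam) • ry) :
    ((t.val : Lam) * X 1) • x0 +
      ∑ j, (((a j).val : Lam) * (2 + ((b + β j).val : Lam) * X 0)) • x j ∈
        mm ^ 2 • (⊤ : Submodule Lam M) := by
  have e3 : ∑ j, (((a j).val : Lam) * (2 + ((b + β j).val : Lam) * X 0)) • x j =
      (X 0 : Lam) • ∑ j, (((β j).val : Lam) - (b.val : Lam) + ((b + β j).val : Lam)) •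
        ((a j).val : Lam) • x j + (2 + X 0 * (b.val : Lam) : Lam) • ∑ j, ((a j).val : Lam) • x j -
        (X 0 : Lam) • ∑ j, ((a j * β j).val : Lam) • x j := by
    simp only [Finset.smul_sum]
    rw [← Finset.sum_add_distrib, ← Finset.sum_sub_distrib]
    refine Finset.sum_congr rfl fun j _ => ?_
    rw [relsThm_val_mul]
    module
  have m1 := relsThm_mem2 relsThm_S (Submodule.sum_mem _ fun j (_ : j ∈ Finset.univ) =>
    relsThm_mem1 (relsThm_val_add b (β j)) (((a j).val : Lam) • x j))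
  have m2 := relsThm_mem2 relsThm_T (relsThm_mem1 hν x0)
  have m3 := relsThm_mem2 relsThm_S hz
  have m4 := relsThm_mem2 relsThm_S
    (relsThm_mem1 relsThm_S (μ • (∑ j, ((a j * β j).val : Lam) • x j + z)))
  have m5 := relsThm_mem2 (add_mem relsThm_two (mm.mul_mem_right (b.val : Lam) relsThm_S)) hy
  have m6 := relsThm_mem2 relsThm_S (relsThm_mem1 hμ y)
  have m := sub_mem (sub_mem (add_mem (add_mem (sub_mem m1 m2) m3) m4) m5) m6
  rw [e3]
  refine (congrArg (· ∈ mm ^ 2 • (⊤ : Submodule Lam M)) ?_).mp m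
  linear_combination (norm := module) -e2 - (1 + X 0 * μ : Lam) • e1

variable [TopologicalSpace M] [IsTopologicalAddGroup M] [CompactSpace M] [T2Space M]
  [ContinuousSMul Lam M]

theorem relsThm_ind {ι : Type} {x : ι → M} (Q : AddSubgroup M) (hQ : IsClosed (Q : Set M))
    (h : ∀ i, ∀ y ∈ Q, (X i : Lam) • y ∈ Q) (hx : ∀ i, x i ∈ Q) {y : M}
    (hy : y ∈ Submodule.span Lam (Set.range x)) : y ∈ Q := by
  induction hy using Submodule.span_induction with
  | mem _ h => obtain ⟨i, rfl⟩ := h; exact hx i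
  | zero => exact Q.zero_mem
  | add _ _ _ _ h h' => exact Q.add_mem h h'
  | smul f _ _ h' => exact smul_mem_of_closed Q hQ h f _ h'

/-- The span of the generators is stable under the involution. -/
theorem relsThm_stab {ι : Type} [Fintype ι] {r : AddMonoid.End M} (hr : Continuous r) {μ' : Lam}
    (hS : ∀ y, r ((X 0 : Lam) • y) = (X 0 * μ' : Lam) • r y)
    (hT : ∀ y, r ((X 1 : Lam) • y) = (X 1 : Lam) • r y) {x : ι → M}
    (hx : ∀ j, r (x j) ∈ Submodule.span Lam (Set.range x)) {y : M}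
    (hy : y ∈ Submodule.span Lam (Set.range x)) : r y ∈ Submodule.span Lam (Set.range x) := by
  refine relsThm_ind ((Submodule.span Lam (Set.range x)).toAddSubgroup.comap r)
    ((isClosed_span x).preimage hr) (fun i z hz => ?_) hx hy
  show r ((X i : Lam) • z) ∈ Submodule.span Lam (Set.range x)
  fin_cases i
  · exact (hS z).symm ▸ Submodule.smul_mem _ _ hz
  · exact (hT z).symm ▸ Submodule.smul_mem _ _ hz

/-- The norm operator has values in `S M`. -/
theorem relsThm_norm1 {ι : Type} {r : AddMonoid.End M} (hr : Continuous r) {μ' : Lam}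
    (hS : ∀ y, r ((X 0 : Lam) • y) = (X 0 * μ' : Lam) • r y)
    (hT : ∀ y, r ((X 1 : Lam) • y) = (X 1 : Lam) • r y) {x : ι → M} {μ : ι → Lam}
    (hx : ∀ j, (1 + X 0 * μ j : Lam) • r (x j) = -x j)
    (hs : Submodule.span Lam (Set.range x) = ⊤) (y : M) : ∃ z, r y + y = (X 0 : Lam) • z := by
  let Q : AddSubgroup M :=
    { carrier := {y | ∃ z, (X 0 : Lam) • z = r y + y}
      zero_mem' := ⟨0, by simp⟩
      add_mem' := by
        rintro a b ⟨z, e⟩ ⟨z', e'⟩
        refine ⟨z + z', ?_⟩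
        rw [map_add]
        linear_combination (norm := module) e + e'
      neg_mem' := by
        rintro a ⟨z, e⟩
        refine ⟨-z, ?_⟩
        rw [map_neg]
        linear_combination (norm := module) -e }
  have hQ : IsClosed (Q : Set M) :=
    (isCompact_range (continuous_const_smul (X 0 : Lam))).isClosed.preimage
      (hr.add continuous_id)
  obtain ⟨z, hz⟩ : y ∈ Q := by
    refine relsThm_ind Q hQ (fun i a ha => ?_) (fun j => ⟨-(μ j • r (x j)), ?_⟩)
      (hs.symm ▸ Submodule.mem_top)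
    · obtain ⟨z, e⟩ := ha
      fin_cases i
      · refine ⟨μ' • r a + a, ?_⟩
        show _ = r ((X 0 : Lam) • a) + (X 0 : Lam) • a
        rw [hS]
        module
      · refine ⟨(X 1 : Lam) • z, ?_⟩
        show _ = r ((X 1 : Lam) • a) + (X 1 : Lam) • a
        rw [hT]
        linear_combination (norm := module) (X 1 : Lam) • e
    · linear_combination (norm := module) -hx j
  exact ⟨z, hz.symm⟩

end Alg

section Grp
variable {G : Type} [Group G] [TopologicalSpace G] {K N : Subgroup G} [K.Normal]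
  {M : Type} [AddCommGroup M] [TopologicalSpace M]

omit [K.Normal] in
theorem relsThm_act_one (cx : Ctx K N M) {k : G} (hk : k ∈ K) : cx.act k = 1 := by
  refine AddMonoidHom.ext fun y => ?_
  obtain ⟨z, hz⟩ := cx.surj (Multiplicative.ofAdd y)
  have h1 := cx.spec k z (⟨k, hk⟩ * z * ⟨k, hk⟩⁻¹) rfl
  rw [cx.π.map_mul, cx.π.map_mul, cx.π.map_inv, mul_inv_cancel_comm, hz] at h1
  exact h1.symm

/-- The cocycle attached to the decomposition `G = K D`. -/
theorem relsThm_delta [IsTopologicalGroup G] [CompactSpace G] [T2Space G] (cx : Ctx K N M)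
    (hN : N ≤ K) (hK : IsClosed (K : Set G)) {D : Subgroup G} (hD : IsClosed (D : Set G))
    (hDK : D ⊓ K ≤ N) (dec : ∀ g : G, ∃ k : K, ∃ d ∈ D, g = k * d) :
    ∃ δ : G → M, Continuous δ ∧ (∀ g h, δ (g * h) = δ g + cx.act g (δ h)) ∧
      (∀ g ∈ N, δ g = 0) ∧ (∀ g ∈ D, δ g = 0) ∧ Function.Surjective δ := by
  choose κ d hd e using dec
  have key : ∀ (k : K) (d' : G), d' ∈ D → cx.π (κ (k * d')) = cx.π k := by
    intro k d' hd'
    have h1 : ((k⁻¹ * κ (k * d') : K) : G) = d' * (d (k * d'))⁻¹ := by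
      have := e (k * d')
      rw [Subgroup.coe_mul, Subgroup.coe_inv, inv_mul_eq_iff_eq_mul, ← mul_assoc,
        eq_mul_inv_iff_mul_eq]
      exact this.symm
    have h2 : k⁻¹ * κ (k * d') ∈ cx.π.ker := by
      rw [cx.ker, Subgroup.mem_subgroupOf]
      exact hDK ⟨h1 ▸ D.mul_mem hd' (D.inv_mem (hd _)), (k⁻¹ * κ (k * d')).2⟩
    rw [MonoidHom.mem_ker, map_mul, map_inv, inv_mul_eq_one] at h2
    exact h2.symm
  have keyK : ∀ k : K, cx.π (κ k) = cx.π k := fun k => by
    simpa using key k 1 D.one_mem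
  refine ⟨fun g => (cx.π (κ g)).toAdd, ?_, fun g h => ?_, fun g hg => ?_, fun g hg => ?_,
    fun y => ?_⟩
  · have := isCompact_iff_compactSpace.1 hK.isCompact
    have := isCompact_iff_compactSpace.1 hD.isCompact
    have hc : Continuous fun z : K × D => (z.1 : G) * (z.2 : G) := by fun_prop
    have hq := hc.isClosedMap.isQuotientMap hc fun g => ⟨(κ g, ⟨d g, hd g⟩), (e g).symm⟩
    rw [hq.continuous_iff]
    have h1 : ((fun g => (cx.π (κ g)).toAdd) ∘ fun z : K × D => (z.1 : G) * (z.2 : G)) =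
        fun z : K × D => (cx.π z.1).toAdd := funext fun z => congrArg _ (key z.1 z.2 z.2.2)
    rw [h1]
    exact continuous_toAdd.comp (cx.cont.comp continuous_fst)
  · let y : K := ⟨d g * κ h * (d g)⁻¹, ‹K.Normal›.conj_mem _ (κ h).2 _⟩
    have h1 : g * h = (κ g * y : K) * (d g * d h) := by
      conv_lhs => rw [e g, e h]
      simp only [y, Subgroup.coe_mul]
      group
    have h2 : cx.act g = cx.act (d g) := by
      conv_lhs => rw [e g, map_mul, relsThm_act_one cx (κ g).2, one_mul]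
    show (cx.π (κ (g * h))).toAdd = _
    rw [h1, key _ _ (D.mul_mem (hd g) (hd h)), map_mul, toAdd_mul, cx.spec (d g) (κ h) y rfl, h2]
  · have h1 : (⟨g, hN hg⟩ : K) ∈ cx.π.ker := by
      rw [cx.ker]
      exact hg
    exact congrArg _ ((keyK ⟨g, hN hg⟩).trans h1)
  · have h1 := key 1 g hg
    rw [Subgroup.coe_one, one_mul, map_one] at h1
    exact congrArg _ h1
  · obtain ⟨z, hz⟩ := cx.surj (Multiplicative.ofAdd y)
    exact ⟨z, congrArg _ ((keyK z).trans hz)⟩

end Grp

theorem exists_rels {ι : Type} [Fintype ι] [DecidableEq ι] {G : Type} [Group G]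
    [TopologicalSpace G] [IsTopologicalGroup G] [CompactSpace G] [TotallyDisconnectedSpace G]
    {u w β : ι → F2} {R : Matrix ι ι F2} {A K N : Subgroup G} [K.Normal] [N.Normal]
    (s : Setup u w R A N) {e : A →* Multiplicative (Fin 2 → ℤ_[2])} (he : Coord s β e)
    (hKA : K ≤ A) (hK : ∀ x : A, e x = 1 ↔ (x : G) ∈ K) (hN : N ≤ K) (h2 : ProTwo N)
    (hD : s.D ⊓ K ≤ N) {M : Type} [AddCommGroup M] [TopologicalSpace M] [IsTopologicalAddGroup M]
    [CompactSpace M] [T2Space M] [Module Lam M] [ContinuousSMul Lam M] (cx : Ctx K N M)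
    (hX : ∀ (i : Fin 2) (g : A), e g = Multiplicative.ofAdd (Pi.single i 1) →
      ∀ x : M, cx.act g x = (1 + X i : Lam) • x) :
    ∃ x : ι → M, Rels u w β R x := by
  have hA : IsClosed (A : Set G) := A.isClosed_of_isOpen s.isOpen
  have hAn : A.Normal := A.normal_of_index_eq_two s.index
  have hKc : IsClosed (K : Set G) := by
    have h1 : (K : Set G) = Subtype.val '' (e ⁻¹' {1}) := by
      ext g
      exact ⟨fun h => ⟨⟨g, hKA h⟩, (hK _).2 h, rfl⟩, fun ⟨y, h, e'⟩ => e' ▸ (hK y).1 h⟩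
    rw [h1]
    exact hA.isClosedEmbedding_subtypeVal.isClosedMap _ (isClosed_singleton.preimage he.cont)
  obtain ⟨δ, δc, δm, δN, δD, δs⟩ := relsThm_delta cx hN hKc s.closed hD fun g => by
    obtain ⟨d, hd, y, h, e'⟩ := he.dec g
    exact ⟨⟨y, (hK y).1 h⟩, d, hd, e'⟩
  have sc := exists_scalar hA he.cont he.surj cx.act cx.cont_act
    (fun g h => relsThm_act_one cx ((hK g).1 h)) hX
  have mul : ∀ (g h : G) (y : M), cx.act (g * h) y = cx.act g (cx.act h y) := fun g h y => by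
    rw [map_mul]
    rfl
  have actN : ∀ g ∈ N, ∀ y : M, cx.act g y = y := fun g hg y => by
    rw [relsThm_act_one cx (hN hg)]
    rfl
  have δ1 : δ 1 = 0 := δN 1 N.one_mem
  -- elements of `A` act through scalars
  have scal : ∀ g ∈ A, ∃ l : Lam, l - 1 ∈ mm ∧ ∀ y : M, cx.act g y = l • y := by
    intro g hg
    obtain ⟨g0, h0⟩ := he.surj (Multiplicative.ofAdd (Pi.single 0 ((e ⟨g, hg⟩).toAdd 0)))
    obtain ⟨g1, h1⟩ := he.surj (Multiplicative.ofAdd (Pi.single 1 ((e ⟨g, hg⟩).toAdd 1)))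
    obtain ⟨μ, -, hμ⟩ := sc 0 g0 fun j hj => by rw [h0, toAdd_ofAdd, Pi.single_eq_of_ne hj]
    obtain ⟨ν, -, hν⟩ := sc 1 g1 fun j hj => by rw [h1, toAdd_ofAdd, Pi.single_eq_of_ne hj]
    have h3 : e ((g0 * g1)⁻¹ * ⟨g, hg⟩) = 1 := by
      rw [map_mul, map_inv, inv_mul_eq_one, map_mul, h0, h1]
      apply Multiplicative.toAdd.injective
      funext j
      fin_cases j <;> simp
    have h4 := relsThm_act_one cx ((hK _).1 h3)
    have h5 : g = (g0 : G) * (g1 * (((g0 * g1)⁻¹ * ⟨g, hg⟩ : A) : G)) := by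
      simp only [Subgroup.coe_mul, Subgroup.coe_inv]
      group
    refine ⟨(1 + X 0 * μ) * (1 + X 1 * ν), ?_, fun y => ?_⟩
    · rw [show (1 + X 0 * μ) * (1 + X 1 * ν) - 1 = X 0 * (μ * (1 + X 1 * ν)) + X 1 * ν by ring]
      exact add_mem (mm.mul_mem_right _ relsThm_S) (mm.mul_mem_right _ relsThm_T)
    · rw [h5, mul, mul, h4, hμ, hν, mul_smul]
      rfl
  have hr : Continuous (cx.act s.c) := cx.cont_act.comp (continuous_const.prodMk continuous_id)
  have hT : ∀ y : M, cx.act s.c ((X 1 : Lam) • y) = (X 1 : Lam) • cx.act s.c y := by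
    intro y
    obtain ⟨g, hg⟩ := he.surj (Multiplicative.ofAdd (Pi.single 1 1))
    have h1 := he.conj g ⟨_, hAn.conj_mem _ g.2 s.c⟩ rfl
    have h3 := hX 1 ⟨_, hAn.conj_mem _ g.2 s.c⟩ (by
      apply Multiplicative.toAdd.injective
      funext j
      fin_cases j
      · simpa [hg] using h1.1
      · simpa [hg] using h1.2) (cx.act s.c y)
    rw [← mul, inv_mul_cancel_right, mul, hX 1 g hg, add_smul, one_smul, map_add, add_smul,
      one_smul] at h3
    exact add_left_cancel h3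
  obtain ⟨μ', hμ', hS⟩ : ∃ μ' : Lam, μ' - 1 ∈ mm ∧
      ∀ y : M, cx.act s.c ((X 0 : Lam) • y) = (X 0 * μ' : Lam) • cx.act s.c y := by
    obtain ⟨g, hg⟩ := he.surj (Multiplicative.ofAdd (Pi.single 0 1))
    have h1 := he.conj g ⟨_, hAn.conj_mem _ g.2 s.c⟩ rfl
    obtain ⟨μ, h3, h4⟩ := sc 0 ⟨_, hAn.conj_mem _ g.2 s.c⟩ fun j hj => by
      fin_cases j
      · exact absurd rfl hj
      · simpa [hg] using h1.2
    refine ⟨μ, ?_, fun y => ?_⟩
    · have h5 : ((-1 : ZMod 2).val) = 1 := by decide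
      rwa [h1.1, hg, toAdd_ofAdd, Pi.single_eq_same, map_neg, map_one, h5, Nat.cast_one] at h3
    · have h5 := h4 (cx.act s.c y)
      rw [← mul, inv_mul_cancel_right, mul, hX 0 g hg, add_smul, one_smul, map_add, add_smul,
        one_smul] at h5
      exact add_left_cancel h5
  have hci : s.c⁻¹ ∉ A := fun h => s.c_not (A.inv_mem_iff.1 h)
  have odd : ∀ g ∉ A, g * s.c⁻¹ ∈ A := fun g hg =>
    (Subgroup.mul_mem_iff_of_index_two s.index).2 (iff_of_false hg hci)
  have tau : ∀ j, ∃ μ : Lam, μ - ((β j).val : Lam) ∈ mm ∧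
      ∀ y : M, cx.act (s.τ j) y = (1 + X 0 * μ : Lam) • cx.act s.c y := by
    intro j
    have h1 := he.tau j ⟨_, odd _ (s.τ_not j)⟩ rfl
    obtain ⟨μ, h3, h4⟩ := sc 0 ⟨_, odd _ (s.τ_not j)⟩ fun i hi => by
      fin_cases i
      · exact absurd rfl hi
      · exact h1.2
    refine ⟨μ, h1.1 ▸ h3, fun y => ?_⟩
    rw [← h4, ← mul, inv_mul_cancel_right]
  choose μ hμ hτ using tau
  have neg : ∀ j, cx.act (s.τ j) (δ (s.τ j)) = -δ (s.τ j) := fun j =>
    eq_neg_of_add_eq_zero_right ((δm _ _).symm.trans (δN _ (s.τ_sq j)))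
  have hx : ∀ j, (1 + X 0 * μ j : Lam) • cx.act s.c (δ (s.τ j)) = -δ (s.τ j) := fun j =>
    (hτ j _).symm.trans (neg j)
  -- the generators span
  have span : Submodule.span Lam (Set.range fun j => δ (s.τ j)) = ⊤ := by
    have st : ∀ g, ∀ y ∈ Submodule.span Lam (Set.range fun j => δ (s.τ j)),
        cx.act g y ∈ Submodule.span Lam (Set.range fun j => δ (s.τ j)) := by
      intro g y hy
      by_cases hg : g ∈ A
      · obtain ⟨l, -, hl⟩ := scal g hg
        exact (hl y).symm ▸ Submodule.smul_mem _ _ hy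
      · obtain ⟨l, -, hl⟩ := scal _ (odd g hg)
        rw [← inv_mul_cancel_right g s.c, mul, hl]
        refine Submodule.smul_mem _ _ (relsThm_stab hr hS hT (fun j => ?_) hy)
        obtain ⟨l', -, hl'⟩ := scal _ (A.inv_mem (odd _ (s.τ_not j)))
        have h1 : s.c = (s.τ j * s.c⁻¹)⁻¹ * s.τ j := by group
        rw [h1, mul, neg, hl']
        exact Submodule.smul_mem _ _ (neg_mem (Submodule.subset_span ⟨j, rfl⟩))
    let H : Subgroup G :=
      { carrier := δ ⁻¹' (Submodule.span Lam (Set.range fun j => δ (s.τ j)) : Submodule Lam M)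
        one_mem' := by
          show δ 1 ∈ Submodule.span Lam (Set.range fun j => δ (s.τ j))
          rw [δ1]
          exact zero_mem _
        mul_mem' := fun {a b} ha hb => by
          show δ (a * b) ∈ Submodule.span Lam (Set.range fun j => δ (s.τ j))
          rw [δm]
          exact add_mem ha (st _ _ hb)
        inv_mem' := fun {a} ha => by
          show δ a⁻¹ ∈ Submodule.span Lam (Set.range fun j => δ (s.τ j))
          have h1 := δm a⁻¹ a
          rw [inv_mul_cancel, δ1] at h1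
          rw [eq_neg_of_add_eq_zero_left h1.symm]
          exact neg_mem (st _ _ ha) }
    have h0 : ∀ g, δ g = 0 → g ∈ H := fun g hg => by
      show δ g ∈ Submodule.span Lam (Set.range fun j => δ (s.τ j))
      rw [hg]
      exact zero_mem _
    have hH : H = ⊤ := by
      by_contra hne
      obtain ⟨χ, c1, c2, c3⟩ := exists_char h2 H (fun g hg => h0 g (δN g hg))
        ((isClosed_span _).preimage δc) hne
      obtain ⟨β', ε, η, b1, -, -, b2, b3⟩ := s.chars χ c1 fun g hg => c3 g (h0 g (δN g hg))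
      obtain ⟨b4, b5, -⟩ := b2 fun g hg => c3 g (h0 g (δD g hg))
      refine c2 (b3 (funext fun j => ?_) b4 b5)
      rw [← b1 j, c3 (s.τ j) (Submodule.subset_span ⟨j, rfl⟩)]
      rfl
    refine eq_top_iff.2 fun y _ => ?_
    obtain ⟨g, rfl⟩ := δs y
    exact (hH.symm ▸ Subgroup.mem_top g : g ∈ H)
  have n1 := relsThm_norm1 hr hS hT hx span
  have n3 := relsThm_norm3 hμ hx n1 fun v hv => relsThm_norm2 hμ' hS hT n1 hv
  have triv : ∀ (g : G) (y : M), cx.act g y - y ∈ mm • (⊤ : Submodule Lam M) := by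
    intro g y
    by_cases hg : g ∈ A
    · obtain ⟨l, h1, hl⟩ := scal g hg
      rw [hl, show l • y - y = (l - 1) • y by module]
      exact relsThm_mem1 h1 y
    · obtain ⟨l, h1, hl⟩ := scal _ (odd g hg)
      obtain ⟨z, hz⟩ := n1 y
      rw [← inv_mul_cancel_right g s.c, mul, hl, show l • cx.act s.c y - y =
        (l - 1) • cx.act s.c y + (X 0 : Lam) • z - (2 : Lam) • y by
          linear_combination (norm := module) hz]
      exact sub_mem (add_mem (relsThm_mem1 h1 _) (relsThm_mem1 relsThm_S _))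
        (relsThm_mem1 relsThm_two _)
  have chars : ∀ ψ : M →+ F2, Continuous ψ → (∀ y ∈ mm • (⊤ : Submodule Lam M), ψ y = 0) →
      (w ⬝ᵥ fun j => ψ (δ (s.τ j))) = 0 ∧
      (∀ i, ψ (δ (s.φ i)) = R i ⬝ᵥ fun j => ψ (δ (s.τ j))) ∧
      ψ (δ s.c) = u ⬝ᵥ fun j => ψ (δ (s.τ j)) := by
    intro ψ p1 p2
    let χ : G →* Multiplicative F2 := MonoidHom.mk' (fun g => Multiplicative.ofAdd (ψ (δ g)))
      fun g h => by
        have h1 := p2 _ (triv g (δ h))
        rw [map_sub, sub_eq_zero] at h1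
        rw [δm, map_add, h1, ofAdd_add]
    have z0 : ∀ g, δ g = 0 → χ g = 1 := fun g hg => by
      show Multiplicative.ofAdd (ψ (δ g)) = 1
      rw [hg, map_zero, ofAdd_zero]
    obtain ⟨β', ε, η, b1, b2, b3, b4, -⟩ :=
      s.chars χ (continuous_ofAdd.comp (p1.comp δc)) fun g hg => z0 g (δN g hg)
    obtain ⟨rfl, rfl, b5⟩ := b4 fun g hg => z0 g (δD g hg)
    obtain rfl : (fun j => ψ (δ (s.τ j))) = β' := funext b1
    refine ⟨b5, fun i => ?_, ?_⟩
    · have := b2 i
      rw [zero_mul, zero_mul, zero_add, zero_add] at this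
      exact this
    · rw [zero_add] at b3
      exact b3
  have sw : ∑ i, ((w i).val : Lam) • δ (s.τ i) ∈ mm • (⊤ : Submodule Lam M) :=
    mem_mm_smul span fun ψ p1 p2 => (relsThm_char ψ w _).trans (chars ψ p1 p2).1
  refine ⟨fun j => δ (s.τ j), span, fun i => ?_, sw, ?_, ?_⟩
  · have hy : δ (s.φ i) - ∑ j, ((R i j).val : Lam) • δ (s.τ j) ∈ mm • (⊤ : Submodule Lam M) :=
      mem_mm_smul span fun ψ p1 p2 => by
        rw [map_sub, relsThm_char ψ (R i), (chars ψ p1 p2).2.1 i, sub_self]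
    obtain ⟨z, hz, e1⟩ := n3 (R i) hy
    have h1 := he.phi i ⟨_, s.φ_mem i⟩ rfl
    obtain ⟨ν, h3, h4⟩ := sc 1 ⟨_, s.φ_mem i⟩ fun j hj => by
      fin_cases j
      · exact h1.1
      · exact absurd rfl hj
    rw [h1.2] at h3
    refine relsThm_row (hμ i) h3 hy hz e1 ?_
    have h5 : s.φ i * s.τ i =
        s.φ i * s.τ i * (s.φ i)⁻¹ * (s.τ i)⁻¹ * (s.τ i * s.φ i) := by group
    have h6 := congrArg δ h5
    rw [δm, δm _ (_ * _), δN _ (s.comm i), zero_add, actN _ (s.comm i), δm, hτ] at h6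
    rw [← h4]
    exact h6
  · obtain ⟨z, hz, e1⟩ := n3 w (v := 0) (by rw [zero_sub]; exact neg_mem sw)
    refine ⟨-z, neg_mem hz, ?_⟩
    rw [sub_neg_eq_add, ← e1, map_zero, add_zero]
  · have hy : δ s.c - ∑ j, ((u j).val : Lam) • δ (s.τ j) ∈ mm • (⊤ : Submodule Lam M) :=
      mem_mm_smul span fun ψ p1 p2 => by
        rw [map_sub, relsThm_char ψ u, (chars ψ p1 p2).2.2, sub_self]
    obtain ⟨z, hz, e1⟩ := n3 u hy
    refine ⟨-z, neg_mem hz, ?_⟩
    rw [sub_neg_eq_add, ← e1, add_comm, ← δm, s.c_sq, δ1]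

end Pool.Agent.Lib.MP_f8d36e_nt
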