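import Pool.Agent.Lib.MP_f8d36e_nt.Chars
import Pool.Agent.Lib.MP_f8d36e_nt.Groups
import Pool.Agent.Lib.MP_f8d36e_nt.Struct
import Pool.Agent.Lib.MP_f8d36e_nt.CtxEx
import Pool.Agent.Lib.MP_f8d36e_nt.Act
import Pool.Agent.Lib.MP_f8d36e_nt.RelsThm
import Pool.Agent.Lib.MP_f8d36e_nt.Ann
import Pool.Agent.Lib.MP_f8d36e_nt.CMAll
import Pool.Agent.Lib.MP_f8d36e_nt.Anti

/-! The criterion implies the conjecture. -/

set_option autoImplicit false

open scoped IntermediateField MvPowerSeries.WithPiTopology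

namespace Pool.Agent.Lib.MP_f8d36e_nt

theorem Ctx.act_eq {G : Type} [Group G] [TopologicalSpace G] {K N : Subgroup G} [K.Normal]
    {M : Type} [AddCommGroup M] [TopologicalSpace M] (cx : Ctx K N M) {g h : G}
    (e : g * h⁻¹ ∈ K) : cx.act g = cx.act h := by
  have h1 : cx.act (g * h⁻¹) = 1 := by
    ext v
    obtain ⟨x, hx⟩ := cx.surj (Multiplicative.ofAdd v)
    have h2 := cx.spec (g * h⁻¹) x (⟨_, e⟩ * x * ⟨_, e⟩⁻¹) rfl
    rw [map_mul cx.π, map_mul cx.π, map_inv cx.π, mul_inv_cancel_comm, hx] at h2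
    exact h2.symm
  calc cx.act g = cx.act (g * h⁻¹ * h) := by rw [inv_mul_cancel_right]
    _ = cx.act h := by rw [map_mul, h1, one_mul]

theorem ggc_of_crit {m : ℕ} (hm : Squarefree m) (h8 : m % 8 = 5) (hc : CritN m) {θ : Qbar}
    (hθ : θ ^ 2 = -(m : Qbar)) : GGC 2 2 ℚ⟮θ⟯.fixingSubgroup := by
  obtain ⟨β, hu, a, b, hg⟩ := hc
  set H := ℚ⟮θ⟯.fixingSubgroup with hH
  have hθ' : θ ^ 2 = ((-(m : ℤ) : ℤ) : Qbar) := by simpa using hθ
  have hi : H.index = 2 := fixing_index (d := -(m : ℤ))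
    (by rw [← Int.squarefree_natAbs]; simpa using hm) (by omega) hθ'
  have ho : IsOpen (H : Set Gam) := fixing_open
  have hcl : IsClosed (H : Set Gam) := H.isClosed_of_isOpen ho
  have hn : H.Normal := Subgroup.normal_of_index_eq_two hi
  set K := tildeGal 2 H with hK
  have hKn : K.Normal := tilde_normal
  have hKc : IsClosed (K : Set Gam) := tilde_closed hcl
  set L := splitGal 2 K with hL
  have hLn : L.Normal := split_normal
  obtain ⟨s, P, hP, hP2, hD⟩ := exists_setup hm h8 hθ L (unram_odd hi ho)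
  have ho' : Odd m := Nat.odd_iff.mpr (by omega)
  have hs : Sums (fun p : m.primeFactors => uN p) (fun p : m.primeFactors => wN p)
      (Rmat (fun p : m.primeFactors => uN p) fun p q : m.primeFactors => rhoN p q) := by
    have h2 : ∀ p : m.primeFactors, (p : ℕ) ≠ 2 := fun p e =>
      (Nat.not_even_iff_odd.mpr ho') (even_iff_two_dvd.mpr (e ▸ Nat.dvd_of_mem_primeFactors p.2))
    refine sums_of_anti (fun p q h => anti_N (Nat.prime_of_mem_primeFactors p.2)
      (Nat.prime_of_mem_primeFactors q.2) (h2 p) (h2 q) fun e => h (Subtype.ext e)) ?_ ?_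
    · rw [sum_uN hm ho', uN, if_neg (by omega)]
    · rw [sum_wN hm ho', wN, if_pos (by omega)]
  have hsq : ¬ IsSquare m := by
    rintro ⟨r, rfl⟩
    have : r % 8 < 8 := Nat.mod_lt _ (by norm_num)
    rw [Nat.mul_mod] at h8
    interval_cases r % 8 <;> omega
  obtain ⟨ca⟩ := exists_cmAct hsq hθ
  obtain ⟨ρm, m1, m2, m3⟩ := ca.exists_anti H mem_fixing (apply_sqrt hθ') hi
  obtain ⟨ρp, p1, g', p2⟩ := exists_cyc
  obtain ⟨e, he, hk⟩ := exists_coord s hs hu (split_le.trans tilde_le)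
    (fun ρ hρ x hx => (mem_tilde hcl x).mp (split_le hx) ρ hρ) ρp p1
    (fun h => p2 (by simp [h])) ρm m1 m2 (m3 s.c s.c_not)
  have hker : ∀ x : H, e x = 1 ↔ (x : Gam) ∈ K := fun x => by
    rw [mem_tilde hcl]
    refine ⟨fun h ρ hρ => hk ρ hρ x h, fun h => ?_⟩
    ext i
    exact congrArg Multiplicative.toAdd (h ((AddMonoidHom.toMultiplicative
      (Pi.evalAddMonoidHom (fun _ : Fin 2 => ℤ_[2]) i)).comp e)
      (continuous_ofAdd.comp ((continuous_apply i).comp (continuous_toAdd.comp he.cont))))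
  obtain ⟨M, _, _, _, _, _, cx, hun⟩ :=
    exists_ctx K L hKc (split_closed hKc) split_le split_comm (pro_two hi ho)
  choose g hg' using fun i : Fin 2 => he.surj (Multiplicative.ofAdd (Pi.single i 1))
  have hca : ∀ z : Gam, Continuous (cx.act z) := fun z =>
    cx.cont_act.comp (continuous_const.prodMk continuous_id)
  have heq : ∀ x y : H, e x = e y → cx.act x = cx.act y := fun x y h =>
    cx.act_eq ((hker (x * y⁻¹)).mp (by rw [map_mul, map_inv, h, mul_inv_cancel]))
  obtain ⟨_, _, a0, a1⟩ := exists_module (cx.act (g 0)) (cx.act (g 1)) (hca _) (hca _)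
    (by rw [← map_mul, ← map_mul]
        exact heq (g 0 * g 1) (g 1 * g 0) (by rw [map_mul, map_mul, mul_comm])) (hun _ _)
  have hX : ∀ (i : Fin 2) (z : H), e z = Multiplicative.ofAdd (Pi.single i 1) →
      ∀ x : M, cx.act z x = (1 + MvPowerSeries.X i : Lam) • x := fun i z hz x => by
    rw [heq z (g i) (hz.trans (hg' i).symm)]
    fin_cases i
    · exact (a0 x).symm
    · exact (a1 x).symm
  obtain ⟨x, hx⟩ := exists_rels s he tilde_le hker split_le (pro_two hi ho)
    (hD ▸ split_split P hP hP2) cx hX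
  refine ⟨e, ⟨he.cont, he.surj, Subgroup.ext fun z => hker z⟩, M, inferInstance, inferInstance,
    inferInstance, cx.π, ⟨inferInstance, inferInstance, inferInstance⟩, ⟨cx.cont, cx.surj, cx.ker⟩,
    fun i z hz x y h => by rw [cx.spec z x y h, hX i z hz],
    ⟨Submodule.fg_iff_exists_finite_generating_family.mpr ⟨_, inferInstance, x, hx.span⟩⟩,
    fun Q hQ => ?_⟩
  obtain ⟨f, hf, hf'⟩ := exists_ann hs hu hg hx Q.asIdeal Q.isPrime hQ
  exact LocalizedModule.subsingleton_iff.mpr fun y => ⟨f, hf, hf' y⟩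

end Pool.Agent.Lib.MP_f8d36e_nt
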