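import Pool.Agent.Lib.MP_f8d36e_nt.GDefs

/-! Job D2a: leading forms. -/

set_option autoImplicit false

open MvPowerSeries

namespace Pool.Agent.Lib.MP_f8d36e_nt

/-- `f` has order at least `k` and `G` is its form of degree `k`, made inhomogeneous in the class
of two. -/
def Ld (k : ℕ) (f : Lam) (G : MvPolynomial (Fin 2) F2) : Prop :=
  ∃ g : Lam, rescale (fun _ => 2) f = 2 ^ k * g ∧
    MvPowerSeries.map (PadicInt.toZMod : ℤ_[2] →+* F2) g = (G : MvPowerSeries (Fin 2) F2) ∧
    G.totalDegree ≤ k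

variable {k l : ℕ} {f f' : Lam} {G G' : MvPolynomial (Fin 2) F2}

theorem lead_C_two : (2 : Lam) = C 2 := (map_ofNat _ 2).symm

theorem lead_coeff_pow (k : ℕ) (g : Lam) (d : Fin 2 →₀ ℕ) :
    coeff d (2 ^ k * g) = 2 ^ k * coeff d g := by
  rw [lead_C_two, ← map_pow, coeff_C_mul]

theorem lead_two_ne : (2 : Lam) ≠ 0 := fun h => by
  have := lead_coeff_pow 1 1 0
  rw [h] at this
  simp at this

theorem lead_coeff (f : Lam) (d : Fin 2 →₀ ℕ) :
    coeff d (rescale (fun _ => 2) f) = 2 ^ (d 0 + d 1) * coeff d f := by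
  rw [coeff_rescale, Finsupp.prod_fintype _ _ (by simp), Fin.prod_univ_two, pow_add]

theorem lead_zmod (x : ℤ_[2]) : PadicInt.toZMod x = 0 ↔ (2 : ℤ_[2]) ∣ x := by
  rw [← RingHom.mem_ker, PadicInt.ker_toZMod, PadicInt.maximalIdeal_eq_span_p,
    Ideal.mem_span_singleton, Nat.cast_ofNat]

theorem lead_red (g : Lam) :
    MvPowerSeries.map (PadicInt.toZMod : ℤ_[2] →+* F2) g = 0 ↔ (2 : Lam) ∣ g := by
  constructor
  · intro h
    choose c hc using fun d => (lead_zmod (coeff d g)).1 (by rw [← coeff_map, h, map_zero])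
    refine ⟨c, MvPowerSeries.ext fun d => ?_⟩
    rw [hc, ← pow_one (2 : Lam), lead_coeff_pow, pow_one]
    rfl
  · rintro ⟨c, rfl⟩
    refine MvPowerSeries.ext fun d => ?_
    rw [coeff_map, map_zero, lead_zmod, ← pow_one (2 : Lam), lead_coeff_pow, pow_one]
    exact dvd_mul_right _ _

theorem lead_deg (d : Fin 2 →₀ ℕ) : (d.sum fun _ e => e) = d 0 + d 1 := by
  rw [Finsupp.sum_fintype _ _ (by simp), Fin.sum_univ_two]

theorem lead_exists {g : Lam} (h : rescale (fun _ => 2) f = 2 ^ k * g) :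
    ∃ G, Ld k f G ∧ MvPowerSeries.map (PadicInt.toZMod : ℤ_[2] →+* F2) g = G := by
  classical
  have h1 : ∀ d : Fin 2 →₀ ℕ, k < d 0 + d 1 →
      coeff d (MvPowerSeries.map (PadicInt.toZMod : ℤ_[2] →+* F2) g) = 0 := fun d hd => by
    obtain ⟨j, hj⟩ := Nat.exists_eq_add_of_lt hd
    have := lead_coeff f d
    rw [h, lead_coeff_pow, hj, add_assoc, pow_add, mul_assoc] at this
    rw [coeff_map, lead_zmod, mul_left_cancel₀ (pow_ne_zero k two_ne_zero) this, pow_succ',
      mul_assoc]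
    exact dvd_mul_right _ _
  have h2 : MvPowerSeries.map (PadicInt.toZMod : ℤ_[2] →+* F2) g =
      (trunc' F2 (Finsupp.equivFunOnFinite.symm fun _ => k)
        (MvPowerSeries.map (PadicInt.toZMod : ℤ_[2] →+* F2) g) : MvPolynomial (Fin 2) F2) := by
    refine MvPowerSeries.ext fun d => ?_
    rw [MvPolynomial.coeff_coe, coeff_trunc']
    split_ifs with hd
    · rfl
    · refine h1 d (not_le.1 fun a => hd fun i => ?_)
      fin_cases i
      · exact (Nat.le_add_right _ _).trans a
      · exact (Nat.le_add_left _ _).trans a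
  refine ⟨_, ⟨g, h, h2, Finset.sup_le fun d hd => ?_⟩, h2⟩
  rw [lead_deg]
  refine not_lt.1 fun a => MvPolynomial.mem_support_iff.1 hd ?_
  rw [← MvPolynomial.coeff_coe, ← h2, h1 d a]

theorem lead_max (h0 : f ≠ 0) : ∃ k G, G ≠ 0 ∧ Ld k f G := by
  have h1 : rescale (fun _ => 2) f ≠ 0 := fun h => h0 (MvPowerSeries.ext fun d => by
    have := lead_coeff f d
    rw [h, map_zero] at this
    exact (mul_eq_zero.1 this.symm).resolve_left (pow_ne_zero _ two_ne_zero))
  have h2 : ¬ IsUnit (2 : Lam) := fun h => by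
    have := h.map (MvPowerSeries.map (σ := Fin 2) (PadicInt.toZMod : ℤ_[2] →+* F2))
    rw [(lead_red 2).2 dvd_rfl] at this
    exact not_isUnit_zero this
  have : IsDomain Lam := NoZeroDivisors.to_isDomain _
  obtain ⟨k, g, h3, h4⟩ := WfDvdMonoid.max_power_factor' h1 h2
  obtain ⟨G, h5, h6⟩ := lead_exists h4
  exact ⟨k, G, fun e => h3 ((lead_red g).1 (by rw [h6, e, MvPolynomial.coe_zero])), h5⟩

theorem Ld.unique (h : Ld k f G) (h' : Ld k f G') : G = G' := by
  obtain ⟨g, h1, h2, -⟩ := h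
  obtain ⟨g', h3, h4, -⟩ := h'
  rw [mul_left_cancel₀ (pow_ne_zero k lead_two_ne) (h1.symm.trans h3), h4] at h2
  exact (MvPolynomial.coe_injective _ _ h2).symm

theorem Ld.add (h : Ld k f G) (h' : Ld k f' G') : Ld k (f + f') (G + G') := by
  obtain ⟨g, h1, h2, h3⟩ := h
  obtain ⟨g', h4, h5, h6⟩ := h'
  exact ⟨g + g', by rw [map_add, h1, h4, mul_add], by rw [map_add, h2, h5, MvPolynomial.coe_add],
    (MvPolynomial.totalDegree_add _ _).trans (max_le h3 h6)⟩

theorem Ld.mul (h : Ld k f G) (h' : Ld l f' G') : Ld (k + l) (f * f') (G * G') := by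
  obtain ⟨g, h1, h2, h3⟩ := h
  obtain ⟨g', h4, h5, h6⟩ := h'
  exact ⟨g * g', by rw [map_mul, h1, h4]; ring, by rw [map_mul, h2, h5, MvPolynomial.coe_mul],
    (MvPolynomial.totalDegree_mul _ _).trans (add_le_add h3 h6)⟩

theorem lead_X (i : Fin 2) : rescale (fun _ => (2 : ℤ_[2])) (X i : Lam) = 2 * X i := by
  classical
  refine MvPowerSeries.ext fun d => ?_
  rw [lead_coeff, ← pow_one (2 : Lam), lead_coeff_pow, coeff_X]
  split_ifs with h
  · subst h
    fin_cases i <;> simp
  · simp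

theorem Ld.of_mem (h : f ∈ mm ^ (k + 1)) : Ld k f 0 := by
  have h1 : mm.map (rescale fun _ => (2 : ℤ_[2])) ≤ Ideal.span {(2 : Lam)} := by
    rw [mm, Ideal.map_span, Ideal.span_le]
    rintro _ ⟨_, rfl | rfl | rfl, rfl⟩
    · rw [map_ofNat]
      exact Ideal.mem_span_singleton_self _
    · rw [lead_X]
      exact Ideal.mul_mem_right _ _ (Ideal.mem_span_singleton_self _)
    · rw [lead_X]
      exact Ideal.mul_mem_right _ _ (Ideal.mem_span_singleton_self _)
  have h2 := Ideal.mem_map_of_mem (rescale fun _ => (2 : ℤ_[2])) h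
  rw [Ideal.map_pow] at h2
  have h3 := Ideal.pow_right_mono h1 (k + 1) h2
  rw [Ideal.span_singleton_pow, Ideal.mem_span_singleton] at h3
  obtain ⟨g, hg⟩ := h3
  exact ⟨2 * g, by rw [hg]; ring, (lead_red _).2 (dvd_mul_right _ _), by simp⟩

theorem Ld.const (t : F2) : Ld 0 (t.val : Lam) (MvPolynomial.C t) := by
  refine ⟨t.val, by rw [map_natCast, pow_zero, one_mul], ?_, by simp⟩
  rw [map_natCast, MvPolynomial.coe_C, ← map_natCast (C : F2 →+* MvPowerSeries (Fin 2) F2),
    ZMod.natCast_zmod_val]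

theorem Ld.two : Ld 1 2 1 := by
  exact ⟨1, by rw [map_ofNat, pow_one, mul_one], by simp, by simp⟩

theorem Ld.X (i : Fin 2) : Ld 1 (X i) (MvPolynomial.X i) := by
  exact ⟨MvPowerSeries.X i, by rw [lead_X, pow_one], by simp, by simp⟩

theorem lead_int (n : ℤ) : Ld 0 (n : Lam) (n : MvPolynomial (Fin 2) F2) := by
  refine ⟨n, by simp, ?_, ?_⟩
  · rw [map_intCast]
    exact (map_intCast (MvPolynomial.coeToMvPowerSeries.ringHom (σ := Fin 2) (R := F2)) n).symm
  · rw [← map_intCast (MvPolynomial.C : F2 →+* MvPolynomial (Fin 2) F2),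
      MvPolynomial.totalDegree_C]

theorem lead_sum {ι : Type} (s : Finset ι) {a : ι → Lam} {b : ι → MvPolynomial (Fin 2) F2}
    (h : ∀ i ∈ s, Ld k (a i) (b i)) : Ld k (∑ i ∈ s, a i) (∑ i ∈ s, b i) := by
  classical
  induction s using Finset.induction_on with
  | empty => exact Ld.of_mem (Ideal.zero_mem _)
  | insert i s hi ih =>
    rw [Finset.sum_insert hi, Finset.sum_insert hi]
    exact (h i (Finset.mem_insert_self _ _)).add (ih fun j hj => h j (Finset.mem_insert_of_mem hj))

theorem lead_prod {ι : Type} (s : Finset ι) {a : ι → Lam} {b : ι → MvPolynomial (Fin 2) F2}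
    {k : ι → ℕ} (h : ∀ i ∈ s, Ld (k i) (a i) (b i)) :
    Ld (∑ i ∈ s, k i) (∏ i ∈ s, a i) (∏ i ∈ s, b i) := by
  classical
  induction s using Finset.induction_on with
  | empty => simpa using lead_int 1
  | insert i s hi ih =>
    rw [Finset.sum_insert hi, Finset.prod_insert hi, Finset.prod_insert hi]
    exact (h i (Finset.mem_insert_self _ _)).mul (ih fun j hj => h j (Finset.mem_insert_of_mem hj))

theorem Ld.det {ι : Type} [Fintype ι] [DecidableEq ι] {A : Matrix ι ι Lam}
    {B : Matrix ι ι (MvPolynomial (Fin 2) F2)} {k : ι → ℕ} (h : ∀ i j, Ld (k i) (A i j) (B i j)) :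
    Ld (∑ i, k i) A.det B.det := by
  rw [Matrix.det_apply', Matrix.det_apply']
  refine lead_sum _ fun σ _ => ?_
  have := (lead_int (Equiv.Perm.sign σ : ℤ)).mul (lead_prod Finset.univ fun i _ => h (σ i) i)
  rwa [zero_add, Equiv.sum_comp σ k] at this

theorem exists_ld (h0 : f ≠ 0) (h1 : ¬ IsUnit f) : ∃ k G, 1 ≤ k ∧ G ≠ 0 ∧ Ld k f G := by
  obtain ⟨k, G, hG, h⟩ := lead_max h0
  refine ⟨k, G, Nat.one_le_iff_ne_zero.2 ?_, hG, h⟩
  rintro rfl
  obtain ⟨g, h2, h3, -⟩ := h
  refine hG (MvPolynomial.coe_injective _ _ ?_)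
  rw [pow_zero, one_mul] at h2
  show (G : MvPowerSeries (Fin 2) F2) = ((0 : MvPolynomial (Fin 2) F2) : MvPowerSeries (Fin 2) F2)
  rw [← h3, ← h2, MvPolynomial.coe_zero]
  refine MvPowerSeries.ext fun d => ?_
  rw [coeff_map, map_zero, lead_zmod, lead_coeff]
  by_cases hd : d = 0
  · subst hd
    rw [← lead_zmod, ← RingHom.mem_ker, PadicInt.ker_toZMod]
    exact Ideal.mul_mem_left _ _ fun a => h1 (isUnit_iff_constantCoeff.2 a)
  · refine (dvd_pow_self _ fun a => hd (Finsupp.ext fun i => ?_)).mul_right _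
    fin_cases i
    · exact (Nat.add_eq_zero_iff.1 a).1
    · exact (Nat.add_eq_zero_iff.1 a).2

theorem lead_lt (h : Ld k f G) (h' : Ld l f G') (a : k < l) : G = 0 := by
  obtain ⟨g, h1, -⟩ := h'
  obtain ⟨j, rfl⟩ := Nat.exists_eq_add_of_lt a
  exact h.unique ⟨2 * (2 ^ j * g), by rw [h1]; ring, (lead_red _).2 (dvd_mul_right _ _), by simp⟩

theorem Ld.dvd (h : Ld k f G) (h0 : G ≠ 0) (h' : Ld l (f * f') G') :
    G' = 0 ∨ ∃ j H, l = k + j ∧ Ld j f' H ∧ G' = G * H := by
  by_cases hf : f' = 0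
  · exact Or.inl (h'.unique (Ld.of_mem (by rw [hf, mul_zero]; exact Ideal.zero_mem _)))
  obtain ⟨j, H, hH, h1⟩ := lead_max hf
  have h2 := h.mul h1
  rcases lt_trichotomy l (k + j) with a | rfl | a
  · exact Or.inl (lead_lt h' h2 a)
  · exact Or.inr ⟨j, H, rfl, h1, h'.unique h2⟩
  · exact absurd (lead_lt h2 h' a) (mul_ne_zero h0 hH)

/-- The value at the point `(p, q, T)` of the form of degree `k` attached to `G`; the class of two
goes to `p`, the first variable to `p + q`, the second to `T`. -/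
noncomputable def hev (k : ℕ) (p q T : Kb) (G : MvPolynomial (Fin 2) F2) : Kb :=
  ∑ d ∈ G.support, algebraMap F2 Kb (G.coeff d) * p ^ (k - (d 0 + d 1)) * (p + q) ^ d 0 * T ^ d 1

variable {p q T : Kb}

theorem lead_hev (G : MvPolynomial (Fin 2) F2) {s : Finset (Fin 2 →₀ ℕ)} (h : G.support ⊆ s) :
    hev k p q T G = ∑ d ∈ s,
      algebraMap F2 Kb (G.coeff d) * p ^ (k - (d 0 + d 1)) * (p + q) ^ d 0 * T ^ d 1 :=
  Finset.sum_subset h fun d _ hd => by rw [MvPolynomial.notMem_support_iff.1 hd]; simp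

theorem lead_hev_monomial (d : Fin 2 →₀ ℕ) (c : F2) : hev k p q T (MvPolynomial.monomial d c) =
    algebraMap F2 Kb c * p ^ (k - (d 0 + d 1)) * (p + q) ^ d 0 * T ^ d 1 := by
  classical
  rw [lead_hev _ MvPolynomial.support_monomial_subset, Finset.sum_singleton,
    MvPolynomial.coeff_monomial, if_pos rfl]

theorem hev_add : hev k p q T (G + G') = hev k p q T G + hev k p q T G' := by
  classical
  rw [lead_hev (G + G') MvPolynomial.support_add, lead_hev G Finset.subset_union_left,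
    lead_hev G' Finset.subset_union_right, ← Finset.sum_add_distrib]
  exact Finset.sum_congr rfl fun d _ => by rw [MvPolynomial.coeff_add, map_add]; ring

theorem lead_hev_sum {ι : Type} (s : Finset ι) (b : ι → MvPolynomial (Fin 2) F2) :
    hev k p q T (∑ i ∈ s, b i) = ∑ i ∈ s, hev k p q T (b i) := by
  classical
  induction s using Finset.induction_on with
  | empty => simp [hev]
  | insert i s hi ih => rw [Finset.sum_insert hi, Finset.sum_insert hi, hev_add, ih]

theorem hev_mul (h : G.totalDegree ≤ k) (h' : G'.totalDegree ≤ l) :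
    hev (k + l) p q T (G * G') = hev k p q T G * hev l p q T G' := by
  conv_lhs => rw [G.as_sum, G'.as_sum, Finset.sum_mul_sum]
  rw [lead_hev_sum, hev, hev, Finset.sum_mul_sum]
  refine Finset.sum_congr rfl fun d hd => ?_
  rw [lead_hev_sum]
  refine Finset.sum_congr rfl fun d' hd' => ?_
  have a := (MvPolynomial.le_totalDegree hd).trans h
  have a' := (MvPolynomial.le_totalDegree hd').trans h'
  rw [lead_deg] at a a'
  rw [MvPolynomial.monomial_mul, lead_hev_monomial, Finsupp.add_apply, Finsupp.add_apply,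
    show k + l - (d 0 + d' 0 + (d 1 + d' 1)) = k - (d 0 + d 1) + (l - (d' 0 + d' 1)) by omega,
    map_mul]
  ring

theorem hev_C (t : F2) : hev k p q T (MvPolynomial.C t) = algebraMap F2 Kb t * p ^ k := by
  rw [MvPolynomial.C_apply, lead_hev_monomial]
  simp

theorem hev_X0 : hev 1 p q T (MvPolynomial.X 0) = p + q := by
  rw [MvPolynomial.X, lead_hev_monomial]
  simp

theorem hev_X1 : hev 1 p q T (MvPolynomial.X 1) = T := by
  rw [MvPolynomial.X, lead_hev_monomial]
  simp

theorem lead_hev_prod {ι : Type} (s : Finset ι) {b : ι → MvPolynomial (Fin 2) F2} {k : ι → ℕ}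
    (h : ∀ i ∈ s, (b i).totalDegree ≤ k i) :
    hev (∑ i ∈ s, k i) p q T (∏ i ∈ s, b i) = ∏ i ∈ s, hev (k i) p q T (b i) := by
  classical
  induction s using Finset.induction_on with
  | empty => simpa using hev_C (k := 0) (p := p) (q := q) (T := T) 1
  | insert i s hi ih =>
    have h' := fun j hj => h j (Finset.mem_insert_of_mem hj)
    rw [Finset.sum_insert hi, Finset.prod_insert hi, Finset.prod_insert hi,
      hev_mul (h i (Finset.mem_insert_self _ _)) ((MvPolynomial.totalDegree_finsetProd _ _).trans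
        (Finset.sum_le_sum h')), ih h']

theorem hev_det {ι : Type} [Fintype ι] [DecidableEq ι]
    {B : Matrix ι ι (MvPolynomial (Fin 2) F2)} {k : ι → ℕ} (h : ∀ i j, (B i j).totalDegree ≤ k i) :
    hev (∑ i, k i) p q T B.det = (Matrix.of fun i j => hev (k i) p q T (B i j)).det := by
  rw [Matrix.det_apply', Matrix.det_apply', lead_hev_sum]
  refine Finset.sum_congr rfl fun σ _ => ?_
  rw [← Equiv.sum_comp σ k, ← zero_add (∑ i, k (σ i)),
    ← map_intCast (MvPolynomial.C : F2 →+* MvPolynomial (Fin 2) F2),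
    hev_mul (MvPolynomial.totalDegree_C _).le ((MvPolynomial.totalDegree_finsetProd _ _).trans
      (Finset.sum_le_sum fun i _ => h (σ i) i)), hev_C,
    lead_hev_prod _ fun i _ => h (σ i) i, map_intCast, pow_zero, mul_one]
  rfl

/-- A curve meets a line. -/
theorem exists_hev_zero (hk : 1 ≤ k) (h : G.totalDegree ≤ k) (a b : Kb) :
    ∃ p q : Kb, (p ≠ 0 ∨ q ≠ 0) ∧ hev k p q (a * p + b * q) G = 0 := by
  let P : Polynomial Kb := ∑ d ∈ G.support, Polynomial.C (algebraMap F2 Kb (G.coeff d)) *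
    ((Polynomial.C 1 * Polynomial.X + Polynomial.C 1) ^ d 0 *
      (Polynomial.C b * Polynomial.X + Polynomial.C a) ^ d 1)
  by_cases hP : P.degree = 0
  · refine ⟨0, 1, Or.inr one_ne_zero, ?_⟩
    refine Eq.trans ?_ (Polynomial.coeff_eq_zero_of_degree_lt (p := P) (n := k)
      (by rw [hP]; exact_mod_cast hk))
    rw [Polynomial.finsetSum_coeff, hev]
    refine Finset.sum_congr rfl fun d hd => ?_
    have a1 := (MvPolynomial.le_totalDegree hd).trans h
    rw [lead_deg] at a1
    have a2 := Polynomial.natDegree_pow_le_of_le (d 0)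
      (Polynomial.natDegree_linear_le (a := (1 : Kb)) (b := 1))
    have a3 := Polynomial.natDegree_pow_le_of_le (d 1)
      (Polynomial.natDegree_linear_le (a := b) (b := a))
    rw [Polynomial.coeff_C_mul]
    rcases a1.lt_or_eq with a4 | rfl
    · rw [Polynomial.coeff_eq_zero_of_natDegree_lt
        ((Polynomial.natDegree_mul_le_of_le a2 a3).trans_lt (by omega)), zero_pow (by omega)]
      simp
    · have a5 := Polynomial.coeff_mul_add_eq_of_natDegree_le a2 a3
      rw [Polynomial.coeff_pow_of_natDegree_le Polynomial.natDegree_linear_le,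
        Polynomial.coeff_pow_of_natDegree_le Polynomial.natDegree_linear_le, mul_one,
        mul_one] at a5
      rw [a5]
      simp [Polynomial.coeff_one]
  · obtain ⟨x, hx⟩ := IsAlgClosed.exists_root P hP
    refine ⟨1, x, Or.inl one_ne_zero, ?_⟩
    rw [← hx.eq_zero, hev, Polynomial.eval_finsetSum]
    refine Finset.sum_congr rfl fun d _ => ?_
    simp only [Polynomial.eval_mul, Polynomial.eval_pow, Polynomial.eval_add, Polynomial.eval_C,
      Polynomial.eval_X]
    ring

end Pool.Agent.Lib.MP_f8d36e_nt
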