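import Pool.Agent.Lib.MP_f8d36e_nt.FDefs
import Pool.Agent.Lib.MP_f8d36e_nt.Comb

/-! Job F3b: numbers and the random model. -/

set_option autoImplicit false

open Finset Filter
open scoped NumberTheorySymbols
open Pool.Agent.Lib.MP_696deb_nt Pool.Agent.Lib.MP_696deb_nt.Den

namespace Pool.Agent.Lib.MP_f8d36e_nt

theorem model_mem_BM {M k : ℕ} (i : M.primeFactors ⊕ Fin k) : i ∈ BM M k ↔ i.isRight := by
  simp [BM]

theorem model_symM_mem (M : ℕ) {k : ℕ} (s : Pr k → F2) :
    (Matrix.of (symM M s) : Matrix _ _ F2) ∈ Alt (BM M k) := by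
  refine ⟨⟨fun i j => ?_, fun i j hi => ?_⟩, fun i => ?_⟩
  · rcases i with p | i <;> rcases j with p' | j <;> simp only [Matrix.of_apply, symM]
    rcases lt_trichotomy i j with h | h | h
    · rw [dif_pos h, dif_neg h.not_gt, dif_pos h]
    · subst h; rfl
    · rw [dif_neg h.not_gt, dif_pos h, dif_pos h]
  · rcases i with p | i
    · rcases j with p' | j <;> simp only [Matrix.of_apply, symM]
    · exact absurd ((model_mem_BM _).2 rfl) hi
  · rcases i with p | i <;> simp only [Matrix.of_apply, symM]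
    rw [dif_neg (lt_irrefl i), dif_neg (lt_irrefl i)]

/-- Upper parts and alternating matrices on the large indices. -/
def modelEquiv (M k : ℕ) : (Pr k → F2) ≃ Alt (BM M k) where
  toFun s := ⟨Matrix.of (symM M s), model_symM_mem M s⟩
  invFun S := fun e => S.1 (Sum.inr e.1.1) (Sum.inr e.1.2)
  left_inv s := by
    funext e
    simp only [Matrix.of_apply, symM]
    rw [dif_pos e.2]
  right_inv S := by
    obtain ⟨S, ⟨h1, h2⟩, h3⟩ := S
    refine Subtype.ext (Matrix.ext fun i j => ?_)
    have hl : ∀ (p : M.primeFactors) j, S (.inl p) j = 0 := fun p j =>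
      h2 _ _ fun h => by simpa using (model_mem_BM _).1 h
    rcases i with p | i <;> rcases j with p' | j <;> simp only [Matrix.of_apply, symM]
    · exact (hl _ _).symm
    · exact (hl _ _).symm
    · rw [h1, hl]
    · rcases lt_trichotomy i j with h | h | h
      · rw [dif_pos h]
      · subst h; rw [dif_neg (lt_irrefl i), dif_neg (lt_irrefl i), h3]
      · rw [dif_neg h.not_gt, dif_pos h, h1]

theorem pr_model : ∃ v0 : ℕ, ∀ v, v0 ≤ v → ∀ (M k : ℕ) (t : Fin k → Ty M),
    Typ v (BM M k) (uM t) (wM t) (rhoM t) → 1 / 48 ≤ pr (EM v t) := by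
  obtain ⟨v0, H⟩ := comb_main
  refine ⟨v0, fun v hv M k t h => ?_⟩
  have h1 := H v hv _ (BM M k) (uM t) (wM t) (rhoM t) h
  rw [← pr_equiv (modelEquiv M k)] at h1
  exact h1.trans (pr_mono fun s hs => ⟨h, hs⟩)

theorem model_typ_equiv {ι κ : Type} [Fintype ι] [DecidableEq ι] [Fintype κ] [DecidableEq κ]
    (e : ι ≃ κ) {v : ℕ} {B : Finset ι} {B' : Finset κ} {u w : ι → F2} {u' w' : κ → F2}
    {ρ : ι → ι → F2} {ρ' : κ → κ → F2} (hB : ∀ i, i ∈ B ↔ e i ∈ B') (hu : ∀ i, u i = u' (e i))
    (hw : ∀ i, w i = w' (e i)) (hρ : ∀ j ∈ B, ∀ i, i ∉ B → ρ j i = ρ' (e j) (e i))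
    (ha : ∀ i j, i ≠ j → ρ i j + ρ j i = u i * u j) (h : Typ v B' u' w' ρ') : Typ v B u w ρ := by
  have hc : ∀ a b i, i ∈ cls u w B a b ↔ e i ∈ cls u' w' B' a b := by
    intro a b i
    simp only [cls, mem_filter, hB, hu, hw]
  refine ⟨?_, ?_, ha, ?_, ?_, fun η h0 h1 => ?_, ?_, ?_⟩
  · rw [Fintype.card_congr e]; exact h.card
  · rw [Finset.card_equiv (t := B'ᶜ) e fun i => by simp only [mem_compl, hB]]
    exact h.bord
  · rw [← h.su, ← Equiv.sum_comp e]; exact sum_congr rfl fun i _ => hu i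
  · rw [← h.sw, ← Equiv.sum_comp e]; exact sum_congr rfl fun i _ => hw i
  · have h2 := h.wit (fun j => η (e.symm j)) (fun h3 => h0 (funext fun i => by
      simpa using congrFun h3 (e i))) (fun j hj => h1 _ ((hB _).2 (by simpa using hj)))
    refine h2.trans (le_of_eq (Finset.card_equiv e fun j => ?_).symm)
    simp only [mem_filter, ← hc]
    refine and_congr_right fun hj => ?_
    have hj' : j ∈ B := (mem_filter.1 hj).1
    have : ∑ i, ρ j i * η i = ∑ i, ρ' (e j) i * η (e.symm i) := by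
      rw [← Equiv.sum_comp e]
      refine sum_congr rfl fun i _ => ?_
      rw [e.symm_apply_apply]
      by_cases hi : i ∈ B
      · rw [h1 i hi, mul_zero, mul_zero]
      · rw [hρ j hj' i hi]
    rw [this]
  · rw [Finset.card_equiv e (hc 0 1)]; exact h.five
  · obtain ⟨j, h1, h2⟩ := h.exu
    exact ⟨e.symm j, (hB _).2 (by simpa using h1), by rw [hu]; simpa using h2⟩

theorem model_uN (n : ℕ) : uN (n % 8) = uN n := by
  unfold uN
  rw [Nat.mod_mod_of_dvd n (by norm_num : 4 ∣ 8)]

theorem model_wN (n : ℕ) : wN (n % 8) = wN n := by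
  unfold wN
  rw [Nat.mod_mod]

theorem model_five {m : ℕ} (h1 : uN m = 0) (h2 : wN m = 1) : m % 8 = 5 := by
  unfold uN at h1
  unfold wN at h2
  split_ifs at h1 h2 with a b
  · exact absurd h1 one_ne_zero
  · exact absurd h1 one_ne_zero
  · omega
  · exact absurd h2 zero_ne_one

theorem model_add {a b c : F2} (h : a + b = c) : b + c = a ∧ c + b = a := by
  revert a b c; decide

/-- The prime that belongs to an index of the model. -/
def modelVal {M k : ℕ} (q : Fin k → ℕ) : M.primeFactors ⊕ Fin k → ℕ := Sum.elim (fun p => p) q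

theorem model_uM {M k : ℕ} (q : Fin k → ℕ) (i : M.primeFactors ⊕ Fin k) :
    uM (fun i => tyN M (q i)) i = uN (modelVal q i) := by
  rcases i with p | i
  · rfl
  · exact model_uN _

theorem model_wM {M k : ℕ} (q : Fin k → ℕ) (i : M.primeFactors ⊕ Fin k) :
    wM (fun i => tyN M (q i)) i = wN (modelVal q i) := by
  rcases i with p | i
  · rfl
  · exact model_wN _

theorem model_tup {k Y Z : ℕ} {q : Fin k → ℕ} (hq : q ∈ Tup k Y Z) :
    (∀ i, (q i).Prime ∧ Y < q i) ∧ Function.Injective q := by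
  classical
  simp only [Tup, mem_filter, Fintype.mem_piFinset] at hq
  exact ⟨fun i => (hq.1 i).2, hq.2.1⟩

variable {v M k Y Z : ℕ} {q : Fin k → ℕ} (hM : Squarefree M) (ho : Odd M)
  (hY : ∀ p ∈ M.primeFactors, p ≤ Y) (h2 : 2 ≤ Y) (hq : q ∈ Tup k Y Z)
include hM ho hY h2 hq

theorem sqf_model : Squarefree (M * ∏ i, q i) ∧ Odd (M * ∏ i, q i) := by
  obtain ⟨hp, hi⟩ := model_tup hq
  refine ⟨Nat.squarefree_mul_iff.2 ⟨?_, hM, ?_⟩, ho.mul ?_⟩
  · refine Nat.Coprime.prod_right fun i _ => ((hp i).1.coprime_iff_not_dvd.2 fun hd => ?_).symm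
    have := hY _ (Nat.mem_primeFactors.2 ⟨(hp i).1, hd, hM.ne_zero⟩)
    have := (hp i).2
    omega
  · refine Finset.squarefree_prod_of_pairwise_isCoprime (fun i _ j _ hij => ?_)
      fun i _ => (hp i).1.prime.squarefree
    exact Nat.coprime_iff_isRelPrime.1
      ((Nat.coprime_primes (hp i).1 (hp j).1).2 fun h => hij (hi h))
  · refine Finset.prod_induction _ Odd (fun a b => Odd.mul) odd_one fun i _ => ?_
    exact (hp i).1.odd_of_ne_two (by have := (hp i).2; omega)

omit hM ho h2 in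
theorem model_inj : Function.Injective (modelVal (M := M) q) := by
  obtain ⟨hp, hi⟩ := model_tup hq
  rintro (p | i) (p' | j) h
  · exact congrArg _ (Subtype.ext h)
  · have a1 := hY _ p.2
    have a2 := (hp j).2
    have a3 : (p : ℕ) = q j := h
    omega
  · have a1 := hY _ p'.2
    have a2 := (hp i).2
    have a3 : q i = (p' : ℕ) := h
    omega
  · exact congrArg _ (hi h)

theorem model_exists_equiv : ∃ e : M.primeFactors ⊕ Fin k ≃ (M * ∏ i, q i).primeFactors,
    ∀ i, (e i : ℕ) = modelVal q i := by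
  obtain ⟨hp, hi⟩ := model_tup hq
  have h0 := (sqf_model hM ho hY h2 hq).1.ne_zero
  have hmem : ∀ i : M.primeFactors ⊕ Fin k, modelVal q i ∈ (M * ∏ i, q i).primeFactors := by
    rintro (p | i)
    · exact Nat.mem_primeFactors.2 ⟨Nat.prime_of_mem_primeFactors p.2,
        (Nat.dvd_of_mem_primeFactors p.2).mul_right _, h0⟩
    · exact Nat.mem_primeFactors.2 ⟨(hp i).1, (dvd_prod_of_mem q (mem_univ i)).mul_left _, h0⟩
  refine ⟨Equiv.ofBijective (fun i => ⟨modelVal q i, hmem i⟩) ⟨fun i j h => ?_, fun p => ?_⟩,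
    fun i => rfl⟩
  · exact model_inj hY hq (congrArg Subtype.val h)
  · have p1 := Nat.prime_of_mem_primeFactors p.2
    rcases (Nat.Prime.dvd_mul p1).1 (Nat.dvd_of_mem_primeFactors p.2) with h | h
    · exact ⟨.inl ⟨p, Nat.mem_primeFactors.2 ⟨p1, h, hM.ne_zero⟩⟩, Subtype.ext rfl⟩
    · obtain ⟨i, -, h3⟩ := (Prime.dvd_finsetProd_iff p1.prime _).1 h
      exact ⟨.inr i, Subtype.ext ((Nat.prime_dvd_prime_iff_eq p1 (hp i).1).1 h3).symm⟩

omit hM in
theorem model_anti {i j : M.primeFactors ⊕ Fin k} (h : i ≠ j) :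
    rhoN (modelVal q i) (modelVal q j) + rhoN (modelVal q j) (modelVal q i) =
      uN (modelVal q i) * uN (modelVal q j) := by
  obtain ⟨hp, hi⟩ := model_tup hq
  have a : ∀ i : M.primeFactors ⊕ Fin k, (modelVal q i).Prime ∧ modelVal q i ≠ 2 := by
    rintro (p | i)
    · refine ⟨Nat.prime_of_mem_primeFactors p.2, fun h3 => ?_⟩
      have h4 : (p : ℕ) = 2 := h3
      have h5 := Nat.dvd_of_mem_primeFactors p.2
      rw [h4] at h5
      exact (Nat.not_even_iff_odd.2 ho) (even_iff_two_dvd.2 h5)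
    · refine ⟨(hp i).1, fun h3 => ?_⟩
      have h4 : q i = 2 := h3
      have := (hp i).2
      omega
  exact anti_N (a i).1 (a j).1 (a i).2 (a j).2 fun h3 => h (model_inj hY hq h3)

omit hM in
theorem model_rho {i j : M.primeFactors ⊕ Fin k} (h : i ≠ j) :
    rhoM (fun i => tyN M (q i)) i j + symM M (up q) i j =
      rhoN (modelVal q i) (modelVal q j) := by
  have a := model_anti ho hY h2 hq h
  rcases i with p | i <;> rcases j with p' | j
  · exact add_zero _
  · have b := (model_add a).1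
    refine (add_zero _).trans (Eq.trans ?_ b)
    show rhoN (q j) p + uN p * uN (q j % 8) = rhoN (q j) p + uN p * uN (q j)
    rw [model_uN]
  · exact add_zero _
  · have b := (model_add a).2
    simp only [rhoM, symM, tyN, up, model_uN]
    rcases lt_trichotomy i j with h3 | h3 | h3
    · rw [if_neg h3.not_gt, dif_pos h3, zero_add]; rfl
    · exact absurd (congrArg _ h3) h
    · rw [if_pos h3, dif_neg h3.not_gt, dif_pos h3]; exact b

theorem typ_model (hv : Y = YY v) (h : TypN v (M * ∏ i, q i)) :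
    Typ v (BM M k) (uM fun i => tyN M (q i)) (wM fun i => tyN M (q i))
      (rhoM fun i => tyN M (q i)) := by
  obtain ⟨e, he⟩ := model_exists_equiv hM ho hY h2 hq
  obtain ⟨hp, -⟩ := model_tup hq
  refine model_typ_equiv e (fun i => ?_) (fun i => ?_) (fun i => ?_) (fun j hj i hi => ?_)
    (fun i j hij => ?_) h
  · rw [model_mem_BM, mem_filter, he, ← hv]
    rcases i with p | i
    · have := hY _ p.2
      have a : ¬ Y < (p : ℕ) := by omega
      simpa [modelVal] using this
    · simpa [modelVal] using (hp i).2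
  · rw [model_uM, he]
  · rw [model_wM, he]
  · rw [he, he]
    rcases j with p | j
    · exact absurd ((model_mem_BM _).1 hj) (by simp)
    · rcases i with p | i
      · rfl
      · exact absurd ((model_mem_BM _).2 rfl) hi
  · have a1 := model_rho ho hY h2 hq hij
    have a2 := model_rho ho hY h2 hq hij.symm
    have a3 := model_anti ho hY h2 hq hij
    have a4 : symM M (up q) i j = symM M (up q) j i := (model_symM_mem M (up q)).1.1 i j
    rw [model_uM, model_uM, ← a3, ← a1, ← a2, a4]
    generalize rhoM (fun i => tyN M (q i)) i j = x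
    generalize rhoM (fun i => tyN M (q i)) j i = y
    generalize symM M (up q) j i = z
    revert x y z; decide

theorem crit_model (h : EM v (fun i => tyN M (q i)) (up q)) :
    (M * ∏ i, q i) % 8 = 5 ∧ CritN (M * ∏ i, q i) := by
  obtain ⟨e, he⟩ := model_exists_equiv hM ho hY h2 hq
  obtain ⟨s1, s2⟩ := sqf_model hM ho hY h2 hq
  obtain ⟨h1, h3⟩ := h
  have hu : (uM fun i => tyN M (q i)) = fun i => uN (e i) := funext fun i => by rw [model_uM, he]
  have hw : (wM fun i => tyN M (q i)) = fun i => wN (e i) := funext fun i => by rw [model_wM, he]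
  constructor
  · refine model_five ?_ ?_
    · rw [← sum_uN s1 s2, ← h1.su, hu, ← Equiv.sum_comp e]
    · rw [← sum_wN s1 s2, ← h1.sw, hw, ← Equiv.sum_comp e]
  · refine Crit.equiv e ?_
    rw [Rmat_congr _ (ρ' := fun i j => rhoN (e i) (e j))
      (fun i j hij => by rw [he, he]; exact model_rho ho hY h2 hq hij), hu, hw] at h3
    exact h3

end Pool.Agent.Lib.MP_f8d36e_nt
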