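import Pool.Agent.Lib.MP_f8d36e_nt.EDefs

/-! Job E0: finite probability. -/

set_option autoImplicit false

open Finset

namespace Pool.Agent.Lib.MP_f8d36e_nt

open Classical in
/-- The indicator of a proposition. -/
noncomputable def pr_ind (p : Prop) : ℝ := if p then 1 else 0

theorem pr_ind_pos {p : Prop} (h : p) : pr_ind p = 1 := if_pos h

theorem pr_ind_neg {p : Prop} (h : ¬ p) : pr_ind p = 0 := if_neg h

theorem pr_ind_nonneg (p : Prop) : 0 ≤ pr_ind p := by
  by_cases h : p <;> simp [pr_ind, h]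

theorem pr_sum {Ω : Type} [Fintype Ω] (E : Ω → Prop) :
    pr E = (∑ x, pr_ind (E x)) / Fintype.card Ω := by
  classical
  simp only [pr_ind]
  rw [pr, Nat.card_eq_fintype_card, Nat.card_eq_fintype_card, Fintype.card_subtype, sum_boole]

theorem pr_card {Ω : Type} [Fintype Ω] [Nonempty Ω] : (0 : ℝ) < Fintype.card Ω :=
  Nat.cast_pos.2 Fintype.card_pos

theorem pr_markov {Ω α : Type} [Finite Ω] {E : Ω → Prop} (s : Finset α) (A : α → Ω → Prop) (c : ℕ)
    (h : ∀ x, E x → ∃ s' ⊆ s, c ≤ #s' ∧ ∀ a ∈ s', A a x) : c * pr E ≤ ∑ a ∈ s, pr (A a) := by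
  have := Fintype.ofFinite Ω
  simp only [pr_sum]
  rw [← sum_div, sum_comm, ← mul_div_assoc, mul_sum]
  refine div_le_div_of_nonneg_right (sum_le_sum fun x _ => ?_) (Nat.cast_nonneg _)
  by_cases k : E x
  · obtain ⟨s', h1, h2, h3⟩ := h x k
    refine le_trans ?_ (sum_le_sum_of_subset_of_nonneg h1 fun _ _ _ => pr_ind_nonneg _)
    rw [sum_congr rfl fun a ha => pr_ind_pos (h3 a ha), pr_ind_pos k]
    simpa using h2
  · rw [pr_ind_neg k, mul_zero]
    exact sum_nonneg fun _ _ => pr_ind_nonneg _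

theorem pr_avg {Ω T : Type} [Fintype Ω] [Finite T] [Nonempty T] {E : Ω → Prop} (f : T → Ω → Ω)
    (hf : ∀ t, Function.Bijective (f t)) :
    pr E = (∑ x, pr (fun t => E (f t x))) / Fintype.card Ω := by
  have := Fintype.ofFinite T
  simp only [pr_sum]
  rw [← sum_div, sum_comm, sum_congr rfl fun t _ => (hf t).sum_comp fun x => pr_ind (E x),
    sum_const, card_univ, nsmul_eq_mul, mul_div_cancel_left₀ _ pr_card.ne']

theorem pr_fib {G H : Type} [AddCommGroup G] [Finite G] [AddCommGroup H] (φ : G →+ H) {a : H}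
    (h : a ∈ φ.range) : pr (fun x => φ x = a) = 1 / Nat.card φ.range := by
  obtain ⟨g, rfl⟩ := h
  have e : Nat.card {x // φ x = φ g} = Nat.card φ.ker := Nat.card_congr (φ.fiberEquivKer g)
  have k : (Nat.card φ.ker : ℝ) ≠ 0 := Nat.cast_ne_zero.2 Nat.card_pos.ne'
  rw [pr, e, ← φ.ker.card_mul_index, AddSubgroup.index_ker, Nat.cast_mul, div_mul_eq_div_div,
    div_self k]

set_option linter.unusedSectionVars false

variable {Ω Ω' : Type} [Finite Ω] [Nonempty Ω] {E F : Ω → Prop}

theorem pr_nonneg : 0 ≤ pr E := by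
  exact div_nonneg (Nat.cast_nonneg _) (Nat.cast_nonneg _)

theorem pr_le_one : pr E ≤ 1 := by
  exact div_le_one_of_le₀ (Nat.cast_le.2 (Finite.card_subtype_le _)) (Nat.cast_nonneg _)

theorem pr_mono (h : ∀ x, E x → F x) : pr E ≤ pr F := by
  refine div_le_div_of_nonneg_right (Nat.cast_le.2 ?_) (Nat.cast_nonneg _)
  exact Nat.card_le_card_of_injective (Subtype.map id h) (Subtype.map_injective h fun _ _ e => e)

theorem pr_eq_zero (h : ∀ x, ¬ E x) : pr E = 0 := by
  have : IsEmpty {x // E x} := ⟨fun x => h x.1 x.2⟩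
  simp [pr]

theorem pr_not : pr (fun x => ¬ E x) = 1 - pr E := by
  have := Fintype.ofFinite Ω
  rw [pr_sum, pr_sum, eq_sub_iff_add_eq, ← add_div, ← sum_add_distrib, div_eq_one_iff_eq pr_card.ne']
  rw [sum_congr rfl fun x _ => show pr_ind (¬ E x) + pr_ind (E x) = 1 by
    by_cases h : E x <;> simp [pr_ind, h]]
  simp

theorem pr_or_le : pr (fun x => E x ∨ F x) ≤ pr E + pr F := by
  have := Fintype.ofFinite Ω
  rw [pr_sum, pr_sum, pr_sum, ← add_div, ← sum_add_distrib]
  refine div_le_div_of_nonneg_right (sum_le_sum fun x _ => ?_) pr_card.le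
  by_cases h : E x <;> by_cases k : F x <;> simp [pr_ind, h, k]

theorem pr_and_ge : pr E - pr (fun x => ¬ F x) ≤ pr (fun x => E x ∧ F x) := by
  have h1 := pr_or_le (E := fun x => E x ∧ F x) (F := fun x => ¬ F x)
  have h2 : pr E ≤ pr (fun x => (E x ∧ F x) ∨ ¬ F x) := pr_mono fun x h => by tauto
  linarith

theorem pr_exists_le {α : Type} (s : Finset α) (A : α → Ω → Prop) :
    pr (fun x => ∃ a ∈ s, A a x) ≤ ∑ a ∈ s, pr (A a) := by
  simpa using pr_markov (E := fun x => ∃ a ∈ s, A a x) s A 1 fun x ⟨a, ha, h⟩ =>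
    ⟨{a}, singleton_subset_iff.2 ha, by simp, by simpa using h⟩

theorem pr_exists_le_card {α : Type} (s : Finset α) (A : α → Ω → Prop) {ε : ℝ}
    (h : ∀ a ∈ s, pr (A a) ≤ ε) : pr (fun x => ∃ a ∈ s, A a x) ≤ #s * ε := by
  simpa using (pr_exists_le s A).trans (sum_le_card_nsmul s _ ε h)

theorem sum_pr_le {α : Type} (s : Finset α) (A : α → Ω → Prop) (h : ∀ a ∈ s, ∀ x, A a x → E x)
    (hd : ∀ a ∈ s, ∀ b ∈ s, ∀ x, A a x → A b x → a = b) : ∑ a ∈ s, pr (A a) ≤ pr E := by
  classical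
  have := Fintype.ofFinite Ω
  simp only [pr_sum]
  rw [← sum_div, sum_comm]
  refine div_le_div_of_nonneg_right (sum_le_sum fun x _ => ?_) pr_card.le
  by_cases k : ∃ a ∈ s, A a x
  · obtain ⟨a, ha, k⟩ := k
    rw [sum_eq_single_of_mem a ha fun b hb hne => pr_ind_neg fun e => hne (hd b hb a ha x e k),
      pr_ind_pos k, pr_ind_pos (h a ha x k)]
  · rw [sum_eq_zero fun a ha => pr_ind_neg fun e => k ⟨a, ha, e⟩]
    exact pr_ind_nonneg _

/-- Markov inequality for the number of events that occur. -/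
theorem mul_pr_le {α : Type} (s : Finset α) (A : α → Ω → Prop) (c : ℕ)
    (h : ∀ x, E x → ∃ s' ⊆ s, c ≤ #s' ∧ ∀ a ∈ s', A a x) : c * pr E ≤ ∑ a ∈ s, pr (A a) := by
  exact pr_markov s A c h

theorem pr_equiv (e : Ω' ≃ Ω) : pr (fun x => E (e x)) = pr E := by
  rw [pr, pr, Nat.card_congr e, Nat.card_congr (e.subtypeEquiv fun _ => Iff.rfl)]

theorem pr_eq_sum [Fintype Ω] [DecidablePred E] :
    pr E = (∑ x, if E x then (1 : ℝ) else 0) / Fintype.card Ω := by
  rw [pr, Nat.card_eq_fintype_card, Nat.card_eq_fintype_card, Fintype.card_subtype, sum_boole]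

/-- Averaging over a family of bijections, upper bound. -/
theorem pr_avg_le {T : Type} [Finite T] [Nonempty T] (f : T → Ω → Ω)
    (hf : ∀ t, Function.Bijective (f t)) {ε : ℝ} (hε : 0 ≤ ε)
    (h : ∀ x, ¬ F x → pr (fun t => E (f t x)) ≤ ε) : pr E ≤ pr F + ε := by
  have := Fintype.ofFinite Ω
  rw [pr_avg (E := E) f hf, pr_sum F, div_add' _ _ _ pr_card.ne', mul_comm, ← nsmul_eq_mul, ← card_univ,
    ← sum_const, ← sum_add_distrib]
  refine div_le_div_of_nonneg_right (sum_le_sum fun x _ => ?_) (Nat.cast_nonneg _)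
  by_cases k : F x
  · rw [pr_ind_pos k]
    exact pr_le_one.trans (le_add_of_nonneg_right hε)
  · rw [pr_ind_neg k, zero_add]
    exact h x k

/-- Averaging over a family of bijections, lower bound. -/
theorem pr_avg_ge {T : Type} [Finite T] [Nonempty T] (f : T → Ω → Ω)
    (hf : ∀ t, Function.Bijective (f t)) {ε : ℝ}
    (h : ∀ x, F x → ε ≤ pr (fun t => E (f t x))) : ε * pr F ≤ pr E := by
  have := Fintype.ofFinite Ω
  rw [pr_avg (E := E) f hf, pr_sum F, ← mul_div_assoc, mul_sum]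
  refine div_le_div_of_nonneg_right (sum_le_sum fun x _ => ?_) (Nat.cast_nonneg _)
  by_cases k : F x
  · rw [pr_ind_pos k, mul_one]
    exact h x k
  · rw [pr_ind_neg k, mul_zero]
    exact pr_nonneg

section
variable {G H : Type} [AddCommGroup G] [Finite G] [AddCommGroup H]

theorem pr_hom_le (φ : G →+ H) (a : H) : pr (fun x => φ x = a) ≤ 1 / Nat.card φ.range := by
  by_cases h : a ∈ φ.range
  · exact (pr_fib φ h).le
  · rw [pr_eq_zero fun x e => h ⟨x, e⟩]
    positivity

theorem pr_hom_eq (φ : G →+ H) {a : H} (h : a ∈ φ.range) :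
    pr (fun x => φ x = a) = 1 / Nat.card φ.range := by
  exact pr_fib φ h

theorem pr_surj (φ : G →+ H) (h : Function.Surjective φ) (A : H → Prop) :
    pr (fun x => A (φ x)) = pr A := by
  have := Finite.of_surjective φ h
  have := Fintype.ofFinite G
  have := Fintype.ofFinite H
  have k : ∀ a, ∑ x, pr_ind (φ x = a) = Fintype.card G / Fintype.card H := fun a => by
    have e := pr_fib φ (show a ∈ φ.range from h a)
    rw [pr_sum, AddMonoidHom.range_eq_top.2 h, AddSubgroup.card_top, Nat.card_eq_fintype_card,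
      div_eq_iff pr_card.ne'] at e
    rw [e, one_div, inv_mul_eq_div]
  have k2 : ∀ x, pr_ind (A (φ x)) = ∑ a, pr_ind (A a) * pr_ind (φ x = a) := fun x => by
    rw [Fintype.sum_eq_single (φ x) fun a ha => by rw [pr_ind_neg ha.symm, mul_zero],
      pr_ind_pos rfl, mul_one]
  rw [pr_sum, pr_sum, sum_congr rfl fun x _ => k2 x, sum_comm]
  simp only [← mul_sum, k, ← sum_mul]
  have c1 := (pr_card (Ω := G)).ne'
  have c2 := (pr_card (Ω := H)).ne'
  field_simp
end

theorem pr_prod {A B : Type} [Finite A] [Finite B] (P : A → Prop) (b : B) :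
    pr (fun x : A × B => P x.1 ∧ x.2 = b) = pr P / Nat.card B := by
  let e : {x : A × B // P x.1 ∧ x.2 = b} ≃ {a // P a} :=
    ⟨fun x => ⟨x.1.1, x.2.1⟩, fun a => ⟨(a.1, b), a.2, rfl⟩,
      fun x => Subtype.ext (Prod.ext rfl x.2.2.symm), fun _ => rfl⟩
  rw [pr, pr, Nat.card_congr e, Nat.card_prod, Nat.cast_mul, div_div]

section
variable {ι K : Type} [Fintype ι] [Field K] [Algebra F2 K]

theorem two_eq_zero : (2 : K) = 0 := by
  rw [← map_ofNat (algebraMap F2 K) 2, show (OfNat.ofNat 2 : F2) = 0 from rfl, map_zero]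

theorem pr_mem_Vs {B : Finset ι} {β : ι → F2} {b : F2} {y : ι → K} {a : K} : a ∈ Vs B β b y ↔
    ∃ ε : ι → F2, (∀ j, ε j ≠ 0 → j ∈ B ∧ β j = b) ∧ a = ∑ j, algebraMap F2 K (ε j) * y j := by
  classical
  refine ⟨fun h => ?_, ?_⟩
  · induction h using AddSubgroup.closure_induction with
    | mem a h =>
      obtain ⟨i, hi, rfl⟩ := h
      refine ⟨Pi.single i 1, fun j hj => ?_, ?_⟩
      · by_cases e : j = i
        · exact e ▸ hi
        · exact absurd (Pi.single_eq_of_ne e 1) hj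
      · rw [Fintype.sum_eq_single i fun j e => by rw [Pi.single_eq_of_ne e, map_zero, zero_mul]]
        simp
    | zero => exact ⟨0, fun j hj => absurd rfl hj, by simp⟩
    | add a a' _ _ h h' =>
      obtain ⟨ε, h1, rfl⟩ := h
      obtain ⟨ε', h2, rfl⟩ := h'
      refine ⟨ε + ε', fun j hj => ?_, by simp [add_mul, sum_add_distrib]⟩
      by_cases e : ε j = 0
      · exact h2 j (by simpa [e] using hj)
      · exact h1 j e
    | neg a _ h =>
      obtain ⟨ε, h1, rfl⟩ := h
      exact ⟨-ε, fun j hj => h1 j (neg_ne_zero.1 hj), by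
        simp only [Pi.neg_apply, map_neg, neg_mul, sum_neg_distrib]⟩
  · rintro ⟨ε, h1, rfl⟩
    refine sum_mem fun j _ => ?_
    rcases (by decide : ∀ z : F2, z = 0 ∨ z = 1) (ε j) with e | e
    · rw [e, map_zero, zero_mul]
      exact zero_mem _
    · rw [e, map_one, one_mul]
      exact AddSubgroup.subset_closure ⟨j, h1 j (by rw [e]; exact one_ne_zero), rfl⟩

theorem finite_Vs (B : Finset ι) (β : ι → F2) (b : F2) (y : ι → K) : Finite (Vs B β b y) := by
  classical
  refine Set.Finite.subset (Set.finite_range fun ε : ι → F2 => ∑ j, algebraMap F2 K (ε j) * y j)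
    (t := (Vs B β b y : Set K)) fun a ha => ?_
  obtain ⟨ε, -, e⟩ := pr_mem_Vs.1 ha
  exact ⟨ε, e.symm⟩

theorem mem_Vs {B : Finset ι} {β : ι → F2} {b : F2} {y : ι → K} {a : K} : a ∈ Vs B β b y ↔
    ∃ ε : ι → F2, (∀ j, ε j ≠ 0 → j ∈ B ∧ β j = b) ∧ a = ∑ j, algebraMap F2 K (ε j) * y j := by
  exact pr_mem_Vs

/-- A finite subgroup has a small generating family inside any generating set. -/
theorem exists_gen {s : Set ι} (y : ι → K) {D : ℕ}
    (h : Nat.card (AddSubgroup.closure (y '' s)) ≤ 2 ^ D) :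
    ∃ Z : Finset ι, (Z : Set ι) ⊆ s ∧ #Z ≤ D ∧
      AddSubgroup.closure (y '' (Z : Set ι)) = AddSubgroup.closure (y '' s) := by
  classical
  have sp : ∀ t : Set K, AddSubgroup.closure t = (Submodule.span F2 t).toAddSubgroup := fun t =>
    le_antisymm ((AddSubgroup.closure_le _).2 Submodule.subset_span) fun a ha =>
      (Submodule.span_le (p := AddSubgroup.toZModSubmodule 2 (AddSubgroup.closure t))).2
        AddSubgroup.subset_closure ha
  obtain ⟨b, h1, -, h2, h3⟩ := exists_linearIndepOn_extension (K := F2) (v := y)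
    (linearIndepOn_empty F2 y) (Set.empty_subset s)
  have e : Submodule.span F2 (y '' b) = Submodule.span F2 (y '' s) :=
    le_antisymm (Submodule.span_mono (Set.image_mono h1)) (Submodule.span_le.2 h2)
  refine ⟨b.toFinset, by simpa using h1, ?_, by rw [Set.coe_toFinset, sp, sp, e]⟩
  have f1 : Module.Finite F2 (Submodule.span F2 (y '' b)) :=
    Module.Finite.span_of_finite F2 (b.toFinite.image y)
  have f2 := finrank_span_eq_card h3
  rw [← Set.image_eq_range, ← Set.toFinset_card] at f2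
  have f3 := Module.natCard_eq_pow_finrank (K := F2) (V := Submodule.span F2 (y '' b))
  rw [f2, Nat.card_zmod] at f3
  rw [sp, ← e] at h
  exact (Nat.pow_le_pow_iff_right one_lt_two).1 (f3.ge.trans h)

theorem mat_transpose (β : ι → F2) (p q : K) (Ψ : Matrix ι ι K) {B : Finset ι} (S : Sym B) :
    (mat β p q Ψ S).transpose = mat β p q Ψ.transpose S := by
  ext i j
  simp [mat, cf, S.2.1 j i, eq_comm]

theorem mat_map {k : Type} [Field k] [Algebra F2 k] (f : k →+* K) (β : ι → F2) (p q : k)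
    (Ψ : Matrix ι ι k) (S : Matrix ι ι F2) :
    (mat β p q Ψ S).map f = mat β (f p) (f q) (Ψ.map f) S := by
  ext i j
  have e := RingHom.congr_fun (RingHom.ext_zmod (f.comp (algebraMap F2 k)) (algebraMap F2 K)) (S i j)
  simp only [mat, cf, Matrix.map_apply, Matrix.of_apply, map_add, map_mul, apply_ite f, ← e,
    RingHom.comp_apply]

omit [Algebra F2 K] in
theorem pr_ker_iff {I J : Finset ι} {M : Matrix ι ι K} : Ker I J M = ⊥ ↔ ∀ z : J → K,
    (M.submatrix (Subtype.val : I → ι) (Subtype.val : J → ι)).mulVec z = 0 → z = 0 := by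
  classical
  have k : ∀ y : ι → K, (∀ j, j ∉ J → y j = 0) → ∀ i : I, M.mulVec y i =
      (M.submatrix (Subtype.val : I → ι) (Subtype.val : J → ι)).mulVec (fun j => y j) i :=
    fun y hy i => by
      simp only [Matrix.mulVec, dotProduct, Matrix.submatrix_apply]
      rw [sum_coe_sort J fun j => M i j * y j]
      exact (sum_subset (subset_univ J) fun j _ hj => by rw [hy j hj, mul_zero]).symm
  rw [Submodule.eq_bot_iff]
  refine ⟨fun h z hz => ?_, fun h y hy => ?_⟩
  · have h1 : ∀ j, j ∉ J → (fun j => if e : j ∈ J then z ⟨j, e⟩ else 0) j = 0 :=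
      fun j hj => dif_neg hj
    have h2 : (fun j : J => if e : j.1 ∈ J then z ⟨j, e⟩ else 0) = z := funext fun j => dif_pos j.2
    rw [← h2]
    funext j
    refine congrFun (h _ ⟨h1, fun i hi => ?_⟩) j
    rw [k _ h1 ⟨i, hi⟩, h2, hz]
    rfl
  · have h1 := h (fun j => y j) (funext fun i => (k y hy.1 i).symm.trans (hy.2 i i.2))
    funext j
    by_cases e : j ∈ J
    · exact congrFun h1 ⟨j, e⟩
    · exact hy.1 j e

omit [Algebra F2 K] in
theorem pr_ker_li {I J : Finset ι} {M : Matrix ι ι K} : Ker I J M = ⊥ ↔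
    LinearIndependent K (M.submatrix (Subtype.val : I → ι) (Subtype.val : J → ι)).col := by
  rw [pr_ker_iff, ← Matrix.mulVec_injective_iff]
  exact (injective_iff_map_eq_zero (Matrix.mulVecLin _)).symm

omit [Algebra F2 K] in
theorem pr_ker_map {k : Type} [Field k] (f : k →+* K) {I J : Finset ι} {M : Matrix ι ι k} :
    Ker I J (M.map f) = ⊥ ↔ Ker I J M = ⊥ := by
  let _ := f.toAlgebra
  rw [pr_ker_li, pr_ker_li]
  exact linearIndependent_algebraMap_comp_iff

omit [Algebra F2 K] in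
theorem pr_ker_det [DecidableEq ι] {J : Finset ι} {M : Matrix ι ι K} : Ker J J M = ⊥ ↔
    (M.submatrix (Subtype.val : J → ι) (Subtype.val : J → ι)).det ≠ 0 := by
  rw [pr_ker_iff, Ne, ← Matrix.exists_mulVec_eq_zero_iff]
  exact ⟨fun h ⟨z, h1, h2⟩ => h1 (h z h2), fun h z hz => by_contra fun k => h ⟨z, k, hz⟩⟩

omit [Algebra F2 K] in
theorem ker_map {k : Type} [Field k] (f : k →+* K) {I J : Finset ι} {M : Matrix ι ι k}
    (h : Ker I J M = ⊥) : Ker I J (M.map f) = ⊥ := by
  exact (pr_ker_map f).2 h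

omit [Algebra F2 K] in
theorem ker_of_map {k : Type} [Field k] (f : k →+* K) {I J : Finset ι} {M : Matrix ι ι k}
    (h : Ker I J (M.map f) = ⊥) : Ker I J M = ⊥ := by
  exact (pr_ker_map f).1 h

omit [Algebra F2 K] in
theorem ker_transpose {J : Finset ι} {M : Matrix ι ι K} (h : Ker J J M = ⊥) :
    Ker J J M.transpose = ⊥ := by
  classical
  rw [pr_ker_det] at h ⊢
  rwa [← Matrix.transpose_submatrix, Matrix.det_transpose]

omit [Algebra F2 K] in
/-- A regular pencil has few singular members. -/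
theorem card_sing {J : Finset ι} {M0 M1 : Matrix ι ι K} {x1 : K}
    (h : Ker J J (M0 + x1 • M1) = ⊥) :
    ∃ X : Finset K, #X ≤ #J ∧ ∀ x, Ker J J (M0 + x • M1) ≠ ⊥ → x ∈ X := by
  classical
  let P : Polynomial K := Matrix.det ((Polynomial.X : Polynomial K) •
    (M1.submatrix (Subtype.val : J → ι) (Subtype.val : J → ι)).map Polynomial.C +
    (M0.submatrix (Subtype.val : J → ι) (Subtype.val : J → ι)).map Polynomial.C)
  have ev : ∀ x, P.eval x =
      ((M0 + x • M1).submatrix (Subtype.val : J → ι) (Subtype.val : J → ι)).det := fun x => by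
    rw [← Polynomial.coe_evalRingHom, RingHom.map_det]
    congr 1
    ext i j
    simp [add_comm, mul_comm x]
  have h0 : P ≠ 0 := fun e => pr_ker_det.1 h (by rw [← ev, e, Polynomial.eval_zero])
  refine ⟨P.roots.toFinset, (Multiset.toFinset_card_le _).trans ((Polynomial.card_roots' P).trans
    ((Polynomial.natDegree_det_X_add_C_le _ _).trans (Fintype.card_coe J).le)), fun x hx => ?_⟩
  rw [Multiset.mem_toFinset, Polynomial.mem_roots h0, Polynomial.IsRoot, ev]
  by_contra k
  exact hx (pr_ker_det.2 k)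

theorem pen_eq (β : ι → F2) (Ψ0 Ψ1 : Matrix ι ι K) (x : K) (S : Matrix ι ι F2) :
    pen β Ψ0 Ψ1 x S = mat β 1 0 Ψ0 S + x • mat β 0 1 Ψ1 S := by
  ext i j
  simp only [pen, mat, cf, Matrix.of_apply, Matrix.add_apply, Matrix.smul_apply, smul_eq_mul]
  split_ifs <;> ring
end

end Pool.Agent.Lib.MP_f8d36e_nt
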