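import Pool.Agent.Lib.MP_f8d36e_nt.Degen
import Pool.Agent.Lib.MP_f8d36e_nt.GainL
import Pool.Agent.Lib.MP_f8d36e_nt.Full

/-! Job E5 and E6: test points and small spans. -/

set_option autoImplicit false

open Matrix Finset

namespace Pool.Agent.Lib.MP_f8d36e_nt

theorem test_cnt_mono {ι : Type} (β : ι → F2) {A A' : Finset ι} (h : A ⊆ A') (b : F2) :
    cnt β A b ≤ cnt β A' b :=
  Finset.card_le_card (Finset.filter_subset_filter _ h)

theorem test_r_pos {k : Type} [Field k] [Finite k] {r : ℕ} (hk : Nat.card k = 2 ^ r) : 1 ≤ r := by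
  have h : 1 < Nat.card k := Finite.one_lt_card
  rw [hk] at h
  rcases Nat.eq_zero_or_pos r with h0 | h0
  · simp [h0] at h
  · exact h0

theorem test_pow_le {a t r : ℕ} (h : a + r ≤ t) : (2 : ℝ) ^ a / 2 ^ t ≤ 1 / 2 ^ r := by
  rw [div_le_div_iff₀ (by positivity) (by positivity), ← pow_add, one_mul]
  exact pow_le_pow_right₀ (by norm_num) h

theorem test_Vs_smul {ι K : Type} [Fintype ι] [Field K] [Algebra F2 K] {B : Finset ι}
    {β : ι → F2} {b : F2} {y : ι → K} {c : K} (hc : c ≠ 0) (h : Vs B β b y = ⊤) :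
    Vs B β b (c • y) = ⊤ := by
  rw [eq_top_iff]
  intro a _
  have h1 : c⁻¹ * a ∈ Vs B β b y := by rw [h]; trivial
  obtain ⟨ε, hε, e⟩ := mem_Vs.1 h1
  refine mem_Vs.2 ⟨ε, hε, ?_⟩
  have e2 : a = c * (c⁻¹ * a) := by field_simp
  rw [e2, e, Finset.mul_sum]
  refine Finset.sum_congr rfl fun j _ => ?_
  simp only [Pi.smul_apply, smul_eq_mul]
  ring

theorem test_card_Vs_comp {ι K : Type} [Fintype ι] [Field K] [Algebra F2 K] (B : Finset ι)
    (β : ι → F2) (b : F2) (y : ι → K) (φ : K →+ K) :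
    Nat.card (Vs B β b (fun j => φ (y j))) ≤ Nat.card (Vs B β b y) := by
  have e : Vs B β b (fun j => φ (y j)) = (Vs B β b y).map φ := by
    unfold Vs
    rw [AddMonoidHom.map_closure, Set.image_image]
  have := finite_Vs B β b y
  rw [e]
  exact Nat.card_le_card_of_surjective _ (φ.addSubgroupMap_surjective (Vs B β b y))

theorem test_comp {ι K R : Type} [Fintype ι] [Field K] [Field R] [Algebra R K] (φ : K →ₗ[R] K)
    {M : Matrix ι ι K} (hM : ∀ i j, M i j ∈ (algebraMap R K).range) (y : ι → K) (i : ι) :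
    (M *ᵥ fun j => φ (y j)) i = φ ((M *ᵥ y) i) := by
  simp only [mulVec, dotProduct, map_sum]
  refine Finset.sum_congr rfl fun j _ => ?_
  obtain ⟨c, hc⟩ := hM i j
  rw [← hc, ← Algebra.smul_def, ← Algebra.smul_def, map_smul]

theorem test_mat_mem {ι K : Type} [Fintype ι] [Field K] [Algebra F2 K] (A : Subring K)
    (β : ι → F2) {p q : K} {Ψ : Matrix ι ι K} (S : Matrix ι ι F2) (hp : p ∈ A) (hq : q ∈ A)
    (hΨ : ∀ i j, Ψ i j ∈ A) (i j : ι) : mat β p q Ψ S i j ∈ A := by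
  have h1 : cf p q (β i) (β j) ∈ A := by
    unfold cf
    split_ifs
    · exact hp
    · exact hq
  have h2 : algebraMap F2 K (S i j) ∈ A := by
    have h3 : ∀ a : F2, a = 0 ∨ a = 1 := by decide
    rcases h3 (S i j) with h | h <;> rw [h]
    · rw [map_zero]; exact A.zero_mem
    · rw [map_one]; exact A.one_mem
  exact A.add_mem (hΨ i j) (A.mul_mem h1 h2)

/-- The polynomial with a given list of coefficients. -/
noncomputable def testPoly {k : Type} [Field k] {D : ℕ} (c : Fin (D + 1) → k) : Polynomial k :=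
  ∑ i : Fin (D + 1), Polynomial.monomial (i : ℕ) (c i)

/-- An element that maps a small nonzero subspace into itself has small degree. -/
theorem test_alg {k K : Type} [Field k] [Field K] [Algebra k K] (W : Submodule k K)
    [Module.Finite k W] {D : ℕ} (hD : Module.finrank k W ≤ D) {z w : K} (hw : w ∈ W) (hw0 : w ≠ 0)
    (hz : ∀ a ∈ W, z * a ∈ W) : ∃ c : Fin (D + 1) → k,
      (testPoly c) ≠ 0 ∧
      Polynomial.aeval z (testPoly c) = 0 := by
  have hp : ∀ n : ℕ, z ^ n * w ∈ W := by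
    intro n
    induction n with
    | zero => simpa using hw
    | succ n ih => rw [pow_succ', mul_assoc]; exact hz _ ih
  have hn : ¬ LinearIndependent k (fun i : Fin (D + 1) => (⟨z ^ (i : ℕ) * w, hp i⟩ : W)) := by
    intro h
    have := h.fintype_card_le_finrank
    rw [Fintype.card_fin] at this
    omega
  obtain ⟨c, hc, i, hi⟩ := Fintype.not_linearIndependent_iff.1 hn
  refine ⟨c, fun h => hi ?_, ?_⟩
  · have h1 := congrArg (fun P => Polynomial.coeff P (i : ℕ)) h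
    simpa [testPoly, Polynomial.finsetSum_coeff, Polynomial.coeff_monomial, Fin.val_inj] using h1
  · have h1 := congrArg (fun a : W => (a : K)) hc
    simp only [AddSubmonoidClass.coe_finsetSum, SetLike.val_smul, ZeroMemClass.coe_zero] at h1
    have h2 : Polynomial.aeval z (testPoly c) * w = 0 := by
      rw [← h1, testPoly, map_sum, Finset.sum_mul]
      refine Finset.sum_congr rfl fun j _ => ?_
      rw [Polynomial.aeval_monomial, Algebra.smul_def, mul_assoc]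
    exact (mul_eq_zero.1 h2).resolve_right hw0

theorem test_natDegree {k : Type} [Field k] {D : ℕ} (c : Fin (D + 1) → k) :
    (testPoly c).natDegree ≤ D :=
  Polynomial.natDegree_sum_le_of_forall_le _ _ fun i _ =>
    (Polynomial.natDegree_monomial_le _).trans (Nat.lt_succ_iff.1 i.2)

/-- The elements of small degree over a finite field. -/
theorem test_exists_Z (k K : Type) [Field k] [Finite k] [Field K] [Algebra k K] (D : ℕ) :
    ∃ Z : Finset K, #Z ≤ Nat.card k ^ (D + 1) * D ∧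
      (∀ (z : K) (c : Fin (D + 1) → k), (testPoly c) ≠ 0 →
        Polynomial.aeval z (testPoly c) = 0 → z ∈ Z) ∧
      ∀ z ∈ Z, Finite (IntermediateField.adjoin k {z}) ∧
        Nat.card (IntermediateField.adjoin k {z}) ≤ Nat.card k ^ D := by
  classical
  have := Fintype.ofFinite k
  refine ⟨(univ : Finset (Fin (D + 1) → k)).biUnion fun c =>
    ((testPoly c).aroots K).toFinset, ?_, ?_, ?_⟩
  · refine (Finset.card_biUnion_le_card_mul _ _ D fun c _ => ?_).trans ?_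
    · refine (Multiset.toFinset_card_le _).trans ((Polynomial.card_roots' _).trans ?_)
      exact Polynomial.natDegree_map_le.trans (test_natDegree c)
    · simp [Nat.card_eq_fintype_card]
  · intro z c h0 h1
    exact Finset.mem_biUnion.2 ⟨c, mem_univ _,
      Multiset.mem_toFinset.2 (Polynomial.mem_aroots.2 ⟨h0, h1⟩)⟩
  · intro z hz
    obtain ⟨c, -, hc⟩ := Finset.mem_biUnion.1 hz
    obtain ⟨h0, h1⟩ := Polynomial.mem_aroots.1 (Multiset.mem_toFinset.1 hc)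
    have hi : IsIntegral k z := IsAlgebraic.isIntegral ⟨_, h0, h1⟩
    have hf := IntermediateField.adjoin.finiteDimensional hi
    refine ⟨Module.finite_of_finite k, ?_⟩
    rw [Module.natCard_eq_pow_finrank (K := k), IntermediateField.adjoin.finrank hi]
    refine Nat.pow_le_pow_right Nat.card_pos ?_
    exact (Polynomial.natDegree_le_natDegree (minpoly.degree_le_of_ne_zero k z h0 h1)).trans
      (test_natDegree c)

/-- A kernel vector with small spans forces the parameter to have small degree. -/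
theorem test_small {ι k K : Type} [Fintype ι] [DecidableEq ι] [Field k] [Field K] [Algebra k K]
    [Algebra F2 K] {B J : Finset ι} {β : ι → F2} {σ s : ℕ} (hs : #(J \ B) ≤ s)
    {M0 M1 : Matrix ι ι K} {x x1 : K} (h0 : ∀ i j, M0 i j ∈ (algebraMap k K).range)
    (h1 : ∀ i j, M1 i j ∈ (algebraMap k K).range) (hx1 : x1 ∈ (algebraMap k K).range)
    (hK : Ker J J (M0 + x1 • M1) = ⊥) {y : ι → K} (hy : y ∈ Ker J J (M0 + x • M1)) (hy0 : y ≠ 0)
    (hV0 : Nat.card (Vs B β 0 y) ≤ 2 ^ σ) (hV1 : Nat.card (Vs B β 1 y) ≤ 2 ^ σ) :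
    ∃ c : Fin (2 * σ + s + 1) → k, (testPoly c) ≠ 0 ∧
      Polynomial.aeval (x1 - x)⁻¹ (testPoly c) = 0 := by
  classical
  obtain ⟨Z0, -, hZ0, e0⟩ := exists_gen y hV0
  obtain ⟨Z1, -, hZ1, e1⟩ := exists_gen y hV1
  set G : Finset K := (Z0 ∪ Z1 ∪ (J \ B)).image y with hG
  set W : Submodule k K := Submodule.span k (G : Set K) with hW
  have hfin : Module.Finite k W := Module.Finite.span_of_finite k G.finite_toSet
  have hrk : Module.finrank k W ≤ 2 * σ + s := by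
    refine (finrank_span_finset_le_card G).trans (Finset.card_image_le.trans ?_)
    have a1 := Finset.card_union_le (Z0 ∪ Z1) (J \ B)
    have a2 := Finset.card_union_le Z0 Z1
    omega
  have hsub : ∀ Z : Finset ι, Z ⊆ Z0 ∪ Z1 ∪ (J \ B) →
      AddSubgroup.closure (y '' (Z : Set ι)) ≤ W.toAddSubgroup := by
    intro Z hZ
    rw [AddSubgroup.closure_le]
    rintro _ ⟨j, hj, rfl⟩
    exact Submodule.subset_span (Finset.mem_coe.2 (Finset.mem_image_of_mem y (hZ hj)))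
  have hyW : ∀ j, y j ∈ W := by
    intro j
    by_cases hB : j ∈ B
    · have h3 : ∀ a : F2, a = 0 ∨ a = 1 := by decide
      rcases h3 (β j) with h | h
      · refine hsub Z0 (fun a ha => by simp [ha]) ?_
        rw [e0]
        exact AddSubgroup.subset_closure ⟨j, ⟨hB, h⟩, rfl⟩
      · refine hsub Z1 (fun a ha => by simp [ha]) ?_
        rw [e1]
        exact AddSubgroup.subset_closure ⟨j, ⟨hB, h⟩, rfl⟩
    · by_cases hJ : j ∈ J
      · exact Submodule.subset_span (Finset.mem_coe.2 (Finset.mem_image_of_mem y (by simp [hB, hJ])))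
      · rw [hy.1 j hJ]; exact W.zero_mem
  have hne : x1 - x ≠ 0 := by
    intro h
    rw [sub_eq_zero] at h
    rw [← h, hK] at hy
    exact hy0 hy
  have hM1W : ∀ i, (M1 *ᵥ y) i ∈ W := by
    intro i
    simp only [mulVec, dotProduct]
    refine W.sum_mem fun j _ => ?_
    obtain ⟨c, hc⟩ := h1 i j
    rw [← hc, ← Algebra.smul_def]
    exact W.smul_mem c (hyW j)
  have hent : ∀ i j, (M0 + x1 • M1) i j ∈ (algebraMap k K).range := fun i j =>
    Subring.add_mem _ (h0 i j) (Subring.mul_mem _ hx1 (h1 i j))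
  have hzy : ∀ j, (x1 - x)⁻¹ * y j ∈ W := by
    intro j
    by_contra hcon
    obtain ⟨ψ, hψ, hψW⟩ := W.exists_dual_map_eq_bot_of_notMem hcon inferInstance
    have hψ0 : ∀ a ∈ W, ψ a = 0 := fun a ha => by
      have : ψ a ∈ W.map ψ := Submodule.mem_map_of_mem ha
      rw [hψW] at this
      exact this
    set φ : K →ₗ[k] K := (Algebra.linearMap k K).comp ψ with hφ
    have hu : (fun l => φ (((x1 - x)⁻¹ • y) l)) ∈ Ker J J (M0 + x1 • M1) := by
      refine ⟨fun l hl => by simp [hy.1 l hl], fun i hi => ?_⟩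
      rw [test_comp φ hent]
      have a1 := hy.2 i hi
      have a2 : ((M0 + x1 • M1) *ᵥ ((x1 - x)⁻¹ • y)) i = (M1 *ᵥ y) i := by
        simp only [add_mulVec, smul_mulVec, mulVec_smul, Pi.add_apply, Pi.smul_apply,
          smul_eq_mul] at a1 ⊢
        field_simp
        linear_combination a1
      rw [a2]
      simp [hφ, hψ0 _ (hM1W i)]
    rw [hK] at hu
    have a3 := congrFun (Submodule.mem_bot K |>.1 hu) j
    apply hψ
    simpa [hφ] using a3
  obtain ⟨j0, hj0⟩ := Function.ne_iff.1 hy0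
  refine test_alg W hrk (hyW j0) hj0 fun a ha => ?_
  induction ha using Submodule.span_induction with
  | mem a ha =>
    obtain ⟨j, -, rfl⟩ := Finset.mem_image.1 (Finset.mem_coe.1 ha)
    exact hzy j
  | zero => simp
  | add a b _ _ iha ihb => rw [mul_add]; exact W.add_mem iha ihb
  | smul c a _ ih => rw [mul_smul_comm]; exact W.smul_mem c ih

/-- A kernel vector can be moved into any field that contains the entries of the matrix. -/
theorem test_descend {ι R K : Type} [Fintype ι] [Field R] [Field K] [Algebra R K] [Algebra F2 K]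
    (B : Finset ι) (β : ι → F2) {I J : Finset ι} {M : Matrix ι ι K}
    (hM : ∀ i j, M i j ∈ (algebraMap R K).range) {y : ι → K} (hy : y ∈ Ker I J M) (hy0 : y ≠ 0) :
    ∃ y' ∈ Ker I J M, y' ≠ 0 ∧ (∀ j, y' j ∈ (algebraMap R K).range) ∧
      ∀ b, Nat.card (Vs B β b y') ≤ Nat.card (Vs B β b y) := by
  obtain ⟨j0, hj0⟩ := Function.ne_iff.1 hy0
  obtain ⟨ψ, hψ⟩ := Module.Projective.exists_dual_ne_zero R hj0
  set φ : K →ₗ[R] K := (Algebra.linearMap R K).comp ψ with hφ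
  refine ⟨fun j => φ (y j), ⟨fun j hj => by simp [hy.1 j hj], fun i hi => ?_⟩, ?_,
    fun j => ⟨ψ (y j), rfl⟩, fun b => test_card_Vs_comp B β b y φ.toAddMonoidHom⟩
  · rw [test_comp φ hM, hy.2 i hi, map_zero]
  · intro h
    apply hψ
    simpa [hφ] using congrFun h j0

variable {ι k : Type} [Fintype ι] [DecidableEq ι] [Field k] [Finite k] [Algebra F2 k]
  {Λ B I J : Finset ι} {β : ι → F2} {ρ s t r : ℕ}

theorem test_point {p q T : k} {Ψ : Matrix ι ι k}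
    (hk : Nat.card k = 2 ^ r) (hΛ : Λ ⊆ J ∩ B) (hIJ : ∀ i ∈ B, i ∈ I ↔ i ∈ J)
    (hs : #(J \ B) ≤ s) (hs' : #(I \ B) ≤ s) (hS : Shape Λ B β p q T Ψ ρ) (hI : Inj B I J Ψ)
    (hI' : Inj B J I Ψᵀ) (h0 : t ≤ cnt β Λ 0) (h1 : t ≤ cnt β Λ 1)
    (ht : 40 * r * (r + s + ρ + 1) ≤ t)
    (hc : (p = 1 ∧ q ≠ 0 ∧ Gen T ∧ #(J \ B) ≤ #(I \ B)) ∨
      (p = 0 ∧ q = 1 ∧ T ≠ 0 ∧ Gen (T ^ 2) ∧ #(J \ B) < #(I \ B) ∧
        cnt β (J ∩ B) 0 + t ≤ cnt β (J ∩ B) 1 + cnt β Λ 0 ∧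
        cnt β (J ∩ B) 1 + t ≤ cnt β (J ∩ B) 0 + cnt β Λ 1)) :
    pr (fun S : Sym B => Ker I J (mat β p q Ψ S) ≠ ⊥) ≤ 5 / 2 ^ r := by
  classical
  have hr := test_r_pos hk
  have m0 := test_cnt_mono β hΛ 0
  have m1 := test_cnt_mono β hΛ 1
  have hdeg := degenerate (t := t) (D := r) hΛ hIJ hs hS hI (⊤ : AddSubgroup k)
    (fun V0 V1 => ¬ (V0 = ⊤ ∧ V1 = ⊤)) (fun V0 V1 _ _ hV _ _ hP => by
      have fin : ∀ θ : k, Gen θ → V0 ≠ ⊥ → (∀ a ∈ V0, θ * a ∈ V0) →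
          Nat.card V1 = Nat.card V0 → False := by
        intro θ hθ a1 a2 a3
        have a4 := (hθ V0 a2).resolve_left a1
        refine hP ⟨a4, AddSubgroup.eq_top_of_card_eq V1 ?_⟩
        rw [a3, a4, AddSubgroup.card_top]
      rcases hc with ⟨rfl, hq, hT, -⟩ | ⟨rfl, rfl, hT0, hT, -, b0, b1⟩
      · exact (gain_pos hq h0 m0 h1 m1 hV).resolve_right fun ⟨a1, _, a2, a3⟩ => fin T hT a1 a2 a3
      · exact (gain_zero hT0 h0 m0 h1 m1 b0 b1 hV).resolve_right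
          fun ⟨a1, a2, a3⟩ => fin _ hT a1 a2 a3)
  have hdeg2 : (Nat.card (⊤ : AddSubgroup k) : ℝ) ^ (2 * r + s + ρ) * 2 ^ (4 * r ^ 2) / 2 ^ t
      ≤ 1 / 2 ^ r := by
    rw [AddSubgroup.card_top, hk]
    push_cast
    rw [← pow_mul, ← pow_add]
    refine test_pow_le (le_trans ?_ ht)
    nlinarith [Nat.zero_le (r * s), Nat.zero_le (r * ρ), Nat.zero_le (r * r)]
  have := Fintype.ofFinite k
  have hfull := full_count hk hΛ hIJ hs hs' hS hI' h0 h1 ht
    (hc.imp id fun ⟨a1, a2, a3, a4, a5, _⟩ => ⟨a1, a2, a3, a4, a5⟩)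
  have hmul : ((2 ^ r - 1 : ℕ) : ℝ) * pr (fun S : Sym B => ∃ y ∈ Ker I J (mat β p q Ψ S),
      y ≠ 0 ∧ Vs B β 0 y = ⊤ ∧ Vs B β 1 y = ⊤) ≤ 2 := by
    refine le_trans (mul_pr_le _ _ _ ?_) hfull
    rintro S ⟨y, hy, hy0, f0, f1⟩
    refine ⟨(univ.erase (0 : k)).image fun c => c • y, ?_, ?_, ?_⟩
    · intro a ha
      obtain ⟨c, hc, rfl⟩ := Finset.mem_image.1 ha
      have hc0 := Finset.ne_of_mem_erase hc
      exact Finset.mem_filter.2 ⟨mem_univ _, test_Vs_smul hc0 f0, test_Vs_smul hc0 f1⟩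
    · rw [Finset.card_image_of_injective _ (smul_left_injective k hy0),
        Finset.card_erase_of_mem (mem_univ _), Finset.card_univ, ← Nat.card_eq_fintype_card, hk]
    · intro a ha
      obtain ⟨c, -, rfl⟩ := Finset.mem_image.1 ha
      exact Submodule.smul_mem _ c hy
  have h2r : (2 : ℝ) ≤ 2 ^ r := by
    calc (2 : ℝ) = 2 ^ 1 := by norm_num
      _ ≤ 2 ^ r := pow_le_pow_right₀ (by norm_num) hr
  rw [Nat.cast_sub Nat.one_le_two_pow] at hmul
  push_cast at hmul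
  have hfull2 : pr (fun S : Sym B => ∃ y ∈ Ker I J (mat β p q Ψ S),
      y ≠ 0 ∧ Vs B β 0 y = ⊤ ∧ Vs B β 1 y = ⊤) ≤ 4 / 2 ^ r := by
    rw [le_div_iff₀ (by positivity)]
    nlinarith [pr_nonneg (E := fun S : Sym B => ∃ y ∈ Ker I J (mat β p q Ψ S),
      y ≠ 0 ∧ Vs B β 0 y = ⊤ ∧ Vs B β 1 y = ⊤)]
  have e5 : (5 : ℝ) / 2 ^ r = 4 / 2 ^ r + 1 / 2 ^ r := by ring
  rw [e5]
  refine le_trans (le_trans (pr_mono ?_) pr_or_le) (add_le_add hfull2 (hdeg.trans hdeg2))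
  intro S hS
  obtain ⟨y, hy, hy0⟩ := (Submodule.ne_bot_iff _).1 hS
  by_cases hf : Vs B β 0 y = ⊤ ∧ Vs B β 1 y = ⊤
  · exact Or.inl ⟨y, hy, hy0, hf⟩
  · exact Or.inr ⟨y, hy, hy0, fun _ => trivial, hk ▸ AddSubgroup.card_le_card_addGroup _,
      hk ▸ AddSubgroup.card_le_card_addGroup _, hf⟩

omit [Algebra F2 k] in
theorem test_span (f : k →+* Kb) {a b x1 : Kb} {Ψ0 Ψ1 : Matrix ι ι k} {σ : ℕ}
    (hk : Nat.card k = 2 ^ r) (hΛ : Λ ⊆ J ∩ B) (hs : #(J \ B) ≤ s) (hx : x1 ∈ f.range)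
    (hS : ∀ x, x ≠ 0 → Shape Λ B β 1 x (a + b * x) (Ψ0.map f + x • Ψ1.map f) ρ)
    (hI : ∀ x : Kb, x ≠ 0 → Inj B J J (Ψ0.map f + x • Ψ1.map f)) (hl : Hline σ a b)
    (h0 : t ≤ cnt β Λ 0) (h1 : t ≤ cnt β Λ 1) (ht : 40 * r * (σ + s + ρ + 1) ^ 2 ≤ t) :
    pr (fun S : Sym B => Ker J J (pen β (Ψ0.map f) (Ψ1.map f) x1 S) = ⊥ ∧
      ¬ Good σ x1 B J β (Ψ0.map f) (Ψ1.map f) S) ≤ 1 / 2 ^ r := by
  classical
  let _ : Algebra k Kb := f.toAlgebra
  have hf : algebraMap k Kb = f := rfl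
  have hr := test_r_pos hk
  have m0 := test_cnt_mono β hΛ 0
  have m1 := test_cnt_mono β hΛ 1
  obtain ⟨Z, hZ, hZ1, hZ2⟩ := test_exists_Z k Kb (2 * σ + s)
  set D := 2 * σ + s with hD
  let kk : Kb → AddSubgroup Kb := fun z => (IntermediateField.adjoin k {z}).toSubfield.toAddSubgroup
  let A : Kb → Sym B → Prop := fun z S => ∃ y ∈ Ker J J (mat β 1 (x1 - z⁻¹)
    (Ψ0.map f + (x1 - z⁻¹) • Ψ1.map f) S), y ≠ 0 ∧ (∀ j, y j ∈ kk z) ∧
      Nat.card (Vs B β 0 y) ≤ 2 ^ σ ∧ Nat.card (Vs B β 1 y) ≤ 2 ^ σ ∧ True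
  have hA : ∀ z ∈ Z.filter fun z => x1 - z⁻¹ ≠ 0,
      pr (A z) ≤ (2 : ℝ) ^ (r * D * (2 * σ + s + ρ) + 4 * σ ^ 2) / 2 ^ t := by
    intro z hz
    obtain ⟨hz1, hz2⟩ := Finset.mem_filter.1 hz
    obtain ⟨hfin, hcard⟩ := hZ2 z hz1
    have hfin' : Finite (kk z) := hfin
    have hcard' : Nat.card (kk z) ≤ 2 ^ (r * D) := by
      rw [hk, ← pow_mul] at hcard
      exact hcard
    have hdeg := degenerate (t := t) (D := σ) hΛ (fun _ _ => Iff.rfl) hs (hS _ hz2) (hI _ hz2)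
      (kk z) (fun _ _ => True) (fun V0 V1 l0 l1 hV c0 _ _ => by
        have f0 : Finite V0 := Finite.of_injective _ (AddSubgroup.inclusion_injective l0)
        have f1 : Finite V1 := Finite.of_injective _ (AddSubgroup.inclusion_injective l1)
        exact (gain_pos hz2 h0 m0 h1 m1 hV).resolve_right
          fun ⟨a1, a2, a3, _⟩ => hl _ V0 f0 a1 c0 a2 a3)
    refine hdeg.trans ?_
    rw [pow_add (2 : ℝ), pow_mul (2 : ℝ) (r * D)]
    have hc2 : (Nat.card (kk z) : ℝ) ≤ 2 ^ (r * D) := by exact_mod_cast hcard'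
    gcongr
  have hU := pr_exists_le_card _ A hA
  have hcnt : (#(Z.filter fun z => x1 - z⁻¹ ≠ 0) : ℝ) ≤ 2 ^ (r * (D + 1) + D) := by
    have a1 : #(Z.filter fun z => x1 - z⁻¹ ≠ 0) ≤ 2 ^ (r * (D + 1) + D) := by
      refine (Finset.card_filter_le _ _).trans (hZ.trans ?_)
      rw [hk, ← pow_mul, pow_add]
      exact Nat.mul_le_mul_left _ Nat.lt_two_pow_self.le
    exact_mod_cast a1
  have hfinal : (2 : ℝ) ^ (r * (D + 1) + D) *
      (2 ^ (r * D * (2 * σ + s + ρ) + 4 * σ ^ 2) / 2 ^ t) ≤ 1 / 2 ^ r := by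
    rw [← mul_div_assoc, ← pow_add]
    refine test_pow_le (le_trans ?_ ht)
    obtain ⟨n, hn⟩ : ∃ n, n = σ + s + ρ + 1 := ⟨_, rfl⟩
    rw [← hn]
    have b1 : D + 1 ≤ 2 * n := by omega
    have b2 : 2 * σ + s + ρ ≤ 2 * n := by omega
    have b3 : σ ≤ n := by omega
    have b4 : n ≤ n ^ 2 := Nat.le_self_pow (by norm_num) n
    have b5 : 1 ≤ n := by omega
    have c1 : r * (D + 1) ≤ r * (2 * n ^ 2) := Nat.mul_le_mul_left _ (by omega)
    have c2 : n ^ 2 ≤ r * n ^ 2 := Nat.le_mul_of_pos_left _ hr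
    have c3 : r * D * (2 * σ + s + ρ) ≤ r * (2 * n) * (2 * n) :=
      Nat.mul_le_mul (Nat.mul_le_mul_left _ (by omega)) b2
    have c4 : σ ^ 2 ≤ n ^ 2 := Nat.pow_le_pow_left b3 2
    have c5 : r ≤ r * n ^ 2 := Nat.le_mul_of_pos_right _ (by omega)
    have e1 : r * (2 * n ^ 2) = 2 * (r * n ^ 2) := by ring
    have e2 : r * (2 * n) * (2 * n) = 4 * (r * n ^ 2) := by ring
    have e3 : 40 * r * n ^ 2 = 40 * (r * n ^ 2) := by ring
    omega
  refine le_trans (pr_mono ?_) (hU.trans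
    ((mul_le_mul_of_nonneg_right hcnt (by positivity)).trans hfinal))
  rintro S ⟨hK, hG⟩
  have hG' : ∃ x, x ≠ 0 ∧ ∃ y ∈ Ker J J (pen β (Ψ0.map f) (Ψ1.map f) x S), y ≠ 0 ∧
      Nat.card (Vs B β 0 y) ≤ 2 ^ σ ∧ Nat.card (Vs B β 1 y) ≤ 2 ^ σ := by
    by_contra hcon
    refine hG ⟨hK, fun x hx0 y hy hy0 => ?_⟩
    by_contra hc2
    rw [not_or, not_lt, not_lt] at hc2
    exact hcon ⟨x, hx0, y, hy, hy0, hc2⟩
  obtain ⟨x, hx0, y, hy, hy0, v0, v1⟩ := hG'
  have hK' := hK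
  have hy' := hy
  rw [pen_eq] at hK' hy'
  obtain ⟨c, hc0, hc1⟩ := test_small (k := k) hs
    (test_mat_mem _ β _ (Subring.one_mem _) (Subring.zero_mem _) fun i j => ⟨Ψ0 i j, rfl⟩)
    (test_mat_mem _ β _ (Subring.zero_mem _) (Subring.one_mem _) fun i j => ⟨Ψ1 i j, rfl⟩)
    hx hK' hy' hy0 v0 v1
  have ex : x1 - ((x1 - x)⁻¹)⁻¹ = x := by rw [inv_inv]; ring
  refine ⟨(x1 - x)⁻¹, Finset.mem_filter.2 ⟨hZ1 _ c hc0 hc1, by rw [ex]; exact hx0⟩, ?_⟩
  set F := IntermediateField.adjoin k {(x1 - x)⁻¹} with hF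
  have hrange : ∀ a : Kb, a ∈ (algebraMap F Kb).range ↔ a ∈ F :=
    fun a => ⟨fun ⟨u, hu⟩ => hu ▸ u.2, fun h => ⟨⟨a, h⟩, rfl⟩⟩
  have hxF : x ∈ F := by
    rw [← ex]
    obtain ⟨u, hu⟩ := hx
    refine F.sub_mem (hu ▸ F.algebraMap_mem u) (F.inv_mem ?_)
    exact IntermediateField.mem_adjoin_simple_self k _
  obtain ⟨y', hy1, hy2, hy3, hy4⟩ := test_descend (R := F) B β
    (M := pen β (Ψ0.map f) (Ψ1.map f) x S)
    (test_mat_mem _ β _ (Subring.one_mem _) ((hrange x).2 hxF) fun i j => (hrange _).2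
      (F.add_mem (F.algebraMap_mem (Ψ0 i j)) (F.mul_mem hxF (F.algebraMap_mem (Ψ1 i j))))) hy hy0
  refine ⟨y', ?_, hy2, fun j => (hrange _).1 (hy3 j), (hy4 0).trans v0, (hy4 1).trans v1, trivial⟩
  rw [ex]
  exact hy1

theorem small_span (f : k →+* Kb) {a b x1 : Kb} {Ψ0 Ψ1 : Matrix ι ι k} {σ : ℕ}
    (hk : Nat.card k = 2 ^ r) (hΛ : Λ ⊆ J ∩ B) (hs : #(J \ B) ≤ s) (hx : x1 ∈ f.range)
    (hS : ∀ x, x ≠ 0 → Shape Λ B β 1 x (a + b * x) (Ψ0.map f + x • Ψ1.map f) ρ)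
    (hI : ∀ x : Kb, x ≠ 0 → Inj B J J (Ψ0.map f + x • Ψ1.map f)) (hl : Hline σ a b)
    (h0 : t ≤ cnt β Λ 0) (h1 : t ≤ cnt β Λ 1) (ht : 40 * r * (σ + s + ρ + 1) ^ 2 ≤ t) :
    pr (fun S : Sym B => Ker J J (pen β (Ψ0.map f) (Ψ1.map f) x1 S) = ⊥ ∧
      ¬ Good σ x1 B J β (Ψ0.map f) (Ψ1.map f) S) ≤ 1 / 2 ^ r :=
  test_span f hk hΛ hs hx hS hI hl h0 h1 ht

end Pool.Agent.Lib.MP_f8d36e_nt
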