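import Pool.Agent.Lib.MP_f8d36e_nt.Model
import Pool.Agent.Lib.MP_f8d36e_nt.Equi

/-! Job F3c: counting through tuples. -/

set_option autoImplicit false

open Finset Filter
open scoped NumberTheorySymbols
open Pool.Agent.Lib.MP_696deb_nt Pool.Agent.Lib.MP_696deb_nt.Den

namespace Pool.Agent.Lib.MP_f8d36e_nt

/-- The part of `m` that is made of primes up to `Y`. -/
def smooth (Y m : ℕ) : ℕ := ∏ p ∈ m.primeFactors with p ≤ Y, p

theorem trans_mem {k Y Z : ℕ} {q : Fin k → ℕ} : q ∈ Tup k Y Z ↔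
    (∀ i, (q i).Prime ∧ Y < q i) ∧ Function.Injective q ∧ ∏ i, q i ≤ Z := by
  simp only [Tup, mem_filter, Fintype.mem_piFinset, mem_Icc]
  refine and_congr_left fun h => ⟨fun h1 i => (h1 i).2, fun h1 i => ⟨⟨(h1 i).1.one_le, ?_⟩, h1 i⟩⟩
  exact (single_le_prod' (fun j _ => (h1 j).1.one_le) (mem_univ i)).trans h.2

theorem trans_pf_smooth (Y m : ℕ) : (smooth Y m).primeFactors = {p ∈ m.primeFactors | p ≤ Y} :=
  Nat.primeFactors_prod fun _ hp => Nat.prime_of_mem_primeFactors (mem_filter.1 hp).1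

theorem trans_split {m : ℕ} (hm : Squarefree m) (Y : ℕ) :
    smooth Y m * ∏ p ∈ m.primeFactors with Y < p, p = m := by
  have := prod_filter_mul_prod_filter_not m.primeFactors (fun p => p ≤ Y) fun p => p
  simp only [not_le] at this
  rw [smooth, this, Nat.prod_primeFactors_of_squarefree hm]

theorem trans_pf {k Y Z M : ℕ} {q : Fin k → ℕ} (hM : Squarefree M)
    (hY : ∀ p ∈ M.primeFactors, p ≤ Y) (hq : q ∈ Tup k Y Z) :
    smooth Y (M * ∏ i, q i) = M ∧
      {p ∈ (M * ∏ i, q i).primeFactors | Y < p} = univ.image q := by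
  obtain ⟨h1, h2, -⟩ := trans_mem.1 hq
  have e : (M * ∏ i, q i).primeFactors = M.primeFactors ∪ univ.image q := by
    rw [Nat.primeFactors_mul hM.ne_zero (prod_ne_zero_iff.2 fun i _ => (h1 i).1.ne_zero),
      ← prod_image (f := fun p => p) fun i _ j _ e => h2 e, Nat.primeFactors_prod]
    intro p hp
    obtain ⟨i, -, rfl⟩ := mem_image.1 hp
    exact (h1 i).1
  have e1 : ∀ p ∈ univ.image q, Y < p := fun p hp => by
    obtain ⟨i, -, rfl⟩ := mem_image.1 hp
    exact (h1 i).2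
  constructor
  · rw [smooth, e, filter_union, filter_true_of_mem hY,
      filter_false_of_mem fun p hp => not_le.2 (e1 p hp), union_empty,
      Nat.prod_primeFactors_of_squarefree hM]
  · rw [e, filter_union, filter_false_of_mem fun p hp => not_lt.2 (hY p hp),
      filter_true_of_mem e1, empty_union]

theorem card_tup {k Y X M : ℕ} (hM : Squarefree M) (ho : Odd M)
    (hY : ∀ p ∈ M.primeFactors, p ≤ Y) (h2 : 2 ≤ Y) (P : ℕ → Prop) [DecidablePred P] :
    #{q ∈ Tup k Y (X / M) | P (M * ∏ i, q i)} = k.factorial *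
      #{m ∈ SO X | smooth Y m = M ∧ #{p ∈ m.primeFactors | Y < p} = k ∧ P m} := by
  have hM0 : 0 < M := Nat.pos_of_ne_zero hM.ne_zero
  rw [card_eq_sum_card_fiberwise (f := fun q => M * ∏ i, q i)
    (t := {m ∈ SO X | smooth Y m = M ∧ #{p ∈ m.primeFactors | Y < p} = k ∧ P m}), mul_comm,
    ← smul_eq_mul, ← sum_const]
  · refine sum_congr rfl fun m hm => ?_
    obtain ⟨hm1, hm2, hm3, hm4⟩ := mem_filter.1 hm
    obtain ⟨⟨-, hm5⟩, hm6, -⟩ := An.mem_SO.1 hm1
    let f : (Fin k ↪ ({p ∈ m.primeFactors | Y < p} : Finset ℕ)) ↪ Fin k → ℕ :=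
      ⟨fun e i => e i, fun e e' h => by
        ext i
        exact congrFun h i⟩
    have e : {q ∈ {q ∈ Tup k Y (X / M) | P (M * ∏ i, q i)} | M * ∏ i, q i = m} = univ.map f := by
      ext q
      simp only [Finset.mem_filter, Finset.mem_map, mem_univ, true_and]
      constructor
      · rintro ⟨⟨hq, -⟩, rfl⟩
        refine ⟨⟨fun i => ⟨q i, ?_⟩, fun i j e => (trans_mem.1 hq).2.1 (congrArg Subtype.val e)⟩,
          rfl⟩
        rw [(trans_pf hM hY hq).2]
        exact mem_image_of_mem q (mem_univ i)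
      · rintro ⟨e, rfl⟩
        have hi : Function.Injective (f e) := Subtype.val_injective.comp e.injective
        have h3 : univ.image (f e) = {p ∈ m.primeFactors | Y < p} := by
          refine eq_of_subset_of_card_le (fun p hp => ?_) ?_
          · obtain ⟨i, -, rfl⟩ := mem_image.1 hp
            exact (e i).2
          · rw [hm3, card_image_of_injective _ hi, card_univ, Fintype.card_fin]
        have h4 : M * ∏ i, f e i = m := by
          rw [← prod_image (f := fun p => p) fun i _ j _ h => hi h, h3, ← hm2, trans_split hm6]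
        refine ⟨⟨trans_mem.2 ⟨fun i => ?_, hi, ?_⟩, by rwa [h4]⟩, h4⟩
        · obtain ⟨h5, h6⟩ := mem_filter.1 (e i).2
          exact ⟨Nat.prime_of_mem_primeFactors h5, h6⟩
        · rw [Nat.le_div_iff_mul_le hM0, mul_comm, h4]
          exact hm5
    rw [e, card_map, card_univ, Fintype.card_embedding_eq, Fintype.card_coe, hm3,
      Fintype.card_fin, Nat.descFactorial_self]
  · intro q hq
    obtain ⟨hq, hP⟩ := mem_filter.1 (mem_coe.1 hq)
    obtain ⟨h3, h4⟩ := sqf_model hM ho hY h2 hq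
    obtain ⟨h5, h6⟩ := trans_pf hM hY hq
    obtain ⟨-, h7, h8⟩ := trans_mem.1 hq
    refine mem_coe.2 (mem_filter.2 ⟨An.mem_SO.2 ⟨⟨h4.pos, ?_⟩, h3, h4⟩, h5, ?_, hP⟩)
    · rwa [Nat.le_div_iff_mul_le hM0, mul_comm] at h8
    · rw [h6, card_image_of_injective _ h7, card_univ, Fintype.card_fin]

theorem trans_log {v X : ℕ} (hv : 2 ≤ v) (h : Win v X) : 1 + Real.log X ≤ 2 ^ v ^ 12 := by
  have h1 : 2 ^ 12 ≤ v ^ 12 := Nat.pow_le_pow_left hv 12
  have h2 : Nat.log 2 X + 2 ≤ 2 ^ v ^ 12 := by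
    have a1 := Nat.lt_pow_succ_log_self one_lt_two (Nat.log 2 X)
    have a2 : 2 ^ (Nat.log 2 (Nat.log 2 X) + 2) ≤ 2 ^ v ^ 12 :=
      Nat.pow_le_pow_right two_pos (by have := h.1; omega)
    have a3 : 0 < 2 ^ Nat.log 2 (Nat.log 2 X) := by positivity
    rw [pow_succ] at a1
    rw [pow_add] at a2
    omega
  have h3 : Real.log X ≤ (Nat.log 2 X + 1 : ℕ) := by
    rcases Nat.eq_zero_or_pos X with rfl | hX
    · simp
    have a1 : (X : ℝ) ≤ 2 ^ (Nat.log 2 X + 1) := by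
      exact_mod_cast (Nat.lt_pow_succ_log_self one_lt_two X).le
    refine (Real.log_le_log (by exact_mod_cast hX) a1).trans ?_
    rw [Real.log_pow]
    exact mul_le_of_le_one_right (Nat.cast_nonneg _) An.log_two_le
  have h4 : ((Nat.log 2 X + 2 : ℕ) : ℝ) ≤ 2 ^ v ^ 12 := by exact_mod_cast h2
  push_cast at h3 h4
  linarith

theorem trans_Y {v : ℕ} (hv : 13 ≤ v) : (2 : ℝ) ^ (7 * v ^ 24) ≤ (YY v : ℝ) ^ (1 / 24 : ℝ) := by
  have h1 : 7 * v ^ 24 * 24 ≤ v ^ 26 := by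
    have : 13 * 13 ≤ v * v := Nat.mul_le_mul hv hv
    calc 7 * v ^ 24 * 24 = 168 * v ^ 24 := by ring
      _ ≤ v * v * v ^ 24 := Nat.mul_le_mul_right _ (by omega)
      _ = v ^ 26 := by ring
  have h2 : ((2 : ℝ) ^ (7 * v ^ 24)) ^ 24 ≤ YY v := by
    rw [← pow_mul, YY]
    push_cast
    exact pow_le_pow_right₀ one_le_two h1
  have h3 := Real.rpow_le_rpow (by positivity) h2 (by norm_num : (0 : ℝ) ≤ 1 / 24)
  rwa [show (1 / 24 : ℝ) = ((24 : ℕ) : ℝ)⁻¹ by norm_num,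
    Real.pow_rpow_inv_natCast (by positivity) (by norm_num),
    show ((24 : ℕ) : ℝ)⁻¹ = (1 / 24 : ℝ) by norm_num] at h3

theorem trans_err {v X M k : ℕ} {C : ℝ} (hC : 0 < C) (hv : 13 ≤ v) (h : Win v X) (hM : 0 < M)
    (hc : #M.primeFactors ≤ v) (hk : k ≤ v ^ 12) :
    2 ^ k ^ 2 * (Fintype.card (Ty M) : ℝ) ^ 2 * C * (X / M : ℕ) * (1 + Real.log (X / M : ℕ)) ^ k /
      (YY v : ℝ) ^ (1 / 24 : ℝ) ≤ C * X / 2 ^ (3 * v ^ 24) * (1 / M) := by
  have hk2 : k ^ 2 ≤ v ^ 24 := (Nat.pow_le_pow_left hk 2).trans (by rw [← pow_mul])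
  have a1 : (2 : ℝ) ^ k ^ 2 ≤ 2 ^ v ^ 24 := pow_le_pow_right₀ one_le_two hk2
  have a2 : (Fintype.card (Ty M) : ℝ) ^ 2 ≤ 2 ^ (2 * v ^ 24) := by
    have b1 : Fintype.card (Ty M) ≤ 2 ^ v ^ 24 := by
      rw [Fintype.card_prod, Fintype.card_fin, Fintype.card_fun, ZMod.card, Fintype.card_coe,
        show 8 = 2 ^ 3 from rfl, ← pow_add]
      refine Nat.pow_le_pow_right two_pos ?_
      have : v ^ 2 ≤ v ^ 24 := Nat.pow_le_pow_right (by omega) (by norm_num)
      nlinarith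
    rw [mul_comm, pow_mul]
    exact pow_le_pow_left₀ (Nat.cast_nonneg _) (by exact_mod_cast b1) 2
  have a3 : ((X / M : ℕ) : ℝ) ≤ X / M := Nat.cast_div_le
  have a4 : (1 + Real.log (X / M : ℕ)) ^ k ≤ 2 ^ v ^ 24 := by
    have b1 : Real.log (X / M : ℕ) ≤ Real.log X := by
      rcases Nat.eq_zero_or_pos (X / M) with e | e
      · rw [e]
        simpa using Real.log_natCast_nonneg X
      · exact Real.log_le_log (by exact_mod_cast e) (by exact_mod_cast Nat.div_le_self X M)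
    have b2 := trans_log (by omega) h
    calc _ ≤ ((2 : ℝ) ^ v ^ 12) ^ k := pow_le_pow_left₀
          (by linarith [Real.log_natCast_nonneg (X / M)]) (by linarith) k
      _ ≤ ((2 : ℝ) ^ v ^ 12) ^ v ^ 12 := pow_le_pow_right₀ (one_le_pow₀ one_le_two) hk
      _ = 2 ^ v ^ 24 := by rw [← pow_mul, ← pow_add]
  have a5 := trans_Y hv
  have a6 : 0 ≤ 1 + Real.log (X / M : ℕ) := by linarith [Real.log_natCast_nonneg (X / M)]
  calc _ ≤ 2 ^ v ^ 24 * 2 ^ (2 * v ^ 24) * C * (X / M) * 2 ^ v ^ 24 / 2 ^ (7 * v ^ 24) := by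
        gcongr
    _ = C * X / 2 ^ (3 * v ^ 24) * (1 / M) := by
        rw [mul_comm 2 (v ^ 24), mul_comm 7 (v ^ 24), mul_comm 3 (v ^ 24), pow_mul, pow_mul,
          pow_mul]
        field_simp

open Classical in
theorem good_ge {ε : ℝ} (hε : 0 < ε) : ∃ v0 : ℕ, ∀ v, v0 ≤ v → ∀ X, Win v X →
    1 / 48 * (#{m ∈ SO X | TypN v m} : ℝ) ≤ #{m ∈ SO X | m % 8 = 5 ∧ CritN m} + ε * X := by
  obtain ⟨v1, h1⟩ := pr_model
  obtain ⟨C, hC, h2⟩ := equi
  obtain ⟨N, hN⟩ := pow_unbounded_of_one_lt (C / ε) (one_lt_two (α := ℝ))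
  refine ⟨max v1 (max 13 N), fun v hv X hX => ?_⟩
  simp only [max_le_iff] at hv
  obtain ⟨hv1, hv2, hv3⟩ := hv
  have hY : 2 ≤ YY v := Nat.le_self_pow (by positivity) 2
  let S : Finset ℕ := {M ∈ SO X | (∀ p ∈ M.primeFactors, p ≤ YY v) ∧ #M.primeFactors ≤ v}
  let key : ℕ → ℕ × ℕ := fun m => (smooth (YY v) m, #{p ∈ m.primeFactors | YY v < p})
  have step : ∀ x ∈ S ×ˢ range (v ^ 12 + 1),
      1 / 48 * (#{m ∈ {m ∈ SO X | TypN v m} | key m = x} : ℝ) ≤
        #{m ∈ {m ∈ SO X | m % 8 = 5 ∧ CritN m} | key m = x} +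
          C * X / 2 ^ (3 * v ^ 24) * (1 / x.1) := by
    rintro ⟨M, k⟩ hx
    obtain ⟨hM, hk⟩ := mem_product.1 hx
    dsimp only at hM hk ⊢
    obtain ⟨hM1, hM2, hM3⟩ := mem_filter.1 hM
    obtain ⟨⟨hM4, -⟩, hM5, hM6⟩ := An.mem_SO.1 hM1
    have e : ∀ (P : ℕ → Prop) [DecidablePred P],
        (#{q ∈ Tup k (YY v) (X / M) | P (M * ∏ i, q i)} : ℝ) =
        k.factorial * #{m ∈ {m ∈ SO X | P m} | key m = (M, k)} := fun P _ => by
      rw [card_tup hM5 hM6 hM2 hY P, filter_filter]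
      push_cast
      refine congrArg (fun s : Finset ℕ => (k.factorial : ℝ) * #s) (filter_congr fun m _ => ?_)
      simp only [key, Prod.mk.injEq]
      tauto
    have a1 := h2 k (YY v) (X / M) (Ty M) (tyN M) (EM v) hY
    have a2 := trans_err hC hv2 hX hM4 hM3 (Nat.lt_succ_iff.1 (mem_range.1 hk))
    have a3 : 1 / 48 * (#{q ∈ Tup k (YY v) (X / M) | TypN v (M * ∏ i, q i)} : ℝ) ≤
        ∑ q ∈ Tup k (YY v) (X / M), pr (EM v fun i => tyN M (q i)) := by
      rw [mul_comm, ← nsmul_eq_mul, ← sum_const]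
      refine (sum_le_sum fun q hq => ?_).trans
        (sum_le_sum_of_subset_of_nonneg (filter_subset _ _) fun _ _ _ => pr_nonneg)
      obtain ⟨b1, b2⟩ := mem_filter.1 hq
      exact h1 v hv1 M k _ (typ_model hM5 hM6 hM2 hY b1 rfl b2)
    have a4 : (#{q ∈ Tup k (YY v) (X / M) | EM v (fun i => tyN M (q i)) (up q)} : ℝ) ≤
        #{q ∈ Tup k (YY v) (X / M) | (M * ∏ i, q i) % 8 = 5 ∧ CritN (M * ∏ i, q i)} := by
      refine Nat.cast_le.2 (card_le_card fun q hq => ?_)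
      obtain ⟨b1, b2⟩ := mem_filter.1 hq
      exact mem_filter.2 ⟨b1, crit_model hM5 hM6 hM2 hY b1 b2⟩
    have a5 := e (TypN v)
    have a6 := e fun m => m % 8 = 5 ∧ CritN m
    have a7 : (1 : ℝ) ≤ k.factorial := by exact_mod_cast k.factorial_pos
    have a8 : 0 ≤ C * X / 2 ^ (3 * v ^ 24) * (1 / (M : ℝ)) := by positivity
    have a9 := mul_le_mul_of_nonneg_right a7 a8
    refine le_of_mul_le_mul_left ?_ (zero_lt_one.trans_le a7)
    linarith
  have t1 : #{m ∈ SO X | TypN v m} = ∑ x ∈ S ×ˢ range (v ^ 12 + 1),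
      #{m ∈ {m ∈ SO X | TypN v m} | key m = x} := by
    refine card_eq_sum_card_fiberwise fun m hm => ?_
    obtain ⟨hm1, hm2⟩ := mem_filter.1 (mem_coe.1 hm)
    obtain ⟨⟨-, hm3⟩, hm4, hm5⟩ := An.mem_SO.1 hm1
    have hd : smooth (YY v) m ∣ m := Dvd.intro _ (trans_split hm4 _)
    refine mem_coe.2 (mem_product.2 ⟨mem_filter.2 ⟨An.mem_SO.2 ⟨⟨?_, ?_⟩,
      hm4.squarefree_of_dvd hd, hm5.of_dvd_nat hd⟩, fun p hp => ?_, ?_⟩, ?_⟩)
    · exact Nat.pos_of_dvd_of_pos hd hm5.pos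
    · exact (Nat.le_of_dvd hm5.pos hd).trans hm3
    · rw [trans_pf_smooth] at hp
      exact (mem_filter.1 hp).2
    · rw [trans_pf_smooth]
      refine le_trans (card_le_card_of_surjOn (fun p : m.primeFactors => p.1) fun p hp => ?_)
        hm2.bord
      obtain ⟨b1, b2⟩ := mem_filter.1 (mem_coe.1 hp)
      exact ⟨⟨p, b1⟩, by simpa using b2, rfl⟩
    · have := hm2.card
      rw [Fintype.card_coe] at this
      exact mem_range.2 (Nat.lt_succ_of_le ((card_filter_le _ _).trans this))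
  have t2 : ∑ x ∈ S ×ˢ range (v ^ 12 + 1),
      #{m ∈ {m ∈ SO X | m % 8 = 5 ∧ CritN m} | key m = x} ≤
      #{m ∈ SO X | m % 8 = 5 ∧ CritN m} := by
    rw [sum_card_fiberwise_eq_card_filter]
    exact card_filter_le _ _
  have t3 : ∑ x ∈ S ×ˢ range (v ^ 12 + 1), C * X / 2 ^ (3 * v ^ 24) * (1 / (x.1 : ℝ)) ≤ ε * X := by
    rw [← mul_sum, sum_product_right]
    simp only [sum_const, card_range, nsmul_eq_mul]
    have b1 : ∑ M ∈ S, 1 / (M : ℝ) ≤ 2 ^ v ^ 24 :=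
      (sum_le_sum_of_subset_of_nonneg ((filter_subset _ _).trans (filter_subset _ _))
        fun _ _ _ => by positivity).trans ((sum_inv_le X).trans ((trans_log (by omega) hX).trans
          (pow_le_pow_right₀ one_le_two (Nat.pow_le_pow_right (by omega) (by norm_num)))))
    have b2 : ((v ^ 12 + 1 : ℕ) : ℝ) ≤ 2 ^ v ^ 24 := by
      have : v ^ 12 + 1 ≤ 2 ^ v ^ 24 := (Nat.succ_le_of_lt Nat.lt_two_pow_self).trans
        (Nat.pow_le_pow_right two_pos (Nat.pow_le_pow_right (by omega) (by norm_num)))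
      exact_mod_cast this
    have b3 : C / ε ≤ 2 ^ v ^ 24 := hN.le.trans
      (pow_le_pow_right₀ one_le_two (hv3.trans (Nat.le_self_pow (by norm_num) v)))
    calc _ ≤ C * X / 2 ^ (3 * v ^ 24) * (2 ^ v ^ 24 * 2 ^ v ^ 24) := by gcongr
      _ = C / 2 ^ v ^ 24 * X := by
          rw [mul_comm 3 (v ^ 24), pow_mul]
          field_simp
      _ ≤ ε * X := by
          refine mul_le_mul_of_nonneg_right ?_ (Nat.cast_nonneg _)
          rw [div_le_iff₀ (by positivity)]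
          rwa [div_le_iff₀' hε] at b3
  have t4 := sum_le_sum step
  rw [← mul_sum, sum_add_distrib, ← Nat.cast_sum, ← Nat.cast_sum, ← t1] at t4
  have t5 := Nat.cast_le (α := ℝ) |>.2 t2
  linarith

end Pool.Agent.Lib.MP_f8d36e_nt
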